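import Pool.Agent.Lib.MP_77d991_gt.Ex.Defs

open MeasureTheory ProbabilityTheory Set
open scoped RealInnerProductSpace

namespace Pool.Agent.Lib.MP_77d991_gt.Ex

open Pool.Agent.Lib.MP_77d991_gt.As

/-- Radial formula. `integral_std`, then `MeasureTheory.integral_fun_norm_addHaar`. -/
theorem chi_int (n : ℕ) : ∃ c : ℝ, 0 < c ∧ ∀ F : ℝ → ℝ,
    ∫ g, F ‖g‖ ∂stdGaussian (Eu (n + 1)) =
      c * ∫ ρ in Ioi (0 : ℝ), F ρ * (ρ ^ n * Real.exp (-ρ ^ 2 / 2)) := by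
  have h1 : 0 < (volume : Measure (Eu (n + 1))).real (Metric.ball 0 1) :=
    ENNReal.toReal_pos (Metric.measure_ball_pos _ _ one_pos).ne' measure_ball_lt_top.ne
  refine ⟨((n + 1 : ℕ) : ℝ) * (volume : Measure (Eu (n + 1))).real (Metric.ball 0 1) *
    (√(2 * Real.pi))⁻¹ ^ (n + 1), by positivity, fun F => ?_⟩
  have h2 := integral_fun_norm_addHaar (volume : Measure (Eu (n + 1)))
    (fun r : ℝ => ((√(2 * Real.pi))⁻¹ ^ (n + 1) * Real.exp (-r ^ 2 / 2)) • F r)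
  rw [finrank_euclideanSpace_fin] at h2
  rw [integral_std, finrank_euclideanSpace_fin, h2, nsmul_eq_mul, smul_eq_mul, mul_assoc,
    mul_assoc, ← integral_const_mul ((√(2 * Real.pi))⁻¹ ^ (n + 1))]
  refine congrArg _ (congrArg _ ?_)
  refine setIntegral_congr_fun measurableSet_Ioi fun y _ => ?_
  simp only [smul_eq_mul, Nat.add_sub_cancel]
  ring

/-- the radial integrals. -/
noncomputable def a1_I (k : ℕ) : ℝ := ∫ ρ in Ioi (0 : ℝ), ρ ^ k * Real.exp (-ρ ^ 2 / 2)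

theorem a1_I_eq (k : ℕ) : a1_I k =
    (1 / 2 : ℝ) ^ (-((k : ℝ) + 1) / 2) * (1 / 2) * Real.Gamma (((k : ℝ) + 1) / 2) := by
  have h0 : (0 : ℝ) ≤ k := Nat.cast_nonneg k
  rw [← integral_rpow_mul_exp_neg_mul_rpow (p := 2) (q := (k : ℝ)) (b := 1 / 2)
    (by norm_num) (by linarith) (by norm_num), a1_I]
  refine setIntegral_congr_fun measurableSet_Ioi fun y _ => ?_
  rw [Real.rpow_natCast, Real.rpow_two, show -(1 / 2 : ℝ) * y ^ 2 = -y ^ 2 / 2 by ring]

theorem a1_I_pos (k : ℕ) : 0 < a1_I k := by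
  have h := Real.Gamma_pos_of_pos (s := ((k : ℝ) + 1) / 2) (by positivity)
  rw [a1_I_eq]
  positivity

theorem a1_I_rec (k : ℕ) : a1_I (k + 2) = (k + 1) * a1_I k := by
  have e1 : (((k + 2 : ℕ) : ℝ) + 1) / 2 = ((k : ℝ) + 1) / 2 + 1 := by
    push_cast
    ring
  have e2 : -(((k + 2 : ℕ) : ℝ) + 1) / 2 = -((k : ℝ) + 1) / 2 + (-1) := by
    push_cast
    ring
  rw [a1_I_eq, a1_I_eq, e1, e2, Real.Gamma_add_one (by positivity),
    Real.rpow_add (by norm_num), Real.rpow_neg_one]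
  ring

theorem a1_ad (n : ℕ) : ad (n + 1) * a1_I n = a1_I (n + 1) := by
  obtain ⟨c, -, h⟩ := chi_int n
  have h1 := h fun _ => 1
  have h2 := h fun r => r
  simp only [one_mul, integral_const, probReal_univ, smul_eq_mul] at h1
  have h3 : ∫ ρ in Ioi (0 : ℝ), ρ * (ρ ^ n * Real.exp (-ρ ^ 2 / 2)) = a1_I (n + 1) :=
    setIntegral_congr_fun measurableSet_Ioi fun y _ => by ring
  rw [h3] at h2
  rw [ad, h2, mul_right_comm, a1_I, ← h1, one_mul]

theorem ad_pos {n : ℕ} (hn : 0 < n) : 0 < ad n := by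
  obtain ⟨m, rfl⟩ := Nat.exists_eq_succ_of_ne_zero hn.ne'
  exact (mul_pos_iff_of_pos_right (a1_I_pos m)).1 ((a1_ad m).symm ▸ a1_I_pos (m + 1))

/-- With `I k = ∫ ρ^k exp(-ρ²/2)` on `Ioi 0`: `ad (n+1) = I (n+1) / I n`, `I (k+2) = (k+1) I k`
(Gamma function, `integral_rpow_mul_exp_neg_mul_rpow`, or compare with `int_norm_sq`). -/
theorem ad_mul (n : ℕ) : ad n * ad (n + 1) = n := by
  rcases n with _ | n
  · have h : ad 0 = 0 := by
      rw [ad]
      simp only [Subsingleton.elim _ (0 : Eu 0), norm_zero, integral_zero]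
    rw [h, zero_mul, Nat.cast_zero]
  · refine mul_right_cancel₀ (a1_I_pos n).ne' ?_
    rw [mul_right_comm, a1_ad, mul_comm, a1_ad, a1_I_rec]
    push_cast
    ring

/-- `mean_norm_sq_le` with the identity map. -/
theorem ad_sq_le (n : ℕ) : ad n ^ 2 ≤ n := by
  have h := mean_norm_sq_le (ContinuousLinearMap.id ℝ (Eu n))
  simp only [ContinuousLinearMap.id_apply] at h
  rwa [int_norm_sq, finrank_euclideanSpace_fin] at h

theorem a1_two (n : ℕ) : (n : ℝ) ^ 2 * ad (n + 2) ^ 2 = (n + 1) ^ 2 * ad n ^ 2 := by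
  have h1 := ad_mul n
  have h2 := ad_mul (n + 1)
  push_cast at h2
  have h3 : (n : ℝ) * ad (n + 2) = (n + 1) * ad n := by
    linear_combination ad n * h2 - ad (n + 2) * h1
  rw [← mul_pow, h3, mul_pow]

theorem a1_low (n : ℕ) : (n : ℝ) ^ 2 ≤ (n + 1) * ad n ^ 2 := by
  have h1 := ad_sq_le (n + 1)
  push_cast at h1
  rw [← ad_mul n, mul_pow, ad_mul n, mul_comm]
  exact mul_le_mul_of_nonneg_right h1 (sq_nonneg _)

/-- `q n = ad n ^ 2 / (n - 1/2)` satisfies `q (n+2) ≤ q n` because `ad (n+2) = (n+1)/n * ad n`, and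
`q n ≥ n² / ((n+1)(n-1/2))` from `ad_mul`, `ad_sq_le`; let the index go to infinity. -/
theorem ad_sq_ge (n : ℕ) : (n : ℝ) - 1 / 2 ≤ ad n ^ 2 := by
  by_contra hlt
  rw [not_le] at hlt
  have hp : 0 < (n : ℝ) - 1 / 2 := (sq_nonneg _).trans_lt hlt
  obtain ⟨θ, hθ⟩ : ∃ θ : ℝ, ad n ^ 2 = θ * ((n : ℝ) - 1 / 2) :=
    ⟨_, (div_mul_cancel₀ _ hp.ne').symm⟩
  have t0 : 0 ≤ θ := le_of_mul_le_mul_right (by rw [zero_mul, ← hθ]; exact sq_nonneg _) hp
  have t1 : θ < 1 := lt_of_mul_lt_mul_right (by rwa [one_mul, ← hθ]) hp.le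
  have key : ∀ k : ℕ, ad (n + 2 * k) ^ 2 ≤ θ * (((n + 2 * k : ℕ) : ℝ) - 1 / 2) := by
    intro k
    induction k with
    | zero => simpa using hθ.le
    | succ k ih =>
      have h1 := a1_two (n + 2 * k)
      have hm : (0 : ℝ) < ((n + 2 * k : ℕ) : ℝ) := by
        push_cast
        linarith [Nat.cast_nonneg (α := ℝ) k]
      rw [show n + 2 * (k + 1) = n + 2 * k + 2 by ring, Nat.cast_add (n + 2 * k) 2, Nat.cast_ofNat]
      generalize ((n + 2 * k : ℕ) : ℝ) = m at h1 hm ih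
      refine le_of_mul_le_mul_left ?_ (pow_pos hm 2)
      rw [h1]
      have h2 := mul_le_mul_of_nonneg_left ih (sq_nonneg (m + 1))
      nlinarith
  obtain ⟨k, hk⟩ := exists_nat_gt (1 / (1 - θ))
  rw [div_lt_iff₀ (by linarith)] at hk
  have h1 := a1_low (n + 2 * k)
  have h2 := key k
  have hm : (k : ℝ) < ((n + 2 * k : ℕ) : ℝ) := by
    push_cast
    linarith [Nat.cast_nonneg (α := ℝ) k]
  have hk0 : (0 : ℝ) ≤ k := Nat.cast_nonneg k
  generalize ((n + 2 * k : ℕ) : ℝ) = m at h1 h2 hm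
  have h3 := mul_le_mul_of_nonneg_left h2 (show 0 ≤ m + 1 by linarith)
  have h4 : 1 < m * (1 - θ) := hk.trans (mul_lt_mul_of_pos_right hm (by linarith))
  have h5 : m < m * (m * (1 - θ)) := lt_mul_of_one_lt_right (by linarith) h4
  have h6 : θ * m ≤ m := mul_le_of_le_one_left (by linarith) t1.le
  nlinarith

end Pool.Agent.Lib.MP_77d991_gt.Ex
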