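import Pool.Agent.Lib.MP_77d991_gt.Ex.A1

open MeasureTheory ProbabilityTheory Set
open scoped RealInnerProductSpace

namespace Pool.Agent.Lib.MP_77d991_gt.Ex

open Pool.Agent.Lib.MP_77d991_gt.As

section
variable {E : Type*} [NormedAddCommGroup E] [InnerProductSpace ℝ E] [FiniteDimensional ℝ E]
  [MeasurableSpace E] [BorelSpace E]

lemma a2_mom [Nontrivial E] {j : ℝ} (hj : -(Module.finrank ℝ E : ℝ) < j) :
    ∫ g, ‖g‖ ^ j ∂stdGaussian E =
      (Module.finrank ℝ E * (volume : Measure E).real (Metric.ball 0 1) *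
        (√(2 * Real.pi))⁻¹ ^ Module.finrank ℝ E) *
      ((1 / 2 : ℝ) ^ (-(Module.finrank ℝ E + j) / 2) * (1 / 2) *
        Real.Gamma ((Module.finrank ℝ E + j) / 2)) := by
  set n := Module.finrank ℝ E with hn
  have hn0 : 0 < n := Module.finrank_pos
  have h1 := integral_fun_norm_addHaar (volume : Measure E)
    (fun r : ℝ => ((√(2 * Real.pi))⁻¹ ^ n * Real.exp (-r ^ 2 / 2)) • r ^ j)
  have h2 := integral_rpow_mul_exp_neg_mul_rpow (p := 2) (q := (n : ℝ) - 1 + j) (b := 1 / 2)
    (by norm_num) (by linarith) (by norm_num)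
  have e : (n : ℝ) - 1 + j + 1 = n + j := by ring
  rw [e] at h2
  rw [integral_std, h1, ← h2, nsmul_eq_mul, smul_eq_mul, mul_assoc, mul_assoc,
    ← integral_const_mul ((√(2 * Real.pi))⁻¹ ^ n)]
  refine congrArg _ (congrArg _ ?_)
  refine setIntegral_congr_fun measurableSet_Ioi fun y hy => ?_
  have hy0 : (0 : ℝ) < y := hy
  simp only [smul_eq_mul]
  rw [Real.rpow_add hy0, ← Nat.cast_pred hn0, Real.rpow_natCast, Real.rpow_two]
  rw [show -(1 / 2 : ℝ) * y ^ 2 = -y ^ 2 / 2 by ring]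
  ring

/-- `E ‖g‖^(j+2) = (d+j) E ‖g‖^j` for real `j > -d`. -/
theorem a2_rec [Nontrivial E] {j : ℝ} (hj : -(Module.finrank ℝ E : ℝ) < j) :
    ∫ g, ‖g‖ ^ (j + 2) ∂stdGaussian E =
      (Module.finrank ℝ E + j) * ∫ g, ‖g‖ ^ j ∂stdGaussian E := by
  rw [a2_mom hj, a2_mom (by linarith)]
  set n : ℝ := (Module.finrank ℝ E : ℝ)
  have e1 : (n + (j + 2)) / 2 = (n + j) / 2 + 1 := by ring
  have e2 : -(n + (j + 2)) / 2 = -(n + j) / 2 + (-1) := by ring
  rw [e1, e2, Real.Gamma_add_one (by linarith : (0 : ℝ) < (n + j) / 2).ne',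
    Real.rpow_add (by norm_num), Real.rpow_neg_one]
  ring

lemma a2_pos [Nontrivial E] {j : ℝ} (hj : -(Module.finrank ℝ E : ℝ) < j) :
    0 < ∫ g, ‖g‖ ^ j ∂stdGaussian E := by
  rw [a2_mom hj]
  have hn0 : (0 : ℝ) < Module.finrank ℝ E := by exact_mod_cast Module.finrank_pos
  have h1 : 0 < (volume : Measure E).real (Metric.ball 0 1) :=
    ENNReal.toReal_pos (Metric.measure_ball_pos _ _ one_pos).ne' measure_ball_lt_top.ne
  have h2 := Real.Gamma_pos_of_pos (s := (Module.finrank ℝ E + j) / 2) (by linarith)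
  positivity

lemma a2_int [Nontrivial E] {j : ℝ} (hj : -(Module.finrank ℝ E : ℝ) < j) :
    Integrable (fun g : E => ‖g‖ ^ j) (stdGaussian E) :=
  Integrable.of_integral_ne_zero (a2_pos hj).ne'

end

lemma a2_real : stdGaussian ℝ = gaussianReal 0 1 := by
  have h2 := map_inner (E := ℝ) 1
  simp only [norm_one, one_pow, Real.toNNReal_one] at h2
  rw [← h2]
  simp

lemma a2_sq : ∫ g : ℝ, ‖g‖ ^ (2 : ℝ) ∂stdGaussian ℝ = 1 := by
  have h := a2_rec (E := ℝ) (j := 0) (by simp)
  simpa using h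

theorem inv_norm {n : ℕ} (hn : 0 < n) :
    Integrable (fun g : Eu (n + 1) => ‖g‖⁻¹) (stdGaussian (Eu (n + 1))) ∧
      ∫ g, ‖g‖⁻¹ ∂stdGaussian (Eu (n + 1)) = (ad n)⁻¹ := by
  have h0 : (0 : ℝ) < n := by exact_mod_cast hn
  have hj : -(Module.finrank ℝ (Eu (n + 1)) : ℝ) < -1 := by
    simp only [finrank_euclideanSpace, Fintype.card_fin]
    push_cast
    linarith
  have h1 := a2_int hj
  have h2 := a2_rec hj
  simp only [Real.rpow_neg_one] at h1 h2
  refine ⟨h1, ?_⟩
  rw [show (-1 : ℝ) + 2 = 1 by norm_num] at h2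
  simp only [Real.rpow_one, finrank_euclideanSpace, Fintype.card_fin] at h2
  have h3 := ad_mul n
  rw [ad.eq_1 (n + 1), h2] at h3
  refine eq_inv_of_mul_eq_one_right (mul_left_cancel₀ h0.ne' ?_)
  push_cast at h3
  linarith

theorem inv_norm_sq (n : ℕ) :
    Integrable (fun g : Eu (n + 3) => (‖g‖⁻¹) ^ 2) (stdGaussian (Eu (n + 3))) := by
  have hj : -(Module.finrank ℝ (Eu (n + 3)) : ℝ) < -2 := by
    simp only [finrank_euclideanSpace, Fintype.card_fin]
    push_cast
    linarith [Nat.cast_nonneg (α := ℝ) n]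
  have h1 := a2_int hj
  simp only [Real.rpow_neg (norm_nonneg _), Real.rpow_two] at h1
  simpa only [inv_pow] using h1

/-- The law of the norm in dimension `n + 1` has density `ad (n+1) / ρ` with respect to the law in
dimension `n + 2` (from `chi_int`; indicator functions, `Measure.ext`). -/
theorem chi_dens (n : ℕ) : (stdGaussian (Eu (n + 1))).map (fun g => ‖g‖) =
    ((stdGaussian (Eu (n + 2))).map fun g => ‖g‖).withDensity
      fun ρ => ENNReal.ofReal (ad (n + 1) / ρ) := by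
  obtain ⟨c, -, hc⟩ := chi_int n
  obtain ⟨c', -, hc'⟩ := chi_int (n + 1)
  have e : c = c' * ad (n + 1) := by
    have h1 := hc fun ρ => ρ
    have h2 := hc' fun _ => 1
    rw [← ad] at h1
    simp only [integral_const, probReal_univ, smul_eq_mul, mul_one, one_mul] at h2
    simp only [← mul_assoc, ← pow_succ'] at h1
    rw [h1, mul_left_comm, ← h2, mul_one]
  have h0 := (ad_pos (Nat.succ_pos n)).le
  have hm : Measurable fun ρ : ℝ => ad (n + 1) / ρ := by fun_prop
  ext s hs
  have h3 : Integrable (fun ρ : ℝ => ad (n + 1) / ρ)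
      ((stdGaussian (Eu (n + 2))).map fun g => ‖g‖) := by
    rw [integrable_map_measure hm.aestronglyMeasurable (by fun_prop)]
    exact (inv_norm (Nat.succ_pos n)).1.const_mul (ad (n + 1))
  have h4 : 0 ≤ᵐ[(stdGaussian (Eu (n + 2))).map fun g => ‖g‖] fun ρ : ℝ => ad (n + 1) / ρ :=
    (ae_map_iff (by fun_prop) (measurableSet_le measurable_const hm)).2
      (.of_forall fun g => div_nonneg h0 (norm_nonneg g))
  rw [withDensity_apply _ hs,
    ← ofReal_integral_eq_lintegral_ofReal h3.integrableOn (ae_restrict_of_ae h4),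
    ← integral_indicator hs,
    integral_map (by fun_prop) (hm.indicator hs).aestronglyMeasurable, hc',
    ← ofReal_measureReal, ← integral_indicator_one hs,
    integral_map (by fun_prop) (measurable_one.indicator hs).aestronglyMeasurable, hc, e, mul_assoc,
    ← integral_const_mul]
  refine congrArg _ (congrArg _ (setIntegral_congr_fun measurableSet_Ioi fun ρ hρ => ?_))
  have h5 : ρ ≠ 0 := ne_of_gt hρ
  by_cases h6 : ρ ∈ s
  · simp only [indicator_of_mem h6, Pi.one_apply, pow_succ ρ n]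
    field_simp
  · simp [indicator_of_notMem h6]

theorem m4_eq : m4 = 3 := by
  have h := a2_rec (E := ℝ) (j := 2) (by simp only [Module.finrank_self]; norm_num)
  rw [a2_sq, a2_real, show (2 : ℝ) + 2 = (4 : ℕ) by norm_num] at h
  simp only [Real.rpow_natCast, Real.norm_eq_abs, Even.pow_abs (show Even 4 by decide),
    Module.finrank_self] at h
  rw [m4, h]
  norm_num

theorem alp_pos : 0 < alp ∧ alp ≤ 1 := by
  have h1 := a2_pos (E := ℝ) (j := 1) (by simp only [Module.finrank_self]; norm_num)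
  have h2 := mean_norm_sq_le (ContinuousLinearMap.id ℝ ℝ)
  have h3 := a2_sq
  simp only [Real.rpow_one, Real.rpow_two, ContinuousLinearMap.id_apply] at h1 h2 h3
  rw [h3] at h2
  rw [a2_real] at h1 h2
  exact ⟨h1, (sq_le_one_iff₀ h1.le).1 h2⟩

end Pool.Agent.Lib.MP_77d991_gt.Ex
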