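import Pool.Agent.Lib.MP_77d991_gt.Ex.A2

open MeasureTheory ProbabilityTheory Set
open scoped RealInnerProductSpace

namespace Pool.Agent.Lib.MP_77d991_gt.Ex

open Pool.Agent.Lib.MP_77d991_gt.As

section
variable {E : Type*} [NormedAddCommGroup E] [InnerProductSpace ℝ E] [FiniteDimensional ℝ E]
  [MeasurableSpace E] [BorelSpace E]

lemma a3_polar [Nontrivial E] {F : Type*} [NormedAddCommGroup F] [NormedSpace ℝ F]
    [CompleteSpace F] (f : E → F) (hf : ∀ (c : ℝ) (y : E), 0 < c → f (c • y) = f y) (ρ : ℝ → ℝ) :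
    ∫ g, ρ ‖g‖ • f g ∂stdGaussian E =
      (∫ r : Ioi (0 : ℝ), (√(2 * Real.pi))⁻¹ ^ Module.finrank ℝ E * Real.exp (-r.1 ^ 2 / 2) * ρ r.1
        ∂Measure.volumeIoiPow (Module.finrank ℝ E - 1)) •
      ∫ θ : Metric.sphere (0 : E) 1, f θ.1 ∂(volume : Measure E).toSphere := by
  set φ : ℝ → ℝ := fun r =>
    (√(2 * Real.pi))⁻¹ ^ Module.finrank ℝ E * Real.exp (-r ^ 2 / 2) * ρ r with hφ
  have e1 : ∫ g, ρ ‖g‖ • f g ∂stdGaussian E = ∫ g : E, φ ‖g‖ • f g := by
    rw [integral_std]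
    congr 1
    funext g
    rw [smul_smul]
  have e2 : ∫ g : E, φ ‖g‖ • f g =
      ∫ x : ({(0 : E)}ᶜ : Set E), φ ‖x.1‖ • f x.1 ∂((volume : Measure E).comap (↑)) := by
    rw [integral_subtype_comap (measurableSet_singleton _).compl fun x => φ ‖x‖ • f x,
      restrict_compl_singleton]
  have e3 := (volume : Measure E).measurePreserving_homeomorphUnitSphereProd.integral_comp
    (Homeomorph.measurableEmbedding _)
    (fun p : Metric.sphere (0 : E) 1 × Ioi (0 : ℝ) => φ p.2.1 • f p.1.1)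
  have e4 : ∀ x : ({(0 : E)}ᶜ : Set E),
      φ ((homeomorphUnitSphereProd E) x).2.1 • f ((homeomorphUnitSphereProd E) x).1.1 =
        φ ‖x.1‖ • f x.1 := fun x => by
    have hx : 0 < ‖x.1‖ := norm_pos_iff.2 x.2
    rw [homeomorphUnitSphereProd_apply_snd_coe, homeomorphUnitSphereProd_apply_fst_coe,
      hf _ _ (inv_pos.2 hx)]
  simp only [e4] at e3
  rw [e1, e2, e3, ← integral_prod_swap]
  exact integral_prod_smul (fun r : Ioi (0 : ℝ) => φ r.1) (fun θ : Metric.sphere (0 : E) 1 => f θ.1)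

/-- `‖g‖` and `g / ‖g‖` are independent: no integrability or measurability is needed. -/
theorem a3_indep [Nontrivial E] {F : Type*} [NormedAddCommGroup F] [NormedSpace ℝ F]
    [CompleteSpace F] (f : E → F) (hf : ∀ (c : ℝ) (y : E), 0 < c → f (c • y) = f y) (ρ : ℝ → ℝ) :
    ∫ g, ρ ‖g‖ • f g ∂stdGaussian E =
      (∫ g, ρ ‖g‖ ∂stdGaussian E) • ∫ g, f g ∂stdGaussian E := by
  have h1 := a3_polar f hf ρ
  have h2 := a3_polar f hf (fun _ => 1)
  have h3 := a3_polar (E := E) (fun _ => (1 : ℝ)) (fun _ _ _ => rfl) ρ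
  have h4 := a3_polar (E := E) (fun _ => (1 : ℝ)) (fun _ _ _ => rfl) (fun _ => 1)
  simp only [one_smul, smul_eq_mul, mul_one] at h2 h3 h4
  rw [h1, h2, h3, smul_smul]
  congr 1
  have h5 : ∫ _g : E, (1 : ℝ) ∂stdGaussian E = 1 := by simp
  rw [h5] at h4
  rw [mul_assoc, mul_comm (∫ _θ : Metric.sphere (0 : E) 1, (1 : ℝ) ∂(volume : Measure E).toSphere),
    ← h4, mul_one]

theorem a3_ne {e : E} (he : e ≠ 0) : ∀ᵐ g ∂stdGaussian E, g ≠ 0 := by
  filter_upwards [assel_ae e] with g hg h0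
  rw [h0, inner_zero_right] at hg
  exact hg.elim he fun h => h rfl

end

section
variable {d : ℕ}

theorem a3_ee (hd : 0 < d) : (ee ⟨0, hd⟩ : Eu d) ≠ 0 := by
  rw [← norm_ne_zero_iff]
  simp [ee]

theorem a3_nz_smul {c : ℝ} (hc : 0 < c) (y : Eu d) : nz (c • y) = nz y := by
  rw [nz, nz, norm_smul, Real.norm_of_nonneg hc.le, smul_smul, mul_inv, mul_right_comm,
    inv_mul_cancel₀ hc.ne', one_mul]

theorem a3_mul (hd : 0 < d) (f : Eu d → ℝ) (ρ : ℝ → ℝ) :
    ∫ g, ρ ‖g‖ * f (nz g) ∂stdGaussian (Eu d) =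
      (∫ g, ρ ‖g‖ ∂stdGaussian (Eu d)) * ∫ g, f (nz g) ∂stdGaussian (Eu d) := by
  have : Nontrivial (Eu d) := ⟨_, _, a3_ee hd⟩
  exact a3_indep (fun g => f (nz g)) (fun c y hc => by rw [a3_nz_smul hc]) ρ

instance sph_prob : IsProbabilityMeasure (sph d) :=
  Measure.isProbabilityMeasure_map measurable_nz.aemeasurable

instance tl_prob (n : ℕ) : IsProbabilityMeasure (tl n) :=
  Measure.isProbabilityMeasure_map (Measurable.aemeasurable (by fun_prop))

theorem sph_unit (hd : 0 < d) : ∀ᵐ u ∂sph d, ‖u‖ = 1 := by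
  refine (ae_map_iff measurable_nz.aemeasurable
    (measurableSet_eq_fun measurable_norm measurable_const)).2 ?_
  filter_upwards [a3_ne (a3_ee hd)] with g hg using asxi_nz_one hg

theorem sph_int {F : Type*} [NormedAddCommGroup F] [NormedSpace ℝ F] [MeasurableSpace F]
    [BorelSpace F] [SecondCountableTopology F] {f : Eu d → F} (hf : Measurable f) :
    ∫ u, f u ∂sph d = ∫ g, f (nz g) ∂stdGaussian (Eu d) :=
  integral_map measurable_nz.aemeasurable hf.aestronglyMeasurable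

theorem sph_map (O : Eu d ≃ₗᵢ[ℝ] Eu d) : (sph d).map O = sph d := by
  have e : O ∘ nz = nz ∘ O := funext fun g => (asrad_nz_map O g).symm
  rw [sph, Measure.map_map O.continuous.measurable measurable_nz, e,
    ← Measure.map_map measurable_nz O.continuous.measurable, stdGaussian_map]

theorem exists_Haar (d : ℕ) : ∃ (Ω : Type) (_ : MeasurableSpace Ω) (ν : Measure Ω)
    (U : Ω → (Eu d ≃ₗᵢ[ℝ] Eu d)), Haar ν U := by
  obtain ⟨Ω, m, ν, U, h1, h2, h3⟩ := exists_haar d
  exact ⟨Ω, m, ν, U, h1, h2, h3⟩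

/-- For every unit `e'` the laws of `U e` and `U e'` agree (`exists_iso_frame`, `inv`); take
`e' = nz g`, Fubini, and `U g` is Gaussian for fixed `ω`. -/
theorem Haar.law {Ω : Type} [MeasurableSpace Ω] {ν : Measure Ω} {U : Ω → (Eu d ≃ₗᵢ[ℝ] Eu d)}
    (H : Haar ν U) {e : Eu d} (he : ‖e‖ = 1) : ν.map (fun ω => U ω e) = sph d := by
  have := H.prob
  have hm : Measurable fun ω => U ω e := H.meas.comp (measurable_id.prodMk measurable_const)
  have := Measure.isProbabilityMeasure_map (μ := ν) hm.aemeasurable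
  refine ext_of_forall_integral_eq_of_IsFiniteMeasure fun f => ?_
  have hf : Measurable f := f.continuous.measurable
  have h1 : ∀ᵐ g ∂stdGaussian (Eu d), ∫ ω, f (U ω e) ∂ν = ∫ ω, f (U ω (nz g)) ∂ν := by
    filter_upwards [a3_ne (e := e) (by rw [← norm_ne_zero_iff, he]; exact one_ne_zero)] with g hg
    have h2 := H.inv (ℝ ∙ (e - nz g))ᗮ.reflection (fun z => f (z 0)) fun _ => e
    rw [Submodule.reflection_sub (he.trans (asxi_nz_one hg).symm)] at h2
    exact h2.symm
  have h3 : Integrable (Function.uncurry fun (g : Eu d) ω => f (U ω (nz g)))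
      ((stdGaussian (Eu d)).prod ν) :=
    Integrable.of_bound (C := ‖f‖) (hf.comp (H.meas.comp (measurable_snd.prodMk
      (measurable_nz.comp measurable_fst)))).aestronglyMeasurable
      (.of_forall fun p => f.norm_coe_le_norm _)
  have h4 : ∀ ω, ∫ g, f (U ω (nz g)) ∂stdGaussian (Eu d) = ∫ u, f u ∂sph d := fun ω => by
    rw [sph_int hf, ← integral_comp_iso (U ω) fun g => f (nz g)]
    simp only [asrad_nz_map]
  rw [integral_map hm.aemeasurable hf.aestronglyMeasurable]
  calc ∫ ω, f (U ω e) ∂ν = ∫ _g, (∫ ω, f (U ω e) ∂ν) ∂stdGaussian (Eu d) := by simp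
    _ = ∫ ω, (∫ g, f (U ω (nz g)) ∂stdGaussian (Eu d)) ∂ν := by
      rw [integral_congr_ae h1, integral_integral_swap h3]
    _ = _ := by simp [h4]

/-- Norm and direction are independent: `E Ψ(‖g‖, nz g) = E E Ψ(‖g‖, U (nz g))`, then `Haar.law`. -/
theorem indep (hd : 0 < d) : (stdGaussian (Eu d)).map (fun g => (‖g‖, nz g)) =
    ((stdGaussian (Eu d)).map fun g => ‖g‖).prod (sph d) := by
  have hm : Measurable fun g : Eu d => (‖g‖, nz g) := measurable_norm.prodMk measurable_nz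
  have := Measure.isProbabilityMeasure_map (μ := stdGaussian (Eu d)) hm.aemeasurable
  have := Measure.isProbabilityMeasure_map (μ := stdGaussian (Eu d))
    (measurable_norm (α := Eu d)).aemeasurable
  refine (Measure.prod_eq fun s t hs ht => ?_).symm
  rw [← ENNReal.toReal_eq_toReal_iff' (by finiteness) (by finiteness), ENNReal.toReal_mul,
    ← measureReal_def, ← measureReal_def, ← measureReal_def, ← integral_indicator_one hs,
    ← integral_indicator_one ht, ← integral_indicator_one (hs.prod ht),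
    sph_int (measurable_one.indicator ht),
    integral_map hm.aemeasurable (measurable_one.indicator (hs.prod ht)).aestronglyMeasurable,
    integral_map measurable_norm.aemeasurable (measurable_one.indicator hs).aestronglyMeasurable,
    ← a3_mul hd]
  congr 1
  funext g
  exact indicator_prod_one

/-- Homogeneous functions. -/
theorem rad (hd : 0 < d) {F : Eu d → ℝ} (hF : Measurable F) (k : ℕ) {C : ℝ}
    (hb : ∀ u, ‖u‖ = 1 → |F u| ≤ C) (hh : ∀ (c : ℝ) (y : Eu d), 0 < c → F (c • y) = c ^ k * F y) :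
    ∫ g, F g ∂stdGaussian (Eu d) = (∫ g, ‖g‖ ^ k ∂stdGaussian (Eu d)) * ∫ u, F u ∂sph d := by
  have _ := hb
  rw [sph_int hF, ← a3_mul hd F fun r => r ^ k]
  refine integral_congr_ae ?_
  filter_upwards [a3_ne (a3_ee hd)] with g hg
  rw [← hh _ _ (norm_pos_iff.2 hg), asrad_smul_nz]

end

end Pool.Agent.Lib.MP_77d991_gt.Ex
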