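import Pool.Agent.Lib.MP_77d991_gt.Ex.A3

open MeasureTheory ProbabilityTheory Set
open scoped RealInnerProductSpace

namespace Pool.Agent.Lib.MP_77d991_gt.Ex

open Pool.Agent.Lib.MP_77d991_gt.As

section
variable {E : Type*} [NormedAddCommGroup E] [InnerProductSpace ℝ E] [FiniteDimensional ℝ E]
  [MeasurableSpace E] [BorelSpace E]

lemma a4_rad_polar [Nontrivial E] {F : Type*} [NormedAddCommGroup F] [NormedSpace ℝ F]
    [CompleteSpace F] (f : E → F) (hf : ∀ (c : ℝ) (y : E), 0 < c → f (c • y) = f y) (ρ : ℝ → ℝ) :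
    ∫ g, ρ ‖g‖ • f g ∂stdGaussian E =
      (∫ r : Ioi (0 : ℝ), (√(2 * Real.pi))⁻¹ ^ Module.finrank ℝ E * Real.exp (-r.1 ^ 2 / 2) * ρ r.1
        ∂Measure.volumeIoiPow (Module.finrank ℝ E - 1)) •
      ∫ θ : Metric.sphere (0 : E) 1, f θ.1 ∂(volume : Measure E).toSphere := by
  set φ : ℝ → ℝ := fun r =>
    (√(2 * Real.pi))⁻¹ ^ Module.finrank ℝ E * Real.exp (-r ^ 2 / 2) * ρ r with hφ
  have e1 : ∫ g, ρ ‖g‖ • f g ∂stdGaussian E = ∫ g : E, φ ‖g‖ • f g := by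
    rw [integral_std]
    congr 1
    funext g
    rw [smul_smul]
  have e2 : ∫ g : E, φ ‖g‖ • f g =
      ∫ x : ({(0 : E)}ᶜ : Set E), φ ‖x.1‖ • f x.1 ∂((volume : Measure E).comap (↑)) := by
    rw [integral_subtype_comap (measurableSet_singleton _).compl fun x => φ ‖x‖ • f x,
      restrict_compl_singleton]
  have e3 := (volume : Measure E).measurePreserving_homeomorphUnitSphereProd.integral_comp
    (Homeomorph.measurableEmbedding _)
    (fun p : Metric.sphere (0 : E) 1 × Ioi (0 : ℝ) => φ p.2.1 • f p.1.1)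
  have e4 : ∀ x : ({(0 : E)}ᶜ : Set E),
      φ ((homeomorphUnitSphereProd E) x).2.1 • f ((homeomorphUnitSphereProd E) x).1.1 =
        φ ‖x.1‖ • f x.1 := fun x => by
    have hx : 0 < ‖x.1‖ := norm_pos_iff.2 x.2
    rw [homeomorphUnitSphereProd_apply_snd_coe, homeomorphUnitSphereProd_apply_fst_coe,
      hf _ _ (inv_pos.2 hx)]
  simp only [e4] at e3
  rw [e1, e2, e3, ← integral_prod_swap]
  exact integral_prod_smul (fun r : Ioi (0 : ℝ) => φ r.1) (fun θ : Metric.sphere (0 : E) 1 => f θ.1)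

/-- `‖g‖` and `g / ‖g‖` are independent: no integrability or measurability is needed. -/
theorem a4_rad_indep [Nontrivial E] {F : Type*} [NormedAddCommGroup F] [NormedSpace ℝ F]
    [CompleteSpace F] (f : E → F) (hf : ∀ (c : ℝ) (y : E), 0 < c → f (c • y) = f y) (ρ : ℝ → ℝ) :
    ∫ g, ρ ‖g‖ • f g ∂stdGaussian E =
      (∫ g, ρ ‖g‖ ∂stdGaussian E) • ∫ g, f g ∂stdGaussian E := by
  have h1 := a4_rad_polar f hf ρ
  have h2 := a4_rad_polar f hf (fun _ => 1)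
  have h3 := a4_rad_polar (E := E) (fun _ => (1 : ℝ)) (fun _ _ _ => rfl) ρ
  have h4 := a4_rad_polar (E := E) (fun _ => (1 : ℝ)) (fun _ _ _ => rfl) (fun _ => 1)
  simp only [one_smul, smul_eq_mul, mul_one] at h2 h3 h4
  rw [h1, h2, h3, smul_smul]
  congr 1
  have h5 : ∫ _g : E, (1 : ℝ) ∂stdGaussian E = 1 := by simp
  rw [h5] at h4
  rw [mul_assoc, mul_comm (∫ _θ : Metric.sphere (0 : E) 1, (1 : ℝ) ∂(volume : Measure E).toSphere),
    ← h4, mul_one]

lemma a4_mom_rpow [Nontrivial E] {j : ℝ} (hj : -(Module.finrank ℝ E : ℝ) < j) :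
    ∫ g, ‖g‖ ^ j ∂stdGaussian E =
      (Module.finrank ℝ E * (volume : Measure E).real (Metric.ball 0 1) *
        (√(2 * Real.pi))⁻¹ ^ Module.finrank ℝ E) *
      ((1 / 2 : ℝ) ^ (-(Module.finrank ℝ E + j) / 2) * (1 / 2) *
        Real.Gamma ((Module.finrank ℝ E + j) / 2)) := by
  set n := Module.finrank ℝ E with hn
  have hn0 : 0 < n := Module.finrank_pos
  have h1 := integral_fun_norm_addHaar (volume : Measure E)
    (fun r : ℝ => ((√(2 * Real.pi))⁻¹ ^ n * Real.exp (-r ^ 2 / 2)) • r ^ j)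
  have h2 := integral_rpow_mul_exp_neg_mul_rpow (p := 2) (q := (n : ℝ) - 1 + j) (b := 1 / 2)
    (by norm_num) (by linarith) (by norm_num)
  have e : (n : ℝ) - 1 + j + 1 = n + j := by ring
  rw [e] at h2
  rw [integral_std, h1, ← h2, nsmul_eq_mul, smul_eq_mul, mul_assoc, mul_assoc,
    ← integral_const_mul ((√(2 * Real.pi))⁻¹ ^ n)]
  refine congrArg _ (congrArg _ ?_)
  refine setIntegral_congr_fun measurableSet_Ioi fun y hy => ?_
  have hy0 : (0 : ℝ) < y := hy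
  simp only [smul_eq_mul]
  rw [Real.rpow_add hy0, ← Nat.cast_pred hn0, Real.rpow_natCast, Real.rpow_two]
  rw [show -(1 / 2 : ℝ) * y ^ 2 = -y ^ 2 / 2 by ring]
  ring

/-- `E ‖g‖^(j+2) = (d+j) E ‖g‖^j` for real `j > -d`. -/
theorem a4_chi_rec_rpow [Nontrivial E] {j : ℝ} (hj : -(Module.finrank ℝ E : ℝ) < j) :
    ∫ g, ‖g‖ ^ (j + 2) ∂stdGaussian E =
      (Module.finrank ℝ E + j) * ∫ g, ‖g‖ ^ j ∂stdGaussian E := by
  rw [a4_mom_rpow hj, a4_mom_rpow (by linarith)]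
  set n : ℝ := (Module.finrank ℝ E : ℝ)
  have e1 : (n + (j + 2)) / 2 = (n + j) / 2 + 1 := by ring
  have e2 : -(n + (j + 2)) / 2 = -(n + j) / 2 + (-1) := by ring
  rw [e1, e2, Real.Gamma_add_one (by linarith : (0 : ℝ) < (n + j) / 2).ne',
    Real.rpow_add (by norm_num), Real.rpow_neg_one]
  ring

lemma a4_chi_rpow_pos [Nontrivial E] {j : ℝ} (hj : -(Module.finrank ℝ E : ℝ) < j) :
    0 < ∫ g, ‖g‖ ^ j ∂stdGaussian E := by
  rw [a4_mom_rpow hj]
  have hn0 : (0 : ℝ) < Module.finrank ℝ E := by exact_mod_cast Module.finrank_pos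
  have h1 : 0 < (volume : Measure E).real (Metric.ball 0 1) :=
    ENNReal.toReal_pos (Metric.measure_ball_pos _ _ one_pos).ne' measure_ball_lt_top.ne
  have h2 := Real.Gamma_pos_of_pos (s := (Module.finrank ℝ E + j) / 2) (by linarith)
  positivity

lemma a4_integrable_norm_rpow [Nontrivial E] {j : ℝ} (hj : -(Module.finrank ℝ E : ℝ) < j) :
    Integrable (fun g : E => ‖g‖ ^ j) (stdGaussian E) :=
  Integrable.of_integral_ne_zero (a4_chi_rpow_pos hj).ne'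

/-- `E ‖g‖^(j+2) = (d+j) E ‖g‖^j`. -/
theorem a4_chi_rec [Nontrivial E] (j : ℕ) :
    ∫ g, ‖g‖ ^ (j + 2) ∂stdGaussian E =
      (Module.finrank ℝ E + j) * ∫ g, ‖g‖ ^ j ∂stdGaussian E := by
  have hn0 : (0 : ℝ) < Module.finrank ℝ E := by exact_mod_cast Module.finrank_pos
  have h := a4_chi_rec_rpow (E := E) (j := (j : ℝ)) (by linarith [Nat.cast_nonneg (α := ℝ) j])
  have e : ((j : ℝ) + 2) = ((j + 2 : ℕ) : ℝ) := by push_cast; ring
  simpa only [e, Real.rpow_natCast] using h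

/-- integer exponents, negative ones included. -/
theorem a4_chi_rec_zpow [Nontrivial E] {j : ℤ} (hj : -(Module.finrank ℝ E : ℤ) < j) :
    ∫ g, ‖g‖ ^ (j + 2) ∂stdGaussian E =
      (Module.finrank ℝ E + j) * ∫ g, ‖g‖ ^ j ∂stdGaussian E := by
  have h := a4_chi_rec_rpow (E := E) (j := (j : ℝ)) (by exact_mod_cast hj)
  have e : ((j : ℝ) + 2) = ((j + 2 : ℤ) : ℝ) := by push_cast; ring
  simpa only [e, Real.rpow_intCast] using h

lemma a4_chi_pow_pos [Nontrivial E] (j : ℕ) : 0 < ∫ g, ‖g‖ ^ j ∂stdGaussian E := by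
  have hn0 : (0 : ℝ) < Module.finrank ℝ E := by exact_mod_cast Module.finrank_pos
  have h := a4_chi_rpow_pos (E := E) (j := (j : ℝ)) (by linarith [Nat.cast_nonneg (α := ℝ) j])
  simpa only [Real.rpow_natCast] using h

theorem a4_chi_even [Nontrivial E] (j : ℕ) :
    ∫ g, ‖g‖ ^ (2 * j) ∂stdGaussian E =
      ∏ i ∈ Finset.range j, ((Module.finrank ℝ E : ℝ) + 2 * i) := by
  induction j with
  | zero => simp
  | succ j ih =>
    rw [Finset.prod_range_succ, ← ih, mul_add, mul_one, a4_chi_rec]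
    push_cast
    ring

/-- a `j`-homogeneous function: radial part times spherical part. -/
theorem a4_hom_split [Nontrivial E] {F : Type*} [NormedAddCommGroup F] [NormedSpace ℝ F]
    [CompleteSpace F] (f : E → F) (j : ℕ)
    (hf : ∀ (c : ℝ) (y : E), 0 < c → f (c • y) = c ^ j • f y) (ρ : ℝ → ℝ) :
    ∫ g, ρ ‖g‖ • f g ∂stdGaussian E =
      (∫ g, ρ ‖g‖ * ‖g‖ ^ j ∂stdGaussian E) • ∫ g, f (‖g‖⁻¹ • g) ∂stdGaussian E := by
  have h0 : ∀ (c : ℝ) (y : E), 0 < c → ‖c • y‖⁻¹ • c • y = ‖y‖⁻¹ • y := fun c y hc => by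
    rw [norm_smul, Real.norm_of_nonneg hc.le, smul_smul, mul_inv, mul_right_comm,
      inv_mul_cancel₀ hc.ne', one_mul]
  rw [← a4_rad_indep (fun g => f (‖g‖⁻¹ • g)) (fun c y hc => by rw [h0 c y hc])
    (fun r => ρ r * r ^ j)]
  have hae : ∀ᵐ g ∂stdGaussian E, g ≠ 0 := by
    rw [std_eq_density]
    refine (withDensity_absolutelyContinuous _ _).ae_le ?_
    exact compl_mem_ae_iff.2 (measure_singleton 0)
  refine integral_congr_ae (hae.mono fun g hg => ?_)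
  have hg0 : 0 < ‖g‖ := norm_pos_iff.2 hg
  simp only
  rw [hf _ _ (inv_pos.2 hg0), smul_smul, mul_assoc, ← mul_pow, mul_inv_cancel₀ hg0.ne', one_pow,
    mul_one]

theorem a4_hom_split' [Nontrivial E] {F : Type*} [NormedAddCommGroup F] [NormedSpace ℝ F]
    [CompleteSpace F] (f : E → F) (j : ℕ)
    (hf : ∀ (c : ℝ) (y : E), 0 < c → f (c • y) = c ^ j • f y) :
    ∫ g, f g ∂stdGaussian E =
      (∫ g, ‖g‖ ^ j ∂stdGaussian E) • ∫ g, f (‖g‖⁻¹ • g) ∂stdGaussian E := by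
  simpa using a4_hom_split f j hf (fun _ => 1)

/-- **radial recursion** `E ‖g‖² F = (d + j) E F` for `j`-homogeneous `F`. -/
theorem a4_hom_rec [Nontrivial E] {F : Type*} [NormedAddCommGroup F] [NormedSpace ℝ F]
    [CompleteSpace F] (f : E → F) (j : ℕ)
    (hf : ∀ (c : ℝ) (y : E), 0 < c → f (c • y) = c ^ j • f y) :
    ∫ g, ‖g‖ ^ 2 • f g ∂stdGaussian E =
      ((Module.finrank ℝ E : ℝ) + j) • ∫ g, f g ∂stdGaussian E := by
  rw [a4_hom_split f j hf (fun r => r ^ 2), a4_hom_split' f j hf, smul_smul, ← a4_chi_rec]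
  simp only [← pow_add, add_comm 2 j]

theorem a4_hom_rec_mul [Nontrivial E] (f : E → ℝ) (j : ℕ)
    (hf : ∀ (c : ℝ) (y : E), 0 < c → f (c • y) = c ^ j * f y) :
    ∫ g, ‖g‖ ^ 2 * f g ∂stdGaussian E =
      ((Module.finrank ℝ E : ℝ) + j) * ∫ g, f g ∂stdGaussian E :=
  a4_hom_rec f j hf

theorem a4_hom_rec_four [Nontrivial E] (f : E → ℝ) (j : ℕ)
    (hf : ∀ (c : ℝ) (y : E), 0 < c → f (c • y) = c ^ j * f y) :
    ∫ g, ‖g‖ ^ 4 * f g ∂stdGaussian E =
      ((Module.finrank ℝ E : ℝ) + j + 2) * ((Module.finrank ℝ E : ℝ) + j) *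
        ∫ g, f g ∂stdGaussian E := by
  have h1 := a4_hom_rec_mul (fun g => ‖g‖ ^ 2 * f g) (j + 2) (fun c y hc => by
    rw [hf c y hc, norm_smul, Real.norm_of_nonneg hc.le]; ring)
  rw [a4_hom_rec_mul f j hf] at h1
  have e : ∀ g : E, ‖g‖ ^ 4 * f g = ‖g‖ ^ 2 * (‖g‖ ^ 2 * f g) := fun g => by ring
  simp_rw [e]
  rw [h1]
  push_cast
  ring

/-- the double factorial `(2j-1)!!`. -/
noncomputable def a4_dfac (j : ℕ) : ℝ := ∏ i ∈ Finset.range j, (1 + 2 * (i : ℝ))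

lemma a4_dfac_pos (j : ℕ) : 0 < a4_dfac j := Finset.prod_pos fun i _ => by positivity

lemma a4_gaussReal_even (j : ℕ) : ∫ t, t ^ (2 * j) ∂gaussianReal 0 1 = a4_dfac j := by
  have h1 := a4_chi_even (E := ℝ) j
  have h2 := map_inner (E := ℝ) 1
  simp only [norm_one, one_pow, Real.toNNReal_one] at h2
  rw [← h2, integral_map (by fun_prop) (by fun_prop)]
  simp only [Module.finrank_self, Nat.cast_one] at h1
  rw [a4_dfac, ← h1]
  congr 1
  funext g
  rw [Real.norm_eq_abs, pow_mul, pow_mul, sq_abs]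
  simp

/-- even moments of a Gaussian linear form. -/
theorem a4_int_inner_even (w : E) (j : ℕ) :
    ∫ g, ⟪w, g⟫ ^ (2 * j) ∂stdGaussian E = a4_dfac j * ‖w‖ ^ (2 * j) := by
  have h1 : ∫ g, ⟪w, g⟫ ^ (2 * j) ∂stdGaussian E =
      ∫ x, x ^ (2 * j) ∂((stdGaussian E).map (fun g => ⟪w, g⟫)) := by
    rw [integral_map (by fun_prop) (by fun_prop)]
  have h2 : gaussianReal 0 (‖w‖ ^ 2).toNNReal = (gaussianReal 0 1).map (fun x => ‖w‖ * x) := by
    rw [gaussianReal_map_const_mul]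
    congr 1
    · simp
    · ext
      simp
  rw [h1, map_inner, h2, integral_map (by fun_prop) (by fun_prop), ← a4_gaussReal_even,
    ← integral_mul_const]
  congr 1
  funext x
  rw [mul_pow, mul_comm]

/-- even moments of a linear form on the sphere, exact. -/
theorem a4_sph_even_eq [Nontrivial E] (w : E) (j : ℕ) :
    (∏ i ∈ Finset.range j, ((Module.finrank ℝ E : ℝ) + 2 * i)) *
      ∫ g, ⟪w, ‖g‖⁻¹ • g⟫ ^ (2 * j) ∂stdGaussian E = a4_dfac j * ‖w‖ ^ (2 * j) := by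
  rw [← a4_int_inner_even, ← a4_chi_even, a4_hom_split' (fun g => ⟪w, g⟫ ^ (2 * j)) (2 * j)
    (fun c y _ => by rw [inner_smul_right, mul_pow, smul_eq_mul]), smul_eq_mul]

/-- even moments of a linear form on the sphere. -/
theorem a4_sph_even_le [Nontrivial E] (w : E) (j : ℕ) :
    ∫ g, ⟪w, ‖g‖⁻¹ • g⟫ ^ (2 * j) ∂stdGaussian E ≤
      a4_dfac j * ‖w‖ ^ (2 * j) / (Module.finrank ℝ E : ℝ) ^ j := by
  have hn0 : (0 : ℝ) < Module.finrank ℝ E := by exact_mod_cast Module.finrank_pos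
  rw [le_div_iff₀ (by positivity), ← a4_sph_even_eq, mul_comm]
  refine mul_le_mul_of_nonneg_right ?_ (integral_nonneg fun g => by
    simp only [Pi.zero_apply]; rw [pow_mul]; positivity)
  calc (Module.finrank ℝ E : ℝ) ^ j = ∏ _i ∈ Finset.range j, (Module.finrank ℝ E : ℝ) := by simp
    _ ≤ _ := Finset.prod_le_prod (fun _ _ => hn0.le) fun i _ =>
        le_add_of_nonneg_right (by positivity)

/-- **Wick's formula** for four linear forms. -/
theorem a4_int_inner_wick (a b c e : E) :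
    ∫ g, ⟪a, g⟫ * ⟪b, g⟫ * ⟪c, g⟫ * ⟪e, g⟫ ∂stdGaussian E =
      ⟪a, b⟫ * ⟪c, e⟫ + ⟪a, c⟫ * ⟪b, e⟫ + ⟪a, e⟫ * ⟪b, c⟫ := by
  have i := fun w : E => integrable_inner_pow w 4
  have v : ∀ w : E, ∫ g, ⟪w, g⟫ ^ 4 ∂stdGaussian E = 3 * ⟪w, w⟫ ^ 2 := fun w => by
    rw [int_inner_four, m4_eq, real_inner_self_eq_norm_sq]; ring
  have e1 : (fun g : E => ⟪a, g⟫ * ⟪b, g⟫ * ⟪c, g⟫ * ⟪e, g⟫) = fun g => (1 / 192 : ℝ) *
      ((((⟪a + b + c + e, g⟫ ^ 4 - ⟪a + b + c - e, g⟫ ^ 4) -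
        (⟪a + b - c + e, g⟫ ^ 4 - ⟪a + b - c - e, g⟫ ^ 4)) -
       ((⟪a - b + c + e, g⟫ ^ 4 - ⟪a - b + c - e, g⟫ ^ 4) -
        (⟪a - b - c + e, g⟫ ^ 4 - ⟪a - b - c - e, g⟫ ^ 4)))) := by
    funext g
    simp only [inner_add_left, inner_sub_left]
    ring
  have s : ∀ {f f' : E → ℝ}, Integrable f (stdGaussian E) → Integrable f' (stdGaussian E) →
      Integrable (fun g => f g - f' g) (stdGaussian E) := fun h h' => h.sub h'
  rw [e1, integral_const_mul, integral_sub (s (s (i _) (i _)) (s (i _) (i _)))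
    (s (s (i _) (i _)) (s (i _) (i _))), integral_sub (s (i _) (i _)) (s (i _) (i _)),
    integral_sub (s (i _) (i _)) (s (i _) (i _)), integral_sub (i _) (i _),
    integral_sub (i _) (i _), integral_sub (i _) (i _), integral_sub (i _) (i _)]
  simp only [v]
  simp only [inner_add_left, inner_sub_left, inner_add_right, inner_sub_right,
    real_inner_comm a b, real_inner_comm a c, real_inner_comm a e, real_inner_comm b c,
    real_inner_comm b e, real_inner_comm c e]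
  ring

/-- second moments on the sphere. -/
theorem a4_sph_two [Nontrivial E] (a b : E) :
    ∫ g, ⟪a, ‖g‖⁻¹ • g⟫ * ⟪b, ‖g‖⁻¹ • g⟫ ∂stdGaussian E = ⟪a, b⟫ / Module.finrank ℝ E := by
  have hn0 : (0 : ℝ) < Module.finrank ℝ E := by exact_mod_cast Module.finrank_pos
  have h := a4_hom_split' (fun g => ⟪a, g⟫ * ⟪b, g⟫) 2
    (fun c y _ => by simp only [inner_smul_right, smul_eq_mul]; ring)
  rw [int_inner_mul, int_norm_sq, smul_eq_mul] at h
  rw [h]
  field_simp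

/-- fourth moments on the sphere. -/
theorem a4_sph_four [Nontrivial E] (a b c e : E) :
    ∫ g, ⟪a, ‖g‖⁻¹ • g⟫ * ⟪b, ‖g‖⁻¹ • g⟫ * ⟪c, ‖g‖⁻¹ • g⟫ * ⟪e, ‖g‖⁻¹ • g⟫ ∂stdGaussian E =
      (⟪a, b⟫ * ⟪c, e⟫ + ⟪a, c⟫ * ⟪b, e⟫ + ⟪a, e⟫ * ⟪b, c⟫) /
        ((Module.finrank ℝ E : ℝ) * (Module.finrank ℝ E + 2)) := by
  have hn0 : (0 : ℝ) < Module.finrank ℝ E := by exact_mod_cast Module.finrank_pos
  have h := a4_hom_split' (fun g => ⟪a, g⟫ * ⟪b, g⟫ * ⟪c, g⟫ * ⟪e, g⟫) 4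
    (fun c y _ => by simp only [inner_smul_right, smul_eq_mul]; ring)
  have h4 := a4_chi_rec (E := E) 2
  rw [int_norm_sq] at h4
  rw [a4_int_inner_wick, h4, smul_eq_mul] at h
  rw [h]
  push_cast
  field_simp

theorem a4_sph_sq_sq_le [Nontrivial E] (a b : E) :
    ∫ g, ⟪a, ‖g‖⁻¹ • g⟫ ^ 2 * ⟪b, ‖g‖⁻¹ • g⟫ ^ 2 ∂stdGaussian E ≤
      3 * ‖a‖ ^ 2 * ‖b‖ ^ 2 / (Module.finrank ℝ E : ℝ) ^ 2 := by
  have hn0 : (0 : ℝ) < Module.finrank ℝ E := by exact_mod_cast Module.finrank_pos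
  have h := a4_sph_four a a b b
  have e : ∀ g : E, ⟪a, ‖g‖⁻¹ • g⟫ ^ 2 * ⟪b, ‖g‖⁻¹ • g⟫ ^ 2 =
      ⟪a, ‖g‖⁻¹ • g⟫ * ⟪a, ‖g‖⁻¹ • g⟫ * ⟪b, ‖g‖⁻¹ • g⟫ * ⟪b, ‖g‖⁻¹ • g⟫ := fun g => by ring
  simp_rw [e]
  rw [h, real_inner_self_eq_norm_sq, real_inner_self_eq_norm_sq]
  have h1 : ⟪a, b⟫ * ⟪a, b⟫ ≤ ‖a‖ ^ 2 * ‖b‖ ^ 2 := by
    have := real_inner_mul_inner_self_le a b
    rwa [real_inner_self_eq_norm_sq, real_inner_self_eq_norm_sq] at this
  refine div_le_div₀ (by positivity) (by linarith) (by positivity) (by nlinarith)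

lemma a4_int4 (a b c e : E) :
    Integrable (fun g : E => ⟪a, g⟫ * ⟪b, g⟫ * ⟪c, g⟫ * ⟪e, g⟫) (stdGaussian E) := by
  refine Integrable.mono' ((integrable_norm_pow 4).const_mul (‖a‖ * ‖b‖ * ‖c‖ * ‖e‖))
    (by fun_prop) (Filter.Eventually.of_forall fun g => ?_)
  rw [norm_mul, norm_mul, norm_mul]
  calc _ ≤ (‖a‖ * ‖g‖) * (‖b‖ * ‖g‖) * (‖c‖ * ‖g‖) * (‖e‖ * ‖g‖) := by
        gcongr <;> exact norm_inner_le_norm _ _
    _ = _ := by ring

end

section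
variable {d : ℕ}

lemma a4_nontriv (hd : 0 < d) : Nontrivial (Eu d) :=
  Module.nontrivial_of_finrank_pos (R := ℝ) (by simpa using hd)

lemma a4_coord (i : Fin d) (g : Eu d) : ⟪ee i, g⟫ = g i := by
  simp [ee, EuclideanSpace.inner_single_left]

lemma a4_ee_ee (i j : Fin d) : ⟪ee i, ee j⟫ = if i = j then (1 : ℝ) else 0 := by
  rw [a4_coord, ee, PiLp.single_apply]

lemma a4_norm_ee (i : Fin d) : ‖ee i‖ = 1 := by simp [ee]

lemma a4_quad (S : Fin d → Fin d → ℝ) :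
    ∫ g, (∑ i, ∑ j, S i j * (g i * g j)) ^ 2 ∂stdGaussian (Eu d) =
      (∑ i, S i i) ^ 2 + ∑ i, ∑ j, S i j ^ 2 + ∑ i, ∑ j, S i j * S j i := by
  have e : ∀ g : Eu d, (∑ i, ∑ j, S i j * (g i * g j)) ^ 2 = ∑ i, ∑ k, ∑ j, ∑ l,
      S i j * S k l * (⟪ee i, g⟫ * ⟪ee j, g⟫ * ⟪ee k, g⟫ * ⟪ee l, g⟫) := fun g => by
    rw [sq, Finset.sum_mul_sum]
    refine Finset.sum_congr rfl fun i _ => Finset.sum_congr rfl fun k _ => ?_
    rw [Finset.sum_mul_sum]
    refine Finset.sum_congr rfl fun j _ => Finset.sum_congr rfl fun l _ => ?_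
    simp only [a4_coord]
    ring
  have i0 := fun i j k l : Fin d =>
    (a4_int4 (ee i) (ee j) (ee k) (ee l)).const_mul (S i j * S k l)
  have i1 := fun i j k : Fin d => integrable_finsetSum Finset.univ fun l _ => i0 i j k l
  have i2 := fun i k : Fin d => integrable_finsetSum Finset.univ fun j _ => i1 i j k
  have i3 := fun i : Fin d => integrable_finsetSum Finset.univ fun k _ => i2 i k
  simp_rw [e]
  rw [integral_finsetSum _ fun i _ => i3 i]
  simp_rw [integral_finsetSum _ fun k _ => i2 _ k, integral_finsetSum _ fun j _ => i1 _ j _,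
    integral_finsetSum _ fun l _ => i0 _ _ _ l, integral_const_mul, a4_int_inner_wick, a4_ee_ee,
    mul_add, Finset.sum_add_distrib]
  congr 1
  · congr 1
    · rw [sq, Finset.sum_mul_sum]
      simp
    · simp [sq]
  · refine Finset.sum_congr rfl fun i _ => ?_
    simp

/-- `rad` with `map_inner`, and `d ^ k ≤ ∫ ‖g‖ ^ (2k)` by Jensen. -/
theorem mom_sph (k : ℕ) : ∃ C : ℝ, 0 < C ∧ ∀ d : ℕ, 0 < d → ∀ w : Eu d,
    ∫ u, ⟪w, u⟫ ^ (2 * k) ∂sph d ≤ C * ‖w‖ ^ (2 * k) / d ^ k := by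
  refine ⟨a4_dfac k, a4_dfac_pos k, fun d hd w => ?_⟩
  have := a4_nontriv hd
  have h := a4_sph_even_le w k
  rw [finrank_euclideanSpace_fin] at h
  rw [sph_int (by fun_prop)]
  exact h

theorem lin_sph (hd : 0 < d) (w w' : Eu d) : ∫ u, ⟪w, u⟫ * ⟪w', u⟫ ∂sph d = ⟪w, w'⟫ / d := by
  have := a4_nontriv hd
  have h := a4_sph_two w w'
  rw [finrank_euclideanSpace_fin] at h
  rw [sph_int (by fun_prop)]
  exact h

/-- Polarise `int_inner_four` (Wick formula), sum, use the trace, and `asrad_four_ge`. -/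
theorem quad_sph (hd : 0 < d) (S : Fin d → Fin d → ℝ) (hS : ∑ i, S i i = 0) :
    ∫ u, (∑ i, ∑ j, S i j * (u i * u j)) ^ 2 ∂sph d ≤ 2 * (∑ i, ∑ j, S i j ^ 2) / d ^ 2 := by
  have := a4_nontriv hd
  have hd0 : (0 : ℝ) < d := by exact_mod_cast hd
  have h := a4_hom_split' (fun g : Eu d => (∑ i, ∑ j, S i j * (g i * g j)) ^ 2) 4
    (fun c y _ => by
      have e : ∑ i, ∑ j, S i j * ((c • y) i * (c • y) j) =
          c ^ 2 * ∑ i, ∑ j, S i j * (y i * y j) := by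
        simp only [Finset.mul_sum, PiLp.smul_apply, smul_eq_mul]
        exact Finset.sum_congr rfl fun i _ => Finset.sum_congr rfl fun j _ => by ring
      simp only [e, smul_eq_mul]
      ring)
  have h4 := asrad_four_ge (r := d)
  have hq : ∑ i, ∑ j, S i j * S j i ≤ ∑ i, ∑ j, S i j ^ 2 := by
    have h0 : 0 ≤ ∑ i, ∑ j, (S i j - S j i) ^ 2 := by positivity
    have h1 : ∑ i, ∑ j, S j i ^ 2 = ∑ i, ∑ j, S i j ^ 2 := Finset.sum_comm
    simp only [sub_sq, Finset.sum_add_distrib, Finset.sum_sub_distrib, h1, mul_assoc,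
      ← Finset.mul_sum] at h0
    linarith
  rw [a4_quad, hS, smul_eq_mul] at h
  rw [sph_int (by fun_prop), le_div_iff₀ (by positivity)]
  have h0 : 0 ≤ ∫ g : Eu d, (∑ i, ∑ j, S i j * ((nz g) i * (nz g) j)) ^ 2 ∂stdGaussian (Eu d) :=
    integral_nonneg fun g => sq_nonneg _
  have h5 := mul_le_mul_of_nonneg_left h4 h0
  unfold nz at h0 h5 ⊢
  nlinarith

/-- Power mean inequality on the coordinates for the upper bound, Jensen and `ad_sq_ge` for the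
lower one. -/
theorem mom_norm (k : ℕ) : ∃ C : ℝ, 0 < C ∧ ∀ d : ℕ, 0 < d →
    ∫ g, ‖g‖ ^ k ∂stdGaussian (Eu d) ≤ C * d ^ k ∧ C⁻¹ ≤ ∫ g, ‖g‖ ^ k ∂stdGaussian (Eu d) := by
  have hC : (1 : ℝ) ≤ (1 + 2 * (k : ℝ)) ^ k :=
    one_le_pow₀ (le_add_of_nonneg_right (by positivity))
  refine ⟨2 * (1 + 2 * (k : ℝ)) ^ k, by positivity, fun d hd => ⟨?_, ?_⟩⟩
  · have := a4_nontriv hd
    have hd1 : (1 : ℝ) ≤ d := by exact_mod_cast hd
    have h1 : ∫ g, ‖g‖ ^ k ∂stdGaussian (Eu d) ≤ ∫ g, (1 + ‖g‖ ^ (2 * k)) ∂stdGaussian (Eu d) := by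
      refine integral_mono (integrable_norm_pow k)
        ((integrable_const 1).add (integrable_norm_pow _)) fun g => ?_
      simp only
      rw [mul_comm 2 k, pow_mul]
      nlinarith [sq_nonneg (‖g‖ ^ k - 1), sq_nonneg (‖g‖ ^ k)]
    rw [integral_add (integrable_const 1) (integrable_norm_pow _), a4_chi_even,
      finrank_euclideanSpace_fin] at h1
    simp only [integral_const, probReal_univ, smul_eq_mul, mul_one] at h1
    have h2 : ∏ i ∈ Finset.range k, ((d : ℝ) + 2 * i) ≤ ((1 + 2 * (k : ℝ)) * d) ^ k := by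
      calc _ ≤ ∏ _i ∈ Finset.range k, ((1 + 2 * (k : ℝ)) * d) := by
            refine Finset.prod_le_prod (fun i _ => by positivity) fun i hi => ?_
            have : (i : ℝ) ≤ k := by exact_mod_cast (Finset.mem_range.1 hi).le
            nlinarith [Nat.cast_nonneg (α := ℝ) k]
        _ = _ := by simp
    rw [mul_pow] at h2
    have h3 : (1 : ℝ) ≤ (1 + 2 * (k : ℝ)) ^ k * d ^ k := one_le_mul_of_one_le_of_one_le hC (one_le_pow₀ hd1)
    linarith
  · have := a4_nontriv hd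
    have hd1 : (1 : ℝ) ≤ d := by exact_mod_cast hd
    have key : ∀ j : ℕ, 1 / 2 ≤ ∫ g, ‖g‖ ^ j ∂stdGaussian (Eu d) ∧
        1 / 2 ≤ ∫ g, ‖g‖ ^ (j + 1) ∂stdGaussian (Eu d) := by
      intro j
      induction j with
      | zero =>
        refine ⟨by norm_num, ?_⟩
        have h1 := ad_sq_ge d
        have h2 := ad_pos hd
        simp only [zero_add, pow_one]
        change 1 / 2 ≤ ad d
        nlinarith
      | succ j ih =>
        refine ⟨ih.2, ?_⟩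
        rw [add_assoc, a4_chi_rec, finrank_euclideanSpace_fin]
        nlinarith [ih.1, Nat.cast_nonneg (α := ℝ) j]
    refine le_trans ?_ (key k).1
    rw [one_div]
    exact inv_anti₀ (by norm_num) (by linarith)

theorem mom_tl (k : ℕ) : ∃ C : ℝ, 0 < C ∧ ∀ n : ℕ,
    ∫ t, t ^ (2 * k) ∂tl n ≤ C / (n + 1) ^ k := by
  obtain ⟨C, hC, h⟩ := mom_sph k
  refine ⟨C, hC, fun n => ?_⟩
  have h1 := h (n + 1) n.succ_pos (ee 0)
  rw [a4_norm_ee, one_pow, mul_one] at h1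
  rw [tl, integral_map (by fun_prop) (by fun_prop)]
  simpa only [a4_coord, Nat.cast_add, Nat.cast_one] using h1

theorem tl_ae {n : ℕ} (hn : 0 < n) : ∀ᵐ t ∂tl n, |t| < 1 := by
  have hs : MeasurableSet {t : ℝ | |t| < 1} := measurableSet_lt (by fun_prop) measurable_const
  have hm : Measurable fun u : Eu (n + 1) => u 0 := by fun_prop
  have hs' : MeasurableSet {u : Eu (n + 1) | |u 0| < 1} := hm hs
  rw [tl, ae_map_iff hm.aemeasurable hs, sph, ae_map_iff measurable_nz.aemeasurable hs']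
  have h10 : (⟨1, by omega⟩ : Fin (n + 1)) ≠ 0 := by simp
  filter_upwards [assel_ae (ee (⟨1, by omega⟩ : Fin (n + 1)))] with g hg
  have h1 : g ⟨1, by omega⟩ ≠ 0 := by
    rcases hg with hg | hg
    · have := a4_norm_ee (⟨1, by omega⟩ : Fin (n + 1))
      rw [hg, norm_zero] at this
      exact absurd this zero_ne_one
    · rwa [a4_coord] at hg
  have h2 : g 0 ^ 2 + g ⟨1, by omega⟩ ^ 2 ≤ ‖g‖ ^ 2 := by
    rw [EuclideanSpace.real_norm_sq_eq, ← Finset.sum_pair (f := fun i => g i ^ 2) h10.symm]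
    exact Finset.sum_le_sum_of_subset_of_nonneg (Finset.subset_univ _) fun _ _ _ => sq_nonneg _
  have h3 : |g 0| < ‖g‖ := abs_lt_of_sq_lt_sq (by nlinarith [sq_pos_of_ne_zero h1]) (norm_nonneg _)
  have h4 : 0 < ‖g‖ := (abs_nonneg _).trans_lt h3
  simp only [nz, PiLp.smul_apply, smul_eq_mul, abs_mul, abs_inv, abs_norm]
  rw [inv_mul_lt_iff₀ h4, mul_one]
  exact h3

theorem map_inner_sph {n : ℕ} {e : Eu (n + 1)} (he : ‖e‖ = 1) :
    (sph (n + 1)).map (fun u => ⟪u, e⟫) = tl n := by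
  obtain ⟨O, hO⟩ : ∃ O : Eu (n + 1) ≃ₗᵢ[ℝ] Eu (n + 1), O e = ee 0 :=
    ⟨_, Submodule.reflection_sub (by rw [he, a4_norm_ee])⟩
  rw [tl]
  conv_rhs => rw [← sph_map O, Measure.map_map (by fun_prop) O.continuous.measurable]
  congr 1
  funext u
  rw [Function.comp_apply, ← a4_coord, ← hO, O.inner_map_map, real_inner_comm]

end

end Pool.Agent.Lib.MP_77d991_gt.Ex
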