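import Pool.Agent.Lib.MP_77d991_gt.Ex.A4

open MeasureTheory ProbabilityTheory Set
open scoped RealInnerProductSpace

namespace Pool.Agent.Lib.MP_77d991_gt.Ex

open Pool.Agent.Lib.MP_77d991_gt.As

theorem exists_J {n k : ℕ} (e : Fin k → Eu (n + k)) (he : Orthonormal ℝ e) :
    ∃ J : Eu n →ₗᵢ[ℝ] Eu (n + k), (∀ s i, ⟪J s, e i⟫ = 0) ∧
      ∀ y, (∀ i, ⟪y, e i⟫ = 0) → ∃ s, J s = y := by
  set K : Submodule ℝ (Eu (n + k)) := (Submodule.span ℝ (range e))ᗮ with hK
  have h1 : Module.finrank ℝ (Submodule.span ℝ (range e)) = k := by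
    rw [finrank_span_eq_card he.linearIndependent, Fintype.card_fin]
  have h2 := Submodule.finrank_add_finrank_orthogonal (Submodule.span ℝ (range e))
  rw [h1, finrank_euclideanSpace_fin] at h2
  have h3 : Module.finrank ℝ K = n := by rw [hK]; omega
  let b := (stdOrthonormalBasis ℝ K).reindex (finCongr h3)
  refine ⟨K.subtypeₗᵢ.comp b.repr.symm.toLinearIsometry, fun s i => ?_, fun y hy => ?_⟩
  · exact Submodule.inner_left_of_mem_orthogonal (Submodule.subset_span (mem_range_self i))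
      (b.repr.symm s).2
  · have hy' : y ∈ K := by
      rw [hK, Submodule.mem_orthogonal']
      intro v hv
      induction hv using Submodule.span_induction with
      | mem x hx => obtain ⟨i, rfl⟩ := hx; exact hy i
      | zero => exact inner_zero_right _
      | add x z _ _ hx hz => rw [inner_add_right, hx, hz, add_zero]
      | smul a x _ hx => rw [real_inner_smul_right, hx, mul_zero]
    exact ⟨b.repr ⟨y, hy'⟩, by simp⟩

theorem a5_g1 : Gq (gaussianReal 0 1) (fun L : StrongDual ℝ ℝ => L 1 ^ 2) := by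
  intro L
  have h : charFunDual (gaussianReal 0 1) L = charFun (gaussianReal 0 1) (L 1) := by
    rw [charFunDual_apply, charFun_apply_real]
    refine integral_congr_ae (Filter.Eventually.of_forall fun x => ?_)
    have e : L x = L 1 * x := by
      rw [mul_comm, ← smul_eq_mul, ← map_smul, smul_eq_mul, mul_one]
    simp only [e]
    push_cast
    rfl
  rw [h, charFun_gaussianReal]
  congr 1
  push_cast
  ring

/-- The projection as a continuous linear map. -/
noncomputable def a5_P {d : ℕ} (u : Eu d) : Eu d →L[ℝ] Eu d :=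
  ContinuousLinearMap.id ℝ (Eu d) - (innerSL ℝ u).smulRight u

theorem a5_P_apply {d : ℕ} (u g : Eu d) : a5_P u g = pj u g := by
  simp [a5_P, pj, real_inner_comm]

theorem a5_adj {d : ℕ} (u a g : Eu d) : ⟪a, pj u g⟫ = ⟪pj u a, g⟫ := by
  simp only [pj, inner_sub_left, inner_sub_right, real_inner_smul_left, real_inner_smul_right]
  rw [real_inner_comm g u]
  ring

theorem a5_perp {d : ℕ} {u : Eu d} (hu : ‖u‖ = 1) (a : Eu d) : ⟪pj u a, u⟫ = 0 := by
  simp [pj, inner_sub_left, real_inner_smul_left, hu]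

theorem a5_norm {d : ℕ} {u : Eu d} (hu : ‖u‖ = 1) (a : Eu d) :
    ‖pj u a‖ ^ 2 = ‖a‖ ^ 2 - ⟪a, u⟫ ^ 2 := by
  rw [pj, norm_sub_sq_real, real_inner_smul_right, norm_smul, hu, mul_one, Real.norm_eq_abs, sq_abs]
  ring

theorem a5_surj {r : ℕ} {u : Eu (r + 1)} (hu : ‖u‖ = 1) (J : Eu r →ₗᵢ[ℝ] Eu (r + 1))
    (hJ : ∀ s, ⟪J s, u⟫ = 0) {y : Eu (r + 1)} (hy : ⟪y, u⟫ = 0) : ∃ s, J s = y := by
  have h0 : u ≠ 0 := fun e => by simp [e] at hu
  have : Fact (Module.finrank ℝ (Eu (r + 1)) = r + 1) := ⟨finrank_euclideanSpace_fin⟩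
  have h1 : LinearMap.range J.toLinearMap = (ℝ ∙ u)ᗮ := by
    refine Submodule.eq_of_le_of_finrank_eq ?_ ?_
    · rintro _ ⟨s, rfl⟩
      exact Submodule.mem_orthogonal_singleton_iff_inner_left.2 (hJ s)
    · rw [LinearMap.finrank_range_of_inj J.injective, finrank_euclideanSpace_fin,
        Submodule.finrank_orthogonal_span_singleton (n := r) h0]
  have h2 : y ∈ LinearMap.range J.toLinearMap :=
    h1 ▸ Submodule.mem_orthogonal_singleton_iff_inner_left.2 hy
  exact h2

/-- The coordinate along `u` and the projection are independent (`Gq.ext`, `law2`). -/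
theorem split {r : ℕ} {u : Eu (r + 1)} (hu : ‖u‖ = 1) (J : Eu r →ₗᵢ[ℝ] Eu (r + 1))
    (hJ : ∀ s, ⟪J s, u⟫ = 0) :
    (stdGaussian (Eu (r + 1))).map (fun g => (⟪g, u⟫, pj u g)) =
      (gaussianReal 0 1).prod ((stdGaussian (Eu r)).map J) := by
  have e : (fun g => (⟪g, u⟫, pj u g)) = ⇑((innerSL ℝ u).prod (a5_P u)) := funext fun g => by
    rw [ContinuousLinearMap.prod_apply, a5_P_apply, innerSL_apply_apply, real_inner_comm]
  have : IsProbabilityMeasure ((stdGaussian (Eu r)).map J) :=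
    Measure.isProbabilityMeasure_map J.continuous.aemeasurable
  rw [e]
  refine (Gq_std.map _).ext (a5_g1.prod (Gq_std.map J.toContinuousLinearMap)) fun L => ?_
  obtain ⟨β, hβ⟩ := (InnerProductSpace.toDual ℝ (Eu (r + 1))).surjective
    (L.comp (.inr ℝ ℝ (Eu (r + 1))))
  obtain ⟨s, hs⟩ := a5_surj hu J hJ (a5_perp hu β)
  have hL : ∀ (t : ℝ) (y : Eu (r + 1)), L (t, y) = t * L (1, 0) + ⟪β, y⟫ := fun t y => by
    have e2 := congrArg (fun T => T y) hβ
    simp only [InnerProductSpace.toDual_apply_apply, ContinuousLinearMap.comp_apply,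
      ContinuousLinearMap.inr_apply] at e2
    rw [e2, ← smul_eq_mul, ← map_smul, ← map_add]
    simp
  have eA : L.comp ((innerSL ℝ u).prod (a5_P u)) = innerSL ℝ (L (1, 0) • u + pj u β) := by
    ext1 g
    rw [ContinuousLinearMap.comp_apply, ContinuousLinearMap.prod_apply, hL, a5_P_apply, a5_adj,
      innerSL_apply_apply, innerSL_apply_apply, inner_add_left, real_inner_smul_left, mul_comm]
  have eB : (L.comp (.inr ℝ ℝ (Eu (r + 1)))).comp J.toContinuousLinearMap = innerSL ℝ s := by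
    ext1 y
    rw [← hβ, innerSL_apply_apply, ← J.inner_map_map, hs, ← a5_adj]
    simp [pj, hJ]
  simp only [eA, eB, innerSL_apply_norm, ContinuousLinearMap.comp_apply,
    ContinuousLinearMap.inl_apply]
  rw [norm_add_sq_real, real_inner_smul_left, real_inner_comm, a5_perp hu, norm_smul, hu, ← hs,
    J.norm_map, mul_one, Real.norm_eq_abs, sq_abs]
  ring

/-- Two coordinates and the rest are independent. -/
theorem split2 {d : ℕ} {u e : Eu d} (hu : ‖u‖ = 1) (he : ‖e‖ = 1) (hue : ⟪u, e⟫ = 0) :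
    stdGaussian (Eu d) = ((gaussianReal 0 1).prod ((gaussianReal 0 1).prod
      (stdGaussian (Eu d)))).map
        (fun q : ℝ × ℝ × Eu d => q.1 • u + q.2.1 • e + pj e (pj u q.2.2)) := by
  let B : ℝ × ℝ × Eu d →L[ℝ] Eu d := (ContinuousLinearMap.toSpanSingleton ℝ u).coprod
    ((ContinuousLinearMap.toSpanSingleton ℝ e).coprod ((a5_P e).comp (a5_P u)))
  have hB : ∀ q : ℝ × ℝ × Eu d, B q = q.1 • u + q.2.1 • e + pj e (pj u q.2.2) := fun q => by
    simp [B, a5_P_apply, add_assoc]
  rw [← funext hB]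
  have : IsProbabilityMeasure (((gaussianReal 0 1).prod ((gaussianReal 0 1).prod
      (stdGaussian (Eu d)))).map B) := Measure.isProbabilityMeasure_map B.continuous.aemeasurable
  refine Gq_std.ext ((a5_g1.prod (a5_g1.prod Gq_std)).map B) fun L => ?_
  obtain ⟨β, rfl⟩ := (InnerProductSpace.toDual ℝ (Eu d)).surjective L
  have eC : (((InnerProductSpace.toDual ℝ (Eu d) β).comp B).comp (.inr ℝ ℝ (ℝ × Eu d))).comp
      (.inr ℝ ℝ (Eu d)) = innerSL ℝ (pj u (pj e β)) := by
    ext1 y
    rw [innerSL_apply_apply, ← a5_adj, ← a5_adj]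
    simp [hB]
  have h1 : ⟪pj e β, u⟫ = ⟪β, u⟫ := by
    rw [pj, inner_sub_left, real_inner_smul_left, real_inner_comm u e, hue, mul_zero, sub_zero]
  simp only [eC, innerSL_apply_norm, LinearIsometryEquiv.norm_map]
  have h2 : ∀ q, InnerProductSpace.toDual ℝ (Eu d) β (B q) =
      ⟪β, q.1 • u + q.2.1 • e + pj e (pj u q.2.2)⟫ := fun q => by rw [hB]; rfl
  rw [a5_norm hu, a5_norm he, h1]
  simp only [ContinuousLinearMap.comp_apply, ContinuousLinearMap.inl_apply,
    ContinuousLinearMap.inr_apply, h2, pj, inner_zero_left, zero_smul, one_smul, add_zero,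
    zero_add, sub_zero, Prod.fst_zero, Prod.snd_zero]
  ring

end Pool.Agent.Lib.MP_77d991_gt.Ex
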