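import Pool.Agent.Lib.MP_77d991_gt.Ex.A5

open MeasureTheory ProbabilityTheory Set
open scoped RealInnerProductSpace

namespace Pool.Agent.Lib.MP_77d991_gt.Ex

open Pool.Agent.Lib.MP_77d991_gt.As

lemma a6_wd {α β : Type*} [MeasurableSpace α] [MeasurableSpace β] (μ : Measure α) {Φ : α → β}
    (hΦ : Measurable Φ) {f : β → ENNReal} (hf : Measurable f) :
    (μ.map Φ).withDensity f = (μ.withDensity fun a => f (Φ a)).map Φ := by
  refine Measure.ext fun s hs => ?_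
  rw [withDensity_apply _ hs, Measure.map_apply hΦ hs, withDensity_apply _ (hΦ hs),
    setLIntegral_map hs hf hΦ]

lemma a6_rs_meas (σ : ℝ) : Measurable fun t => ENNReal.ofReal (rs σ t) := by
  unfold rs
  fun_prop

/-- One dimensional change of variables. -/
theorem dens1 {σ : ℝ} (hσ : 0 < σ) : (gaussianReal 0 1).map (fun t => σ * t) =
    (gaussianReal 0 1).withDensity fun t => ENNReal.ofReal (rs σ t) := by
  have hv : (NNReal.mk (σ ^ 2) (sq_nonneg _) * 1 : NNReal) ≠ 0 := by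
    rw [mul_one]
    intro h
    have : σ ^ 2 = 0 := congrArg NNReal.toReal h
    exact (pow_pos hσ 2).ne' this
  rw [gaussianReal_map_const_mul, gaussianReal_of_var_ne_zero _ hv,
    gaussianReal_of_var_ne_zero 0 one_ne_zero,
    ← withDensity_mul _ (measurable_gaussianPDF 0 1) (a6_rs_meas σ)]
  congr 1
  funext t
  simp only [gaussianPDF, Pi.mul_apply]
  rw [← ENNReal.ofReal_mul (gaussianPDFReal_nonneg _ _ _)]
  congr 1
  simp only [gaussianPDFReal, rs, mul_one, NNReal.coe_mk, NNReal.coe_one, mul_zero, sub_zero]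
  have e1 : √(2 * Real.pi * σ ^ 2) = √(2 * Real.pi) * σ := by
    rw [Real.sqrt_mul (by positivity), Real.sqrt_sq hσ.le]
  have e2 : -t ^ 2 / (2 * σ ^ 2) = -t ^ 2 / 2 + -(t ^ 2 * ((σ⁻¹) ^ 2 - 1) / 2) := by
    field_simp
    ring
  rw [e1, e2, Real.exp_add, mul_inv]
  ring

lemma a6_J {r : ℕ} {u : Eu (r + 1)} (hu : ‖u‖ = 1) :
    ∃ J : Eu r →ₗᵢ[ℝ] Eu (r + 1), ∀ s, ⟪J s, u⟫ = 0 := by
  have o1 : Orthonormal ℝ ![u] := ⟨fun i => by fin_cases i; simpa, fun i j hij =>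
    absurd (Subsingleton.elim i j) hij⟩
  obtain ⟨J, hJ, -⟩ := exists_J (n := r) (k := 1) ![u] o1
  exact ⟨J, fun s => by simpa using hJ s 0⟩

lemma a6_mPhi {d : ℕ} (u : Eu d) : Measurable fun g : Eu d => (⟪g, u⟫, pj u g) := by
  have : Continuous fun g : Eu d => (⟪g, u⟫, pj u g) := by unfold pj; fun_prop
  exact this.measurable

/-- `Gm u σ g = σ ⟪g,u⟫ u + pj u g`; use `split` (or `law2`) and `dens1`. -/
theorem dens {d : ℕ} {u : Eu d} (hu : ‖u‖ = 1) {σ : ℝ} (hσ : 0 < σ) :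
    (stdGaussian (Eu d)).map (Gm u σ) =
      (stdGaussian (Eu d)).withDensity fun g => ENNReal.ofReal (rs σ ⟪g, u⟫) := by
  obtain _ | r := d
  · exfalso
    rw [Subsingleton.elim u 0, norm_zero] at hu
    exact zero_ne_one hu
  obtain ⟨J, hJ⟩ := a6_J hu
  have hΦ := a6_mPhi u
  have hT : Measurable fun q : ℝ × Eu (r + 1) => q.1 • u + q.2 := by fun_prop
  have hS : Measurable fun t : ℝ => σ * t := by fun_prop
  have e1 : Gm u σ = (fun q : ℝ × Eu (r + 1) => q.1 • u + q.2) ∘ (Prod.map (fun t => σ * t) id) ∘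
      fun g : Eu (r + 1) => (⟪g, u⟫, pj u g) := by
    funext g
    simp only [Gm, pj, Function.comp, Prod.map, id]
    module
  have hf : Measurable fun q : ℝ × Eu (r + 1) => ENNReal.ofReal (rs σ q.1) :=
    (a6_rs_meas σ).comp measurable_fst
  rw [e1, ← Measure.map_map hT ((hS.prodMap measurable_id).comp hΦ),
    ← Measure.map_map (hS.prodMap measurable_id) hΦ, split hu J hJ,
    ← Measure.map_prod_map _ _ hS measurable_id, dens1 hσ, Measure.map_id,
    prod_withDensity_left (a6_rs_meas σ), ← split hu J hJ, a6_wd _ hΦ hf, Measure.map_map hT hΦ]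
  have e2 : (fun q : ℝ × Eu (r + 1) => q.1 • u + q.2) ∘
      (fun g : Eu (r + 1) => (⟪g, u⟫, pj u g)) = id := by
    funext g
    simp [pj]
  rw [e2, Measure.map_id]

theorem rs_le {σ : ℝ} (hσ : 0 < σ) (h1 : σ ≤ 1) (τ : ℝ) : 0 ≤ rs σ τ ∧ rs σ τ ≤ σ⁻¹ := by
  have h2 : 1 ≤ σ⁻¹ := (one_le_inv₀ hσ).2 h1
  refine ⟨by unfold rs; positivity, ?_⟩
  refine mul_le_of_le_one_right (by positivity) (Real.exp_le_one_iff.2 ?_)
  have : 0 ≤ τ ^ 2 * ((σ⁻¹) ^ 2 - 1) := mul_nonneg (sq_nonneg _) (by nlinarith)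
  linarith

lemma a6_e {m : ℕ} (g : Eu (m + 1)) : ⟪g, ee 0⟫ = g 0 := by
  simp [ee, EuclideanSpace.inner_single_right]

lemma a6_pyth {d : ℕ} {u : Eu d} (hu : ‖u‖ = 1) (g : Eu d) :
    ‖pj u g‖ ^ 2 = ‖g‖ ^ 2 - ⟪g, u⟫ ^ 2 := by
  rw [pj, norm_sub_sq_real, inner_smul_right, norm_smul, hu, Real.norm_eq_abs, mul_one, sq_abs]
  ring

lemma a6_mPsi {m : ℕ} : Measurable fun g : Eu (m + 1) => (g 0, ‖pj (ee 0) g‖) := by
  have : Continuous fun g : Eu (m + 1) => (g 0, ‖pj (ee 0) g‖) := by unfold pj; fun_prop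
  exact this.measurable

lemma a6_ee {d : ℕ} (i : Fin d) : ‖ee i‖ = 1 := by simp [ee]

lemma a6_law (m : ℕ) : (stdGaussian (Eu (m + 1))).map (fun g => (g 0, ‖pj (ee 0) g‖)) =
    (gaussianReal 0 1).prod ((stdGaussian (Eu m)).map fun g => ‖g‖) := by
  have hu : ‖(ee 0 : Eu (m + 1))‖ = 1 := a6_ee _
  obtain ⟨J, hJ⟩ := a6_J hu
  have e1 : (fun g : Eu (m + 1) => (g 0, ‖pj (ee 0) g‖)) =
      (Prod.map id fun z : Eu (m + 1) => ‖z‖) ∘ fun g => (⟪g, ee 0⟫, pj (ee 0) g) := by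
    funext g
    simp only [Function.comp, Prod.map, id, a6_e]
  have hN : Measurable fun z : Eu (m + 1) => ‖z‖ := measurable_norm
  rw [e1, ← Measure.map_map (measurable_id.prodMap hN) (a6_mPhi _), split hu J hJ,
    ← Measure.map_prod_map _ _ measurable_id hN, Measure.map_id,
    Measure.map_map hN J.continuous.measurable]
  congr 2
  funext s
  simp

lemma a6_tau {m : ℕ} (g : Eu (m + 1)) : g 0 / √(g 0 ^ 2 + ‖pj (ee 0) g‖ ^ 2) = nz g 0 := by
  rw [a6_pyth (a6_ee _), a6_e, add_sub_cancel, Real.sqrt_sq (norm_nonneg _), nz]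
  simp [div_eq_inv_mul]

lemma a6_pj {m : ℕ} (g : Eu (m + 1)) : ‖pj (ee 0) g‖ = ‖g‖ * √(1 - (nz g 0) ^ 2) := by
  by_cases h : g = 0
  · simp [h, pj]
  have hp : 0 < ‖g‖ := norm_pos_iff.2 h
  rw [← Real.sqrt_sq (norm_nonneg (pj (ee 0) g)), a6_pyth (a6_ee _), a6_e]
  conv_rhs => rw [← Real.sqrt_sq hp.le, ← Real.sqrt_mul (sq_nonneg _)]
  congr 1
  have : nz g 0 = ‖g‖⁻¹ * g 0 := by simp [nz]
  rw [this]
  field_simp

lemma a6_m0 {m : ℕ} : Measurable fun g : Eu (m + 1) => nz g 0 := by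
  have hm : Measurable fun u : Eu (m + 1) => u 0 := by fun_prop
  exact hm.comp measurable_nz

lemma a6_tl (m : ℕ) : tl m = ((gaussianReal 0 1).prod ((stdGaussian (Eu m)).map fun g => ‖g‖)).map
    fun q : ℝ × ℝ => q.1 / √(q.1 ^ 2 + q.2 ^ 2) := by
  have hm : Measurable fun u : Eu (m + 1) => u 0 := by fun_prop
  have hτ : Measurable fun q : ℝ × ℝ => q.1 / √(q.1 ^ 2 + q.2 ^ 2) := by fun_prop
  rw [← a6_law, Measure.map_map hτ a6_mPsi, tl, sph, Measure.map_map hm measurable_nz]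
  congr 1
  funext g
  exact (a6_tau g).symm

/-- `t = γ / √(γ² + ρ²)` with `γ` Gaussian and `ρ` the norm in dimension `n` (`split`), then
`chi_dens`; `1/ρ = 1/(‖g‖ √(1-t²))`, `indep` and `inv_norm`. -/
theorem tl_dens {n : ℕ} (hn : 0 < n) : tl n =
    (tl (n + 1)).withDensity fun t => ENNReal.ofReal (ad n / ad (n + 1) / √(1 - t ^ 2)) := by
  obtain ⟨k, rfl⟩ : ∃ k, n = k + 1 := ⟨n - 1, by omega⟩
  have hτ : Measurable fun q : ℝ × ℝ => q.1 / √(q.1 ^ 2 + q.2 ^ 2) := by fun_prop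
  have hf : Measurable fun ρ : ℝ => ENNReal.ofReal (ad (k + 1) / ρ) := by fun_prop
  have hf2 : Measurable fun q : ℝ × ℝ => ENNReal.ofReal (ad (k + 1) / q.2) :=
    hf.comp measurable_snd
  have hk : Measurable fun t : ℝ => ENNReal.ofReal (ad (k + 1) / √(1 - t ^ 2)) := by fun_prop
  have hA : Measurable fun r : ℝ => ENNReal.ofReal r⁻¹ := by fun_prop
  have hm : Measurable fun u : Eu (k + 1 + 1 + 1) => u 0 := by fun_prop
  have hN : Measurable fun z : Eu (k + 1 + 1 + 1) => ‖z‖ := measurable_norm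
  have a0 := ad_pos hn
  have a1 := ad_pos (Nat.succ_pos (k + 1))
  conv_lhs => rw [a6_tl, chi_dens k, prod_withDensity_right hf, ← a6_law, a6_wd _ a6_mPsi hf2,
    Measure.map_map hτ a6_mPsi]
  have e1 : (fun q : ℝ × ℝ => q.1 / √(q.1 ^ 2 + q.2 ^ 2)) ∘
      (fun g : Eu (k + 2 + 1) => (g 0, ‖pj (ee 0) g‖)) = fun g => nz g 0 := by
    funext g
    exact a6_tau g
  rw [e1]
  refine Measure.ext fun s hs => ?_
  have hi : Measurable (s.indicator fun t : ℝ => ENNReal.ofReal (ad (k + 1) / √(1 - t ^ 2))) :=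
    hk.indicator hs
  rw [Measure.map_apply a6_m0 hs, withDensity_apply _ (a6_m0 hs), withDensity_apply _ hs,
    ← lintegral_indicator (a6_m0 hs), ← lintegral_indicator hs]
  have e2 : ∀ g : Eu (k + 2 + 1), ((fun g : Eu (k + 2 + 1) => nz g 0) ⁻¹' s).indicator
      (fun g => ENNReal.ofReal (ad (k + 1) / ‖pj (ee 0) g‖)) g = ENNReal.ofReal ‖g‖⁻¹ *
        s.indicator (fun t : ℝ => ENNReal.ofReal (ad (k + 1) / √(1 - t ^ 2))) (nz g 0) := by
    intro g
    by_cases h : nz g 0 ∈ s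
    · rw [indicator_of_mem h, indicator_of_mem (show g ∈ _ from h),
        ← ENNReal.ofReal_mul (by positivity), a6_pj]
      congr 1
      rw [div_eq_mul_inv, div_eq_mul_inv, mul_inv]
      ring
    · rw [indicator_of_notMem h, indicator_of_notMem (show g ∉ _ from h), mul_zero]
  have hΨ : Measurable fun g : Eu (k + 2 + 1) => (‖g‖, nz g) := hN.prodMk measurable_nz
  have hq : Measurable fun q : ℝ × Eu (k + 2 + 1) => ENNReal.ofReal q.1⁻¹ *
      s.indicator (fun t : ℝ => ENNReal.ofReal (ad (k + 1) / √(1 - t ^ 2))) (q.2 0) :=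
    (hA.comp measurable_fst).mul (hi.comp (hm.comp measurable_snd))
  have e3 := lintegral_map (μ := stdGaussian (Eu (k + 2 + 1))) hq hΨ
  rw [indep (Nat.succ_pos _)] at e3
  have e4 := lintegral_prod_mul (μ := (stdGaussian (Eu (k + 2 + 1))).map fun g => ‖g‖)
    (ν := sph (k + 2 + 1)) hA.aemeasurable (hi.comp hm).aemeasurable
  have e5 : ∫⁻ r, ENNReal.ofReal r⁻¹ ∂((stdGaussian (Eu (k + 2 + 1))).map fun g => ‖g‖) =
      ENNReal.ofReal (ad (k + 1 + 1))⁻¹ := by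
    have h := inv_norm (n := k + 2) (Nat.succ_pos _)
    rw [lintegral_map hA hN, ← ofReal_integral_eq_lintegral_ofReal h.1
      (Filter.Eventually.of_forall fun g => inv_nonneg.2 (norm_nonneg g)), h.2]
  have e6 := lintegral_map (μ := sph (k + 2 + 1)) hi hm
  rw [lintegral_congr e2, ← e3]
  refine e4.trans ?_
  rw [e5]
  refine (congrArg _ e6.symm).trans ?_
  rw [← lintegral_const_mul _ hi]
  refine lintegral_congr fun t => ?_
  by_cases h : t ∈ s
  · rw [indicator_of_mem h, indicator_of_mem h, ← ENNReal.ofReal_mul (by positivity)]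
    congr 1
    ring
  · rw [indicator_of_notMem h, indicator_of_notMem h, mul_zero]

end Pool.Agent.Lib.MP_77d991_gt.Ex
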