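import Pool.Agent.Lib.MP_77d991_gt.Ex.A4

open MeasureTheory ProbabilityTheory Set
open scoped RealInnerProductSpace

namespace Pool.Agent.Lib.MP_77d991_gt.Ex

open Pool.Agent.Lib.MP_77d991_gt.As

section
variable {d : ℕ} {h : Eu d → ℝ} {x : Eu d → Eu d} {R : ℝ}

lemma b1_int_exp (K : ℝ) :
    Integrable (fun g : Eu d => Real.exp (K * ‖g‖)) (stdGaussian (Eu d)) := by
  refine Integrable.mono' (integrable_exp_quarter.const_mul (Real.exp (K ^ 2)))
    (by fun_prop) (Filter.Eventually.of_forall fun g => ?_)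
  rw [Real.norm_of_nonneg (Real.exp_pos _).le, ← Real.exp_add]
  exact Real.exp_le_exp.2 (by nlinarith [sq_nonneg (K - ‖g‖ / 2)])

lemma b1_le_exp (g : Eu d) : ‖g‖ ≤ Real.exp ‖g‖ := by linarith [Real.add_one_le_exp ‖g‖]

/-- the field is almost everywhere the directional derivative of the norm. -/
lemma b1_ae (S : Sel h x R) (w : Eu d) : ∀ᵐ g ∂stdGaussian (Eu d),
    HasDerivAt (fun t : ℝ => h (g + t • w)) ⟪x g, w⟫ 0 := by
  rw [std_eq_density]
  refine (withDensity_absolutelyContinuous _ _).ae_le ?_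
  filter_upwards [S.lip.ae_lineDifferentiableAt (μ := volume) w] with g hg
  have h1 : HasDerivAt (fun t : ℝ => h (g + t • w)) (deriv (fun t : ℝ => h (g + t • w)) 0) 0 :=
    DifferentiableAt.hasDerivAt hg
  have h2 := h1.sub ((hasDerivAt_id (0 : ℝ)).mul_const ⟪x g, w⟫)
  have h3 : IsLocalMin ((fun t : ℝ => h (g + t • w)) - fun t : ℝ => id t * ⟪x g, w⟫) 0 := by
    refine Filter.Eventually.of_forall fun t => ?_
    have := S.le g (g + t • w)
    rw [inner_add_right, inner_smul_right, S.eq] at this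
    simp only [Pi.sub_apply, id, zero_smul, add_zero, zero_mul, sub_zero]
    linarith
  have h4 := h3.hasDerivAt_eq_zero h2
  rw [one_mul, sub_eq_zero] at h4
  exact h4 ▸ h1

/-- integration by parts against a weight of exponential growth. -/
lemma b1_stein (S : Sel h x R) (w : Eu d) {W W' : Eu d → ℝ} (hW : Measurable W)
    (hW' : Measurable W') (hD : ∀ g, HasDerivAt (fun t : ℝ => W (g + t • w)) (W' g) 0)
    {C K : ℝ} (hK : 0 ≤ K) (hb : ∀ g, |W g| ≤ C * Real.exp (K * ‖g‖))
    (hb' : ∀ g, |W' g| ≤ C * Real.exp (K * ‖g‖)) :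
    ∫ g, ⟪x g, w⟫ * W g ∂stdGaussian (Eu d) =
      ∫ g, h g * (⟪g, w⟫ * W g - W' g) ∂stdGaussian (Eu d) := by
  have hR := S.R_nonneg
  have hC : 0 ≤ C := by
    have := (abs_nonneg _).trans (hb 0)
    simpa using this
  have hxm := S.meas
  have hhm := S.cont.measurable
  have hh : ∀ g, |h g| ≤ R * Real.exp ‖g‖ := fun g => by
    rw [abs_of_nonneg (S.h_nonneg g)]
    exact (S.h_le g).trans (mul_le_mul_of_nonneg_left (b1_le_exp g) hR)
  have i0 : Integrable (fun g => h g * W g) (stdGaussian (Eu d)) := by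
    refine Integrable.mono' ((b1_int_exp (K + 1)).const_mul (R * C))
      (Measurable.aestronglyMeasurable (by fun_prop)) (Filter.Eventually.of_forall fun g => ?_)
    rw [Real.norm_eq_abs, abs_mul, add_mul, one_mul, Real.exp_add]
    calc _ ≤ (R * Real.exp ‖g‖) * (C * Real.exp (K * ‖g‖)) :=
          mul_le_mul (hh g) (hb g) (abs_nonneg _) (by positivity)
      _ = _ := by ring
  have d1 := (hasDerivAt_integral_of_dominated_loc_of_lip (μ := stdGaussian (Eu d))
    (F := fun (t : ℝ) g => h (g + t • w) * W g) (x₀ := 0) (s := univ)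
    (bound := fun g => R * ‖w‖ * (C * Real.exp (K * ‖g‖))) (F' := fun g => ⟪x g, w⟫ * W g)
    Filter.univ_mem
    (Filter.Eventually.of_forall fun t => Measurable.aestronglyMeasurable (by fun_prop))
    (by simpa using i0) (Measurable.aestronglyMeasurable (by fun_prop))
    (Filter.Eventually.of_forall fun g => by
      refine LipschitzOnWith.of_dist_le_mul fun t _ t' _ => ?_
      have h1 := S.lip.dist_le_mul (g + t • w) (g + t' • w)
      rw [Real.dist_eq, dist_eq_norm, add_sub_add_left_eq_sub, ← sub_smul, norm_smul,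
        Real.coe_toNNReal _ hR, Real.norm_eq_abs] at h1
      rw [Real.dist_eq, Real.dist_eq, ← sub_mul, abs_mul, Real.coe_nnabs,
        abs_of_nonneg (show 0 ≤ R * ‖w‖ * (C * Real.exp (K * ‖g‖)) by positivity)]
      calc _ ≤ (R * (|t - t'| * ‖w‖)) * (C * Real.exp (K * ‖g‖)) :=
            mul_le_mul h1 (hb g) (abs_nonneg _) (by positivity)
        _ = _ := by ring)
    (((b1_int_exp K).const_mul C).const_mul _)
    ((b1_ae S w).mono fun g hg => hg.mul_const (W g))).2
  have d2 := (hasDerivAt_integral_of_dominated_loc_of_deriv_le (μ := stdGaussian (Eu d))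
    (F := fun (t : ℝ) g => Real.exp (t * ⟪w, g⟫ - t ^ 2 * ‖w‖ ^ 2 / 2) * (h g * W (g - t • w)))
    (x₀ := 0) (s := Metric.ball 0 1)
    (bound := fun g => R * (C * Real.exp (K * ‖w‖)) * (‖w‖ + ‖w‖ ^ 2 + 1) *
      Real.exp ((‖w‖ + K + 2) * ‖g‖))
    (F' := fun (t : ℝ) g => Real.exp (t * ⟪w, g⟫ - t ^ 2 * ‖w‖ ^ 2 / 2) *
      (h g * ((⟪w, g⟫ - t * ‖w‖ ^ 2) * W (g - t • w) - W' (g - t • w))))
    (Metric.ball_mem_nhds _ one_pos)
    (Filter.Eventually.of_forall fun t => Measurable.aestronglyMeasurable (by fun_prop))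
    (by simpa using i0) (Measurable.aestronglyMeasurable (by fun_prop))
    (Filter.Eventually.of_forall fun g t ht => by
      have ht1 : |t| ≤ 1 := by simpa using (mem_ball_zero_iff.1 ht).le
      have e1 : 1 ≤ Real.exp ‖g‖ := Real.one_le_exp (norm_nonneg _)
      have a1 : |⟪w, g⟫| ≤ ‖w‖ * ‖g‖ := abs_real_inner_le_norm _ _
      have a2 : Real.exp (t * ⟪w, g⟫ - t ^ 2 * ‖w‖ ^ 2 / 2) ≤ Real.exp (‖w‖ * ‖g‖) := by
        refine Real.exp_le_exp.2 ?_
        have : t * ⟪w, g⟫ ≤ 1 * (‖w‖ * ‖g‖) := (le_abs_self _).trans (by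
          rw [abs_mul]; exact mul_le_mul ht1 a1 (abs_nonneg _) zero_le_one)
        nlinarith [mul_nonneg (sq_nonneg t) (sq_nonneg ‖w‖)]
      have a3 : Real.exp (K * ‖g - t • w‖) ≤ Real.exp (K * ‖w‖) * Real.exp (K * ‖g‖) := by
        rw [← Real.exp_add, ← mul_add]
        refine Real.exp_le_exp.2 (mul_le_mul_of_nonneg_left ?_ hK)
        have := norm_sub_le g (t • w)
        rw [norm_smul, Real.norm_eq_abs] at this
        nlinarith [norm_nonneg w]
      set B := C * Real.exp (K * ‖w‖) * Real.exp (K * ‖g‖) with hB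
      have hB0 : 0 ≤ B := by positivity
      have a4 : |W (g - t • w)| ≤ B := (hb _).trans (by
        rw [hB, mul_assoc]; exact mul_le_mul_of_nonneg_left a3 hC)
      have a5 : |W' (g - t • w)| ≤ B := (hb' _).trans (by
        rw [hB, mul_assoc]; exact mul_le_mul_of_nonneg_left a3 hC)
      have a6 : |⟪w, g⟫ - t * ‖w‖ ^ 2| ≤ (‖w‖ + ‖w‖ ^ 2) * Real.exp ‖g‖ := by
        refine (abs_sub _ _).trans ?_
        rw [abs_mul, abs_of_nonneg (sq_nonneg ‖w‖), add_mul]
        refine add_le_add (a1.trans (mul_le_mul_of_nonneg_left (b1_le_exp g) (norm_nonneg _))) ?_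
        nlinarith [sq_nonneg ‖w‖]
      have a7 : |(⟪w, g⟫ - t * ‖w‖ ^ 2) * W (g - t • w) - W' (g - t • w)| ≤
          (‖w‖ + ‖w‖ ^ 2 + 1) * Real.exp ‖g‖ * B := by
        refine (abs_sub _ _).trans ?_
        rw [abs_mul]
        have := mul_le_mul a6 a4 (abs_nonneg _) (by positivity)
        nlinarith [mul_le_mul_of_nonneg_right e1 hB0]
      rw [Real.norm_eq_abs, abs_mul, abs_mul, abs_of_pos (Real.exp_pos _)]
      have e2 : Real.exp ((‖w‖ + K + 2) * ‖g‖) = Real.exp (‖w‖ * ‖g‖) * Real.exp ‖g‖ *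
          Real.exp ‖g‖ * Real.exp (K * ‖g‖) := by
        rw [← Real.exp_add, ← Real.exp_add, ← Real.exp_add]
        congr 1
        ring
      calc _ ≤ Real.exp (‖w‖ * ‖g‖) * ((R * Real.exp ‖g‖) *
            ((‖w‖ + ‖w‖ ^ 2 + 1) * Real.exp ‖g‖ * B)) :=
            mul_le_mul a2 (mul_le_mul (hh g) a7 (abs_nonneg _) (by positivity))
              (by positivity) (by positivity)
        _ = _ := by rw [e2, hB]; ring)
    ((b1_int_exp _).const_mul _)
    (Filter.Eventually.of_forall fun g t _ => by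
      have h1 : HasDerivAt (fun s : ℝ => t - s) (-1) t := by
        simpa using (hasDerivAt_id t).const_sub t
      have h2 : HasDerivAt (fun s : ℝ => W (g - t • w + s • w)) (W' (g - t • w)) (t - t) := by
        rw [sub_self]; exact hD _
      have h3 := HasDerivAt.comp t h2 h1
      have h4 : HasDerivAt (fun s : ℝ => W (g - s • w)) (W' (g - t • w) * -1) t := by
        refine h3.congr_of_eventuallyEq (Filter.Eventually.of_forall fun s => ?_)
        simp only [Function.comp_apply]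
        congr 1
        module
      have h5 : HasDerivAt (fun s : ℝ => s * ⟪w, g⟫ - s ^ 2 * ‖w‖ ^ 2 / 2)
          (⟪w, g⟫ - t * ‖w‖ ^ 2) t := by
        have := ((hasDerivAt_id t).mul_const ⟪w, g⟫).sub
          (((hasDerivAt_pow 2 t).mul_const (‖w‖ ^ 2)).div_const 2)
        refine this.congr_deriv ?_
        simp only [Nat.cast_ofNat, Nat.add_one_sub_one, pow_one]
        ring
      refine (h5.exp.mul (h4.const_mul (h g))).congr_deriv ?_
      ring)).2
  have e : (fun t : ℝ => ∫ g, h (g + t • w) * W g ∂stdGaussian (Eu d)) = fun t : ℝ =>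
      ∫ g, Real.exp (t * ⟪w, g⟫ - t ^ 2 * ‖w‖ ^ 2 / 2) * (h g * W (g - t • w))
        ∂stdGaussian (Eu d) := by
    funext t
    have := integral_shift (fun y => h y * W (y - t • w)) (t • w)
    simp only [add_sub_cancel_right, smul_eq_mul, inner_smul_left, norm_smul, mul_pow,
      Real.norm_eq_abs, sq_abs, conj_trivial] at this
    exact this
  rw [e] at d1
  rw [d1.unique d2]
  simp [real_inner_comm]

theorem sel_nz : Sel (fun y : Eu d => ‖y‖) nz 1 := by
  refine ⟨measurable_nz, asrad_norm_nz, fun y w => (le_abs_self _).trans (asrad_abs_le y w),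
    fun y => ?_, fun c y hc => ?_, fun y => ?_⟩
  · rcases eq_or_ne y 0 with rfl | hy
    · simp
    · have := norm_ne_zero_iff.2 hy
      rw [nz, inner_smul_left, real_inner_self_eq_norm_sq, conj_trivial]
      field_simp
  · rw [nz, nz, norm_smul, Real.norm_of_nonneg hc.le, smul_smul, mul_inv, mul_right_comm,
      inv_mul_cancel₀ hc.ne', one_mul]
  · rw [nz, nz, norm_neg, smul_neg]

theorem iso_nz (hd : 0 < d) : Iso (nz : Eu d → Eu d) (kap d) := by
  exact fun w => rad_two hd w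

/-- Gaussian integration by parts. `h` is Lipschitz, so differentiable almost everywhere
(`LipschitzWith.ae_differentiableAt`), and there the gradient is `x` (`Sel.sub_le`). Dominated
convergence for the difference quotient in direction `w`; move the shift with `integral_shift`. -/
theorem ibp (S : Sel h x R) (w p q : Eu d) (j i : ℕ) :
    ∫ g, ⟪x g, w⟫ * (⟪g, p⟫ ^ j * ⟪g, q⟫ ^ i) ∂stdGaussian (Eu d) =
      ∫ g, h g * (⟪g, w⟫ * (⟪g, p⟫ ^ j * ⟪g, q⟫ ^ i) -
        j * ⟪p, w⟫ * (⟪g, p⟫ ^ (j - 1) * ⟪g, q⟫ ^ i) -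
        i * ⟪q, w⟫ * (⟪g, p⟫ ^ j * ⟪g, q⟫ ^ (i - 1))) ∂stdGaussian (Eu d) := by
  set A : ℝ := 1 + ‖p‖ + ‖q‖ with hA
  have hA1 : 1 ≤ A := by rw [hA]; linarith [norm_nonneg p, norm_nonneg q]
  have hM : ∀ g : Eu d, ∀ j' ≤ j, ∀ i' ≤ i, |⟪g, p⟫ ^ j' * ⟪g, q⟫ ^ i'| ≤
      A ^ (j + i) * Real.exp ((j + i : ℕ) * ‖g‖) := fun g j' hj i' hi => by
    have e1 : 1 ≤ Real.exp ‖g‖ := Real.one_le_exp (norm_nonneg _)
    have e2 : 1 ≤ A * Real.exp ‖g‖ := one_le_mul_of_one_le_of_one_le hA1 e1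
    have a : ∀ z : Eu d, ‖z‖ ≤ A → |⟪g, z⟫| ≤ A * Real.exp ‖g‖ := fun z hz =>
      (abs_real_inner_le_norm _ _).trans (by
        rw [mul_comm]; exact mul_le_mul hz (b1_le_exp g) (norm_nonneg _) (by linarith))
    rw [Real.exp_nat_mul, ← mul_pow, pow_add, abs_mul, abs_pow, abs_pow]
    exact mul_le_mul
      ((pow_le_pow_left₀ (abs_nonneg _) (a p (by rw [hA]; linarith [norm_nonneg q])) _).trans
        (pow_le_pow_right₀ e2 hj))
      ((pow_le_pow_left₀ (abs_nonneg _) (a q (by rw [hA]; linarith [norm_nonneg p])) _).trans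
        (pow_le_pow_right₀ e2 hi)) (by positivity) (by positivity)
  have key := b1_stein S w (W := fun g => ⟪g, p⟫ ^ j * ⟪g, q⟫ ^ i)
    (W' := fun g => j * ⟪p, w⟫ * (⟪g, p⟫ ^ (j - 1) * ⟪g, q⟫ ^ i) +
      i * ⟪q, w⟫ * (⟪g, p⟫ ^ j * ⟪g, q⟫ ^ (i - 1))) (by fun_prop) (by fun_prop)
    (fun g => by
      have h1 : ∀ z : Eu d, HasDerivAt (fun t : ℝ => ⟪g + t • w, z⟫) ⟪z, w⟫ 0 := fun z => by
        have := ((hasDerivAt_id (0 : ℝ)).mul_const ⟪z, w⟫).const_add ⟪g, z⟫
        rw [one_mul] at this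
        refine this.congr_of_eventuallyEq (Filter.Eventually.of_forall fun t => ?_)
        simp only [id, inner_add_left, inner_smul_left, conj_trivial, real_inner_comm w z]
      refine (((h1 p).pow j).mul ((h1 q).pow i)).congr_deriv ?_
      simp only [Pi.pow_apply, zero_smul, add_zero]
      ring)
    (C := (1 + |j * ⟪p, w⟫| + |i * ⟪q, w⟫|) * A ^ (j + i)) (K := (j + i : ℕ)) (by positivity)
    (fun g => by
      have h1 := hM g j le_rfl i le_rfl
      have h2 := (abs_nonneg _).trans h1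
      nlinarith [mul_nonneg (abs_nonneg (j * ⟪p, w⟫)) h2, mul_nonneg (abs_nonneg (i * ⟪q, w⟫)) h2])
    (fun g => by
      have h1 := hM g (j - 1) (Nat.sub_le _ _) i le_rfl
      have h2 := hM g j le_rfl (i - 1) (Nat.sub_le _ _)
      have h3 := (abs_nonneg _).trans h1
      refine (abs_add_le _ _).trans ?_
      rw [abs_mul (j * ⟪p, w⟫), abs_mul (i * ⟪q, w⟫)]
      nlinarith [mul_le_mul_of_nonneg_left h1 (abs_nonneg (j * ⟪p, w⟫)),
        mul_le_mul_of_nonneg_left h2 (abs_nonneg (i * ⟪q, w⟫))])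
  rw [key]
  congr 1
  funext g
  ring

theorem sel_xh (S : Sel h x R) {ρ : ℝ} (h0 : 0 ≤ ρ) (hR : ρ ≤ R) :
    Sel (fun y => max (h y) (ρ * ‖y‖)) (xh h x ρ) R := by
  have hxm := S.meas
  have hhm := S.cont.measurable
  have hn := measurable_nz (r := d)
  have N := sel_nz (d := d)
  refine ⟨Measurable.ite (measurableSet_lt (by fun_prop) hhm) hxm (by fun_prop), fun y => ?_,
    fun y w => ?_, fun y => ?_, fun c y hc => ?_, fun y => ?_⟩
  · unfold xh
    split_ifs
    · exact S.bdd y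
    · rw [norm_smul, Real.norm_of_nonneg h0]
      exact (mul_le_of_le_one_right h0 (N.bdd y)).trans hR
  · unfold xh
    split_ifs
    · exact (S.le y w).trans (le_max_left _ _)
    · rw [inner_smul_left, conj_trivial]
      exact (mul_le_mul_of_nonneg_left (N.le y w) h0).trans (le_max_right _ _)
  · unfold xh
    split_ifs with hy
    · rw [S.eq, max_eq_left hy.le]
    · rw [inner_smul_left, conj_trivial, N.eq, max_eq_right (not_lt.1 hy)]
  · unfold xh
    rw [S.h_smul, norm_smul, Real.norm_of_nonneg hc.le, abs_of_pos hc, S.hom c y hc, N.hom c y hc,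
      mul_left_comm]
    simp only [mul_lt_mul_iff_right₀ hc]
  · unfold xh
    rw [S.h_neg, norm_neg, S.odd, N.odd]
    split_ifs
    · rfl
    · rw [smul_neg]

end

end Pool.Agent.Lib.MP_77d991_gt.Ex
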