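import Pool.Agent.Lib.MP_77d991_gt.Ex.B1

open MeasureTheory ProbabilityTheory Set
open scoped RealInnerProductSpace

namespace Pool.Agent.Lib.MP_77d991_gt.Ex

open Pool.Agent.Lib.MP_77d991_gt.As

section
variable {d : ℕ} {h : Eu d → ℝ} {x : Eu d → Eu d} {R : ℝ}

theorem meas_Nf (S : Sel h x R) : Bm (Nf x) (R + 1) := by
  exact ⟨S.meas.sub measurable_nz, fun y =>
    (norm_sub_le _ _).trans (add_le_add (S.bdd y) (asrad_norm_nz y))⟩

lemma b2_hom (S : Sel h x R) {c : ℝ} (y : Eu d) (hc : 0 < c) : Nf x (c • y) = Nf x y := by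
  rw [Nf, Nf, S.hom c y hc, sel_nz.hom c y hc]

lemma b2_nz (S : Sel h x R) (g : Eu d) : Nf x (nz g) = Nf x g := by
  rcases eq_or_ne g 0 with rfl | hg
  · rw [nz, smul_zero]
  · exact b2_hom S g (inv_pos.2 (norm_pos_iff.2 hg))

lemma b2_unit {u : Eu d} (hu : ‖u‖ = 1) : nz u = u := by
  rw [nz, hu, inv_one, one_smul]

lemma b2_ee (y : Eu d) (a : Fin d) : ⟪y, ee a⟫ = y a := by
  simp [ee, EuclideanSpace.inner_single_right]

lemma b2_abs {u : Eu d} (hu : ‖u‖ = 1) (w : Eu d) : |⟪u, w⟫| ≤ ‖w‖ := by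
  simpa [hu] using abs_real_inner_le_norm u w

lemma b2_inner (S : Sel h x R) (g : Eu d) : ⟪Nf x g, g⟫ = h g - ‖g‖ := by
  rw [Nf, inner_sub_left, S.eq, sel_nz.eq]

lemma b2_int (hd : 0 < d) {F : Eu d → ℝ} (hF : Measurable F) {C : ℝ}
    (hb : ∀ u, ‖u‖ = 1 → |F u| ≤ C) : Integrable F (sph d) :=
  Integrable.of_bound hF.aestronglyMeasurable C ((sph_unit hd).mono hb)

lemma b2_zero (hd : 0 < d) {F : Eu d → ℝ} (hF : Measurable F) (k : ℕ) {C : ℝ}
    (hb : ∀ u, ‖u‖ = 1 → |F u| ≤ C) (hh : ∀ (c : ℝ) (y : Eu d), 0 < c → F (c • y) = c ^ k * F y)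
    (h0 : ∫ g, F g ∂stdGaussian (Eu d) = 0) : ∫ u, F u ∂sph d = 0 := by
  obtain ⟨K, hK, h1⟩ := mom_norm k
  rw [rad hd hF k hb hh] at h0
  exact (mul_eq_zero.1 h0).resolve_left ((inv_pos.2 hK).trans_le (h1 d hd).2).ne'

lemma b2_T3 {F : Eu d → ℝ} {C : ℝ} (hF : Measurable F) (hb : ∀ g, |F g| ≤ C) (p q r : Eu d) :
    Integrable (fun g => F g * (⟪g, p⟫ * ⟪g, q⟫ * ⟪g, r⟫)) (stdGaussian (Eu d)) := by
  have hm : Measurable fun g : Eu d => ⟪g, p⟫ * ⟪g, q⟫ * ⟪g, r⟫ := by fun_prop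
  refine Integrable.mono' ((integrable_norm_pow 3).const_mul (C * (‖p‖ * ‖q‖ * ‖r‖)))
    (hF.mul hm).aestronglyMeasurable (.of_forall fun g => ?_)
  have h0 : 0 ≤ C := (abs_nonneg _).trans (hb g)
  rw [Real.norm_eq_abs, abs_mul, abs_mul, abs_mul]
  calc _ ≤ C * ((‖g‖ * ‖p‖) * (‖g‖ * ‖q‖) * (‖g‖ * ‖r‖)) := by
        gcongr
        exacts [hb g, abs_real_inner_le_norm _ _, abs_real_inner_le_norm _ _,
          abs_real_inner_le_norm _ _]
    _ = _ := by ring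

lemma b2_iso (S : Sel h x R) {a : ℝ} (hI : Iso x a) (w w' : Eu d) :
    Integrable (fun g => ⟪x g, w⟫ * ⟪g, w'⟫) (stdGaussian (Eu d)) ∧
      ∫ g, ⟪x g, w⟫ * ⟪g, w'⟫ ∂stdGaussian (Eu d) = a * ⟪w, w'⟫ := by
  have e : (fun g => ⟪x g, w⟫ * ⟪g, w'⟫) = fun g => ⟪w, ⟪g, w'⟫ • x g⟫ := by
    funext g
    rw [inner_smul_right, real_inner_comm w, mul_comm]
  rw [e, integral_inner (S.integrable_smul w'), hI w', inner_smul_right]
  exact ⟨(S.integrable_smul w').const_inner w, rfl⟩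

lemma b2_lin (P : Pos h x R) (hd : 0 < d) (w w' : Eu d) :
    ∫ g, ⟪Nf x g, w⟫ * ⟪g, w'⟫ ∂stdGaussian (Eu d) = 0 := by
  have h1 := b2_iso P.sel P.iso w w'
  have h2 := b2_iso sel_nz (iso_nz hd) w w'
  simp only [Nf, inner_sub_left, sub_mul]
  rw [integral_sub h1.1 h2.1, h1.2, h2.2, sub_self]

lemma b2_lin' (P : Pos h x R) (hd : 0 < d) (w w' : Eu d) :
    Integrable (fun u => ⟪Nf x u, w⟫ * ⟪u, w'⟫) (sph d) ∧
      ∫ u, ⟪Nf x u, w⟫ * ⟪u, w'⟫ ∂sph d = 0 := by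
  have hN := meas_Nf P.sel
  have hm : Measurable fun u => ⟪Nf x u, w⟫ * ⟪u, w'⟫ := by
    have := hN.1
    fun_prop
  have hb : ∀ u : Eu d, ‖u‖ = 1 → |⟪Nf x u, w⟫ * ⟪u, w'⟫| ≤ (R + 1) * ‖w‖ * ‖w'‖ := fun u hu => by
    rw [abs_mul]
    refine mul_le_mul ((abs_real_inner_le_norm _ _).trans ?_) (b2_abs hu w') (abs_nonneg _)
      (mul_nonneg ((norm_nonneg _).trans (hN.2 u)) (norm_nonneg _))
    exact mul_le_mul_of_nonneg_right (hN.2 u) (norm_nonneg _)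
  exact ⟨b2_int hd hm hb, b2_zero hd hm 1 hb (fun c y hc => by
    rw [b2_hom P.sel y hc, real_inner_smul_left]
    ring) (b2_lin P hd w w')⟩

lemma b2_ibp (S : Sel h x R) {a : ℝ} (hI : Iso x a) (w p : Eu d) :
    Integrable (fun g => h g * (⟪g, w⟫ * ⟪g, p⟫)) (stdGaussian (Eu d)) ∧
      ∫ g, h g * (⟪g, w⟫ * ⟪g, p⟫) ∂stdGaussian (Eu d) =
        a * ⟪w, p⟫ + a * Module.finrank ℝ (Eu d) * ⟪p, w⟫ := by
  have hc := S.cont
  have i1 : Integrable (fun g => h g * (⟪g, w⟫ * ⟪g, p⟫)) (stdGaussian (Eu d)) := by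
    refine Integrable.mono' ((integrable_norm_pow 3).const_mul (R * (‖w‖ * ‖p‖)))
      (Continuous.aestronglyMeasurable (by fun_prop)) (.of_forall fun g => ?_)
    have h0 := S.R_nonneg
    rw [Real.norm_eq_abs, abs_mul, abs_mul, abs_of_nonneg (S.h_nonneg g)]
    calc _ ≤ (R * ‖g‖) * ((‖g‖ * ‖w‖) * (‖g‖ * ‖p‖)) := by
          gcongr
          exacts [S.h_le g, abs_real_inner_le_norm _ _, abs_real_inner_le_norm _ _]
      _ = _ := by ring
  have i2 : Integrable h (stdGaussian (Eu d)) := by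
    simpa using S.integrable_lin (ContinuousLinearMap.id ℝ (Eu d))
  have h1 := ibp S w p p 1 0
  simp only [pow_one, pow_zero, mul_one, Nat.cast_one, Nat.cast_zero, zero_mul, sub_zero, one_mul,
    Nat.sub_self, mul_sub] at h1
  rw [(b2_iso S hI w p).2, integral_sub i1 (i2.mul_const _), integral_mul_const, S.mean hI] at h1
  exact ⟨i1, by linarith⟩

lemma b2_quad (P : Pos h x R) (hd : 0 < d) (w w' : Eu d) :
    ∫ g, (h g - ‖g‖) * (⟪g, w⟫ * ⟪g, w'⟫) ∂stdGaussian (Eu d) = 0 := by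
  have h1 := b2_ibp P.sel P.iso w w'
  have h2 := b2_ibp sel_nz (iso_nz hd) w w'
  simp only [sub_mul]
  rw [integral_sub h1.1 h2.1, h1.2, h2.2, sub_self]

lemma b2_dev (S : Sel h x R) {u : Eu d} (hu : ‖u‖ = 1) : |h u - 1| ≤ R + 1 := by
  have h1 := S.h_le u
  have h2 := S.h_nonneg u
  rw [hu, mul_one] at h1
  exact abs_le.2 ⟨by linarith, by linarith⟩

lemma b2_coord (S : Sel h x R) (a : Fin d) :
    Measurable (fun g => Nf x g a) ∧ ∀ g, |Nf x g a| ≤ R + 1 := by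
  have hN := meas_Nf S
  have := hN.1
  exact ⟨by fun_prop, fun g => (PiLp.norm_apply_le (Nf x g) a).trans (hN.2 g)⟩

theorem bsq_eq (S : Sel h x R) : bsq x = ∫ g, ‖Nf x g‖ ^ 2 ∂stdGaussian (Eu d) := by
  have := (meas_Nf S).1
  rw [bsq, sph_int (by fun_prop)]
  simp only [b2_nz S]

theorem bsq_coord (S : Sel h x R) :
    ∑ a, ∫ g, (Nf x g a) ^ 2 ∂stdGaussian (Eu d) = bsq x := by
  rw [bsq_eq S, ← integral_finsetSum]
  · simp only [EuclideanSpace.real_norm_sq_eq]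
  · intro a _
    obtain ⟨h1, h2⟩ := b2_coord S a
    refine Integrable.of_bound (h1.pow_const 2).aestronglyMeasurable ((R + 1) ^ 2)
      (.of_forall fun g => ?_)
    rw [norm_pow]
    exact pow_le_pow_left₀ (norm_nonneg _) (h2 g) 2

/-- For unit `u`: `Nf x u = tn x u + (h u - 1) • u`, an orthogonal sum. -/
theorem Nf_sq (S : Sel h x R) {u : Eu d} (hu : ‖u‖ = 1) :
    ‖Nf x u‖ ^ 2 = ‖tn x u‖ ^ 2 + (h u - 1) ^ 2 ∧ ‖x u‖ ^ 2 = ‖tn x u‖ ^ 2 + h u ^ 2 ∧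
      ⟪tn x u, u⟫ = 0 := by
  have h0 : ⟪tn x u, u⟫ = 0 := by
    rw [tn, inner_sub_left, real_inner_smul_left, real_inner_self_eq_norm_sq, hu]
    ring
  have key : ∀ c : ℝ, ‖tn x u + c • u‖ ^ 2 = ‖tn x u‖ ^ 2 + c ^ 2 := fun c => by
    rw [norm_add_sq_real, real_inner_smul_right, h0, norm_smul, hu, Real.norm_eq_abs, mul_one,
      sq_abs]
    ring
  refine ⟨?_, ?_, h0⟩
  · rw [← key, Nf, b2_unit hu, tn, S.eq, sub_smul, one_smul, sub_add_sub_cancel]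
  · rw [← key, tn, S.eq, sub_add_cancel]

theorem Pos.lin (P : Pos h x R) (hd : 0 < d) (w : Eu d) (a : Fin d) :
    ∫ g, Nf x g a * ⟪g, w⟫ ∂stdGaussian (Eu d) = 0 := by
  simpa only [b2_ee] using b2_lin P hd (ee a) w

/-- `Sel.mean` and `rad`. -/
theorem Pos.mean (P : Pos h x R) (hd : 0 < d) : ∫ u, (h u - 1) ∂sph d = 0 := by
  have hc := P.sel.cont
  have i1 : Integrable h (stdGaussian (Eu d)) := by
    simpa using P.sel.integrable_lin (ContinuousLinearMap.id ℝ (Eu d))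
  have i2 : Integrable (fun g : Eu d => ‖g‖) (stdGaussian (Eu d)) := by
    simpa using integrable_norm_pow (E := Eu d) 1
  rw [← b2_zero hd (F := fun g => h g - ‖g‖) (by fun_prop) 1 (C := R + 1)
    (fun u hu => by rw [hu]; exact b2_dev P.sel hu) (fun c y hc => by
      rw [P.sel.h_smul, norm_smul, Real.norm_eq_abs, abs_of_pos hc]
      ring) (by rw [integral_sub i1 i2, P.sel.mean P.iso, sel_nz.mean (iso_nz hd), sub_self])]
  exact integral_congr_ae ((sph_unit hd).mono fun u hu => by simp only [hu])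

/-- `ibp` with `j = 1`, `i = 0` for `h` and for the norm, then `rad` with `k = 3`. -/
theorem Pos.quad (P : Pos h x R) (hd : 0 < d) (w w' : Eu d) :
    ∫ u, (h u - 1) * (⟪u, w⟫ * ⟪u, w'⟫) ∂sph d = 0 := by
  have hc := P.sel.cont
  rw [← b2_zero hd (F := fun g => (h g - ‖g‖) * (⟪g, w⟫ * ⟪g, w'⟫)) (by fun_prop) 3
    (C := (R + 1) * (‖w‖ * ‖w'‖)) (fun u hu => by
      have := P.sel.R_nonneg
      rw [hu, abs_mul, abs_mul]
      gcongr
      exacts [b2_dev P.sel hu, b2_abs hu w, b2_abs hu w']) (fun c y hc => by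
      rw [P.sel.h_smul, norm_smul, Real.norm_eq_abs, abs_of_pos hc, real_inner_smul_left,
        real_inner_smul_left]
      ring) (b2_quad P hd w w')]
  exact integral_congr_ae ((sph_unit hd).mono fun u hu => by simp only [hu])

theorem Pos.tn_lin (P : Pos h x R) (hd : 0 < d) (w w' : Eu d) :
    ∫ u, ⟪tn x u, w⟫ * ⟪u, w'⟫ ∂sph d = 0 := by
  have hc := P.sel.cont
  have h1 := b2_lin' P hd w w'
  have i2 : Integrable (fun u => (h u - 1) * (⟪u, w⟫ * ⟪u, w'⟫)) (sph d) :=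
    b2_int hd (by fun_prop) (C := (R + 1) * (‖w‖ * ‖w'‖)) fun u hu => by
      have := P.sel.R_nonneg
      rw [abs_mul, abs_mul]
      gcongr
      exacts [b2_dev P.sel hu, b2_abs hu w, b2_abs hu w']
  have h2 := integral_sub h1.1 i2
  rw [h1.2, P.quad hd, sub_self] at h2
  rw [← h2]
  refine integral_congr_ae ((sph_unit hd).mono fun u hu => ?_)
  simp only [Nf, tn, b2_unit hu, P.sel.eq, inner_sub_left, real_inner_smul_left]
  ring

theorem Pos.one_le (P : Pos h x R) (hd : 0 < d) : 1 ≤ R := by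
  have hc := P.sel.cont
  have h1 : ∫ u, (h u - 1) ∂sph d ≤ ∫ _u, (R - 1) ∂sph d :=
    integral_mono_ae (b2_int hd (by fun_prop) fun u hu => b2_dev P.sel hu) (integrable_const _)
      ((sph_unit hd).mono fun u hu => by
        have h2 := P.sel.h_le u
        rw [hu, mul_one] at h2
        exact sub_le_sub_right h2 1)
  rw [P.mean hd, integral_const, probReal_univ, one_smul] at h1
  linarith

/-- Sum is `∫ N_a ‖g‖² ⟪g,w⟫`; `rad` with `k = 3` and `k = 1`, `Pos.lin`. -/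
theorem Pos.tr1 (P : Pos h x R) (hd : 0 < d) (a : Fin d) (w : Eu d) :
    ∑ b, T3 (fun g => Nf x g a) (ee b) (ee b) w = 0 := by
  obtain ⟨h1, h2⟩ := b2_coord P.sel a
  simp only [T3]
  rw [← integral_finsetSum _ fun b _ => b2_T3 h1 h2 (ee b) (ee b) w]
  have e : ∀ g : Eu d, ∑ b, Nf x g a * (⟪g, ee b⟫ * ⟪g, ee b⟫ * ⟪g, w⟫) =
      Nf x g a * (‖g‖ ^ 2 * ⟪g, w⟫) := fun g => by
    rw [← Finset.mul_sum, ← Finset.sum_mul, EuclideanSpace.real_norm_sq_eq]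
    simp only [b2_ee, sq]
  simp only [e]
  have hm : Measurable fun g : Eu d => ‖g‖ ^ 2 * ⟪g, w⟫ := by fun_prop
  rw [rad hd (F := fun g => Nf x g a * (‖g‖ ^ 2 * ⟪g, w⟫)) (h1.mul hm) 3 (C := (R + 1) * ‖w‖)
    (fun u hu => by
      have := P.sel.R_nonneg
      rw [hu, one_pow, one_mul, abs_mul]
      gcongr
      exacts [h2 u, b2_abs hu w]) (fun c y hc => by
      rw [b2_hom P.sel y hc, norm_smul, Real.norm_eq_abs, abs_of_pos hc, real_inner_smul_left]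
      ring)]
  refine mul_eq_zero_of_right _ ?_
  rw [← (b2_lin' P hd (ee a) w).2]
  exact integral_congr_ae ((sph_unit hd).mono fun u hu => by
    simp only [hu, b2_ee, one_pow, one_mul])

/-- Sum is `∫ (h g - ‖g‖) ⟪g,p⟫ ⟪g,q⟫`; `rad`, `Pos.quad`. -/
theorem Pos.tr2 (P : Pos h x R) (hd : 0 < d) (p q : Eu d) :
    ∑ a, T3 (fun g => Nf x g a) (ee a) p q = 0 := by
  simp only [T3]
  rw [← integral_finsetSum _ fun a _ =>
    b2_T3 (b2_coord P.sel a).1 (b2_coord P.sel a).2 (ee a) p q, ← b2_quad P hd p q]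
  refine integral_congr_ae (.of_forall fun g => ?_)
  simp only [← b2_inner P.sel, b2_ee, mul_assoc]
  simp only [← mul_assoc (Nf x g _), ← Finset.sum_mul]
  rw [PiLp.inner_apply (Nf x g) g]
  simp [mul_comm]

end

end Pool.Agent.Lib.MP_77d991_gt.Ex
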