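import Pool.Agent.Lib.MP_77d991_gt.Ex.B2

open MeasureTheory ProbabilityTheory Set
open scoped RealInnerProductSpace

namespace Pool.Agent.Lib.MP_77d991_gt.As

open Filter Topology

variable {E : Type*} [NormedAddCommGroup E] [InnerProductSpace ℝ E] [FiniteDimensional ℝ E]
  [MeasurableSpace E] [BorelSpace E]

lemma poin_int {F G : Type*} [NormedAddCommGroup F] [NormedSpace ℝ F] [FiniteDimensional ℝ F]
    [MeasurableSpace F] [BorelSpace F] [NormedAddCommGroup G] (μ : Measure F) [IsGaussian μ]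
    {f : F → G} (hf : AEStronglyMeasurable f μ) (C : ℝ) (k : ℕ)
    (h : ∀ g, ‖f g‖ ≤ C * (1 + ‖g‖) ^ k) : Integrable f μ := by
  have : CompleteSpace F := FiniteDimensional.complete ℝ F
  rcases Nat.eq_zero_or_pos k with rfl | hk
  · exact Integrable.mono' (integrable_const C) hf (Eventually.of_forall fun g => by simpa using h g)
  have h0 : MemLp (fun g : F => ‖g‖) k μ := by
    simpa using (IsGaussian.memLp_id μ k (by simp)).norm
  have h1 : MemLp (fun g : F => (1 : ℝ) + ‖g‖) k μ := (memLp_const (1 : ℝ)).add h0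
  have h2 := h1.integrable_norm_pow hk.ne'
  refine Integrable.mono' (h2.const_mul C) hf (Eventually.of_forall fun g => ?_)
  rw [Real.norm_of_nonneg (by positivity)]
  exact h g

/-- the second order part of one rotation step. -/
noncomputable def poinB (ξ : E → E) (e : E → E → ℝ) (Δ : ℝ) (p : E × E) : ℝ :=
  (1 - Real.cos Δ) * |⟪ξ p.1, p.1⟫| + e p.1 ((Real.cos Δ - 1) • p.1 + Real.sin Δ • p.2)

omit [FiniteDimensional ℝ E] [MeasurableSpace E] [BorelSpace E] in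
lemma poin_point (f : E → ℝ) (ξ : E → E) (e : E → E → ℝ) (h0 : ∀ s v, 0 ≤ e s v)
    (hc : ∀ s v, f s - f (s + v) ≤ e s v - ⟪ξ s, v⟫) (n : ℕ) (Δ : ℝ) (hΔ : n * Δ = Real.pi / 2)
    (p : E × E) : max (f p.1 - f p.2) 0 ^ 2 ≤ n * ∑ j ∈ Finset.range n,
      (fun q : E × E => 2 * Real.sin Δ ^ 2 * ⟪ξ q.1, q.2⟫ ^ 2 + 2 * poinB ξ e Δ q ^ 2)
        (ContinuousLinearMap.rotation (j * Δ) p) := by
  set g : ℕ → E := fun j => (ContinuousLinearMap.rotation (j * Δ) p).1 with hg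
  set k : ℕ → E := fun j => (ContinuousLinearMap.rotation (j * Δ) p).2 with hk
  set u : ℕ → ℝ := fun j =>
    |Real.sin Δ * ⟪ξ (g j), k j⟫| + poinB ξ e Δ (g j, k j) with hu
  have g0 : g 0 = p.1 := by simp [hg, ContinuousLinearMap.rotation_apply]
  have gn : g n = p.2 := by simp [hg, hΔ, ContinuousLinearMap.rotation_apply]
  have gs : ∀ j, g (j + 1) = g j + ((Real.cos Δ - 1) • g j + Real.sin Δ • k j) := by
    intro j
    simp only [hg, hk, ContinuousLinearMap.rotation_apply, Nat.cast_succ, add_mul, one_mul,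
      Real.cos_add, Real.sin_add]
    module
  have hcos : 0 ≤ 1 - Real.cos Δ := sub_nonneg.2 (Real.cos_le_one Δ)
  have hu0 : ∀ j, 0 ≤ u j := fun j =>
    add_nonneg (abs_nonneg _) (add_nonneg (mul_nonneg hcos (abs_nonneg _)) (h0 _ _))
  have h1 : f p.1 - f p.2 ≤ ∑ j ∈ Finset.range n, u j := by
    rw [← g0, ← gn, ← Finset.sum_range_sub' (fun j => f (g j)) n]
    refine Finset.sum_le_sum fun j _ => ?_
    rw [gs]
    refine (hc _ _).trans ?_
    rw [inner_add_right, inner_smul_right, inner_smul_right]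
    simp only [hu, poinB]
    have h2 := mul_le_mul_of_nonneg_left (le_abs_self ⟪ξ (g j), g j⟫) hcos
    have h3 := neg_abs_le (Real.sin Δ * ⟪ξ (g j), k j⟫)
    nlinarith
  have h2 : max (f p.1 - f p.2) 0 ^ 2 ≤ (∑ j ∈ Finset.range n, u j) ^ 2 :=
    pow_le_pow_left₀ (le_max_right _ _) (max_le h1 (Finset.sum_nonneg fun j _ => hu0 j)) 2
  have h3 := sq_sum_le_card_mul_sum_sq (s := Finset.range n) (f := u)
  rw [Finset.card_range] at h3
  refine h2.trans (h3.trans (mul_le_mul_of_nonneg_left (Finset.sum_le_sum fun j _ => ?_)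
    (Nat.cast_nonneg n)))
  change (|Real.sin Δ * ⟪ξ (g j), k j⟫| + poinB ξ e Δ (g j, k j)) ^ 2 ≤
    2 * Real.sin Δ ^ 2 * ⟪ξ (g j), k j⟫ ^ 2 + 2 * poinB ξ e Δ (g j, k j) ^ 2
  have h4 : |Real.sin Δ * ⟪ξ (g j), k j⟫| ^ 2 = Real.sin Δ ^ 2 * ⟪ξ (g j), k j⟫ ^ 2 := by
    rw [sq_abs, mul_pow]
  nlinarith [sq_nonneg (|Real.sin Δ * ⟪ξ (g j), k j⟫| - poinB ξ e Δ (g j, k j))]

omit [FiniteDimensional ℝ E] [MeasurableSpace E] [BorelSpace E] in
lemma poin_step_norm {Δ : ℝ} (h0 : 0 ≤ Δ) (h2 : Δ ≤ 2) (p : E × E) :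
    1 - Real.cos Δ ≤ Δ ^ 2 / 2 ∧
      ‖(Real.cos Δ - 1) • p.1 + Real.sin Δ • p.2‖ ≤ Δ * (2 * ‖p‖) := by
  have h3 : 1 - Real.cos Δ ≤ Δ ^ 2 / 2 := by linarith [Real.one_sub_sq_div_two_le_cos (x := Δ)]
  refine ⟨h3, (norm_add_le _ _).trans ?_⟩
  rw [norm_smul, norm_smul, Real.norm_eq_abs, Real.norm_eq_abs,
    abs_of_nonpos (sub_nonpos.2 (Real.cos_le_one Δ))]
  have h4 : |Real.sin Δ| ≤ Δ := by simpa [abs_of_nonneg h0] using Real.abs_sin_le_abs (x := Δ)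
  have h5 : -(Real.cos Δ - 1) ≤ Δ := by nlinarith
  have h6 := mul_le_mul h5 (norm_fst_le p) (norm_nonneg _) h0
  have h7 := mul_le_mul h4 (norm_snd_le p) (norm_nonneg _) h0
  linarith

lemma poin_lim (ξ : E → E) (e : E → E → ℝ) {L K : ℝ} (hξ : Measurable ξ)
    (hb : ∀ s, ‖ξ s‖ ≤ L * (1 + ‖s‖)) (he : Measurable fun p : E × E => e p.1 p.2)
    (h0 : ∀ s v, 0 ≤ e s v) (h1 : ∀ s v, e s v ≤ K * ‖v‖ * (1 + ‖s‖ + ‖v‖)) (hK : 0 ≤ K)
    (h2 : ∀ᵐ s ∂stdGaussian E, ∃ l : ℝ, ∀ v, e s v ≤ l * ‖v‖ ^ 2) :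
    (∀ m : ℕ, Integrable (fun p => poinB ξ e (Real.pi / 2 / (m + 1 : ℕ)) p ^ 2)
      ((stdGaussian E).prod (stdGaussian E))) ∧
    Tendsto (fun m : ℕ => ∫ p, (((m + 1 : ℕ) : ℝ) * poinB ξ e (Real.pi / 2 / (m + 1 : ℕ)) p) ^ 2
      ∂(stdGaussian E).prod (stdGaussian E)) atTop (𝓝 0) := by
  have hL : 0 ≤ L := by simpa using (norm_nonneg _).trans (hb 0)
  have hπ : Real.pi / 2 ≤ 2 := by linarith [Real.pi_lt_four]
  have hm : ∀ Δ, Measurable (poinB ξ e Δ) := fun Δ => by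
    unfold poinB
    refine Measurable.add (by fun_prop) ?_
    exact he.comp (f := fun p : E × E => (p.1, (Real.cos Δ - 1) • p.1 + Real.sin Δ • p.2))
      (by fun_prop)
  have hpos : ∀ (Δ : ℝ) (p : E × E), 0 ≤ poinB ξ e Δ p := fun Δ p =>
    add_nonneg (mul_nonneg (sub_nonneg.2 (Real.cos_le_one Δ)) (abs_nonneg _)) (h0 _ _)
  have hΔ : ∀ m : ℕ, 0 ≤ Real.pi / 2 / (m + 1 : ℕ) ∧ Real.pi / 2 / (m + 1 : ℕ) ≤ 2 ∧
      ((m + 1 : ℕ) : ℝ) * (Real.pi / 2 / (m + 1 : ℕ)) = Real.pi / 2 := fun m => by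
    have h3 : (1 : ℝ) ≤ (m + 1 : ℕ) := by exact_mod_cast Nat.succ_le_succ (Nat.zero_le m)
    refine ⟨by have := Real.pi_pos; positivity, ?_, by field_simp⟩
    rw [div_le_iff₀ (by linarith)]
    linarith
  have hin : ∀ p : E × E, |⟪ξ p.1, p.1⟫| ≤ L * (1 + ‖p‖) ^ 2 := fun p => by
    have h3 := norm_fst_le p
    calc _ ≤ ‖ξ p.1‖ * ‖p.1‖ := abs_real_inner_le_norm _ _
      _ ≤ (L * (1 + ‖p‖)) * (1 + ‖p‖) :=
          mul_le_mul ((hb _).trans (mul_le_mul_of_nonneg_left (by linarith) hL)) (by linarith)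
            (norm_nonneg _) (by positivity)
      _ = _ := by ring
  have hbd : ∀ (m : ℕ) (p : E × E), ((m + 1 : ℕ) : ℝ) * poinB ξ e (Real.pi / 2 / (m + 1 : ℕ)) p
      ≤ (2 * L + 20 * K) * (1 + ‖p‖) ^ 2 := fun m p => by
    obtain ⟨a0, a2, an⟩ := hΔ m
    set Δ := Real.pi / 2 / (m + 1 : ℕ)
    set n : ℝ := ((m + 1 : ℕ) : ℝ)
    have hn : 0 ≤ n := Nat.cast_nonneg _
    obtain ⟨b1, b2⟩ := poin_step_norm a0 a2 p
    set v := (Real.cos Δ - 1) • p.1 + Real.sin Δ • p.2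
    have hp := norm_nonneg p
    have c1 : n * (1 - Real.cos Δ) ≤ 2 := by
      have := mul_le_mul_of_nonneg_left b1 hn
      nlinarith
    have c2 : n * ‖v‖ ≤ 4 * (1 + ‖p‖) := by
      have := mul_le_mul_of_nonneg_left b2 hn
      nlinarith
    have c3 : 1 + ‖p.1‖ + ‖v‖ ≤ 5 * (1 + ‖p‖) := by
      have := norm_fst_le p
      nlinarith
    have c4 : n * e p.1 v ≤ 20 * K * (1 + ‖p‖) ^ 2 := by
      calc _ ≤ n * (K * ‖v‖ * (1 + ‖p.1‖ + ‖v‖)) := mul_le_mul_of_nonneg_left (h1 _ _) hn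
        _ = K * ((n * ‖v‖) * (1 + ‖p.1‖ + ‖v‖)) := by ring
        _ ≤ K * ((4 * (1 + ‖p‖)) * (5 * (1 + ‖p‖))) :=
            mul_le_mul_of_nonneg_left (mul_le_mul c2 c3 (by positivity) (by positivity)) hK
        _ = _ := by ring
    have c5 := mul_le_mul c1 (hin p) (abs_nonneg _) (by norm_num)
    change n * ((1 - Real.cos Δ) * |⟪ξ p.1, p.1⟫| + e p.1 v) ≤ _
    nlinarith
  have hC : 0 ≤ 2 * L + 20 * K := by positivity
  have hbd2 : ∀ (m : ℕ) (p : E × E),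
      ‖(((m + 1 : ℕ) : ℝ) * poinB ξ e (Real.pi / 2 / (m + 1 : ℕ)) p) ^ 2‖
      ≤ (2 * L + 20 * K) ^ 2 * (1 + ‖p‖) ^ 4 := fun m p => by
    rw [Real.norm_of_nonneg (sq_nonneg _)]
    calc _ ≤ ((2 * L + 20 * K) * (1 + ‖p‖) ^ 2) ^ 2 :=
          pow_le_pow_left₀ (mul_nonneg (Nat.cast_nonneg _) (hpos _ _)) (hbd m p) 2
      _ = _ := by ring
  have hdom : Integrable (fun p : E × E => (2 * L + 20 * K) ^ 2 * (1 + ‖p‖) ^ 4)
      ((stdGaussian E).prod (stdGaussian E)) :=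
    poin_int _ (Continuous.aestronglyMeasurable (by fun_prop)) ((2 * L + 20 * K) ^ 2) 4
      fun p => by rw [Real.norm_of_nonneg (by positivity)]
  refine ⟨fun m => ?_, ?_⟩
  · refine Integrable.mono' hdom ((hm _).pow_const 2).aestronglyMeasurable
      (Eventually.of_forall fun p => le_trans ?_ (hbd2 m p))
    rw [Real.norm_of_nonneg (sq_nonneg _), Real.norm_of_nonneg (sq_nonneg _)]
    have h3 : (1 : ℝ) ≤ (m + 1 : ℕ) := by exact_mod_cast Nat.succ_le_succ (Nat.zero_le m)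
    exact pow_le_pow_left₀ (hpos _ _) (le_mul_of_one_le_left (hpos _ _) h3) 2
  have hz : (0 : ℝ) = ∫ _p : E × E, (0 : ℝ) ∂(stdGaussian E).prod (stdGaussian E) := by simp
  rw [hz]
  refine tendsto_integral_of_dominated_convergence _
    (fun m => (((hm _).const_mul _).pow_const 2).aestronglyMeasurable) hdom
    (fun m => Eventually.of_forall (hbd2 m)) ?_
  have h3 : ∀ᵐ p ∂(stdGaussian E).prod (stdGaussian E), ∃ l : ℝ, ∀ v, e p.1 v ≤ l * ‖v‖ ^ 2 :=
    (measurePreserving_fst (μ := stdGaussian E) (ν := stdGaussian E)).quasiMeasurePreserving.ae h2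
  filter_upwards [h3] with p ⟨l, hl⟩
  have hz2 : (0 : ℝ) = 0 ^ 2 := by simp
  rw [hz2]
  refine Tendsto.pow ?_ 2
  have ht : Tendsto (fun m : ℕ => (|⟪ξ p.1, p.1⟫| + |l| * (8 * ‖p‖ ^ 2)) *
      (Real.pi / 2 / (m + 1 : ℕ))) atTop (𝓝 0) := by
    have := (tendsto_const_div_atTop_nhds_zero_nat (Real.pi / 2)).comp (tendsto_add_atTop_nat 1)
    simpa using this.const_mul (|⟪ξ p.1, p.1⟫| + |l| * (8 * ‖p‖ ^ 2))
  refine squeeze_zero (fun m => mul_nonneg (Nat.cast_nonneg _) (hpos _ _)) (fun m => ?_) ht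
  obtain ⟨a0, a2, an⟩ := hΔ m
  set Δ := Real.pi / 2 / (m + 1 : ℕ)
  set n : ℝ := ((m + 1 : ℕ) : ℝ)
  have hn : 0 ≤ n := Nat.cast_nonneg _
  obtain ⟨b1, b2⟩ := poin_step_norm a0 a2 p
  set v := (Real.cos Δ - 1) • p.1 + Real.sin Δ • p.2
  have c1 : n * (1 - Real.cos Δ) ≤ Δ := by
    have := mul_le_mul_of_nonneg_left b1 hn
    nlinarith
  have c2 : n * ‖v‖ ^ 2 ≤ 8 * ‖p‖ ^ 2 * Δ := by
    have h4 := mul_le_mul_of_nonneg_left (pow_le_pow_left₀ (norm_nonneg _) b2 2) hn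
    have h5 : n * (Δ * (2 * ‖p‖)) ^ 2 = (n * Δ) * (4 * ‖p‖ ^ 2 * Δ) := by ring
    have h6 : 0 ≤ 4 * ‖p‖ ^ 2 * Δ := by positivity
    nlinarith
  have c3 : n * e p.1 v ≤ |l| * (8 * ‖p‖ ^ 2 * Δ) := by
    calc _ ≤ n * (|l| * ‖v‖ ^ 2) := mul_le_mul_of_nonneg_left ((hl v).trans
          (mul_le_mul_of_nonneg_right (le_abs_self l) (sq_nonneg _))) hn
      _ = |l| * (n * ‖v‖ ^ 2) := by ring
      _ ≤ _ := mul_le_mul_of_nonneg_left c2 (abs_nonneg _)
  have c5 := mul_le_mul_of_nonneg_right c1 (abs_nonneg ⟪ξ p.1, p.1⟫)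
  change n * ((1 - Real.cos Δ) * |⟪ξ p.1, p.1⟫| + e p.1 v) ≤ _
  nlinarith

lemma poin_pos_part (f : E → ℝ) (ξ : E → E) (e : E → E → ℝ) {L K : ℝ} (hξ : Measurable ξ)
    (hb : ∀ s, ‖ξ s‖ ≤ L * (1 + ‖s‖)) (he : Measurable fun p : E × E => e p.1 p.2)
    (h0 : ∀ s v, 0 ≤ e s v) (h1 : ∀ s v, e s v ≤ K * ‖v‖ * (1 + ‖s‖ + ‖v‖)) (hK : 0 ≤ K)
    (h2 : ∀ᵐ s ∂stdGaussian E, ∃ l : ℝ, ∀ v, e s v ≤ l * ‖v‖ ^ 2)
    (hc : ∀ s v, f s - f (s + v) ≤ e s v - ⟪ξ s, v⟫) :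
    ∫ p, max (f p.1 - f p.2) 0 ^ 2 ∂(stdGaussian E).prod (stdGaussian E) ≤
      5 * ∫ s, ‖ξ s‖ ^ 2 ∂stdGaussian E := by
  have hL : 0 ≤ L := by simpa using (norm_nonneg _).trans (hb 0)
  obtain ⟨hI, hT⟩ := poin_lim ξ e hξ hb he h0 h1 hK h2
  have hA : Integrable (fun p : E × E => ⟪ξ p.1, p.2⟫ ^ 2)
      ((stdGaussian E).prod (stdGaussian E)) := by
    refine poin_int _ (Measurable.aestronglyMeasurable (by fun_prop)) (L ^ 2) 4 fun p => ?_
    have h3 := norm_fst_le p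
    have h4 := norm_snd_le p
    have h5 : ‖⟪ξ p.1, p.2⟫‖ ≤ L * (1 + ‖p‖) * (1 + ‖p‖) := (norm_inner_le_norm _ _).trans
      (mul_le_mul ((hb _).trans (mul_le_mul_of_nonneg_left (by linarith) hL)) (by linarith)
        (norm_nonneg _) (by positivity))
    rw [norm_pow]
    exact (pow_le_pow_left₀ (norm_nonneg _) h5 2).trans (le_of_eq (by ring))
  have hAv : ∫ p, ⟪ξ p.1, p.2⟫ ^ 2 ∂(stdGaussian E).prod (stdGaussian E) =
      ∫ s, ‖ξ s‖ ^ 2 ∂stdGaussian E := by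
    rw [integral_prod _ hA]
    simp only [int_inner_sq]
  have hmp : ∀ θ : ℝ, MeasurePreserving (ContinuousLinearMap.rotation θ : E × E → E × E)
      ((stdGaussian E).prod (stdGaussian E)) ((stdGaussian E).prod (stdGaussian E)) := fun θ =>
    ⟨(ContinuousLinearMap.rotation θ).continuous.measurable,
      IsGaussian.map_rotation_eq_self_of_forall_strongDual_eq_zero
        integral_strongDual_stdGaussian θ⟩
  have hb2 : 0 ≤ ∫ s, ‖ξ s‖ ^ 2 ∂stdGaussian E := integral_nonneg fun s => sq_nonneg _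
  have key : ∀ m : ℕ, ∫ p, max (f p.1 - f p.2) 0 ^ 2 ∂(stdGaussian E).prod (stdGaussian E) ≤
      5 * ∫ s, ‖ξ s‖ ^ 2 ∂stdGaussian E + 2 * ∫ p, (((m + 1 : ℕ) : ℝ) *
        poinB ξ e (Real.pi / 2 / (m + 1 : ℕ)) p) ^ 2 ∂(stdGaussian E).prod (stdGaussian E) := by
    intro m
    have hIm := hI m
    set n := m + 1 with hn
    have hn0 : (0 : ℝ) < n := by positivity
    set Δ : ℝ := Real.pi / 2 / n with hΔ
    have hnΔ : n * Δ = Real.pi / 2 := by rw [hΔ]; field_simp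
    set W : E × E → ℝ :=
      fun q => 2 * Real.sin Δ ^ 2 * ⟪ξ q.1, q.2⟫ ^ 2 + 2 * poinB ξ e Δ q ^ 2 with hW
    have hV : Integrable W ((stdGaussian E).prod (stdGaussian E)) :=
      (hA.const_mul _).add (hIm.const_mul _)
    have hi : ∀ j : ℕ, Integrable (fun p => W (ContinuousLinearMap.rotation (j * Δ) p))
        ((stdGaussian E).prod (stdGaussian E)) :=
      fun j => (hmp _).integrable_comp_of_integrable hV
    have hq : ∀ j : ℕ, ∫ p, W (ContinuousLinearMap.rotation (j * Δ) p)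
        ∂(stdGaussian E).prod (stdGaussian E) = ∫ p, W p ∂(stdGaussian E).prod (stdGaussian E) :=
      fun j => by
        conv_rhs => rw [← (hmp (j * Δ)).map_eq]
        rw [integral_map (hmp _).measurable.aemeasurable
          (by rw [(hmp (j * Δ)).map_eq]; exact hV.aestronglyMeasurable)]
    have a1 := integral_mono_of_nonneg (Eventually.of_forall fun p => by positivity)
      ((integrable_finsetSum (Finset.range n) fun j _ => hi j).const_mul (n : ℝ))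
      (Eventually.of_forall (poin_point f ξ e h0 hc n Δ hnΔ))
    rw [integral_const_mul, integral_finsetSum _ fun j _ => hi j] at a1
    simp only [hq, Finset.sum_const, Finset.card_range, nsmul_eq_mul] at a1
    rw [hW, integral_add (hA.const_mul _) (hIm.const_mul _), integral_const_mul,
      integral_const_mul, hAv] at a1
    simp only [mul_pow, integral_const_mul]
    have hπ : Real.pi ^ 2 ≤ 10 := by nlinarith [Real.pi_lt_d2, Real.pi_pos]
    have a2 : (n : ℝ) ^ 2 * Δ ^ 2 = Real.pi ^ 2 / 4 := by rw [← mul_pow, hnΔ]; ring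
    have a3 : (n : ℝ) ^ 2 * Real.sin Δ ^ 2 ≤ 5 / 2 := by
      have := mul_le_mul_of_nonneg_left (Real.sin_sq_le_sq (x := Δ)) (sq_nonneg (n : ℝ))
      linarith
    have a4 := mul_le_mul_of_nonneg_right a3 hb2
    nlinarith
  have hlim := (hT.const_mul 2).const_add (5 * ∫ s, ‖ξ s‖ ^ 2 ∂stdGaussian E)
  simpa using ge_of_tendsto' hlim key

/-- Poincare inequality for a semi-convex function: `e` is a second order error term. -/
theorem var_le_semi (f : E → ℝ) (ξ : E → E) (e : E → E → ℝ) {L K : ℝ} (hf : Measurable f)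
    (hξ : Measurable ξ) (hb : ∀ s, ‖ξ s‖ ≤ L * (1 + ‖s‖))
    (he : Measurable fun p : E × E => e p.1 p.2)
    (h0 : ∀ s v, 0 ≤ e s v) (h1 : ∀ s v, e s v ≤ K * ‖v‖ * (1 + ‖s‖ + ‖v‖)) (hK : 0 ≤ K)
    (h2 : ∀ᵐ s ∂stdGaussian E, ∃ l : ℝ, ∀ v, e s v ≤ l * ‖v‖ ^ 2)
    (hc : ∀ s v, f s - f (s + v) ≤ e s v - ⟪ξ s, v⟫) :
    Integrable (fun s => (f s - ∫ u, f u ∂stdGaussian E) ^ 2) (stdGaussian E) ∧
    ∫ s, (f s - ∫ u, f u ∂stdGaussian E) ^ 2 ∂stdGaussian E ≤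
      5 * ∫ s, ‖ξ s‖ ^ 2 ∂stdGaussian E := by
  have hL : 0 ≤ L := by simpa using (norm_nonneg _).trans (hb 0)
  set m := ∫ u, f u ∂stdGaussian E with hmdef
  have hg : ∀ s, ‖f s - m‖ ≤ (|f 0 - m| + 2 * K + L) * (1 + ‖s‖) ^ 2 := fun s => by
    have a1 := hc 0 s
    have a2 := hc s (-s)
    have a3 := h1 0 s
    have a4 := h1 s (-s)
    have a5 := (abs_real_inner_le_norm (ξ 0) s).trans
      (mul_le_mul_of_nonneg_right (hb 0) (norm_nonneg _))
    have a6 := (abs_real_inner_le_norm (ξ s) (-s)).trans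
      (mul_le_mul_of_nonneg_right (hb s) (norm_nonneg _))
    simp only [zero_add, add_neg_cancel, norm_neg, norm_zero, add_zero] at a1 a2 a3 a4 a5 a6
    have a7 := abs_le.1 a5
    have a8 := abs_le.1 a6
    have hs := norm_nonneg s
    have b1 : K * ‖s‖ * (1 + ‖s‖ + ‖s‖) ≤ 2 * K * (1 + ‖s‖) ^ 2 := by
      nlinarith [mul_nonneg hK hs]
    have b2 : K * ‖s‖ * (1 + ‖s‖) ≤ 2 * K * (1 + ‖s‖) ^ 2 := by
      nlinarith [mul_nonneg hK hs, mul_nonneg (mul_nonneg hK hs) hs]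
    have b3 : L * (1 + ‖s‖) * ‖s‖ ≤ L * (1 + ‖s‖) ^ 2 := by nlinarith [mul_nonneg hL hs]
    have b4 : L * 1 * ‖s‖ ≤ L * (1 + ‖s‖) ^ 2 := by
      nlinarith [mul_nonneg hL hs, mul_nonneg (mul_nonneg hL hs) hs]
    have b5 : |f 0 - m| ≤ |f 0 - m| * (1 + ‖s‖) ^ 2 :=
      le_mul_of_one_le_right (abs_nonneg _) (by nlinarith)
    have b6 := abs_le.1 (le_refl |f 0 - m|)
    rw [Real.norm_eq_abs, abs_le]
    constructor <;> nlinarith
  have hfm : Measurable fun s => f s - m := hf.sub_const m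
  have i1 : Integrable (fun s => f s - m) (stdGaussian E) :=
    poin_int _ hfm.aestronglyMeasurable _ 2 hg
  have i2 : Integrable (fun s => (f s - m) ^ 2) (stdGaussian E) := by
    refine poin_int _ (hfm.pow_const 2).aestronglyMeasurable ((|f 0 - m| + 2 * K + L) ^ 2) 4
      fun s => ?_
    rw [norm_pow]
    exact (pow_le_pow_left₀ (norm_nonneg _) (hg s) 2).trans (le_of_eq (by ring))
  refine ⟨i2, ?_⟩
  have i0 : Integrable f (stdGaussian E) :=
    (i1.add (integrable_const m)).congr (Eventually.of_forall fun s => by simp)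
  have z : ∫ s, (f s - m) ∂stdGaussian E = 0 := by
    rw [integral_sub i0 (integrable_const m)]
    simp [hmdef]
  have j1 := i2.comp_fst (stdGaussian E)
  have j2 := i2.comp_snd (stdGaussian E)
  have j3 := (i1.mul_prod i1).const_mul 2
  have e1 : (fun p : E × E => (f p.1 - f p.2) ^ 2) = fun p =>
      (f p.1 - m) ^ 2 + (f p.2 - m) ^ 2 - 2 * ((f p.1 - m) * (f p.2 - m)) := by
    funext p; ring
  have i3 : Integrable (fun p : E × E => (f p.1 - f p.2) ^ 2)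
      ((stdGaussian E).prod (stdGaussian E)) := by
    rw [e1]; exact (j1.add j2).sub j3
  have e2 : ∫ p, (f p.1 - f p.2) ^ 2 ∂(stdGaussian E).prod (stdGaussian E)
      = 2 * ∫ s, (f s - m) ^ 2 ∂stdGaussian E := by
    have j4 : Integrable (fun p : E × E => (f p.1 - m) ^ 2 + (f p.2 - m) ^ 2)
        ((stdGaussian E).prod (stdGaussian E)) := j1.add j2
    rw [e1, integral_sub j4 j3, integral_add j1 j2, integral_const_mul,
      integral_prod_mul (fun s => f s - m) (fun s => f s - m), z,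
      integral_fun_fst (fun s => (f s - m) ^ 2), integral_fun_snd (fun s => (f s - m) ^ 2)]
    simp only [probReal_univ, one_smul]
    ring
  have i4 : Integrable (fun p : E × E => max (f p.1 - f p.2) 0 ^ 2)
      ((stdGaussian E).prod (stdGaussian E)) := by
    refine i3.mono' (Measurable.aestronglyMeasurable (by fun_prop))
      (Eventually.of_forall fun p => ?_)
    rw [Real.norm_of_nonneg (sq_nonneg _)]
    rcases le_total (f p.1 - f p.2) 0 with h | h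
    · rw [max_eq_right h]; nlinarith [sq_nonneg (f p.1 - f p.2)]
    · rw [max_eq_left h]
  have e3 : (fun p : E × E => (f p.1 - f p.2) ^ 2) = fun p =>
      max (f p.1 - f p.2) 0 ^ 2 + max (f p.swap.1 - f p.swap.2) 0 ^ 2 := by
    funext p
    simp only [Prod.fst_swap, Prod.snd_swap]
    rcases le_total (f p.1 - f p.2) 0 with h | h
    · rw [max_eq_right h, max_eq_left (by linarith)]; ring
    · rw [max_eq_left h, max_eq_right (by linarith)]; ring
  have k1 := poin_pos_part f ξ e hξ hb he h0 h1 hK h2 hc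
  have i5 : Integrable (fun p : E × E => max (f p.swap.1 - f p.swap.2) 0 ^ 2)
      ((stdGaussian E).prod (stdGaussian E)) := i4.swap
  rw [e3, integral_add i4 i5,
    integral_prod_swap (fun p : E × E => max (f p.1 - f p.2) 0 ^ 2)] at e2
  linarith

/-- the form with a uniform semi-convexity constant. -/
theorem var_le_semi' (f : E → ℝ) (ξ : E → E) {L K : ℝ} (hf : Measurable f)
    (hξ : Measurable ξ) (hb : ∀ s, ‖ξ s‖ ≤ L * (1 + ‖s‖)) (hK : 0 ≤ K)
    (hc : ∀ s s', f s - f s' ≤ ⟪ξ s, s - s'⟫ + K * ‖s - s'‖ ^ 2) :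
    Integrable (fun s => (f s - ∫ u, f u ∂stdGaussian E) ^ 2) (stdGaussian E) ∧
    ∫ s, (f s - ∫ u, f u ∂stdGaussian E) ^ 2 ∂stdGaussian E ≤
      5 * ∫ s, ‖ξ s‖ ^ 2 ∂stdGaussian E := by
  refine var_le_semi f ξ (fun _ v => K * ‖v‖ ^ 2) hf hξ hb (by fun_prop)
    (fun _ _ => by positivity) (fun s v => ?_) hK (Eventually.of_forall fun _ => ⟨K, fun _ => le_rfl⟩)
    fun s v => ?_
  · have := norm_nonneg s
    have := norm_nonneg v
    nlinarith [mul_nonneg (mul_nonneg hK (norm_nonneg v)) (add_nonneg zero_le_one (norm_nonneg s))]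
  · have := hc s (s + v)
    rw [sub_add_cancel_left, inner_neg_right, norm_neg] at this
    linarith

lemma poin_ae_ne [Nontrivial E] : ∀ᵐ s ∂stdGaussian E, s ≠ 0 := by
  obtain ⟨u, hu⟩ := exists_ne (0 : E)
  filter_upwards [assel_ae u] with s hs h0
  rcases hs with h | h
  · exact hu h
  · exact h (by rw [h0, inner_zero_right])

/-- Poincare inequality for `h - ‖·‖` in terms of `x - y / ‖y‖`. -/
theorem Sel.var_dev_le {h : E → ℝ} {x : E → E} {R : ℝ} (S : Sel h x R) :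
    Integrable (fun s => (h s - ‖s‖ - ∫ u, (h u - ‖u‖) ∂stdGaussian E) ^ 2) (stdGaussian E) ∧
    ∫ s, (h s - ‖s‖ - ∫ u, (h u - ‖u‖) ∂stdGaussian E) ^ 2 ∂stdGaussian E ≤
      5 * ∫ s, ‖x s - ‖s‖⁻¹ • s‖ ^ 2 ∂stdGaussian E := by
  have hm := S.meas
  have hR := S.R_nonneg
  refine var_le_semi (fun s => h s - ‖s‖) (fun s => x s - ‖s‖⁻¹ • s)
    (fun s v => ‖s + v‖ - ‖s‖ - ⟪‖s‖⁻¹ • s, v⟫) (L := R + 1) (K := 2)
    (S.cont.measurable.sub measurable_norm) (by fun_prop) (fun s => ?_) (by fun_prop)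
    (fun s v => ?_) (fun s v => ?_) (by norm_num) ?_ fun s v => ?_
  · have h1 := (norm_sub_le (x s) (‖s‖⁻¹ • s)).trans (add_le_add (S.bdd s) (aschi_norm_unit s))
    nlinarith [norm_nonneg s]
  · have h1 := aschi_norm_sub s (s + v)
    rw [sub_add_cancel_left, inner_neg_right] at h1
    linarith
  · have h1 := norm_add_le s v
    have h2 := (abs_real_inner_le_norm (‖s‖⁻¹ • s) v).trans
      (mul_le_mul_of_nonneg_right (aschi_norm_unit s) (norm_nonneg v))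
    have h3 := (_root_.abs_le.1 h2).1
    nlinarith [mul_nonneg (norm_nonneg v) (add_nonneg (norm_nonneg s) (norm_nonneg v))]
  · rcases subsingleton_or_nontrivial E with hE | hE
    · exact Eventually.of_forall fun s => ⟨0, fun v => by
        rw [Subsingleton.elim v 0]; simp⟩
    filter_upwards [poin_ae_ne (E := E)] with s hs
    refine ⟨(2 * ‖s‖)⁻¹, fun v => ?_⟩
    have hn : 0 < ‖s‖ := norm_pos_iff.2 hs
    rw [inner_smul_left, conj_trivial]
    have h1 := norm_add_sq_real s v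
    have h2 : 2 * ‖s‖ * (‖s + v‖ - ‖s‖ - ‖s‖⁻¹ * ⟪s, v⟫) ≤ ‖v‖ ^ 2 := by
      have h3 : 2 * ‖s‖ * (‖s‖⁻¹ * ⟪s, v⟫) = 2 * ⟪s, v⟫ := by field_simp
      nlinarith [sq_nonneg (‖s + v‖ - ‖s‖)]
    rw [le_inv_mul_iff₀ (by positivity)]
    exact h2
  · have h1 := S.sub_le s (s + v)
    rw [sub_add_cancel_left, inner_neg_right] at h1
    rw [inner_sub_left]
    linarith

/-- `|F|² ≤ 5 b²` when `E h = E ‖·‖`. -/
theorem Sel.dev_sq_le {h : E → ℝ} {x : E → E} {R : ℝ} (S : Sel h x R)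
    (hm : ∫ u, h u ∂stdGaussian E = ∫ u, ‖u‖ ∂stdGaussian E) :
    Integrable (fun s => (h s - ‖s‖) ^ 2) (stdGaussian E) ∧
    ∫ s, (h s - ‖s‖) ^ 2 ∂stdGaussian E ≤ 5 * ∫ s, ‖x s - ‖s‖⁻¹ • s‖ ^ 2 ∂stdGaussian E := by
  have i1 : Integrable h (stdGaussian E) := by
    simpa using S.integrable_lin (ContinuousLinearMap.id ℝ E)
  have i2 : Integrable (fun g : E => ‖g‖) (stdGaussian E) := by
    simpa using integrable_norm_pow (E := E) 1
  have h1 := S.var_dev_le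
  rw [integral_sub i1 i2, hm, sub_self] at h1
  simpa using h1

end Pool.Agent.Lib.MP_77d991_gt.As

namespace Pool.Agent.Lib.MP_77d991_gt.Ex

open Pool.Agent.Lib.MP_77d991_gt.As

lemma b3_int {d : ℕ} (hd : 0 < d) {F : Eu d → ℝ} (hF : Measurable F) (C : ℝ)
    (hb : ∀ u, ‖u‖ = 1 → |F u| ≤ C) : Integrable F (sph d) :=
  Integrable.mono' (integrable_const C) hF.aestronglyMeasurable
    ((sph_unit hd).mono fun u hu => hb u hu)

/-- Poincare inequality for `φ = h - ‖·‖`. Copy the proof of `var_le` (files `asvar_*` of StarA):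
`φ s - φ s' ≤ ⟪N s, s - s'⟫ + 2 ‖s - s'‖² / ‖s‖`; along the rotation with `n` steps the second terms
contribute `O(1/n)` in square mean (`inv_norm_sq`). Then `∫ φ = 0`, `∫ φ² = d ∫ (h-1)²` by `rad`. -/
theorem poincare : ∃ C : ℝ, 0 < C ∧ ∀ (d : ℕ), 3 ≤ d → ∀ (h : Eu d → ℝ) (x : Eu d → Eu d) (R : ℝ),
    Sel h x R → ∫ u, (h u - 1) ∂sph d = 0 → ∫ u, (h u - 1) ^ 2 ∂sph d ≤ C * bsq x / d := by
  refine ⟨5, by norm_num, fun d hd h x R S h0 => ?_⟩
  have hd0 : 0 < d := by omega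
  have hm : Measurable fun g : Eu d => h g - ‖g‖ := S.cont.measurable.sub measurable_norm
  have hb : ∀ u : Eu d, ‖u‖ = 1 → |h u - ‖u‖| ≤ R + 1 := fun u hu => by
    have h1 := S.h_le u
    have h2 := S.h_nonneg u
    rw [hu] at h1 ⊢
    rw [abs_le]
    constructor <;> linarith
  have hh : ∀ (c : ℝ) (y : Eu d), 0 < c → h (c • y) - ‖c • y‖ = c * (h y - ‖y‖) := fun c y hc => by
    rw [S.h_smul, norm_smul, Real.norm_eq_abs, abs_of_pos hc]
    ring
  have e1 := rad hd0 hm 1 hb fun c y hc => by rw [hh c y hc, pow_one]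
  have e2 := rad hd0 (hm.pow_const 2) 2 (C := (R + 1) ^ 2)
    (fun u hu => by
      rw [abs_pow]
      exact pow_le_pow_left₀ (abs_nonneg _) (hb u hu) 2)
    fun c y hc => by rw [hh c y hc, mul_pow]
  have e3 : ∫ u, (h u - ‖u‖) ∂sph d = ∫ u, (h u - 1) ∂sph d :=
    integral_congr_ae ((sph_unit hd0).mono fun u hu => by simp only [hu])
  have e4 : ∫ u, (h u - ‖u‖) ^ 2 ∂sph d = ∫ u, (h u - 1) ^ 2 ∂sph d :=
    integral_congr_ae ((sph_unit hd0).mono fun u hu => by simp only [hu])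
  rw [e3, h0, mul_zero] at e1
  rw [e4, int_norm_sq, finrank_euclideanSpace_fin] at e2
  have h1 := S.var_dev_le.2
  simp only [e1, sub_zero] at h1
  rw [e2] at h1
  rw [bsq_eq S, le_div_iff₀ (by exact_mod_cast hd0), mul_comm]
  exact h1

/-- `‖N‖² = ‖x‖² - 1 - 2 f ≤ (R² - 1) + 2|f|`, so `‖N‖⁴ ≤ 2 (R²-1) ‖N‖² + 4 f²` pointwise up to
constants; `poincare`. -/
theorem beta4 : ∃ C : ℝ, 0 < C ∧ ∀ (d : ℕ), 3 ≤ d → ∀ (h : Eu d → ℝ) (x : Eu d → Eu d) (R : ℝ),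
    Pos h x R → R ≤ 3 → ∫ u, ‖Nf x u‖ ^ 4 ∂sph d ≤ C * (R - 1 + 1 / d) * bsq x := by
  obtain ⟨C, hC, hP⟩ := poincare
  refine ⟨8 + 4 * C, by positivity, fun d hd h x R P hR => ?_⟩
  have hd0 : 0 < d := by omega
  have S := P.sel
  have h1 := hP d hd h x R S (P.mean hd0)
  have hR1 := P.one_le hd0
  have hN := meas_Nf S
  have i2 : Integrable (fun u => ‖Nf x u‖ ^ 2) (sph d) :=
    b3_int hd0 (hN.1.norm.pow_const 2) ((R + 1) ^ 2) fun u _ => by
      rw [abs_of_nonneg (sq_nonneg _)]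
      exact pow_le_pow_left₀ (norm_nonneg _) (hN.2 u) 2
  have i3 : Integrable (fun u => (h u - 1) ^ 2) (sph d) :=
    b3_int hd0 ((S.cont.measurable.sub_const 1).pow_const 2) ((R + 1) ^ 2) fun u hu => by
      have h2 := S.h_le u
      have h3 := S.h_nonneg u
      rw [hu] at h2
      rw [abs_of_nonneg (sq_nonneg _)]
      nlinarith
  have h2 : ∫ u, ‖Nf x u‖ ^ 4 ∂sph d ≤
      ∫ u, (8 * (R - 1) * ‖Nf x u‖ ^ 2 + 4 * (h u - 1) ^ 2) ∂sph d := by
    refine integral_mono_of_nonneg (Filter.Eventually.of_forall fun u => by positivity)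
      ((i2.const_mul _).add (i3.const_mul _)) ((sph_unit hd0).mono fun u hu => ?_)
    obtain ⟨a1, a2, -⟩ := Nf_sq S hu
    have a3 : ‖x u‖ ^ 2 ≤ R ^ 2 := pow_le_pow_left₀ (norm_nonneg _) (S.bdd u) 2
    have a4 : ‖Nf x u‖ ^ 2 ≤ 4 * (R - 1) - 2 * (h u - 1) := by nlinarith
    have a5 := mul_le_mul_of_nonneg_right a4 (sq_nonneg ‖Nf x u‖)
    change ‖Nf x u‖ ^ 4 ≤ 8 * (R - 1) * ‖Nf x u‖ ^ 2 + 4 * (h u - 1) ^ 2
    nlinarith [sq_nonneg (‖Nf x u‖ ^ 2 + 2 * (h u - 1))]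
  rw [integral_add (i2.const_mul _) (i3.const_mul _), integral_const_mul, integral_const_mul] at h2
  have hb : 0 ≤ bsq x := integral_nonneg fun u => sq_nonneg _
  have hdd : (0 : ℝ) < d := by exact_mod_cast hd0
  have h3 : C * bsq x / d = C * (1 / d) * bsq x := by ring
  have h4 : 0 ≤ 1 / (d : ℝ) * bsq x := by positivity
  have h5 : 0 ≤ C * ((R - 1) * bsq x) := mul_nonneg hC.le (mul_nonneg (by linarith) hb)
  change _ ≤ 8 * (R - 1) * bsq x + _ at h2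
  nlinarith

end Pool.Agent.Lib.MP_77d991_gt.Ex
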