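import Pool.Agent.Lib.MP_77d991_gt.Ex.B2

open MeasureTheory ProbabilityTheory Set
open scoped RealInnerProductSpace

namespace Pool.Agent.Lib.MP_77d991_gt.Ex

open Pool.Agent.Lib.MP_77d991_gt.As

section
variable {E : Type*} [NormedAddCommGroup E] [InnerProductSpace ℝ E] [FiniteDimensional ℝ E]
  [MeasurableSpace E] [BorelSpace E]

lemma b4_rad_polar [Nontrivial E] {F : Type*} [NormedAddCommGroup F] [NormedSpace ℝ F]
    [CompleteSpace F] (f : E → F) (hf : ∀ (c : ℝ) (y : E), 0 < c → f (c • y) = f y) (ρ : ℝ → ℝ) :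
    ∫ g, ρ ‖g‖ • f g ∂stdGaussian E =
      (∫ r : Ioi (0 : ℝ), (√(2 * Real.pi))⁻¹ ^ Module.finrank ℝ E * Real.exp (-r.1 ^ 2 / 2) * ρ r.1
        ∂Measure.volumeIoiPow (Module.finrank ℝ E - 1)) •
      ∫ θ : Metric.sphere (0 : E) 1, f θ.1 ∂(volume : Measure E).toSphere := by
  set φ : ℝ → ℝ := fun r =>
    (√(2 * Real.pi))⁻¹ ^ Module.finrank ℝ E * Real.exp (-r ^ 2 / 2) * ρ r with hφ
  have e1 : ∫ g, ρ ‖g‖ • f g ∂stdGaussian E = ∫ g : E, φ ‖g‖ • f g := by
    rw [integral_std]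
    congr 1
    funext g
    rw [smul_smul]
  have e2 : ∫ g : E, φ ‖g‖ • f g =
      ∫ x : ({(0 : E)}ᶜ : Set E), φ ‖x.1‖ • f x.1 ∂((volume : Measure E).comap (↑)) := by
    rw [integral_subtype_comap (measurableSet_singleton _).compl fun x => φ ‖x‖ • f x,
      restrict_compl_singleton]
  have e3 := (volume : Measure E).measurePreserving_homeomorphUnitSphereProd.integral_comp
    (Homeomorph.measurableEmbedding _)
    (fun p : Metric.sphere (0 : E) 1 × Ioi (0 : ℝ) => φ p.2.1 • f p.1.1)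
  have e4 : ∀ x : ({(0 : E)}ᶜ : Set E),
      φ ((homeomorphUnitSphereProd E) x).2.1 • f ((homeomorphUnitSphereProd E) x).1.1 =
        φ ‖x.1‖ • f x.1 := fun x => by
    have hx : 0 < ‖x.1‖ := norm_pos_iff.2 x.2
    rw [homeomorphUnitSphereProd_apply_snd_coe, homeomorphUnitSphereProd_apply_fst_coe,
      hf _ _ (inv_pos.2 hx)]
  simp only [e4] at e3
  rw [e1, e2, e3, ← integral_prod_swap]
  exact integral_prod_smul (fun r : Ioi (0 : ℝ) => φ r.1) (fun θ : Metric.sphere (0 : E) 1 => f θ.1)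

/-- `‖g‖` and `g / ‖g‖` are independent: no integrability or measurability is needed. -/
theorem b4_rad_indep [Nontrivial E] {F : Type*} [NormedAddCommGroup F] [NormedSpace ℝ F]
    [CompleteSpace F] (f : E → F) (hf : ∀ (c : ℝ) (y : E), 0 < c → f (c • y) = f y) (ρ : ℝ → ℝ) :
    ∫ g, ρ ‖g‖ • f g ∂stdGaussian E =
      (∫ g, ρ ‖g‖ ∂stdGaussian E) • ∫ g, f g ∂stdGaussian E := by
  have h1 := b4_rad_polar f hf ρ
  have h2 := b4_rad_polar f hf (fun _ => 1)
  have h3 := b4_rad_polar (E := E) (fun _ => (1 : ℝ)) (fun _ _ _ => rfl) ρ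
  have h4 := b4_rad_polar (E := E) (fun _ => (1 : ℝ)) (fun _ _ _ => rfl) (fun _ => 1)
  simp only [one_smul, smul_eq_mul, mul_one] at h2 h3 h4
  rw [h1, h2, h3, smul_smul]
  congr 1
  have h5 : ∫ _g : E, (1 : ℝ) ∂stdGaussian E = 1 := by simp
  rw [h5] at h4
  rw [mul_assoc, mul_comm (∫ _θ : Metric.sphere (0 : E) 1, (1 : ℝ) ∂(volume : Measure E).toSphere),
    ← h4, mul_one]

/-- real-valued form of `b4_rad_indep`. -/
theorem b4_rad_indep_mul [Nontrivial E] (f : E → ℝ)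
    (hf : ∀ (c : ℝ) (y : E), 0 < c → f (c • y) = f y) (ρ : ℝ → ℝ) :
    ∫ g, ρ ‖g‖ * f g ∂stdGaussian E =
      (∫ g, ρ ‖g‖ ∂stdGaussian E) * ∫ g, f g ∂stdGaussian E :=
  b4_rad_indep f hf ρ

/-- an expanding map pushes the Lebesgue measure to a smaller measure. -/
lemma b4_t1_map_le {Φ : E → E} (hm : Measurable Φ) (hΦ : ∀ y w, ‖y - w‖ ≤ ‖Φ y - Φ w‖) :
    (volume : Measure E).map Φ ≤ volume := by
  have ha : AntilipschitzWith 1 Φ := AntilipschitzWith.of_le_mul_dist fun y w => by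
    simpa [dist_eq_norm] using hΦ y w
  have hv := Measure.isAddLeftInvariant_eq_smul (volume : Measure E)
    (Measure.hausdorffMeasure (Module.finrank ℝ E : ℝ))
  rw [Measure.le_iff]
  intro s hs
  rw [Measure.map_apply hm hs]
  have h1 := ha.hausdorffMeasure_preimage_le (d := (Module.finrank ℝ E : ℝ)) (by positivity) s
  simp only [ENNReal.coe_one, ENNReal.one_rpow, one_mul] at h1
  rw [hv, Measure.smul_apply, Measure.smul_apply]
  exact smul_le_smul_of_nonneg_left h1 (by positivity)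

/-- Gaussian form of `b4_t1_map_le`. -/
lemma b4_t1_push {Φ : E → E} (hm : Measurable Φ) (hΦ : ∀ y w, ‖y - w‖ ≤ ‖Φ y - Φ w‖)
    {F : E → ℝ} (hF : Measurable F) {B : ℝ} (h0 : ∀ y, 0 ≤ F y) (hB : ∀ y, F y ≤ B)
    {χ : E → ℝ} {K : ℝ} (hχ0 : ∀ y, 0 ≤ χ y)
    (hχ : ∀ y, χ y ≤ Real.exp (K - (‖Φ y‖ ^ 2 - ‖y‖ ^ 2) / 2)) :
    ∫ y, χ y * F (Φ y) ∂stdGaussian E ≤ Real.exp K * ∫ y, F y ∂stdGaussian E := by
  set c : ℝ := (√(2 * Real.pi))⁻¹ ^ Module.finrank ℝ E with hc
  have hc0 : 0 ≤ c := by positivity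
  set G : E → ℝ := fun y => (c * Real.exp (-‖y‖ ^ 2 / 2)) • F y with hG
  have hG0 : ∀ y, 0 ≤ G y := fun y => mul_nonneg (by positivity) (h0 y)
  have hGm : Measurable G := by rw [hG]; fun_prop
  have hGi : Integrable G := by
    refine Integrable.mono' (asden_dens_int.mul_const B) hGm.aestronglyMeasurable
      (Filter.Eventually.of_forall fun y => ?_)
    rw [Real.norm_of_nonneg (hG0 y)]
    exact mul_le_mul_of_nonneg_left (hB y) (by positivity)
  have hle := b4_t1_map_le hm hΦ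
  have h1 := integral_mono_measure hle (Filter.Eventually.of_forall hG0) hGi
  rw [integral_map hm.aemeasurable hGm.aestronglyMeasurable] at h1
  have hGΦ : Integrable (fun y => G (Φ y)) :=
    (hGi.mono_measure hle).comp_measurable hm
  rw [integral_std, integral_std F]
  refine le_trans ?_ (mul_le_mul_of_nonneg_left h1 (Real.exp_pos K).le)
  rw [← integral_const_mul]
  refine integral_mono_of_nonneg (Filter.Eventually.of_forall fun y => ?_) (hGΦ.const_mul _)
    (Filter.Eventually.of_forall fun y => ?_)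
  · exact mul_nonneg (by positivity) (mul_nonneg (hχ0 y) (h0 _))
  · simp only [hG, smul_eq_mul]
    have e : Real.exp K * Real.exp (-‖Φ y‖ ^ 2 / 2) =
        Real.exp (-‖y‖ ^ 2 / 2) * Real.exp (K - (‖Φ y‖ ^ 2 - ‖y‖ ^ 2) / 2) := by
      rw [← Real.exp_add, ← Real.exp_add]
      congr 1
      ring
    calc c * Real.exp (-‖y‖ ^ 2 / 2) * (χ y * F (Φ y))
        ≤ c * Real.exp (-‖y‖ ^ 2 / 2) *
          (Real.exp (K - (‖Φ y‖ ^ 2 - ‖y‖ ^ 2) / 2) * F (Φ y)) :=
          mul_le_mul_of_nonneg_left (mul_le_mul_of_nonneg_right (hχ y) (h0 _)) (by positivity)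
      _ = c * (Real.exp (-‖y‖ ^ 2 / 2) * Real.exp (K - (‖Φ y‖ ^ 2 - ‖y‖ ^ 2) / 2)) * F (Φ y) := by
          ring
      _ = _ := by rw [← e]; ring

variable {h : E → ℝ} {x : E → E} {R : ℝ}

omit [FiniteDimensional ℝ E] [BorelSpace E] in
lemma b4_mono (S : Sel h x R) (y w : E) : 0 ≤ ⟪x y - x w, y - w⟫ := by
  have h1 := S.sub_le y w
  have h2 := S.sub_le w y
  rw [← neg_sub y w, inner_neg_right] at h2
  rw [inner_sub_left]
  linarith

omit [FiniteDimensional ℝ E] [BorelSpace E] in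
lemma b4_expand (S : Sel h x R) {s : ℝ} (hs : 0 ≤ s) (y w : E) :
    ‖y - w‖ ≤ ‖(y + s • x y) - (w + s • x w)‖ := by
  have e : (y + s • x y) - (w + s • x w) = (y - w) + s • (x y - x w) := by module
  rw [e]
  refine abs_le_of_sq_le_sq' ?_ (norm_nonneg _) |>.2
  rw [norm_add_sq_real, inner_smul_right, real_inner_comm]
  have := mul_nonneg hs (b4_mono S y w)
  nlinarith [sq_nonneg ‖s • (x y - x w)‖]

omit [FiniteDimensional ℝ E] [BorelSpace E] in
/-- the pointwise inequality behind `T1`. -/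
lemma b4_t1_point (S : Sel h x R) {s L : ℝ} (hs : 0 < s) (y : E) (hy : s ≤ ‖y‖)
    (hL : ‖y‖ + s * R ≤ L) :
    s * (‖x y‖ ^ 2 - (h y / ‖y‖) ^ 2) ≤
      2 * L * (|h (y + s • x y) / ‖y + s • x y‖ - 1| + |h y / ‖y‖ - 1|) := by
  set r := ‖y‖ with hr
  have hr0 : 0 < r := hs.trans_le hy
  set a := h y / r with ha
  have har : h y = a * r := by rw [ha]; field_simp
  have ha0 : 0 ≤ a := div_nonneg (S.h_nonneg y) hr0.le
  have haR : a ≤ R := by rw [ha, div_le_iff₀ hr0]; exact S.h_le y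
  have hax : a ≤ ‖x y‖ := by
    rw [ha, div_le_iff₀ hr0, ← S.eq]; exact real_inner_le_norm _ _
  set q := ‖x y‖ ^ 2 - a ^ 2 with hq
  have hq0 : 0 ≤ q := sub_nonneg.2 (pow_le_pow_left₀ ha0 hax 2)
  set z := y + s • x y with hz
  set ρ := ‖z‖ with hρ
  set p := r + s * a with hp
  have hp0 : 0 < p := by positivity
  have hsp : s ≤ p := hy.trans (le_add_of_nonneg_right (by positivity))
  have e1 : ρ ^ 2 = p ^ 2 + s ^ 2 * q := by
    rw [hρ, hz, norm_add_sq_real, inner_smul_right, real_inner_comm, S.eq, norm_smul,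
      Real.norm_of_nonneg hs.le, har, hq, hp]
    ring
  have hρ0 : 0 ≤ ρ := norm_nonneg _
  have hρp : p ≤ ρ := abs_le_of_sq_le_sq' (by rw [e1]; nlinarith [sq_nonneg s]) hρ0 |>.2
  have hρ1 : 0 < ρ := hp0.trans_le hρp
  have e2 : ρ ≤ p + s * q / 2 := by
    refine abs_le_of_sq_le_sq' ?_ (by positivity) |>.2
    rw [e1]
    have := mul_le_mul_of_nonneg_left hsp (mul_nonneg hs.le hq0)
    nlinarith [sq_nonneg (s * q / 2)]
  have e3 : a * p + s * q ≤ h z := by
    have := S.le y z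
    rw [hz, inner_add_right, inner_smul_right, real_inner_self_eq_norm_sq, S.eq, har] at this
    rw [hp, hq]
    nlinarith
  have hρL : ρ ≤ L := by
    refine le_trans ?_ hL
    refine (norm_add_le _ _).trans (add_le_add le_rfl ?_)
    rw [norm_smul, Real.norm_of_nonneg hs.le]
    exact mul_le_mul_of_nonneg_left (S.bdd y) hs.le
  have hpL : p ≤ L := hρp.trans hρL
  have e4 : h z = (h z / ρ - 1) * ρ + ρ := by field_simp; ring
  have e5 : (h z / ρ - 1) * ρ ≤ |h z / ρ - 1| * L :=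
    (mul_le_mul_of_nonneg_right (le_abs_self _) hρ0).trans
      (mul_le_mul_of_nonneg_left hρL (abs_nonneg _))
  have e6 : -(a - 1) * p ≤ |a - 1| * L :=
    (mul_le_mul_of_nonneg_right (neg_le_abs _) hp0.le).trans
      (mul_le_mul_of_nonneg_left hpL (abs_nonneg _))
  nlinarith

omit [FiniteDimensional ℝ E] in
lemma b4_f_meas (S : Sel h x R) : Measurable fun y : E => |h y / ‖y‖ - 1| := by
  have := S.cont.measurable
  fun_prop

omit [FiniteDimensional ℝ E] [BorelSpace E] in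
lemma b4_a_mem (S : Sel h x R) (y : E) : 0 ≤ h y / ‖y‖ ∧ h y / ‖y‖ ≤ ‖x y‖ := by
  refine ⟨div_nonneg (S.h_nonneg y) (norm_nonneg _), ?_⟩
  refine div_le_of_le_mul₀ (norm_nonneg _) (norm_nonneg _) ?_
  rw [← S.eq]; exact real_inner_le_norm _ _

omit [FiniteDimensional ℝ E] [BorelSpace E] in
lemma b4_f_le (S : Sel h x R) (y : E) : |h y / ‖y‖ - 1| ≤ R + 1 := by
  obtain ⟨h1, h2⟩ := b4_a_mem S y
  have := S.bdd y
  have := S.R_nonneg
  rw [_root_.abs_le]
  constructor <;> linarith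

omit [FiniteDimensional ℝ E] [BorelSpace E] in
lemma b4_a_hom (S : Sel h x R) (c : ℝ) (y : E) (hc : 0 < c) :
    h (c • y) / ‖c • y‖ = h y / ‖y‖ := by
  rw [S.h_smul, norm_smul, Real.norm_eq_abs, mul_div_mul_left _ _ (abs_pos.2 hc.ne').ne']

/-- **T1**: the mean tangential energy is at most `C d` times the `L¹` deviation. -/
theorem b4_t1 (S : Sel h x R) (hR : R ≤ 3) (hd : 64 ≤ Module.finrank ℝ E) :
    ∫ y, (‖x y‖ ^ 2 - (h y / ‖y‖) ^ 2) ∂stdGaussian E ≤
      3000000 * (Module.finrank ℝ E : ℝ) * ∫ y, |h y / ‖y‖ - 1| ∂stdGaussian E := by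
  have : Nontrivial E := Module.nontrivial_of_finrank_pos (R := ℝ) (by omega)
  set n : ℝ := (Module.finrank ℝ E : ℝ) with hn
  have hn64 : (64 : ℝ) ≤ n := by rw [hn]; exact_mod_cast hd
  set t := √n with ht
  have ht8 : 8 ≤ t := by
    rw [ht]; exact Real.le_sqrt_of_sq_le (by linarith)
  have htt : t * t = n := Real.mul_self_sqrt (by linarith)
  have ht0 : 0 < t := by linarith
  have hR0 := S.R_nonneg
  set s := t⁻¹ with hs
  have hs0 : 0 < s := by positivity
  have hst : s * t = 1 := inv_mul_cancel₀ ht0.ne'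
  have hs1 : s ≤ 1 := by nlinarith
  set q : E → ℝ := fun y => ‖x y‖ ^ 2 - (h y / ‖y‖) ^ 2 with hq
  set F : E → ℝ := fun y => |h y / ‖y‖ - 1| with hF
  set Φ : E → E := fun y => y + s • x y with hΦ
  have hxm := S.meas
  have hhm := S.cont.measurable
  have hΦm : Measurable Φ := by rw [hΦ]; fun_prop
  have hFm : Measurable F := b4_f_meas S
  have hF0 : ∀ y, 0 ≤ F y := fun y => abs_nonneg _
  have hFi : Integrable F (stdGaussian E) :=
    Integrable.of_bound hFm.aestronglyMeasurable (R + 1) (Filter.Eventually.of_forall fun y => by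
      rw [Real.norm_of_nonneg (hF0 y)]; exact b4_f_le S y)
  set ρ : ℝ → ℝ := (Icc (1 : ℝ) (2 * t)).indicator fun _ => 1 with hρ
  have hρm : Measurable ρ := measurable_const.indicator measurableSet_Icc
  have hρ0 : ∀ r, 0 ≤ ρ r := fun r => indicator_nonneg (fun _ _ => zero_le_one) r
  have hρ1 : ∀ r, ρ r ≤ 1 := fun r => indicator_le_self' (fun _ _ => zero_le_one) r
  have hq0 : ∀ y, 0 ≤ q y := fun y =>
    sub_nonneg.2 (pow_le_pow_left₀ (b4_a_mem S y).1 (b4_a_mem S y).2 2)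
  -- the window has probability at least 1/2
  have hP : 1 / 2 ≤ ∫ y, ρ ‖y‖ ∂stdGaussian E := by
    have h1 := chi_dev (E := E) (τ := 7) (by norm_num)
    have hms : MeasurableSet {g : E | (7 : ℝ) ≤ |‖g‖ - √(Module.finrank ℝ E : ℝ)|} :=
      measurableSet_le measurable_const (by fun_prop)
    have h2 : ∫ y, (1 - ({g : E | (7 : ℝ) ≤ |‖g‖ - √(Module.finrank ℝ E : ℝ)|}).indicator
        (fun _ => (1 : ℝ)) y) ∂stdGaussian E ≤ ∫ y, ρ ‖y‖ ∂stdGaussian E := by
      refine integral_mono ((integrable_const 1).sub ((integrable_const 1).indicator hms))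
        (Integrable.of_bound (hρm.comp measurable_norm).aestronglyMeasurable 1
          (Filter.Eventually.of_forall fun y => by
            rw [Real.norm_of_nonneg (hρ0 _)]; exact hρ1 _)) fun y => ?_
      by_cases hy : y ∈ {g : E | (7 : ℝ) ≤ |‖g‖ - √(Module.finrank ℝ E : ℝ)|}
      · simp only [indicator_of_mem hy, sub_self]
        exact hρ0 _
      · simp only [indicator_of_notMem hy, sub_zero]
        have h3 : |‖y‖ - t| < 7 := not_le.1 hy
        rw [abs_lt] at h3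
        have : ‖y‖ ∈ Icc (1 : ℝ) (2 * t) := ⟨by linarith, by linarith⟩
        simp only [hρ, indicator_of_mem this, le_refl]
    rw [integral_sub (integrable_const 1) ((integrable_const 1).indicator hms),
      integral_indicator_const _ hms] at h2
    simp only [integral_const, probReal_univ, smul_eq_mul, mul_one] at h2
    linarith
  have hind := b4_rad_indep_mul q (fun c y hc => by simp only [hq, S.hom c y hc, b4_a_hom S c y hc]) ρ
  have hpush := b4_t1_push hΦm (fun y w => b4_expand S hs0.le y w) hFm hF0 (b4_f_le S)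
    (χ := fun y => ρ ‖y‖) (K := 11) (fun y => hρ0 _) (fun y => by
      by_cases hy : ‖y‖ ∈ Icc (1 : ℝ) (2 * t)
      · refine (hρ1 _).trans (Real.one_le_exp ?_)
        have e : ‖Φ y‖ ^ 2 = ‖y‖ ^ 2 + 2 * (s * h y) + s ^ 2 * ‖x y‖ ^ 2 := by
          simp only [hΦ]
          rw [norm_add_sq_real, inner_smul_right, real_inner_comm, S.eq, norm_smul,
            Real.norm_of_nonneg hs0.le, mul_pow]
        have h1 : h y ≤ 6 * t := (S.h_le y).trans (by nlinarith [hy.2, norm_nonneg y])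
        have h2 : s * h y ≤ 6 := by nlinarith
        have h3 : ‖x y‖ ^ 2 ≤ 9 := by nlinarith [S.bdd y, norm_nonneg (x y)]
        have h4 : s ^ 2 * ‖x y‖ ^ 2 ≤ 1 * 9 :=
          mul_le_mul (by nlinarith) h3 (sq_nonneg _) zero_le_one
        rw [e]
        linarith
      · simp only [hρ, indicator_of_notMem hy]
        exact (Real.exp_pos _).le)
  have hFΦ : Integrable (fun y => ρ ‖y‖ * F (Φ y)) (stdGaussian E) :=
    Integrable.of_bound ((hρm.comp measurable_norm).mul (hFm.comp hΦm)).aestronglyMeasurable (R + 1)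
      (Filter.Eventually.of_forall fun y => by
        rw [Real.norm_of_nonneg (mul_nonneg (hρ0 _) (hF0 _))]
        exact (mul_le_of_le_one_left (hF0 _) (hρ1 _)).trans (b4_f_le S _))
  have hmain : ∫ y, ρ ‖y‖ * q y ∂stdGaussian E ≤
      ∫ y, 8 * n * (ρ ‖y‖ * F (Φ y) + F y) ∂stdGaussian E := by
    refine integral_mono_of_nonneg
      (Filter.Eventually.of_forall fun y => mul_nonneg (hρ0 _) (hq0 y))
      ((hFΦ.add hFi).const_mul _) (Filter.Eventually.of_forall fun y => ?_)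
    by_cases hy : ‖y‖ ∈ Icc (1 : ℝ) (2 * t)
    · simp only [hρ, indicator_of_mem hy, one_mul]
      have h1 := b4_t1_point S (L := 4 * t) hs0 y (hs1.trans hy.1) (by nlinarith [hy.2])
      have h2 := mul_le_mul_of_nonneg_left h1 ht0.le
      have e : t * (s * q y) = q y := by rw [← mul_assoc, mul_comm t s, hst, one_mul]
      have e' : t * (2 * (4 * t) * (F (Φ y) + F y)) = 8 * n * (F (Φ y) + F y) := by
        rw [← htt]; ring
      exact e ▸ e' ▸ h2
    · simp only [hρ, indicator_of_notMem hy, zero_mul, zero_add]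
      exact mul_nonneg (by linarith) (hF0 y)
  rw [integral_const_mul, integral_add hFΦ hFi, hind] at hmain
  have he : Real.exp 11 ≤ 177147 := by
    have h1 : Real.exp 11 = Real.exp 1 ^ 11 := by rw [← Real.exp_nat_mul]; norm_num
    have h2 : Real.exp 1 ≤ 3 := Real.exp_one_lt_d9.le.trans (by norm_num)
    rw [h1]
    exact (pow_le_pow_left₀ (Real.exp_pos _).le h2 11).trans (by norm_num)
  have hm0 : 0 ≤ ∫ y, F y ∂stdGaussian E := integral_nonneg hF0
  have hQ0 : 0 ≤ ∫ y, q y ∂stdGaussian E := integral_nonneg hq0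
  have h5 := mul_le_mul_of_nonneg_right hP hQ0
  have h6 := mul_le_mul_of_nonneg_right he hm0
  have h7 : 8 * n * (∫ y, ρ ‖y‖ * F (Φ y) ∂stdGaussian E + ∫ y, F y ∂stdGaussian E) ≤
      8 * n * (177148 * ∫ y, F y ∂stdGaussian E) :=
    mul_le_mul_of_nonneg_left (by linarith) (by linarith)
  have h8 : 0 ≤ n * ∫ y, F y ∂stdGaussian E := mul_nonneg (by linarith) hm0
  nlinarith

omit [FiniteDimensional ℝ E] [BorelSpace E] in
/-- `‖x - u‖² = tangential energy + f²` for `u = y / ‖y‖`. -/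
lemma b4_norm_sub_unit_sq (S : Sel h x R) {y : E} (hy : y ≠ 0) :
    ‖x y - ‖y‖⁻¹ • y‖ ^ 2 = (‖x y‖ ^ 2 - (h y / ‖y‖) ^ 2) + (h y / ‖y‖ - 1) ^ 2 := by
  have h0 : ‖y‖ ≠ 0 := norm_ne_zero_iff.2 hy
  rw [norm_sub_sq_real, inner_smul_right, S.eq, norm_smul, norm_inv, norm_norm,
    inv_mul_cancel₀ h0, div_eq_inv_mul]
  ring

/-- **T1** for the full deviation `x - y / ‖y‖`. -/
theorem b4_t1' (S : Sel h x R) (hR : R ≤ 3) (hd : 64 ≤ Module.finrank ℝ E) :
    ∫ y, ‖x y - ‖y‖⁻¹ • y‖ ^ 2 ∂stdGaussian E ≤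
      3000001 * (Module.finrank ℝ E : ℝ) * ∫ y, |h y / ‖y‖ - 1| ∂stdGaussian E := by
  have h1 := b4_t1 S hR hd
  have hn64 : (64 : ℝ) ≤ (Module.finrank ℝ E : ℝ) := by exact_mod_cast hd
  have hxm := S.meas
  have hhm := S.cont.measurable
  have hFi : Integrable (fun y => |h y / ‖y‖ - 1|) (stdGaussian E) :=
    Integrable.of_bound (b4_f_meas S).aestronglyMeasurable (R + 1)
      (Filter.Eventually.of_forall fun y => by
        rw [Real.norm_of_nonneg (abs_nonneg _)]; exact b4_f_le S y)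
  have hqi : Integrable (fun y => ‖x y‖ ^ 2 - (h y / ‖y‖) ^ 2) (stdGaussian E) := by
    refine Integrable.of_bound (Measurable.aestronglyMeasurable (by fun_prop)) (R ^ 2)
      (Filter.Eventually.of_forall fun y => ?_)
    rw [Real.norm_of_nonneg (sub_nonneg.2 (pow_le_pow_left₀ (b4_a_mem S y).1 (b4_a_mem S y).2 2))]
    have := pow_le_pow_left₀ (norm_nonneg _) (S.bdd y) 2
    nlinarith [sq_nonneg (h y / ‖y‖)]
  have h2 : ∫ y, ‖x y - ‖y‖⁻¹ • y‖ ^ 2 ∂stdGaussian E ≤
      ∫ y, ((‖x y‖ ^ 2 - (h y / ‖y‖) ^ 2) + 2 * |h y / ‖y‖ - 1|) ∂stdGaussian E := by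
    refine integral_mono_of_nonneg (Filter.Eventually.of_forall fun y => sq_nonneg _)
      (hqi.add (hFi.const_mul 2)) (Filter.Eventually.of_forall fun y => ?_)
    have h3 : |h y / ‖y‖ - 1| ≤ 2 := by
      obtain ⟨h4, h5⟩ := b4_a_mem S y
      have := S.bdd y
      rw [_root_.abs_le]
      constructor <;> linarith
    rcases eq_or_ne y 0 with rfl | hy
    · have h4 : x 0 = 0 := by
        have := S.odd 0
        rw [neg_zero] at this
        have h5 : (2 : ℝ) • x 0 = 0 := by rw [two_smul]; nth_rewrite 1 [this]; simp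
        simpa using h5
      simp [h4]
    · simp only
      rw [b4_norm_sub_unit_sq S hy, ← sq_abs (h y / ‖y‖ - 1)]
      nlinarith [abs_nonneg (h y / ‖y‖ - 1)]
  rw [integral_add hqi (hFi.const_mul 2), integral_const_mul] at h2
  have hm0 : 0 ≤ ∫ y, |h y / ‖y‖ - 1| ∂stdGaussian E := integral_nonneg fun y => abs_nonneg _
  nlinarith


end

/-- `Φ g = g + s • x g` is expanding because `x` is monotone; its inverse is 1-Lipschitz on the range,
`LipschitzOnWith.hausdorffMeasure_image_le`, and the Hausdorff measure is a multiple of volume. -/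
theorem expand_le {d : ℕ} {h : Eu d → ℝ} {x : Eu d → Eu d} {R : ℝ} (S : Sel h x R) {s : ℝ}
    (hs : 0 ≤ s) : (volume : Measure (Eu d)).map (fun g => g + s • x g) ≤ volume :=
  b4_t1_map_le (by have := S.meas; fun_prop) fun y w => b4_expand S hs y w

/-- Energy is controlled by the first absolute moment. `s = 1/(2√d)`, `φ = h - ‖·‖`. On the shell
`√d/2 ≤ ‖g‖ ≤ 2√d`, with `u = nz g`, `s' = s/‖g‖ ∈ [1/(4d), 1/d]`:
`φ(u + s' x) ≥ f + s' h f + (s'/2) ‖tn‖²` from `h y ≥ ⟪x, y⟫` and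
`√((1+s'h)² + s'²ν²) ≤ 1 + s'h + s'²ν²/2`. Gaussian weights at `g` and `Φ g` differ by a factor at
most `exp 5`; `expand_le`; `indep` and `chi_dev` for the left side; `f² ≤ 2|f|`. -/
theorem energy_le : ∃ (C : ℝ) (d0 : ℕ), 0 < C ∧ ∀ d ≥ d0, ∀ (h : Eu d → ℝ) (x : Eu d → Eu d)
    (R : ℝ), Sel h x R → R ≤ 3 → bsq x ≤ C * d * mab h := by
  refine ⟨3000001, 64, by norm_num, fun d hd h x R S hR => ?_⟩
  have h1 := b4_t1' S hR (by simpa using hd)
  rw [finrank_euclideanSpace_fin] at h1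
  have h2 : mab h = ∫ y, |h y / ‖y‖ - 1| ∂stdGaussian (Eu d) := by
    have := S.cont.measurable
    rw [mab, sph_int (by fun_prop)]
    congr 1
    funext y
    rw [nz, S.h_smul, abs_inv, abs_norm, div_eq_inv_mul]
  rw [bsq_eq S, h2]
  exact h1

end Pool.Agent.Lib.MP_77d991_gt.Ex
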