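import Pool.Agent.Lib.MP_77d991_gt.Ex.A3

open MeasureTheory ProbabilityTheory Set
open scoped RealInnerProductSpace

namespace Pool.Agent.Lib.MP_77d991_gt.Ex

open Pool.Agent.Lib.MP_77d991_gt.As

section
variable {E : Type*} [NormedAddCommGroup E] [InnerProductSpace ℝ E] [FiniteDimensional ℝ E]
  [MeasurableSpace E] [BorelSpace E]

lemma b5_polar [Nontrivial E] (f : E → ℝ) (hf : ∀ (c : ℝ) (y : E), 0 < c → f (c • y) = c * f y) :
    ∫ g, f g ∂stdGaussian E =
      (∫ r : Ioi (0 : ℝ), (√(2 * Real.pi))⁻¹ ^ Module.finrank ℝ E * Real.exp (-r.1 ^ 2 / 2) * r.1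
        ∂Measure.volumeIoiPow (Module.finrank ℝ E - 1)) *
      ∫ θ : Metric.sphere (0 : E) 1, f θ.1 ∂(volume : Measure E).toSphere := by
  set φ : ℝ → ℝ := fun r =>
    (√(2 * Real.pi))⁻¹ ^ Module.finrank ℝ E * Real.exp (-r ^ 2 / 2) with hφ
  have e1 : ∫ g, f g ∂stdGaussian E = ∫ g : E, φ ‖g‖ * f g := by
    rw [integral_std]
    rfl
  have e2 : ∫ g : E, φ ‖g‖ * f g =
      ∫ x : ({(0 : E)}ᶜ : Set E), φ ‖x.1‖ * f x.1 ∂((volume : Measure E).comap (↑)) := by
    rw [integral_subtype_comap (measurableSet_singleton _).compl fun x => φ ‖x‖ * f x,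
      restrict_compl_singleton]
  have e3 := (volume : Measure E).measurePreserving_homeomorphUnitSphereProd.integral_comp
    (Homeomorph.measurableEmbedding _)
    (fun p : Metric.sphere (0 : E) 1 × Ioi (0 : ℝ) => f p.1.1 * (φ p.2.1 * p.2.1))
  have e4 : ∀ x : ({(0 : E)}ᶜ : Set E),
      f ((homeomorphUnitSphereProd E) x).1.1 *
        (φ ((homeomorphUnitSphereProd E) x).2.1 * ((homeomorphUnitSphereProd E) x).2.1) =
        φ ‖x.1‖ * f x.1 := fun x => by
    have hx : 0 < ‖x.1‖ := norm_pos_iff.2 x.2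
    rw [homeomorphUnitSphereProd_apply_snd_coe, homeomorphUnitSphereProd_apply_fst_coe,
      hf _ _ (inv_pos.2 hx)]
    field_simp
  simp only [e4] at e3
  rw [e1, e2, e3, mul_comm]
  exact integral_prod_mul (fun θ : Metric.sphere (0 : E) 1 => f θ.1)
    (fun r : Ioi (0 : ℝ) => φ r.1 * r.1)

lemma b5_vol [Nontrivial E] (h : E → ℝ) (hc : Continuous h)
    (hf : ∀ (c : ℝ) (y : E), 0 < c → h (c • y) = c * h y) (hp : ∀ y, ‖y‖ = 1 → 0 < h y) :
    (volume {y : E | h y < 1}).toReal =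
      (∫ θ : Metric.sphere (0 : E) 1, (h θ.1)⁻¹ ^ Module.finrank ℝ E
        ∂(volume : Measure E).toSphere) / Module.finrank ℝ E := by
  have hn : 0 < Module.finrank ℝ E := Module.finrank_pos
  have hp' : ∀ θ : Metric.sphere (0 : E) 1, 0 < h θ.1 := fun θ => hp _ (by simp)
  set A : Set (Metric.sphere (0 : E) 1 × Ioi (0 : ℝ)) := {p | p.2.1 * h p.1.1 < 1} with hA
  have hAm : MeasurableSet A := measurableSet_lt (by fun_prop) measurable_const
  have e1 := (volume : Measure E).measurePreserving_homeomorphUnitSphereProd.measure_preimage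
    hAm.nullMeasurableSet
  have e2 : (homeomorphUnitSphereProd E) ⁻¹' A =
      ((↑) : ({(0 : E)}ᶜ : Set E) → E) ⁻¹' {y : E | h y < 1} := by
    ext x
    have hx : 0 < ‖x.1‖ := norm_pos_iff.2 x.2
    simp only [hA, mem_preimage, mem_ofPred_eq]
    rw [homeomorphUnitSphereProd_apply_snd_coe, homeomorphUnitSphereProd_apply_fst_coe,
      hf _ _ (inv_pos.2 hx), ← mul_assoc, mul_inv_cancel₀ hx.ne', one_mul]
  have hm : MeasurableSet {y : E | h y < 1} := measurableSet_lt hc.measurable measurable_const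
  rw [e2, (MeasurableEmbedding.subtype_coe (measurableSet_singleton (0 : E)).compl).comap_apply,
    Subtype.image_preimage_coe, Measure.prod_apply hAm] at e1
  have e3 : volume (({(0 : E)}ᶜ : Set E) ∩ {y : E | h y < 1}) = volume {y : E | h y < 1} := by
    rw [inter_comm, ← sdiff_eq]
    exact measure_sdiff_null (measure_singleton _)
  have e4 : ∀ θ : Metric.sphere (0 : E) 1,
      Measure.volumeIoiPow (Module.finrank ℝ E - 1) (Prod.mk θ ⁻¹' A) =
        ENNReal.ofReal ((h θ.1)⁻¹ ^ Module.finrank ℝ E / Module.finrank ℝ E) := fun θ => by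
    have e5 : Prod.mk θ ⁻¹' A = Iio (⟨(h θ.1)⁻¹, inv_pos.2 (hp' θ)⟩ : Ioi (0 : ℝ)) := by
      ext r
      simp only [hA, mem_preimage, mem_ofPred_eq, mem_Iio, ← Subtype.coe_lt_coe]
      rw [← one_div, lt_div_iff₀ (hp' θ)]
    rw [e5, Measure.volumeIoiPow_apply_Iio, Nat.sub_add_cancel hn]
    congr 2
    rw [Nat.cast_sub hn]
    simp
  simp only [e4] at e1
  rw [← e3, e1, ← integral_div, integral_eq_lintegral_of_nonneg_ae]
  · exact Filter.Eventually.of_forall fun θ => by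
      have := hp' θ
      positivity
  · refine Continuous.aestronglyMeasurable ?_
    exact (((hc.comp continuous_subtype_val).inv₀ fun θ => (hp' θ).ne').pow _).div_const _

lemma b5_pos {a b : ℝ} (h : 0 < a * b) (hb : 0 ≤ b) : 0 < a := by
  by_contra ha
  nlinarith [not_lt.1 ha]

lemma b5_tan {t : ℝ} (ht : 0 < t) (n : ℕ) : 1 - n * (t - 1) ≤ t⁻¹ ^ n := by
  have h1 : 1 + (n : ℝ) * (t⁻¹ - 1) ≤ (1 + (t⁻¹ - 1)) ^ n :=
    one_add_mul_le_pow (by have := inv_pos.2 ht; linarith) n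
  have h2 : 1 - t ≤ t⁻¹ - 1 := by
    rw [le_sub_iff_add_le, ← one_div, le_div_iff₀ ht]
    nlinarith [sq_nonneg (t - 1)]
  have h3 := mul_le_mul_of_nonneg_left h2 (Nat.cast_nonneg (α := ℝ) n)
  rw [add_sub_cancel] at h1
  linarith

lemma b5_tan_eq {t : ℝ} (ht : 0 < t) {n : ℕ} (hn : 0 < n) (h : t⁻¹ ^ n = 1 - n * (t - 1)) :
    t = 1 := by
  have h1 : 1 + (n : ℝ) * (t⁻¹ - 1) ≤ (1 + (t⁻¹ - 1)) ^ n :=
    one_add_mul_le_pow (by have := inv_pos.2 ht; linarith) n
  rw [add_sub_cancel, h] at h1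
  have hn' : (0 : ℝ) < n := by exact_mod_cast hn
  have h2 : t⁻¹ - 1 ≤ 1 - t := le_of_mul_le_mul_left (by linarith) hn'
  rw [sub_le_iff_le_add, ← one_div, div_le_iff₀ ht] at h2
  nlinarith [sq_nonneg (t - 1)]

/-- The volume of the unit ball of a norm whose Gaussian mean is at most that of the Euclidean norm,
with the case of equality. -/
theorem b5_main [Nontrivial E] (h : E → ℝ) (hc : Continuous h)
    (hf : ∀ (c : ℝ) (y : E), 0 < c → h (c • y) = c * h y) (hp : ∀ y, ‖y‖ = 1 → 0 < h y)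
    (hm : ∫ g, h g ∂stdGaussian E ≤ ∫ g, ‖g‖ ∂stdGaussian E) :
    (volume (Metric.ball (0 : E) 1)).toReal ≤ (volume {y : E | h y < 1}).toReal ∧
      ((volume {y : E | h y < 1}).toReal ≤ (volume (Metric.ball (0 : E) 1)).toReal →
        ∀ y, ‖y‖ = 1 → h y = 1) := by
  have hn : 0 < Module.finrank ℝ E := Module.finrank_pos
  have hn' : (0 : ℝ) < Module.finrank ℝ E := by exact_mod_cast hn
  set n := Module.finrank ℝ E with hnn
  set σ := (volume : Measure E).toSphere with hσ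
  have hp' : ∀ θ : Metric.sphere (0 : E) 1, 0 < h θ.1 := fun θ => hp _ (by simp)
  have hS : σ.real univ = n * (volume (Metric.ball (0 : E) 1)).toReal :=
    Measure.toSphere_real_apply_univ _
  have h1 := b5_polar h hf
  have h2 := b5_polar (fun y : E => ‖y‖) (fun c y hc0 => by
    rw [norm_smul, Real.norm_of_nonneg hc0.le])
  have h3 : ∫ θ : Metric.sphere (0 : E) 1, ‖θ.1‖ ∂σ = σ.real univ := by
    have : ∀ θ : Metric.sphere (0 : E) 1, ‖θ.1‖ = 1 := fun θ => by simp
    simp [this]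
  rw [h3] at h2
  have h4 : 0 < ∫ g, ‖g‖ ∂stdGaussian E := by
    refine lt_of_le_of_ne (integral_nonneg fun g => norm_nonneg g) fun h0 => ?_
    have i1 : Integrable (fun g : E => ‖g‖) (stdGaussian E) := by
      simpa using integrable_norm_pow (E := E) 1
    have h5 := (integral_eq_zero_iff_of_nonneg (fun g => norm_nonneg g) i1).1 h0.symm
    have h6 : (fun g : E => ‖g‖ ^ 2) =ᵐ[stdGaussian E] fun _ => (0 : ℝ) := by
      filter_upwards [h5] with g hg
      simp only [Pi.zero_apply] at hg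
      simp [hg]
    have h7 := int_norm_sq (E := E)
    rw [integral_congr_ae h6, integral_zero] at h7
    exact hn'.ne h7
  have h5 : ∫ θ : Metric.sphere (0 : E) 1, h θ.1 ∂σ ≤ σ.real univ := by
    rw [h1, h2] at hm
    rw [h2] at h4
    exact le_of_mul_le_mul_left hm (b5_pos h4 measureReal_nonneg)
  have c1 : Continuous fun θ : Metric.sphere (0 : E) 1 => h θ.1 := hc.comp continuous_subtype_val
  have c2 : Continuous fun θ : Metric.sphere (0 : E) 1 => (h θ.1)⁻¹ ^ n :=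
    (c1.inv₀ fun θ => (hp' θ).ne').pow _
  have c3 : Continuous fun θ : Metric.sphere (0 : E) 1 => 1 - (n : ℝ) * (h θ.1 - 1) := by fun_prop
  have ii : ∀ {F : Metric.sphere (0 : E) 1 → ℝ}, Continuous F → Integrable F σ := fun hF =>
    hF.integrable_of_hasCompactSupport (HasCompactSupport.of_compactSpace _)
  have h6 : σ.real univ ≤ ∫ θ : Metric.sphere (0 : E) 1, (1 - (n : ℝ) * (h θ.1 - 1)) ∂σ := by
    rw [integral_sub (integrable_const _) (ii (by fun_prop)), integral_const_mul,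
      integral_sub (ii c1) (integrable_const _)]
    simp only [integral_const, smul_eq_mul, mul_one]
    nlinarith
  have h7 := b5_vol h hc hf hp
  have h8 : ∫ θ : Metric.sphere (0 : E) 1, (1 - (n : ℝ) * (h θ.1 - 1)) ∂σ ≤
      ∫ θ : Metric.sphere (0 : E) 1, (h θ.1)⁻¹ ^ n ∂σ :=
    integral_mono (ii c3) (ii c2) fun θ => b5_tan (hp' θ) n
  refine ⟨?_, fun hle y hy => ?_⟩
  · rw [h7, le_div_iff₀ hn']
    linarith
  · rw [h7, div_le_iff₀ hn'] at hle
    have h9 : ∫ θ : Metric.sphere (0 : E) 1,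
        ((h θ.1)⁻¹ ^ n - (1 - (n : ℝ) * (h θ.1 - 1))) ∂σ = 0 := by
      rw [integral_sub (ii c2) (ii c3)]
      linarith
    have h10 := (integral_eq_zero_iff_of_nonneg (fun θ => sub_nonneg.2 (b5_tan (hp' θ) n))
      (ii (c2.sub c3))).1 h9
    have h11 := ((c2.sub c3).ae_eq_iff_eq σ continuous_const).1 h10
    have h12 := congrFun h11 ⟨y, by simpa using hy⟩
    exact b5_tan_eq (hp y hy) hn (sub_eq_zero.1 h12)

end

theorem b5_ball {d : ℕ} (hd : 0 < d) : (volume (Metric.ball (0 : Eu d) 1)).toReal =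
    √Real.pi ^ d / Real.Gamma ((d : ℝ) / 2 + 1) := by
  have : Nonempty (Fin d) := ⟨⟨0, hd⟩⟩
  rw [EuclideanSpace.volume_ball, Fintype.card_fin, ENNReal.ofReal_one, one_pow, one_mul,
    ENNReal.toReal_ofReal]
  exact div_nonneg (by positivity) (Real.Gamma_pos_of_pos (by positivity)).le

theorem b5_fin {d : ℕ} {h : Eu d → ℝ} {c : ℝ} (hc : 0 < c) (hh : ∀ y, c * ‖y‖ ≤ h y) :
    volume {y : Eu d | h y ≤ 1} ≠ ⊤ := by
  refine (measure_mono (t := Metric.closedBall (0 : Eu d) c⁻¹) fun y hy => ?_).trans_lt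
    measure_closedBall_lt_top |>.ne
  rw [mem_closedBall_zero_iff]
  have h1 : c * ‖y‖ ≤ 1 := (hh y).trans hy
  rw [← one_div, le_div_iff₀ hc]
  linarith

/-- By `indep` and `chi_int` (or polar coordinates) the volume is `ω ∫ (h u)⁻¹ ^ d`; Jensen, for
example `t⁻¹ ^ d ≥ 1 - d (t - 1)`. -/
theorem vol_ge_one {d : ℕ} (hd : 0 < d) {h : Eu d → ℝ} {x : Eu d → Eu d} {R c : ℝ} (S : Sel h x R)
    (hc : 0 < c) (hh : ∀ y, c * ‖y‖ ≤ h y) (hm : ∫ g, h g ∂stdGaussian (Eu d) ≤ ad d) :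
    √Real.pi ^ d / Real.Gamma ((d : ℝ) / 2 + 1) ≤ (volume {y : Eu d | h y ≤ 1}).toReal := by
  have : Nontrivial (Eu d) := Module.nontrivial_of_finrank_pos (R := ℝ) (by simpa using hd)
  have h1 := (b5_main h S.cont (fun t y ht => by rw [S.h_smul, abs_of_pos ht])
    (fun y hy => lt_of_lt_of_le (by rw [hy]; linarith) (hh y)) hm).1
  rw [b5_ball hd] at h1
  exact h1.trans (ENNReal.toReal_mono (b5_fin hc hh) (measure_mono fun y (hy : h y < 1) => hy.le))

end Pool.Agent.Lib.MP_77d991_gt.Ex
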