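import Pool.Agent.Lib.MP_77d991_gt.Ex.Defs

open MeasureTheory ProbabilityTheory Set
open scoped RealInnerProductSpace

namespace Pool.Agent.Lib.MP_77d991_gt.Ex

open Pool.Agent.Lib.MP_77d991_gt.As

section
open Matrix

variable {n : Type*} [Fintype n] [DecidableEq n]

/-- symmetric case: `log det (1 + S) ≥ tr S - |S|²/2 - 2 ρ |S|²`. -/
theorem b6_symm (S : Matrix n n ℝ) (hS : S.IsHermitian) {ρ : ℝ} (hρ0 : 0 ≤ ρ) (hρ : ρ ≤ 1 / 2)
    (hB : ∑ i, ∑ j, S i j ^ 2 ≤ ρ ^ 2) :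
    0 < (1 + S).det ∧ S.trace - (∑ i, ∑ j, S i j ^ 2) / 2 - 2 * ρ * ∑ i, ∑ j, S i j ^ 2 ≤
      Real.log (1 + S).det := by
  set U : Matrix n n ℝ := (hS.eigenvectorUnitary : Matrix n n ℝ) with hU
  set l := hS.eigenvalues with hl
  have hU1 : U * star U = 1 := Unitary.coe_mul_star_self hS.eigenvectorUnitary
  have hU2 : star U * U = 1 := Unitary.coe_star_mul_self hS.eigenvectorUnitary
  have hsp : S = U * diagonal l * star U := by
    have := hS.spectral_theorem
    rw [Unitary.conjStarAlgAut_apply] at this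
    simpa using this
  have hdet : (1 + S).det = ∏ i, (1 + l i) := by
    have e : 1 + S = U * diagonal (fun i => 1 + l i) * star U := by
      rw [← diagonal_add, diagonal_one, mul_add, add_mul, mul_one, hU1, ← hsp]
    rw [e, det_mul, det_mul, mul_right_comm, ← det_mul, hU1, det_one, one_mul, det_diagonal]
  have htr : S.trace = ∑ i, l i := by simpa using hS.trace_eq_sum_eigenvalues
  have hsq : ∑ i, ∑ j, S i j ^ 2 = ∑ i, l i ^ 2 := by
    have e1 : ∑ i, ∑ j, S i j ^ 2 = (S * S).trace := by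
      simp only [trace, diag, mul_apply]
      refine Finset.sum_congr rfl fun i _ => Finset.sum_congr rfl fun j _ => ?_
      have := hS.apply i j
      simp only [star_trivial] at this
      rw [this, sq]
    have e2 : S * S = U * diagonal (fun i => l i ^ 2) * star U := by
      conv_lhs => rw [hsp]
      rw [mul_assoc (U * diagonal l), ← mul_assoc (star U), ← mul_assoc (star U), hU2, one_mul,
        ← mul_assoc, mul_assoc U, diagonal_mul_diagonal]
      simp [sq]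
    rw [e1, e2, trace_mul_comm, ← mul_assoc, hU2, one_mul, trace_diagonal]
  have hli : ∀ i, |l i| ≤ ρ := fun i => by
    refine abs_le_of_sq_le_sq' ?_ hρ0 |> abs_le.2
    exact (Finset.single_le_sum (f := fun i => l i ^ 2) (fun i _ => sq_nonneg _)
      (Finset.mem_univ i)).trans (hsq ▸ hB)
  have hpos : ∀ i, 0 < 1 + l i := fun i => by linarith [(abs_le.1 (hli i)).1]
  refine ⟨hdet ▸ Finset.prod_pos fun i _ => hpos i, ?_⟩
  rw [hdet, Real.log_prod fun i _ => (hpos i).ne', htr, hsq, Finset.sum_div, Finset.mul_sum,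
    ← Finset.sum_sub_distrib, ← Finset.sum_sub_distrib]
  refine Finset.sum_le_sum fun i _ => ?_
  have h1 : |(-l i)| < 1 := by rw [abs_neg]; linarith [hli i]
  have h2 := (abs_le.1 (Real.abs_log_sub_add_sum_range_le h1 2)).1
  simp only [Finset.sum_range_succ, Finset.range_zero, Finset.sum_empty, abs_neg] at h2
  have h3 : |l i| ^ (2 + 1) / (1 - |l i|) ≤ 2 * ρ * l i ^ 2 := by
    rw [div_le_iff₀ (by linarith [hli i]), ← sq_abs (l i)]
    have := hli i
    have h0 := abs_nonneg (l i)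
    have : |l i| ≤ 2 * ρ * (1 - |l i|) := by nlinarith
    calc |l i| ^ (2 + 1) = |l i| ^ 2 * |l i| := by ring
      _ ≤ |l i| ^ 2 * (2 * ρ * (1 - |l i|)) := by gcongr
      _ = _ := by ring
  rw [sub_neg_eq_add] at h2
  norm_num at h2 h3 ⊢
  linarith

/-- `log |det (1 + B)| ≥ tr B - tr B²/2 - 12 ρ |B|²` when `|B| ≤ ρ ≤ 1/5` (Hilbert-Schmidt norm). -/
theorem b6_ge (B : Matrix n n ℝ) {ρ : ℝ} (hρ0 : 0 ≤ ρ) (hρ : ρ ≤ 1 / 5)
    (hB : ∑ i, ∑ j, B i j ^ 2 ≤ ρ ^ 2) :
    (1 + B).det ≠ 0 ∧ B.trace - (∑ i, ∑ j, B i j * B j i) / 2 - 12 * ρ * ∑ i, ∑ j, B i j ^ 2 ≤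
      Real.log |(1 + B).det| := by
  set σ := ∑ i, ∑ j, B i j ^ 2 with hσ
  have hσ0 : 0 ≤ σ := by positivity
  set C := Bᵀ * B with hC
  set S := B + Bᵀ + C with hS
  have hher : S.IsHermitian := by
    simp only [IsHermitian, hS, hC, conjTranspose_eq_transpose_of_trivial, transpose_add,
      transpose_transpose, transpose_mul]
    abel
  have hdet : (1 + S).det = (1 + B).det ^ 2 := by
    have e : 1 + S = (1 + B)ᵀ * (1 + B) := by
      simp only [hS, hC, transpose_add, transpose_one, add_mul, mul_add, one_mul, mul_one]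
      abel
    rw [e, det_mul, det_transpose, sq]
  have hσ' : ∑ i, ∑ j, B j i ^ 2 = σ := Finset.sum_comm
  have hC2 : ∑ i, ∑ j, C i j ^ 2 ≤ σ ^ 2 := by
    calc _ ≤ ∑ i, ∑ j, (∑ k, B k i ^ 2) * ∑ k, B k j ^ 2 := by
          refine Finset.sum_le_sum fun i _ => Finset.sum_le_sum fun j _ => ?_
          simp only [hC, mul_apply, transpose_apply]
          exact Finset.sum_mul_sq_le_sq_mul_sq _ _ _
      _ = σ ^ 2 := by rw [← Finset.sum_mul_sum, hσ', sq]
  have hCt : C.trace = σ := by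
    simp only [hC, trace, diag, mul_apply, transpose_apply, ← sq]
    exact hσ'
  set q := ∑ i, ∑ j, B i j * B j i with hq
  have hA2 : ∑ i, ∑ j, (B i j + B j i) ^ 2 = 2 * σ + 2 * q := by
    simp only [add_sq, Finset.sum_add_distrib, hσ', mul_assoc, ← Finset.mul_sum]
    ring
  have hqσ : q ≤ σ := by
    have : 0 ≤ ∑ i, ∑ j, (B i j - B j i) ^ 2 := by positivity
    simp only [sub_sq, Finset.sum_add_distrib, Finset.sum_sub_distrib, hσ', mul_assoc,
      ← Finset.mul_sum] at this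
    linarith
  set p := ∑ i, ∑ j, (B i j + B j i) * C i j with hp
  have hp2 : p ^ 2 ≤ (2 * σ + 2 * q) * σ ^ 2 := by
    have := Finset.sum_mul_sq_le_sq_mul_sq (Finset.univ : Finset (n × n))
      (fun z => B z.1 z.2 + B z.2 z.1) (fun z => C z.1 z.2)
    simp only [Fintype.sum_prod_type] at this
    rw [hA2] at this
    refine this.trans (mul_le_mul_of_nonneg_left hC2 ?_)
    rw [← hA2]
    positivity
  have hp3 : p ≤ 2 * ρ * σ := by
    refine (le_abs_self p).trans (abs_le_of_sq_le_sq' ?_ (by positivity) |> abs_le.2)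
    calc p ^ 2 ≤ (4 * ρ ^ 2) * σ ^ 2 := hp2.trans (by gcongr; linarith)
      _ = _ := by ring
  have hS2 : ∑ i, ∑ j, S i j ^ 2 = 2 * σ + 2 * q + 2 * p + ∑ i, ∑ j, C i j ^ 2 := by
    rw [← hA2, hp]
    simp only [Finset.mul_sum, ← Finset.sum_add_distrib]
    refine Finset.sum_congr rfl fun i _ => Finset.sum_congr rfl fun j _ => ?_
    simp only [hS, Matrix.add_apply, transpose_apply]
    ring
  have hσσ : σ ^ 2 ≤ ρ * σ / 5 := by
    have h1 : σ ≤ ρ / 5 := hB.trans (by nlinarith)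
    nlinarith [mul_le_mul_of_nonneg_left h1 hσ0]
  have hS3 : ∑ i, ∑ j, S i j ^ 2 ≤ 121 / 25 * σ := by nlinarith
  obtain ⟨h1, h2⟩ := b6_symm S hher (ρ := 11 / 5 * ρ) (by positivity) (by linarith)
    (hS3.trans (by nlinarith))
  rw [hdet] at h1 h2
  have h0 : (1 + B).det ≠ 0 := fun h => by simp [h] at h1
  refine ⟨h0, ?_⟩
  have htr : S.trace = 2 * B.trace + σ := by
    rw [hS, trace_add, trace_add, trace_transpose, hCt]
    ring
  rw [← sq_abs, Real.log_pow, htr] at h2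
  have h4 := mul_le_mul_of_nonneg_left hS3 (show 0 ≤ 2 * (11 / 5 * ρ) by positivity)
  have h5 : 0 ≤ ρ * σ := by positivity
  push_cast at h2
  nlinarith

end

/-- `(1+B)ᵀ(1+B) = 1 + S`, `S = B + Bᵀ + BᵀB` symmetric with eigenvalues in `[-1/4, 1/4]`;
`log (1+t) ≥ t - t²/2 - |t|³`; `tr S = 2 tr B + |B|²`, `tr S² = 2|B|² + 2 tr B² + O(|B|³)`. -/
theorem logdet : ∃ C : ℝ, 0 < C ∧ ∀ (d : ℕ) (B : Matrix (Fin d) (Fin d) ℝ),
    ∑ i, ∑ l, B i l ^ 2 ≤ 1 / 100 →
      Real.exp (∑ i, B i i - (∑ i, ∑ l, B i l * B l i) / 2 -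
        C * ((∑ i, ∑ l, B i l ^ 2) * √(∑ i, ∑ l, B i l ^ 2))) ≤ |(1 + B).det| := by
  refine ⟨12, by norm_num, fun d B hB => ?_⟩
  have h0 : 0 ≤ ∑ i, ∑ l, B i l ^ 2 := by positivity
  obtain ⟨h1, h2⟩ := b6_ge B (ρ := √(∑ i, ∑ l, B i l ^ 2)) (Real.sqrt_nonneg _)
    (Real.sqrt_le_iff.2 ⟨by norm_num, hB.trans (by norm_num)⟩) (by rw [Real.sq_sqrt h0])
  rw [← Real.exp_log (abs_pos.2 h1)]
  refine Real.exp_le_exp.2 (le_trans (le_of_eq ?_) h2)
  simp only [Matrix.trace, Matrix.diag]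
  ring

end Pool.Agent.Lib.MP_77d991_gt.Ex
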