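import Pool.Agent.Lib.MP_77d991_gt.Ex.Defs

open MeasureTheory ProbabilityTheory Set
open scoped RealInnerProductSpace

namespace Pool.Agent.Lib.MP_77d991_gt.Ex

open Pool.Agent.Lib.MP_77d991_gt.As

theorem b7_inner {d : ℕ} (y z : Eu d) : ⟪y, z⟫ = ∑ k, y k * z k := by
  simp [PiLp.inner_apply, mul_comm]

theorem b7_ee {d : ℕ} (y : Eu d) (l : Fin d) : ⟪y, ee l⟫ = y l := by
  simp [ee, EuclideanSpace.inner_single_right]

theorem b7_ee_ee {d : ℕ} (i l : Fin d) : ⟪ee i, ee l⟫ = (1 : Matrix (Fin d) (Fin d) ℝ) i l := by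
  rw [b7_ee, Matrix.one_apply]
  simp [ee, eq_comm]

theorem frame_det {d : ℕ} (O : Eu d ≃ₗᵢ[ℝ] Eu d) (X : Fin d → Eu d) :
    |(1 + Matrix.of fun i l => ⟪X i - O (ee i), O (ee l)⟫).det| = |dt X| := by
  have h1 : (1 + Matrix.of fun i l => ⟪X i - O (ee i), O (ee l)⟫) =
      (Matrix.of fun i l => X i l) * (Matrix.of fun i l => O (ee i) l).transpose := by
    ext i l
    rw [Matrix.add_apply, Matrix.of_apply, inner_sub_left, O.inner_map_map, b7_ee_ee, b7_inner]
    simp [Matrix.mul_apply]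
  have h2 : (Matrix.of fun i l => O (ee i) l) * (Matrix.of fun i l => O (ee i) l).transpose = 1 := by
    ext i l
    rw [← b7_ee_ee, ← O.inner_map_map, b7_inner]
    simp [Matrix.mul_apply]
  have h3 := congrArg Matrix.det h2
  rw [Matrix.det_mul, Matrix.det_transpose, Matrix.det_one] at h3
  rw [h1, Matrix.det_mul, Matrix.det_transpose, abs_mul,
    abs_eq_abs.2 (mul_self_eq_one_iff.1 h3), abs_one, mul_one, dt]

theorem frame_hs {d : ℕ} (O : Eu d ≃ₗᵢ[ℝ] Eu d) (y : Eu d) :
    ∑ l, ⟪y, O (ee l)⟫ ^ 2 = ‖y‖ ^ 2 := by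
  rw [← O.symm.norm_map y, EuclideanSpace.real_norm_sq_eq]
  refine Finset.sum_congr rfl fun l _ => ?_
  rw [← b7_ee, ← O.inner_map_map (O.symm y), O.apply_symm_apply]

theorem b7_row {d : ℕ} (Y : Fin d → Eu d) (i : Fin d) :
    ∃ c : Eu d, ∀ z, dt (Function.update Y i z) = ⟪z, c⟫ := by
  refine ⟨WithLp.toLp 2 fun l => (Matrix.of fun i l => Y i l).adjugate l i, fun z => ?_⟩
  have e : (Matrix.of fun j l => Function.update Y i z j l) =
      (Matrix.of fun j l => Y j l).updateRow i fun l => z l := by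
    ext j l
    by_cases hj : j = i
    · simp [hj]
    · simp [hj]
  rw [dt, e, Matrix.det_eq_sum_mul_adjugate_row _ i, b7_inner]
  refine Finset.sum_congr rfl fun l _ => ?_
  simp [Matrix.adjugate_apply]

/-- Replace one row at a time: the determinant is `⟪X i, c⟫` with `c` the cofactor vector. -/
theorem vertex {d m : ℕ} (v : Fin (m + 1) → Eu d) (X : Fin d → Eu d)
    (hX : ∀ i y, ⟪X i, y⟫ ≤ hV v y) : ∃ j : Fin d → Fin (m + 1), |dt X| ≤ |dt (v ∘ j)| := by
  have key : ∀ s : Finset (Fin d), ∃ j : Fin d → Fin (m + 1),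
      |dt X| ≤ |dt fun i => if i ∈ s then v (j i) else X i| := by
    intro s
    induction s using Finset.induction_on with
    | empty => exact ⟨fun _ => 0, by simp⟩
    | insert i s hi ih =>
      obtain ⟨j, hj⟩ := ih
      obtain ⟨c, hc⟩ := b7_row (fun i => if i ∈ s then v (j i) else X i) i
      obtain ⟨k, hk⟩ := exists_hV v c
      refine ⟨Function.update j i k, hj.trans ?_⟩
      have e1 : (fun i => if i ∈ s then v (j i) else X i) =
          Function.update (fun i => if i ∈ s then v (j i) else X i) i (X i) := by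
        funext l
        by_cases hl : l = i
        · simp [hl, hi]
        · simp [hl]
      have e2 : (fun l => if l ∈ insert i s then v (Function.update j i k l) else X l) =
          Function.update (fun i => if i ∈ s then v (j i) else X i) i (v k) := by
        funext l
        by_cases hl : l = i
        · simp [hl]
        · simp [hl]
      rw [e2, hc, hk, e1, hc]
      have h2 := hX i (-c)
      have h3 : hV v (-c) = hV v c := by simp [hV]
      rw [inner_neg_right, h3] at h2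
      exact abs_le.2 ⟨by linarith, hX i c⟩
  obtain ⟨j, hj⟩ := key Finset.univ
  exact ⟨j, by simpa [Function.comp_def] using hj⟩

theorem b7_exp {z : ℝ} (h : z ^ 2 ≤ 1 / 4) : Real.exp (z - z ^ 2) ≤ 1 + z := by
  have h1 : -(1 / 2) ≤ z := by nlinarith
  have h2 : z ≤ 1 / 2 := by nlinarith
  have h3 : 1 ≤ (1 + z) * Real.exp (-(z - z ^ 2)) := by
    rcases le_total 0 z with h0 | h0
    · have := Real.add_one_le_exp (-(z - z ^ 2))
      nlinarith [pow_nonneg h0 3, mul_le_mul_of_nonneg_left this (by linarith : 0 ≤ 1 + z)]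
    · have h4 : 0 ≤ -(z - z ^ 2) := by nlinarith
      have := mul_le_mul_of_nonneg_left (Real.quadratic_le_exp_of_nonneg h4)
        (by linarith : 0 ≤ 1 + z)
      have h5 : 0 ≤ z ^ 2 * ((1 + z) * (1 - z) ^ 2 / 2 + z) :=
        mul_nonneg (sq_nonneg z) (by nlinarith [mul_nonneg (neg_nonneg.2 h0) (sq_nonneg z)])
      nlinarith
  rw [Real.exp_neg, ← div_eq_mul_inv, le_div_iff₀ (Real.exp_pos _), one_mul] at h3
  exact h3

theorem b7_am {r : ℕ} (hr : 0 < r) (a : Fin r → ℝ) (ha : ∀ i, 0 ≤ a i) :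
    (r : ℝ) ^ r * ∏ i, a i ≤ (∑ i, a i) ^ r := by
  have hr' : (0 : ℝ) < r := by exact_mod_cast hr
  have h := Real.geom_mean_le_arith_mean Finset.univ (fun _ => 1) a (fun _ _ => zero_le_one)
    (by simpa using hr) fun i _ => ha i
  simp only [Real.rpow_one, Finset.sum_const, Finset.card_univ, Fintype.card_fin, nsmul_eq_mul,
    mul_one, one_mul] at h
  have hp : 0 ≤ ∏ i, a i := Finset.prod_nonneg fun i _ => ha i
  have h2 := pow_le_pow_left₀ (Real.rpow_nonneg hp _) h r
  rw [Real.rpow_inv_natCast_pow hp hr.ne', div_pow, le_div_iff₀ (pow_pos hr' r), mul_comm] at h2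
  exact h2

/-- AM-GM and `log (1+z) ≥ z - z²` on `|z| ≤ 1/2`. -/
theorem amgm {r : ℕ} (hr : 0 < r) {k θ Z I : ℝ} (hk : 0 < k) (q lam : Fin r → ℝ)
    (hl : ∀ i, 0 ≤ lam i) (h1 : θ ≤ ∑ i, (q i / k - 1)) (h2 : ∑ i, (q i / k - 1) ^ 2 ≤ Z)
    (hZ : Z ≤ 1 / 4) (hI : ∑ i, lam i * q i ≤ I) :
    (r * k) ^ r * Real.exp (θ - Z) * ∏ i, lam i ≤ I ^ r := by
  have hs : ∀ i, (q i / k - 1) ^ 2 ≤ 1 / 4 := fun i =>
    (Finset.single_le_sum (f := fun i => (q i / k - 1) ^ 2) (fun _ _ => sq_nonneg _)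
      (Finset.mem_univ i)).trans (h2.trans hZ)
  have he : ∀ i, k * Real.exp ((q i / k - 1) - (q i / k - 1) ^ 2) ≤ q i := fun i => by
    have := b7_exp (hs i)
    rw [add_sub_cancel, le_div_iff₀ hk, mul_comm] at this
    exact this
  have hq : ∀ i, 0 ≤ q i := fun i => (mul_pos hk (Real.exp_pos _)).le.trans (he i)
  have h3 : k ^ r * Real.exp (θ - Z) ≤ ∏ i, q i := by
    refine le_trans ?_ (Finset.prod_le_prod (fun i _ => (mul_pos hk (Real.exp_pos _)).le)
      fun i _ => he i)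
    rw [Finset.prod_mul_distrib, ← Real.exp_sum, Finset.sum_sub_distrib]
    simp only [Finset.prod_const, Finset.card_univ, Fintype.card_fin]
    exact mul_le_mul_of_nonneg_left (Real.exp_le_exp.2 (sub_le_sub h1 h2)) (pow_pos hk r).le
  have h4 := b7_am hr (fun i => lam i * q i) fun i => mul_nonneg (hl i) (hq i)
  have h5 := pow_le_pow_left₀ (Finset.sum_nonneg fun i _ => mul_nonneg (hl i) (hq i)) hI r
  refine le_trans ?_ (h4.trans h5)
  rw [Finset.prod_mul_distrib, mul_pow, mul_assoc, mul_assoc, ← mul_assoc (k ^ r), mul_comm (∏ i, lam i)]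
  exact mul_le_mul_of_nonneg_left (mul_le_mul_of_nonneg_right h3
    (Finset.prod_nonneg fun i _ => hl i)) (by positivity)

end Pool.Agent.Lib.MP_77d991_gt.Ex
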