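import Pool.Agent.Lib.MP_77d991_gt.Ex.A6

open MeasureTheory ProbabilityTheory Set
open scoped RealInnerProductSpace

namespace Pool.Agent.Lib.MP_77d991_gt.Ex

open Pool.Agent.Lib.MP_77d991_gt.As

section
variable {d : ℕ} {Ω : Type} [MeasurableSpace Ω] {ν : Measure Ω} {U : Ω → (Eu d ≃ₗᵢ[ℝ] Eu d)}

lemma c1_meas : Measurable fun p : Eu d × Eu d => nz (pj p.1 p.2) := by
  have h : Continuous fun p : Eu d × Eu d => pj p.1 p.2 := by
    unfold pj
    fun_prop
  exact measurable_nz.comp h.measurable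

lemma c1_pj_map (O : Eu d ≃ₗᵢ[ℝ] Eu d) (e g : Eu d) : nz (pj (O e) (O g)) = O (nz (pj e g)) := by
  rw [← asrad_nz_map, pj, pj, map_sub, map_smul, O.inner_map_map]

lemma c1_on {e e' : Eu d} (he : ‖e‖ = 1) (he' : ‖e'‖ = 1) (hee : ⟪e, e'⟫ = 0) :
    Orthonormal ℝ ![e, e'] := by
  refine ⟨fun i => ?_, fun i j hij => ?_⟩
  · fin_cases i <;> simpa
  · fin_cases i <;> fin_cases j
    · exact absurd rfl hij
    · simpa using hee
    · simpa [real_inner_comm] using hee
    · exact absurd rfl hij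

/-- an orthonormal pair can be replaced by any other one. -/
lemma c1_rep (H : Haar ν U) {e e' y y' : Eu d} (he : ‖e‖ = 1) (he' : ‖e'‖ = 1)
    (hee : ⟪e, e'⟫ = 0) (hy : ‖y‖ = 1) (hy' : ‖y'‖ = 1) (hyy : ⟪y, y'⟫ = 0)
    (Ψ : Eu d → Eu d → ℝ) :
    ∫ ω, Ψ (U ω y) (U ω y') ∂ν = ∫ ω, Ψ (U ω e) (U ω e') ∂ν := by
  obtain ⟨O, hO⟩ := exists_iso_frame _ _ (c1_on he he' hee) (c1_on hy hy' hyy)
  have h1 : O e = y := by simpa using hO 0
  have h2 : O e' = y' := by simpa using hO 1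
  have h := H.inv O (fun θ => Ψ (θ 0) (θ 1)) (fun i => if i = 0 then e else e')
  simp only [if_true, one_ne_zero, if_false, h1, h2] at h
  exact h

lemma c1_ae {e e' : Eu d} (he' : ‖e'‖ = 1) (hee : ⟪e, e'⟫ = 0) :
    ∀ᵐ g ∂stdGaussian (Eu d), pj e g ≠ 0 := by
  have hm : Measurable fun g : Eu d => ⟪e', g⟫ := by fun_prop
  have := nullSingletonClass_gaussianReal (μ := 0) (v := 1) one_ne_zero
  have h0 : ∀ᵐ t ∂(stdGaussian (Eu d)).map fun g => ⟪e', g⟫, t ≠ 0 := by
    rw [map_inner, he', one_pow, Real.toNNReal_one]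
    exact compl_mem_ae_iff.2 (measure_singleton 0)
  filter_upwards [ae_of_ae_map hm.aemeasurable h0] with g hg h
  have h1 : ⟪e', pj e g⟫ = 0 := by rw [h, inner_zero_right]
  rw [pj, inner_sub_right, inner_smul_right, real_inner_comm e e', hee, mul_zero, sub_zero] at h1
  exact hg h1

lemma c1_law (H : Haar ν U) {e : Eu d} (he : ‖e‖ = 1) {Φ : Eu d → ℝ} (hΦ : Measurable Φ) :
    ∫ ω, Φ (U ω e) ∂ν = ∫ u, Φ u ∂sph d := by
  have hm : Measurable fun ω => U ω e := H.meas.comp (measurable_id.prodMk measurable_const)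
  rw [← H.law he, integral_map hm.aemeasurable hΦ.aestronglyMeasurable]

theorem Fk_bm {F : Eu d → ℝ} {C : ℝ} (hF : Bm F C) : Bm (Fk F) C := by
  refine ⟨(hF.1.comp c1_meas).stronglyMeasurable.integral_prod_right'.measurable, fun u => ?_⟩
  have h := norm_integral_le_of_norm_le_const (μ := stdGaussian (Eu d))
    (f := fun g => F (nz (pj u g))) (C := C) (Filter.Eventually.of_forall fun g => hF.2 _)
  rwa [probReal_univ, mul_one] at h

/-- `Fk F (O e) = ∫ F (O (J z)) ∂sph`, where `J` is an isometry onto the hyperplane `e^⊥`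
(`integral_comp_iso`, `split`). -/
theorem Fk_eq {r : ℕ} {F : Eu (r + 1) → ℝ} {C : ℝ} (hF : Bm F C) {e : Eu (r + 1)} (he : ‖e‖ = 1)
    (J : Eu r →ₗᵢ[ℝ] Eu (r + 1)) (hJ : ∀ s, ⟪J s, e⟫ = 0) (O : Eu (r + 1) ≃ₗᵢ[ℝ] Eu (r + 1)) :
    Fk F (O e) = ∫ z, F (O (J z)) ∂sph r := by
  have hO : Measurable O := O.continuous.measurable
  have hJm : Measurable J := J.continuous.measurable
  have hp : Measurable (pj e) := by
    have h : Continuous (pj e) := by
      unfold pj
      fun_prop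
    exact h.measurable
  have hφ : Measurable fun y : Eu (r + 1) => F (O (nz y)) := hF.1.comp (hO.comp measurable_nz)
  have h1 : (stdGaussian (Eu (r + 1))).map (pj e) = (stdGaussian (Eu r)).map J := by
    have h2 := congrArg (Measure.map Prod.snd) (split he J hJ)
    rw [Measure.map_map measurable_snd (Measurable.prodMk (by fun_prop) hp),
      Measure.map_snd_prod, measure_univ, one_smul] at h2
    exact h2
  rw [Fk, ← integral_comp_iso O, sph_int (f := fun z => F (O (J z))) (hF.1.comp (hO.comp hJm))]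
  simp only [c1_pj_map]
  rw [← integral_map hp.aemeasurable hφ.aestronglyMeasurable, h1,
    integral_map hJm.aemeasurable hφ.aestronglyMeasurable]
  simp only [nz, map_smul, J.norm_map]

/-- For almost every `g`, `(e, nz (pj e g))` is orthonormal, so it can replace `(e, e')`. -/
theorem Haar.pair (H : Haar ν U) {e e' : Eu d} (he : ‖e‖ = 1) (he' : ‖e'‖ = 1) (hee : ⟪e, e'⟫ = 0)
    {F G : Eu d → ℝ} {C C' : ℝ} (hF : Bm F C) (hG : Bm G C') :
    ∫ ω, F (U ω e) * G (U ω e') ∂ν = ∫ u, F u * Fk G u ∂sph d := by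
  have := H.prob
  have h1 : ∫ ω, F (U ω e) * G (U ω e') ∂ν =
      ∫ g, ∫ ω, F (U ω e) * G (U ω (nz (pj e g))) ∂ν ∂stdGaussian (Eu d) := by
    refine Eq.symm ((integral_congr_ae (g := fun _ => ∫ ω, F (U ω e) * G (U ω e') ∂ν) ?_).trans
      (by rw [integral_const, probReal_univ, one_smul]))
    filter_upwards [c1_ae he' hee] with g hg
    refine c1_rep H he he' hee he (asxi_nz_one hg) ?_ fun y y' => F y * G y'
    rw [nz, inner_smul_right, pj, inner_sub_right, inner_smul_right, real_inner_self_eq_norm_sq,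
      he, real_inner_comm]
    ring
  have hm : Measurable fun q : Eu d × Ω => F (U q.2 e) * G (U q.2 (nz (pj e q.1))) :=
    (hF.1.comp (H.meas.comp (measurable_snd.prodMk measurable_const))).mul
      (hG.1.comp (H.meas.comp (measurable_snd.prodMk
        (c1_meas.comp (measurable_const.prodMk measurable_fst)))))
  have hi : Integrable (Function.uncurry fun (g : Eu d) (ω : Ω) =>
      F (U ω e) * G (U ω (nz (pj e g)))) ((stdGaussian (Eu d)).prod ν) :=
    Integrable.of_bound hm.aestronglyMeasurable (C * C') (Filter.Eventually.of_forall fun q =>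
      (norm_mul_le _ _).trans (mul_le_mul (hF.2 _) (hG.2 _) (norm_nonneg _)
        ((norm_nonneg _).trans (hF.2 0))))
  rw [h1, integral_integral_swap hi,
    ← c1_law H he (Φ := fun u => F u * Fk G u) (hF.1.mul (Fk_bm hG).1)]
  refine integral_congr_ae (Filter.Eventually.of_forall fun ω => ?_)
  simp only [← c1_pj_map]
  rw [integral_const_mul, integral_comp_iso (U ω) fun g => G (nz (pj (U ω e) g)), Fk]

lemma c1_ee (i : Fin d) : ‖ee i‖ = 1 := by simp [ee]

lemma c1_ee2 {i j : Fin d} (h : i ≠ j) : ⟪ee i, ee j⟫ = 0 := by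
  simp [ee, EuclideanSpace.inner_single_left, h]

theorem Fk_symm (hd : 2 ≤ d) {F G : Eu d → ℝ} {C C' : ℝ} (hF : Bm F C) (hG : Bm G C') :
    ∫ u, F u * Fk G u ∂sph d = ∫ u, Fk F u * G u ∂sph d := by
  obtain ⟨Ω, _, ν, U, H⟩ := exists_Haar d
  have h : (⟨0, by omega⟩ : Fin d) ≠ ⟨1, by omega⟩ := by simp
  have h1 := H.pair (c1_ee _) (c1_ee _) (c1_ee2 h) hF hG
  have h2 := H.pair (c1_ee _) (c1_ee _) (c1_ee2 h.symm) hG hF
  simp only [mul_comm (G _)] at h2
  rw [← h1, h2]

theorem Fk_mean (hd : 2 ≤ d) {F : Eu d → ℝ} {C : ℝ} (hF : Bm F C) :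
    ∫ u, Fk F u ∂sph d = ∫ u, F u ∂sph d := by
  have h := Fk_symm hd (F := fun _ => 1) (C := 1) ⟨measurable_const, fun _ => by simp⟩ hF
  simpa [Fk] using h

/-- Average over an orthonormal basis of `e^⊥`; every member can replace `e'`. -/
theorem Haar.tn_sq (H : Haar ν U) {e e' : Eu d} (he : ‖e‖ = 1) (he' : ‖e'‖ = 1) (hee : ⟪e, e'⟫ = 0)
    {x : Eu d → Eu d} {C : ℝ} (hx : Bm x C) :
    ∫ ω, ⟪tn x (U ω e), U ω e'⟫ ^ 2 ∂ν = (∫ u, ‖tn x u‖ ^ 2 ∂sph d) / (d - 1) := by
  have := H.prob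
  have hd : 2 ≤ d := by simpa using (c1_on he he' hee).linearIndependent.fintype_card_le_finrank
  have hd' : (2 : ℝ) ≤ d := by exact_mod_cast hd
  let i : Fin d := ⟨0, by omega⟩
  have hx1 := hx.1
  have ht : Measurable (tn x) := by
    unfold tn
    fun_prop
  have hU : ∀ y, Measurable fun ω => U ω y := fun y =>
    H.meas.comp (measurable_id.prodMk measurable_const)
  have hb : ∀ z : Eu d, ‖z‖ = 1 → ‖tn x z‖ ≤ C + C := fun z hz => by
    refine (norm_sub_le _ _).trans (add_le_add (hx.2 z) ?_)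
    rw [norm_smul, hz, mul_one]
    refine (norm_inner_le_norm _ _).trans ?_
    rw [hz, mul_one]
    exact hx.2 z
  have hi : ∀ j, Integrable (fun ω => ⟪tn x (U ω (ee i)), U ω (ee j)⟫ ^ 2) ν := fun j => by
    refine Integrable.of_bound
      (((ht.comp (hU _)).inner (hU _)).pow_const 2).aestronglyMeasurable ((C + C) ^ 2)
      (Filter.Eventually.of_forall fun ω => ?_)
    rw [norm_pow]
    refine pow_le_pow_left₀ (norm_nonneg _) ((norm_inner_le_norm _ _).trans ?_) 2
    rw [LinearIsometryEquiv.norm_map, c1_ee, mul_one]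
    exact hb _ (by rw [LinearIsometryEquiv.norm_map, c1_ee])
  have h1 : ∫ u, ‖tn x u‖ ^ 2 ∂sph d = ∑ j, ∫ ω, ⟪tn x (U ω (ee i)), U ω (ee j)⟫ ^ 2 ∂ν := by
    rw [← integral_finsetSum _ fun j _ => hi j,
      ← c1_law H (c1_ee i) (Φ := fun u => ‖tn x u‖ ^ 2) (ht.norm.pow_const 2)]
    refine integral_congr_ae (Filter.Eventually.of_forall fun ω => ?_)
    have h2 := ((EuclideanSpace.basisFun (Fin d) ℝ).map (U ω)).sum_sq_inner_left
      (tn x (U ω (ee i)))
    simp only [OrthonormalBasis.map_apply, EuclideanSpace.basisFun_apply] at h2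
    exact h2.symm
  have h0 : ∫ ω, ⟪tn x (U ω (ee i)), U ω (ee i)⟫ ^ 2 ∂ν = 0 := by
    have h2 : ∀ ω, ⟪tn x (U ω (ee i)), U ω (ee i)⟫ = 0 := fun ω => by
      rw [tn, inner_sub_left, inner_smul_left, real_inner_self_eq_norm_sq,
        LinearIsometryEquiv.norm_map, c1_ee]
      simp
    simp [h2]
  rw [h1, ← Finset.add_sum_erase _ _ (Finset.mem_univ i), h0, zero_add,
    Finset.sum_congr rfl fun j hj => c1_rep H he he' hee (c1_ee i) (c1_ee j)
      (c1_ee2 (Finset.ne_of_mem_erase hj).symm) fun y y' => ⟪tn x y, y'⟫ ^ 2,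
    Finset.sum_const, Finset.card_erase_of_mem (Finset.mem_univ i), Finset.card_fin,
    nsmul_eq_mul, Nat.cast_pred (by omega), mul_div_cancel_left₀ _ (by linarith)]

end

end Pool.Agent.Lib.MP_77d991_gt.Ex
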