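import Pool.Agent.Lib.MP_77d991_gt.Ex.C1

open MeasureTheory ProbabilityTheory Set
open scoped RealInnerProductSpace

namespace Pool.Agent.Lib.MP_77d991_gt.Ex

open Pool.Agent.Lib.MP_77d991_gt.As

section
variable {d : ℕ} {Ω : Type} [MeasurableSpace Ω] {ν : Measure Ω} {U : Ω → (Eu d ≃ₗᵢ[ℝ] Eu d)}

lemma c2_on {e e' : Eu d} (he : ‖e‖ = 1) (he' : ‖e'‖ = 1) (hee : ⟪e, e'⟫ = 0) :
    Orthonormal ℝ ![e, e'] := by
  refine ⟨fun i => ?_, fun i j hij => ?_⟩
  · fin_cases i <;> simpa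
  · fin_cases i <;> fin_cases j
    · exact absurd rfl hij
    · simpa using hee
    · simpa [real_inner_comm] using hee
    · exact absurd rfl hij

/-- Two unit vectors with inner product `t` can be moved to `(e, rot e e' t)`. -/
theorem exists_iso_rot {e e' y y' : Eu d} (he : ‖e‖ = 1) (he' : ‖e'‖ = 1) (hee : ⟪e, e'⟫ = 0)
    (hy : ‖y‖ = 1) (hy' : ‖y'‖ = 1) :
    ∃ O : Eu d ≃ₗᵢ[ℝ] Eu d, O e = y ∧ O (rot e e' ⟪y, y'⟫) = y' := by
  set t := ⟪y, y'⟫ with ht
  set z := y' - t • y with hz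
  have hyy : ⟪y, y⟫ = 1 := by rw [real_inner_self_eq_norm_sq, hy]; norm_num
  have hyz : ⟪y, z⟫ = 0 := by rw [hz, inner_sub_right, inner_smul_right, hyy, ← ht]; ring
  have hn : ‖z‖ ^ 2 = 1 - t ^ 2 := by
    rw [hz, norm_sub_sq_real, hy', norm_smul, hy, inner_smul_right, real_inner_comm, ← ht,
      Real.norm_eq_abs, mul_one, sq_abs]
    ring
  have hs : √(1 - t ^ 2) = ‖z‖ := by rw [← hn, Real.sqrt_sq (norm_nonneg _)]
  by_cases h0 : z = 0
  · have o1 : Orthonormal ℝ ![e] := ⟨fun i => by fin_cases i; simpa, fun i j hij =>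
      absurd (Subsingleton.elim i j) hij⟩
    have o2 : Orthonormal ℝ ![y] := ⟨fun i => by fin_cases i; simpa, fun i j hij =>
      absurd (Subsingleton.elim i j) hij⟩
    obtain ⟨O, hO⟩ := exists_iso_frame _ _ o1 o2
    have h1 : O e = y := by simpa using hO 0
    refine ⟨O, h1, ?_⟩
    rw [rot, hs, h0, norm_zero, zero_smul, add_zero, map_smul, h1]
    rw [hz] at h0
    exact (sub_eq_zero.1 h0).symm
  · have hz1 : ‖nz z‖ = 1 := asxi_nz_one h0
    have hyz' : ⟪y, nz z⟫ = 0 := by rw [nz, inner_smul_right, hyz, mul_zero]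
    obtain ⟨O, hO⟩ := exists_iso_frame _ _ (c2_on he he' hee) (c2_on hy hz1 hyz')
    have h1 : O e = y := by simpa using hO 0
    have h2 : O e' = nz z := by simpa using hO 1
    refine ⟨O, h1, ?_⟩
    rw [rot, hs, map_add, map_smul, map_smul, h1, h2, asrad_smul_nz, hz]
    abel

lemma c2_meas_inner : Measurable fun p : Eu d × Eu d => ⟪p.1, p.2⟫ :=
  (continuous_fst.inner continuous_snd).measurable

/-- the inner product of two independent uniform unit vectors. -/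
lemma c2_map (n : ℕ) :
    ((sph (n + 1)).prod (sph (n + 1))).map (fun p : Eu (n + 1) × Eu (n + 1) => ⟪p.1, p.2⟫) =
      tl n := by
  refine Measure.ext fun s hs => ?_
  rw [Measure.map_apply c2_meas_inner hs, Measure.prod_apply_symm (c2_meas_inner hs)]
  have h1 : ∀ᵐ y ∂sph (n + 1), sph (n + 1) ((fun x => (x, y)) ⁻¹'
      ((fun p : Eu (n + 1) × Eu (n + 1) => ⟪p.1, p.2⟫) ⁻¹' s)) = tl n s := by
    filter_upwards [sph_unit (Nat.succ_pos n)] with y hy
    have hm : Measurable fun u : Eu (n + 1) => ⟪u, y⟫ :=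
      (continuous_id.inner continuous_const).measurable
    rw [← map_inner_sph hy, Measure.map_apply hm hs]
    rfl
  rw [lintegral_congr_ae h1]
  simp

lemma c2_ae (hd : 0 < d) : ∀ᵐ p ∂(sph d).prod (sph d), ‖p.1‖ = 1 ∧ ‖p.2‖ = 1 := by
  have h1 := Measure.quasiMeasurePreserving_fst (μ := sph d) (ν := sph d)
  have h2 := Measure.quasiMeasurePreserving_snd (μ := sph d) (ν := sph d)
  filter_upwards [h1.ae (sph_unit hd), h2.ae (sph_unit hd)] with p a b using ⟨a, b⟩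

lemma c2_meas_rot (e e' : Eu d) : Measurable (rot e e') := by
  have : Continuous (rot e e') := by unfold rot; fun_prop
  exact this.measurable

lemma c2_meas_phi (H : Haar ν U) (e e' : Eu d) {Ψ : Eu d × Eu d → ℝ} (hΨ : Measurable Ψ) :
    Measurable fun q : ℝ × Ω => Ψ (U q.2 e, U q.2 (rot e e' q.1)) :=
  hΨ.comp ((H.meas.comp (measurable_snd.prodMk measurable_const)).prodMk
    (H.meas.comp (measurable_snd.prodMk ((c2_meas_rot e e').comp measurable_fst))))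

lemma c2_pt (H : Haar ν U) {e e' y y' : Eu d} (he : ‖e‖ = 1) (he' : ‖e'‖ = 1) (hee : ⟪e, e'⟫ = 0)
    (hy : ‖y‖ = 1) (hy' : ‖y'‖ = 1) (Ψ : Eu d × Eu d → ℝ) :
    ∫ ω, Ψ (U ω y, U ω y') ∂ν = ∫ ω, Ψ (U ω e, U ω (rot e e' ⟪y, y'⟫)) ∂ν := by
  obtain ⟨O, h1, h2⟩ := exists_iso_rot he he' hee hy hy'
  have h := H.inv O (fun θ => Ψ (θ 0, θ 1)) (fun i => if i = 0 then e else rot e e' ⟪y, y'⟫)
  simp only [if_true, one_ne_zero, if_false, h1, h2] at h
  exact h

/-- Two independent uniform unit vectors of a subspace, moved by the random isometry: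
`exists_iso_rot`, `inv`, then `map_inner_sph`. -/
theorem Haar.two (H : Haar ν U) {n : ℕ} (J : Eu (n + 1) →ₗᵢ[ℝ] Eu d) {e e' : Eu d} (he : ‖e‖ = 1)
    (he' : ‖e'‖ = 1) (hee : ⟪e, e'⟫ = 0) {Ψ : Eu d × Eu d → ℝ} (hΨ : Measurable Ψ) {C : ℝ}
    (hb : ∀ y y', ‖y‖ = 1 → ‖y'‖ = 1 → |Ψ (y, y')| ≤ C) :
    ∫ p : Eu (n + 1) × Eu (n + 1), ∫ ω, Ψ (U ω (J p.1), U ω (J p.2)) ∂ν
        ∂(sph (n + 1)).prod (sph (n + 1)) =
      ∫ t, ∫ ω, Ψ (U ω e, U ω (rot e e' t)) ∂ν ∂tl n := by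
  have := H.prob
  have _ := hb
  have hm : StronglyMeasurable fun t => ∫ ω, Ψ (U ω e, U ω (rot e e' t)) ∂ν :=
    (c2_meas_phi H e e' hΨ).stronglyMeasurable.integral_prod_right'
  rw [← c2_map n, integral_map c2_meas_inner.aemeasurable hm.aestronglyMeasurable]
  refine integral_congr_ae ?_
  filter_upwards [c2_ae (Nat.succ_pos n)] with p hp
  rw [c2_pt H he he' hee (by rw [J.norm_map, hp.1]) (by rw [J.norm_map, hp.2]) Ψ,
    J.inner_map_map]

/-- The case of the whole space: Fubini and `sph_map`. -/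
theorem Haar.full {n : ℕ} {U : Ω → (Eu (n + 1) ≃ₗᵢ[ℝ] Eu (n + 1))} (H : Haar ν U)
    {e e' : Eu (n + 1)} (he : ‖e‖ = 1) (he' : ‖e'‖ = 1) (hee : ⟪e, e'⟫ = 0)
    {Ψ : Eu (n + 1) × Eu (n + 1) → ℝ} (hΨ : Measurable Ψ) {C : ℝ}
    (hb : ∀ y y', ‖y‖ = 1 → ‖y'‖ = 1 → |Ψ (y, y')| ≤ C) :
    ∫ p, Ψ p ∂(sph (n + 1)).prod (sph (n + 1)) =
      ∫ t, ∫ ω, Ψ (U ω e, U ω (rot e e' t)) ∂ν ∂tl n := by
  have := H.prob
  rw [← H.two LinearIsometry.id he he' hee hΨ hb]
  simp only [LinearIsometry.id_apply]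
  have hm : Measurable fun q : (Eu (n + 1) × Eu (n + 1)) × Ω => Ψ (U q.2 q.1.1, U q.2 q.1.2) :=
    hΨ.comp ((H.meas.comp (measurable_snd.prodMk (measurable_fst.comp measurable_fst))).prodMk
      (H.meas.comp (measurable_snd.prodMk (measurable_snd.comp measurable_fst))))
  have hi : Integrable (Function.uncurry fun (p : Eu (n + 1) × Eu (n + 1)) (ω : Ω) =>
      Ψ (U ω p.1, U ω p.2)) (((sph (n + 1)).prod (sph (n + 1))).prod ν) := by
    refine Integrable.of_bound hm.aestronglyMeasurable C ?_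
    have h1 := Measure.quasiMeasurePreserving_fst (μ := (sph (n + 1)).prod (sph (n + 1))) (ν := ν)
    filter_upwards [h1.ae (c2_ae (Nat.succ_pos n))] with q hq
    exact hb _ _ (by rw [LinearIsometryEquiv.norm_map, hq.1])
      (by rw [LinearIsometryEquiv.norm_map, hq.2])
  rw [integral_integral_swap hi]
  have h2 : ∀ ω, ∫ p, Ψ (U ω p.1, U ω p.2) ∂(sph (n + 1)).prod (sph (n + 1)) =
      ∫ p, Ψ p ∂(sph (n + 1)).prod (sph (n + 1)) := by
    intro ω
    have hU : Measurable (U ω) := (U ω).continuous.measurable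
    have h3 : ((sph (n + 1)).prod (sph (n + 1))).map (Prod.map (U ω) (U ω)) =
        (sph (n + 1)).prod (sph (n + 1)) := by
      rw [← Measure.map_prod_map _ _ hU hU, sph_map]
    conv_rhs => rw [← h3]
    rw [integral_map (hU.prodMap hU).aemeasurable hΨ.aestronglyMeasurable]
    rfl
  simp only [h2]
  simp

end

end Pool.Agent.Lib.MP_77d991_gt.Ex
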