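import Pool.Agent.Lib.MP_77d991_gt.Ex.A6

open MeasureTheory ProbabilityTheory Set
open scoped RealInnerProductSpace

namespace Pool.Agent.Lib.MP_77d991_gt.Ex

open Pool.Agent.Lib.MP_77d991_gt.As

/-- the part of the kernel of the squared transform above its tangent line at `t² = 1/(n+2)`. -/
noncomputable def gap (n : ℕ) (t : ℝ) : ℝ :=
  ad n / ad (n + 1) * ((√(1 - t ^ 2))⁻¹ - (√(1 - 1 / ((n : ℝ) + 2)))⁻¹ -
    (√(1 - 1 / ((n : ℝ) + 2)))⁻¹ ^ 3 / 2 * (t ^ 2 - 1 / ((n : ℝ) + 2)))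

lemma c3_nonneg {n : ℕ} (hn : 0 < n) (t : ℝ) : 0 ≤ ad n / ad (n + 1) / √(1 - t ^ 2) :=
  div_nonneg (div_nonneg (ad_pos hn).le (ad_pos (Nat.succ_pos n)).le) (Real.sqrt_nonneg _)

lemma c3_meas (n : ℕ) :
    Measurable fun t : ℝ => ENNReal.ofReal (ad n / ad (n + 1) / √(1 - t ^ 2)) := by
  fun_prop

lemma c3_integral {n : ℕ} (hn : 0 < n) :
    ∫ t, ad n / ad (n + 1) * (√(1 - t ^ 2))⁻¹ ∂tl (n + 1) = 1 := by
  have h : ∫ _t : ℝ, (1 : ℝ) ∂tl n = 1 := by simp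
  rw [tl_dens hn, integral_withDensity_eq_integral_toReal_smul (c3_meas n)
    (Filter.Eventually.of_forall fun _ => ENNReal.ofReal_lt_top)] at h
  refine Eq.trans (integral_congr_ae (Filter.Eventually.of_forall fun t => ?_)) h
  simp only
  rw [ENNReal.toReal_ofReal (c3_nonneg hn t), smul_eq_mul, div_eq_mul_inv _ (√_), mul_one]

lemma c3_int {n : ℕ} (hn : 0 < n) :
    Integrable (fun t : ℝ => ad n / ad (n + 1) * (√(1 - t ^ 2))⁻¹) (tl (n + 1)) := by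
  by_contra h
  have h1 := c3_integral hn
  rw [integral_undef h] at h1
  exact zero_ne_one h1

lemma c3_sq (n : ℕ) : ∫ t, t ^ 2 ∂tl n = 1 / ((n : ℝ) + 1) := by
  have hm : Measurable fun u : Eu (n + 1) => u 0 := by fun_prop
  have hq : Measurable fun t : ℝ => t ^ 2 := by fun_prop
  rw [tl, integral_map hm.aemeasurable hq.aestronglyMeasurable]
  have h := lin_sph (Nat.succ_pos n) (ee (0 : Fin (n + 1))) (ee 0)
  have h1 : ∀ u : Eu (n + 1), ⟪ee (0 : Fin (n + 1)), u⟫ = u 0 := fun u => by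
    simp [ee, EuclideanSpace.inner_single_left]
  simp only [h1] at h
  simp only [sq]
  rw [h]
  simp [ee]

lemma c3_sq_int (n : ℕ) : Integrable (fun t : ℝ => t ^ 2) (tl n) := by
  by_contra h
  have h1 := c3_sq n
  rw [integral_undef h] at h1
  have : (0 : ℝ) < 1 / ((n : ℝ) + 1) := by positivity
  exact this.ne h1

lemma c3_conv {s s0 : ℝ} (hs : 0 < s) (h0 : 0 < s0) :
    0 ≤ s⁻¹ - s0⁻¹ - s0⁻¹ ^ 3 / 2 * (s0 ^ 2 - s ^ 2) := by
  have : s⁻¹ - s0⁻¹ - s0⁻¹ ^ 3 / 2 * (s0 ^ 2 - s ^ 2) =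
      (s - s0) ^ 2 * (s + 2 * s0) / (2 * s * s0 ^ 3) := by
    field_simp
    ring
  rw [this]
  positivity

lemma c3_low {m : ℝ} (hm : 1 ≤ m) :
    1 + 1 / (2 * m) - 1 / (8 * m ^ 2) ≤ (√(1 - 1 / (m + 1)))⁻¹ := by
  have h0 : 0 < m := by linarith
  have e1 : 1 - 1 / (m + 1) = (1 + 1 / m)⁻¹ := by field_simp; ring
  rw [e1, Real.sqrt_inv, inv_inv]
  refine Real.le_sqrt_of_sq_le ?_
  have hx : 0 < 1 / m := by positivity
  have hx1 : 1 / m ≤ 1 := by rw [div_le_one h0]; exact hm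
  have e2 : 1 / (2 * m) = (1 / m) / 2 := by field_simp
  have e3 : 1 / (8 * m ^ 2) = (1 / m) ^ 2 / 8 := by field_simp
  rw [e2, e3]
  generalize 1 / m = x at hx hx1
  have : 0 ≤ x ^ 3 * (8 - x) := mul_nonneg (by positivity) (by linarith)
  nlinarith

lemma c3_num {n : ℝ} (hn : 30 ≤ n) :
    1 - (1 - 1 / (2 * n)) * (1 + 1 / (2 * (n + 1)) - 1 / (8 * (n + 1) ^ 2)) ≤
      9 / 10 / (n + 1) ^ 2 := by
  have h0 : 0 < n := by linarith
  have e : 9 / 10 / (n + 1) ^ 2 -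
      (1 - (1 - 1 / (2 * n)) * (1 + 1 / (2 * (n + 1)) - 1 / (8 * (n + 1) ^ 2))) =
      (2 * n - 55) / (80 * n * (n + 1) ^ 2) := by
    field_simp
    ring
  have : 0 ≤ (2 * n - 55) / (80 * n * (n + 1) ^ 2) := div_nonneg (by linarith) (by positivity)
  linarith

/-- Convexity of `y ↦ (1-y)^(-1/2)`; the mean is `1 - (ad n / ad (n+1)) √((n+2)/(n+1))` by
`tl_dens` and `lin_sph`, and `ad n / ad (n+1) = ad n ^ 2 / n ≥ 1 - 1/(2n)`; the limit is `7/8`. -/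
theorem gap_int : ∃ n0 : ℕ, ∀ n ≥ n0, (∀ t, |t| < 1 → 0 ≤ gap n t) ∧ Integrable (gap n) (tl (n + 1)) ∧
    ∫ t, gap n t ∂tl (n + 1) ≤ 9 / 10 / ((n : ℝ) + 1) ^ 2 := by
  refine ⟨30, fun n hn => ?_⟩
  have hn0 : 0 < n := by omega
  have hn' : (30 : ℝ) ≤ n := by exact_mod_cast hn
  have a0 := ad_pos hn0
  have a1 := ad_pos (Nat.succ_pos n)
  have hc : 0 < ad n / ad (n + 1) := div_pos a0 a1
  have hy : 0 < 1 - 1 / ((n : ℝ) + 2) := by
    rw [sub_pos, div_lt_one (by linarith)]; linarith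
  set c := ad n / ad (n + 1) with hcdef
  set a := (√(1 - 1 / ((n : ℝ) + 2)))⁻¹ with hadef
  have hg : gap n = fun t => c * (√(1 - t ^ 2))⁻¹ - c * a -
      c * (a ^ 3 / 2) * (t ^ 2 - 1 / ((n : ℝ) + 2)) := by
    funext t
    rw [gap]
    ring
  have i1 := c3_int hn0
  have i2 : Integrable (fun _ : ℝ => c * a) (tl (n + 1)) := integrable_const _
  have i3 : Integrable (fun t : ℝ => t ^ 2 - 1 / ((n : ℝ) + 2)) (tl (n + 1)) :=
    (c3_sq_int (n + 1)).sub (integrable_const _)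
  have i12 : Integrable (fun t : ℝ => c * (√(1 - t ^ 2))⁻¹ - c * a) (tl (n + 1)) := i1.sub i2
  refine ⟨fun t ht => ?_, ?_, ?_⟩
  · have h1 : 0 < 1 - t ^ 2 := by
      have := (sq_lt_one_iff_abs_lt_one t).2 ht
      linarith
    have h2 := c3_conv (Real.sqrt_pos.2 h1) (Real.sqrt_pos.2 hy)
    rw [Real.sq_sqrt h1.le, Real.sq_sqrt hy.le] at h2
    refine mul_nonneg hc.le (le_of_le_of_eq h2 ?_)
    ring
  · rw [hg]
    exact i12.sub (i3.const_mul _)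
  · rw [hg, integral_sub i12 (i3.const_mul _), integral_sub i1 i2, c3_integral hn0,
      integral_const_mul (c * (a ^ 3 / 2)),
      integral_sub (c3_sq_int (n + 1)) (integrable_const _), c3_sq]
    have e1 : ((n + 1 : ℕ) : ℝ) + 1 = (n : ℝ) + 2 := by push_cast; ring
    simp only [integral_const, probReal_univ, smul_eq_mul, one_mul, e1, sub_self, mul_zero,
      sub_zero]
    have hn1 : (0 : ℝ) < n := by linarith
    have h1 : 1 - 1 / (2 * (n : ℝ)) ≤ c := by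
      have e2 : c = ad n ^ 2 / n := by
        rw [hcdef, ← ad_mul n]
        field_simp
      have e3 : 1 - 1 / (2 * (n : ℝ)) = ((n : ℝ) - 1 / 2) / n := by field_simp
      rw [e2, e3]
      exact div_le_div_of_nonneg_right (ad_sq_ge n) hn1.le
    have h2 : 1 + 1 / (2 * ((n : ℝ) + 1)) - 1 / (8 * ((n : ℝ) + 1) ^ 2) ≤ a := by
      have := c3_low (m := (n : ℝ) + 1) (by linarith)
      rwa [add_assoc (n : ℝ) 1 1, one_add_one_eq_two] at this
    have h3 : 0 ≤ 1 + 1 / (2 * ((n : ℝ) + 1)) - 1 / (8 * ((n : ℝ) + 1) ^ 2) := by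
      have : 1 / (8 * ((n : ℝ) + 1) ^ 2) ≤ 1 := by
        rw [div_le_one (by positivity)]; nlinarith
      have : 0 ≤ 1 / (2 * ((n : ℝ) + 1)) := by positivity
      linarith
    have h4 := mul_le_mul h1 h2 h3 hc.le
    have h5 := c3_num hn'
    linarith

end Pool.Agent.Lib.MP_77d991_gt.Ex
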