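import Pool.Agent.Lib.MP_77d991_gt.Ex.C2

open MeasureTheory ProbabilityTheory Set
open scoped RealInnerProductSpace

namespace Pool.Agent.Lib.MP_77d991_gt.Ex

open Pool.Agent.Lib.MP_77d991_gt.As

lemma c4_nonneg {n : ℕ} (hn : 0 < n) (t : ℝ) : 0 ≤ ad n / ad (n + 1) / √(1 - t ^ 2) :=
  div_nonneg (div_nonneg (ad_pos hn).le (ad_pos (Nat.succ_pos n)).le) (Real.sqrt_nonneg _)

lemma c4_meas (n : ℕ) :
    Measurable fun t : ℝ => ENNReal.ofReal (ad n / ad (n + 1) / √(1 - t ^ 2)) := by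
  fun_prop

lemma c4_integral {n : ℕ} (hn : 0 < n) (Φ : ℝ → ℝ) :
    ∫ t, Φ t ∂tl n = ∫ t, Φ t * (ad n / ad (n + 1) * (√(1 - t ^ 2))⁻¹) ∂tl (n + 1) := by
  conv_lhs => rw [tl_dens hn]
  rw [integral_withDensity_eq_integral_toReal_smul (c4_meas n)
    (Filter.Eventually.of_forall fun _ => ENNReal.ofReal_lt_top)]
  refine integral_congr_ae (Filter.Eventually.of_forall fun t => ?_)
  simp only
  rw [ENNReal.toReal_ofReal (c4_nonneg hn t), smul_eq_mul, div_eq_mul_inv _ (√_), mul_comm]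

lemma c4_int {n : ℕ} (hn : 0 < n) : Integrable (fun t : ℝ => (√(1 - t ^ 2))⁻¹) (tl (n + 1)) := by
  have h1 : Integrable (fun _ : ℝ => ad (n + 1) / ad n) (tl n) := integrable_const _
  rw [tl_dens hn, integrable_withDensity_iff (c4_meas n)
    (Filter.Eventually.of_forall fun _ => ENNReal.ofReal_lt_top)] at h1
  refine h1.congr (Filter.Eventually.of_forall fun t => ?_)
  simp only
  have a := (ad_pos hn).ne'
  have b := (ad_pos (Nat.succ_pos n)).ne'
  rw [ENNReal.toReal_ofReal (c4_nonneg hn t), div_eq_mul_inv _ (√_), ← mul_assoc,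
    div_mul_div_comm, mul_comm (ad (n + 1)), div_self (mul_ne_zero a b), one_mul]

section
variable {Ω : Type} [MeasurableSpace Ω] {ν : Measure Ω}

lemma c4_mT {d : ℕ} {U : Ω → (Eu d ≃ₗᵢ[ℝ] Eu d)} (H : Haar ν U) (e e' : Eu d) :
    Measurable fun q : ℝ × Ω => (U q.2 e, U q.2 (rot e e' q.1)) :=
  (H.meas.comp (measurable_snd.prodMk measurable_const)).prodMk
    (H.meas.comp (measurable_snd.prodMk ((c2_meas_rot e e').comp measurable_fst)))

/-- `Haar.full` as an identity of measures. -/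
lemma c4_law {n : ℕ} {U : Ω → (Eu (n + 1) ≃ₗᵢ[ℝ] Eu (n + 1))} (H : Haar ν U)
    {e e' : Eu (n + 1)} (he : ‖e‖ = 1) (he' : ‖e'‖ = 1) (hee : ⟪e, e'⟫ = 0) :
    (sph (n + 1)).prod (sph (n + 1)) =
      ((tl n).prod ν).map fun q : ℝ × Ω => (U q.2 e, U q.2 (rot e e' q.1)) := by
  have := H.prob
  have hT := c4_mT H e e'
  have : IsProbabilityMeasure
      (((tl n).prod ν).map fun q : ℝ × Ω => (U q.2 e, U q.2 (rot e e' q.1))) :=
    Measure.isProbabilityMeasure_map hT.aemeasurable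
  refine Measure.ext fun s hs => ?_
  have hΨ : Measurable (s.indicator (1 : Eu (n + 1) × Eu (n + 1) → ℝ)) :=
    measurable_const.indicator hs
  have hb : ∀ p, |s.indicator (1 : Eu (n + 1) × Eu (n + 1) → ℝ) p| ≤ 1 := by
    intro p
    by_cases h : p ∈ s <;> simp [h]
  have h1 := H.full he he' hee hΨ (C := 1) fun y y' _ _ => hb _
  have hi : Integrable (fun q : ℝ × Ω =>
      s.indicator (1 : Eu (n + 1) × Eu (n + 1) → ℝ) (U q.2 e, U q.2 (rot e e' q.1)))
      ((tl n).prod ν) :=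
    Integrable.of_bound (hΨ.comp hT).aestronglyMeasurable 1
      (Filter.Eventually.of_forall fun q => hb _)
  have h2 := integral_prod _ hi
  rw [← (ENNReal.toReal_eq_toReal_iff' (measure_ne_top _ _) (measure_ne_top _ _))]
  change Measure.real _ s = Measure.real _ s
  rw [← integral_indicator_one hs, ← integral_indicator_one hs, h1,
    integral_map hT.aemeasurable hΨ.aestronglyMeasurable, h2]

lemma c4_inner {d : ℕ} {e e' : Eu d} (he : ‖e‖ = 1) (hee : ⟪e, e'⟫ = 0) (t : ℝ) :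
    ⟪e, rot e e' t⟫ = t := by
  rw [rot, inner_add_right, inner_smul_right, inner_smul_right, hee, real_inner_self_eq_norm_sq, he]
  ring

end

lemma c4_ee {d : ℕ} (i : Fin d) : ‖ee i‖ = 1 := by simp [ee]

lemma c4_ee2 {d : ℕ} {i j : Fin d} (h : i ≠ j) : ⟪ee i, ee j⟫ = 0 := by
  simp [ee, EuclideanSpace.inner_single_left, h]

/-- `Haar.law`, `Fk_eq` twice with one `J`, Fubini, `Haar.two`, `tl_dens`, and `Haar.full` read as an
identity of measures (or with truncated kernel and dominated convergence). -/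
theorem Fk_kernel {n : ℕ} (hn : 0 < n) {F G : Eu (n + 2) → ℝ} {C C' : ℝ} (hF : Bm F C)
    (hG : Bm G C') :
    Integrable (fun p : Eu (n + 2) × Eu (n + 2) => (√(1 - ⟪p.1, p.2⟫ ^ 2))⁻¹)
      ((sph (n + 2)).prod (sph (n + 2))) ∧
    ∫ u, Fk F u * Fk G u ∂sph (n + 2) =
      ∫ p, F p.1 * G p.2 * (ad n / ad (n + 1) * (√(1 - ⟪p.1, p.2⟫ ^ 2))⁻¹)
        ∂(sph (n + 2)).prod (sph (n + 2)) := by
  have hk : Measurable fun t : ℝ => (√(1 - t ^ 2))⁻¹ := by fun_prop
  have hI : Integrable (fun p : Eu (n + 2) × Eu (n + 2) => (√(1 - ⟪p.1, p.2⟫ ^ 2))⁻¹)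
      ((sph (n + 2)).prod (sph (n + 2))) := by
    have h1 := c4_int hn
    rw [← c2_map (n + 1)] at h1
    exact (integrable_map_measure hk.aestronglyMeasurable c2_meas_inner.aemeasurable).1 h1
  refine ⟨hI, ?_⟩
  obtain ⟨Ω, _, ν, U, H⟩ := exists_Haar (n + 2)
  have := H.prob
  set e : Eu (n + 2) := ee 0 with hedef
  set e' : Eu (n + 2) := ee 1 with he'def
  have he : ‖e‖ = 1 := c4_ee _
  have he' : ‖e'‖ = 1 := c4_ee _
  have hee : ⟪e, e'⟫ = 0 := c4_ee2 Fin.zero_ne_one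
  have o1 : Orthonormal ℝ ![e] := ⟨fun i => by fin_cases i; simpa, fun i j hij =>
    absurd (Subsingleton.elim i j) hij⟩
  obtain ⟨J, hJ, -⟩ := exists_J (n := n + 1) (k := 1) ![e] o1
  have hJ' : ∀ s, ⟪J s, e⟫ = 0 := fun s => by simpa using hJ s 0
  have hC : 0 ≤ C := (norm_nonneg _).trans (hF.2 0)
  have hΨ : Measurable fun p : Eu (n + 2) × Eu (n + 2) => F p.1 * G p.2 :=
    (hF.1.comp measurable_fst).mul (hG.1.comp measurable_snd)
  have hb : ∀ y y' : Eu (n + 2), |F y * G y'| ≤ C * C' := by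
    intro y y'
    rw [abs_mul]
    exact mul_le_mul (hF.2 y) (hG.2 y') (abs_nonneg _) hC
  have hUe : Measurable fun ω => U ω e := H.meas.comp (measurable_id.prodMk measurable_const)
  have s1 : ∫ u, Fk F u * Fk G u ∂sph (n + 2) = ∫ ω, Fk F (U ω e) * Fk G (U ω e) ∂ν := by
    have hm : Measurable fun u => Fk F u * Fk G u := (Fk_bm hF).1.mul (Fk_bm hG).1
    rw [← H.law he, integral_map hUe.aemeasurable hm.aestronglyMeasurable]
  have s2 : ∀ ω, Fk F (U ω e) * Fk G (U ω e) =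
      ∫ p : Eu (n + 1) × Eu (n + 1), F (U ω (J p.1)) * G (U ω (J p.2))
        ∂(sph (n + 1)).prod (sph (n + 1)) := by
    intro ω
    rw [Fk_eq hF he J hJ', Fk_eq hG he J hJ',
      integral_prod_mul (fun z => F (U ω (J z))) (fun z => G (U ω (J z)))]
  have hJm : Measurable J := J.continuous.measurable
  have hm : Measurable fun q : Ω × (Eu (n + 1) × Eu (n + 1)) =>
      F (U q.1 (J q.2.1)) * G (U q.1 (J q.2.2)) :=
    (hF.1.comp (H.meas.comp (measurable_fst.prodMk
      (hJm.comp (measurable_fst.comp measurable_snd))))).mul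
    (hG.1.comp (H.meas.comp (measurable_fst.prodMk
      (hJm.comp (measurable_snd.comp measurable_snd)))))
  have hi : Integrable (Function.uncurry fun (ω : Ω) (p : Eu (n + 1) × Eu (n + 1)) =>
      F (U ω (J p.1)) * G (U ω (J p.2))) (ν.prod ((sph (n + 1)).prod (sph (n + 1)))) :=
    Integrable.of_bound hm.aestronglyMeasurable (C * C')
      (Filter.Eventually.of_forall fun q => hb _ _)
  have s3 := H.two J he he' hee hΨ (C := C * C') fun y y' _ _ => hb y y'
  rw [s1]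
  simp only [s2]
  rw [integral_integral_swap hi]
  refine s3.trans ?_
  rw [c4_integral hn]
  have hT := c4_mT H e e'
  have hΞ : Measurable fun p : Eu (n + 2) × Eu (n + 2) =>
      F p.1 * G p.2 * (ad n / ad (n + 1) * (√(1 - ⟪p.1, p.2⟫ ^ 2))⁻¹) :=
    hΨ.mul ((hk.comp c2_meas_inner).const_mul _)
  have hI2 : Integrable (fun p : Eu (n + 2) × Eu (n + 2) =>
      F p.1 * G p.2 * (ad n / ad (n + 1) * (√(1 - ⟪p.1, p.2⟫ ^ 2))⁻¹))
      ((sph (n + 2)).prod (sph (n + 2))) :=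
    (hI.const_mul _).bdd_mul hΨ.aestronglyMeasurable (c := C * C')
      (Filter.Eventually.of_forall fun p => hb _ _)
  rw [c4_law H he he' hee] at hI2 ⊢
  rw [integral_map hT.aemeasurable hΞ.aestronglyMeasurable]
  refine Eq.trans ?_
    (integral_prod _ ((integrable_map_measure hΞ.aestronglyMeasurable hT.aemeasurable).1 hI2)).symm
  refine integral_congr_ae (Filter.Eventually.of_forall fun t => ?_)
  simp only [Function.comp, LinearIsometryEquiv.inner_map_map, c4_inner he hee]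
  rw [integral_mul_const]

end Pool.Agent.Lib.MP_77d991_gt.Ex
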