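import Pool.Agent.Lib.MP_77d991_gt.Ex.C3
import Pool.Agent.Lib.MP_77d991_gt.Ex.C4

open MeasureTheory ProbabilityTheory Set
open scoped RealInnerProductSpace

namespace Pool.Agent.Lib.MP_77d991_gt.Ex

open Pool.Agent.Lib.MP_77d991_gt.As

lemma c5_int {α : Type*} [MeasurableSpace α] {μ : Measure α} [IsFiniteMeasure μ] {F : α → ℝ} {C : ℝ}
    (hF : Bm F C) : Integrable F μ :=
  Integrable.of_bound hF.1.aestronglyMeasurable C (Filter.Eventually.of_forall hF.2)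

lemma c5_mul {α : Type*} [MeasurableSpace α] {F G : α → ℝ} {C C' : ℝ} (hF : Bm F C) (hG : Bm G C') :
    Bm (fun y => F y * G y) (C * C') :=
  ⟨hF.1.mul hG.1, fun y => by
    rw [norm_mul]
    exact mul_le_mul (hF.2 y) (hG.2 y) (norm_nonneg _) ((norm_nonneg _).trans (hF.2 y))⟩

lemma c5_abs {α : Type*} [MeasurableSpace α] {F : α → ℝ} {C : ℝ} (hF : Bm F C) :
    Bm (fun y => |F y|) C :=
  ⟨hF.1.abs, fun y => by simpa using hF.2 y⟩

lemma c5_fst {α β : Type*} [MeasurableSpace α] [MeasurableSpace β] {F : α → ℝ} {C : ℝ}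
    (hF : Bm F C) : Bm (fun p : α × β => F p.1) C :=
  ⟨hF.1.comp measurable_fst, fun p => hF.2 p.1⟩

lemma c5_snd {α β : Type*} [MeasurableSpace α] [MeasurableSpace β] {F : β → ℝ} {C : ℝ}
    (hF : Bm F C) : Bm (fun p : α × β => F p.2) C :=
  ⟨hF.1.comp measurable_snd, fun p => hF.2 p.2⟩

lemma c5_bmul {α : Type*} [MeasurableSpace α] {μ : Measure α} {F k : α → ℝ} {C : ℝ}
    (hF : Bm F C) (hk : Integrable k μ) : Integrable (fun y => F y * k y) μ :=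
  hk.bdd_mul hF.1.aestronglyMeasurable (c := C) (Filter.Eventually.of_forall hF.2)

lemma c5_kint {n : ℕ} {k : ℝ → ℝ} (hk : Measurable k) (hi : Integrable k (tl n)) :
    Integrable (fun p : Eu (n + 1) × Eu (n + 1) => k ⟪p.1, p.2⟫)
      ((sph (n + 1)).prod (sph (n + 1))) := by
  rw [← c2_map n] at hi
  exact (integrable_map_measure hk.aestronglyMeasurable c2_meas_inner.aemeasurable).1 hi

lemma c5_one {n : ℕ} {k : ℝ → ℝ} (hk : Measurable k) {y : Eu (n + 1)} (hy : ‖y‖ = 1) :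
    ∫ x, k ⟪x, y⟫ ∂sph (n + 1) = ∫ t, k t ∂tl n := by
  have hm : Measurable fun u : Eu (n + 1) => ⟪u, y⟫ :=
    (continuous_id.inner continuous_const).measurable
  rw [← map_inner_sph hy, integral_map hm.aemeasurable hk.aestronglyMeasurable]

lemma c5_schur2 {n : ℕ} {k : ℝ → ℝ} (hk : Measurable k) (hi : Integrable k (tl n))
    {H : Eu (n + 1) → ℝ} {C : ℝ} (hH : Bm H C) :
    ∫ p, H p.2 * k ⟪p.1, p.2⟫ ∂(sph (n + 1)).prod (sph (n + 1)) =
      (∫ u, H u ∂sph (n + 1)) * ∫ t, k t ∂tl n := by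
  rw [integral_prod_symm _ (c5_bmul (c5_snd hH) (c5_kint hk hi)), ← integral_mul_const]
  refine integral_congr_ae ?_
  filter_upwards [sph_unit (Nat.succ_pos n)] with y hy
  rw [integral_const_mul, c5_one hk hy]

lemma c5_schur1 {n : ℕ} {k : ℝ → ℝ} (hk : Measurable k) (hi : Integrable k (tl n))
    {H : Eu (n + 1) → ℝ} {C : ℝ} (hH : Bm H C) :
    ∫ p, H p.1 * k ⟪p.1, p.2⟫ ∂(sph (n + 1)).prod (sph (n + 1)) =
      (∫ u, H u ∂sph (n + 1)) * ∫ t, k t ∂tl n := by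
  rw [integral_prod _ (c5_bmul (c5_fst hH) (c5_kint hk hi)), ← integral_mul_const]
  refine integral_congr_ae ?_
  filter_upwards [sph_unit (Nat.succ_pos n)] with y hy
  rw [integral_const_mul, ← c5_one hk hy]
  simp only [real_inner_comm]

lemma c5_gap_meas (n : ℕ) : Measurable (gap n) := by
  unfold gap
  fun_prop

lemma c5_gap_ae {n : ℕ} (h : ∀ t, |t| < 1 → 0 ≤ gap n t) :
    ∀ᵐ p ∂(sph (n + 2)).prod (sph (n + 2)), 0 ≤ gap n ⟪p.1, p.2⟫ := by
  have h1 := tl_ae (Nat.succ_pos n)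
  rw [← c2_map (n + 1)] at h1
  filter_upwards [ae_of_ae_map c2_meas_inner.aemeasurable h1] with p hp using h _ hp

/-- the kernel splits into the gap, a constant and a multiple of `t ^ 2`. -/
lemma c5_split {n : ℕ} (hn : 0 < n) (hi : Integrable (gap n) (tl (n + 1))) :
    ∃ α β : ℝ, 0 ≤ β ∧ β ≤ 4 ∧ ∀ (F G : Eu (n + 2) → ℝ) (C C' : ℝ), Bm F C → Bm G C' →
      ∫ u, Fk F u * Fk G u ∂sph (n + 2) =
        ∫ p, F p.1 * G p.2 * gap n ⟪p.1, p.2⟫ ∂(sph (n + 2)).prod (sph (n + 2)) +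
          α * ((∫ u, F u ∂sph (n + 2)) * ∫ u, G u ∂sph (n + 2)) +
          β * ∫ x, F x * ∫ y, G y * ⟪y, x⟫ ^ 2 ∂sph (n + 2) ∂sph (n + 2) := by
  have a0 := ad_pos hn
  have a1 := ad_pos (Nat.succ_pos n)
  have hn1 : (0 : ℝ) < n := by exact_mod_cast hn
  set c := ad n / ad (n + 1) with hc
  set a := (√(1 - 1 / ((n : ℝ) + 2)))⁻¹ with ha
  have c0 : 0 ≤ c := (div_pos a0 a1).le
  have c1 : c ≤ 1 := by
    have e2 : c = ad n ^ 2 / n := by
      rw [hc, ← ad_mul n]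
      field_simp
    rw [e2, div_le_one hn1]
    exact ad_sq_le n
  have ha0 : 0 ≤ a := by positivity
  have ha2 : a ≤ 2 := by
    have h1 : 1 / ((n : ℝ) + 2) ≤ 1 / 2 := one_div_le_one_div_of_le (by norm_num) (by linarith)
    have h2 : (1 / 2 : ℝ) ≤ √(1 - 1 / ((n : ℝ) + 2)) := Real.le_sqrt_of_sq_le (by linarith)
    rw [ha, inv_le_comm₀ (by linarith) (by norm_num)]
    linarith
  refine ⟨c * a - c * (a ^ 3 / 2) * (1 / ((n : ℝ) + 2)), c * (a ^ 3 / 2), by positivity, ?_, ?_⟩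
  · have h1 : a ^ 3 ≤ 2 ^ 3 := pow_le_pow_left₀ ha0 ha2 3
    have h2 : 0 ≤ a ^ 3 := by positivity
    nlinarith
  intro F G C C' hF hG
  have hFG := c5_mul (c5_fst (β := Eu (n + 2)) hF) (c5_snd (α := Eu (n + 2)) hG)
  have hq : Measurable fun t : ℝ => t ^ 2 := by fun_prop
  have i1 := c5_bmul hFG (c5_kint (c5_gap_meas n) hi)
  have i2 : Integrable (fun p : Eu (n + 2) × Eu (n + 2) => F p.1 * G p.2)
    ((sph (n + 2)).prod (sph (n + 2))) := c5_int hFG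
  have i3 := c5_bmul hFG (c5_kint hq (c3_sq_int (n + 1)))
  have e3 : ∫ x, F x * ∫ y, G y * ⟪y, x⟫ ^ 2 ∂sph (n + 2) ∂sph (n + 2) =
      ∫ p, F p.1 * G p.2 * ⟪p.1, p.2⟫ ^ 2 ∂(sph (n + 2)).prod (sph (n + 2)) := by
    rw [integral_prod _ i3]
    refine integral_congr_ae (Filter.Eventually.of_forall fun x => ?_)
    simp only
    rw [← integral_const_mul]
    refine integral_congr_ae (Filter.Eventually.of_forall fun y => ?_)
    simp only
    rw [real_inner_comm, mul_assoc]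
  have i12 : Integrable (fun p : Eu (n + 2) × Eu (n + 2) => F p.1 * G p.2 * gap n ⟪p.1, p.2⟫ +
      (c * a - c * (a ^ 3 / 2) * (1 / ((n : ℝ) + 2))) * (F p.1 * G p.2))
      ((sph (n + 2)).prod (sph (n + 2))) := i1.add (i2.const_mul _)
  rw [(Fk_kernel hn hF hG).2, e3, ← integral_prod_mul, ← integral_const_mul, ← integral_const_mul,
    ← integral_add i1 (i2.const_mul _), ← integral_add i12 (i3.const_mul _)]
  refine integral_congr_ae (Filter.Eventually.of_forall fun p => ?_)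
  simp only [gap]
  ring

/-- Subtract the tangent line, which is orthogonal to `G`; Schur test with `gap_int`. -/
theorem Fk_l1 : ∃ d0 : ℕ, ∀ d ≥ d0, ∀ (F G : Eu d → ℝ) (C' : ℝ), Bm F 1 → Bm G C' →
    ∫ u, G u ∂sph d = 0 → (∀ w : Eu d, ∫ u, G u * ⟪u, w⟫ ^ 2 ∂sph d = 0) →
    ((d : ℝ) - 1) ^ 2 * |∫ u, Fk F u * Fk G u ∂sph d| ≤ 9 / 10 * ∫ u, |G u| ∂sph d := by
  obtain ⟨n0, h0⟩ := gap_int
  refine ⟨n0 + 3, fun d hd F G C' hF hG h1 h2 => ?_⟩
  obtain ⟨n, rfl⟩ : ∃ n, d = n + 2 := ⟨d - 2, by omega⟩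
  obtain ⟨g0, gi, gm⟩ := h0 n (by omega)
  obtain ⟨α, β, -, -, h⟩ := c5_split (n := n) (by omega) gi
  rw [h F G 1 C' hF hG, h1]
  simp only [h2, mul_zero, integral_zero, add_zero]
  have hk := c5_kint (c5_gap_meas n) gi
  have s1 : |∫ p, F p.1 * G p.2 * gap n ⟪p.1, p.2⟫ ∂(sph (n + 2)).prod (sph (n + 2))| ≤
      (∫ u, |G u| ∂sph (n + 2)) * ∫ t, gap n t ∂tl (n + 1) := by
    rw [← c5_schur2 (c5_gap_meas n) gi (c5_abs hG), ← Real.norm_eq_abs]
    refine norm_integral_le_of_norm_le (c5_bmul (c5_snd (c5_abs hG)) hk) ?_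
    filter_upwards [c5_gap_ae g0] with p hp
    rw [norm_mul, norm_mul, Real.norm_of_nonneg hp]
    refine mul_le_mul_of_nonneg_right ?_ hp
    exact mul_le_of_le_one_left (norm_nonneg _) (hF.2 _)
  have s2 : 0 ≤ ∫ u, |G u| ∂sph (n + 2) := integral_nonneg fun u => abs_nonneg _
  have e1 : ((n + 2 : ℕ) : ℝ) - 1 = (n : ℝ) + 1 := by push_cast; ring
  rw [e1]
  have s3 := s1.trans (mul_le_mul_of_nonneg_left gm s2)
  refine (mul_le_mul_of_nonneg_left s3 (sq_nonneg _)).trans (le_of_eq ?_)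
  field_simp

lemma c5_coord {d : ℕ} (u : Eu d) (i : Fin d) : |u i| ≤ ‖u‖ := by
  simpa using PiLp.norm_apply_le u i

lemma c5_ic {d : ℕ} (hd : 0 < d) {F : Eu d → ℝ} {C : ℝ} (hF : Bm F C) (i j : Fin d) :
    Integrable (fun u => F u * (u i * u j)) (sph d) := by
  refine c5_bmul hF (Integrable.of_bound (by fun_prop) 1 ?_)
  filter_upwards [sph_unit hd] with u hu
  rw [Real.norm_eq_abs, abs_mul]
  have h1 := c5_coord u i
  have h2 := c5_coord u j
  rw [hu] at h1 h2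
  exact mul_le_one₀ h1 (abs_nonneg _) h2

lemma c5_quad {d : ℕ} (hd : 0 < d) {F : Eu d → ℝ} {C : ℝ} (hF : Bm F C)
    (h0 : ∫ u, F u ∂sph d = 0) :
    ∫ x, F x * ∫ y, F y * ⟪y, x⟫ ^ 2 ∂sph d ∂sph d ≤ 2 * (∫ u, F u ^ 2 ∂sph d) / d ^ 2 := by
  set S : Fin d → Fin d → ℝ := fun i j => ∫ u, F u * (u i * u j) ∂sph d with hS
  have hq : ∀ x : Eu d, ∫ y, F y * ⟪y, x⟫ ^ 2 ∂sph d = ∑ i, ∑ j, S i j * (x i * x j) := by
    intro x
    have e1 : ∀ y : Eu d, F y * ⟪y, x⟫ ^ 2 = ∑ i, ∑ j, F y * (y i * y j) * (x i * x j) := by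
      intro y
      rw [asmx_inner, sq, Finset.sum_mul_sum, Finset.mul_sum]
      refine Finset.sum_congr rfl fun i _ => ?_
      rw [Finset.mul_sum]
      exact Finset.sum_congr rfl fun j _ => by ring
    simp only [e1]
    rw [integral_finsetSum _ fun i _ =>
      integrable_finsetSum _ fun j _ => (c5_ic hd hF i j).mul_const _]
    refine Finset.sum_congr rfl fun i _ => ?_
    rw [integral_finsetSum _ fun j _ => (c5_ic hd hF i j).mul_const _]
    exact Finset.sum_congr rfl fun j _ => integral_mul_const _ _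
  have htr : ∑ i, S i i = 0 := by
    rw [hS]
    simp only
    rw [← integral_finsetSum _ fun i _ => c5_ic hd hF i i, ← h0]
    refine integral_congr_ae ?_
    filter_upwards [sph_unit hd] with u hu
    rw [← Finset.mul_sum, ← asmx_inner, real_inner_self_eq_norm_sq, hu]
    ring
  have e2 : ∀ x : Eu d, F x * ∑ i, ∑ j, S i j * (x i * x j) =
      ∑ i, ∑ j, S i j * (F x * (x i * x j)) := by
    intro x
    rw [Finset.mul_sum]
    refine Finset.sum_congr rfl fun i _ => ?_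
    rw [Finset.mul_sum]
    exact Finset.sum_congr rfl fun j _ => by ring
  have i1 : Integrable (fun x : Eu d => F x * ∑ i, ∑ j, S i j * (x i * x j)) (sph d) := by
    simp only [e2]
    exact integrable_finsetSum _ fun i _ =>
      integrable_finsetSum _ fun j _ => (c5_ic hd hF i j).const_mul _
  have hSig : ∫ x, F x * ∑ i, ∑ j, S i j * (x i * x j) ∂sph d = ∑ i, ∑ j, S i j ^ 2 := by
    simp only [e2]
    rw [integral_finsetSum _ fun i _ =>
      integrable_finsetSum _ fun j _ => (c5_ic hd hF i j).const_mul _]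
    refine Finset.sum_congr rfl fun i _ => ?_
    rw [integral_finsetSum _ fun j _ => (c5_ic hd hF i j).const_mul _]
    refine Finset.sum_congr rfl fun j _ => ?_
    rw [integral_const_mul, sq]
  have hq2 := quad_sph hd S htr
  have hd' : (0 : ℝ) < d := by exact_mod_cast hd
  have i2 : Integrable (fun u => F u ^ 2) (sph d) := by
    simpa only [sq] using c5_int (μ := sph d) (c5_mul hF hF)
  have i3 : Integrable (fun x : Eu d => (∑ i, ∑ j, S i j * (x i * x j)) ^ 2) (sph d) := by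
    refine Integrable.of_bound (by fun_prop) ((∑ i, ∑ j, |S i j|) ^ 2) ?_
    filter_upwards [sph_unit hd] with u hu
    rw [Real.norm_eq_abs, abs_pow]
    refine pow_le_pow_left₀ (abs_nonneg _) ?_ 2
    refine (Finset.abs_sum_le_sum_abs _ _).trans (Finset.sum_le_sum fun i _ => ?_)
    refine (Finset.abs_sum_le_sum_abs _ _).trans (Finset.sum_le_sum fun j _ => ?_)
    rw [abs_mul, abs_mul]
    have h1 := c5_coord u i
    have h2 := c5_coord u j
    rw [hu] at h1 h2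
    exact mul_le_of_le_one_right (abs_nonneg _) (mul_le_one₀ h1 (abs_nonneg _) h2)
  have hm : ∫ x, F x * ∑ i, ∑ j, S i j * (x i * x j) ∂sph d ≤
      ∫ x, (((d : ℝ) ^ 2)⁻¹ * F x ^ 2 +
        (d : ℝ) ^ 2 / 4 * (∑ i, ∑ j, S i j * (x i * x j)) ^ 2) ∂sph d := by
    refine integral_mono i1 ((i2.const_mul _).add (i3.const_mul _)) fun x => ?_
    simp only
    generalize ∑ i, ∑ j, S i j * (x i * x j) = q
    have e : ((d : ℝ) ^ 2)⁻¹ * F x ^ 2 + (d : ℝ) ^ 2 / 4 * q ^ 2 - F x * q =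
        (F x / d - d * q / 2) ^ 2 := by
      field_simp
      ring
    have := sq_nonneg (F x / d - d * q / 2)
    linarith
  rw [integral_add (i2.const_mul _) (i3.const_mul _), integral_const_mul, integral_const_mul,
    hSig] at hm
  simp only [hq]
  rw [hSig]
  have h3 : (d : ℝ) ^ 2 / 4 * ∫ x, (∑ i, ∑ j, S i j * (x i * x j)) ^ 2 ∂sph d ≤
      (∑ i, ∑ j, S i j ^ 2) / 2 := by
    refine (mul_le_mul_of_nonneg_left hq2 (by positivity)).trans (le_of_eq ?_)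
    field_simp
    ring
  have e4 : 2 * (∫ u, F u ^ 2 ∂sph d) / d ^ 2 = 2 * (((d : ℝ) ^ 2)⁻¹ * ∫ u, F u ^ 2 ∂sph d) := by
    ring
  rw [e4]
  linarith

/-- Kernel = constant + `c t²` + gap. The `t²` part is `∑ S i j ²` with `S i j = ∫ F u_i u_j`, trace
zero, and `∑ S² = ∫ F (uᵀ S u) ≤ ‖F‖ √2 ‖S‖ / d` by `quad_sph`. -/
theorem Fk_l2 : ∃ (C : ℝ) (d0 : ℕ), 0 < C ∧ ∀ d ≥ d0, ∀ (F : Eu d → ℝ) (C' : ℝ), Bm F C' →
    ∫ u, F u ∂sph d = 0 → ∫ u, Fk F u ^ 2 ∂sph d ≤ C * (∫ u, F u ^ 2 ∂sph d) / d ^ 2 := by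
  obtain ⟨n0, h0⟩ := gap_int
  refine ⟨12, n0 + 3, by norm_num, fun d hd F C' hF h1 => ?_⟩
  obtain ⟨n, rfl⟩ : ∃ n, d = n + 2 := ⟨d - 2, by omega⟩
  obtain ⟨g0, gi, gm⟩ := h0 n (by omega)
  obtain ⟨α, β, b0, b4, h⟩ := c5_split (n := n) (by omega) gi
  have h2 := h F F C' C' hF hF
  rw [h1, mul_zero, mul_zero, add_zero] at h2
  have hk := c5_kint (c5_gap_meas n) gi
  have hFF := c5_mul hF hF
  have s1 : ∫ p, F p.1 * F p.2 * gap n ⟪p.1, p.2⟫ ∂(sph (n + 2)).prod (sph (n + 2)) ≤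
      (∫ u, F u * F u ∂sph (n + 2)) * ∫ t, gap n t ∂tl (n + 1) := by
    have t1 := c5_schur1 (c5_gap_meas n) gi hFF
    have t2 := c5_schur2 (c5_gap_meas n) gi hFF
    have j1 := c5_bmul (c5_fst hFF) hk
    have j2 := c5_bmul (c5_snd hFF) hk
    have t3 : ∫ p, F p.1 * F p.2 * gap n ⟪p.1, p.2⟫ ∂(sph (n + 2)).prod (sph (n + 2)) ≤
        ∫ p, (1 / 2 * (F p.1 * F p.1 * gap n ⟪p.1, p.2⟫) +
          1 / 2 * (F p.2 * F p.2 * gap n ⟪p.1, p.2⟫)) ∂(sph (n + 2)).prod (sph (n + 2)) := by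
      refine integral_mono_ae (c5_bmul (c5_mul (c5_fst hF) (c5_snd hF)) hk)
        ((j1.const_mul _).add (j2.const_mul _)) ?_
      filter_upwards [c5_gap_ae g0] with p hp
      have := mul_nonneg (sq_nonneg (F p.1 - F p.2)) hp
      nlinarith
    rw [integral_add (j1.const_mul _) (j2.const_mul _), integral_const_mul, integral_const_mul,
      t1, t2] at t3
    linarith
  have s2 := c5_quad (Nat.succ_pos (n + 1)) hF h1
  simp only [← sq] at s1 h2
  have s3 : 0 ≤ ∫ u, F u ^ 2 ∂sph (n + 2) := integral_nonneg fun u => sq_nonneg _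
  have hn : (0 : ℝ) ≤ n := Nat.cast_nonneg n
  have s4 : 9 / 10 / ((n : ℝ) + 1) ^ 2 ≤ 4 / ((n + 2 : ℕ) : ℝ) ^ 2 := by
    push_cast
    rw [div_le_div_iff₀ (by positivity) (by positivity)]
    nlinarith
  have s5 := s1.trans (mul_le_mul_of_nonneg_left (gm.trans s4) s3)
  have s6 : 0 ≤ 2 * (∫ u, F u ^ 2 ∂sph (n + 2)) / ((n + 2 : ℕ) : ℝ) ^ 2 := by positivity
  have s7 := (mul_le_mul_of_nonneg_left s2 b0).trans (mul_le_mul_of_nonneg_right b4 s6)
  rw [h2]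
  refine (add_le_add s5 s7).trans (le_of_eq ?_)
  ring

/-- With `s = sign f`, `g = f + (d-1) Fk f`:
`∫|f| = ⟨s,g⟩ - (d-1)⟨Fk s, g⟩ + (d-1)² ⟨Fk s, Fk f⟩`; `Fk_symm`, `Fk_l1`. -/
theorem gleason : ∃ d0 : ℕ, ∀ d ≥ d0, ∀ (f : Eu d → ℝ) (C' : ℝ), Bm f C' →
    ∫ u, f u ∂sph d = 0 → (∀ w : Eu d, ∫ u, f u * ⟪u, w⟫ ^ 2 ∂sph d = 0) →
    ∫ u, |f u| ∂sph d ≤ 10 * d * ∫ u, |f u + (d - 1) * Fk f u| ∂sph d := by
  obtain ⟨d0, h0⟩ := Fk_l1
  refine ⟨d0 + 2, fun d hd f C' hf h1 h2 => ?_⟩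
  have hs : Bm (fun u => Real.sign (f u)) 1 :=
    ⟨assel_sign_meas.comp hf.1, fun u => assel_sign_abs _⟩
  have h3 := h0 d (by omega) _ f C' hs hf h1 h2
  have h4 := Fk_symm (d := d) (by omega) hs hf
  have hk := Fk_bm hf
  have hks := Fk_bm hs
  have ig : Integrable (fun u => f u + ((d : ℝ) - 1) * Fk f u) (sph d) :=
    (c5_int hf).add ((c5_int hk).const_mul _)
  have key : ∀ G : Eu d → ℝ, Bm G 1 →
      |∫ u, G u * f u ∂sph d + ((d : ℝ) - 1) * ∫ u, G u * Fk f u ∂sph d| ≤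
        ∫ u, |f u + (d - 1) * Fk f u| ∂sph d := by
    intro G hG
    rw [← integral_const_mul, ← integral_add (c5_int (c5_mul hG hf))
      ((c5_int (c5_mul hG hk)).const_mul _), ← Real.norm_eq_abs]
    refine norm_integral_le_of_norm_le ig.abs (Filter.Eventually.of_forall fun u => ?_)
    have e : G u * f u + ((d : ℝ) - 1) * (G u * Fk f u) = G u * (f u + (d - 1) * Fk f u) := by ring
    rw [e, norm_mul]
    exact mul_le_of_le_one_left (norm_nonneg _) (hG.2 u)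
  have k1 := abs_le.1 (key _ hs)
  have k2 := abs_le.1 (key _ hks)
  simp only [assel_sign_mul] at k1
  have hd1 : (1 : ℝ) ≤ (d : ℝ) - 1 := by
    have : (2 : ℝ) ≤ d := by exact_mod_cast (show 2 ≤ d by omega)
    linarith
  rw [h4] at k1
  have k3 := mul_le_mul_of_nonneg_left k2.1 (show (0 : ℝ) ≤ (d : ℝ) - 1 by linarith)
  have k4 := mul_le_mul_of_nonneg_left (le_abs_self
    (∫ u, Fk (fun u => Real.sign (f u)) u * Fk f u ∂sph d)) (sq_nonneg ((d : ℝ) - 1))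
  nlinarith [k1.2]

end Pool.Agent.Lib.MP_77d991_gt.Ex
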