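import Pool.Agent.Lib.MP_77d991_gt.Ex.C2
import Pool.Agent.Lib.MP_77d991_gt.Ex.B2

open MeasureTheory ProbabilityTheory Set
open scoped RealInnerProductSpace

namespace Pool.Agent.Lib.MP_77d991_gt.Ex

open Pool.Agent.Lib.MP_77d991_gt.As

lemma c6_on {d : ℕ} {a b c : Eu d} (ha : ‖a‖ = 1) (hb : ‖b‖ = 1) (hc : ‖c‖ = 1)
    (hab : ⟪a, b⟫ = 0) (hac : ⟪a, c⟫ = 0) (hbc : ⟪b, c⟫ = 0) : Orthonormal ℝ ![a, b, c] := by
  have h1 := real_inner_comm a b
  have h2 := real_inner_comm a c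
  have h3 := real_inner_comm b c
  refine ⟨fun i => ?_, fun i j hij => ?_⟩
  · fin_cases i <;> simpa
  · fin_cases i <;> fin_cases j <;> first | exact absurd rfl hij | simp_all

/-- the inner product times the projection on the complement of the plane of the two vectors. -/
noncomputable def c6_psi {d : ℕ} (x : Eu d → Eu d) (p : Eu d × Eu d) : ℝ :=
  ⟪p.1, p.2⟫ * (⟪x p.1, x p.2⟫ - ⟪x p.1, p.1⟫ * ⟪x p.2, p.1⟫ -
    ⟪x p.1, nz (p.2 - ⟪p.1, p.2⟫ • p.1)⟫ * ⟪x p.2, nz (p.2 - ⟪p.1, p.2⟫ • p.1)⟫)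

lemma c6_meas {d : ℕ} {x : Eu d → Eu d} (hx : Measurable x) : Measurable (c6_psi x) := by
  have h1 : Measurable fun p : Eu d × Eu d => x p.1 := hx.comp measurable_fst
  have h2 : Measurable fun p : Eu d × Eu d => x p.2 := hx.comp measurable_snd
  have h3 : Measurable fun p : Eu d × Eu d => nz (p.2 - ⟪p.1, p.2⟫ • p.1) :=
    measurable_nz.comp (by fun_prop : Continuous fun p : Eu d × Eu d =>
      p.2 - ⟪p.1, p.2⟫ • p.1).measurable
  exact c2_meas_inner.mul (((h1.inner h2).sub ((h1.inner measurable_fst).mul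
    (h2.inner measurable_fst))).sub ((h1.inner h3).mul (h2.inner h3)))

lemma c6_in {d : ℕ} {a b : Eu d} {A B : ℝ} (ha : ‖a‖ ≤ A) (hb : ‖b‖ ≤ B) : |⟪a, b⟫| ≤ A * B :=
  (abs_real_inner_le_norm a b).trans
    (mul_le_mul ha hb (norm_nonneg _) ((norm_nonneg _).trans ha))

lemma c6_mul {a b A B : ℝ} (ha : |a| ≤ A) (hb : |b| ≤ B) : |a * b| ≤ A * B := by
  rw [abs_mul]
  exact mul_le_mul ha hb (abs_nonneg _) ((abs_nonneg _).trans ha)

lemma c6_bd {d : ℕ} {x : Eu d → Eu d} {C : ℝ} (hx : Bm x C) (y y' : Eu d) (hy : ‖y‖ = 1)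
    (hy' : ‖y'‖ = 1) : |c6_psi x (y, y')| ≤ 1 * 1 * (C * C + C * 1 * (C * 1) + C * 1 * (C * 1)) :=
  c6_mul (c6_in hy.le hy'.le) ((abs_sub _ _).trans (add_le_add ((abs_sub _ _).trans
    (add_le_add (c6_in (hx.2 _) (hx.2 _)) (c6_mul (c6_in (hx.2 _) hy.le) (c6_in (hx.2 _) hy.le))))
    (c6_mul (c6_in (hx.2 _) (asxi_nz_le _)) (c6_in (hx.2 _) (asxi_nz_le _)))))

lemma c6_pt {m d : ℕ} (hm : 0 < m) (L : Eu m →ₗᵢ[ℝ] Eu d) {φ : Eu m → ℝ} (hφ : Measurable φ)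
    {C : ℝ} (hb : ∀ z, |φ z| ≤ C) (Y : Eu d) (l : ℝ) :
    2 * l * ∫ z, ⟪Y, L z⟫ * φ z ∂sph m ≤
      ‖Y‖ ^ 2 * (l * l) + ∫ p, ⟪p.1, p.2⟫ * (φ p.1 * φ p.2) ∂(sph m).prod (sph m) := by
  have hi : Integrable (fun z => φ z • L z) (sph m) := by
    refine Integrable.of_bound (hφ.smul L.continuous.measurable).aestronglyMeasurable C ?_
    filter_upwards [sph_unit hm] with z hz
    rw [norm_smul, L.norm_map, hz, mul_one]
    exact hb z
  have h1 : ∀ v, ∫ z, ⟪v, L z⟫ * φ z ∂sph m = ⟪v, ∫ z, φ z • L z ∂sph m⟫ := fun v => by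
    rw [← integral_inner hi]
    simp only [inner_smul_right, mul_comm]
  have h2 : Integrable (fun p : Eu m × Eu m => ⟪p.1, p.2⟫ * (φ p.1 * φ p.2))
      ((sph m).prod (sph m)) := by
    refine Integrable.of_bound (c2_meas_inner.mul ((hφ.comp measurable_fst).mul
      (hφ.comp measurable_snd))).aestronglyMeasurable (1 * 1 * (C * C)) ?_
    filter_upwards [c2_ae hm] with p hp using c6_mul (c6_in hp.1.le hp.2.le) (c6_mul (hb _) (hb _))
  have h3 : ∫ p, ⟪p.1, p.2⟫ * (φ p.1 * φ p.2) ∂(sph m).prod (sph m) =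
      ‖∫ z, φ z • L z ∂sph m‖ ^ 2 := by
    rw [integral_prod _ h2, ← real_inner_self_eq_norm_sq, ← h1]
    refine integral_congr_ae (Filter.Eventually.of_forall fun z => ?_)
    simp only
    rw [real_inner_comm, ← h1, ← integral_mul_const]
    refine integral_congr_ae (Filter.Eventually.of_forall fun z' => ?_)
    simp only [L.inner_map_map]
    ring
  rw [h1, h3]
  have h4 := norm_sub_sq_real (l • Y) (∫ z, φ z • L z ∂sph m)
  rw [inner_smul_left, norm_smul, mul_pow, Real.norm_eq_abs, sq_abs, conj_trivial] at h4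
  nlinarith [sq_nonneg ‖l • Y - ∫ z, φ z • L z ∂sph m‖]

lemma c6_alg {d : ℕ} (x : Eu d → Eu d) {y w : Eu d} (hy : ‖y‖ = 1) (hw : ‖w‖ = 1)
    (h : ⟪y, w⟫ = 0) {t : ℝ} (ht : |t| < 1) :
    c6_psi x (y, t • y + √(1 - t ^ 2) • w) =
      t * ⟪tn x y, tn x (t • y + √(1 - t ^ 2) • w)⟫ + t ^ 2 * (⟪tn x y, w⟫ *
        ⟪tn x (t • y + √(1 - t ^ 2) • w), √(1 - t ^ 2) • y - t • w⟫) := by
  have h0 : 0 < 1 - t ^ 2 := by nlinarith [abs_lt.1 ht]
  have h1 := Real.sq_sqrt h0.le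
  have h2 := Real.sqrt_pos.2 h0
  generalize √(1 - t ^ 2) = s at h1 h2
  have hyy : ⟪y, y⟫ = 1 := by rw [real_inner_self_eq_norm_sq, hy]; norm_num
  have hww : ⟪w, w⟫ = 1 := by rw [real_inner_self_eq_norm_sq, hw]; norm_num
  have h' : ⟪w, y⟫ = 0 := by rw [real_inner_comm, h]
  have e1 : ⟪y, t • y + s • w⟫ = t := by
    rw [inner_add_right, inner_smul_right, inner_smul_right, hyy, h]
    ring
  have e2 : nz (t • y + s • w - t • y) = w := by
    rw [add_sub_cancel_left, nz, norm_smul, hw, Real.norm_eq_abs, abs_of_pos h2, mul_one,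
      inv_smul_smul₀ h2.ne']
  simp only [c6_psi, tn, e1, e2]
  generalize x (t • y + s • w) = b
  generalize x y = a
  simp only [inner_sub_left, inner_sub_right, inner_add_left, inner_add_right, inner_smul_left,
    inner_smul_right, conj_trivial, hyy, hww, h, h', real_inner_comm y b]
  linear_combination (t * ⟪a, w⟫ * ⟪b, w⟫) * h1

section
variable {n : ℕ} {Ω : Type} [MeasurableSpace Ω] {ν : Measure Ω}
  {U : Ω → (Eu (n + 3) ≃ₗᵢ[ℝ] Eu (n + 3))}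

lemma c6_mU (H : Haar ν U) (e : Eu (n + 3)) : Measurable fun ω => U ω e :=
  H.meas.comp (measurable_id.prodMk measurable_const)

lemma c6_avg (H : Haar ν U) {x : Eu (n + 3) → Eu (n + 3)} {C : ℝ} (hx : Bm x C)
    {y y' e : Eu (n + 3)} (hy : ‖y‖ = 1) (hy' : ‖y'‖ = 1) (he : ‖e‖ = 1) (h1 : ⟪y, e⟫ = 0)
    (h2 : ⟪y', e⟫ = 0) (ht : |⟪y, y'⟫| < 1) :
    ∫ ω, ⟪y, y'⟫ * (⟪x (U ω y), U ω e⟫ * ⟪x (U ω y'), U ω e⟫) ∂ν =
      (∫ ω, c6_psi x (U ω y, U ω y') ∂ν) / (n + 1) := by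
  have := H.prob
  set t := ⟪y, y'⟫ with htd
  set z := y' - t • y with hz
  have hyy : ⟪y, y⟫ = 1 := by rw [real_inner_self_eq_norm_sq, hy]; norm_num
  have hyz : ⟪y, z⟫ = 0 := by rw [hz, inner_sub_right, inner_smul_right, hyy, ← htd]; ring
  have h0 : z ≠ 0 := fun e0 => by
    have e1 : y' = t • y := sub_eq_zero.1 e0
    rw [e1, norm_smul, hy, mul_one, Real.norm_eq_abs] at hy'
    exact ht.ne hy'
  have hw : ‖nz z‖ = 1 := asxi_nz_one h0
  have hyw : ⟪y, nz z⟫ = 0 := by rw [nz, inner_smul_right, hyz, mul_zero]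
  have hwe : ⟪nz z, e⟫ = 0 := by
    rw [nz, inner_smul_left, hz, inner_sub_left, inner_smul_left, h1, h2]
    simp
  obtain ⟨b, hb⟩ := exists_ext (q := n + 1) (by simp; omega) _ (c2_on hy hw hyw)
  have b0 : b (.inl 0) = y := hb 0
  have b1 : b (.inl 1) = nz z := hb 1
  have k1 : ∀ j, ∫ ω, t * (⟪x (U ω y), U ω (b (.inr j))⟫ * ⟪x (U ω y'), U ω (b (.inr j))⟫) ∂ν =
      ∫ ω, t * (⟪x (U ω y), U ω e⟫ * ⟪x (U ω y'), U ω e⟫) ∂ν := fun j => by
    obtain ⟨O, hO⟩ := exists_iso_frame _ _ (c6_on hy hw he hyw h1 hwe)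
      (c6_on hy hw (b.orthonormal.1 (.inr j)) hyw (b0 ▸ b.orthonormal.2 (by simp))
        (b1 ▸ b.orthonormal.2 (by simp)))
    have o0 : O y = y := hO 0
    have o1 : O (nz z) = nz z := hO 1
    have o2 : O e = b (.inr j) := hO 2
    have o3 : O y' = y' := by
      have e1 : y' = t • y + ‖z‖ • nz z := by
        rw [asrad_smul_nz, hz]
        abel
      rw [e1, map_add, map_smul, map_smul, o0, o1]
    have h := H.inv O (fun θ => t * (⟪x (θ 0), θ 2⟫ * ⟪x (θ 1), θ 2⟫))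
      (fun i => if i = 0 then y else if i = 1 then y' else e)
    simpa only [if_true, one_ne_zero, if_false, OfNat.ofNat_ne_zero, OfNat.ofNat_ne_one, o0, o2, o3]
      using h
  have k2 : ∀ ω, c6_psi x (U ω y, U ω y') =
      ∑ j, t * (⟪x (U ω y), U ω (b (.inr j))⟫ * ⟪x (U ω y'), U ω (b (.inr j))⟫) := fun ω => by
    have h := (b.map (U ω)).sum_inner_mul_inner (x (U ω y)) (x (U ω y'))
    simp only [OrthonormalBasis.map_apply, Fintype.sum_sum_type, Fin.sum_univ_two, b0, b1,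
      real_inner_comm (x (U ω y'))] at h
    simp only [c6_psi, LinearIsometryEquiv.inner_map_map, ← htd, ← Finset.mul_sum]
    rw [← map_smul, ← map_sub, asrad_nz_map, ← hz, real_inner_comm (x (U ω y')), ← h]
    ring
  simp only [k2]
  rw [integral_finsetSum _ fun j _ => ?_]
  · simp only [k1, Finset.sum_const, Finset.card_univ, Fintype.card_fin, nsmul_eq_mul]
    push_cast
    field_simp
  · have hc : ∀ ω, ‖U ω (b (.inr j))‖ ≤ 1 := fun ω => by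
      rw [LinearIsometryEquiv.norm_map, b.orthonormal.1]
    exact (Integrable.of_bound (((hx.1.comp (c6_mU H y)).inner (c6_mU H _)).mul
      ((hx.1.comp (c6_mU H y')).inner (c6_mU H _))).aestronglyMeasurable (C * 1 * (C * 1))
      (Filter.Eventually.of_forall fun ω =>
        c6_mul (c6_in (hx.2 _) (hc ω)) (c6_in (hx.2 _) (hc ω)))).const_mul t

lemma c6_tn {d : ℕ} {x : Eu d → Eu d} {C : ℝ} (hx : Bm x C) :
    Measurable (tn x) ∧ ∀ y, ‖y‖ = 1 → ‖tn x y‖ ≤ C + C * 1 :=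
  ⟨hx.1.sub ((hx.1.inner (𝕜 := ℝ) measurable_id).smul measurable_id), fun y hy =>
    (norm_sub_le _ _).trans (add_le_add (hx.2 y) (by
      rw [norm_smul, hy, mul_one]
      exact c6_in (hx.2 y) hy.le))⟩

lemma c6_lam (H : Haar ν U) {x : Eu (n + 3) → Eu (n + 3)} {C : ℝ} (hx : Bm x C)
    {e e' : Eu (n + 3)} (he : ‖e‖ = 1) (he' : ‖e'‖ = 1) (h : ⟪e, e'⟫ = 0) {t : ℝ} (ht : |t| < 1) :
    ∫ ω, c6_psi x (U ω e, U ω (rot e e' t)) ∂ν =
      t * Lam1 ν U x e e' t + t ^ 2 * Lam2 ν U x e e' t := by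
  have := H.prob
  have h0 : 0 ≤ 1 - t ^ 2 := by nlinarith [abs_lt.1 ht]
  have n1 : ∀ (ω : Ω) {v : Eu (n + 3)} {c : ℝ}, ‖v‖ = c → ‖U ω v‖ = c := fun ω v c hv => by
    rw [LinearIsometryEquiv.norm_map, hv]
  have hr : ‖rot e e' t‖ = 1 := by
    rw [← sq_eq_sq₀ (norm_nonneg _) zero_le_one, rot, norm_add_sq_real, inner_smul_left,
      inner_smul_right, h, norm_smul, norm_smul, he, he', mul_one, mul_one, Real.norm_eq_abs,
      Real.norm_eq_abs, sq_abs, sq_abs, Real.sq_sqrt h0]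
    ring
  obtain ⟨m1, b1⟩ := c6_tn hx
  rw [Lam1, Lam2, ← integral_const_mul, ← integral_const_mul, ← integral_add]
  · refine integral_congr_ae (Filter.Eventually.of_forall fun ω => ?_)
    simp only [rot, map_add, map_sub, map_smul]
    exact c6_alg x (n1 ω he) (n1 ω he') (by rw [LinearIsometryEquiv.inner_map_map, h]) ht
  · exact (Integrable.of_bound ((m1.comp (c6_mU H _)).inner
      (m1.comp (c6_mU H _))).aestronglyMeasurable _ (Filter.Eventually.of_forall fun ω =>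
        c6_in (b1 _ (n1 ω he)) (b1 _ (n1 ω hr)))).const_mul t
  · exact (Integrable.of_bound (((m1.comp (c6_mU H _)).inner (c6_mU H _)).mul
      ((m1.comp (c6_mU H _)).inner (c6_mU H _))).aestronglyMeasurable _
      (Filter.Eventually.of_forall fun ω => c6_mul (c6_in (b1 _ (n1 ω he)) (n1 ω he').le)
        (c6_in (b1 _ (n1 ω hr)) (n1 ω rfl).le))).const_mul _

/-- Replace `e₃` by `J z`, `z` uniform, `J` onto `(e₁,e₂)^⊥`; Cauchy-Schwarz in `ω`; expand the square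
with two copies `z, z'`; for fixed `z ≠ ± z'` replace `e₂` by each member of an orthonormal basis of
`(J z, J z')^⊥` (there are `n + 1`); with `a = tn x y ⊥ y`, `b = tn x y' ⊥ y'`, `t = ⟪y,y'⟫` the
projection gives `⟪a,b⟫ + t/(1-t²) ⟪a,y'⟫ ⟪y,b⟫`; `Haar.two`. -/
theorem q_red (hn : 0 < n) (H : Haar ν U) {e₁ e₂ e₃ : Eu (n + 3)}
    (he : Orthonormal ℝ ![e₁, e₂, e₃]) {x : Eu (n + 3) → Eu (n + 3)} {C C' : ℝ} (hx : Bm x C)
    {Y : Eu (n + 3) × Eu (n + 3) → Eu (n + 3)} (hY : Bm Y C') :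
    (∫ ω, ⟪Y (U ω e₁, U ω e₂), U ω e₃⟫ * ⟪x (U ω e₃), U ω e₂⟫ ∂ν) ^ 2 ≤
      (∫ ω, ‖Y (U ω e₁, U ω e₂)‖ ^ 2 ∂ν) *
        ((∫ t, (t * Lam1 ν U x e₁ e₂ t + t ^ 2 * Lam2 ν U x e₁ e₂ t) ∂tl n) / (n + 1)) := by
  have := H.prob
  have h1 : ‖e₁‖ = 1 := he.1 0
  have h2 : ‖e₂‖ = 1 := he.1 1
  have h12 : ⟪e₁, e₂⟫ = 0 := he.2 (i := 0) (j := 1) (by decide)
  obtain ⟨J, hJ, -⟩ := exists_J (n := n + 1) (k := 2) ![e₁, e₂] (c2_on h1 h2 h12)
  have j1 : ∀ z, ⟪J z, e₁⟫ = 0 := fun z => hJ z 0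
  have j2 : ∀ z, ⟪J z, e₂⟫ = 0 := fun z => hJ z 1
  have u2 : ∀ ω, ‖U ω e₂‖ ≤ 1 := fun ω => by rw [LinearIsometryEquiv.norm_map, h2]
  have mJ : Measurable fun q : Ω × Eu (n + 1) => U q.1 (J q.2) :=
    H.meas.comp (measurable_fst.prodMk (J.continuous.measurable.comp measurable_snd))
  have mφ : Measurable fun q : Ω × Eu (n + 1) => ⟪x (U q.1 (J q.2)), U q.1 e₂⟫ :=
    (hx.1.comp mJ).inner ((c6_mU H e₂).comp measurable_fst)
  have bφ : ∀ ω z, |⟪x (U ω (J z)), U ω e₂⟫| ≤ C * 1 := fun ω z => c6_in (hx.2 _) (u2 ω)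
  have mY : Measurable fun ω => Y (U ω e₁, U ω e₂) := hY.1.comp ((c6_mU H _).prodMk (c6_mU H _))
  have i1 : Integrable (Function.uncurry fun (ω : Ω) (z : Eu (n + 1)) =>
      ⟪Y (U ω e₁, U ω e₂), U ω (J z)⟫ * ⟪x (U ω (J z)), U ω e₂⟫) (ν.prod (sph (n + 1))) := by
    refine Integrable.of_bound (((mY.comp measurable_fst).inner mJ).mul mφ).aestronglyMeasurable
      (C' * 1 * (C * 1)) ?_
    filter_upwards [(Measure.quasiMeasurePreserving_snd (μ := ν)).ae (sph_unit n.succ_pos)]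
      with q hq
    exact c6_mul (c6_in (hY.2 _) (by rw [LinearIsometryEquiv.norm_map, J.norm_map, hq])) (bφ _ _)
  have i2 : Integrable (Function.uncurry fun (ω : Ω) (p : Eu (n + 1) × Eu (n + 1)) =>
      ⟪p.1, p.2⟫ * (⟪x (U ω (J p.1)), U ω e₂⟫ * ⟪x (U ω (J p.2)), U ω e₂⟫))
      (ν.prod ((sph (n + 1)).prod (sph (n + 1)))) := by
    refine Integrable.of_bound ((c2_meas_inner.comp measurable_snd).mul
      ((mφ.comp (measurable_fst.prodMk (measurable_fst.comp measurable_snd))).mul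
        (mφ.comp (measurable_fst.prodMk
          (measurable_snd.comp measurable_snd))))).aestronglyMeasurable
      (1 * 1 * (C * 1 * (C * 1))) ?_
    filter_upwards [(Measure.quasiMeasurePreserving_snd (μ := ν)).ae (c2_ae n.succ_pos)] with q hq
    exact c6_mul (c6_in hq.1.le hq.2.le) (c6_mul (bφ _ _) (bφ _ _))
  have i3 : Integrable (fun ω => ‖Y (U ω e₁, U ω e₂)‖ ^ 2) ν :=
    Integrable.of_bound (mY.norm.pow_const 2).aestronglyMeasurable (C' ^ 2)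
      (Filter.Eventually.of_forall fun ω => by
        rw [norm_pow, norm_norm]
        exact pow_le_pow_left₀ (norm_nonneg _) (hY.2 _) 2)
  have s1 : ∫ ω, ⟪Y (U ω e₁, U ω e₂), U ω e₃⟫ * ⟪x (U ω e₃), U ω e₂⟫ ∂ν =
      ∫ ω, ∫ z, ⟪Y (U ω e₁, U ω e₂), U ω (J z)⟫ * ⟪x (U ω (J z)), U ω e₂⟫ ∂sph (n + 1) ∂ν := by
    rw [integral_integral_swap i1, eq_comm]
    refine (integral_congr_ae ?_).trans ((integral_const _).trans (by rw [probReal_univ, one_smul]))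
    filter_upwards [sph_unit n.succ_pos] with z hz
    obtain ⟨O, hO⟩ := exists_iso_frame _ _ he (c6_on h1 h2 ((J.norm_map z).trans hz) h12
      (by rw [real_inner_comm, j1]) (by rw [real_inner_comm, j2]))
    have o0 : O e₁ = e₁ := hO 0
    have o1 : O e₂ = e₂ := hO 1
    have o2 : O e₃ = J z := hO 2
    have h := H.inv O (fun θ => ⟪Y (θ 0, θ 1), θ 2⟫ * ⟪x (θ 2), θ 1⟫)
      (fun i => if i = 0 then e₁ else if i = 1 then e₂ else e₃)
    simpa only [if_true, one_ne_zero, if_false, OfNat.ofNat_ne_zero, OfNat.ofNat_ne_one, o0, o1, o2]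
      using h
  have s2 : (∫ t, (t * Lam1 ν U x e₁ e₂ t + t ^ 2 * Lam2 ν U x e₁ e₂ t) ∂tl n) / (n + 1) =
      ∫ ω, ∫ p, ⟪p.1, p.2⟫ * (⟪x (U ω (J p.1)), U ω e₂⟫ * ⟪x (U ω (J p.2)), U ω e₂⟫)
        ∂(sph (n + 1)).prod (sph (n + 1)) ∂ν := by
    have a1 : ∀ᵐ p ∂(sph (n + 1)).prod (sph (n + 1)), |⟪p.1, p.2⟫| < 1 := by
      have h := tl_ae hn
      rw [← c2_map n] at h
      exact ae_of_ae_map c2_meas_inner.aemeasurable h
    rw [integral_integral_swap i2, ← integral_congr_ae ((tl_ae hn).mono fun t ht =>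
      c6_lam H hx h1 h2 h12 ht), ← H.two J h1 h2 h12 (c6_meas hx.1) (c6_bd hx), ← integral_div]
    refine integral_congr_ae ?_
    filter_upwards [c2_ae n.succ_pos, a1] with p hp ha
    rw [← J.inner_map_map] at ha ⊢
    exact (c6_avg H hx ((J.norm_map _).trans hp.1) ((J.norm_map _).trans hp.2) h2 (j2 _) (j2 _)
      ha).symm
  rw [s1, s2]
  have key := discrim_le_zero (a := ∫ ω, ‖Y (U ω e₁, U ω e₂)‖ ^ 2 ∂ν)
    (b := -2 * ∫ ω, ∫ z, ⟪Y (U ω e₁, U ω e₂), U ω (J z)⟫ * ⟪x (U ω (J z)), U ω e₂⟫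
      ∂sph (n + 1) ∂ν)
    (c := ∫ ω, ∫ p, ⟪p.1, p.2⟫ * (⟪x (U ω (J p.1)), U ω e₂⟫ * ⟪x (U ω (J p.2)), U ω e₂⟫)
      ∂(sph (n + 1)).prod (sph (n + 1)) ∂ν) fun l => by
    have h := integral_mono (i1.integral_prod_left.const_mul (2 * l))
      ((i3.mul_const (l * l)).add i2.integral_prod_left) fun ω =>
        c6_pt n.succ_pos ((U ω).toLinearIsometry.comp J)
          (mφ.comp (measurable_const.prodMk measurable_id)) (bφ ω) (Y (U ω e₁, U ω e₂)) l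
    rw [integral_add' (i3.mul_const (l * l)) i2.integral_prod_left, integral_const_mul,
      integral_mul_const] at h
    simp only [Function.uncurry] at h
    linarith
  rw [discrim] at key
  linarith

end

end Pool.Agent.Lib.MP_77d991_gt.Ex
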