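import Pool.Agent.Lib.MP_77d991_gt.Ex.C6

open MeasureTheory ProbabilityTheory Set
open scoped RealInnerProductSpace

namespace Pool.Agent.Lib.MP_77d991_gt.Ex

open Pool.Agent.Lib.MP_77d991_gt.As

section
variable {n : ℕ} {Ω : Type} [MeasurableSpace Ω] {ν : Measure Ω}
  {U : Ω → (Eu (n + 3) ≃ₗᵢ[ℝ] Eu (n + 3))}

theorem c7_meas (H : Haar ν U) {α : Type} [MeasurableSpace α] {f : α → Ω} {g : α → Eu (n + 3)}
    (hf : Measurable f) (hg : Measurable g) : Measurable fun a => U (f a) (g a) :=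
  H.meas.comp (hf.prodMk hg)

theorem c7_tn {x : Eu (n + 3) → Eu (n + 3)} (hx : Measurable x) : Measurable (tn x) := by
  unfold tn
  fun_prop

theorem c7_tn_le {h : Eu (n + 3) → ℝ} {x : Eu (n + 3) → Eu (n + 3)} {R : ℝ} (S : Sel h x R)
    {u : Eu (n + 3)} (hu : ‖u‖ = 1) : ‖tn x u‖ ^ 2 ≤ R ^ 2 := by
  have h1 := (Nf_sq S hu).2.1
  have h2 := pow_le_pow_left₀ (norm_nonneg _) (S.bdd u) 2
  nlinarith [sq_nonneg (h u)]

theorem c7_sph {h : Eu (n + 3) → ℝ} {x : Eu (n + 3) → Eu (n + 3)} {R : ℝ} (S : Sel h x R) :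
    ∫ u, ‖tn x u‖ ^ 2 ∂sph (n + 3) ≤ bsq x := by
  obtain ⟨m, b⟩ := meas_Nf S
  refine integral_mono_of_nonneg (Filter.Eventually.of_forall fun u => by positivity)
    (Integrable.of_bound (m.norm.pow_const 2).aestronglyMeasurable ((R + 1) ^ 2)
      (Filter.Eventually.of_forall fun u => ?_)) ?_
  · rw [norm_pow, norm_norm]
    exact pow_le_pow_left₀ (norm_nonneg _) (b u) 2
  · filter_upwards [sph_unit (Nat.succ_pos (n + 2))] with u hu
    have := (Nf_sq S hu).1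
    nlinarith [sq_nonneg (h u - 1)]

theorem c7_int (H : Haar ν U) {h : Eu (n + 3) → ℝ} {x : Eu (n + 3) → Eu (n + 3)} {R : ℝ}
    (S : Sel h x R) {e : Eu (n + 3)} (he : ‖e‖ = 1) :
    Integrable (fun ω => ‖tn x (U ω e)‖ ^ 2) ν ∧ ∫ ω, ‖tn x (U ω e)‖ ^ 2 ∂ν ≤ bsq x := by
  have := H.prob
  have m : Measurable fun ω => U ω e := c7_meas H measurable_id measurable_const
  have m2 : Measurable fun u => ‖tn x u‖ ^ 2 := (c7_tn S.meas).norm.pow_const 2
  refine ⟨Integrable.of_bound (m2.comp m).aestronglyMeasurable (R ^ 2)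
    (Filter.Eventually.of_forall fun ω => ?_), le_of_eq_of_le ?_ (c7_sph S)⟩
  · rw [norm_pow, norm_norm]
    exact c7_tn_le S (by rw [LinearIsometryEquiv.norm_map, he])
  · rw [← H.law he, integral_map m.aemeasurable m2.aestronglyMeasurable]

theorem c7_ee (i : Fin (n + 3)) : ‖ee i‖ = 1 := by simp [ee]

theorem c7_ee2 {i l : Fin (n + 3)} (h : i ≠ l) : ⟪ee i, ee l⟫ = 0 := by
  simp [ee, EuclideanSpace.inner_single_left, h]

theorem c7_core (hn : 0 < n) (H : Haar ν U) {h : Eu (n + 3) → ℝ} {x : Eu (n + 3) → Eu (n + 3)}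
    {R k : ℝ} (S : Sel h x R) {a i l : Fin (n + 3)} (h1 : a ≠ i) (h2 : a ≠ l) (h3 : i ≠ l)
    (hk : ∫ t, (t * Lam1 ν U x (ee a) (ee i) t + t ^ 2 * Lam2 ν U x (ee a) (ee i) t) ∂tl n ≤ k)
    {W : Eu (n + 3) × Eu (n + 3) → ℝ} (hW : Bm W 2) :
    |∫ ω, W (U ω (ee a), U ω (ee i)) *
      (⟪x (U ω (ee i)), U ω (ee l)⟫ * ⟪x (U ω (ee l)), U ω (ee i)⟫) ∂ν| ≤
      2 * √(bsq x * (k / (n + 1))) := by
  have ho : Orthonormal ℝ ![ee a, ee i, ee l] := by
    have e : ![ee a, ee i, ee l] = (fun j : Fin (n + 3) => EuclideanSpace.single j (1 : ℝ)) ∘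
        ![a, i, l] := by
      ext1 j
      fin_cases j <;> rfl
    rw [e]
    refine EuclideanSpace.orthonormal_single.comp _ ?_
    rw [← List.nodup_ofFn]
    simp [h1, h2, h3]
  have hR : 0 ≤ R := (norm_nonneg _).trans (S.bdd 0)
  have hnz : ∀ ω, nz (U ω (ee i)) = U ω (ee i) := fun ω => by
    rw [nz, LinearIsometryEquiv.norm_map, c7_ee, inv_one, one_smul]
  have hY : Bm (fun p : Eu (n + 3) × Eu (n + 3) => W p • tn x (nz p.2)) (2 * R) := by
    refine ⟨hW.1.smul ((c7_tn S.meas).comp (measurable_nz.comp measurable_snd)), fun p => ?_⟩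
    rw [norm_smul]
    refine mul_le_mul (hW.2 p) ?_ (norm_nonneg _) zero_le_two
    rcases eq_or_ne p.2 0 with h0 | h0
    · simpa [h0, nz, tn] using S.bdd 0
    · refine (pow_le_pow_iff_left₀ (norm_nonneg _) hR two_ne_zero).1 (c7_tn_le S ?_)
      rw [nz, norm_smul, norm_inv, norm_norm, inv_mul_cancel₀ (norm_ne_zero_iff.2 h0)]
  have q := q_red hn H ho (x := x) ⟨S.meas, S.bdd⟩ hY
  have e : ∀ ω, ⟪W (U ω (ee a), U ω (ee i)) • tn x (nz (U ω (ee i))), U ω (ee l)⟫ *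
      ⟪x (U ω (ee l)), U ω (ee i)⟫ = W (U ω (ee a), U ω (ee i)) *
      (⟪x (U ω (ee i)), U ω (ee l)⟫ * ⟪x (U ω (ee l)), U ω (ee i)⟫) := fun ω => by
    rw [hnz, real_inner_smul_left, tn, inner_sub_left, real_inner_smul_left,
      LinearIsometryEquiv.inner_map_map, c7_ee2 h3]
    ring
  simp only [e] at q
  simp only [hnz] at q
  obtain ⟨i1, i2⟩ := c7_int H S (c7_ee i)
  have a0 : 0 ≤ ∫ ω, ‖W (U ω (ee a), U ω (ee i)) • tn x (U ω (ee i))‖ ^ 2 ∂ν :=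
    integral_nonneg fun ω => by positivity
  have a1 : ∫ ω, ‖W (U ω (ee a), U ω (ee i)) • tn x (U ω (ee i))‖ ^ 2 ∂ν ≤ 4 * bsq x := by
    refine (integral_mono_of_nonneg (Filter.Eventually.of_forall fun ω => by positivity)
      (i1.const_mul 4) (Filter.Eventually.of_forall fun ω => ?_)).trans ?_
    · have := pow_le_pow_left₀ (norm_nonneg _) (hW.2 (U ω (ee a), U ω (ee i))) 2
      simp only [norm_smul, mul_pow]
      exact mul_le_mul_of_nonneg_right (by linarith) (by positivity)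
    · rw [integral_const_mul]
      linarith
  have hn1 : (0 : ℝ) < n + 1 := by positivity
  replace q := q.trans (mul_le_mul_of_nonneg_left (div_le_div_of_nonneg_right hk hn1.le) a0)
  rcases le_total 0 (k / (n + 1)) with hk0 | hk0
  · replace q := q.trans (mul_le_mul_of_nonneg_right a1 hk0)
    refine (Real.abs_le_sqrt q).trans_eq ?_
    rw [mul_assoc, Real.sqrt_mul (by norm_num), show (4 : ℝ) = 2 ^ 2 by norm_num,
      Real.sqrt_sq zero_le_two]
  · replace q := q.trans (mul_nonpos_of_nonneg_of_nonpos a0 hk0)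
    rw [pow_eq_zero_iff two_ne_zero |>.1 (le_antisymm q (sq_nonneg _)), abs_zero]
    positivity

theorem c7_third (i l : Fin (n + 3)) : ∃ a : Fin (n + 3), a ≠ i ∧ a ≠ l := by
  obtain ⟨a, -, ha⟩ := Finset.exists_mem_notMem_of_card_lt_card
    (s := ({i, l} : Finset (Fin (n + 3)))) (t := Finset.univ)
    (lt_of_le_of_lt Finset.card_le_two (by simp))
  exact ⟨a, by simpa using ha⟩

/-- Choose the triple: if `i0 ∉ {i, l}` take `(e i0, e i, e l)`, `Y (a,b) = w a • tn x b`; if `i0 = i`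
take any third index and `Y (a,b) = w b • tn x b`; if `i0 = l` exchange `i` and `l`. -/
theorem qb_of (hn : 0 < n) {h : Eu (n + 3) → ℝ} {x : Eu (n + 3) → Eu (n + 3)} {R k : ℝ}
    (S : Sel h x R)
    (hk : ∀ (Ω : Type) (_ : MeasurableSpace Ω) (ν : Measure Ω)
      (U : Ω → (Eu (n + 3) ≃ₗᵢ[ℝ] Eu (n + 3))), Haar ν U → ∀ e e' : Eu (n + 3), ‖e‖ = 1 → ‖e'‖ = 1 →
      ⟪e, e'⟫ = 0 → ∫ t, (t * Lam1 ν U x e e' t + t ^ 2 * Lam2 ν U x e e' t) ∂tl n ≤ k) :
    QB x (2 * √(bsq x * (k / (n + 1)))) := by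
  intro Ω _ ν U H w hw i0 i l hil
  have k1 : ∀ {a i : Fin (n + 3)}, a ≠ i → _ := fun {a i} h =>
    hk Ω _ ν U H (ee a) (ee i) (c7_ee a) (c7_ee i) (c7_ee2 h)
  have w1 : Bm (fun p : Eu (n + 3) × Eu (n + 3) => w p.1) 2 :=
    ⟨hw.1.comp measurable_fst, fun p => hw.2 _⟩
  have w2 : Bm (fun p : Eu (n + 3) × Eu (n + 3) => w p.2) 2 :=
    ⟨hw.1.comp measurable_snd, fun p => hw.2 _⟩
  obtain ⟨a, a1, a2⟩ := c7_third i l
  by_cases h1 : i0 = i
  · subst h1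
    exact c7_core hn H S a1 a2 hil (k1 a1) w2
  · by_cases h2 : i0 = l
    · subst h2
      simpa only [mul_comm ⟪x (U _ (ee i0)), U _ (ee i)⟫] using
        c7_core hn H S a2 a1 hil.symm (k1 a2) w2
    · exact c7_core hn H S h1 h2 hil (k1 h1) w1

theorem c7_amgm {φ f g : Ω → ℝ} {B : ℝ} (hf : Integrable f ν) (hg : Integrable g ν)
    (h : ∀ ω, |φ ω| ≤ (f ω + g ω) / 2) (h1 : ∫ ω, f ω ∂ν ≤ B) (h2 : ∫ ω, g ω ∂ν ≤ B) :
    |∫ ω, φ ω ∂ν| ≤ B := by
  refine (norm_integral_le_of_norm_le (f := φ) ((hf.add hg).div_const 2)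
    (Filter.Eventually.of_forall h)).trans ?_
  simp only [Pi.add_apply]
  rw [integral_div, integral_add hf hg]
  linarith

theorem c7_int2 (H : Haar ν U) {h : Eu (n + 3) → ℝ} {x : Eu (n + 3) → Eu (n + 3)} {R : ℝ}
    (S : Sel h x R) {e e' : Eu (n + 3)} (he : ‖e‖ = 1) (he' : ‖e'‖ = 1) (hee : ⟪e, e'⟫ = 0) :
    Integrable (fun ω => ⟪tn x (U ω e), U ω e'⟫ ^ 2) ν ∧
      ∫ ω, ⟪tn x (U ω e), U ω e'⟫ ^ 2 ∂ν ≤ bsq x / (n + 2) := by
  have m : Measurable fun ω => U ω e := c7_meas H measurable_id measurable_const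
  have m' : Measurable fun ω => U ω e' := c7_meas H measurable_id measurable_const
  refine ⟨(c7_int H S he).1.mono'
    ((((c7_tn S.meas).comp m).inner m').pow_const 2).aestronglyMeasurable
    (Filter.Eventually.of_forall fun ω => ?_), ?_⟩
  · rw [norm_pow]
    refine pow_le_pow_left₀ (norm_nonneg _) ((norm_inner_le_norm _ _).trans_eq ?_) 2
    rw [LinearIsometryEquiv.norm_map, he', mul_one]
  · rw [H.tn_sq he he' hee (x := x) ⟨S.meas, S.bdd⟩,
      show ((n + 3 : ℕ) : ℝ) - 1 = n + 2 by push_cast; ring]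
    exact div_le_div_of_nonneg_right (c7_sph S) (by positivity)

/-- Cauchy-Schwarz, `Haar.law`, `Haar.tn_sq`, `Nf_sq`. -/
theorem lam_le (H : Haar ν U) {h : Eu (n + 3) → ℝ} {x : Eu (n + 3) → Eu (n + 3)} {R : ℝ}
    (S : Sel h x R) {e e' : Eu (n + 3)} (he : ‖e‖ = 1) (he' : ‖e'‖ = 1) (hee : ⟪e, e'⟫ = 0) :
    Measurable (Lam1 ν U x e e') ∧ Measurable (Lam2 ν U x e e') ∧ ∀ t, |t| ≤ 1 →
      |Lam1 ν U x e e' t| ≤ bsq x ∧ |Lam2 ν U x e e' t| ≤ bsq x / (n + 2) := by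
  have := H.prob
  have mt := c7_tn S.meas
  have m1 : Measurable fun p : ℝ × Ω => U p.2 e := c7_meas H measurable_snd measurable_const
  have m2 : Measurable fun p : ℝ × Ω => U p.2 e' := c7_meas H measurable_snd measurable_const
  have m3 : Measurable fun p : ℝ × Ω => U p.2 (rot e e' p.1) :=
    c7_meas H measurable_snd (by unfold rot; fun_prop)
  have m4 : Measurable fun p : ℝ × Ω => U p.2 (√(1 - p.1 ^ 2) • e - p.1 • e') :=
    c7_meas H measurable_snd (by fun_prop)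
  refine ⟨(((mt.comp m1).inner (mt.comp m3)).stronglyMeasurable.integral_prod_right').measurable,
    ((((mt.comp m1).inner m2).mul
      ((mt.comp m3).inner m4)).stronglyMeasurable.integral_prod_right').measurable,
    fun t ht => ?_⟩
  have hs : √(1 - t ^ 2) ^ 2 = 1 - t ^ 2 :=
    Real.sq_sqrt (by nlinarith [sq_abs t, abs_nonneg t])
  have e1 : ⟪e, e⟫ = 1 := by rw [real_inner_self_eq_norm_sq, he, one_pow]
  have e2 : ⟪e', e'⟫ = 1 := by rw [real_inner_self_eq_norm_sq, he', one_pow]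
  have e3 : ⟪e', e⟫ = 0 := by rw [real_inner_comm, hee]
  have un : ∀ {y : Eu (n + 3)}, ⟪y, y⟫ = 1 → ‖y‖ = 1 := fun hy => by
    rw [norm_eq_sqrt_real_inner, hy, Real.sqrt_one]
  have u1 : ‖rot e e' t‖ = 1 := un (by
    simp only [rot, inner_add_left, inner_add_right, real_inner_smul_left, real_inner_smul_right,
      e1, e2, e3, hee]
    linear_combination hs)
  have u2 : ‖√(1 - t ^ 2) • e - t • e'‖ = 1 := un (by
    simp only [inner_sub_left, inner_sub_right, real_inner_smul_left, real_inner_smul_right,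
      e1, e2, e3, hee]
    linear_combination hs)
  have u3 : ⟪rot e e' t, √(1 - t ^ 2) • e - t • e'⟫ = 0 := by
    simp only [rot, inner_add_left, inner_sub_right, real_inner_smul_left, real_inner_smul_right,
      e1, e2, e3, hee]
    ring
  obtain ⟨a1, a2⟩ := c7_int H S he
  obtain ⟨b1, b2⟩ := c7_int H S u1
  obtain ⟨c1, c2⟩ := c7_int2 H S he he' hee
  obtain ⟨d1, d2⟩ := c7_int2 H S u1 u2 u3
  refine ⟨c7_amgm a1 b1 (fun ω => (abs_real_inner_le_norm _ _).trans ?_) a2 b2,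
    c7_amgm c1 d1 (fun ω => ?_) c2 d2⟩
  · nlinarith [sq_nonneg (‖tn x (U ω e)‖ - ‖tn x (U ω (rot e e' t))‖)]
  · refine abs_le.2 ⟨?_, ?_⟩
    · nlinarith [sq_nonneg (⟪tn x (U ω e), U ω e'⟫ +
        ⟪tn x (U ω (rot e e' t)), U ω (√(1 - t ^ 2) • e - t • e')⟫)]
    · nlinarith [sq_nonneg (⟪tn x (U ω e), U ω e'⟫ -
        ⟪tn x (U ω (rot e e' t)), U ω (√(1 - t ^ 2) • e - t • e')⟫)]

theorem c7_dens {n : ℕ} (hn : 0 < n) (Φ : ℝ → ℝ) :
    ∫ t, (1 - t ^ 2) * Φ t ∂tl n = n / (n + 1) * ∫ t, Φ t ∂tl (n + 2) := by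
  have p0 := ad_pos hn
  have p1 := ad_pos (Nat.succ_pos n)
  have p2 := ad_pos (Nat.succ_pos (n + 1))
  have e0 := ad_mul n
  have e1 := ad_mul (n + 1)
  rw [tl_dens hn, integral_withDensity_eq_integral_toReal_smul (by fun_prop) (by simp),
    tl_dens (Nat.succ_pos n), integral_withDensity_eq_integral_toReal_smul (by fun_prop) (by simp),
    ← integral_const_mul]
  refine integral_congr_ae ?_
  filter_upwards [tl_ae (Nat.succ_pos (n + 1))] with t ht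
  have h1 : 0 < 1 - t ^ 2 := by nlinarith [sq_abs t, abs_nonneg t]
  have h2 := Real.sqrt_pos.2 h1
  have h3 := Real.sq_sqrt h1.le
  rw [ENNReal.toReal_ofReal (by positivity), ENNReal.toReal_ofReal (by positivity), smul_eq_mul,
    smul_eq_mul, ← e0]
  push_cast at e1
  rw [← e0] at e1
  rw [← e1]
  generalize √(1 - t ^ 2) = s at h2 h3
  rw [← h3]
  field_simp

theorem c7_bd {n : ℕ} (hn : 0 < n) {Ψ : ℝ → ℝ} {B : ℝ} (hb : ∀ t, |t| ≤ 1 → |Ψ t| ≤ B) (j : ℕ) :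
    ∀ᵐ t ∂tl n, ‖t ^ (2 * j) * Ψ t‖ ≤ t ^ (2 * j) * B ∧ t ^ (2 * j) ≤ 1 ∧ 0 ≤ t ^ (2 * j) := by
  filter_upwards [tl_ae hn] with t ht
  have h0 : 0 ≤ t ^ (2 * j) := (even_two_mul j).pow_nonneg t
  refine ⟨?_, ?_, h0⟩
  · rw [norm_mul, Real.norm_of_nonneg h0]
    exact mul_le_mul_of_nonneg_left (hb t ht.le) h0
  · rw [← (even_two_mul j).pow_abs]
    exact pow_le_one₀ (abs_nonneg t) ht.le

theorem c7_int3 {n : ℕ} (hn : 0 < n) {Ψ : ℝ → ℝ} {B : ℝ} (hm : Measurable Ψ)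
    (hb : ∀ t, |t| ≤ 1 → |Ψ t| ≤ B) (j : ℕ) : Integrable (fun t => t ^ (2 * j) * Ψ t) (tl n) := by
  have hB : 0 ≤ B := (abs_nonneg _).trans (hb 0 (by simp))
  refine Integrable.of_bound (Measurable.aestronglyMeasurable (by fun_prop)) B ?_
  filter_upwards [c7_bd hn hb j] with t ht
  exact ht.1.trans (mul_le_of_le_one_left hB ht.2.1)

/-- `tl_dens` twice, `1/(1-t²) = ∑ t^(2j) + t^(2J)/(1-t²)`, `mom_tl`; the constant is at most one. -/
theorem tl_expand (J : ℕ) : ∃ C : ℝ, 0 < C ∧ ∀ n : ℕ, 0 < n → ∃ c : ℝ, 0 ≤ c ∧ c ≤ 1 ∧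
    ∀ (Ψ : ℝ → ℝ) (B : ℝ), Measurable Ψ → (∀ t, |t| ≤ 1 → |Ψ t| ≤ B) →
      ∫ t, Ψ t ∂tl n = c * ∑ j ∈ Finset.range J, ∫ t, t ^ (2 * j) * Ψ t ∂tl (n + 2) +
        ∫ t, t ^ (2 * J) * Ψ t ∂tl n ∧ |∫ t, t ^ (2 * J) * Ψ t ∂tl n| ≤ C * B / (n + 1) ^ J := by
  obtain ⟨C, hC, h⟩ := mom_tl J
  refine ⟨C, hC, fun n hn => ⟨n / (n + 1), by positivity,
    div_le_one_of_le₀ (by linarith) (by positivity), fun Ψ B hm hb => ⟨?_, ?_⟩⟩⟩
  · have i0 : Integrable Ψ (tl n) := by simpa using c7_int3 hn hm hb 0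
    rw [← sub_eq_iff_eq_add, ← integral_sub i0 (c7_int3 hn hm hb J),
      ← integral_finsetSum _ fun j _ => c7_int3 (Nat.succ_pos (n + 1)) hm hb j, ← c7_dens hn]
    refine integral_congr_ae (Filter.Eventually.of_forall fun t => ?_)
    simp only [pow_mul, ← Finset.sum_mul]
    rw [← mul_assoc, mul_neg_geom_sum]
    ring
  · have hB : 0 ≤ B := (abs_nonneg _).trans (hb 0 (by simp))
    have i1 : Integrable (fun t : ℝ => t ^ (2 * J)) (tl n) := by
      simpa using c7_int3 hn (Ψ := fun _ => 1) (B := 1) measurable_const (by simp) J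
    refine (norm_integral_le_of_norm_le (i1.mul_const B)
      ((c7_bd hn hb J).mono fun t ht => ht.1)).trans ?_
    rw [integral_mul_const, mul_div_right_comm]
    exact mul_le_mul_of_nonneg_right (h n) hB

end

end Pool.Agent.Lib.MP_77d991_gt.Ex
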