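import Pool.Agent.Lib.MP_77d991_gt.Ex.C7
import Pool.Agent.Lib.MP_77d991_gt.Ex.B2

open MeasureTheory ProbabilityTheory Set
open scoped RealInnerProductSpace

namespace Pool.Agent.Lib.MP_77d991_gt.Ex

open Pool.Agent.Lib.MP_77d991_gt.As

section

variable {d : ℕ} {h : Eu d → ℝ} {x : Eu d → Eu d} {R : ℝ}

theorem c8_int (hd : 0 < d) {F : Eu d → ℝ} (hF : Measurable F) {C : ℝ}
    (hb : ∀ u, ‖u‖ = 1 → |F u| ≤ C) : Integrable F (sph d) :=
  Integrable.of_bound hF.aestronglyMeasurable C ((sph_unit hd).mono hb)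

theorem c8_meas (S : Sel h x R) : Measurable (tn x) := by
  have := S.meas
  unfold tn
  fun_prop

theorem c8_le (S : Sel h x R) {u : Eu d} (hu : ‖u‖ = 1) : ‖tn x u‖ ≤ R := by
  refine le_trans (abs_le_of_sq_le_sq' ?_ (norm_nonneg _)).2 (S.bdd u)
  rw [(Nf_sq S hu).2.1]
  exact le_add_of_nonneg_right (sq_nonneg _)

theorem c8_dev (hd : 0 < d) (S : Sel h x R) {Q : Eu d → ℝ} (hQ : Measurable Q) {B : ℝ}
    (hb : ∀ u, ‖u‖ = 1 → |Q u| ≤ B) :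
    |∫ u, h u * Q u ∂sph d - ∫ u, ‖u‖ * Q u ∂sph d| ≤ B * mab h := by
  have hm := S.cont.measurable
  have hR := S.R_nonneg
  have h1 : ∀ u : Eu d, ‖u‖ = 1 → |h u| ≤ R := fun u hu => by
    rw [abs_of_nonneg (S.h_nonneg u)]
    simpa [hu] using S.h_le u
  rw [← integral_sub (c8_int hd (by fun_prop) (C := R * B) fun u hu => by
      rw [abs_mul]; exact mul_le_mul (h1 u hu) (hb u hu) (abs_nonneg _) hR)
    (c8_int hd (by fun_prop) (C := B) fun u hu => by rw [hu, one_mul]; exact hb u hu),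
    mab, ← integral_const_mul]
  refine norm_integral_le_of_norm_le (f := fun u => h u * Q u - ‖u‖ * Q u)
    ((c8_int hd (by fun_prop) (C := R + 1) fun u hu => ?_).const_mul B)
    ((sph_unit hd).mono fun u hu => ?_)
  · rw [abs_abs]
    exact (abs_sub _ _).trans (by rw [abs_one]; linarith [h1 u hu])
  · rw [hu, ← sub_mul, Real.norm_eq_abs, abs_mul, mul_comm]
    exact mul_le_mul_of_nonneg_right (hb u hu) (abs_nonneg _)

theorem c8_P {p q : Eu d} (hp : ‖p‖ ≤ 1) (hq : ‖q‖ ≤ 1) (a b : ℕ) (g : Eu d) :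
    |⟪g, p⟫ ^ a * ⟪g, q⟫ ^ b| ≤ ‖g‖ ^ (a + b) := by
  have key : ∀ r : Eu d, ‖r‖ ≤ 1 → |⟪g, r⟫| ≤ ‖g‖ := fun r hr =>
    (abs_real_inner_le_norm _ _).trans (mul_le_of_le_one_right (norm_nonneg _) hr)
  rw [abs_mul, abs_pow, abs_pow, pow_add]
  exact mul_le_mul (pow_le_pow_left₀ (abs_nonneg _) (key p hp) a)
    (pow_le_pow_left₀ (abs_nonneg _) (key q hq) b) (by positivity) (by positivity)

theorem c8_rad (hd : 0 < d) (S : Sel h x R) {Q : Eu d → ℝ} (hQ : Measurable Q) {B : ℝ} (k : ℕ)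
    (hb : ∀ g, |Q g| ≤ B * ‖g‖ ^ k) (hh : ∀ (c : ℝ) (y : Eu d), Q (c • y) = c ^ k * Q y) :
    Integrable (fun g => h g * Q g) (stdGaussian (Eu d)) ∧
      ∫ g, h g * Q g ∂stdGaussian (Eu d) =
        (∫ g, ‖g‖ ^ (k + 1) ∂stdGaussian (Eu d)) * ∫ u, h u * Q u ∂sph d := by
  have hm := S.cont.measurable
  have h1 : ∀ g, |h g * Q g| ≤ R * B * ‖g‖ ^ (k + 1) := fun g => by
    rw [abs_mul, abs_of_nonneg (S.h_nonneg g)]
    refine (mul_le_mul (S.h_le g) (hb g) (abs_nonneg _)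
      (mul_nonneg S.R_nonneg (norm_nonneg _))).trans_eq (by ring)
  refine ⟨((integrable_norm_pow (k + 1)).const_mul (R * B)).mono'
    (by fun_prop : Measurable fun g => h g * Q g).aestronglyMeasurable (.of_forall h1),
    rad hd (by fun_prop) _ (C := R * B) (fun u hu => by simpa [hu] using h1 u) fun c y hc => ?_⟩
  rw [S.h_smul, abs_of_pos hc, hh]
  ring

theorem c8_ibp (hd : 0 < d) (S : Sel h x R) (w : Eu d) {p q : Eu d} (hp : ‖p‖ ≤ 1) (hq : ‖q‖ ≤ 1)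
    (j i : ℕ) : (∫ g, ‖g‖ ^ (j + i) ∂stdGaussian (Eu d)) *
        ∫ u, ⟪x u, w⟫ * (⟪u, p⟫ ^ j * ⟪u, q⟫ ^ i) ∂sph d =
      (∫ g, ‖g‖ ^ (j + i + 1 + 1) ∂stdGaussian (Eu d)) *
          ∫ u, h u * (⟪u, w⟫ * (⟪u, p⟫ ^ j * ⟪u, q⟫ ^ i)) ∂sph d -
        j * ⟪p, w⟫ * ((∫ g, ‖g‖ ^ (j - 1 + i + 1) ∂stdGaussian (Eu d)) *
          ∫ u, h u * (⟪u, p⟫ ^ (j - 1) * ⟪u, q⟫ ^ i) ∂sph d) -
        i * ⟪q, w⟫ * ((∫ g, ‖g‖ ^ (j + (i - 1) + 1) ∂stdGaussian (Eu d)) *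
          ∫ u, h u * (⟪u, p⟫ ^ j * ⟪u, q⟫ ^ (i - 1)) ∂sph d) := by
  have hx := S.meas
  have k0 : ∀ a b : ℕ, _ := fun a b => c8_rad hd S (Q := fun u => ⟪u, p⟫ ^ a * ⟪u, q⟫ ^ b)
    (by fun_prop) (B := 1) (a + b) (fun g => by rw [one_mul]; exact c8_P hp hq a b g)
    fun c y => by simp only [real_inner_smul_left]; ring
  have k1 := c8_rad hd S (Q := fun u => ⟪u, w⟫ * (⟪u, p⟫ ^ j * ⟪u, q⟫ ^ i)) (by fun_prop)
    (B := ‖w‖) (j + i + 1) (fun g => by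
      rw [abs_mul]
      exact (mul_le_mul (abs_real_inner_le_norm _ _) (c8_P hp hq j i g) (abs_nonneg _)
        (by positivity)).trans_eq (by ring))
    fun c y => by simp only [real_inner_smul_left]; ring
  rw [← (k0 _ _).2, ← (k0 _ _).2, ← k1.2, ← integral_const_mul, ← integral_const_mul,
    ← integral_const_mul, ← integral_sub k1.1 ((k0 _ _).1.const_mul _),
    ← integral_sub (by exact k1.1.sub ((k0 _ _).1.const_mul _)) ((k0 _ _).1.const_mul _),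
    integral_const_mul, ← rad hd (F := fun u => ⟪x u, w⟫ * (⟪u, p⟫ ^ j * ⟪u, q⟫ ^ i)) (by fun_prop)
      (j + i) (C := R * ‖w‖) (fun u hu => ?_) (fun c y hc => ?_), ibp S]
  · exact integral_congr_ae (.of_forall fun g => by ring)
  · have h1 := c8_P hp hq j i u
    rw [hu, one_pow] at h1
    rw [abs_mul]
    exact (mul_le_of_le_one_right (abs_nonneg _) h1).trans ((abs_real_inner_le_norm _ _).trans
      (mul_le_mul_of_nonneg_right (S.bdd u) (norm_nonneg _)))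
  · simp only [real_inner_smul_left, S.hom c y hc]
    ring

theorem c8_mom (K : ℕ) : ∃ C : ℝ, 0 < C ∧ ∀ k ≤ K, ∀ d : ℕ, 0 < d →
    ∫ g, ‖g‖ ^ k ∂stdGaussian (Eu d) ≤ C * d ^ K ∧ C⁻¹ ≤ ∫ g, ‖g‖ ^ k ∂stdGaussian (Eu d) := by
  choose c hc h using mom_norm
  have h1 : ∀ k ≤ K, c k ≤ ∑ l ∈ Finset.range (K + 1), c l := fun k hk =>
    Finset.single_le_sum (fun l _ => (hc l).le) (Finset.mem_range.2 (by omega))
  refine ⟨_, (hc 0).trans_le (h1 0 K.zero_le), fun k hk d hd => ⟨(h k d hd).1.trans ?_,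
    (inv_anti₀ (hc k) (h1 k hk)).trans (h k d hd).2⟩⟩
  exact mul_le_mul (h1 k hk) (pow_le_pow_right₀ (by exact_mod_cast hd) hk) (by positivity)
    ((hc k).le.trans (h1 k hk))

end

theorem c8_first {n : ℕ} {Ω : Type} [MeasurableSpace Ω] {ν : Measure Ω}
    {U : Ω → (Eu (n + 1) ≃ₗᵢ[ℝ] Eu (n + 1))} (H : Haar ν U) {h : Eu (n + 1) → ℝ}
    {x : Eu (n + 1) → Eu (n + 1)} {R : ℝ} (P : Pos h x R) {e e' : Eu (n + 1)} (he : ‖e‖ = 1)
    (he' : ‖e'‖ = 1) (hee : ⟪e, e'⟫ = 0) : ∫ t, t * Lam1 ν U x e e' t ∂tl n = 0 := by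
  have hm := c8_meas P.sel
  have hΨ : Measurable fun p : Eu (n + 1) × Eu (n + 1) => ⟪tn x p.1, tn x p.2⟫ * ⟪p.1, p.2⟫ := by
    fun_prop
  have hb : ∀ y y' : Eu (n + 1), ‖y‖ = 1 → ‖y'‖ = 1 → |⟪tn x y, tn x y'⟫ * ⟪y, y'⟫| ≤ R * R :=
    fun y y' hy hy' => by
      have h1 := abs_real_inner_le_norm y y'
      rw [hy, hy', one_mul] at h1
      rw [abs_mul]
      exact (mul_le_of_le_one_right (abs_nonneg _) h1).trans ((abs_real_inner_le_norm _ _).trans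
        (mul_le_mul (c8_le P.sel hy) (c8_le P.sel hy') (norm_nonneg _) P.sel.R_nonneg))
  have h1 := H.full he he' hee hΨ hb
  rw [integral_prod_symm _ (Integrable.of_bound hΨ.aestronglyMeasurable (R * R) (by
    filter_upwards [Measure.quasiMeasurePreserving_fst.ae (sph_unit n.succ_pos),
      Measure.quasiMeasurePreserving_snd.ae (sph_unit n.succ_pos)] with p h1 h2
    exact hb _ _ h1 h2))] at h1
  simp only [P.tn_lin n.succ_pos, integral_zero] at h1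
  refine Eq.trans (integral_congr_ae (.of_forall fun t => ?_)) h1.symm
  have h2 : ⟪e, rot e e' t⟫ = t := by
    rw [rot, inner_add_right, real_inner_smul_right, real_inner_smul_right, hee,
      real_inner_self_eq_norm_sq, he]
    ring
  simp only [LinearIsometryEquiv.inner_map_map, h2]
  rw [integral_mul_const, mul_comm, Lam1]

theorem c8_mono {d : ℕ} {x : Eu d → Eu d} {k k' : ℝ} (h : QB x k) (hk : k ≤ k') : QB x k' :=
  fun Ω m ν U H w hw i0 i l hi => (h Ω m ν U H w hw i0 i l hi).trans hk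

/-- `tl_expand 1` for `t * Lam1`: the first term is `∑ (∫ tn_a u_b)² = 0` (`Haar.full`,
`Pos.tn_lin`), the rest is at most `bsq ∫ |t|³`; `t² Lam2` by `lam_le` and `mom_tl`. -/
theorem qb_pos : ∃ (C : ℝ) (d0 : ℕ), 0 < C ∧ ∀ d ≥ d0, ∀ (h : Eu d → ℝ) (x : Eu d → Eu d) (R : ℝ),
    Pos h x R → QB x (C * bsq x / (d * √(√(d : ℝ)))) := by
  obtain ⟨C0, -, hE⟩ := tl_expand 1
  obtain ⟨C1, hC1, m1⟩ := mom_tl 1
  obtain ⟨C2, hC2, m2⟩ := mom_tl 2
  refine ⟨64 * √(2 * C1 + C2), 4, by positivity, fun d hd h x R P => ?_⟩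
  obtain ⟨n, rfl⟩ : ∃ n, d = n + 3 := ⟨d - 3, by omega⟩
  have hn : 0 < n := by omega
  have hB : 0 ≤ bsq x := integral_nonneg fun _ => sq_nonneg _
  obtain ⟨s, hs0, hs1, hs⟩ : ∃ s : ℝ, 0 < s ∧ 1 ≤ s ∧ s ^ 4 = n + 1 := by
    refine ⟨√(√((n : ℝ) + 1)), by positivity, Real.one_le_sqrt.2 (Real.one_le_sqrt.2 (by simp)), ?_⟩
    rw [show 4 = 2 * 2 from rfl, pow_mul, Real.sq_sqrt (Real.sqrt_nonneg _),
      Real.sq_sqrt (by positivity)]
  refine c8_mono (qb_of hn P.sel (k := (2 * C1 + C2) * bsq x / s ^ 6)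
    fun Ω _ ν U H e e' he he' hee => ?_) ?_
  · obtain ⟨l1, l2, l3⟩ := lam_le H P.sel he he' hee
    obtain ⟨c, -, -, hc⟩ := hE n hn
    have hi : ∀ (F : ℝ → ℝ) (C : ℝ), Measurable F → (∀ t, |t| ≤ 1 → |F t| ≤ C) →
        Integrable F (tl n) := fun F C hF hb =>
      Integrable.of_bound hF.aestronglyMeasurable C ((tl_ae hn).mono fun t ht => hb t ht.le)
    have hp : ∀ (k : ℕ) (t : ℝ), |t| ≤ 1 → |t ^ k| ≤ 1 := fun k t ht => by
      rw [abs_pow]; exact pow_le_one₀ (abs_nonneg _) ht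
    have b1 : ∀ t : ℝ, |t| ≤ 1 → |t * Lam1 ν U x e e' t| ≤ bsq x := fun t ht => by
      rw [abs_mul]
      exact (mul_le_of_le_one_left (abs_nonneg _) ht).trans (l3 t ht).1
    have i1 := hi (fun t => t * Lam1 ν U x e e' t) _ (by fun_prop) b1
    have i2 := hi (fun t => t ^ 2 * Lam2 ν U x e e' t) (bsq x / (n + 2)) (by fun_prop) fun t ht => by
      rw [abs_mul]
      exact (mul_le_of_le_one_left (abs_nonneg _) (hp 2 t ht)).trans (l3 t ht).2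
    have i3 := hi (fun t => t ^ (2 * 1) * (t * Lam1 ν U x e e' t)) (bsq x) (by fun_prop)
      fun t ht => by
        rw [abs_mul]
        exact (mul_le_of_le_one_left (abs_nonneg _) (hp _ t ht)).trans (b1 t ht)
    have j1 := hi (fun t => t ^ (2 * 1)) 1 (by fun_prop) (hp _)
    have j2 := hi (fun t => t ^ (2 * 2)) 1 (by fun_prop) (hp _)
    have e1 := (hc (fun t => t * Lam1 ν U x e e' t) _ (by fun_prop) b1).1
    simp only [Finset.range_one, Finset.sum_singleton, mul_zero, pow_zero, one_mul] at e1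
    rw [c8_first H P he he' hee, mul_zero, zero_add] at e1
    rw [integral_add i1 i2, e1, ← integral_add i3 i2]
    refine (integral_mono_ae (i3.add i2) ((j1.const_mul (2 * bsq x / s ^ 2)).add
      (j2.const_mul (bsq x * s ^ 2))) ?_).trans ?_
    · filter_upwards [tl_ae hn] with t ht
      obtain ⟨q1, q2⟩ := l3 t ht.le
      have q3 : t * Lam1 ν U x e e' t ≤ bsq x * (1 / s ^ 2 + s ^ 2 * t ^ 2) := by
        refine (le_abs_self _).trans ?_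
        rw [abs_mul, mul_comm]
        refine mul_le_mul q1 ?_ (abs_nonneg _) hB
        rw [← sq_abs t, ← sub_nonneg]
        have : 1 / s ^ 2 + s ^ 2 * |t| ^ 2 - |t| = ((s ^ 2 * |t| - 1) ^ 2 + s ^ 2 * |t|) / s ^ 2 := by
          field_simp
          ring
        rw [this]
        positivity
      have q4 : Lam2 ν U x e e' t ≤ bsq x / s ^ 2 := by
        refine (le_abs_self _).trans (q2.trans (div_le_div_of_nonneg_left hB (by positivity) ?_))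
        linarith [pow_le_pow_right₀ hs1 (show 2 ≤ 4 by norm_num)]
      have q5 := mul_le_mul_of_nonneg_left q3 (sq_nonneg t)
      have q6 := mul_le_mul_of_nonneg_left q4 (sq_nonneg t)
      refine (add_le_add q5 q6).trans_eq ?_
      simp only [Pi.add_apply]
      ring
    · rw [integral_add' (j1.const_mul _) (j2.const_mul _), integral_const_mul, integral_const_mul]
      refine (add_le_add (mul_le_mul_of_nonneg_left (m1 n) (by positivity))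
        (mul_le_mul_of_nonneg_left (m2 n) (by positivity))).trans_eq ?_
      rw [← hs]
      field_simp
  · have e1 : bsq x * ((2 * C1 + C2) * bsq x / s ^ 6 / (n + 1)) =
        (√(2 * C1 + C2) * bsq x / s ^ 5) ^ 2 := by
      rw [← hs, div_pow, mul_pow, Real.sq_sqrt (by positivity)]
      field_simp
    rw [e1, Real.sqrt_sq (by positivity)]
    have e2 : ((n + 3 : ℕ) : ℝ) ≤ 16 * s ^ 4 := by
      rw [hs]; push_cast; linarith [(Nat.cast_nonneg n : (0 : ℝ) ≤ n)]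
    have e3 : √(√((n + 3 : ℕ) : ℝ)) ≤ 2 * s :=
      Real.sqrt_le_iff.2 ⟨by positivity, Real.sqrt_le_iff.2 ⟨by positivity, e2.trans_eq (by ring)⟩⟩
    have e4 : ((n + 3 : ℕ) : ℝ) * √(√((n + 3 : ℕ) : ℝ)) ≤ 32 * s ^ 5 :=
      (mul_le_mul e2 e3 (by positivity) (by positivity)).trans_eq (by ring)
    refine le_trans (le_of_eq ?_) (div_le_div_of_nonneg_left (by positivity) (by positivity) e4)
    field_simp
    ring

/-- `ibp` for `h` and for the norm (subtract), `rad`, `mom_norm`;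
`⟪tn x u, w⟫ = ⟪Nf x u, w⟫ - (h u - 1) ⟪u, w⟫`. -/
theorem tn_poly (j : ℕ) : ∃ (C : ℝ) (k : ℕ), 0 < C ∧ ∀ d : ℕ, 0 < d → ∀ (h : Eu d → ℝ)
    (x : Eu d → Eu d) (R : ℝ), Sel h x R → ∀ (p q w : Eu d), ‖p‖ ≤ 1 → ∀ i ≤ 1, ‖q‖ ≤ 1 →
      |∫ u, ⟪tn x u, w⟫ * (⟪u, p⟫ ^ j * ⟪u, q⟫ ^ i) ∂sph d| ≤ C * d ^ k * mab h * ‖w‖ := by
  obtain ⟨C, hC, hm⟩ := c8_mom (j + 3)
  refine ⟨C * C * (j + 2) + 1, j + 3, by positivity, fun d hd h x R S p q w hp i hi hq => ?_⟩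
  have hx := S.meas
  have hh := S.cont.measurable
  have hP : ∀ (a b : ℕ) (u : Eu d), ‖u‖ = 1 → |⟪u, p⟫ ^ a * ⟪u, q⟫ ^ b| ≤ 1 := fun a b u hu => by
    simpa only [hu, one_pow] using c8_P hp hq a b u
  have hW : ∀ (y u : Eu d), ‖u‖ = 1 → |⟪y, w⟫ * (⟪u, p⟫ ^ j * ⟪u, q⟫ ^ i)| ≤ ‖y‖ * ‖w‖ :=
    fun y u hu => by
      rw [abs_mul]
      exact (mul_le_of_le_one_right (abs_nonneg _) (hP j i u hu)).trans
        (abs_real_inner_le_norm _ _)
  have e1 := c8_ibp hd S w hp hq j i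
  have e0 := c8_ibp hd sel_nz w hp hq j i
  have d1 := c8_dev hd S (Q := fun u => ⟪u, w⟫ * (⟪u, p⟫ ^ j * ⟪u, q⟫ ^ i)) (by fun_prop)
    (B := ‖w‖) fun u hu => by simpa only [hu, one_mul] using hW u u hu
  have d2 := c8_dev hd S (Q := fun u => ⟪u, p⟫ ^ (j - 1) * ⟪u, q⟫ ^ i) (by fun_prop) (hP _ _)
  have d3 := c8_dev hd S (Q := fun u => ⟪u, p⟫ ^ j * ⟪u, q⟫ ^ (i - 1)) (by fun_prop) (hP _ _)
  have e2 : ∫ u, ⟪nz u, w⟫ * (⟪u, p⟫ ^ j * ⟪u, q⟫ ^ i) ∂sph d =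
      ∫ u, ‖u‖ * (⟪u, w⟫ * (⟪u, p⟫ ^ j * ⟪u, q⟫ ^ i)) ∂sph d :=
    integral_congr_ae ((sph_unit hd).mono fun u hu => by simp only [nz, hu, inv_one, one_smul, one_mul])
  have e3 : ∫ u, ⟪tn x u, w⟫ * (⟪u, p⟫ ^ j * ⟪u, q⟫ ^ i) ∂sph d =
      ∫ u, ⟪x u, w⟫ * (⟪u, p⟫ ^ j * ⟪u, q⟫ ^ i) ∂sph d -
        ∫ u, h u * (⟪u, w⟫ * (⟪u, p⟫ ^ j * ⟪u, q⟫ ^ i)) ∂sph d := by
    rw [← integral_sub (c8_int hd (by fun_prop) (C := R * ‖w‖) fun u hu =>
      (hW _ u hu).trans (mul_le_mul_of_nonneg_right (S.bdd u) (norm_nonneg _)))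
      (c8_int hd (by fun_prop) (C := R * ‖w‖) fun u hu => by
        rw [abs_mul, abs_of_nonneg (S.h_nonneg u)]
        exact mul_le_mul (by simpa only [hu, mul_one] using S.h_le u)
          (by simpa only [hu, one_mul] using hW u u hu) (abs_nonneg _) S.R_nonneg)]
    refine integral_congr_ae (.of_forall fun u => ?_)
    simp only [tn, inner_sub_left, real_inner_smul_left, S.eq]
    ring
  rw [e2] at e0
  rw [e3]
  have u0 := (hm (j + i) (by omega) d hd).2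
  obtain ⟨u1, v1⟩ := hm (j + i + 1 + 1) (by omega) d hd
  obtain ⟨u2, v2⟩ := hm (j - 1 + i + 1) (by omega) d hd
  obtain ⟨u3, v3⟩ := hm (j + (i - 1) + 1) (by omega) d hd
  have hM : 0 ≤ mab h := integral_nonneg fun _ => abs_nonneg _
  have hD : (1 : ℝ) ≤ d ^ (j + 3) := one_le_pow₀ (by exact_mod_cast hd)
  have w1 : |(j : ℝ) * ⟪p, w⟫| ≤ j * ‖w‖ := by
    rw [abs_mul, Nat.abs_cast]
    exact mul_le_mul_of_nonneg_left ((abs_real_inner_le_norm _ _).trans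
      (mul_le_of_le_one_left (norm_nonneg _) hp)) (Nat.cast_nonneg _)
  have w2 : |(i : ℝ) * ⟪q, w⟫| ≤ ‖w‖ := by
    rw [abs_mul, Nat.abs_cast]
    exact (mul_le_of_le_one_left (abs_nonneg _) (by exact_mod_cast hi)).trans
      ((abs_real_inner_le_norm _ _).trans (mul_le_of_le_one_left (norm_nonneg _) hq))
  have hCi := inv_pos.2 hC
  have hw := norm_nonneg w
  generalize (d : ℝ) ^ (j + 3) = D at *
  generalize ∫ g, ‖g‖ ^ (j + i) ∂stdGaussian (Eu d) = m0 at *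
  generalize ∫ g, ‖g‖ ^ (j + i + 1 + 1) ∂stdGaussian (Eu d) = m1 at *
  generalize ∫ g, ‖g‖ ^ (j - 1 + i + 1) ∂stdGaussian (Eu d) = m2 at e0 e1 u2 v2
  generalize ∫ g, ‖g‖ ^ (j + (i - 1) + 1) ∂stdGaussian (Eu d) = m3 at e0 e1 u3 v3
  generalize ∫ u, ⟪x u, w⟫ * (⟪u, p⟫ ^ j * ⟪u, q⟫ ^ i) ∂sph d = a1 at *
  generalize ∫ u, h u * (⟪u, w⟫ * (⟪u, p⟫ ^ j * ⟪u, q⟫ ^ i)) ∂sph d = b1 at *
  generalize ∫ u, ‖u‖ * (⟪u, w⟫ * (⟪u, p⟫ ^ j * ⟪u, q⟫ ^ i)) ∂sph d = b0 at *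
  generalize ∫ u, h u * (⟪u, p⟫ ^ (j - 1) * ⟪u, q⟫ ^ i) ∂sph d = c1 at *
  generalize ∫ u, ‖u‖ * (⟪u, p⟫ ^ (j - 1) * ⟪u, q⟫ ^ i) ∂sph d = c0 at *
  generalize ∫ u, h u * (⟪u, p⟫ ^ j * ⟪u, q⟫ ^ (i - 1)) ∂sph d = f1 at *
  generalize ∫ u, ‖u‖ * (⟪u, p⟫ ^ j * ⟪u, q⟫ ^ (i - 1)) ∂sph d = f0 at *
  generalize (j : ℝ) * ⟪p, w⟫ = J at *
  generalize (i : ℝ) * ⟪q, w⟫ = I at *
  have hm0 : 0 < m0 := hCi.trans_le u0
  have e4 : m0 * (a1 - b0) = m1 * (b1 - b0) - J * (m2 * (c1 - c0)) - I * (m3 * (f1 - f0)) := by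
    linear_combination e1 - e0
  have key : ∀ m z B : ℝ, C⁻¹ ≤ m → m ≤ C * D → |z| ≤ B → |m * z| ≤ C * D * B :=
    fun m z B h1 h2 h3 => by
      rw [abs_mul, abs_of_pos (hCi.trans_le h1)]
      exact mul_le_mul h2 h3 (abs_nonneg _) (by positivity)
  have e5 : m0 * |a1 - b0| ≤ C * D * (j + 2) * mab h * ‖w‖ := by
    rw [← abs_of_pos hm0, ← abs_mul, e4]
    refine ((abs_sub _ _).trans (add_le_add (abs_sub _ _) le_rfl)).trans ?_
    rw [abs_mul J, abs_mul I]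
    refine (add_le_add (add_le_add (key _ _ _ v1 u1 d1)
      (mul_le_mul w1 (key _ _ _ v2 u2 d2) (abs_nonneg _) (by positivity)))
      (mul_le_mul w2 (key _ _ _ v3 u3 d3) (abs_nonneg _) hw)).trans_eq (by ring)
  have e6 : |a1 - b0| ≤ C * (C * D * (j + 2) * mab h * ‖w‖) := by
    rw [← inv_mul_le_iff₀ hC]
    exact (mul_le_mul_of_nonneg_right u0 (abs_nonneg _)).trans e5
  have e7 : ‖w‖ * mab h ≤ D * (‖w‖ * mab h) := le_mul_of_one_le_left (by positivity) hD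
  rw [show a1 - b1 = a1 - b0 - (b1 - b0) by ring]
  exact ((abs_sub _ _).trans (add_le_add e6 (d1.trans e7))).trans_eq (by ring)

end Pool.Agent.Lib.MP_77d991_gt.Ex
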