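import Pool.Agent.Lib.MP_77d991_gt.Ex.C8

open MeasureTheory ProbabilityTheory Set
open scoped RealInnerProductSpace

namespace Pool.Agent.Lib.MP_77d991_gt.Ex

open Pool.Agent.Lib.MP_77d991_gt.As

theorem c9_int {n : ℕ} (hn : 0 < n) {Ψ : ℝ → ℝ} {B : ℝ} (hm : Measurable Ψ)
    (hb : ∀ t, |t| ≤ 1 → |Ψ t| ≤ B) : Integrable Ψ (tl n) :=
  Integrable.of_bound hm.aestronglyMeasurable B ((tl_ae hn).mono fun t ht => hb t ht.le)

theorem c9_pow {t a B : ℝ} (ht : |t| ≤ 1) (ha : |a| ≤ B) (m : ℕ) : |t ^ m * a| ≤ B := by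
  rw [abs_mul, abs_pow]
  exact (mul_le_of_le_one_left (abs_nonneg _) (pow_le_one₀ (abs_nonneg _) ht)).trans ha

theorem c9_uni (M : ℕ) : ∃ (C : ℝ) (k : ℕ), 0 < C ∧ ∀ j ≤ M, ∀ d : ℕ, 0 < d →
    ∀ (h : Eu d → ℝ) (x : Eu d → Eu d) (R : ℝ), Sel h x R → ∀ (p q w : Eu d), ‖p‖ ≤ 1 →
      ∀ i ≤ 1, ‖q‖ ≤ 1 →
      |∫ u, ⟪tn x u, w⟫ * (⟪u, p⟫ ^ j * ⟪u, q⟫ ^ i) ∂sph d| ≤ C * d ^ k * mab h * ‖w‖ := by
  choose C k hC H using tn_poly
  refine ⟨∑ j ∈ Finset.range (M + 1), C j, ∑ j ∈ Finset.range (M + 1), k j,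
    Finset.sum_pos (fun j _ => hC j) ⟨0, by simp⟩, fun j hj d hd h x R S p q w hp i hi hq =>
      (H j d hd h x R S p q w hp i hi hq).trans ?_⟩
  have hj' : j ∈ Finset.range (M + 1) := Finset.mem_range.2 (by omega)
  have h1 := Finset.single_le_sum (f := C) (fun j _ => (hC j).le) hj'
  have h2 := Finset.single_le_sum (f := k) (fun j _ => Nat.zero_le _) hj'
  have h3 : (1 : ℝ) ≤ d := by exact_mod_cast hd
  have h4 : 0 ≤ mab h := integral_nonneg fun _ => abs_nonneg _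
  have h5 := (hC j).le.trans h1
  gcongr

section
variable {d : ℕ} {h : Eu d → ℝ} {x : Eu d → Eu d} {R : ℝ}

theorem c9_meas (S : Sel h x R) : Measurable (tn x) :=
  S.meas.sub ((S.meas.inner (𝕜 := ℝ) measurable_id).smul measurable_id)

theorem c9_bd (S : Sel h x R) {u : Eu d} (hu : ‖u‖ = 1) : ‖tn x u‖ ≤ R := by
  have h1 := (Nf_sq S hu).2.1
  have h2 := S.bdd u
  refine le_trans (abs_le_of_sq_le_sq' (by nlinarith [sq_nonneg (h u)]) (norm_nonneg _)).2 h2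

theorem c9_mean (hd : 0 < d) (S : Sel h x R) : ∫ u, ‖tn x u‖ ∂sph d ≤ √(bsq x) := by
  have m1 : MemLp (fun u => ‖tn x u‖) 2 (sph d) :=
    MemLp.of_bound (c9_meas S).norm.aestronglyMeasurable R
      ((sph_unit hd).mono fun u hu => by rw [norm_norm]; exact c9_bd S hu)
  have m2 : MemLp (fun u => ‖Nf x u‖) 2 (sph d) :=
    MemLp.of_bound (meas_Nf S).1.norm.aestronglyMeasurable (R + 1)
      (ae_of_all _ fun u => by rw [norm_norm]; exact (meas_Nf S).2 u)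
  refine Real.le_sqrt_of_sq_le ?_
  have h1 := variance_nonneg (fun u => ‖tn x u‖) (sph d)
  rw [variance_eq_sub m1] at h1
  refine (sub_nonneg.1 h1).trans (integral_mono_ae m1.integrable_sq m2.integrable_sq
    ((sph_unit hd).mono fun u hu => ?_))
  have := (Nf_sq S hu).1
  simp only [Pi.pow_apply]
  nlinarith [sq_nonneg (h u - 1)]

/-- Fubini with a bound for the inner integral. -/
theorem c9_fub (hd : 0 < d) (S : Sel h x R) {Ψ : Eu d × Eu d → ℝ} (hΨ : Measurable Ψ) {C A : ℝ}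
    (hb : ∀ y y', ‖y‖ = 1 → ‖y'‖ = 1 → |Ψ (y, y')| ≤ C) (hA : 0 ≤ A)
    (hi : ∀ y', ‖y'‖ = 1 → |∫ y, Ψ (y, y') ∂sph d| ≤ A * ‖tn x y'‖) :
    |∫ p, Ψ p ∂(sph d).prod (sph d)| ≤ A * √(bsq x) := by
  have hs : MeasurableSet {u : Eu d | ‖u‖ = 1} := measurableSet_eq_fun measurable_norm measurable_const
  have i1 : Integrable Ψ ((sph d).prod (sph d)) := by
    refine Integrable.of_bound hΨ.aestronglyMeasurable C ?_
    have a1 := (Measure.quasiMeasurePreserving_fst (μ := sph d) (ν := sph d)).ae (sph_unit hd)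
    have a2 := (Measure.quasiMeasurePreserving_snd (μ := sph d) (ν := sph d)).ae (sph_unit hd)
    filter_upwards [a1, a2] with p h1 h2 using hb p.1 p.2 h1 h2
  have i2 : Integrable (fun u => A * ‖tn x u‖) (sph d) :=
    (Integrable.of_bound (c9_meas S).norm.aestronglyMeasurable R
      ((sph_unit hd).mono fun u hu => by rw [norm_norm]; exact c9_bd S hu)).const_mul A
  rw [integral_prod_symm _ i1]
  refine (norm_integral_le_of_norm_le (f := fun y' => ∫ y, Ψ (y, y') ∂sph d) i2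
    ((sph_unit hd).mono hi)).trans ?_
  rw [integral_const_mul]
  exact mul_le_mul_of_nonneg_left (c9_mean hd S) hA

theorem c9_in {a b : Eu d} {A B : ℝ} (ha : ‖a‖ ≤ A) (hb : ‖b‖ ≤ B) : |⟪a, b⟫| ≤ A * B :=
  (abs_real_inner_le_norm a b).trans (mul_le_mul ha hb (norm_nonneg _) ((norm_nonneg _).trans ha))

theorem c9_rot {e e' : Eu d} (he : ‖e‖ = 1) (hee : ⟪e, e'⟫ = 0) (t : ℝ) : ⟪e, rot e e' t⟫ = t := by
  rw [rot, inner_add_right, inner_smul_right, inner_smul_right, hee, real_inner_self_eq_norm_sq, he]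
  ring

theorem c9_rot_norm {e e' : Eu d} (he : ‖e‖ = 1) (he' : ‖e'‖ = 1) (hee : ⟪e, e'⟫ = 0) {t : ℝ}
    (ht : |t| ≤ 1) : ‖rot e e' t‖ = 1 := by
  have h1 : 0 ≤ 1 - t ^ 2 := by nlinarith [abs_le.1 ht]
  have h2 : ‖rot e e' t‖ ^ 2 = 1 := by
    rw [rot, norm_add_sq_real, inner_smul_left, inner_smul_right, hee, norm_smul, norm_smul, he,
      he', mul_one, mul_one, Real.norm_eq_abs, Real.norm_eq_abs, sq_abs, sq_abs, Real.sq_sqrt h1]
    ring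
  exact (pow_eq_one_iff_of_nonneg (norm_nonneg _) two_ne_zero).1 h2

end

section
variable {n : ℕ} {Ω : Type} [MeasurableSpace Ω] {ν : Measure Ω}
  {U : Ω → (Eu (n + 3) ≃ₗᵢ[ℝ] Eu (n + 3))} {h : Eu (n + 3) → ℝ} {x : Eu (n + 3) → Eu (n + 3)}
  {R A : ℝ} {e e' : Eu (n + 3)} {m : ℕ}

theorem c9_one (H : Haar ν U) (S : Sel h x R) (he : ‖e‖ = 1) (he' : ‖e'‖ = 1) (hee : ⟪e, e'⟫ = 0)
    (hA : 0 ≤ A) (hP : ∀ p q w : Eu (n + 3), ‖p‖ ≤ 1 → ∀ i ≤ 1, ‖q‖ ≤ 1 →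
      |∫ u, ⟪tn x u, w⟫ * (⟪u, p⟫ ^ m * ⟪u, q⟫ ^ i) ∂sph (n + 3)| ≤ A * ‖w‖) :
    |∫ t, t ^ m * Lam1 ν U x e e' t ∂tl (n + 2)| ≤ A * √(bsq x) := by
  have hm : Measurable fun p : Eu (n + 3) × Eu (n + 3) => ⟪p.1, p.2⟫ ^ m * ⟪tn x p.1, tn x p.2⟫ :=
    ((measurable_fst.inner measurable_snd).pow_const m).mul
      (((c9_meas S).comp measurable_fst).inner ((c9_meas S).comp measurable_snd))
  have hb : ∀ y y' : Eu (n + 3), ‖y‖ = 1 → ‖y'‖ = 1 →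
      |⟪y, y'⟫ ^ m * ⟪tn x y, tn x y'⟫| ≤ R * R := fun y y' hy hy' =>
    c9_pow ((c9_in hy.le hy'.le).trans (mul_one _).le) (c9_in (c9_bd S hy) (c9_bd S hy')) m
  have h1 := H.full he he' hee hm hb
  have h2 := c9_fub (by omega) S hm hb hA fun y' hy' => by
    have := hP y' 0 (tn x y') hy'.le 0 zero_le_one (by simp)
    simpa only [pow_zero, mul_one, one_mul, mul_comm] using this
  rw [h1] at h2
  simpa only [LinearIsometryEquiv.inner_map_map, c9_rot he hee, integral_const_mul, Lam1] using h2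

theorem c9_two (H : Haar ν U) (S : Sel h x R) (he : ‖e‖ = 1) (he' : ‖e'‖ = 1) (hee : ⟪e, e'⟫ = 0)
    (hA : 0 ≤ A) (hP : ∀ p q w : Eu (n + 3), ‖p‖ ≤ 1 → ∀ i ≤ 1, ‖q‖ ≤ 1 →
      |∫ u, ⟪tn x u, w⟫ * (⟪u, p⟫ ^ m * ⟪u, q⟫ ^ i) ∂sph (n + 3)| ≤ A * ‖w‖) :
    |∫ t, t ^ m * ((1 - t ^ 2) * Lam2 ν U x e e' t) ∂tl (n + 2)| ≤ A * √(bsq x) := by
  have hm : Measurable fun p : Eu (n + 3) × Eu (n + 3) =>
      ⟪p.1, p.2⟫ ^ m * (⟪tn x p.1, p.2⟫ * ⟪tn x p.2, p.1⟫) :=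
    ((measurable_fst.inner measurable_snd).pow_const m).mul
      ((((c9_meas S).comp measurable_fst).inner measurable_snd).mul
        (((c9_meas S).comp measurable_snd).inner measurable_fst))
  have hb : ∀ y y' : Eu (n + 3), ‖y‖ = 1 → ‖y'‖ = 1 →
      |⟪y, y'⟫ ^ m * (⟪tn x y, y'⟫ * ⟪tn x y', y⟫)| ≤ R * 1 * (R * 1) := fun y y' hy hy' => by
    refine c9_pow ((c9_in hy.le hy'.le).trans (mul_one _).le) ?_ m
    have b1 := c9_in (c9_bd S hy) hy'.le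
    rw [abs_mul]
    exact mul_le_mul b1 (c9_in (c9_bd S hy') hy.le) (abs_nonneg _) ((abs_nonneg _).trans b1)
  have h1 := H.full he he' hee hm hb
  have h2 := c9_fub (by omega) S hm hb hA fun y' hy' => by
    have h3 : ‖nz (tn x y')‖ ≤ 1 := by
      rw [nz, norm_smul, norm_inv, norm_norm]
      exact inv_mul_le_one_of_le₀ le_rfl (norm_nonneg _)
    have h4 := hP y' (nz (tn x y')) y' hy'.le 1 le_rfl h3
    have h5 : ∀ y, ⟪tn x y', y⟫ = ‖tn x y'‖ * ⟪y, nz (tn x y')⟫ := fun y => by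
      rcases eq_or_ne (tn x y') 0 with h0 | h0
      · simp [h0]
      · rw [nz, inner_smul_right, real_inner_comm, mul_inv_cancel_left₀ (norm_ne_zero_iff.2 h0)]
    have h6 : ∀ y : Eu (n + 3), ⟪y, y'⟫ ^ m * (⟪tn x y, y'⟫ * ⟪tn x y', y⟫) =
        ‖tn x y'‖ * (⟪tn x y, y'⟫ * (⟪y, y'⟫ ^ m * ⟪y, nz (tn x y')⟫ ^ 1)) := fun y => by
      rw [h5]; ring
    simp only [h6]
    rw [integral_const_mul, abs_mul, abs_norm, mul_comm]
    rw [hy', mul_one] at h4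
    exact mul_le_mul_of_nonneg_right h4 (norm_nonneg _)
  rw [h1] at h2
  refine le_of_eq_of_le (congrArg abs (integral_congr_ae
    ((tl_ae (by omega)).mono fun t ht => ?_))) h2
  simp only [LinearIsometryEquiv.inner_map_map, c9_rot he hee, Lam2, ← integral_const_mul]
  refine integral_congr_ae (ae_of_all _ fun ω => ?_)
  have s1 : √(1 - t ^ 2) ^ 2 = 1 - t ^ 2 := Real.sq_sqrt (by nlinarith [abs_le.1 ht.le])
  have z1 := (Nf_sq S (((U ω).norm_map e).trans he)).2.2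
  have z2 := (Nf_sq S (((U ω).norm_map _).trans (c9_rot_norm he he' hee ht.le))).2.2
  beta_reduce
  generalize tn x (U ω (rot e e' t)) = b at z2 ⊢
  generalize tn x (U ω e) = a at z1 ⊢
  simp only [rot, map_add, map_sub, map_smul, inner_add_right, inner_sub_right,
    inner_smul_right] at z2 ⊢
  rw [z1]
  linear_combination (t ^ m * ⟪a, U ω e'⟫ * t * ⟪b, U ω e'⟫) * s1 -
    (t ^ m * ⟪a, U ω e'⟫ * t * √(1 - t ^ 2)) * z2

/-- One term of the expansion. -/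
theorem c9_term (H : Haar ν U) (S : Sel h x R) (he : ‖e‖ = 1) (he' : ‖e'‖ = 1)
    (hee : ⟪e, e'⟫ = 0) (hA : 0 ≤ A) {J j : ℕ} (hj : j < J) {D : ℝ}
    (hP : ∀ m ≤ 4 * J, ∀ p q w : Eu (n + 3), ‖p‖ ≤ 1 → ∀ i ≤ 1, ‖q‖ ≤ 1 →
      |∫ u, ⟪tn x u, w⟫ * (⟪u, p⟫ ^ m * ⟪u, q⟫ ^ i) ∂sph (n + 3)| ≤ A * ‖w‖)
    (hD : ∀ Ψ : ℝ → ℝ, Measurable Ψ → (∀ t, |t| ≤ 1 → |Ψ t| ≤ bsq x) →
      |∫ t, t ^ (2 * J) * Ψ t ∂tl (n + 2)| ≤ D) :
    |∫ t, t ^ (2 * j) * (t * Lam1 ν U x e e' t + t ^ 2 * Lam2 ν U x e e' t) ∂tl (n + 2)| ≤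
      (J + 1) * (A * √(bsq x)) + D := by
  obtain ⟨m1, m2, hb⟩ := lam_le H S he he' hee
  have hb0 : 0 ≤ bsq x := integral_nonneg fun _ => sq_nonneg _
  have hb2 : ∀ t, |t| ≤ 1 → |Lam2 ν U x e e' t| ≤ bsq x := fun t ht =>
    (hb t ht).2.trans (div_le_self hb0 (by linarith [(Nat.cast_nonneg n : (0 : ℝ) ≤ n)]))
  have hb3 : ∀ t, |t| ≤ 1 → |(1 - t ^ 2) * Lam2 ν U x e e' t| ≤ bsq x := fun t ht => by
    have h1 : |1 - t ^ 2| ≤ 1 := abs_le.2 ⟨by nlinarith [abs_le.1 ht], by nlinarith⟩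
    rw [abs_mul]
    exact (mul_le_of_le_one_left (abs_nonneg _) h1).trans (hb2 t ht)
  have e1 : ∀ t : ℝ, t ^ (2 * j) * (t * Lam1 ν U x e e' t + t ^ 2 * Lam2 ν U x e e' t) =
      t ^ (2 * j + 1) * Lam1 ν U x e e' t + ((∑ i ∈ Finset.range J,
        t ^ (2 * j + 2 + 2 * i) * ((1 - t ^ 2) * Lam2 ν U x e e' t)) +
        t ^ (2 * J) * (t ^ (2 * j + 2) * Lam2 ν U x e e' t)) := fun t => by
    have g := mul_neg_geom_sum (t ^ 2) J
    have g2 : ∑ i ∈ Finset.range J, t ^ (2 * j + 2 + 2 * i) * ((1 - t ^ 2) * Lam2 ν U x e e' t) =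
        t ^ (2 * j + 2) * Lam2 ν U x e e' t * ((1 - t ^ 2) * ∑ i ∈ Finset.range J, (t ^ 2) ^ i) := by
      simp only [Finset.mul_sum]
      exact Finset.sum_congr rfl fun i _ => by ring
    rw [g2, g]
    ring
  have mp : ∀ k : ℕ, Measurable fun t : ℝ => t ^ k := fun k => measurable_id.pow_const k
  have i1 : Integrable (fun t => t ^ (2 * j + 1) * Lam1 ν U x e e' t) (tl (n + 2)) :=
    c9_int (by omega) ((mp _).mul m1) fun t ht => c9_pow ht (hb t ht).1 _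
  have i2 : ∀ i, Integrable (fun t => t ^ (2 * j + 2 + 2 * i) *
      ((1 - t ^ 2) * Lam2 ν U x e e' t)) (tl (n + 2)) := fun i =>
    c9_int (by omega) ((mp _).mul ((measurable_const.sub (mp 2)).mul m2)) fun t ht =>
      c9_pow ht (hb3 t ht) _
  have i3 : Integrable (fun t => t ^ (2 * J) * (t ^ (2 * j + 2) * Lam2 ν U x e e' t))
      (tl (n + 2)) :=
    c9_int (by omega) ((mp _).mul ((mp _).mul m2)) fun t ht => c9_pow ht (c9_pow ht (hb2 t ht) _) _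
  have i4 := integrable_finsetSum (Finset.range J) fun i _ => i2 i
  have e2 := integral_add i1 (i4.add i3)
  simp only [Pi.add_apply] at e2
  simp only [e1]
  rw [e2, integral_add i4 i3, integral_finsetSum _ fun i _ => i2 i]
  have b1 := c9_one H S he he' hee hA (hP (2 * j + 1) (by omega))
  have b2 := (Finset.abs_sum_le_sum_abs _ _).trans (Finset.sum_le_card_nsmul (Finset.range J) _ _
    fun i hi => c9_two H S he he' hee hA (hP (2 * j + 2 + 2 * i)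
      (by have := Finset.mem_range.1 hi; omega)))
  have b3 := hD (fun t => t ^ (2 * j + 2) * Lam2 ν U x e e' t) ((mp _).mul m2) fun t ht =>
    c9_pow ht (hb2 t ht) _
  rw [Finset.card_range, nsmul_eq_mul] at b2
  refine (abs_add_le _ _).trans ((add_le_add b1 ((abs_add_le _ _).trans
    (add_le_add b2 b3))).trans (le_of_eq (by ring)))

end

/-- `Lam2 = (1-t²) Lam2 * (∑ t^(2j)) + t^(2J) Lam2`, `tl_expand`, `Haar.full`: every polynomial term is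
`∫∫ t^j ⟪tn u, tn u'⟫` or `∫∫ t^j ⟪tn u, u'⟫ ⟪u, tn u'⟫`, bounded by `tn_poly` in `u` for fixed `u'`. -/
theorem qb_any (J : ℕ) : ∃ (C : ℝ) (k d0 : ℕ), 0 < C ∧ ∀ d ≥ d0, ∀ (h : Eu d → ℝ) (x : Eu d → Eu d)
    (R : ℝ), Sel h x R →
      QB x (C * √(bsq x * (bsq x / d ^ J + d ^ k * mab h * √(bsq x)))) := by
  obtain ⟨C1, k, hC1, hP⟩ := c9_uni (4 * J)
  obtain ⟨C2, hC2, hT⟩ := tl_expand J
  obtain ⟨K, hK⟩ : ∃ K : ℝ, K = J * (J + 1) * C1 + J * C2 + 2 * C2 * 3 ^ J := ⟨_, rfl⟩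
  have hK0 : 0 < K := by rw [hK]; positivity
  refine ⟨2 * √K, k, 4, by positivity, fun d hd h x R S => ?_⟩
  obtain ⟨n, rfl⟩ : ∃ n, d = n + 3 := ⟨d - 3, by omega⟩
  have hn : 0 < n := by omega
  have hb0 : 0 ≤ bsq x := integral_nonneg fun _ => sq_nonneg _
  have hm0 : 0 ≤ mab h := integral_nonneg fun _ => abs_nonneg _
  have hn0 : (0 : ℝ) ≤ n := Nat.cast_nonneg n
  obtain ⟨a, ha⟩ : ∃ a : ℝ, a = bsq x / ((n + 3 : ℕ) : ℝ) ^ J := ⟨_, rfl⟩
  obtain ⟨b, hb⟩ : ∃ b : ℝ, b = ((n + 3 : ℕ) : ℝ) ^ k * mab h * √(bsq x) := ⟨_, rfl⟩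
  have ha0 : 0 ≤ a := by rw [ha]; positivity
  have hb1 : 0 ≤ b := by rw [hb]; positivity
  have key := qb_of (k := K * (a + b)) hn S fun Ω _ ν U H e e' he he' hee => by
    obtain ⟨m1, m2, hl⟩ := lam_le H S he he' hee
    obtain ⟨c, c0, c1, hc⟩ := hT n hn
    obtain ⟨c', -, -, hc'⟩ := hT (n + 2) (by omega)
    obtain ⟨e1, e2⟩ := hc (fun t => t * Lam1 ν U x e e' t + t ^ 2 * Lam2 ν U x e e' t)
      (2 * bsq x) ((measurable_id.mul m1).add ((measurable_id.pow_const 2).mul m2)) fun t ht => by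
        have h1 := c9_pow ht (hl t ht).1 1
        have h2 := c9_pow ht ((hl t ht).2.trans (div_le_self hb0 (by linarith))) 2
        rw [pow_one] at h1
        linarith [abs_add_le (t * Lam1 ν U x e e' t) (t ^ 2 * Lam2 ν U x e e' t)]
    have b1 := Finset.sum_le_card_nsmul (Finset.range J) _ _ fun j hj => (le_abs_self _).trans
      (c9_term (D := C2 * a) H S he he' hee (by positivity) (Finset.mem_range.1 hj)
        (fun m hm => hP m hm (n + 3) (by omega) h x R S) fun Ψ m hΨ =>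
          (hc' Ψ _ m hΨ).2.trans (le_of_eq (by rw [ha]; push_cast; ring)))
    have b2 : C2 * (2 * bsq x) / (n + 1) ^ J ≤ 2 * C2 * 3 ^ J * a := by
      have h1 : ((n + 3 : ℕ) : ℝ) ^ J ≤ 3 ^ J * (n + 1) ^ J := by
        rw [← mul_pow]
        exact pow_le_pow_left₀ (by positivity) (by push_cast; linarith) J
      rw [ha, ← mul_div_assoc, div_le_div_iff₀ (by positivity) (by positivity)]
      linarith [mul_le_mul_of_nonneg_left h1 (show 0 ≤ 2 * C2 * bsq x by positivity)]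
    have b3 : C1 * ((n + 3 : ℕ) : ℝ) ^ k * mab h * √(bsq x) = C1 * b := by rw [hb]; ring
    rw [Finset.card_range, nsmul_eq_mul, b3] at b1
    have b4 : (0 : ℝ) ≤ J * ((J + 1) * (C1 * b) + C2 * a) := by positivity
    have b5 := (mul_le_mul_of_nonneg_left b1 c0).trans (mul_le_of_le_one_left b4 c1)
    have p1 : (0 : ℝ) ≤ J * (J + 1) * C1 * a := by positivity
    have p2 : (0 : ℝ) ≤ (J * C2 + 2 * C2 * 3 ^ J) * b := by positivity
    rw [e1, hK]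
    linarith [le_abs_self (∫ t, t ^ (2 * J) * (t * Lam1 ν U x e e' t +
      t ^ 2 * Lam2 ν U x e e' t) ∂tl n)]
  intro Ω _ ν U H w hw i0 i l hil
  refine (key Ω _ ν U H w hw i0 i l hil).trans ?_
  rw [← ha, ← hb, mul_assoc, ← Real.sqrt_mul hK0.le]
  refine mul_le_mul_of_nonneg_left (Real.sqrt_le_sqrt ?_) two_pos.le
  have := mul_le_mul_of_nonneg_left (div_le_self (a := K * (a + b)) (b := (n : ℝ) + 1)
    (by positivity) (by linarith)) hb0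
  linarith

end Pool.Agent.Lib.MP_77d991_gt.Ex
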