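import Pool.Agent.Lib.MP_77d991_gt.Ex.D1a

open MeasureTheory ProbabilityTheory Set
open scoped RealInnerProductSpace

namespace Pool.Agent.Lib.MP_77d991_gt.Ex

open Pool.Agent.Lib.MP_77d991_gt.As

/-- the kernel of a correlated pair. -/
noncomputable def d1M (t c τ y : ℝ) : ℝ := c⁻¹ * Real.exp (-((c ^ 2)⁻¹ * t ^ 2 / 2 * y ^ 2)) *
  Real.exp ((c ^ 2)⁻¹ * t * y * τ - (c ^ 2)⁻¹ * t ^ 2 / 2 * τ ^ 2)

lemma d1_one {t c : ℝ} (hc : 0 < c) (htc : t ^ 2 + c ^ 2 = 1) (τ : ℝ) :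
    (gaussianReal 0 1).map (fun ζ => t * τ + c * ζ) =
      (gaussianReal 0 1).withDensity fun y => ENNReal.ofReal (d1M t c τ y) := by
  have hm : Measurable fun y => ENNReal.ofReal (d1M t c τ y) := by unfold d1M; fun_prop
  have h1 : (fun ζ => t * τ + c * ζ) = (fun s => t * τ + s) ∘ fun ζ => c * ζ := rfl
  have hv : (NNReal.mk (c ^ 2) (sq_nonneg _) * 1) ≠ 0 := by
    rw [mul_one, ← NNReal.coe_ne_zero]
    exact (pow_pos hc 2).ne'
  rw [h1, ← Measure.map_map (by fun_prop) (by fun_prop), gaussianReal_map_const_mul,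
    gaussianReal_map_const_add, gaussianReal_of_var_ne_zero _ hv,
    gaussianReal_of_var_ne_zero _ one_ne_zero, ← withDensity_mul _ (measurable_gaussianPDF _ _) hm]
  congr 1
  funext y
  rw [Pi.mul_apply, gaussianPDF, gaussianPDF, ← ENNReal.ofReal_mul (gaussianPDFReal_nonneg _ _ _)]
  congr 1
  simp only [gaussianPDFReal, d1M, mul_one, NNReal.coe_mk, NNReal.coe_one, mul_zero, zero_add,
    sub_zero]
  rw [Real.sqrt_mul' _ (sq_nonneg c), Real.sqrt_sq hc.le, mul_inv, mul_assoc c⁻¹, ← Real.exp_add,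
    mul_mul_mul_comm, ← Real.exp_add]
  congr 2
  field_simp
  linear_combination (y ^ 2) * htc

lemma d1_two {t c : ℝ} (hc : 0 < c) (htc : t ^ 2 + c ^ 2 = 1) :
    ((gaussianReal 0 1).prod (gaussianReal 0 1)).map (fun q : ℝ × ℝ => (q.1, t * q.1 + c * q.2)) =
      ((gaussianReal 0 1).prod (gaussianReal 0 1)).withDensity
        fun q => ENNReal.ofReal (d1M t c q.1 q.2) := by
  have hm : Measurable fun q : ℝ × ℝ => ENNReal.ofReal (d1M t c q.1 q.2) := by unfold d1M; fun_prop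
  refine Measure.ext_of_lintegral _ fun f hf => ?_
  rw [lintegral_map hf (by fun_prop), lintegral_withDensity_eq_lintegral_mul _ hm hf,
    lintegral_prod _ (by fun_prop), lintegral_prod _ (hm.mul hf).aemeasurable]
  refine lintegral_congr fun τ => ?_
  rw [← lintegral_map (f := fun y => f (τ, y)) (g := fun ζ => t * τ + c * ζ) (by fun_prop)
    (by fun_prop), d1_one hc htc, lintegral_withDensity_eq_lintegral_mul _
      (by unfold d1M; fun_prop) (by fun_prop)]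
  rfl

lemma d1_base (p q : ℕ) : ∃ C : ℝ, 0 < C ∧ ∀ (β β' : ℝ → ℝ) (σ c0 c1 c2 σ' c0' c1' c2' t c : ℝ),
    Prof β σ c0 c1 c2 → Prof β' σ' c0' c1' c2' → |t| ≤ 1 / 4 → 0 < c → t ^ 2 + c ^ 2 = 1 →
      Integrable (fun z : ℝ × ℝ => Ar β σ c0 c1 c2 z.1 * z.1 ^ p *
        (Ar β' σ' c0' c1' c2' (t * z.1 + c * z.2) * (t * z.1 + c * z.2) ^ q))
        ((gaussianReal 0 1).prod (gaussianReal 0 1)) ∧
      |∫ z : ℝ × ℝ, Ar β σ c0 c1 c2 z.1 * z.1 ^ p *
        (Ar β' σ' c0' c1' c2' (t * z.1 + c * z.2) * (t * z.1 + c * z.2) ^ q)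
        ∂(gaussianReal 0 1).prod (gaussianReal 0 1)| ≤ C * |t| ^ (3 - p) := by
  obtain ⟨K, hK, hT⟩ := d1_tay
  obtain ⟨K1, hK1, h1⟩ := d1_mom p
  obtain ⟨K2, hK2, h2⟩ := d1_mom q
  refine ⟨2 * K * K1 * K2, by positivity, fun β β' σ c0 c1 c2 σ' c0' c1' c2' t c P P' ht hc htc => ?_⟩
  obtain ⟨i1, e1⟩ := h1 β σ c0 c1 c2 P
  obtain ⟨i2, e2⟩ := h2 β' σ' c0' c1' c2' P'
  have hA := d1_meas P
  have hA' := d1_meas P'
  set A : ℝ → ℝ := fun τ => Ar β σ c0 c1 c2 τ * τ ^ p with hAd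
  set B : ℝ → ℝ := fun τ => Ar β' σ' c0' c1' c2' τ * τ ^ q with hBd
  have ht2 : t ^ 2 ≤ 1 / 16 := by rw [← sq_abs]; nlinarith [abs_nonneg t]
  have hκ : (c ^ 2)⁻¹ ≤ 16 / 15 := by rw [inv_le_comm₀ (by positivity) (by norm_num)]; linarith
  have hm0 : ∀ y : ℝ, |c⁻¹ * Real.exp (-((c ^ 2)⁻¹ * t ^ 2 / 2 * y ^ 2))| ≤ 2 := fun y => by
    have h3 : c⁻¹ ≤ 2 := by rw [inv_le_comm₀ hc (by norm_num)]; nlinarith
    rw [abs_of_nonneg (by positivity)]
    exact (mul_le_of_le_one_right (by positivity)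
      (Real.exp_le_one_iff.2 (neg_nonpos.2 (by positivity)))).trans h3
  have hM : Measurable fun z : ℝ × ℝ => d1M t c z.1 z.2 := by unfold d1M; fun_prop
  have hM0 : ∀ z : ℝ × ℝ, (ENNReal.ofReal (d1M t c z.1 z.2)).toReal = d1M t c z.1 z.2 := fun z =>
    ENNReal.toReal_ofReal (by unfold d1M; positivity)
  have hF : Measurable fun z : ℝ × ℝ => A z.1 * B z.2 := by fun_prop
  have i3 : Integrable (fun z : ℝ × ℝ => d1M t c z.1 z.2 * (A z.1 * B z.2))
      ((gaussianReal 0 1).prod (gaussianReal 0 1)) := by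
    refine ((i1.mul_prod i2).const_mul (2 * K)).mono' (hM.mul hF).aestronglyMeasurable
      (Filter.Eventually.of_forall fun z => ?_)
    obtain ⟨a0, a1, a2, k0, k1, k2, h⟩ := hT 0 (by norm_num) t _ z.2 ht (by positivity) hκ
    have h3 := h z.1
    simp only [k0 le_rfl, k1 zero_le_one, k2 zero_le_two, zero_mul, add_zero, sub_zero, pow_zero,
      mul_one] at h3
    rw [Real.norm_eq_abs, d1M, abs_mul, abs_mul, abs_mul (A z.1)]
    refine (mul_le_mul_of_nonneg_right (mul_le_mul (hm0 _) h3 (abs_nonneg _) zero_le_two)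
      (by positivity)).trans (le_of_eq ?_)
    ring
  have e3 := integral_map (μ := (gaussianReal 0 1).prod (gaussianReal 0 1))
    (φ := fun q : ℝ × ℝ => (q.1, t * q.1 + c * q.2)) (by fun_prop) hF.aestronglyMeasurable
  have e4 := integrable_map_measure (μ := (gaussianReal 0 1).prod (gaussianReal 0 1))
    (f := fun q : ℝ × ℝ => (q.1, t * q.1 + c * q.2)) hF.aestronglyMeasurable (by fun_prop)
  rw [d1_two hc htc] at e3 e4
  rw [integrable_withDensity_iff_integrable_smul' hM.ennreal_ofReal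
    (Filter.Eventually.of_forall fun _ => ENNReal.ofReal_lt_top)] at e4
  rw [integral_withDensity_eq_integral_toReal_smul hM.ennreal_ofReal
    (Filter.Eventually.of_forall fun _ => ENNReal.ofReal_lt_top)] at e3
  simp only [hM0, smul_eq_mul] at e3 e4
  refine ⟨e4.1 i3, ?_⟩
  refine (congrArg abs e3).ge.trans ?_
  rw [integral_prod_symm _ i3, ← Real.norm_eq_abs]
  refine (norm_integral_le_of_norm_le (i2.const_mul (2 * K * K1 * |t| ^ (3 - p)))
    (i3.prod_left_ae.mono fun y hy => ?_)).trans ?_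
  · obtain ⟨a0, a1, a2, k0, k1, k2, h⟩ := hT (3 - p) (by omega) t _ y ht (by positivity) hκ
    set m := c⁻¹ * Real.exp (-((c ^ 2)⁻¹ * t ^ 2 / 2 * y ^ 2)) with hm
    have j0 := (d1_int P p).const_mul a0
    have j1 := (d1_int P (p + 1)).const_mul a1
    have j2 := (d1_int P (p + 2)).const_mul a2
    have z0 : ∀ (a : ℝ) (l : ℕ), (3 - p ≤ l → a = 0) →
        ∫ τ, a * (Ar β σ c0 c1 c2 τ * τ ^ (p + l)) ∂gaussianReal 0 1 = 0 := fun a l hl => by
      rw [integral_const_mul]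
      by_cases h3 : 3 - p ≤ l
      · rw [hl h3, zero_mul]
      · rw [d1_kill P (by omega), mul_zero]
    have j3 := ((j0.add j1).add j2).const_mul (m * B y)
    have z1 := integral_sub' hy j3
    rw [integral_const_mul, integral_add' (j0.add j1) j2, integral_add' j0 j1, z0 a1 1 k1,
      z0 a2 2 k2, show ∫ τ, a0 * (Ar β σ c0 c1 c2 τ * τ ^ p) ∂gaussianReal 0 1 = 0 from z0 a0 0 k0,
      add_zero, add_zero, mul_zero, sub_zero] at z1
    rw [← z1]
    refine (norm_integral_le_of_norm_le (i1.const_mul (2 * K * |t| ^ (3 - p) *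
      (|B y| * Real.exp (y ^ 2 / 5)))) (Filter.Eventually.of_forall fun τ => ?_)).trans ?_
    · have h3 : d1M t c τ y * (A τ * B y) - m * B y * (a0 * (Ar β σ c0 c1 c2 τ * τ ^ p) +
          a1 * (Ar β σ c0 c1 c2 τ * τ ^ (p + 1)) + a2 * (Ar β σ c0 c1 c2 τ * τ ^ (p + 2))) =
          m * (Real.exp ((c ^ 2)⁻¹ * t * y * τ - (c ^ 2)⁻¹ * t ^ 2 / 2 * τ ^ 2) -
            (a0 + a1 * τ + a2 * τ ^ 2)) * (A τ * B y) := by
        simp only [d1M, hm, hAd]
        ring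
      simp only [Pi.sub_apply, Pi.add_apply]
      rw [h3, Real.norm_eq_abs, abs_mul, abs_mul, abs_mul (A τ)]
      refine (mul_le_mul_of_nonneg_right (mul_le_mul (hm0 _) (h τ) (abs_nonneg _) zero_le_two)
        (by positivity)).trans (le_of_eq ?_)
      ring
    · rw [integral_const_mul]
      refine (mul_le_mul_of_nonneg_left e1 (by positivity)).trans (le_of_eq ?_)
      ring
  · rw [integral_const_mul]
    refine (mul_le_mul_of_nonneg_left e2 (by positivity)).trans (le_of_eq ?_)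
    ring

/-- the statement with all four exponents. -/
def d1B (i j p q : ℕ) : Prop :=
  ∃ C : ℝ, 0 < C ∧ ∀ (β β' : ℝ → ℝ) (σ c0 c1 c2 σ' c0' c1' c2' t c : ℝ),
    Prof β σ c0 c1 c2 → Prof β' σ' c0' c1' c2' → |t| ≤ 1 / 4 → 0 < c → t ^ 2 + c ^ 2 = 1 →
      Integrable (fun z : ℝ × ℝ => Ar β σ c0 c1 c2 z.1 * z.1 ^ p *
        (Ar β' σ' c0' c1' c2' (t * z.1 + c * z.2) * (t * z.1 + c * z.2) ^ q) *
        (z.2 ^ i * (t * z.2 - c * z.1) ^ j)) ((gaussianReal 0 1).prod (gaussianReal 0 1)) ∧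
      |∫ z : ℝ × ℝ, Ar β σ c0 c1 c2 z.1 * z.1 ^ p *
        (Ar β' σ' c0' c1' c2' (t * z.1 + c * z.2) * (t * z.1 + c * z.2) ^ q) *
        (z.2 ^ i * (t * z.2 - c * z.1) ^ j)
        ∂(gaussianReal 0 1).prod (gaussianReal 0 1)| ≤ C * |t| ^ (3 - p - j)

lemma d1_comb {α : Type*} [MeasurableSpace α] {μ : Measure α} {f g k : α → ℝ} {a b c C C' T : ℝ}
    {n n' m : ℕ} (hf : Integrable f μ ∧ |∫ z, f z ∂μ| ≤ C * T ^ n)
    (hg : Integrable g μ ∧ |∫ z, g z ∂μ| ≤ C' * T ^ n') (hC : 0 < C) (hC' : 0 < C')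
    (hc : 1 / 2 ≤ c) (ha : |a| * T ^ n ≤ T ^ m) (hb : |b| * T ^ n' ≤ T ^ m) (hT : 0 ≤ T)
    (h : ∀ z, c * k z = a * f z - b * g z) :
    Integrable k μ ∧ |∫ z, k z ∂μ| ≤ 2 * (C + C') * T ^ m := by
  have hc0 : 0 < c := by linarith
  have e : k = fun z => c⁻¹ * (a * f z - b * g z) := funext fun z => by
    rw [← h z, inv_mul_cancel_left₀ hc0.ne']
  have i := (hf.1.const_mul a).sub (hg.1.const_mul b)
  rw [e]
  refine ⟨i.const_mul _, ?_⟩
  rw [integral_const_mul, integral_sub (hf.1.const_mul a) (hg.1.const_mul b), integral_const_mul,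
    integral_const_mul, abs_mul, abs_of_pos (inv_pos.2 hc0), inv_mul_le_iff₀ hc0]
  refine (abs_sub _ _).trans ?_
  rw [abs_mul, abs_mul]
  have h1 := mul_le_mul_of_nonneg_left hf.2 (abs_nonneg a)
  have h2 := mul_le_mul_of_nonneg_left hg.2 (abs_nonneg b)
  have h3 := mul_le_mul_of_nonneg_left ha hC.le
  have h4 := mul_le_mul_of_nonneg_left hb hC'.le
  have h5 := mul_le_mul_of_nonneg_right hc (show 0 ≤ 2 * (C + C') * T ^ m by positivity)
  linarith

lemma d1_step {T : ℝ} (h0 : 0 ≤ T) (h1 : T ≤ 1 / 4) {n m : ℕ} (h : m ≤ n + 1) : T * T ^ n ≤ T ^ m := by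
  rw [← pow_succ']
  exact pow_le_pow_of_le_one h0 (by linarith) h

lemma d1_all (i j : ℕ) : ∀ p q, d1B i j p q := by
  have hc : ∀ {t c : ℝ}, |t| ≤ 1 / 4 → 0 < c → t ^ 2 + c ^ 2 = 1 → 1 / 2 ≤ c := fun {t c} h1 h2 h3 => by
    nlinarith [abs_nonneg t, sq_abs t]
  induction j with
  | zero =>
    induction i with
    | zero => exact fun p q => by simpa only [d1B, pow_zero, mul_one, Nat.sub_zero] using d1_base p q
    | succ i ih =>
      intro p q
      obtain ⟨C, hC, h⟩ := ih p (q + 1)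
      obtain ⟨C', hC', h'⟩ := ih (p + 1) q
      refine ⟨2 * (C + C'), by positivity, fun β β' σ c0 c1 c2 σ' c0' c1' c2' t c P P' k1 k2 k3 =>
        d1_comb (a := 1) (b := t) (h _ _ _ _ _ _ _ _ _ _ _ _ P P' k1 k2 k3)
          (h' _ _ _ _ _ _ _ _ _ _ _ _ P P' k1 k2 k3) hC hC' (hc k1 k2 k3) (by simp)
          (d1_step (abs_nonneg t) k1 (by omega)) (abs_nonneg t) fun z => by ring⟩
  | succ j ih =>
    intro p q
    obtain ⟨C, hC, h⟩ := ih p (q + 1)
    obtain ⟨C', hC', h'⟩ := ih (p + 1) q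
    refine ⟨2 * (C + C'), by positivity, fun β β' σ c0 c1 c2 σ' c0' c1' c2' t c P P' k1 k2 k3 =>
      d1_comb (a := t) (b := 1) (h _ _ _ _ _ _ _ _ _ _ _ _ P P' k1 k2 k3)
        (h' _ _ _ _ _ _ _ _ _ _ _ _ P P' k1 k2 k3) hC hC' (hc k1 k2 k3)
        (d1_step (abs_nonneg t) k1 (by omega)) (by rw [abs_one, one_mul, Nat.sub_sub, Nat.sub_sub,
          add_right_comm, add_assoc]) (abs_nonneg t) fun z => ?_⟩
    have e : c * (t * z.2 - c * z.1) = t * (t * z.1 + c * z.2) - z.1 := by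
      linear_combination (-z.1) * k3
    linear_combination (Ar β σ c0 c1 c2 z.1 * z.1 ^ p * (Ar β' σ' c0' c1' c2' (t * z.1 + c * z.2) *
      (t * z.1 + c * z.2) ^ q) * (z.2 ^ i * (t * z.2 - c * z.1) ^ j)) * e

/-- The pair `(τ, tτ + cζ)` has the density `d1M` with respect to the product law (`d1_two`); Taylor
expansion of the density in `τ` and the three vanishing moments give `d1_base`; the factors `ζ` and
`tζ - cτ` are linear in `τ` and `tτ + cζ` (`d1_all`). -/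
theorem mehler : ∃ C : ℝ, 0 < C ∧ ∀ (β β' : ℝ → ℝ) (σ c0 c1 c2 σ' c0' c1' c2' t : ℝ),
    Prof β σ c0 c1 c2 → Prof β' σ' c0' c1' c2' → |t| ≤ 1 / 4 → ∀ i ≤ 2, ∀ j ≤ 2,
      Integrable (fun q : ℝ × ℝ => Ar β σ c0 c1 c2 q.1 *
        Ar β' σ' c0' c1' c2' (t * q.1 + √(1 - t ^ 2) * q.2) *
          (q.2 ^ i * (t * q.2 - √(1 - t ^ 2) * q.1) ^ j))
        ((gaussianReal 0 1).prod (gaussianReal 0 1)) ∧
      |∫ q : ℝ × ℝ, Ar β σ c0 c1 c2 q.1 * Ar β' σ' c0' c1' c2' (t * q.1 + √(1 - t ^ 2) * q.2) *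
          (q.2 ^ i * (t * q.2 - √(1 - t ^ 2) * q.1) ^ j)
        ∂(gaussianReal 0 1).prod (gaussianReal 0 1)| ≤ C * |t| ^ (3 - j) := by
  choose C hC h using fun i j => d1_all i j 0 0
  refine ⟨∑ i ∈ Finset.range 3, ∑ j ∈ Finset.range 3, C i j, Finset.sum_pos (fun i _ =>
    Finset.sum_pos (fun j _ => hC i j) ⟨0, by simp⟩) ⟨0, by simp⟩,
    fun β β' σ c0 c1 c2 σ' c0' c1' c2' t P P' ht i hi j hj => ?_⟩
  have h1 : 0 < 1 - t ^ 2 := by nlinarith [abs_nonneg t, sq_abs t]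
  have h2 := h i j _ _ _ _ _ _ _ _ _ _ t _ P P' ht (Real.sqrt_pos.2 h1)
    (by rw [Real.sq_sqrt h1.le]; ring)
  simp only [pow_zero, mul_one, Nat.sub_zero] at h2
  refine ⟨h2.1, h2.2.trans (mul_le_mul_of_nonneg_right ?_ (by positivity))⟩
  refine le_trans ?_ (Finset.single_le_sum (f := fun i => ∑ j ∈ Finset.range 3, C i j)
    (fun i _ => Finset.sum_nonneg fun j _ => (hC i j).le) (Finset.mem_range.2 (by omega : i < 3)))
  exact Finset.single_le_sum (fun j _ => (hC i j).le) (Finset.mem_range.2 (by omega))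

end Pool.Agent.Lib.MP_77d991_gt.Ex
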