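import Pool.Agent.Lib.MP_77d991_gt.Ex.A6

open MeasureTheory ProbabilityTheory Set
open scoped RealInnerProductSpace

namespace Pool.Agent.Lib.MP_77d991_gt.Ex

open Pool.Agent.Lib.MP_77d991_gt.As

lemma d1_pow (n : ℕ) : ∃ C : ℝ, 0 < C ∧ ∀ S : ℝ, 0 ≤ S → S ^ n ≤ C * Real.exp (S / 30) := by
  refine ⟨30 ^ n * n.factorial, by positivity, fun S hS => ?_⟩
  have h := Real.pow_div_factorial_le_exp (S / 30) (by positivity) n
  rw [div_le_iff₀ (by positivity), div_pow, div_le_iff₀ (by positivity)] at h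
  linarith

lemma d1_abs (n : ℕ) : ∃ C : ℝ, 0 < C ∧ ∀ s : ℝ, |s| ^ n ≤ C * Real.exp (s ^ 2 / 30) := by
  obtain ⟨C, hC, h⟩ := d1_pow n
  refine ⟨C + 1, by positivity, fun s => ?_⟩
  have h1 := h (s ^ 2) (sq_nonneg s)
  have h2 : 1 ≤ Real.exp (s ^ 2 / 30) := Real.one_le_exp (by positivity)
  rw [← sq_abs, ← pow_mul, mul_comm 2, pow_mul, sq_abs s] at h1
  nlinarith [sq_nonneg (|s| ^ n - 1), pow_nonneg (abs_nonneg s) n]

lemma d1_gauss : Integrable (fun s : ℝ => Real.exp (2 / 5 * s ^ 2)) (gaussianReal 0 1) := by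
  rw [gaussianReal_of_var_ne_zero _ one_ne_zero, integrable_withDensity_iff_integrable_smul'
    (measurable_gaussianPDF _ _) (Filter.Eventually.of_forall fun _ => gaussianPDF_lt_top)]
  refine ((integrable_exp_neg_mul_sq (b := 1 / 10) (by norm_num)).const_mul
    (√(2 * Real.pi))⁻¹).congr (Filter.Eventually.of_forall fun s => ?_)
  simp only [toReal_gaussianPDF, gaussianPDFReal, smul_eq_mul, mul_assoc, ← Real.exp_add,
    NNReal.coe_one, mul_one]
  congr 2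
  ring

lemma d1_ip (k : ℕ) : Integrable (fun s : ℝ => s ^ k) (gaussianReal 0 1) := by
  obtain ⟨C, hC, h⟩ := d1_abs k
  refine (d1_gauss.const_mul C).mono' (by fun_prop) (Filter.Eventually.of_forall fun s => ?_)
  rw [norm_pow]
  refine (h s).trans ?_
  gcongr
  linarith [sq_nonneg s]

lemma d1_rs {σ : ℝ} (hσ : 0 < σ) {F : ℝ → ℝ} (hF : Measurable F)
    (hi : Integrable (fun s => F (σ * s)) (gaussianReal 0 1)) :
    Integrable (fun τ => rs σ τ * F τ) (gaussianReal 0 1) ∧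
      ∫ τ, rs σ τ * F τ ∂gaussianReal 0 1 = ∫ s, F (σ * s) ∂gaussianReal 0 1 := by
  have hm : Measurable fun t => ENNReal.ofReal (rs σ t) := by unfold rs; fun_prop
  have h0 : ∀ τ, (ENNReal.ofReal (rs σ τ)).toReal = rs σ τ := fun τ =>
    ENNReal.toReal_ofReal (by unfold rs; positivity)
  have h1 := (integrable_map_measure (μ := gaussianReal 0 1) (f := fun t => σ * t)
    hF.aestronglyMeasurable (by fun_prop)).2 hi
  have h2 := integral_map (μ := gaussianReal 0 1) (φ := fun t => σ * t) (by fun_prop)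
    hF.aestronglyMeasurable
  rw [dens1 hσ] at h1 h2
  rw [integrable_withDensity_iff_integrable_smul' hm (Filter.Eventually.of_forall fun _ =>
    ENNReal.ofReal_lt_top)] at h1
  rw [integral_withDensity_eq_integral_toReal_smul hm (Filter.Eventually.of_forall fun _ =>
    ENNReal.ofReal_lt_top)] at h2
  simp only [h0, smul_eq_mul] at h1 h2
  exact ⟨h1, h2⟩

lemma d1_meas {β : ℝ → ℝ} {σ c0 c1 c2 : ℝ} (P : Prof β σ c0 c1 c2) :
    Measurable (Ar β σ c0 c1 c2) := by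
  have := P.meas
  unfold Ar rs
  fun_prop

lemma d1_mom (p : ℕ) : ∃ C : ℝ, 0 < C ∧ ∀ (β : ℝ → ℝ) (σ c0 c1 c2 : ℝ), Prof β σ c0 c1 c2 →
    Integrable (fun τ => |Ar β σ c0 c1 c2 τ * τ ^ p| * Real.exp (τ ^ 2 / 5)) (gaussianReal 0 1) ∧
    ∫ τ, |Ar β σ c0 c1 c2 τ * τ ^ p| * Real.exp (τ ^ 2 / 5) ∂gaussianReal 0 1 ≤ C := by
  obtain ⟨K, hK, h⟩ := d1_abs p
  obtain ⟨K1, hK1, h1⟩ := d1_abs 1
  obtain ⟨K2, hK2, h2⟩ := d1_abs 2
  set I := ∫ s, Real.exp (2 / 5 * s ^ 2) ∂gaussianReal 0 1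
  have hI : 0 ≤ I := integral_nonneg fun s => (Real.exp_pos _).le
  refine ⟨(1 + K1) * K * I + 2 * (1 + K1 + K2) * K * I + 1, by positivity, fun β σ c0 c1 c2 P => ?_⟩
  have hβ := P.meas
  have hσ := P.pos
  have hσ1 := P.le
  set F : ℝ → ℝ := fun τ => |β (τ / σ)| * (K * Real.exp (τ ^ 2 / 4)) with hF
  have hb : ∀ s, ‖F (σ * s)‖ ≤ (1 + K1) * K * Real.exp (2 / 5 * s ^ 2) := fun s => by
    have h3 := h1 s
    have h4 := P.bd s
    have h5 : 1 ≤ Real.exp (s ^ 2 / 30) := Real.one_le_exp (by positivity)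
    have h6 : Real.exp (s ^ 2 / 30) * Real.exp ((σ * s) ^ 2 / 4) ≤ Real.exp (2 / 5 * s ^ 2) := by
      rw [← Real.exp_add, Real.exp_le_exp, mul_pow]
      nlinarith [mul_le_mul_of_nonneg_right (show σ ^ 2 ≤ 1 by nlinarith) (sq_nonneg s)]
    simp only [hF, mul_div_cancel_left₀ s hσ.ne']
    rw [Real.norm_of_nonneg (by positivity)]
    calc _ ≤ (1 + K1) * Real.exp (s ^ 2 / 30) * (K * Real.exp ((σ * s) ^ 2 / 4)) := by
          gcongr
          linarith [pow_one |s|]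
      _ = (1 + K1) * K * (Real.exp (s ^ 2 / 30) * Real.exp ((σ * s) ^ 2 / 4)) := by ring
      _ ≤ _ := by gcongr
  have i1 := d1_gauss.const_mul ((1 + K1) * K)
  have i2 := d1_gauss.const_mul (2 * (1 + K1 + K2) * K)
  have hFm : Measurable F := by fun_prop
  obtain ⟨i3, e3⟩ := d1_rs hσ hFm (i1.mono' (Measurable.aestronglyMeasurable (by fun_prop))
    (Filter.Eventually.of_forall hb))
  have e4 := (le_abs_self _).trans (norm_integral_le_of_norm_le i1 (Filter.Eventually.of_forall hb))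
  have hle : ∀ τ, ‖|Ar β σ c0 c1 c2 τ * τ ^ p| * Real.exp (τ ^ 2 / 5)‖ ≤
      rs σ τ * F τ + 2 * (1 + K1 + K2) * K * Real.exp (2 / 5 * τ ^ 2) := fun τ => by
    have h0 : 0 ≤ rs σ τ := by unfold rs; positivity
    have h5 : 1 ≤ Real.exp (τ ^ 2 / 30) := Real.one_le_exp (by positivity)
    have h3 : |Ar β σ c0 c1 c2 τ| ≤ rs σ τ * |β (τ / σ)| + 2 * (1 + K1 + K2) * Real.exp (τ ^ 2 / 30) := by
      refine (abs_sub _ _).trans (add_le_add (by rw [abs_mul, abs_of_nonneg h0]) ?_)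
      refine (abs_add_three _ _ _).trans ?_
      rw [abs_mul, abs_mul, abs_pow]
      have := mul_le_mul P.b1 (h1 τ) (by positivity) zero_le_two
      have := mul_le_mul P.b2 (h2 τ) (by positivity) zero_le_two
      linarith [P.b0, pow_one |τ|]
    have h4 : |τ| ^ p * Real.exp (τ ^ 2 / 5) ≤ K * Real.exp (τ ^ 2 / 4) := by
      refine (mul_le_mul_of_nonneg_right (h τ) (Real.exp_pos _).le).trans ?_
      rw [mul_assoc, ← Real.exp_add]
      gcongr
      linarith [sq_nonneg τ]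
    have h6 : Real.exp (τ ^ 2 / 30) * Real.exp (τ ^ 2 / 4) ≤ Real.exp (2 / 5 * τ ^ 2) := by
      rw [← Real.exp_add, Real.exp_le_exp]
      linarith [sq_nonneg τ]
    rw [Real.norm_of_nonneg (by positivity), abs_mul, abs_pow, mul_assoc]
    refine (mul_le_mul h3 h4 (by positivity) (by positivity)).trans ?_
    have := mul_le_mul_of_nonneg_left h6 (show 0 ≤ 2 * (1 + K1 + K2) * K by positivity)
    simp only [hF]
    linarith
  have hA := d1_meas P
  refine ⟨(i3.add i2).mono' (Measurable.aestronglyMeasurable (by fun_prop))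
    (Filter.Eventually.of_forall hle), ?_⟩
  have e5 := (le_abs_self _).trans
    (norm_integral_le_of_norm_le (i3.add i2) (Filter.Eventually.of_forall hle))
  rw [integral_add' i3 i2, integral_const_mul, e3] at e5
  rw [integral_const_mul] at e4
  linarith

lemma d1_int {β : ℝ → ℝ} {σ c0 c1 c2 : ℝ} (P : Prof β σ c0 c1 c2) (p : ℕ) :
    Integrable (fun τ => Ar β σ c0 c1 c2 τ * τ ^ p) (gaussianReal 0 1) := by
  obtain ⟨C, -, h⟩ := d1_mom p
  have hA := d1_meas P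
  refine (h β σ c0 c1 c2 P).1.mono' (Measurable.aestronglyMeasurable (by fun_prop))
    (Filter.Eventually.of_forall fun τ => ?_)
  exact le_mul_of_one_le_right (abs_nonneg _) (Real.one_le_exp (by positivity))

lemma d1_kill {β : ℝ → ℝ} {σ c0 c1 c2 : ℝ} (P : Prof β σ c0 c1 c2) {p : ℕ} (hp : p ≤ 2) :
    ∫ τ, Ar β σ c0 c1 c2 τ * τ ^ p ∂gaussianReal 0 1 = 0 := by
  have hβ := P.meas
  have ip := d1_ip
  obtain ⟨i1, e1⟩ := d1_rs P.pos (F := fun τ => β (τ / σ) * τ ^ p) (by fun_prop) (by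
    refine (((ip p).abs.add (ip (p + 1)).abs).const_mul (σ ^ p)).mono'
      (Measurable.aestronglyMeasurable (by fun_prop)) (Filter.Eventually.of_forall fun s => ?_)
    simp only [mul_div_cancel_left₀ s P.pos.ne', Real.norm_eq_abs, abs_mul, mul_pow, abs_pow,
      abs_of_pos P.pos, Pi.add_apply, pow_succ]
    have := mul_le_mul_of_nonneg_right (P.bd s) (show 0 ≤ σ ^ p * |s| ^ p by
      have := P.pos; positivity)
    linarith)
  have i2 : Integrable (fun t : ℝ => (c0 + c1 * t + c2 * t ^ 2) * t ^ p) (gaussianReal 0 1) :=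
    ((((ip p).const_mul c0).add ((ip (p + 1)).const_mul c1)).add ((ip (p + 2)).const_mul c2)).congr
      (Filter.Eventually.of_forall fun s => by simp only [Pi.add_apply]; ring)
  simp only [mul_div_cancel_left₀ _ P.pos.ne', P.mom p hp] at e1
  rw [← sub_eq_zero, ← integral_sub i1 i2] at e1
  simpa only [Ar, sub_mul, mul_assoc] using e1

lemma d1_exp (n : ℕ) (z : ℝ) :
    |Real.exp z - ∑ m ∈ Finset.range n, z ^ m / m.factorial| ≤ |z| ^ n * Real.exp |z| := by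
  have h := Complex.norm_exp_sub_sum_le_norm_mul_exp (z : ℂ) n
  rw [Complex.norm_real, Real.norm_eq_abs] at h
  rw [← Real.norm_eq_abs, ← Complex.norm_real]
  push_cast
  exact h

lemma d1_tay : ∃ C : ℝ, 0 < C ∧ ∀ k ≤ 3, ∀ t κ y : ℝ, |t| ≤ 1 / 4 → 0 ≤ κ → κ ≤ 16 / 15 →
    ∃ a0 a1 a2 : ℝ, (k ≤ 0 → a0 = 0) ∧ (k ≤ 1 → a1 = 0) ∧ (k ≤ 2 → a2 = 0) ∧ ∀ τ : ℝ,
      |Real.exp (κ * t * y * τ - κ * t ^ 2 / 2 * τ ^ 2) - (a0 + a1 * τ + a2 * τ ^ 2)| ≤
        C * |t| ^ k * (Real.exp (τ ^ 2 / 5) * Real.exp (y ^ 2 / 5)) := by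
  obtain ⟨K1, hK1, h1⟩ := d1_pow 1
  obtain ⟨K2, hK2, h2⟩ := d1_pow 2
  obtain ⟨K3, hK3, h3⟩ := d1_pow 3
  refine ⟨1 + K1 + 3 * K2 + K3, by positivity, fun k hk t κ y ht h0 hκ => ?_⟩
  have main : ∀ τ : ℝ, ∃ S E G : ℝ, S = τ ^ 2 + y ^ 2 ∧ 1 ≤ E ∧ 1 ≤ G ∧ S ≤ K1 * E ∧ S ^ 2 ≤ K2 * E ∧
      S ^ 3 ≤ K3 * E ∧ E * G = Real.exp (τ ^ 2 / 5) * Real.exp (y ^ 2 / 5) ∧ ∀ n : ℕ,
      |Real.exp (κ * t * y * τ - κ * t ^ 2 / 2 * τ ^ 2) - ∑ m ∈ Finset.range n,
        (κ * t * y * τ - κ * t ^ 2 / 2 * τ ^ 2) ^ m / m.factorial| ≤ |t| ^ n * S ^ n * G := fun τ => by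
    have hS : 0 ≤ τ ^ 2 + y ^ 2 := by positivity
    refine ⟨_, Real.exp ((τ ^ 2 + y ^ 2) / 30), Real.exp ((τ ^ 2 + y ^ 2) / 6), rfl,
      Real.one_le_exp (by positivity), Real.one_le_exp (by positivity), by simpa using h1 _ hS,
      h2 _ hS, h3 _ hS, ?_, fun n => (d1_exp n _).trans ?_⟩
    · rw [← Real.exp_add, ← Real.exp_add]
      congr 1
      ring
    · have e1 : |κ * t * y * τ - κ * t ^ 2 / 2 * τ ^ 2| ≤ |t| * (2 / 3 * (τ ^ 2 + y ^ 2)) := by
        rw [show κ * t * y * τ - κ * t ^ 2 / 2 * τ ^ 2 = t * (κ * (y * τ - t / 2 * τ ^ 2)) by ring,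
          abs_mul, abs_mul, abs_of_nonneg h0]
        refine mul_le_mul_of_nonneg_left ?_ (abs_nonneg t)
        have e2 : |y * τ - t / 2 * τ ^ 2| ≤ 5 / 8 * (τ ^ 2 + y ^ 2) := by
          obtain ⟨e3, e4⟩ := abs_le.1 ht
          exact abs_le.2 ⟨by nlinarith [sq_nonneg (y + τ), sq_nonneg τ, sq_nonneg y],
            by nlinarith [sq_nonneg (y - τ), sq_nonneg τ, sq_nonneg y]⟩
        nlinarith [abs_nonneg (y * τ - t / 2 * τ ^ 2)]
      rw [← mul_pow]
      have e5 := mul_le_mul_of_nonneg_right ht hS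
      have e6 := mul_nonneg (abs_nonneg t) hS
      gcongr <;> linarith
  have ht0 := abs_nonneg t
  interval_cases k
  · refine ⟨0, 0, 0, by simp, by simp, by simp, fun τ => ?_⟩
    obtain ⟨S, E, G, hS, hE, hG, -, -, -, e, h⟩ := main τ
    have := h 0
    simp only [Finset.range_zero, Finset.sum_empty, pow_zero, one_mul, mul_one, zero_mul,
      add_zero] at this ⊢
    rw [← e]
    nlinarith [mul_pos hK1 (mul_pos (one_pos.trans_le hE) (one_pos.trans_le hG)),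
      mul_pos hK2 (mul_pos (one_pos.trans_le hE) (one_pos.trans_le hG)),
      mul_pos hK3 (mul_pos (one_pos.trans_le hE) (one_pos.trans_le hG))]
  · refine ⟨1, 0, 0, by simp, by simp, by simp, fun τ => ?_⟩
    obtain ⟨S, E, G, hS, hE, hG, k1, -, -, e, h⟩ := main τ
    have := h 1
    simp only [Finset.range_one, Finset.sum_singleton, pow_zero, pow_one, Nat.factorial_zero,
      Nat.cast_one, div_one, zero_mul, add_zero] at this ⊢
    rw [← e]
    calc _ ≤ |t| * (K1 * E) * G := this.trans (by gcongr)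
      _ = K1 * |t| * (E * G) := by ring
      _ ≤ _ := by gcongr; linarith
  · refine ⟨1, κ * t * y, 0, by simp, by simp, by simp, fun τ => ?_⟩
    obtain ⟨S, E, G, hS, hE, hG, k1, k2, -, e, h⟩ := main τ
    have h4 := h 2
    simp only [Finset.sum_range_succ, Finset.range_zero, Finset.sum_empty, pow_zero, pow_one,
      Nat.factorial_zero, Nat.factorial_one, Nat.cast_one, div_one, zero_add] at h4
    have h5 : κ * t ^ 2 / 2 * τ ^ 2 ≤ |t| ^ 2 * (K1 * E) * G := by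
      rw [sq_abs]
      calc _ = t ^ 2 * (κ / 2 * τ ^ 2) * 1 := by ring
        _ ≤ _ := mul_le_mul (mul_le_mul_of_nonneg_left (by nlinarith [sq_nonneg τ, sq_nonneg y])
          (sq_nonneg t)) hG zero_le_one (by positivity)
    have h6 : |t| ^ 2 * S ^ 2 * G ≤ |t| ^ 2 * (K2 * E) * G := by gcongr
    have h7 : 0 ≤ κ * t ^ 2 / 2 * τ ^ 2 := by positivity
    have h8 : 0 ≤ |t| ^ 2 * (E * G) := by positivity
    obtain ⟨h9, h10⟩ := abs_le.1 h4
    rw [← e]
    exact abs_le.2 ⟨by nlinarith, by nlinarith⟩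
  · refine ⟨1, κ * t * y, (κ * t * y) ^ 2 / 2 - κ * t ^ 2 / 2, by simp, by simp, by simp, fun τ => ?_⟩
    obtain ⟨S, E, G, hS, hE, hG, -, k2, k3, e, h⟩ := main τ
    have h4 := h 3
    simp only [Finset.sum_range_succ, Finset.range_zero, Finset.sum_empty, pow_zero, pow_one,
      Nat.factorial_zero, Nat.factorial_one, Nat.factorial_two, Nat.cast_one, Nat.cast_ofNat,
      div_one, zero_add] at h4
    have h5 : |t ^ 3 * (κ ^ 2 * (τ ^ 2 * (t * τ ^ 2 / 8 - y * τ / 2)))| ≤ |t| ^ 3 * (3 * (K2 * E)) * G := by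
      rw [abs_mul, abs_pow, mul_assoc]
      refine mul_le_mul_of_nonneg_left (le_trans ?_ (le_mul_of_one_le_right (by positivity) hG))
        (by positivity)
      have e2 : |t * τ ^ 2 / 8 - y * τ / 2| ≤ S := by
        obtain ⟨e3, e4⟩ := abs_le.1 ht
        exact abs_le.2 ⟨by nlinarith [sq_nonneg (y - τ), sq_nonneg τ, sq_nonneg y],
          by nlinarith [sq_nonneg (y + τ), sq_nonneg τ, sq_nonneg y]⟩
      rw [abs_mul, abs_mul, abs_of_nonneg (sq_nonneg κ), abs_of_nonneg (sq_nonneg τ)]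
      calc _ ≤ 3 * (S * S) := by gcongr <;> nlinarith [sq_nonneg τ, sq_nonneg y]
        _ ≤ _ := by rw [← sq]; gcongr
    have h6 : |t| ^ 3 * S ^ 3 * G ≤ |t| ^ 3 * (K3 * E) * G := by
      have : 0 ≤ S := by rw [hS]; positivity
      gcongr
    have h8 : 0 ≤ |t| ^ 3 * (E * G) := by positivity
    obtain ⟨h9, h10⟩ := abs_le.1 h4
    obtain ⟨h11, h12⟩ := abs_le.1 h5
    rw [← e]
    exact abs_le.2 ⟨by nlinarith, by nlinarith⟩

end Pool.Agent.Lib.MP_77d991_gt.Ex
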