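import Pool.Agent.Lib.MP_77d991_gt.Ex.A6

open MeasureTheory ProbabilityTheory Set
open scoped RealInnerProductSpace

namespace Pool.Agent.Lib.MP_77d991_gt.Ex

open Pool.Agent.Lib.MP_77d991_gt.As

theorem d2_int (k : ℕ) : Integrable (fun x : ℝ => x ^ k) (gaussianReal 0 1) := by
  rcases Nat.eq_zero_or_pos k with rfl | hk
  · simp
  have := (IsGaussian.memLp_id (gaussianReal 0 1) (k : ENNReal) (by simp)).integrable_norm_pow
    hk.ne'
  refine this.mono' (by fun_prop) (Filter.Eventually.of_forall fun x => ?_)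
  simp

theorem d2_odd {f : ℝ → ℝ} (hf : ∀ t, f (-t) = -f t) : ∫ t, f t ∂gaussianReal 0 1 = 0 := by
  have h1 : (gaussianReal 0 1).map (MeasurableEquiv.neg ℝ) = gaussianReal 0 1 := by
    have := gaussianReal_map_neg (μ := 0) (v := 1)
    rw [neg_zero] at this
    exact this
  have h2 := integral_map_equiv (μ := gaussianReal 0 1) (MeasurableEquiv.neg ℝ) f
  rw [h1] at h2
  have h3 : ∫ t, f (MeasurableEquiv.neg ℝ t) ∂gaussianReal 0 1 = -∫ t, f t ∂gaussianReal 0 1 := by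
    rw [← integral_neg]
    exact integral_congr_ae (Filter.Eventually.of_forall hf)
  linarith

theorem d2_poly (a0 a1 a2 a3 a4 : ℝ) {f : ℝ → ℝ}
    (hf : ∀ t, f t = a0 + a1 * t ^ 1 + a2 * t ^ 2 + a3 * t ^ 3 + a4 * t ^ 4) :
    ∫ t, f t ∂gaussianReal 0 1 = a0 + a2 + 3 * a4 := by
  have h1 : ∫ x : ℝ, x ^ 1 ∂gaussianReal 0 1 = 0 := d2_odd fun t => by ring
  have h3 : ∫ x : ℝ, x ^ 3 ∂gaussianReal 0 1 = 0 := d2_odd fun t => by ring
  have h2 : ∫ x, x ^ 2 ∂(gaussianReal 0 1) = 1 := by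
    have := variance_id_gaussianReal (μ := 0) (v := 1)
    rw [variance_of_integral_eq_zero (by fun_prop) (by simp)] at this
    simpa using this
  have h4 : ∫ x, x ^ 4 ∂(gaussianReal 0 1) = 3 := m4_eq
  have i0 : Integrable (fun _ : ℝ => a0) (gaussianReal 0 1) := integrable_const _
  have i1 : Integrable (fun t : ℝ => a0 + a1 * t ^ 1) (gaussianReal 0 1) :=
    i0.add ((d2_int 1).const_mul a1)
  have i2 : Integrable (fun t : ℝ => a0 + a1 * t ^ 1 + a2 * t ^ 2) (gaussianReal 0 1) :=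
    i1.add ((d2_int 2).const_mul a2)
  have i3 : Integrable (fun t : ℝ => a0 + a1 * t ^ 1 + a2 * t ^ 2 + a3 * t ^ 3)
      (gaussianReal 0 1) := i2.add ((d2_int 3).const_mul a3)
  rw [funext hf, integral_add i3 ((d2_int 4).const_mul a4), integral_add i2
    ((d2_int 3).const_mul a3), integral_add i1 ((d2_int 2).const_mul a2),
    integral_add i0 ((d2_int 1).const_mul a1)]
  simp only [integral_const_mul, h1, h2, h3, h4, integral_const, probReal_univ, smul_eq_mul]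
  ring

theorem d2_sign : Measurable Real.sign := by
  unfold Real.sign
  exact Measurable.ite measurableSet_Iio measurable_const
    (Measurable.ite measurableSet_Ioi measurable_const measurable_const)

theorem d2_eight {d : ℕ} {w : Eu d} (hw : ‖w‖ ≤ 1) :
    Integrable (fun g : Eu d => ⟪g, w⟫ ^ 8) (stdGaussian (Eu d)) ∧
      ∫ g, ⟪g, w⟫ ^ 8 ∂stdGaussian (Eu d) ≤ ∫ x, x ^ 8 ∂gaussianReal 0 1 := by
  simp only [fun g => real_inner_comm w g]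
  refine ⟨integrable_inner_pow w 8, ?_⟩
  have h1 : ∫ g, ⟪w, g⟫ ^ 8 ∂stdGaussian (Eu d) =
      ∫ x, x ^ 8 ∂((stdGaussian (Eu d)).map (fun g => ⟪w, g⟫)) := by
    rw [integral_map (by fun_prop) (by fun_prop)]
  have h2 : gaussianReal 0 (‖w‖ ^ 2).toNNReal = (gaussianReal 0 1).map (fun x => ‖w‖ * x) := by
    rw [gaussianReal_map_const_mul]
    congr 1
    · simp
    · ext
      simp
  rw [h1, map_inner, h2, integral_map (by fun_prop) (by fun_prop)]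
  refine integral_mono_of_nonneg (Filter.Eventually.of_forall fun x => by positivity) (d2_int 8)
    (Filter.Eventually.of_forall fun x => ?_)
  simp only [mul_pow]
  exact mul_le_of_le_one_left (by positivity) (pow_le_one₀ (norm_nonneg _) hw)

theorem d2_pt {β : ℝ → ℝ} {σ c0 c1 c2 : ℝ} (P : Prof β σ c0 c1 c2) (τ : ℝ) :
    |Ar β σ c0 c1 c2 τ| ≤ 5 * σ⁻¹ * (1 + τ ^ 2) := by
  have h0 := P.pos
  have hi : 4 ≤ σ⁻¹ := by
    rw [le_inv_comm₀ (by norm_num) h0]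
    simpa using P.le
  have h1 : |rs σ τ * β (τ / σ)| ≤ 2 * σ⁻¹ := by
    have e1 : 15 / 32 * (τ / σ) ^ 2 ≤ τ ^ 2 * ((σ⁻¹) ^ 2 - 1) / 2 := by
      rw [div_eq_mul_inv τ, mul_pow]
      have : 16 ≤ (σ⁻¹) ^ 2 := by nlinarith
      nlinarith [mul_nonneg (sq_nonneg τ) (sub_nonneg.2 this)]
    have e2 := Real.add_one_le_exp (τ ^ 2 * ((σ⁻¹) ^ 2 - 1) / 2)
    have e3 : |β (τ / σ)| ≤ 2 * Real.exp (τ ^ 2 * ((σ⁻¹) ^ 2 - 1) / 2) := by
      have e4 := P.bd (τ / σ)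
      have e5 := sq_abs (τ / σ)
      nlinarith [sq_nonneg (|τ / σ| - 1), sq_nonneg (τ / σ)]
    rw [rs, Real.exp_neg, abs_mul, abs_of_pos (by positivity), mul_assoc, mul_comm 2]
    refine mul_le_mul_of_nonneg_left ?_ (by positivity)
    rw [inv_mul_le_iff₀ (Real.exp_pos _), mul_comm]
    exact e3
  have h2 : |c0 + c1 * τ + c2 * τ ^ 2| ≤ 3 * (1 + τ ^ 2) := by
    have e1 := abs_add_three c0 (c1 * τ) (c2 * τ ^ 2)
    rw [abs_mul, abs_mul, abs_of_nonneg (sq_nonneg τ)] at e1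
    have e2 := mul_le_mul_of_nonneg_right P.b1 (abs_nonneg τ)
    have e3 := mul_le_mul_of_nonneg_right P.b2 (sq_nonneg τ)
    have e4 := sq_abs τ
    nlinarith [sq_nonneg (|τ| - 1), P.b0]
  have h3 := abs_sub (rs σ τ * β (τ / σ)) (c0 + c1 * τ + c2 * τ ^ 2)
  rw [Ar]
  nlinarith [mul_nonneg (sub_nonneg.2 hi) (sq_nonneg τ), sq_nonneg τ]

theorem d2_amgm {X Y Z b μ : ℝ} (hb : |b| ≤ 1) (hμ : |μ| ≤ 1) :
    ((1 + X ^ 2) * ((b + Y) * (μ + Z))) ^ 2 ≤ 40 + 8 * X ^ 8 + 16 * Y ^ 8 + 16 * Z ^ 8 := by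
  have k : ∀ {c W : ℝ}, |c| ≤ 1 → (c + W) ^ 2 ≤ 2 * (1 + W ^ 2) := fun {c W} hc => by
    have := sq_le_one_iff_abs_le_one c |>.2 hc
    nlinarith [sq_nonneg (c - W)]
  have k4 : ∀ W : ℝ, (1 + W ^ 2) ^ 4 ≤ 8 * (1 + W ^ 8) := fun W => by
    have e1 : (1 + W ^ 2) ^ 2 ≤ 2 * (1 + W ^ 4) := by nlinarith [sq_nonneg (1 - W ^ 2)]
    have e2 := pow_le_pow_left₀ (sq_nonneg _) e1 2
    nlinarith [sq_nonneg (1 - W ^ 4)]
  have h1 : (1 + X ^ 2) ^ 2 ≤ 2 * (1 + X ^ 4) := by nlinarith [sq_nonneg (1 - X ^ 2)]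
  have h2 : (b + Y) ^ 2 * (μ + Z) ^ 2 ≤ 2 * (1 + Y ^ 2) * (2 * (1 + Z ^ 2)) :=
    mul_le_mul (k hb) (k hμ) (sq_nonneg _) (by positivity)
  have h3 := mul_le_mul h1 h2 (by positivity) (by positivity)
  have h4 : (1 + X ^ 4) ^ 2 ≤ 2 * (1 + X ^ 8) := by nlinarith [sq_nonneg (1 - X ^ 4)]
  have h5 := k4 Y
  have h6 := k4 Z
  rw [mul_pow, mul_pow]
  refine h3.trans ?_
  generalize 1 + X ^ 4 = A at *
  generalize 1 + Y ^ 2 = B at *
  generalize 1 + Z ^ 2 = C at *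
  nlinarith [sq_nonneg (A - B * C), sq_nonneg (B ^ 2 - C ^ 2)]

theorem prof0 {σ : ℝ} (h0 : 0 < σ) (h1 : σ ≤ 1 / 4) :
    Prof (fun _ => 1) σ ((3 - σ ^ 2) / 2) 0 ((σ ^ 2 - 1) / 2) := by
  refine ⟨measurable_const, fun t => by simp, h0, h1, abs_le.2 ⟨by nlinarith, by nlinarith⟩,
    by simp, abs_le.2 ⟨by nlinarith, by nlinarith⟩, fun k hk => ?_⟩
  interval_cases k
  · rw [d2_poly 1 0 0 0 0 fun t => by ring,
      d2_poly ((3 - σ ^ 2) / 2) 0 ((σ ^ 2 - 1) / 2) 0 0 fun t => by ring]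
    ring
  · rw [d2_poly 0 σ 0 0 0 fun t => by ring,
      d2_poly 0 ((3 - σ ^ 2) / 2) 0 ((σ ^ 2 - 1) / 2) 0 fun t => by ring]
  · rw [d2_poly 0 0 (σ ^ 2) 0 0 fun t => by ring,
      d2_poly 0 0 ((3 - σ ^ 2) / 2) 0 ((σ ^ 2 - 1) / 2) fun t => by ring]
    ring

theorem prof1 {σ : ℝ} (h0 : 0 < σ) (h1 : σ ≤ 1 / 4) : Prof Real.sign σ 0 (alp * σ) 0 := by
  refine ⟨d2_sign, fun t => ?_, h0, h1, by simp, abs_le.2 ⟨by nlinarith [alp_pos.1],
    by nlinarith [alp_pos.1, alp_pos.2]⟩, by simp, fun k hk => ?_⟩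
  · have := abs_nonneg t
    rcases Real.sign_apply_eq t with h | h | h <;> rw [h] <;> simp <;> linarith
  interval_cases k
  · rw [d2_odd fun t => by rw [Real.sign_neg]; ring,
      d2_poly 0 (alp * σ) 0 0 0 fun t => by ring]
    ring
  · rw [d2_poly 0 0 (alp * σ) 0 0 (f := fun t => (0 + alp * σ * t + 0 * t ^ 2) * t ^ 1)
      fun t => by ring]
    have e : ∀ t : ℝ, Real.sign t * (σ * t) ^ 1 = |t| * σ := fun t => by
      rcases lt_trichotomy t 0 with h | rfl | h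
      · rw [Real.sign_of_neg h, abs_of_neg h]
        ring
      · simp
      · rw [Real.sign_of_pos h, abs_of_pos h]
        ring
    simp only [e, integral_mul_const]
    rw [alp]
    ring
  · rw [d2_odd fun t => by rw [Real.sign_neg]; ring,
      d2_poly 0 0 0 (alp * σ) 0 fun t => by ring]
    ring

theorem prof2 {σ : ℝ} (h0 : 0 < σ) (h1 : σ ≤ 1 / 4) : Prof (fun t => t) σ 0 σ 0 := by
  refine ⟨measurable_id, fun t => by linarith, h0, h1, by simp,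
    abs_le.2 ⟨by linarith, by linarith⟩, by simp, fun k hk => ?_⟩
  interval_cases k
  · rw [d2_poly 0 1 0 0 0 fun t => by ring, d2_poly 0 σ 0 0 0 fun t => by ring]
  · rw [d2_poly 0 0 σ 0 0 fun t => by ring, d2_poly 0 0 σ 0 0 fun t => by ring]
  · rw [d2_poly 0 0 0 (σ ^ 2) 0 fun t => by ring, d2_poly 0 0 0 σ 0 fun t => by ring]

/-- Pointwise `|Ar τ| ≤ C σ⁻¹ (1 + τ²)`: `rs σ τ (1 + |τ|/σ) ≤ C/σ`. Then moments. -/
theorem kernel_sq : ∃ C : ℝ, 0 < C ∧ ∀ (d : ℕ) (β : ℝ → ℝ) (σ c0 c1 c2 : ℝ),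
    Prof β σ c0 c1 c2 → ∀ (u p m : Eu d) (b μ : ℝ), ‖u‖ = 1 → ‖p‖ ≤ 1 → |b| ≤ 1 →
      (∀ τ, |Ar β σ c0 c1 c2 τ| ≤ C * σ⁻¹ * (1 + τ ^ 2)) ∧
      ∫ g, (Ar β σ c0 c1 c2 ⟪g, u⟫ * ((b + ⟪g, p⟫) * (μ + ⟪g, m⟫))) ^ 2 ∂stdGaussian (Eu d) ≤
        C * (σ⁻¹) ^ 2 * (|μ| + ‖m‖) ^ 2 := by
  set M : ℝ := ∫ x, x ^ 8 ∂gaussianReal 0 1 with hM
  have hM0 : 0 ≤ M := integral_nonneg fun x => by positivity
  refine ⟨1000 * (1 + M), by positivity, fun d β σ c0 c1 c2 P u p m b μ hu hp hb => ⟨fun τ => ?_, ?_⟩⟩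
  · have h0 := P.pos
    refine (d2_pt P τ).trans ?_
    gcongr
    linarith
  obtain ⟨s, m', μ', hs, rfl, rfl, hm', hμ'⟩ : ∃ (s : ℝ) (m' : Eu d) (μ' : ℝ), |μ| + ‖m‖ = s ∧
      m = s • m' ∧ μ = s * μ' ∧ ‖m'‖ ≤ 1 ∧ |μ'| ≤ 1 := by
    have a1 := abs_nonneg μ
    have a2 := norm_nonneg m
    rcases (add_nonneg a1 a2).eq_or_lt with h | h
    · exact ⟨0, 0, 0, h.symm, by rw [smul_zero, ← norm_eq_zero]; linarith,
        by rw [mul_zero, ← abs_eq_zero]; linarith, by simp, by simp⟩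
    · refine ⟨_, (|μ| + ‖m‖)⁻¹ • m, (|μ| + ‖m‖)⁻¹ * μ, rfl, (smul_inv_smul₀ h.ne' m).symm,
        (mul_inv_cancel_left₀ h.ne' μ).symm, ?_, ?_⟩
      · rw [norm_smul, Real.norm_of_nonneg (by positivity), inv_mul_le_iff₀ h]
        linarith
      · rw [abs_mul, abs_of_nonneg (by positivity), inv_mul_le_iff₀ h]
        linarith
  rw [hs]
  obtain ⟨i1, b1⟩ := d2_eight hu.le
  obtain ⟨i2, b2⟩ := d2_eight hp
  obtain ⟨i3, b3⟩ := d2_eight hm'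
  have j0 : Integrable (fun _ : Eu d => (40 : ℝ)) (stdGaussian (Eu d)) := integrable_const _
  have j1 : Integrable (fun g : Eu d => 40 + 8 * ⟪g, u⟫ ^ 8) (stdGaussian (Eu d)) :=
    j0.add (i1.const_mul 8)
  have j2 : Integrable (fun g : Eu d => 40 + 8 * ⟪g, u⟫ ^ 8 + 16 * ⟪g, p⟫ ^ 8)
      (stdGaussian (Eu d)) := j1.add (i2.const_mul 16)
  have j3 : Integrable (fun g : Eu d => 40 + 8 * ⟪g, u⟫ ^ 8 + 16 * ⟪g, p⟫ ^ 8 + 16 * ⟪g, m'⟫ ^ 8)
      (stdGaussian (Eu d)) := j2.add (i3.const_mul 16)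
  refine (integral_mono_of_nonneg (Filter.Eventually.of_forall fun g => sq_nonneg _)
    (j3.const_mul (25 * (σ⁻¹) ^ 2 * s ^ 2)) (Filter.Eventually.of_forall fun g => ?_)).trans ?_
  · have h1 := sq_le_sq' (abs_le.1 (d2_pt P ⟪g, u⟫)).1 (abs_le.1 (d2_pt P ⟪g, u⟫)).2
    have h2 := d2_amgm (X := ⟪g, u⟫) (Y := ⟪g, p⟫) (Z := ⟪g, m'⟫) hb hμ'
    simp only [real_inner_smul_right]
    calc _ = Ar β σ c0 c1 c2 ⟪g, u⟫ ^ 2 * (s * ((b + ⟪g, p⟫) * (μ' + ⟪g, m'⟫))) ^ 2 := by ring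
      _ ≤ (5 * σ⁻¹ * (1 + ⟪g, u⟫ ^ 2)) ^ 2 * (s * ((b + ⟪g, p⟫) * (μ' + ⟪g, m'⟫))) ^ 2 :=
        mul_le_mul_of_nonneg_right h1 (sq_nonneg _)
      _ = 25 * (σ⁻¹) ^ 2 * s ^ 2 *
          ((1 + ⟪g, u⟫ ^ 2) * ((b + ⟪g, p⟫) * (μ' + ⟪g, m'⟫))) ^ 2 := by ring
      _ ≤ _ := mul_le_mul_of_nonneg_left h2 (by positivity)
  · rw [integral_const_mul, integral_add j2 (i3.const_mul 16), integral_add j1 (i2.const_mul 16),
      integral_add j0 (i1.const_mul 8), integral_const_mul, integral_const_mul, integral_const_mul,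
      integral_const, probReal_univ, one_smul]
    calc _ ≤ 25 * (σ⁻¹) ^ 2 * s ^ 2 * (40 * (1 + M)) :=
        mul_le_mul_of_nonneg_left (by linarith) (by positivity)
      _ = _ := by ring

theorem meas_Y {d : ℕ} {F : Eu d → ℝ} {B : ℝ} (hF : Bm F B) {σ : Eu d → ℝ} {p : Eu d → Eu d}
    (hσ : Measurable σ) (hp : Measurable p) :
    Measurable (fun u => Y0 F u (σ u)) ∧ Measurable (fun u => Y1 F u (p u) (σ u)) ∧
      Measurable (fun u => y2 F u (σ u)) := by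
  have hF' := hF.1
  have hs := d2_sign
  refine ⟨(StronglyMeasurable.integral_prod_right (f := fun u g => F (Gm u (σ u) g) • pj u g)
      (Measurable.stronglyMeasurable ?_)).measurable,
    (StronglyMeasurable.integral_prod_right
      (f := fun u g => (Real.sign ⟪g, u⟫ * ⟪g, p u⟫ * F (Gm u (σ u) g)) • pj u g)
      (Measurable.stronglyMeasurable ?_)).measurable,
    (StronglyMeasurable.integral_prod_right (f := fun u g => ⟪g, u⟫ * F (Gm u (σ u) g))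
      (Measurable.stronglyMeasurable ?_)).measurable⟩ <;>
  · simp only [Function.uncurry_def, Gm, pj]
    fun_prop

end Pool.Agent.Lib.MP_77d991_gt.Ex
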