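import Pool.Agent.Lib.MP_77d991_gt.Ex.D1
import Pool.Agent.Lib.MP_77d991_gt.Ex.D2

open MeasureTheory ProbabilityTheory Set
open scoped RealInnerProductSpace

namespace Pool.Agent.Lib.MP_77d991_gt.Ex

open Pool.Agent.Lib.MP_77d991_gt.As

lemma d3_fix : ∃ C : ℝ, 0 < C ∧ ∀ (β β' : ℝ → ℝ) (σ c0 c1 c2 σ' c0' c1' c2' t : ℝ),
    Prof β σ c0 c1 c2 → Prof β' σ' c0' c1' c2' → |t| ≤ 1 / 4 → ∀ α γ : Fin 3 → ℝ,
      |∫ q : ℝ × ℝ, Ar β σ c0 c1 c2 q.1 * (∑ i, α i * q.2 ^ (i : ℕ)) *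
        (Ar β' σ' c0' c1' c2' (t * q.1 + √(1 - t ^ 2) * q.2) *
          ∑ j, γ j * (t * q.2 - √(1 - t ^ 2) * q.1) ^ (j : ℕ))
        ∂(gaussianReal 0 1).prod (gaussianReal 0 1)| ≤
        C * ((∑ i, |α i|) * ∑ j, |γ j| * |t| ^ (3 - (j : ℕ))) := by
  obtain ⟨C, hC, h⟩ := mehler
  refine ⟨C, hC, fun β β' σ c0 c1 c2 σ' c0' c1' c2' t P P' ht α γ => ?_⟩
  have h1 := fun i j : Fin 3 => h β β' σ c0 c1 c2 σ' c0' c1' c2' t P P' ht i (by omega) j (by omega)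
  have e : ∀ q : ℝ × ℝ, Ar β σ c0 c1 c2 q.1 * (∑ i, α i * q.2 ^ (i : ℕ)) *
      (Ar β' σ' c0' c1' c2' (t * q.1 + √(1 - t ^ 2) * q.2) *
        ∑ j, γ j * (t * q.2 - √(1 - t ^ 2) * q.1) ^ (j : ℕ)) =
      ∑ i, ∑ j, α i * γ j * (Ar β σ c0 c1 c2 q.1 *
        Ar β' σ' c0' c1' c2' (t * q.1 + √(1 - t ^ 2) * q.2) *
          (q.2 ^ (i : ℕ) * (t * q.2 - √(1 - t ^ 2) * q.1) ^ (j : ℕ))) := fun q => by
    rw [mul_mul_mul_comm, Finset.sum_mul_sum, Finset.mul_sum]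
    refine Finset.sum_congr rfl fun i _ => ?_
    rw [Finset.mul_sum]
    exact Finset.sum_congr rfl fun j _ => by ring
  simp only [e]
  rw [integral_finsetSum _ fun i _ => integrable_finsetSum _ fun j _ => (h1 i j).1.const_mul _,
    Finset.sum_mul_sum, Finset.mul_sum]
  refine (Finset.abs_sum_le_sum_abs _ _).trans (Finset.sum_le_sum fun i _ => ?_)
  rw [integral_finsetSum _ fun j _ => (h1 i j).1.const_mul _, Finset.mul_sum]
  refine (Finset.abs_sum_le_sum_abs _ _).trans (Finset.sum_le_sum fun j _ => ?_)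
  rw [integral_const_mul, abs_mul, abs_mul]
  refine (mul_le_mul_of_nonneg_left (h1 i j).2 (by positivity)).trans (le_of_eq ?_)
  ring

lemma d3_arith {X1 X2 X3 X4 a1 a2 a3 a4 S M M' P N T : ℝ} (hS : 1 ≤ S) (hT : 0 ≤ T) (hP : 0 ≤ P)
    (hN : 0 ≤ N) (h1 : |X1| ≤ 2 * S) (h2 : |X2| ≤ M * S) (h3 : |X3| ≤ 2 * S) (h4 : |X4| ≤ M' * S)
    (k1 : |a1| ≤ 1) (k2 : |a2| ≤ M) (k3 : |a3| ≤ 2 * P) (k4 : |a4| ≤ 2 * N) :
    (|X1 * X2| + |X1 * a2 + a1 * X2| + |a1 * a2|) *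
      (|X3 * X4| * T ^ 3 + |X3 * a4 + a3 * X4| * T ^ 2 + |a3 * a4| * T ^ 1) ≤
      24 * M * (T ^ 3 * M' + T ^ 2 * (P * M' + N) + T * (P * N)) * S ^ 4 := by
  have hM : 0 ≤ M := (abs_nonneg _).trans k2
  have hS0 : 0 < S := by linarith
  have hM' : 0 ≤ M' := nonneg_of_mul_nonneg_left ((abs_nonneg _).trans h4) hS0
  have g : ∀ {x y A B : ℝ}, |x| ≤ A → |y| ≤ B → |x * y| ≤ A * B := fun hx hy => by
    rw [abs_mul]
    exact mul_le_mul hx hy (abs_nonneg _) ((abs_nonneg _).trans hx)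
  have k2' : |a2| ≤ M * S := k2.trans (le_mul_of_one_le_right hM hS)
  have k3' : |a3| ≤ 2 * P * S := k3.trans (le_mul_of_one_le_right (by positivity) hS)
  have k4' : |a4| ≤ 2 * N * S := k4.trans (le_mul_of_one_le_right (by positivity) hS)
  have e1 : |X1 * X2| + |X1 * a2 + a1 * X2| + |a1 * a2| ≤ 6 * M * S ^ 2 := by
    linarith [g h1 h2, g h1 k2', g (k1.trans hS) h2, g (k1.trans hS) k2',
      abs_add_le (X1 * a2) (a1 * X2)]
  have e2 : |X3 * a4 + a3 * X4| ≤ 4 * (P * M' + N) * S ^ 2 := by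
    linarith [g h3 k4', g k3' h4, abs_add_le (X3 * a4) (a3 * X4),
      show 0 ≤ P * M' * S ^ 2 by positivity]
  have e3 : |X3 * X4| * T ^ 3 + |X3 * a4 + a3 * X4| * T ^ 2 + |a3 * a4| * T ^ 1 ≤
      4 * (T ^ 3 * M' + T ^ 2 * (P * M' + N) + T * (P * N)) * S ^ 2 := by
    linarith [mul_le_mul_of_nonneg_right (g h3 h4) (pow_nonneg hT 3),
      mul_le_mul_of_nonneg_right e2 (pow_nonneg hT 2),
      mul_le_mul_of_nonneg_right (g k3' k4') (pow_nonneg hT 1),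
      show 0 ≤ T ^ 3 * M' * S ^ 2 by positivity]
  refine (mul_le_mul e1 e3 (by positivity) (by positivity)).trans (le_of_eq ?_)
  ring

lemma d3_S {d : ℕ} (v : Fin 4 → Eu d) : ∃ S Q : Eu d → ℝ, (∀ w, 1 ≤ S w) ∧ (∀ w, S w ^ 4 ≤ Q w) ∧
    Integrable Q (stdGaussian (Eu d)) ∧ ∫ w, Q w ∂stdGaussian (Eu d) ≤ 7000 ∧
      ∀ i w (b : ℝ), |b + ⟪w, v i⟫| ≤ (|b| + ‖v i‖) * S w := by
  have i1 := integrable_finsetSum Finset.univ fun i _ => integrable_inner_pow (nz (v i)) 4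
  have h0 : ∀ w : Eu d, 0 ≤ ∑ i, |⟪nz (v i), w⟫| := fun w =>
    Finset.sum_nonneg fun i _ => abs_nonneg _
  refine ⟨fun w => 1 + ∑ i, |⟪nz (v i), w⟫|, fun w => 8 + 512 * ∑ i, ⟪nz (v i), w⟫ ^ 4,
    fun w => le_add_of_nonneg_right (h0 w), fun w => ?_, (integrable_const _).add (i1.const_mul _),
    ?_, fun i w b => ?_⟩
  · have h1 := pow_sum_le_card_mul_sum_pow (s := Finset.univ) (f := fun i => |⟪nz (v i), w⟫|)
      (fun i _ => abs_nonneg _) 3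
    have h2 := add_pow_le zero_le_one (h0 w) 4
    simp only [Finset.card_univ, Fintype.card_fin, show 3 + 1 = 4 from rfl,
      (show Even 4 by decide).pow_abs] at h1
    norm_num at h1 h2 ⊢
    linarith
  · rw [integral_add (integrable_const _) (i1.const_mul _), integral_const_mul,
      integral_finsetSum _ fun i _ => integrable_inner_pow (nz (v i)) 4]
    have h1 : ∑ i, ∫ w, ⟪nz (v i), w⟫ ^ 4 ∂stdGaussian (Eu d) ≤ ∑ _i : Fin 4, (3 : ℝ) :=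
      Finset.sum_le_sum fun i _ => by
        rw [int_inner_four, m4_eq]
        exact mul_le_of_le_one_right (by norm_num) (pow_le_one₀ (norm_nonneg _) (asrad_norm_nz _))
    simp only [Finset.sum_const, Finset.card_univ, Fintype.card_fin, nsmul_eq_mul] at h1
    simp only [integral_const, probReal_univ, one_smul]
    norm_num at h1
    linarith
  · have h1 : |⟪w, v i⟫| = ‖v i‖ * |⟪nz (v i), w⟫| := by
      rw [← abs_norm, ← abs_mul, ← real_inner_smul_left, asrad_smul_nz, real_inner_comm]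
    have h2 := Finset.single_le_sum (f := fun i => |⟪nz (v i), w⟫|) (fun i _ => abs_nonneg _)
      (Finset.mem_univ i)
    have h3 := mul_le_mul_of_nonneg_left h2 (norm_nonneg (v i))
    have h4 := mul_nonneg (abs_nonneg b) (h0 w)
    linarith [abs_add_le b ⟪w, v i⟫, norm_nonneg (v i)]

lemma d3_adj {d : ℕ} (u w p : Eu d) : ⟪pj u w, p⟫ = ⟪w, pj u p⟫ := by
  rw [pj, pj, inner_sub_left, inner_sub_right, real_inner_smul_left, real_inner_smul_right,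
    real_inner_comm u p, mul_comm]

lemma d3_norm {d : ℕ} {u : Eu d} (hu : ‖u‖ = 1) (p : Eu d) : ‖pj u p‖ ≤ ‖p‖ := by
  refine (pow_le_pow_iff_left₀ (norm_nonneg _) (norm_nonneg _) two_ne_zero).1 ?_
  rw [pj, norm_sub_sq_real, real_inner_smul_right, norm_smul, hu, mul_one, Real.norm_eq_abs, sq_abs]
  nlinarith [sq_nonneg ⟪p, u⟫]

lemma d3_fub {d : ℕ} {u e : Eu d} (hu : ‖u‖ = 1) (he : ‖e‖ = 1) (hue : ⟪u, e⟫ = 0) {F Q : Eu d → ℝ}
    (hF : Measurable F) (hQ : Integrable Q (stdGaussian (Eu d)))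
    (h : ∀ w, |∫ q : ℝ × ℝ, F (q.1 • u + q.2 • e + pj e (pj u w))
      ∂(gaussianReal 0 1).prod (gaussianReal 0 1)| ≤ Q w) :
    |∫ g, F g ∂stdGaussian (Eu d)| ≤ ∫ w, Q w ∂stdGaussian (Eu d) := by
  by_cases hI : Integrable F (stdGaussian (Eu d))
  swap
  · rw [integral_undef hI, abs_zero]
    exact integral_nonneg fun w => (abs_nonneg _).trans (h w)
  have hm : Measurable fun q : ℝ × ℝ × Eu d => q.1 • u + q.2.1 • e + pj e (pj u q.2.2) := by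
    unfold pj
    fun_prop
  have hp : MeasurePreserving (fun q : (ℝ × ℝ) × Eu d => q.1.1 • u + q.1.2 • e + pj e (pj u q.2))
      (((gaussianReal 0 1).prod (gaussianReal 0 1)).prod (stdGaussian (Eu d)))
      (stdGaussian (Eu d)) :=
    (MeasurePreserving.mk hm (split2 hu he hue).symm).comp (measurePreserving_prodAssoc _ _ _)
  have i1 := (hp.integrable_comp hF.aestronglyMeasurable).2 hI
  have e1 := integral_map (μ := ((gaussianReal 0 1).prod (gaussianReal 0 1)).prod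
    (stdGaussian (Eu d))) hp.measurable.aemeasurable hF.aestronglyMeasurable
  rw [hp.map_eq] at e1
  rw [e1, integral_prod_symm (fun q : (ℝ × ℝ) × Eu d => F (q.1.1 • u + q.1.2 • e + pj e (pj u q.2)))
    i1, ← Real.norm_eq_abs]
  exact norm_integral_le_of_norm_le hQ (Filter.Eventually.of_forall h)

/-- `e = (u' - t u)/c`, `split2`: `g = τ u + ζ e + z`, `⟪g,u'⟫ = tτ + cζ`, for `p ⊥ u`
`⟪g,p⟫ = ⟪z,p⟫ + ζ⟪e,p⟫`, for `p' ⊥ u'` `⟪g,p'⟫ = ⟪z,p'⟫ - (tζ - cτ) ⟪p',u⟫/c`. Both features are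
quadratic polynomials; nine terms, each a product of a `mehler` integral and a fourth moment in `z`. -/
theorem kernel_near : ∃ C : ℝ, 0 < C ∧ ∀ (d : ℕ) (β β' : ℝ → ℝ) (σ c0 c1 c2 σ' c0' c1' c2' : ℝ),
    Prof β σ c0 c1 c2 → Prof β' σ' c0' c1' c2' → ∀ (u u' p p' m m' : Eu d) (b b' μ μ' : ℝ),
    ‖u‖ = 1 → ‖u'‖ = 1 → ⟪p, u⟫ = 0 → ⟪m, u⟫ = 0 → ⟪p', u'⟫ = 0 → ⟪m', u'⟫ = 0 → ‖p‖ ≤ 1 →
    ‖p'‖ ≤ 1 → |b| ≤ 1 → |b'| ≤ 1 → |⟪u, u'⟫| ≤ 1 / 4 →
      |∫ g, Ar β σ c0 c1 c2 ⟪g, u⟫ * ((b + ⟪g, p⟫) * (μ + ⟪g, m⟫)) *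
          (Ar β' σ' c0' c1' c2' ⟪g, u'⟫ * ((b' + ⟪g, p'⟫) * (μ' + ⟪g, m'⟫))) ∂stdGaussian (Eu d)| ≤
        C * (|μ| + ‖m‖) * (|⟪u, u'⟫| ^ 3 * (|μ'| + ‖m'‖) +
          ⟪u, u'⟫ ^ 2 * (|⟪p', u⟫| * (|μ'| + ‖m'‖) + |⟪m', u⟫|) +
          |⟪u, u'⟫| * (|⟪p', u⟫| * |⟪m', u⟫|)) := by
  obtain ⟨C, hC, h⟩ := d3_fix
  refine ⟨168000 * C, by positivity, fun d β β' σ c0 c1 c2 σ' c0' c1' c2' P P' u u' p p' m m' b b' μ μ'
    hu hu' hp hm hp' hm' np np' hb hb' ht => ?_⟩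
  set t := ⟪u, u'⟫ with htd
  have h1 : 1 / 4 ≤ 1 - t ^ 2 := by nlinarith [abs_nonneg t, sq_abs t]
  set c := √(1 - t ^ 2) with hcd
  have hc2 : c ^ 2 = 1 - t ^ 2 := Real.sq_sqrt (by linarith)
  have hc : 1 / 2 ≤ c := Real.le_sqrt_of_sq_le (by linarith)
  have hc0 : 0 < c := by linarith
  have huu : ⟪u, u⟫ = 1 := by rw [real_inner_self_eq_norm_sq, hu, one_pow]
  obtain ⟨e, he, hue, hu2⟩ : ∃ e : Eu d, ‖e‖ = 1 ∧ ⟪u, e⟫ = 0 ∧ u' = t • u + c • e := by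
    refine ⟨c⁻¹ • (u' - t • u), ?_, ?_, ?_⟩
    · have h2 : ‖u' - t • u‖ = c := by
        refine (pow_left_inj₀ (norm_nonneg _) hc0.le two_ne_zero).1 ?_
        rw [norm_sub_sq_real, real_inner_smul_right, norm_smul, hu, hu', real_inner_comm, ← htd,
          mul_one, Real.norm_eq_abs, sq_abs, hc2]
        ring
      rw [norm_smul, h2, norm_inv, Real.norm_of_nonneg hc0.le, inv_mul_cancel₀ hc0.ne']
    · rw [real_inner_smul_right, inner_sub_right, real_inner_smul_right, huu, ← htd, mul_one,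
        sub_self, mul_zero]
    · rw [smul_inv_smul₀ hc0.ne', add_sub_cancel]
  have hee : ⟪e, e⟫ = 1 := by rw [real_inner_self_eq_norm_sq, he, one_pow]
  have heu : ⟪e, u⟫ = 0 := by rw [real_inner_comm, hue]
  have ev : ∀ (q : ℝ × ℝ) (w v : Eu d), ⟪q.1 • u + q.2 • e + pj e (pj u w), v⟫ =
      q.1 * ⟪u, v⟫ + q.2 * ⟪e, v⟫ + ⟪w, pj u (pj e v)⟫ := fun q w v => by
    rw [inner_add_left, inner_add_left, real_inner_smul_left, real_inner_smul_left, d3_adj, d3_adj]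
  have z1 : pj u (pj e u) = 0 := by simp only [pj, hue, huu, zero_smul, sub_zero, one_smul, sub_self]
  have z2 : pj u (pj e u') = 0 := by
    have h2 : pj e u' = t • u := by
      rw [pj, hu2, inner_add_left, real_inner_smul_left, real_inner_smul_left, hue, hee]
      simp
    rw [h2, pj, real_inner_smul_left, huu, mul_one, sub_self]
  have z3 : ⟪e, u'⟫ = c := by
    rw [hu2, inner_add_right, real_inner_smul_right, real_inner_smul_right, heu, hee]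
    ring
  have z4 : ∀ v : Eu d, ⟪v, u'⟫ = 0 → ⟪e, v⟫ = t * -(⟪v, u⟫ / c) ∧ |-(⟪v, u⟫ / c)| ≤ 2 * |⟪v, u⟫| :=
    fun v hv => by
      rw [hu2, inner_add_right, real_inner_smul_right, real_inner_smul_right] at hv
      refine ⟨?_, ?_⟩
      · rw [real_inner_comm]
        field_simp
        linarith
      · rw [abs_neg, abs_div, abs_of_pos hc0, div_le_iff₀ hc0]
        nlinarith [abs_nonneg ⟪v, u⟫]
  have z5 : ∀ v : Eu d, ‖pj u (pj e v)‖ ≤ ‖v‖ := fun v => (d3_norm hu _).trans (d3_norm he _)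
  have z6 : ∀ v : Eu d, |⟪e, v⟫| ≤ ‖v‖ := fun v => by
    simpa only [he, one_mul] using abs_real_inner_le_norm e v
  obtain ⟨S, Q, hS, hSQ, iQ, eQ, hv⟩ := d3_S fun i => pj u (pj e (![p, m, p', m'] i))
  have hA := d1_meas P
  have hA' := d1_meas P'
  set K := 24 * (|μ| + ‖m‖) * (|t| ^ 3 * (|μ'| + ‖m'‖) + |t| ^ 2 * (|⟪p', u⟫| * (|μ'| + ‖m'‖) +
    |⟪m', u⟫|) + |t| * (|⟪p', u⟫| * |⟪m', u⟫|)) with hK
  have hK0 : 0 ≤ C * K := by positivity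
  refine (d3_fub hu he hue (by fun_prop) (iQ.const_mul (C * K)) fun w => ?_).trans ?_
  · set X1 := b + ⟪w, pj u (pj e p)⟫ with e1
    set X2 := μ + ⟪w, pj u (pj e m)⟫ with e2
    set X3 := b' + ⟪w, pj u (pj e p')⟫ with e3
    set X4 := μ' + ⟪w, pj u (pj e m')⟫ with e4
    have hS0 : 0 ≤ S w := zero_le_one.trans (hS w)
    have b1 : |X1| ≤ 2 * S w := (hv 0 w b).trans (mul_le_mul_of_nonneg_right
      (show |b| + ‖pj u (pj e p)‖ ≤ 2 by linarith [z5 p]) hS0)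
    have b2 : |X2| ≤ (|μ| + ‖m‖) * S w := (hv 1 w μ).trans (mul_le_mul_of_nonneg_right
      (show |μ| + ‖pj u (pj e m)‖ ≤ _ by linarith [z5 m]) hS0)
    have b3 : |X3| ≤ 2 * S w := (hv 2 w b').trans (mul_le_mul_of_nonneg_right
      (show |b'| + ‖pj u (pj e p')‖ ≤ 2 by linarith [z5 p']) hS0)
    have b4 : |X4| ≤ (|μ'| + ‖m'‖) * S w := (hv 3 w μ').trans (mul_le_mul_of_nonneg_right
      (show |μ'| + ‖pj u (pj e m')‖ ≤ _ by linarith [z5 m']) hS0)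
    have b5 := d3_arith (hS w) (abs_nonneg t) (abs_nonneg _) (abs_nonneg _) b1 b2 b3 b4
      ((z6 p).trans np) ((z6 m).trans (le_add_of_nonneg_left (abs_nonneg μ))) (z4 p' hp').2
      (z4 m' hm').2
    have b6 := h β β' σ c0 c1 c2 σ' c0' c1' c2' t P P' ht
      ![X1 * X2, X1 * ⟪e, m⟫ + ⟪e, p⟫ * X2, ⟪e, p⟫ * ⟪e, m⟫]
      ![X3 * X4, X3 * -(⟪m', u⟫ / c) + -(⟪p', u⟫ / c) * X4, -(⟪p', u⟫ / c) * -(⟪m', u⟫ / c)]
    simp only [Fin.sum_univ_three, Matrix.cons_val_zero, Matrix.cons_val_one, Matrix.cons_val,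
      Fin.val_zero, Fin.val_one, Fin.val_two, ← hcd] at b6
    refine le_trans (le_of_eq ?_) (b6.trans ((mul_le_mul_of_nonneg_left b5 hC.le).trans ?_))
    · congr 2
      funext q
      simp only [ev, z1, z2, z3, huu, heu, ← htd, inner_zero_right, mul_one, mul_zero, add_zero,
        (z4 p' hp').1, (z4 m' hm').1, real_inner_comm p u, real_inner_comm m u,
        real_inner_comm p' u, real_inner_comm m' u, hp, hm]
      rw [mul_comm q.1 t, mul_comm q.2 c, e1, e2, e3, e4]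
      field_simp
      ring
    · rw [← mul_assoc]
      exact mul_le_mul_of_nonneg_left (hSQ w) hK0
  · rw [integral_const_mul]
    refine (mul_le_mul_of_nonneg_left eQ hK0).trans (le_of_eq ?_)
    rw [hK, sq_abs]
    ring

end Pool.Agent.Lib.MP_77d991_gt.Ex
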