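import Pool.Agent.Lib.MP_77d991_gt.Ex.D3

open MeasureTheory ProbabilityTheory Set
open scoped RealInnerProductSpace

namespace Pool.Agent.Lib.MP_77d991_gt.Ex

open Pool.Agent.Lib.MP_77d991_gt.As

lemma d4_cs {Y : Type*} [MeasurableSpace Y] {γ : Measure Y} {F W : Y → ℝ}
    (h1 : Integrable (fun y => F y ^ 2) γ) (h2 : Integrable (fun y => W y ^ 2) γ)
    (h3 : Integrable (fun y => F y * W y) γ) :
    (∫ y, F y * W y ∂γ) ^ 2 ≤ (∫ y, F y ^ 2 ∂γ) * ∫ y, W y ^ 2 ∂γ := by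
  have h := discrim_le_zero (a := ∫ y, F y ^ 2 ∂γ) (b := 2 * ∫ y, F y * W y ∂γ)
    (c := ∫ y, W y ^ 2 ∂γ) fun x => by
      have i1 : Integrable (fun y => F y ^ 2 * (x * x) + 2 * (F y * W y) * x) γ :=
        (h1.mul_const _).add ((h3.const_mul _).mul_const _)
      rw [← integral_mul_const, ← integral_const_mul, ← integral_mul_const,
        ← integral_add (h1.mul_const _) ((h3.const_mul _).mul_const _), ← integral_add i1 h2]
      exact integral_nonneg fun y => by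
        have := sq_nonneg (F y * x + W y)
        simp only [Pi.zero_apply]
        nlinarith
  rw [discrim] at h
  nlinarith

lemma d4_abs {X Y : Type*} [MeasurableSpace X] [MeasurableSpace Y] (ν : Measure X) (γ : Measure Y)
    [IsProbabilityMeasure ν] [IsProbabilityMeasure γ] {Φ : X → Y → ℝ}
    (hΦ : Measurable fun q : X × Y => Φ q.1 q.2) {G : Y → ℝ} (hG1 : Integrable G γ)
    (hG : Integrable (fun y => G y ^ 2) γ) (hb : ∀ᵐ u ∂ν, ∀ g, |Φ u g| ≤ G g) {F : Y → ℝ} {B : ℝ}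
    (hF : Bm F B) :
    Integrable (fun q : X × X => ∫ g, Φ q.1 g * Φ q.2 g ∂γ) (ν.prod ν) ∧
      (∫ u, ∫ g, F g * Φ u g ∂γ ∂ν) ^ 2 ≤
        (∫ g, F g ^ 2 ∂γ) * ∫ q : X × X, ∫ g, Φ q.1 g * Φ q.2 g ∂γ ∂ν.prod ν := by
  have hFm := hF.1
  have b1 : ∀ᵐ q : X × X ∂ν.prod ν, ∀ g, |Φ q.1 g| ≤ G g :=
    Measure.quasiMeasurePreserving_fst.ae hb
  have b2 : ∀ᵐ q : X × X ∂ν.prod ν, ∀ g, |Φ q.2 g| ≤ G g :=
    Measure.quasiMeasurePreserving_snd.ae hb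
  have i0 : Integrable (fun q : X × Y => Φ q.1 q.2) (ν.prod γ) := by
    refine Integrable.mono' (hG1.comp_snd ν) hΦ.aestronglyMeasurable ?_
    filter_upwards [Measure.quasiMeasurePreserving_fst.ae hb] with q hq using hq q.2
  have i1 : Integrable (fun q : X × Y => F q.2 * Φ q.1 q.2) (ν.prod γ) :=
    i0.bdd_mul (c := B) (hFm.comp measurable_snd).aestronglyMeasurable
      (Filter.Eventually.of_forall fun q => hF.2 q.2)
  have i2 : Integrable (fun z : (X × X) × Y => Φ z.1.1 z.2 * Φ z.1.2 z.2) ((ν.prod ν).prod γ) := by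
    refine Integrable.mono' (hG.comp_snd (ν.prod ν))
      (Measurable.aestronglyMeasurable
        ((hΦ.comp (measurable_fst.fst.prodMk measurable_snd)).mul
          (hΦ.comp (measurable_fst.snd.prodMk measurable_snd)))) ?_
    filter_upwards [Measure.quasiMeasurePreserving_fst.ae b1,
      Measure.quasiMeasurePreserving_fst.ae b2] with z h1 h2
    rw [norm_mul, sq]
    exact mul_le_mul (h1 _) (h2 _) (norm_nonneg _) ((abs_nonneg _).trans (h1 _))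
  refine ⟨i2.integral_prod_left, ?_⟩
  have e1 : ∀ g, ∫ q : X × X, Φ q.1 g * Φ q.2 g ∂ν.prod ν = (∫ u, Φ u g ∂ν) ^ 2 := fun g => by
    rw [integral_prod_mul (fun u => Φ u g) (fun u => Φ u g), sq]
  have i3 := i2.integral_prod_right
  have i4 := i1.integral_prod_right
  simp only [e1] at i3
  simp only [integral_const_mul] at i4
  rw [integral_integral_swap (f := fun u g => F g * Φ u g) i1,
    integral_integral_swap (f := fun (q : X × X) g => Φ q.1 g * Φ q.2 g) i2]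
  simp only [e1, integral_const_mul]
  refine d4_cs ?_ i3 i4
  refine Integrable.of_bound (hFm.pow_const 2).aestronglyMeasurable (B ^ 2)
    (Filter.Eventually.of_forall fun g => ?_)
  rw [norm_pow]
  exact pow_le_pow_left₀ (norm_nonneg _) (hF.2 g) 2

/-- one function that dominates all pair terms. -/
noncomputable def d4_P (s k : ℝ) (J : ℕ) (x : ℝ) : ℝ :=
  s ^ 3 * x ^ (2 * 3) + s * x ^ (2 * 2) + x ^ (2 * 1) / s + 1 / s ^ 3 + k * x ^ (2 * J)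

lemma d4_int {d : ℕ} (hd : 0 < d) (w : Eu d) (n : ℕ) :
    Integrable (fun u => ⟪w, u⟫ ^ n) (sph d) := by
  refine Integrable.of_bound (Continuous.aestronglyMeasurable (by fun_prop)) (‖w‖ ^ n) ?_
  filter_upwards [sph_unit hd] with u hu
  rw [norm_pow]
  refine pow_le_pow_left₀ (norm_nonneg _) ((norm_inner_le_norm _ _).trans ?_) n
  rw [hu, mul_one]

lemma d4_mom (J : ℕ) : ∃ M : ℝ, 0 < M ∧ ∀ d : ℕ, 0 < d → ∀ k : ℝ, 0 ≤ k → ∀ w : Eu d, ‖w‖ ≤ 1 →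
    ∫ u, d4_P (√d) k J ⟪w, u⟫ ∂sph d ≤ M * (1 / (d * √(d : ℝ)) + k / d ^ J) := by
  obtain ⟨M1, p1, h1⟩ := mom_sph 1
  obtain ⟨M2, p2, h2⟩ := mom_sph 2
  obtain ⟨M3, p3, h3⟩ := mom_sph 3
  obtain ⟨MJ, pJ, hJ⟩ := mom_sph J
  refine ⟨M1 + M2 + M3 + 1 + MJ, by positivity, fun d hd k hk w hw => ?_⟩
  have hd' : (0 : ℝ) < d := by exact_mod_cast hd
  have hs : 0 < √(d : ℝ) := Real.sqrt_pos.2 hd'
  have e : ∀ {M : ℝ} {n : ℕ}, 0 < M → M * ‖w‖ ^ (2 * n) / (d : ℝ) ^ n ≤ M / d ^ n := fun {M n} hM => by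
    have := pow_le_one₀ (n := 2 * n) (norm_nonneg w) hw
    gcongr
    exact mul_le_of_le_one_right hM.le this
  have a1 := (h1 d hd w).trans (e p1)
  have a2 := (h2 d hd w).trans (e p2)
  have a3 := (h3 d hd w).trans (e p3)
  have aJ := (hJ d hd w).trans (e pJ)
  have i := d4_int hd w
  have j1 : Integrable (fun u => √(d : ℝ) ^ 3 * ⟪w, u⟫ ^ (2 * 3) + √(d : ℝ) * ⟪w, u⟫ ^ (2 * 2))
    (sph d) := ((i _).const_mul _).add ((i _).const_mul _)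
  have j2 : Integrable (fun u => √(d : ℝ) ^ 3 * ⟪w, u⟫ ^ (2 * 3) + √(d : ℝ) * ⟪w, u⟫ ^ (2 * 2) +
    ⟪w, u⟫ ^ (2 * 1) / √(d : ℝ)) (sph d) := j1.add ((i _).div_const _)
  have j3 : Integrable (fun u => √(d : ℝ) ^ 3 * ⟪w, u⟫ ^ (2 * 3) + √(d : ℝ) * ⟪w, u⟫ ^ (2 * 2) +
    ⟪w, u⟫ ^ (2 * 1) / √(d : ℝ) + 1 / √(d : ℝ) ^ 3) (sph d) := j2.add (integrable_const _)
  unfold d4_P
  rw [integral_add j3 ((i _).const_mul _), integral_add j2 (integrable_const _),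
    integral_add j1 ((i _).div_const _), integral_add ((i _).const_mul _) ((i _).const_mul _),
    integral_const_mul, integral_const_mul, integral_const_mul, integral_div, integral_const]
  simp only [probReal_univ, smul_eq_mul, one_mul]
  obtain ⟨s, hs', hsd⟩ : ∃ s : ℝ, √(d : ℝ) = s ∧ (d : ℝ) = s ^ 2 :=
    ⟨_, rfl, (Real.sq_sqrt hd'.le).symm⟩
  rw [hs'] at hs ⊢
  have hJ' : (0 : ℝ) < (d : ℝ) ^ J := by positivity
  generalize (d : ℝ) ^ J = D at aJ hJ' ⊢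
  rw [hsd] at a1 a2 a3 ⊢
  calc _ ≤ s ^ 3 * (M3 / (s ^ 2) ^ 3) + s * (M2 / (s ^ 2) ^ 2) + M1 / (s ^ 2) ^ 1 / s + 1 / s ^ 3 +
        k * (MJ / D) := by gcongr
    _ = (M1 + M2 + M3 + 1) * (1 / (s ^ 2 * s)) + MJ * (k / D) := by
        field_simp
        ring
    _ ≤ _ := by
        have q1 : 0 ≤ 1 / (s ^ 2 * s) := by positivity
        have q2 : 0 ≤ k / D := by positivity
        nlinarith [mul_nonneg pJ.le q1, mul_nonneg p1.le q2, mul_nonneg p2.le q2,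
          mul_nonneg p3.le q2]

lemma d4_P_nonneg {s k : ℝ} (hs : 0 < s) (hk : 0 ≤ k) (J : ℕ) (x : ℝ) : 0 ≤ d4_P s k J x := by
  unfold d4_P
  simp only [pow_mul]
  positivity

lemma d4_Q {d : ℕ} (hd : 0 < d) {k : ℝ} (hk : 0 ≤ k) (J : ℕ) {ε B : ℝ}
    (hε : ∀ w : Eu d, ‖w‖ ≤ 1 → ∫ u, d4_P (√d) k J ⟪w, u⟫ ∂sph d ≤ ε) {T : Eu d → ℝ}
    (hT : Bm T B) (hT0 : ∀ u, 0 ≤ T u) {w : Eu d → Eu d} (hw : Measurable w)
    (hw1 : ∀ u, ‖w u‖ ≤ 1) :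
    Integrable (fun q : Eu d × Eu d => T q.1 * d4_P (√d) k J ⟪w q.1, q.2⟫) ((sph d).prod (sph d)) ∧
      ∫ q : Eu d × Eu d, T q.1 * d4_P (√d) k J ⟪w q.1, q.2⟫ ∂(sph d).prod (sph d) ≤
        ε * ∫ u, T u ∂sph d := by
  have hs : 0 < √(d : ℝ) := Real.sqrt_pos.2 (by exact_mod_cast hd)
  have hTm := hT.1
  have iT : Integrable T (sph d) :=
    Integrable.of_bound hTm.aestronglyMeasurable B (Filter.Eventually.of_forall hT.2)
  have i1 : Integrable (fun q : Eu d × Eu d => T q.1 * d4_P (√d) k J ⟪w q.1, q.2⟫)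
      ((sph d).prod (sph d)) := by
    refine Integrable.of_bound (Measurable.aestronglyMeasurable (by unfold d4_P; fun_prop))
      (B * d4_P (√d) k J 1) ?_
    filter_upwards [Measure.quasiMeasurePreserving_snd.ae (sph_unit hd)] with q hq
    have h1 : ⟪w q.1, q.2⟫ ^ 2 ≤ 1 ^ 2 := by
      refine sq_le_sq' ?_ ?_ <;>
      · have := abs_le.1 ((abs_real_inner_le_norm (w q.1) q.2).trans
          (by rw [hq, mul_one]; exact hw1 _ : _ ≤ (1 : ℝ)))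
        linarith [this.1, this.2]
    rw [norm_mul, Real.norm_of_nonneg (d4_P_nonneg hs hk J _)]
    refine mul_le_mul (hT.2 _) ?_ (d4_P_nonneg hs hk J _) ((norm_nonneg _).trans (hT.2 0))
    unfold d4_P
    simp only [pow_mul]
    gcongr
  refine ⟨i1, ?_⟩
  rw [integral_prod _ i1, ← integral_const_mul]
  refine integral_mono i1.integral_prod_left (iT.const_mul _) fun u => ?_
  simp only [integral_const_mul]
  rw [mul_comm ε]
  exact mul_le_mul_of_nonneg_left (hε _ (hw1 u)) (hT0 u)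

lemma d4_am {l : ℝ} (hl : 0 < l) (x y : ℝ) : x * y ≤ (l * x ^ 2 + y ^ 2 / l) / 2 := by
  have : (l * x ^ 2 + y ^ 2 / l) / 2 - x * y = (l * x - y) ^ 2 / (2 * l) := by
    field_simp
    ring
  have h6 : 0 ≤ (l * x - y) ^ 2 / (2 * l) := by positivity
  linarith

lemma d4_near {s k : ℝ} (hs : 0 < s) (hk : 0 ≤ k) (J : ℕ) (S S' t a e : ℝ) :
    S * (|t| ^ 3 * S' + t ^ 2 * (|a| * S' + S' * |e|) + |t| * (|a| * (S' * |e|))) ≤
      S ^ 2 * d4_P s k J t + S' ^ 2 * (d4_P s k J a + d4_P s k J e) := by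
  have h1 := d4_am (pow_pos hs 3) (|t| ^ 3 * S) S'
  have h2 := d4_am hs (t ^ 2 * S) (|a| * S')
  have h3 := d4_am hs (t ^ 2 * S) (|e| * S')
  have h4 := d4_am hs (|a| * |e| * S') (|t| * S)
  have e6 : (|t| ^ 3) ^ 2 = (t ^ 2) ^ 3 := by rw [← sq_abs t]; ring
  simp only [mul_pow, e6, sq_abs] at h1 h2 h3 h4
  unfold d4_P
  simp only [pow_mul, pow_one]
  have h5 : s * (a ^ 2 * e ^ 2 * S' ^ 2) ≤ S' ^ 2 * (s * (a ^ 2) ^ 2 + s * (e ^ 2) ^ 2) := by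
    have := mul_nonneg (mul_nonneg hs.le (sq_nonneg S')) (sq_nonneg (a ^ 2 - e ^ 2))
    have := mul_nonneg (mul_nonneg hs.le (sq_nonneg S')) (sq_nonneg (a * e))
    nlinarith
  have n1 : 0 ≤ S ^ 2 * (s ^ 3 * (t ^ 2) ^ 3) := by positivity
  have n2 : 0 ≤ S ^ 2 * (t ^ 2 / s) := by positivity
  have n3 : 0 ≤ S ^ 2 * (1 / s ^ 3 + k * (t ^ 2) ^ J) := by positivity
  have n4 : 0 ≤ S' ^ 2 * (s ^ 3 * (a ^ 2) ^ 3 + k * (a ^ 2) ^ J + s ^ 3 * (e ^ 2) ^ 3 +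
    k * (e ^ 2) ^ J) := by positivity
  have n5 : 0 ≤ S' ^ 2 * (s * (a ^ 2) ^ 2 + s * (e ^ 2) ^ 2) := by positivity
  have n6 : 0 ≤ S' ^ 2 * (a ^ 2 / s + e ^ 2 / s) := by positivity
  have n7 : 0 ≤ S' ^ 2 * (1 / s ^ 3) := by positivity
  simp only [div_eq_mul_inv] at *
  nlinarith

lemma d4_far {s k t : ℝ} (hs : 0 < s) (hk : 0 ≤ k) (J : ℕ) (ht : 1 / 4 ≤ |t|) :
    k ≤ 16 ^ J * d4_P s k J t := by
  have h1 : (1 : ℝ) ≤ (16 * t ^ 2) ^ J :=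
    one_le_pow₀ (by rw [← sq_abs]; nlinarith)
  have h2 : k * (t ^ 2) ^ J ≤ d4_P s k J t := by
    unfold d4_P
    simp only [pow_mul]
    exact le_add_of_nonneg_left (by positivity)
  calc k ≤ k * (16 * t ^ 2) ^ J := le_mul_of_one_le_right hk h1
    _ = 16 ^ J * (k * (t ^ 2) ^ J) := by rw [mul_pow]; ring
    _ ≤ _ := by gcongr

lemma d4_four {X : Type*} [MeasurableSpace X] {ν : Measure X} {f1 f2 f3 f4 : X → ℝ} {e : ℝ}
    (i1 : Integrable f1 ν) (i2 : Integrable f2 ν) (i3 : Integrable f3 ν) (i4 : Integrable f4 ν)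
    (j1 : ∫ q, f1 q ∂ν ≤ e) (j2 : ∫ q, f2 q ∂ν ≤ e) (j3 : ∫ q, f3 q ∂ν ≤ e)
    (j4 : ∫ q, f4 q ∂ν ≤ e) : ∫ q, f1 q + f2 q + (f3 q + f4 q) ∂ν ≤ 4 * e := by
  rw [integral_add (f := fun q => f1 q + f2 q) (g := fun q => f3 q + f4 q) (i1.add i2) (i3.add i4),
    integral_add i1 i2, integral_add i3 i4]
  linarith

lemma d4_meas {d : ℕ} {β : ℝ → ℝ} {σ c0 c1 c2 : Eu d → ℝ} {b : ℝ} {p : Eu d → Eu d} {σ0 : ℝ}
    (H : Fam β σ c0 c1 c2 b p σ0) {μ : Eu d → ℝ} {m : Eu d → Eu d} (hμ : Measurable μ)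
    (hm : Measurable m) :
    Measurable fun q : Eu d × Eu d => Ar β (σ q.1) (c0 q.1) (c1 q.1) (c2 q.1) ⟪q.2, q.1⟫ *
      ((b + ⟪q.2, p q.1⟫) * (μ q.1 + ⟪q.2, m q.1⟫)) := by
  have h1 := (H.prof 0).meas
  have h2 := H.ms
  have h3 := H.m0
  have h4 := H.m1
  have h5 := H.m2
  have h6 := H.mp
  unfold Ar rs
  fun_prop

/-- `W g = ∫ Ar(⟪g,u⟫) feature(u,g) ∂sph`; Fubini, Cauchy-Schwarz in `g`, `∫ W² = ∫∫ kernel`.
Near pairs: `X Y ≤ (λ X² + Y²/λ)/2` with `X = |t|^(3-j) S(u)`, `Y = δ^j S(u')`, `λ = d^(3/2-j)`,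
`mom_sph`. Far pairs: `1 ≤ (4t)^(2J)` and `kernel_sq`. -/
theorem tt (J : ℕ) : ∃ C : ℝ, 0 < C ∧ ∀ d : ℕ, 0 < d → ∀ (β : ℝ → ℝ) (σ c0 c1 c2 : Eu d → ℝ) (b : ℝ)
    (p : Eu d → Eu d) (σ0 : ℝ), Fam β σ c0 c1 c2 b p σ0 → ∀ (F : Eu d → ℝ) (B : ℝ), Bm F B →
    ∀ (μ : Eu d → ℝ) (m : Eu d → Eu d) (B' : ℝ), Bm μ B' → Bm m B' →
    (∀ u, ‖u‖ = 1 → ⟪m u, u⟫ = 0) →
      (∫ u, ∫ g, F g * (Ar β (σ u) (c0 u) (c1 u) (c2 u) ⟪g, u⟫ *
          ((b + ⟪g, p u⟫) * (μ u + ⟪g, m u⟫))) ∂stdGaussian (Eu d) ∂sph d) ^ 2 ≤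
        C * (1 / (d * √(d : ℝ)) + 1 / (σ0 ^ 2 * d ^ J)) * (∫ g, F g ^ 2 ∂stdGaussian (Eu d)) *
          ∫ u, (μ u ^ 2 + ‖m u‖ ^ 2) ∂sph d := by
  obtain ⟨C1, p1, near⟩ := kernel_near
  obtain ⟨C2, p2, ksq⟩ := kernel_sq
  obtain ⟨M, pM, mom⟩ := d4_mom J
  refine ⟨8 * (C1 + C2 * 16 ^ J) * M, by positivity, ?_⟩
  intro d hd β σ c0 c1 c2 b p σ0 H F B hF μ m B' hμ hm hmu
  have hs : 0 < √(d : ℝ) := Real.sqrt_pos.2 (by exact_mod_cast hd)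
  have hσ0 := H.s0
  have hB' : 0 ≤ B' := (norm_nonneg _).trans (hμ.2 0)
  have hμm := hμ.1
  have hmm := hm.1
  have hk : 0 ≤ (σ0⁻¹) ^ 2 := by positivity
  have hinv : ∀ u, (σ u)⁻¹ ≤ σ0⁻¹ := fun u => inv_anti₀ hσ0 (H.low u)
  set Φ : Eu d → Eu d → ℝ := fun u g => Ar β (σ u) (c0 u) (c1 u) (c2 u) ⟪g, u⟫ *
    ((b + ⟪g, p u⟫) * (μ u + ⟪g, m u⟫)) with hΦ
  have mΦ : Measurable fun q : Eu d × Eu d => Φ q.1 q.2 := d4_meas H hμm hmm
  have ip : ∀ n : ℕ, Integrable (fun g : Eu d => (1 + ‖g‖) ^ n) (stdGaussian (Eu d)) := fun n => by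
    simp only [add_comm (1 : ℝ), add_pow]
    exact integrable_finsetSum _ fun i _ => ((integrable_norm_pow i).mul_const _).mul_const _
  have iG2 : Integrable (fun g : Eu d => (C2 * σ0⁻¹ * B' * (1 + ‖g‖) ^ 4) ^ 2)
      (stdGaussian (Eu d)) := by
    simp only [mul_pow, ← pow_mul]
    exact (ip _).const_mul _
  have bΦ : ∀ u, ‖u‖ = 1 → ∀ g, |Φ u g| ≤ C2 * σ0⁻¹ * B' * (1 + ‖g‖) ^ 4 := fun u hu g => by
    have h1 := (ksq d β _ _ _ _ (H.prof u) u (p u) (m u) b (μ u) hu (H.bp u) H.bb).1 ⟪g, u⟫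
    have h2 : |⟪g, u⟫| ≤ ‖g‖ := by simpa [hu] using abs_real_inner_le_norm g u
    have h3 : |b + ⟪g, p u⟫| ≤ 1 + ‖g‖ := (abs_add_le _ _).trans (add_le_add H.bb
      ((abs_real_inner_le_norm _ _).trans (mul_le_of_le_one_right (norm_nonneg _) (H.bp u))))
    have h4 : |μ u + ⟪g, m u⟫| ≤ B' * (1 + ‖g‖) := by
      have := (abs_add_le _ _).trans (add_le_add (hμ.2 u) ((abs_real_inner_le_norm g (m u)).trans
        (mul_le_mul_of_nonneg_left (hm.2 u) (norm_nonneg _))))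
      linarith
    have h5 : 1 + ⟪g, u⟫ ^ 2 ≤ (1 + ‖g‖) ^ 2 := by
      have := pow_le_pow_left₀ (abs_nonneg _) h2 2
      rw [sq_abs] at this
      nlinarith [norm_nonneg g]
    have h6 := (H.prof u).pos
    have h7 : |Ar β (σ u) (c0 u) (c1 u) (c2 u) ⟪g, u⟫| ≤ C2 * σ0⁻¹ * (1 + ‖g‖) ^ 2 :=
      h1.trans (by have := hinv u; gcongr)
    simp only [hΦ, abs_mul]
    calc _ ≤ C2 * σ0⁻¹ * (1 + ‖g‖) ^ 2 * ((1 + ‖g‖) * (B' * (1 + ‖g‖))) := by gcongr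
      _ = _ := by ring
  obtain ⟨iK, hK⟩ := d4_abs (sph d) (stdGaussian (Eu d)) mΦ ((ip 4).const_mul _) iG2
    ((sph_unit hd).mono bΦ) hF
  have hT : Bm (fun u => μ u ^ 2 + ‖m u‖ ^ 2) (B' ^ 2 + B' ^ 2) := ⟨by fun_prop, fun u => by
    change ‖μ u ^ 2 + ‖m u‖ ^ 2‖ ≤ _
    rw [Real.norm_of_nonneg (by positivity), ← sq_abs (μ u)]
    have h1 : |μ u| ≤ B' := hμ.2 u
    have h2 := hm.2 u
    gcongr⟩
  have hT0 : ∀ u, 0 ≤ μ u ^ 2 + ‖m u‖ ^ 2 := fun u => by positivity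
  have mz := measurable_nz (r := d)
  obtain ⟨i1, j1⟩ := d4_Q hd hk J (mom d hd _ hk) hT hT0 mz asrad_norm_nz
  obtain ⟨i2, j2⟩ := d4_Q hd hk J (mom d hd _ hk) hT hT0 H.mp H.bp
  obtain ⟨i3, j3⟩ := d4_Q hd hk J (mom d hd _ hk) hT hT0 (mz.comp hmm) fun u => asrad_norm_nz _
  have j1' := j1
  rw [← integral_prod_swap] at j1' j2 j3
  have i12 := i1.add i1.swap
  have i23 := i2.swap.add i3.swap
  have key : ∫ q : Eu d × Eu d, ∫ g, Φ q.1 g * Φ q.2 g ∂stdGaussian (Eu d) ∂(sph d).prod (sph d) ≤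
      ∫ q : Eu d × Eu d, 2 * (C1 + C2 * 16 ^ J) *
        (((μ q.1 ^ 2 + ‖m q.1‖ ^ 2) * d4_P (√d) ((σ0⁻¹) ^ 2) J ⟪nz q.1, q.2⟫ +
          (μ q.2 ^ 2 + ‖m q.2‖ ^ 2) * d4_P (√d) ((σ0⁻¹) ^ 2) J ⟪nz q.2, q.1⟫) +
        ((μ q.2 ^ 2 + ‖m q.2‖ ^ 2) * d4_P (√d) ((σ0⁻¹) ^ 2) J ⟪p q.2, q.1⟫ +
          (μ q.2 ^ 2 + ‖m q.2‖ ^ 2) * d4_P (√d) ((σ0⁻¹) ^ 2) J ⟪nz (m q.2), q.1⟫))
        ∂(sph d).prod (sph d) := by
    refine integral_mono_ae iK ((i12.add i23).const_mul _) ?_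
    filter_upwards [Measure.quasiMeasurePreserving_fst.ae (sph_unit hd),
      Measure.quasiMeasurePreserving_snd.ae (sph_unit hd)] with ⟨u, u'⟩ hu hu'
    simp only at hu hu' ⊢
    have z1 : nz u = u := by simp [nz, hu]
    have z2 : nz u' = u' := by simp [nz, hu']
    rw [z1, z2, real_inner_comm u u']
    have s1 : (|μ u| + ‖m u‖) ^ 2 ≤ 2 * (μ u ^ 2 + ‖m u‖ ^ 2) := by
      nlinarith [sq_abs (μ u), sq_nonneg (|μ u| - ‖m u‖)]
    have s2 : (|μ u'| + ‖m u'‖) ^ 2 ≤ 2 * (μ u' ^ 2 + ‖m u'‖ ^ 2) := by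
      nlinarith [sq_abs (μ u'), sq_nonneg (|μ u'| - ‖m u'‖)]
    have P1 := d4_P_nonneg hs hk J ⟪u, u'⟫
    have P2 := d4_P_nonneg hs hk J ⟪p u', u⟫
    have P3 := d4_P_nonneg hs hk J ⟪nz (m u'), u⟫
    have T1 := hT0 u
    have T2 := hT0 u'
    have c16 : 0 ≤ C2 * 16 ^ J := by positivity
    rcases le_total |⟪u, u'⟫| (1 / 4) with ht | ht
    · have h1 := near d β β _ _ _ _ _ _ _ _ (H.prof u) (H.prof u') u u' (p u) (p u') (m u) (m u') b b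
        (μ u) (μ u') hu hu' (H.perp u hu) (hmu u hu) (H.perp u' hu') (hmu u' hu') (H.bp u) (H.bp u')
        H.bb H.bb ht
      have h2 : |⟪m u', u⟫| ≤ (|μ u'| + ‖m u'‖) * |⟪nz (m u'), u⟫| := by
        conv_lhs => rw [← asrad_smul_nz (m u'), real_inner_smul_left, abs_mul, abs_norm]
        gcongr
        exact le_add_of_nonneg_left (abs_nonneg _)
      have h3 := d4_near hs hk J (|μ u| + ‖m u‖) (|μ u'| + ‖m u'‖) ⟪u, u'⟫ ⟪p u', u⟫ ⟪nz (m u'), u⟫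
      refine ((le_abs_self _).trans h1).trans ?_
      generalize d4_P (√d) ((σ0⁻¹) ^ 2) J ⟪u, u'⟫ = P at *
      generalize d4_P (√d) ((σ0⁻¹) ^ 2) J ⟪p u', u⟫ = P' at *
      generalize d4_P (√d) ((σ0⁻¹) ^ 2) J ⟪nz (m u'), u⟫ = P'' at *
      calc _ ≤ C1 * ((|μ u| + ‖m u‖) * (|⟪u, u'⟫| ^ 3 * (|μ u'| + ‖m u'‖) + ⟪u, u'⟫ ^ 2 *
            (|⟪p u', u⟫| * (|μ u'| + ‖m u'‖) + (|μ u'| + ‖m u'‖) * |⟪nz (m u'), u⟫|) + |⟪u, u'⟫| *
            (|⟪p u', u⟫| * ((|μ u'| + ‖m u'‖) * |⟪nz (m u'), u⟫|)))) := by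
            rw [mul_assoc]
            gcongr
        _ ≤ C1 * (2 * (μ u ^ 2 + ‖m u‖ ^ 2) * P + 2 * (μ u' ^ 2 + ‖m u'‖ ^ 2) * (P' + P'')) :=
            mul_le_mul_of_nonneg_left (h3.trans (by gcongr)) p1.le
        _ ≤ _ := by
            generalize μ u ^ 2 + ‖m u‖ ^ 2 = T at *
            generalize μ u' ^ 2 + ‖m u'‖ ^ 2 = T' at *
            have := mul_nonneg p1.le (mul_nonneg T2 P1)
            have := mul_nonneg c16 (show 0 ≤ T * P + T' * P + (T' * P' + T' * P'') by positivity)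
            nlinarith
    · have iq : ∀ v, ‖v‖ = 1 → Integrable (fun g => Φ v g ^ 2) (stdGaussian (Eu d)) := fun v hv => by
        refine Integrable.mono' iG2
          ((mΦ.comp (measurable_const.prodMk measurable_id)).pow_const 2).aestronglyMeasurable
          (Filter.Eventually.of_forall fun g => ?_)
        rw [norm_pow]
        exact pow_le_pow_left₀ (norm_nonneg _) (bΦ v hv g) 2
      have bq : ∀ v, ‖v‖ = 1 → ∫ g, Φ v g ^ 2 ∂stdGaussian (Eu d) ≤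
          C2 * (16 ^ J * d4_P (√d) ((σ0⁻¹) ^ 2) J ⟪u, u'⟫) * (2 * (μ v ^ 2 + ‖m v‖ ^ 2)) :=
        fun v hv => by
          refine (ksq d β _ _ _ _ (H.prof v) v (p v) (m v) b (μ v) hv (H.bp v) H.bb).2.trans ?_
          have h6 := (H.prof v).pos
          have h7 : ((σ v)⁻¹) ^ 2 ≤ 16 ^ J * d4_P (√d) ((σ0⁻¹) ^ 2) J ⟪u, u'⟫ :=
            (pow_le_pow_left₀ (by positivity) (hinv v) 2).trans (d4_far hs hk J ht)
          have s3 : (|μ v| + ‖m v‖) ^ 2 ≤ 2 * (μ v ^ 2 + ‖m v‖ ^ 2) := by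
            nlinarith [sq_abs (μ v), sq_nonneg (|μ v| - ‖m v‖)]
          gcongr
      have h1 : ∫ g, Φ u g * Φ u' g ∂stdGaussian (Eu d) ≤
          ∫ g, (Φ u g ^ 2 + Φ u' g ^ 2) / 2 ∂stdGaussian (Eu d) := by
        refine (le_abs_self _).trans ?_
        rw [← Real.norm_eq_abs]
        refine norm_integral_le_of_norm_le (((iq u hu).add (iq u' hu')).div_const _)
          (Filter.Eventually.of_forall fun g => ?_)
        rw [Real.norm_eq_abs, abs_mul, ← sq_abs (Φ u g), ← sq_abs (Φ u' g)]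
        nlinarith [sq_nonneg (|Φ u g| - |Φ u' g|)]
      rw [integral_div, integral_add (iq u hu) (iq u' hu')] at h1
      have h2 := bq u hu
      have h3 := bq u' hu'
      generalize d4_P (√d) ((σ0⁻¹) ^ 2) J ⟪u, u'⟫ = P at *
      generalize d4_P (√d) ((σ0⁻¹) ^ 2) J ⟪p u', u⟫ = P' at *
      generalize d4_P (√d) ((σ0⁻¹) ^ 2) J ⟪nz (m u'), u⟫ = P'' at *
      generalize μ u ^ 2 + ‖m u‖ ^ 2 = T at *
      generalize μ u' ^ 2 + ‖m u'‖ ^ 2 = T' at *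
      have := mul_nonneg p1.le (show 0 ≤ T * P + T' * P + (T' * P' + T' * P'') by positivity)
      have := mul_nonneg c16 (show 0 ≤ T * P + T' * P + 2 * (T' * P' + T' * P'') by positivity)
      nlinarith
  rw [integral_const_mul] at key
  have e : (σ0⁻¹) ^ 2 / (d : ℝ) ^ J = 1 / (σ0 ^ 2 * d ^ J) := by
    field_simp
  have j4 := d4_four i1 i1.swap i2.swap i3.swap j1 j1' j2 j3
  rw [e] at j4
  have nF : 0 ≤ ∫ g, F g ^ 2 ∂stdGaussian (Eu d) := integral_nonneg fun g => sq_nonneg _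
  refine hK.trans ((mul_le_mul_of_nonneg_left (key.trans (mul_le_mul_of_nonneg_left
    j4 (by positivity))) nF).trans_eq ?_)
  ring

end Pool.Agent.Lib.MP_77d991_gt.Ex
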