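import Pool.Agent.Lib.MP_77d991_gt.Ex.D4

open MeasureTheory ProbabilityTheory Set
open scoped RealInnerProductSpace

namespace Pool.Agent.Lib.MP_77d991_gt.Ex

open Pool.Agent.Lib.MP_77d991_gt.As

lemma d5_div {I K : ℝ} (hK : 0 ≤ K) (h : I ^ 2 ≤ K * I) : I ≤ K := by
  by_contra hc
  rw [not_le] at hc
  nlinarith

/-- Apply `tt` with `m` the vector itself (cut to zero off the unit sphere) and `μ = 0`, and with `μ` the
scalar itself and `m = 0`. -/
theorem tt2 (J : ℕ) : ∃ C : ℝ, 0 < C ∧ ∀ d : ℕ, 0 < d → ∀ (β : ℝ → ℝ) (σ c0 c1 c2 : Eu d → ℝ) (b : ℝ)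
    (p : Eu d → Eu d) (σ0 : ℝ), Fam β σ c0 c1 c2 b p σ0 → ∀ (F : Eu d → ℝ) (B : ℝ), Bm F B →
      ∫ u, ‖∫ g, (F g * (Ar β (σ u) (c0 u) (c1 u) (c2 u) ⟪g, u⟫ * (b + ⟪g, p u⟫))) • pj u g
          ∂stdGaussian (Eu d)‖ ^ 2 ∂sph d ≤
        C * (1 / (d * √(d : ℝ)) + 1 / (σ0 ^ 2 * d ^ J)) * ∫ g, F g ^ 2 ∂stdGaussian (Eu d) ∧
      ∫ u, (∫ g, F g * (Ar β (σ u) (c0 u) (c1 u) (c2 u) ⟪g, u⟫ * (b + ⟪g, p u⟫))
          ∂stdGaussian (Eu d)) ^ 2 ∂sph d ≤
        C * (1 / (d * √(d : ℝ)) + 1 / (σ0 ^ 2 * d ^ J)) * ∫ g, F g ^ 2 ∂stdGaussian (Eu d) := by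
  obtain ⟨C, pC, htt⟩ := tt J
  obtain ⟨C2, p2, ksq⟩ := kernel_sq
  refine ⟨C, pC, ?_⟩
  intro d hd β σ c0 c1 c2 b p σ0 H F B hF
  have hσ0 := H.s0
  have hB : 0 ≤ B := (norm_nonneg _).trans (hF.2 0)
  have hFm := hF.1
  set ψ : Eu d → Eu d → ℝ := fun u g => F g * (Ar β (σ u) (c0 u) (c1 u) (c2 u) ⟪g, u⟫ *
    (b + ⟪g, p u⟫)) with hψ
  have mψ : Measurable fun q : Eu d × Eu d => ψ q.1 q.2 := by
    have := d4_meas H (μ := fun _ => 1) (m := fun _ => 0) measurable_const measurable_const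
    simp only [inner_zero_right, add_zero, mul_one] at this
    exact (hFm.comp measurable_snd).mul this
  have mV : Measurable fun q : Eu d × Eu d => ψ q.1 q.2 • pj q.1 q.2 :=
    mψ.smul (by unfold pj; fun_prop)
  have ip : ∀ n : ℕ, Integrable (fun g : Eu d => (1 + ‖g‖) ^ n) (stdGaussian (Eu d)) := fun n => by
    simp only [add_comm (1 : ℝ), add_pow]
    exact integrable_finsetSum _ fun i _ => ((integrable_norm_pow i).mul_const _).mul_const _
  have bψ : ∀ u, ‖u‖ = 1 → ∀ g, ‖ψ u g‖ ≤ B * C2 * σ0⁻¹ * (1 + ‖g‖) ^ 3 := fun u hu g => by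
    have h1 := (ksq d β _ _ _ _ (H.prof u) u (p u) 0 b 0 hu (H.bp u) H.bb).1 ⟪g, u⟫
    have h2 : |⟪g, u⟫| ≤ ‖g‖ := by simpa [hu] using abs_real_inner_le_norm g u
    have h3 : |b + ⟪g, p u⟫| ≤ 1 + ‖g‖ := (abs_add_le _ _).trans (add_le_add H.bb
      ((abs_real_inner_le_norm _ _).trans (mul_le_of_le_one_right (norm_nonneg _) (H.bp u))))
    have h5 : 1 + ⟪g, u⟫ ^ 2 ≤ (1 + ‖g‖) ^ 2 := by
      have := pow_le_pow_left₀ (abs_nonneg _) h2 2
      rw [sq_abs] at this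
      nlinarith [norm_nonneg g]
    have h6 := (H.prof u).pos
    have h7 : |Ar β (σ u) (c0 u) (c1 u) (c2 u) ⟪g, u⟫| ≤ C2 * σ0⁻¹ * (1 + ‖g‖) ^ 2 :=
      h1.trans (by have := inv_anti₀ hσ0 (H.low u); gcongr)
    have h8 : |F g| ≤ B := hF.2 g
    simp only [hψ, Real.norm_eq_abs, abs_mul]
    calc _ ≤ B * (C2 * σ0⁻¹ * (1 + ‖g‖) ^ 2 * (1 + ‖g‖)) := by gcongr
      _ = _ := by ring
  have bV : ∀ u, ‖u‖ = 1 → ∀ g, ‖ψ u g • pj u g‖ ≤ 2 * B * C2 * σ0⁻¹ * (1 + ‖g‖) ^ 4 :=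
    fun u hu g => by
      have h2 : |⟪g, u⟫| ≤ ‖g‖ := by simpa [hu] using abs_real_inner_le_norm g u
      have h3 : ‖pj u g‖ ≤ 2 * (1 + ‖g‖) := by
        refine (norm_sub_le _ _).trans ?_
        rw [norm_smul, hu, Real.norm_eq_abs]
        linarith
      have h4 := bψ u hu g
      rw [norm_smul]
      calc _ ≤ B * C2 * σ0⁻¹ * (1 + ‖g‖) ^ 3 * (2 * (1 + ‖g‖)) := by gcongr
        _ = _ := by ring
  have iV : ∀ u, ‖u‖ = 1 → Integrable (fun g => ψ u g • pj u g) (stdGaussian (Eu d)) := fun u hu =>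
    Integrable.mono' ((ip 4).const_mul _)
      (mV.comp (measurable_const.prodMk measurable_id)).aestronglyMeasurable
      (Filter.Eventually.of_forall (bV u hu))
  have hS : MeasurableSet {u : Eu d | ‖u‖ = 1} := measurableSet_eq_fun measurable_norm measurable_const
  have nF : 0 ≤ ∫ g, F g ^ 2 ∂stdGaussian (Eu d) := integral_nonneg fun g => sq_nonneg _
  have nK : 0 ≤ C * (1 / (d * √(d : ℝ)) + 1 / (σ0 ^ 2 * d ^ J)) *
      ∫ g, F g ^ 2 ∂stdGaussian (Eu d) := by positivity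
  constructor
  · set V : Eu d → Eu d := fun u => ∫ g, ψ u g • pj u g ∂stdGaussian (Eu d) with hV
    have m1 : Measurable V := mV.stronglyMeasurable.integral_prod_right'.measurable
    have perp : ∀ u, ‖u‖ = 1 → ⟪u, V u⟫ = 0 := fun u hu => by
      rw [hV, ← integral_inner (iV u hu)]
      simp [pj, inner_smul_right, inner_sub_right, real_inner_comm, hu]
    have hm : Bm ({u : Eu d | ‖u‖ = 1}.indicator V)
        (∫ g, 2 * B * C2 * σ0⁻¹ * (1 + ‖g‖) ^ 4 ∂stdGaussian (Eu d)) := ⟨m1.indicator hS, fun u => by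
      by_cases hu : ‖u‖ = 1
      · rw [indicator_of_mem (show u ∈ {u : Eu d | ‖u‖ = 1} from hu)]
        exact norm_integral_le_of_norm_le ((ip 4).const_mul _)
          (Filter.Eventually.of_forall (bV u hu))
      · rw [indicator_of_notMem (show u ∉ {u : Eu d | ‖u‖ = 1} from hu), norm_zero]
        exact integral_nonneg fun g => by positivity⟩
    have h := htt d hd β σ c0 c1 c2 b p σ0 H F B hF (fun _ => 0) _ _
      ⟨measurable_const, fun _ => by rw [norm_zero]; exact (norm_nonneg _).trans (hm.2 0)⟩ hm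
      fun u hu => by
        rw [indicator_of_mem (show u ∈ {u : Eu d | ‖u‖ = 1} from hu), real_inner_comm, perp u hu]
    rw [integral_congr_ae (g := fun u => ‖V u‖ ^ 2) ((sph_unit hd).mono fun u hu => ?_),
      integral_congr_ae (f := fun u => (0 : ℝ) ^ 2 + ‖{u : Eu d | ‖u‖ = 1}.indicator V u‖ ^ 2)
        (g := fun u => ‖V u‖ ^ 2) ((sph_unit hd).mono fun u hu => ?_)] at h
    · exact d5_div nK h
    · simp [indicator_of_mem (show u ∈ {u : Eu d | ‖u‖ = 1} from hu)]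
    · simp only [indicator_of_mem (show u ∈ {u : Eu d | ‖u‖ = 1} from hu)]
      rw [← real_inner_self_eq_norm_sq]
      conv_rhs => rw [hV]
      simp only
      rw [← integral_inner (iV u hu)]
      refine integral_congr_ae (Filter.Eventually.of_forall fun g => ?_)
      have h0 : ⟪V u, u⟫ = 0 := by rw [real_inner_comm, perp u hu]
      change _ = ⟪V u, ψ u g • pj u g⟫
      simp only [pj, inner_smul_right, inner_sub_right, h0, hψ, real_inner_comm (V u) g]
      ring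
  · set v : Eu d → ℝ := fun u => ∫ g, ψ u g ∂stdGaussian (Eu d) with hv
    have m1 : Measurable v := mψ.stronglyMeasurable.integral_prod_right'.measurable
    have hm : Bm ({u : Eu d | ‖u‖ = 1}.indicator v)
        (∫ g, B * C2 * σ0⁻¹ * (1 + ‖g‖) ^ 3 ∂stdGaussian (Eu d)) := ⟨m1.indicator hS, fun u => by
      by_cases hu : ‖u‖ = 1
      · rw [indicator_of_mem (show u ∈ {u : Eu d | ‖u‖ = 1} from hu)]
        exact norm_integral_le_of_norm_le ((ip 3).const_mul _)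
          (Filter.Eventually.of_forall (bψ u hu))
      · rw [indicator_of_notMem (show u ∉ {u : Eu d | ‖u‖ = 1} from hu), norm_zero]
        exact integral_nonneg fun g => by positivity⟩
    have h := htt d hd β σ c0 c1 c2 b p σ0 H F B hF _ (fun _ => 0) _ hm
      ⟨measurable_const, fun _ => by rw [norm_zero]; exact (norm_nonneg _).trans (hm.2 0)⟩
      fun u _ => inner_zero_left _
    rw [integral_congr_ae (g := fun u => v u ^ 2) ((sph_unit hd).mono fun u hu => ?_),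
      integral_congr_ae (f := fun u => {u : Eu d | ‖u‖ = 1}.indicator v u ^ 2 + ‖(0 : Eu d)‖ ^ 2)
        (g := fun u => v u ^ 2) ((sph_unit hd).mono fun u hu => ?_)] at h
    · exact d5_div nK h
    · simp [indicator_of_mem (show u ∈ {u : Eu d | ‖u‖ = 1} from hu)]
    · simp only [indicator_of_mem (show u ∈ {u : Eu d | ‖u‖ = 1} from hu)]
      rw [sq]
      conv_rhs => rw [hv]
      simp only
      rw [← integral_const_mul]
      refine integral_congr_ae (Filter.Eventually.of_forall fun g => ?_)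
      change _ = v u * ψ u g
      simp only [hψ, inner_zero_right]
      ring

end Pool.Agent.Lib.MP_77d991_gt.Ex
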