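import Pool.Agent.Lib.MP_77d991_gt.Ex.A4

open MeasureTheory ProbabilityTheory Set
open scoped RealInnerProductSpace

namespace Pool.Agent.Lib.MP_77d991_gt.Ex

open Pool.Agent.Lib.MP_77d991_gt.As

section
variable {X Y : Type*} [MeasurableSpace X] [MeasurableSpace Y] {μ : Measure X} {ν : Measure Y}
  {f g : X → ℝ}

/-- all moments are finite. -/
def d6_M (μ : Measure X) (f : X → ℝ) : Prop := ∀ p : ENNReal, p ≠ ⊤ → MemLp f p μ

theorem d6_M.mul (hf : d6_M μ f) (hg : d6_M μ g) : d6_M μ fun z => f z * g z := fun p hp => by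
  have : ENNReal.HolderTriple (2 * p) (2 * p) p := ⟨by
    rw [ENNReal.mul_inv (by simp) (by simp), ← add_mul, ENNReal.inv_two_add_inv_two, one_mul]⟩
  have h2 : 2 * p ≠ ⊤ := ENNReal.mul_ne_top (by simp) hp
  exact MemLp.mul' (hg _ h2) (hf _ h2)

theorem d6_M.int (hf : d6_M μ f) : Integrable f μ := memLp_one_iff_integrable.1 (hf 1 (by simp))

theorem d6_M.cmul (hf : d6_M μ f) (c : ℝ) : d6_M μ fun z => c * f z :=
  fun p hp => (hf p hp).const_mul c

theorem d6_M.add (hf : d6_M μ f) (hg : d6_M μ g) : d6_M μ fun z => f z + g z :=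
  fun p hp => (hf p hp).add (hg p hp)

theorem d6_M.sum {ι : Type*} [Fintype ι] {φ : ι → X → ℝ} (h : ∀ i, d6_M μ (φ i)) :
    d6_M μ fun z => ∑ i, φ i z := fun p hp => memLp_finsetSum _ fun i _ => h i p hp

theorem d6_bm [IsFiniteMeasure μ] {B : ℝ} (h : Bm f B) : d6_M μ f :=
  fun _ _ => MemLp.of_bound h.1.aestronglyMeasurable B (Filter.Eventually.of_forall h.2)

theorem d6_bessel {ι : Type*} [Fintype ι] [DecidableEq ι] {φ : ι → X → ℝ}
    (h : ∀ i, d6_M μ (φ i)) (hf : d6_M μ f)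
    (ho : ∀ i j, ∫ z, φ i z * φ j z ∂μ = if i = j then 1 else 0) :
    ∑ i, (∫ z, f z * φ i z ∂μ) ^ 2 ≤ ∫ z, f z ^ 2 ∂μ := by
  obtain ⟨c, hc⟩ : ∃ c : ι → ℝ, ∀ i, ∫ z, f z * φ i z ∂μ = c i := ⟨_, fun _ => rfl⟩
  have hψ : d6_M μ fun z => ∑ i, c i * φ i z := d6_M.sum fun i => (h i).cmul _
  have lin : ∀ {g : X → ℝ}, d6_M μ g →
      ∫ z, g z * ∑ i, c i * φ i z ∂μ = ∑ i, c i * ∫ z, g z * φ i z ∂μ := fun {g} hg => by
    simp only [Finset.mul_sum, mul_left_comm (g _)]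
    rw [integral_finsetSum _ fun i _ => ((hg.mul (h i)).cmul _).int]
    simp only [integral_const_mul]
  have h1 := lin hf
  have h2 := lin hψ
  have h3 : ∀ i, ∫ z, (∑ j, c j * φ j z) * φ i z ∂μ = c i := fun i => by
    rw [integral_congr_ae (Filter.Eventually.of_forall fun z => mul_comm _ (φ i z)), lin (h i)]
    simp [ho]
  simp only [hc, h3] at h1 h2 ⊢
  have h4 : 0 ≤ ∫ z, (f z * f z + (-2) * (f z * ∑ i, c i * φ i z)) +
      (∑ i, c i * φ i z) * ∑ i, c i * φ i z ∂μ :=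
    integral_nonneg fun z => by
      have := sq_nonneg (f z - ∑ i, c i * φ i z)
      simp only [Pi.zero_apply]
      linarith
  rw [integral_add ((hf.mul hf).add ((hf.mul hψ).cmul _)).int (hψ.mul hψ).int,
    integral_add (hf.mul hf).int ((hf.mul hψ).cmul _).int, integral_const_mul, h1, h2] at h4
  simp only [sq]
  linarith

theorem d6_key [IsProbabilityMeasure μ] [IsProbabilityMeasure ν] {u v w : X → ℝ}
    {a b c : Y → ℝ} (hf : d6_M μ f) (hu : d6_M μ u) (hv : d6_M μ v) (hw : d6_M μ w)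
    (ha : d6_M ν a) (hb : d6_M ν b) (hc : d6_M ν c) (u0 : ∫ x, f x * u x ∂μ = 0)
    (v0 : ∫ x, f x * v x ∂μ = 0) (w0 : ∫ x, f x * w x ∂μ = 0) (a0 : ∫ y, a y ∂ν = 0)
    (b0 : ∫ y, b y ∂ν = 0) (c0 : ∫ y, c y ∂ν = 0) (e0 : ∫ y, a y * b y * c y ∂ν = 0) :
    ∫ z, f z.1 * ((u z.1 + a z.2) * ((v z.1 + b z.2) * (w z.1 + c z.2))) ∂μ.prod ν =
      ∫ x, f x * (u x * v x * w x) ∂μ := by
  let F : Fin 8 → X → ℝ := ![fun x => f x * (u x * v x * w x), fun x => f x * (u x * v x),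
    fun x => f x * (u x * w x), fun x => f x * (v x * w x), fun x => f x * u x,
    fun x => f x * v x, fun x => f x * w x, f]
  let G : Fin 8 → Y → ℝ := ![fun _ => 1, c, b, a, fun y => b y * c y, fun y => a y * c y,
    fun y => a y * b y, fun y => a y * b y * c y]
  have e : ∀ z : X × Y, f z.1 * ((u z.1 + a z.2) * ((v z.1 + b z.2) * (w z.1 + c z.2))) =
      ∑ t, F t z.1 * G t z.2 := fun z => by
    simp [F, G, Fin.sum_univ_succ]
    ring
  have hF : ∀ t, Integrable (F t) μ := fun t => by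
    fin_cases t
    exacts [(hf.mul ((hu.mul hv).mul hw)).int, (hf.mul (hu.mul hv)).int, (hf.mul (hu.mul hw)).int,
      (hf.mul (hv.mul hw)).int, (hf.mul hu).int, (hf.mul hv).int, (hf.mul hw).int, hf.int]
  have hG : ∀ t, Integrable (G t) ν := fun t => by
    fin_cases t
    exacts [integrable_const (1 : ℝ), hc.int, hb.int, ha.int, (hb.mul hc).int, (ha.mul hc).int,
      (ha.mul hb).int, ((ha.mul hb).mul hc).int]
  simp only [e]
  rw [integral_finsetSum _ fun t _ => (hF t).mul_prod (hG t)]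
  simp only [integral_prod_mul]
  simp [F, G, Fin.sum_univ_succ, u0, v0, w0, a0, b0, c0, e0]

end

theorem d6_dual {X : Type*} [NormedAddCommGroup X] [NormedSpace ℝ X] [MeasurableSpace X]
    [BorelSpace X] (μ : Measure X) [IsGaussian μ] (L : StrongDual ℝ X) : d6_M μ L :=
  fun p hp => IsGaussian.memLp_dual μ L p hp

section
variable {d : ℕ}

theorem d6_in (w : Eu d) : d6_M (stdGaussian (Eu d)) fun g => ⟪g, w⟫ := by
  simp only [real_inner_comm w]
  exact d6_dual _ (innerSL ℝ w)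

theorem d6_ee (g : Eu d) (i : Fin d) : ⟪g, ee i⟫ = g i := by simp [ee, PiLp.inner_apply]

theorem d6_odd {f : Eu d × Eu d → ℝ} (hf : Continuous f) (h : ∀ z, f (-z) = -f z) :
    ∫ z, f z ∂(stdGaussian (Eu d)).prod (stdGaussian (Eu d)) = 0 := by
  have h1 : MeasurePreserving (fun g : Eu d => -g) (stdGaussian (Eu d)) (stdGaussian (Eu d)) :=
    ⟨measurable_neg, stdGaussian_map (LinearIsometryEquiv.neg ℝ)⟩
  have h2 := h1.prod h1
  have h3 : ∫ z, f z ∂(stdGaussian (Eu d)).prod (stdGaussian (Eu d)) =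
      ∫ z, f (-z) ∂(stdGaussian (Eu d)).prod (stdGaussian (Eu d)) := by
    conv_lhs => rw [← h2.map_eq, integral_map h2.measurable.aemeasurable hf.aestronglyMeasurable]
    rfl
  simp only [h, integral_neg] at h3
  linarith

/-- the three projections. -/
noncomputable def d6_p (d : ℕ) : Fin 3 → (Eu d × Eu d × Eu d →L[ℝ] Eu d) :=
  ![ContinuousLinearMap.fst ℝ _ _,
    (ContinuousLinearMap.fst ℝ _ _).comp (ContinuousLinearMap.snd ℝ (Eu d) (Eu d × Eu d)),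
    (ContinuousLinearMap.snd ℝ _ _).comp (ContinuousLinearMap.snd ℝ (Eu d) (Eu d × Eu d))]

/-- the rotation of three vectors. -/
noncomputable def d6_A (d : ℕ) (α β δ : ℝ) : Eu d × Eu d × Eu d →L[ℝ] Eu d × Eu d × Eu d :=
  (α • d6_p d 0 + β • d6_p d 1 + δ • d6_p d 2).prod
    ((α • d6_p d 0 - β • d6_p d 1 + δ • d6_p d 2).prod (α • d6_p d 0 - (2 * δ) • d6_p d 2))

theorem d6_A_apply (α β δ : ℝ) (z : Eu d × Eu d × Eu d) : d6_A d α β δ z =
    (α • z.1 + β • z.2.1 + δ • z.2.2, α • z.1 - β • z.2.1 + δ • z.2.2,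
      α • z.1 - (2 * δ) • z.2.2) := rfl

theorem d6_norm {α β δ : ℝ} (hα : 3 * α ^ 2 = 1) (hβ : 2 * β ^ 2 = 1) (hδ : 6 * δ ^ 2 = 1)
    (L1 L2 L3 M1 M2 M3 : StrongDual ℝ (Eu d)) (h1 : ∀ g, M1 g = α * (L1 g + L2 g + L3 g))
    (h2 : ∀ g, M2 g = β * (L1 g - L2 g)) (h3 : ∀ g, M3 g = δ * (L1 g + L2 g - 2 * L3 g)) :
    ‖M1‖ ^ 2 + (‖M2‖ ^ 2 + ‖M3‖ ^ 2) = ‖L1‖ ^ 2 + (‖L2‖ ^ 2 + ‖L3‖ ^ 2) := by
  have i : ∀ L : StrongDual ℝ (Eu d), Integrable (fun g => L g ^ 2) (stdGaussian (Eu d)) :=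
    fun L => by simpa only [sq] using ((d6_dual _ L).mul (d6_dual _ L)).int
  simp only [← int_dual_sq]
  have j : ∀ A B C : StrongDual ℝ (Eu d), ∫ g, A g ^ 2 ∂stdGaussian (Eu d) +
      (∫ g, B g ^ 2 ∂stdGaussian (Eu d) + ∫ g, C g ^ 2 ∂stdGaussian (Eu d)) =
      ∫ g, A g ^ 2 + (B g ^ 2 + C g ^ 2) ∂stdGaussian (Eu d) := fun A B C => by
    rw [← integral_add (i _) (i _)]
    exact (integral_add (i _) ((i _).add (i _))).symm
  rw [j, j]
  refine integral_congr_ae (Filter.Eventually.of_forall fun g => ?_)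
  simp only [h1, h2, h3]
  linear_combination (L1 g + L2 g + L3 g) ^ 2 / 3 * hα + (L1 g - L2 g) ^ 2 / 2 * hβ +
    (L1 g + L2 g - 2 * L3 g) ^ 2 / 6 * hδ

theorem d6_law {α β δ : ℝ} (hα : 3 * α ^ 2 = 1) (hβ : 2 * β ^ 2 = 1) (hδ : 6 * δ ^ 2 = 1) :
    ((stdGaussian (Eu d)).prod ((stdGaussian (Eu d)).prod (stdGaussian (Eu d)))).map
      (d6_A d α β δ) =
    (stdGaussian (Eu d)).prod ((stdGaussian (Eu d)).prod (stdGaussian (Eu d))) := by
  have G := (Gq_std (E := Eu d)).prod ((Gq_std (E := Eu d)).prod (Gq_std (E := Eu d)))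
  refine (G.map _).ext G fun L => d6_norm hα hβ hδ _ _ _ _ _ _ (fun g => ?_) (fun g => ?_)
    fun g => ?_
  · change L _ = α * (L _ + L _ + L _)
    rw [← map_add, ← map_add, ← smul_eq_mul, ← map_smul]
    congr 1
    simp [d6_A_apply]
  · change L _ = β * (L _ - L _)
    rw [← map_sub, ← smul_eq_mul, ← map_smul]
    congr 1
    simp [d6_A_apply]
  · change L _ = δ * (L _ + L _ - 2 * L _)
    rw [← smul_eq_mul 2, ← map_smul, ← map_add, ← map_sub, ← smul_eq_mul, ← map_smul]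
    congr 1
    simp [d6_A_apply, smul_smul, mul_comm]

end

/-- Decoupling. With `g, a, b` independent, `g₁ = g/√3 + a/√2 + b/√6`, `g₂ = g/√3 - a/√2 + b/√6`,
`g₃ = g/√3 - 2b/√6` are independent standard Gaussians, `g = (g₁+g₂+g₃)/√3`, the mean in `a, b` of
`⟪g₁,p⟫⟪g₂,q⟫⟪g₃,r⟫` is `3^(-3/2) ⟪g,p⟫⟪g,q⟫⟪g,r⟫` plus a linear form; the functions
`g₁ i * g₂ j * g₃ k` are orthonormal; Bessel. -/
theorem cubic {d : ℕ} {F : Eu d → ℝ} {B : ℝ} (hF : Bm F B)
    (h0 : ∀ w : Eu d, ∫ g, F g * ⟪g, w⟫ ∂stdGaussian (Eu d) = 0) :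
    ∑ i, ∑ j, ∑ k, T3 F (ee i) (ee j) (ee k) ^ 2 ≤ 27 * ∫ g, F g ^ 2 ∂stdGaussian (Eu d) := by
  obtain ⟨α, hα⟩ : ∃ α : ℝ, 3 * α ^ 2 = 1 := ⟨√(1 / 3), by rw [Real.sq_sqrt] <;> norm_num⟩
  obtain ⟨β, hβ⟩ : ∃ β : ℝ, 2 * β ^ 2 = 1 := ⟨√(1 / 2), by rw [Real.sq_sqrt] <;> norm_num⟩
  obtain ⟨δ, hδ⟩ : ∃ δ : ℝ, 6 * δ ^ 2 = 1 := ⟨√(1 / 6), by rw [Real.sq_sqrt] <;> norm_num⟩
  have law := d6_law (d := d) hα hβ hδ
  set γ := stdGaussian (Eu d) with hγ
  let Φ : Eu d × Eu d × Eu d → ℝ := fun z => F (α • (z.1 + z.2.1 + z.2.2))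
  have hΦ : Bm Φ B := ⟨hF.1.comp (by fun_prop), fun z => hF.2 _⟩
  have hA : ∀ z, Φ (d6_A d α β δ z) = F z.1 := fun z => by
    simp only [Φ, d6_A_apply]
    congr 1
    linear_combination (norm := module) hα • z.1
  have tr : ∀ f : Eu d × Eu d × Eu d → ℝ, Measurable f →
      ∫ z, f z ∂γ.prod (γ.prod γ) = ∫ z, f (d6_A d α β δ z) ∂γ.prod (γ.prod γ) := fun f hf => by
    conv_lhs => rw [← law, integral_map (by fun_prop) hf.aestronglyMeasurable]
  let φ : Fin d × Fin d × Fin d → Eu d × Eu d × Eu d → ℝ :=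
    fun t z => z.1 t.1 * (z.2.1 t.2.1 * z.2.2 t.2.2)
  let P : Fin d → StrongDual ℝ (Eu d) := fun i => EuclideanSpace.proj i
  have hP : ∀ i g, P i g = g i := fun _ _ => rfl
  have hφ : ∀ t, d6_M (γ.prod (γ.prod γ)) (φ t) := fun t =>
    (d6_dual _ ((P t.1).comp (d6_p d 0))).mul
      ((d6_dual _ ((P t.2.1).comp (d6_p d 1))).mul (d6_dual _ ((P t.2.2).comp (d6_p d 2))))
  have o1 : ∀ i j, ∫ g, g i * g j ∂γ = if i = j then 1 else 0 := fun i j => by
    have e : ∀ (g : Eu d) k, g k = ⟪ee k, g⟫ := fun g k => by rw [real_inner_comm, d6_ee]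
    simp only [e]
    rw [int_inner_mul, d6_ee]
    simp [ee, eq_comm]
  have ho : ∀ s t, ∫ z, φ s z * φ t z ∂γ.prod (γ.prod γ) = if s = t then 1 else 0 := fun s t => by
    have e : ∀ z, φ s z * φ t z = z.1 s.1 * z.1 t.1 *
        (z.2.1 s.2.1 * z.2.1 t.2.1 * (z.2.2 s.2.2 * z.2.2 t.2.2)) := fun z => by
      simp only [φ]
      ring
    rw [integral_congr_ae (Filter.Eventually.of_forall e),
      integral_prod_mul (fun g : Eu d => g s.1 * g t.1) fun y : Eu d × Eu d =>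
        y.1 s.2.1 * y.1 t.2.1 * (y.2 s.2.2 * y.2 t.2.2),
      integral_prod_mul (fun g : Eu d => g s.2.1 * g t.2.1) fun g : Eu d => g s.2.2 * g t.2.2,
      o1, o1, o1]
    simp only [Prod.ext_iff, ite_and]
    split_ifs <;> simp
  have hb := d6_bessel hφ (d6_bm hΦ) ho
  have e1 : ∫ z, Φ z ^ 2 ∂γ.prod (γ.prod γ) = ∫ g, F g ^ 2 ∂γ := by
    rw [tr _ (hΦ.1.pow_const 2)]
    simp only [hA]
    rw [integral_fun_fst fun g => F g ^ 2]
    simp
  have m1 : ∀ i, d6_M (γ.prod γ) fun y => y.1 i :=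
    fun i => d6_dual _ ((P i).comp (ContinuousLinearMap.fst ℝ (Eu d) (Eu d)))
  have m2 : ∀ i, d6_M (γ.prod γ) fun y => y.2 i :=
    fun i => d6_dual _ ((P i).comp (ContinuousLinearMap.snd ℝ (Eu d) (Eu d)))
  have z0 : ∀ i, ∫ g, F g * (α * g i) ∂γ = 0 := fun i => by
    simp only [mul_left_comm _ α, ← d6_ee]
    rw [integral_const_mul, h0, mul_zero]
  have e2 : ∀ t, ∫ z, Φ z * φ t z ∂γ.prod (γ.prod γ) =
      α ^ 3 * T3 F (ee t.1) (ee t.2.1) (ee t.2.2) := fun t => by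
    have k := d6_key (μ := γ) (ν := γ.prod γ) (d6_bm hF) ((d6_dual _ (P t.1)).cmul α)
      ((d6_dual _ (P t.2.1)).cmul α) ((d6_dual _ (P t.2.2)).cmul α)
      (((m1 t.1).cmul β).add ((m2 t.1).cmul δ)) (((m1 t.2.1).cmul (-β)).add ((m2 t.2.1).cmul δ))
      ((m2 t.2.2).cmul (-(2 * δ))) (z0 _) (z0 _) (z0 _)
      (d6_odd (by fun_prop) fun z => by
        simp only [Prod.fst_neg, Prod.snd_neg, PiLp.neg_apply]; ring)
      (d6_odd (by fun_prop) fun z => by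
        simp only [Prod.fst_neg, Prod.snd_neg, PiLp.neg_apply]; ring)
      (d6_odd (by fun_prop) fun z => by simp only [Prod.snd_neg, PiLp.neg_apply]; ring)
      (d6_odd (by fun_prop) fun z => by
        simp only [Prod.fst_neg, Prod.snd_neg, PiLp.neg_apply]; ring)
    rw [tr (fun z => Φ z * φ t z) (hΦ.1.mul (by fun_prop)), T3, ← integral_const_mul]
    simp only [hA]
    refine (integral_congr_ae (Filter.Eventually.of_forall fun z => ?_)).trans
      (k.trans (integral_congr_ae (Filter.Eventually.of_forall fun z => ?_)))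
    · simp only [φ, hP, d6_A_apply, PiLp.add_apply, PiLp.sub_apply,
        PiLp.smul_apply, smul_eq_mul]
      ring
    · simp only [d6_ee, hP]
      ring
  simp only [e1, e2, mul_pow, ← Finset.mul_sum, Fintype.sum_prod_type] at hb
  have e3 : (α ^ 3) ^ 2 = 1 / 27 := by
    have : α ^ 2 = 1 / 3 := by linarith
    rw [← pow_mul, mul_comm, pow_mul, this]
    norm_num
  rw [e3] at hb
  linarith

theorem T3_expand {d : ℕ} {F : Eu d → ℝ} {B : ℝ} (hF : Bm F B) (p q r : Eu d) :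
    T3 F p q r = ∑ i, ∑ j, ∑ k, p i * q j * r k * T3 F (ee i) (ee j) (ee k) := by
  have e : ∀ g w : Eu d, ⟪g, w⟫ = ∑ i, w i * ⟪g, ee i⟫ := fun g w => by
    simp only [d6_ee]
    simp [PiLp.inner_apply]
  have m : ∀ i j k, d6_M (stdGaussian (Eu d)) fun g => p i * q j * r k *
      (F g * (⟪g, ee i⟫ * ⟪g, ee j⟫ * ⟪g, ee k⟫)) := fun i j k =>
    ((d6_bm hF).mul (((d6_in _).mul (d6_in _)).mul (d6_in _))).cmul _
  simp only [T3, ← integral_const_mul]
  simp only [← integral_finsetSum _ fun k _ => (m _ _ k).int,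
    ← integral_finsetSum _ fun j _ => (d6_M.sum (m _ j)).int]
  rw [← integral_finsetSum _ fun i _ => (d6_M.sum fun j => d6_M.sum (m i j)).int]
  refine integral_congr_ae (Filter.Eventually.of_forall fun g => ?_)
  simp only
  rw [e g p, e g q, e g r, Finset.sum_mul_sum, Finset.sum_mul, Finset.mul_sum]
  refine Finset.sum_congr rfl fun i _ => ?_
  rw [Finset.sum_mul_sum, Finset.mul_sum]
  refine Finset.sum_congr rfl fun j _ => ?_
  rw [Finset.mul_sum]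
  exact Finset.sum_congr rfl fun k _ => by ring

/-- Bessel for the orthonormal functions `⟪g, c i⟫`. -/
theorem bessel1 {d r : ℕ} {c : Fin r → Eu d} (hc : Orthonormal ℝ c) {F : Eu d → ℝ} {B : ℝ}
    (hF : Bm F B) : ∑ i, (∫ g, F g * ⟪g, c i⟫ ∂stdGaussian (Eu d)) ^ 2 ≤
      ∫ g, F g ^ 2 ∂stdGaussian (Eu d) := by
  refine d6_bessel (fun i => d6_in (c i)) (d6_bm hF) fun i j => ?_
  simp only [real_inner_comm (c _)]
  rw [int_inner_mul, orthonormal_iff_ite.1 hc]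

end Pool.Agent.Lib.MP_77d991_gt.Ex
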