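import Pool.Agent.Lib.MP_77d991_gt.Ex.D6
import Pool.Agent.Lib.MP_77d991_gt.Ex.B2

open MeasureTheory ProbabilityTheory Set
open scoped RealInnerProductSpace

namespace Pool.Agent.Lib.MP_77d991_gt.Ex

open Pool.Agent.Lib.MP_77d991_gt.As

section
variable {d : ℕ} {h : Eu d → ℝ} {x : Eu d → Eu d} {R : ℝ}

theorem d7_int (hd : 0 < d) {f : Eu d → ℝ} (hf : Continuous f) : Integrable f (sph d) := by
  obtain ⟨C, hC⟩ := (isCompact_sphere (0 : Eu d) 1).exists_bound_of_continuousOn hf.continuousOn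
  refine Integrable.of_bound hf.aestronglyMeasurable C ?_
  filter_upwards [sph_unit hd] with u hu
  exact hC u (by simpa using hu)

theorem d7_bm (P : Pos h x R) (a : Fin d) : Bm (fun g => Nf x g a) (R + 1) := by
  obtain ⟨h1, h2⟩ := meas_Nf P.sel
  exact ⟨(by fun_prop : Measurable fun v : Eu d => v a).comp h1,
    fun y => (PiLp.norm_apply_le (Nf x y) a).trans (h2 y)⟩

theorem d7_e1 {F : Eu d → ℝ} {B : ℝ} (hF : Bm F B) (u : Eu d) (c : Fin d) :
    T3 F u u (ee c) = ∑ i, ∑ j, T3 F (ee i) (ee j) (ee c) * (u i * u j) := by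
  rw [T3_expand hF u u]
  refine Finset.sum_congr rfl fun i _ => Finset.sum_congr rfl fun j _ => ?_
  rw [Finset.sum_eq_single c (fun k _ hk => by simp [ee, hk]) (by simp)]
  simp [ee, mul_comm]

theorem d7_e2 {F : Eu d → ℝ} {B : ℝ} (hF : Bm F B) (u : Eu d) (b c : Fin d) :
    T3 F u (ee b) (ee c) = ∑ i, T3 F (ee i) (ee b) (ee c) * u i := by
  rw [T3_expand hF u]
  refine Finset.sum_congr rfl fun i _ => ?_
  rw [Finset.sum_eq_single b (fun k _ hk => by simp [ee, hk]) (by simp),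
    Finset.sum_eq_single c (fun k _ hk => by simp [ee, hk]) (by simp)]
  simp [ee, mul_comm]

theorem d7_sum (P : Pos h x R) (hd : 0 < d) :
    ∑ a, ∑ i, ∑ j, ∑ k, T3 (fun g => Nf x g a) (ee i) (ee j) (ee k) ^ 2 ≤ 27 * bsq x := by
  rw [← bsq_coord P.sel, Finset.mul_sum]
  exact Finset.sum_le_sum fun a _ => cubic (d7_bm P a) fun w => P.lin hd w a

theorem d7_quad (hd : 0 < d) (S : Fin d → Fin d → Fin d → Fin d → ℝ)
    (hS : ∀ a c, ∑ i, S a c i i = 0) :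
    ∫ u, ∑ a, ∑ c, (∑ i, ∑ j, S a c i j * (u i * u j)) ^ 2 ∂sph d ≤
      2 * (∑ a, ∑ c, ∑ i, ∑ j, S a c i j ^ 2) / d ^ 2 := by
  rw [integral_finsetSum _ fun a _ => d7_int hd (by fun_prop), Finset.mul_sum, Finset.sum_div]
  refine Finset.sum_le_sum fun a _ => ?_
  rw [integral_finsetSum _ fun c _ => d7_int hd (by fun_prop), Finset.mul_sum, Finset.sum_div]
  exact Finset.sum_le_sum fun c _ => quad_sph hd _ (hS a c)

theorem d7_lin (hd : 0 < d) (w : Fin d → ℝ) :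
    ∫ u, (∑ i, w i * u i) ^ 2 ∂sph d = (∑ i, w i ^ 2) / d := by
  have := lin_sph hd (WithLp.toLp 2 w) (WithLp.toLp 2 w)
  simp only [PiLp.inner_apply, RCLike.inner_apply, conj_trivial] at this
  simpa only [sq, mul_comm] using this

theorem d7_comm (f : Fin d → Fin d → Fin d → Fin d → ℝ) :
    ∑ b, ∑ c, ∑ a, ∑ i, f a i b c = ∑ a, ∑ i, ∑ b, ∑ c, f a i b c :=
  calc ∑ b, ∑ c, ∑ a, ∑ i, f a i b c = ∑ b, ∑ a, ∑ i, ∑ c, f a i b c :=
        Finset.sum_congr rfl fun _ _ => Finset.sum_comm.trans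
          (Finset.sum_congr rfl fun _ _ => Finset.sum_comm)
    _ = _ := Finset.sum_comm.trans (Finset.sum_congr rfl fun _ _ => Finset.sum_comm)

/-- `quad_sph` with `Pos.tr1`, `cubic`, `bsq_coord`. -/
theorem Pos.p0 (P : Pos h x R) (hd : 0 < d) :
    ∫ u, ∑ a, ∑ c, T3 (fun g => Nf x g a) u u (ee c) ^ 2 ∂sph d ≤ 54 * bsq x / d ^ 2 := by
  simp only [fun a => d7_e1 (d7_bm P a)]
  refine (d7_quad hd (fun a c i j => T3 (fun g => Nf x g a) (ee i) (ee j) (ee c))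
    fun a c => P.tr1 hd a _).trans ?_
  have e : ∑ a, ∑ c, ∑ i, ∑ j, T3 (fun g => Nf x g a) (ee i) (ee j) (ee c) ^ 2 =
      ∑ a, ∑ i, ∑ j, ∑ c, T3 (fun g => Nf x g a) (ee i) (ee j) (ee c) ^ 2 :=
    Finset.sum_congr rfl fun a _ => Finset.sum_comm.trans
      (Finset.sum_congr rfl fun i _ => Finset.sum_comm)
  rw [e]
  have := d7_sum P hd
  exact div_le_div_of_nonneg_right (by linarith) (by positivity)

/-- `lin_sph`. -/
theorem Pos.p1 (P : Pos h x R) (hd : 0 < d) :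
    ∫ u, ∑ a, ∑ b, ∑ c, T3 (fun g => Nf x g a) u (ee b) (ee c) ^ 2 ∂sph d ≤ 27 * bsq x / d := by
  have e0 : ∀ u : Eu d, ∑ a, ∑ b, ∑ c, T3 (fun g => Nf x g a) u (ee b) (ee c) ^ 2 =
      ∑ a, ∑ b, ∑ c, (∑ i, T3 (fun g => Nf x g a) (ee i) (ee b) (ee c) * u i) ^ 2 := fun u => by
    simp only [← d7_e2 (d7_bm P _)]
  simp only [e0]
  rw [integral_finsetSum _ fun a _ => d7_int hd (by fun_prop)]
  refine le_trans (le_of_eq ?_) (div_le_div_of_nonneg_right (d7_sum P hd) (Nat.cast_nonneg d))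
  rw [Finset.sum_div]
  refine Finset.sum_congr rfl fun a _ => ?_
  rw [integral_finsetSum _ fun a _ => d7_int hd (by fun_prop), Finset.sum_comm, Finset.sum_div]
  refine Finset.sum_congr rfl fun b _ => ?_
  rw [integral_finsetSum _ fun a _ => d7_int hd (by fun_prop), Finset.sum_comm, Finset.sum_div]
  exact Finset.sum_congr rfl fun c _ => d7_lin hd _

/-- `quad_sph` with `Pos.tr2`. -/
theorem Pos.p2 (P : Pos h x R) (hd : 0 < d) :
    ∫ u, ∑ b, ∑ c, (∑ a, u a * T3 (fun g => Nf x g a) u (ee b) (ee c)) ^ 2 ∂sph d ≤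
      54 * bsq x / d ^ 2 := by
  have e0 : ∀ (u : Eu d) b c, ∑ a, u a * T3 (fun g => Nf x g a) u (ee b) (ee c) =
      ∑ a, ∑ i, T3 (fun g => Nf x g a) (ee i) (ee b) (ee c) * (u a * u i) := fun u b c => by
    refine Finset.sum_congr rfl fun a _ => ?_
    rw [d7_e2 (d7_bm P a), Finset.mul_sum]
    exact Finset.sum_congr rfl fun i _ => by ring
  simp only [e0]
  refine (d7_quad hd (fun b c a i => T3 (fun g => Nf x g a) (ee i) (ee b) (ee c))
    fun b c => P.tr2 hd _ _).trans ?_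
  have e : ∑ b, ∑ c, ∑ a, ∑ i, T3 (fun g => Nf x g a) (ee i) (ee b) (ee c) ^ 2 =
      ∑ a, ∑ i, ∑ b, ∑ c, T3 (fun g => Nf x g a) (ee i) (ee b) (ee c) ^ 2 :=
    d7_comm fun a i b c => T3 (fun g => Nf x g a) (ee i) (ee b) (ee c) ^ 2
  rw [e]
  have := d7_sum P hd
  exact div_le_div_of_nonneg_right (by linarith) (by positivity)

end

end Pool.Agent.Lib.MP_77d991_gt.Ex
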