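import Pool.Agent.Lib.MP_77d991_gt.Ex.D5
import Pool.Agent.Lib.MP_77d991_gt.Ex.D7

open MeasureTheory ProbabilityTheory Set
open scoped RealInnerProductSpace

namespace Pool.Agent.Lib.MP_77d991_gt.Ex

open Pool.Agent.Lib.MP_77d991_gt.As

section
variable {d : ℕ} {V : Type} [NormedAddCommGroup V] [NormedSpace ℝ V]

/-- jointly measurable, of polynomial growth in the second variable. -/
def d8_P (Φ : Eu d × Eu d → V) : Prop := StronglyMeasurable Φ ∧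
  ∃ (K : ℝ) (k : ℕ), 0 ≤ K ∧ ∀ u g, ‖u‖ = 1 → ‖Φ (u, g)‖ ≤ K * (1 + ‖g‖) ^ k

theorem d8_pow (k : ℕ) : Integrable (fun g : Eu d => (1 + ‖g‖) ^ k) (stdGaussian (Eu d)) := by
  refine integrable_of_poly (by fun_prop) (2 ^ (k - 1)) k fun g => ?_
  rw [Real.norm_of_nonneg (by positivity)]
  simpa using add_pow_le zero_le_one (norm_nonneg g) k

omit [NormedSpace ℝ V] in
theorem d8_P.int {Φ : Eu d × Eu d → V} (h : d8_P Φ) {u : Eu d} (hu : ‖u‖ = 1) :
    Integrable (fun g => Φ (u, g)) (stdGaussian (Eu d)) := by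
  obtain ⟨h, K, k, -, hK⟩ := h
  exact ((d8_pow k).const_mul K).mono'
    (h.comp_measurable measurable_prodMk_left).aestronglyMeasurable (ae_of_all _ fun g => hK u g hu)

theorem d8_P.mem {Φ : Eu d × Eu d → V} (h : d8_P Φ) (hd : 0 < d) :
    MemLp (fun u => ∫ g, Φ (u, g) ∂stdGaussian (Eu d)) 2 (sph d) := by
  obtain ⟨h, K, k, -, hK⟩ := h
  refine MemLp.of_bound h.integral_prod_right'.aestronglyMeasurable
    (∫ g, K * (1 + ‖g‖) ^ k ∂stdGaussian (Eu d)) ?_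
  filter_upwards [sph_unit hd] with u hu
  exact norm_integral_le_of_norm_le ((d8_pow k).const_mul K) (ae_of_all _ fun g => hK u g hu)

theorem d8_P.smul {φ : Eu d × Eu d → ℝ} {Φ : Eu d × Eu d → V} (h : d8_P φ) (H : d8_P Φ) :
    d8_P fun z => φ z • Φ z := by
  obtain ⟨h, K, k, h0, hK⟩ := h
  obtain ⟨H, L, l, H0, hL⟩ := H
  refine ⟨h.smul H, K * L, k + l, mul_nonneg h0 H0, fun u g hu => ?_⟩
  rw [norm_smul, pow_add, mul_mul_mul_comm]
  exact mul_le_mul (hK u g hu) (hL u g hu) (norm_nonneg _) (by positivity)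

theorem d8_P.mul {φ ψ : Eu d × Eu d → ℝ} (h : d8_P φ) (H : d8_P ψ) : d8_P fun z => φ z * ψ z :=
  h.smul H

omit [NormedSpace ℝ V] in
theorem d8_P.add {Φ Ψ : Eu d × Eu d → V} (h : d8_P Φ) (H : d8_P Ψ) : d8_P fun z => Φ z + Ψ z := by
  obtain ⟨h, K, k, h0, hK⟩ := h
  obtain ⟨H, L, l, H0, hL⟩ := H
  refine ⟨h.add H, K + L, k + l, add_nonneg h0 H0, fun u g hu => ?_⟩
  have h1 : (1 : ℝ) ≤ 1 + ‖g‖ := le_add_of_nonneg_right (norm_nonneg g)
  rw [add_mul]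
  exact (norm_add_le _ _).trans (add_le_add
    ((hK u g hu).trans (mul_le_mul_of_nonneg_left (pow_le_pow_right₀ h1 le_self_add) h0))
    ((hL u g hu).trans (mul_le_mul_of_nonneg_left (pow_le_pow_right₀ h1 le_add_self) H0)))

theorem d8_bd {φ : Eu d × Eu d → ℝ} (h : Measurable φ) {K : ℝ} (hK : ∀ z, |φ z| ≤ K) : d8_P φ :=
  ⟨h.stronglyMeasurable, K, 0, (abs_nonneg _).trans (hK 0), fun u g _ => by simpa using hK (u, g)⟩

theorem d8_F {F : Eu d → ℝ} {B : ℝ} (hF : Bm F B) : d8_P fun z : Eu d × Eu d => F z.2 :=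
  d8_bd (hF.1.comp measurable_snd) fun z => hF.2 z.2

theorem d8_inn {q : Eu d → Eu d} (h : Measurable q) (hq : ∀ u, ‖u‖ = 1 → ‖q u‖ ≤ 1) :
    d8_P fun z : Eu d × Eu d => ⟪z.2, q z.1⟫ := by
  refine ⟨Measurable.stronglyMeasurable (by fun_prop), 1, 1, zero_le_one, fun u g hu => ?_⟩
  have := mul_le_of_le_one_right (norm_nonneg g) (hq u hu)
  have := norm_inner_le_norm (𝕜 := ℝ) g (q u)
  simp only [pow_one, one_mul]
  linarith

theorem d8_u : d8_P fun z : Eu d × Eu d => ⟪z.2, z.1⟫ := d8_inn measurable_id fun _ hu => hu.le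

theorem d8_id : d8_P fun z : Eu d × Eu d => z.2 :=
  ⟨measurable_snd.stronglyMeasurable, 1, 1, zero_le_one, fun u g _ => by simp⟩

theorem d8_pj_le {u : Eu d} (hu : ‖u‖ = 1) (g : Eu d) : ‖pj u g‖ ^ 2 ≤ ‖g‖ ^ 2 := by
  rw [pj, norm_sub_sq_real, inner_smul_right, norm_smul, hu, mul_one, Real.norm_eq_abs, sq_abs]
  nlinarith [sq_nonneg ⟪g, u⟫]

theorem d8_pj : d8_P fun z : Eu d × Eu d => pj z.1 z.2 := by
  refine ⟨Measurable.stronglyMeasurable (by unfold pj; fun_prop), 1, 1, zero_le_one,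
    fun u g hu => ?_⟩
  have := le_of_sq_le_sq (d8_pj_le hu g) (norm_nonneg _)
  simp only [pow_one, one_mul]
  linarith

variable {β : ℝ → ℝ} {σ c0 c1 c2 : Eu d → ℝ} {b : ℝ} {p : Eu d → Eu d} {σ0 : ℝ}
  {F : Eu d → ℝ} {B : ℝ}

theorem d8_Ar (H : Fam β σ c0 c1 c2 b p σ0) :
    d8_P fun z : Eu d × Eu d => Ar β (σ z.1) (c0 z.1) (c1 z.1) (c2 z.1) ⟪z.2, z.1⟫ := by
  obtain ⟨C, hC, h⟩ := kernel_sq
  have hβ := (H.prof 0).meas
  have hs := H.ms
  have h0 := H.m0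
  have h1 := H.m1
  have h2 := H.m2
  have h3 := H.s0
  refine ⟨Measurable.stronglyMeasurable (by unfold Ar rs; fun_prop), C * σ0⁻¹, 2, by positivity,
    fun u g hu => ?_⟩
  refine ((h d β _ _ _ _ (H.prof u) u 0 0 0 0 hu (by simp) (by simp)).1 _).trans ?_
  have h4 : ⟪g, u⟫ ^ 2 ≤ ‖g‖ ^ 2 := by
    have := abs_real_inner_le_norm g u
    rw [hu, mul_one] at this
    exact sq_le_sq' (abs_le.1 this).1 (abs_le.1 this).2
  exact mul_le_mul (mul_le_mul_of_nonneg_left (inv_anti₀ h3 (H.low u)) hC.le)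
    (by nlinarith [norm_nonneg g]) (by positivity) (by positivity)

theorem d8_b (H : Fam β σ c0 c1 c2 b p σ0) : d8_P fun z : Eu d × Eu d => b + ⟪z.2, p z.1⟫ :=
  (d8_bd measurable_const fun _ => H.bb).add (d8_inn H.mp fun u _ => H.bp u)

theorem d8_R (H : Fam β σ c0 c1 c2 b p σ0) (hF : Bm F B) : d8_P fun z : Eu d × Eu d =>
    F z.2 * (Ar β (σ z.1) (c0 z.1) (c1 z.1) (c2 z.1) ⟪z.2, z.1⟫ * (b + ⟪z.2, p z.1⟫)) :=
  (d8_F hF).mul ((d8_Ar H).mul (d8_b H))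

theorem d8_Q (H : Fam β σ c0 c1 c2 b p σ0) (hF : Bm F B) : d8_P fun z : Eu d × Eu d =>
    F z.2 * ((c0 z.1 + c1 z.1 * ⟪z.2, z.1⟫ + c2 z.1 * (⟪z.2, z.1⟫ * ⟪z.2, z.1⟫)) *
      (b + ⟪z.2, p z.1⟫)) :=
  (d8_F hF).mul ((((d8_bd (H.m0.comp measurable_fst) fun z => (H.prof z.1).b0).add
    ((d8_bd (H.m1.comp measurable_fst) fun z => (H.prof z.1).b1).mul d8_u)).add
    ((d8_bd (H.m2.comp measurable_fst) fun z => (H.prof z.1).b2).mul (d8_u.mul d8_u))).mul (d8_b H))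

theorem d8_T (hd : 0 < d) (hF : Bm F B) {q r : Eu d → Eu d} (hq : Measurable q) (hr : Measurable r)
    (h1 : ∀ u, ‖u‖ = 1 → ‖q u‖ ≤ 1) (h2 : ∀ u, ‖u‖ = 1 → ‖r u‖ ≤ 1) :
    MemLp (fun u => T3 F u (q u) (r u)) 2 (sph d) :=
  ((d8_F hF).mul ((d8_u.mul (d8_inn hq h1)).mul (d8_inn hr h2))).mem hd

theorem d8_Gm {u : Eu d} (hu : ‖u‖ = 1) (s : ℝ) (g : Eu d) :
    ⟪Gm u s g, u⟫ = s * ⟪g, u⟫ ∧ pj u (Gm u s g) = pj u g := by
  have h : ⟪Gm u s g, u⟫ = s * ⟪g, u⟫ := by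
    rw [Gm, inner_add_left, real_inner_smul_left, real_inner_self_eq_norm_sq, hu]
    ring
  refine ⟨h, ?_⟩
  rw [pj, h, pj, Gm]
  module

/-- Change of variables and splitting of the density. -/
theorem d8_split (H : Fam β σ c0 c1 c2 b p σ0) (hF : Bm F B) {Ψ : Eu d × Eu d → V} (hΨ : d8_P Ψ)
    {u : Eu d} (hu : ‖u‖ = 1) (hG : ∀ g, Ψ (u, Gm u (σ u) g) = Ψ (u, g)) :
    ∫ g, (β ⟪g, u⟫ * (b + ⟪g, p u⟫) * F (Gm u (σ u) g)) • Ψ (u, g) ∂stdGaussian (Eu d) =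
      ∫ g, (F g * (Ar β (σ u) (c0 u) (c1 u) (c2 u) ⟪g, u⟫ * (b + ⟪g, p u⟫))) • Ψ (u, g)
        ∂stdGaussian (Eu d) +
      ∫ g, (F g * ((c0 u + c1 u * ⟪g, u⟫ + c2 u * (⟪g, u⟫ * ⟪g, u⟫)) * (b + ⟪g, p u⟫))) • Ψ (u, g)
        ∂stdGaussian (Eu d) := by
  have hs := (H.prof u).pos
  have hβ := (H.prof u).meas
  have hm := hF.1
  have h1 : StronglyMeasurable fun g : Eu d =>
      (β (⟪g, u⟫ / σ u) * (b + ⟪g, p u⟫) * F g) • Ψ (u, g) :=
    (Measurable.stronglyMeasurable (by fun_prop)).smul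
      (hΨ.1.comp_measurable measurable_prodMk_left)
  have h2 := integral_map (μ := stdGaussian (Eu d)) (φ := Gm u (σ u))
    (Measurable.aemeasurable (by unfold Gm; fun_prop)) h1.aestronglyMeasurable
  rw [dens hu hs, integral_withDensity_eq_integral_toReal_smul (by unfold rs; fun_prop)
    (ae_of_all _ fun _ => ENNReal.ofReal_lt_top)] at h2
  rw [← integral_add (((d8_R H hF).smul hΨ).int hu) (((d8_Q H hF).smul hΨ).int hu)]
  refine (integral_congr_ae (ae_of_all _ fun g => ?_)).trans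
    (h2.symm.trans (integral_congr_ae (ae_of_all _ fun g => ?_)))
  · have h3 : ⟪Gm u (σ u) g, p u⟫ = ⟪g, p u⟫ := by
      rw [Gm, inner_add_left, real_inner_smul_left, real_inner_comm (p u) u, H.perp u hu, mul_zero,
        add_zero]
    simp only [hG, h3, (d8_Gm hu _ g).1, mul_div_cancel_left₀ _ hs.ne']
  · simp only [smul_smul, ← add_smul, Ar]
    rw [ENNReal.toReal_ofReal (rs_le hs ((H.prof u).le.trans (by norm_num)) _).1]
    refine congrArg (· • Ψ (u, g)) ?_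
    ring

theorem d8_vec {φ : Eu d × Eu d → ℝ} (h : d8_P φ) {u : Eu d} (hu : ‖u‖ = 1) : ∃ v : Eu d,
    (∀ w, ∫ g, φ (u, g) * ⟪g, w⟫ ∂stdGaussian (Eu d) = ⟪v, w⟫) ∧
      ∫ g, φ (u, g) • pj u g ∂stdGaussian (Eu d) = pj u v := by
  have h1 := (h.smul d8_id).int hu
  have h2 : ∀ w, ∫ g, φ (u, g) * ⟪g, w⟫ ∂stdGaussian (Eu d) =
      ⟪∫ g, φ (u, g) • g ∂stdGaussian (Eu d), w⟫ := fun w => by
    rw [real_inner_comm, ← integral_inner h1]
    simp only [inner_smul_right, real_inner_comm]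
  refine ⟨_, h2, ?_⟩
  simp only [pj, smul_sub, smul_smul]
  rw [integral_sub h1 (((h.mul d8_u).int hu).smul_const u), integral_smul_const, h2]

theorem d8_nsq (v : Eu d) : ‖v‖ ^ 2 = ∑ c, ⟪v, ee c⟫ ^ 2 := by
  simp [EuclideanSpace.real_norm_sq_eq, ee, EuclideanSpace.inner_single_right]

theorem d8_cs {L : Eu d → ℝ} {v q : Eu d} (h : ∀ w, L w = ⟪v, w⟫) (hq : ‖q‖ ≤ 1) :
    L q ^ 2 ≤ ∑ c, L (ee c) ^ 2 := by
  simp only [h, ← d8_nsq]
  have := (abs_real_inner_le_norm v q).trans (mul_le_of_le_one_right (norm_nonneg v) hq)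
  exact sq_le_sq' (abs_le.1 this).1 (abs_le.1 this).2

theorem d8_ee (c : Fin d) : ‖(ee c : Eu d)‖ = 1 := by simp [ee]

theorem d8_comm (u q r : Eu d) : T3 F u q r = T3 F u r q := by
  simp only [T3, mul_right_comm]

theorem d8_rep (hF : Bm F B) {u q : Eu d} (hu : ‖u‖ = 1) (hq : ‖q‖ ≤ 1) :
    ∃ v : Eu d, ∀ w, T3 F u q w = ⟪v, w⟫ := by
  obtain ⟨v, hv, -⟩ := d8_vec ((d8_F hF).mul (d8_u.mul (d8_inn (q := fun _ => q) measurable_const
    fun _ _ => hq))) hu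
  exact ⟨v, fun w => by simp only [T3, ← hv, mul_assoc]⟩

theorem d8_rep2 {G : Fin d → Eu d → ℝ} (hG : ∀ a, Bm (G a) B) {u q : Eu d} (hu : ‖u‖ = 1)
    (hq : ‖q‖ ≤ 1) : ∃ v : Eu d, ∀ w, ∑ a, u a * T3 (G a) u q w = ⟪v, w⟫ := by
  choose v hv using fun a => d8_rep (hG a) hu hq
  exact ⟨∑ a, u a • v a, fun w => by simp only [hv, sum_inner, real_inner_smul_left]⟩

theorem d8_sum {u : Eu d} (hu : ‖u‖ = 1) (y : Fin d → ℝ) : (∑ a, u a * y a) ^ 2 ≤ ∑ a, y a ^ 2 := by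
  have := Finset.sum_mul_sq_le_sq_mul_sq Finset.univ (fun a => u a) y
  rwa [← EuclideanSpace.real_norm_sq_eq, hu, one_pow, one_mul] at this

theorem d8_fin (hd : 0 < d) {f A S : Eu d → ℝ} {c α s : ℝ} (hf : Measurable f) (h0 : ∀ u, 0 ≤ f u)
    (hA : Integrable A (sph d) ∧ ∫ u, A u ∂sph d ≤ α) (hS : Integrable S (sph d))
    (hs : ∫ u, S u ∂sph d ≤ s) (hc : 0 ≤ c) (h : ∀ u, ‖u‖ = 1 → f u ≤ 2 * A u + c * S u) {t : ℝ}
    (ht : 2 * α + c * s ≤ t) : Integrable f (sph d) ∧ ∫ u, f u ∂sph d ≤ t := by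
  have h1 := (hA.1.const_mul 2).add (hS.const_mul c)
  have h2 : ∀ᵐ u ∂sph d, f u ≤ 2 * A u + c * S u := (sph_unit hd).mono h
  refine ⟨h1.mono' hf.aestronglyMeasurable (h2.mono fun u hu => by rwa [Real.norm_of_nonneg (h0 u)]),
    (integral_mono_of_nonneg (ae_of_all _ h0) h1 h2).trans (le_trans ?_ ht)⟩
  rw [integral_add' (hA.1.const_mul 2) (hS.const_mul c), integral_const_mul, integral_const_mul]
  exact add_le_add (mul_le_mul_of_nonneg_left hA.2 zero_le_two) (mul_le_mul_of_nonneg_left hs hc)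

omit [NormedSpace ℝ V] in
theorem d8_sq (y z : V) : ‖y + z‖ ^ 2 ≤ 2 * ‖y‖ ^ 2 + 2 * ‖z‖ ^ 2 := by
  have := pow_le_pow_left₀ (norm_nonneg _) (norm_add_le y z) 2
  nlinarith [sq_nonneg (‖y‖ - ‖z‖)]

omit [NormedSpace ℝ V] in
theorem d8_rem {h : Eu d → ℝ} {x : Eu d → Eu d} {R : ℝ} (P : Pos h x R) {y : Fin d → Eu d → V}
    (hy : ∀ a, MemLp (y a) 2 (sph d)) {c : ℝ}
    (h1 : ∀ a, ∫ u, ‖y a u‖ ^ 2 ∂sph d ≤ c * ∫ g, Nf x g a ^ 2 ∂stdGaussian (Eu d)) :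
    Integrable (fun u => ∑ a, ‖y a u‖ ^ 2) (sph d) ∧
      ∫ u, ∑ a, ‖y a u‖ ^ 2 ∂sph d ≤ c * bsq x := by
  have h2 := fun a => (hy a).integrable_norm_pow two_ne_zero
  refine ⟨integrable_finsetSum _ fun a _ => h2 a, ?_⟩
  rw [integral_finsetSum _ fun a _ => h2 a, ← bsq_coord P.sel, Finset.mul_sum]
  exact Finset.sum_le_sum fun a _ => h1 a

end

/-- `dens`: `Y0 F u σ = ∫ (F rs) • pj`, since `pj u (Gm u σ g) = pj u g`. Remainder by `tt2` with
`prof0, prof1, prof2`; the polynomial parts are `c₂ pj u (T3(u,u,·))`, `alp σ pj u (T3(u,p,·))` and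
zero by `Pos.lin`; `Pos.p0`, `p1`, `p2`. All integrands are bounded and measurable. -/
theorem ybound (J : ℕ) : ∃ C : ℝ, 0 < C ∧ ∀ d : ℕ, 0 < d → ∀ (h : Eu d → ℝ) (x : Eu d → Eu d)
    (R : ℝ), Pos h x R → ∀ (σ : Eu d → ℝ) (p : Eu d → Eu d) (σ0 σ1 : ℝ), Measurable σ →
    Measurable p → 0 < σ0 → σ1 ≤ 1 / 4 → (∀ u, σ0 ≤ σ u ∧ σ u ≤ σ1) → (∀ u, ‖p u‖ ≤ 1) →
    (∀ u, ‖u‖ = 1 → ⟪p u, u⟫ = 0) → ∀ k : ℝ, k = 1 / (d * √(d : ℝ)) + 1 / (σ0 ^ 2 * d ^ J) →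
      (Integrable (fun u => ∑ a, ‖Y0 (fun g => Nf x g a) u (σ u)‖ ^ 2) (sph d) ∧
        ∫ u, ∑ a, ‖Y0 (fun g => Nf x g a) u (σ u)‖ ^ 2 ∂sph d ≤ C * k * bsq x) ∧
      (Integrable (fun u => ∑ a, ‖Y1 (fun g => Nf x g a) u (p u) (σ u)‖ ^ 2) (sph d) ∧
        ∫ u, ∑ a, ‖Y1 (fun g => Nf x g a) u (p u) (σ u)‖ ^ 2 ∂sph d ≤
          C * (k + σ1 ^ 2 / d) * bsq x) ∧
      (Integrable (fun u => (∑ a, u a * ⟪Y1 (fun g => Nf x g a) u (p u) (σ u), p u⟫) ^ 2) (sph d) ∧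
        ∫ u, (∑ a, u a * ⟪Y1 (fun g => Nf x g a) u (p u) (σ u), p u⟫) ^ 2 ∂sph d ≤
          C * k * bsq x) ∧
      (Integrable (fun u => (∑ a, u a * y2 (fun g => Nf x g a) u (σ u)) ^ 2) (sph d) ∧
        ∫ u, (∑ a, u a * y2 (fun g => Nf x g a) u (σ u)) ^ 2 ∂sph d ≤ C * k * bsq x) := by
  obtain ⟨C, hC, H⟩ := tt2 J
  refine ⟨2 * C + 432 * (1 + alp ^ 2), by positivity,
    fun d hd h x R P σ p σ0 σ1 hσ hp h0 h1 hs hp1 hp2 k hk => ?_⟩
  have hF : ∀ a, Bm (fun g => Nf x g a) (R + 1) := fun a =>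
    ⟨by have := (meas_Nf P.sel).1; fun_prop, fun y =>
      (PiLp.norm_apply_le (Nf x y) a).trans ((meas_Nf P.sel).2 y)⟩
  have s0 : ∀ u, 0 < σ u := fun u => h0.trans_le (hs u).1
  have s1 : ∀ u, σ u ≤ 1 / 4 := fun u => (hs u).2.trans h1
  have F0 : Fam (fun _ => 1) σ (fun u => (3 - σ u ^ 2) / 2) (fun _ => 0)
      (fun u => (σ u ^ 2 - 1) / 2) 1 (fun _ => 0) σ0 :=
    ⟨fun u => prof0 (s0 u) (s1 u), hσ, by fun_prop, by fun_prop, by fun_prop, by fun_prop, by simp,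
      by simp, by simp, h0, fun u => (hs u).1⟩
  have F1 : Fam Real.sign σ (fun _ => 0) (fun u => alp * σ u) (fun _ => 0) 0 p σ0 :=
    ⟨fun u => prof1 (s0 u) (s1 u), hσ, by fun_prop, by fun_prop, by fun_prop, hp, by simp,
      hp1, hp2, h0, fun u => (hs u).1⟩
  have F2 : Fam (fun t => t) σ (fun _ => 0) σ (fun _ => 0) 1 (fun _ => 0) σ0 :=
    ⟨fun u => prof2 (s0 u) (s1 u), hσ, by fun_prop, by fun_prop, by fun_prop, by fun_prop, by simp,
      by simp, by simp, h0, fun u => (hs u).1⟩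
  have A0 := d8_rem P (fun a => ((d8_R F0 (hF a)).smul d8_pj).mem hd)
    fun a => (H d hd _ _ _ _ _ _ _ _ F0 _ _ (hF a)).1
  have A1 := d8_rem P (fun a => ((d8_R F1 (hF a)).smul d8_pj).mem hd)
    fun a => (H d hd _ _ _ _ _ _ _ _ F1 _ _ (hF a)).1
  have A2 := d8_rem P (fun a => (d8_R F2 (hF a)).mem hd) fun a => by
    simpa only [Real.norm_eq_abs, sq_abs] using (H d hd _ _ _ _ _ _ _ _ F2 _ _ (hF a)).2
  rw [← hk] at A0 A1 A2
  have hT := fun a b c : Fin d => d8_T hd (hF a) (q := fun _ => ee b) (r := fun _ => ee c)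
    measurable_const measurable_const (fun _ _ => (d8_ee b).le) fun _ _ => (d8_ee c).le
  have hS : ∀ b c, MemLp (fun u : Eu d => ∑ a, u a * T3 (fun g => Nf x g a) u (ee b) (ee c)) 2
      (sph d) := fun b c => memLp_finsetSum _ fun a _ => (hT a b c).of_le
    ((Measurable.aestronglyMeasurable (by fun_prop)).mul (hT a b c).1)
    ((sph_unit hd).mono fun u hu => (norm_mul_le _ _).trans
      (mul_le_of_le_one_left (norm_nonneg _) ((PiLp.norm_apply_le u a).trans hu.le)))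
  have m0 := fun a => (meas_Y (hF a) hσ hp).1
  have m1 := fun a => (meas_Y (hF a) hσ hp).2.1
  have m2 := fun a => (meas_Y (hF a) hσ hp).2.2
  have hb : 0 ≤ bsq x := integral_nonneg fun _ => sq_nonneg _
  have hd1 : (1 : ℝ) ≤ d := Nat.one_le_cast.2 hd
  have hk1 : bsq x / d ^ 2 ≤ k * bsq x := by
    rw [hk, div_eq_inv_mul, ← one_div]
    refine mul_le_mul_of_nonneg_right (le_add_of_le_of_nonneg ?_ (by positivity)) hb
    refine one_div_le_one_div_of_le (by positivity) ?_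
    rw [sq]
    exact mul_le_mul_of_nonneg_left (Real.sqrt_le_iff.2 ⟨by positivity, by nlinarith⟩)
      (by positivity)
  have hk0 : 0 ≤ k * bsq x := le_trans (by positivity) hk1
  have hk2 : 2 * (C * k * bsq x) + 8 * (54 * bsq x / d ^ 2) ≤
      (2 * C + 432 * (1 + alp ^ 2)) * k * bsq x := by
    rw [mul_div_assoc]
    nlinarith [mul_nonneg (sq_nonneg alp) hk0]
  have e1 : ∀ u, ‖u‖ = 1 → ∀ a, ∃ v : Eu d,
      (∀ w, ⟪v, w⟫ = alp * σ u * T3 (fun g => Nf x g a) u (p u) w) ∧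
      Y1 (fun g => Nf x g a) u (p u) (σ u) = ∫ g, (Nf x g a * (Ar Real.sign (σ u) 0 (alp * σ u) 0
        ⟪g, u⟫ * (0 + ⟪g, p u⟫))) • pj u g ∂stdGaussian (Eu d) + pj u v := fun u hu a => by
    obtain ⟨v, hv, hv'⟩ := d8_vec (d8_Q F1 (hF a)) hu
    refine ⟨v, fun w => ?_, ?_⟩
    · rw [← hv, T3, ← integral_const_mul]
      exact integral_congr_ae (ae_of_all _ fun g => by ring)
    · rw [← hv', ← d8_split F1 (hF a) d8_pj hu fun g => (d8_Gm hu _ g).2, Y1]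
      simp only [zero_add]
  refine ⟨d8_fin hd (c := 8) (by fun_prop) (fun u => by positivity) A0
    (integrable_finsetSum _ fun a _ => integrable_finsetSum _ fun c _ => (d8_T hd (hF a)
      (q := fun u => u) measurable_id measurable_const (fun _ hu => hu.le) fun _ _ => (d8_ee c).le).integrable_sq)
    (P.p0 hd) (by norm_num) (fun u hu => ?_) hk2,
    d8_fin hd (c := 2 * (alp * σ1) ^ 2) (by fun_prop) (fun u => by positivity) A1
    (integrable_finsetSum _ fun a _ => integrable_finsetSum _ fun b _ =>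
      integrable_finsetSum _ fun c _ => (hT a b c).integrable_sq)
    (P.p1 hd) (by positivity) (fun u hu => ?_) ?_,
    d8_fin hd (c := 8) (by fun_prop) (fun u => by positivity) A1
    (integrable_finsetSum _ fun b _ => integrable_finsetSum _ fun c _ => (hS b c).integrable_sq)
    (P.p2 hd) (by norm_num) (fun u hu => ?_) hk2,
    d8_fin hd (c := 0) (s := 0) (by fun_prop) (fun u => by positivity) A2
    (integrable_zero _ _ _) (by simp) le_rfl (fun u hu => ?_)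
    (le_trans (by rw [mul_zero]; exact add_le_add_right (by positivity) _) hk2)⟩
  · rw [Finset.mul_sum, Finset.mul_sum, ← Finset.sum_add_distrib]
    refine Finset.sum_le_sum fun a _ => ?_
    obtain ⟨v, hv, hv'⟩ := d8_vec (d8_Q F0 (hF a)) hu
    have h2 := d8_split F0 (hF a) d8_pj hu fun g => (d8_Gm hu _ g).2
    have h3 : ∀ c, ⟪v, ee c⟫ = (σ u ^ 2 - 1) / 2 * T3 (fun g => Nf x g a) u u (ee c) := fun c => by
      have i := d8_inn (q := fun _ => ee c) measurable_const fun _ _ => (d8_ee c).le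
      have j := integral_add ((((d8_F (hF a)).mul i).int hu).const_mul ((3 - σ u ^ 2) / 2))
        ((((d8_F (hF a)).mul ((d8_u.mul d8_u).mul i)).int hu).const_mul ((σ u ^ 2 - 1) / 2))
      simp only [integral_const_mul, P.lin hd, mul_zero, zero_add] at j
      rw [← hv, T3, ← j]
      exact integral_congr_ae (ae_of_all _ fun g => by simp only [inner_zero_right]; ring)
    rw [hv'] at h2
    simp only [inner_zero_right, add_zero, mul_one, one_mul] at h2 ⊢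
    rw [Y0, h2]
    refine (d8_sq _ _).trans (add_le_add_right ?_ _)
    have h4 := d8_pj_le hu v
    simp only [d8_nsq v, h3, mul_pow, ← Finset.mul_sum] at h4
    have h5 := sq_le_sq' (abs_le.1 (F0.prof u).b2).1 (abs_le.1 (F0.prof u).b2).2
    have h6 : 0 ≤ ∑ c, T3 (fun g => Nf x g a) u u (ee c) ^ 2 := by positivity
    nlinarith [mul_le_mul_of_nonneg_right h5 h6]
  · rw [Finset.mul_sum, Finset.mul_sum, ← Finset.sum_add_distrib]
    refine Finset.sum_le_sum fun a _ => ?_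
    obtain ⟨v, hv, hv'⟩ := e1 u hu a
    rw [hv', mul_assoc, Finset.sum_comm]
    refine (d8_sq _ _).trans (add_le_add_right (mul_le_mul_of_nonneg_left ((d8_pj_le hu v).trans ?_)
      zero_le_two) _)
    rw [d8_nsq, Finset.mul_sum]
    refine Finset.sum_le_sum fun c _ => ?_
    obtain ⟨y, hy⟩ := d8_rep (hF a) hu (d8_ee c).le
    rw [hv, mul_pow, mul_pow, mul_pow]
    exact mul_le_mul (mul_le_mul_of_nonneg_left (pow_le_pow_left₀ (s0 u).le (hs u).2 2)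
      (sq_nonneg _)) (d8_cs (L := fun w => T3 (fun g => Nf x g a) u w (ee c))
        (fun w => (d8_comm _ _ _).trans (hy w)) (hp1 u)) (sq_nonneg _) (by positivity)
  · have h2 : 0 ≤ σ1 ^ 2 / d * bsq x := by positivity
    have h3 : 2 * (alp * σ1) ^ 2 * (27 * bsq x / d) = 54 * alp ^ 2 * (σ1 ^ 2 / d * bsq x) := by ring
    rw [h3]
    nlinarith [mul_nonneg (sq_nonneg alp) hk0, mul_nonneg (sq_nonneg alp) h2, mul_nonneg hC.le h2]
  · choose v hv hv' using e1 u hu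
    have h2 : ⟪u, p u⟫ = 0 := (real_inner_comm _ _).trans (hp2 u hu)
    simp only [hv', inner_add_left, mul_add, Finset.sum_add_distrib]
    refine le_trans (add_sq_le.trans (mul_add _ _ _).le) (add_le_add (mul_le_mul_of_nonneg_left ((d8_sum hu _).trans
        (Finset.sum_le_sum fun a _ => ?_)) zero_le_two) ?_)
    · exact (d8_cs (fun _ => rfl) (hp1 u)).trans (d8_nsq _).ge
    · simp only [pj, inner_sub_left, real_inner_smul_left, h2, mul_zero, sub_zero, hv,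
        mul_left_comm _ (alp * σ u), ← Finset.mul_sum, mul_pow _ (∑ _, _)]
      obtain ⟨y, hy⟩ := d8_rep2 hF hu (hp1 u)
      choose z hz using fun c => d8_rep2 hF hu (d8_ee c).le
      have h4 := (d8_cs hy (hp1 u)).trans (Finset.sum_le_sum fun c _ =>
        d8_cs (L := fun w => ∑ a, u a * T3 (fun g => Nf x g a) u w (ee c)) (v := z c)
          (fun w => by simp only [← hz, d8_comm u w]) (hp1 u))
      rw [Finset.sum_comm] at h4
      have h5 := sq_le_sq' (abs_le.1 (F1.prof u).b1).1 (abs_le.1 (F1.prof u).b1).2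
      nlinarith [mul_le_mul h5 h4 (sq_nonneg _) (sq_nonneg _)]
  · rw [zero_mul, add_zero]
    refine (d8_sum hu _).trans (le_trans (le_of_eq (Finset.sum_congr rfl fun a _ => ?_))
      (le_mul_of_one_le_left (by positivity) one_le_two))
    have h2 := d8_split F2 (hF a) (d8_bd (φ := fun _ => 1) measurable_const fun _ => abs_one.le) hu
      fun _ => rfl
    simp only [inner_zero_right, add_zero, mul_one, zero_add, zero_mul, smul_eq_mul,
      mul_left_comm _ (σ u), integral_const_mul, P.lin hd, mul_zero] at h2 ⊢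
    rw [y2, h2, Real.norm_eq_abs, sq_abs]

end Pool.Agent.Lib.MP_77d991_gt.Ex
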