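import Pool.Agent.Lib.MP_77d991_gt.StarD

open MeasureTheory ProbabilityTheory Set
open scoped RealInnerProductSpace

/-! Definitions for the exact value of the infimum of mass* in large dimension. -/

namespace Pool.Agent.Lib.MP_77d991_gt.Ex

open Pool.Agent.Lib.MP_77d991_gt.As

/-- mean of the norm of a standard Gaussian vector. -/
noncomputable def ad (n : ℕ) : ℝ := ∫ g, ‖g‖ ∂stdGaussian (Eu n)

noncomputable def kap (n : ℕ) : ℝ := ad n / n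

/-- mean of the absolute value of a standard Gaussian variable. -/
noncomputable def alp : ℝ := ∫ t, |t| ∂gaussianReal 0 1

/-- uniform measure on the unit sphere. -/
noncomputable def sph (n : ℕ) : Measure (Eu n) := (stdGaussian (Eu n)).map nz

/-- law of one coordinate of a uniform unit vector in dimension `n + 1`. -/
noncomputable def tl (n : ℕ) : Measure ℝ := (sph (n + 1)).map fun u => u 0

variable {d : ℕ}

/-- standard basis vector. -/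
noncomputable def ee (i : Fin d) : Eu d := EuclideanSpace.single i 1

/-- projection on the hyperplane orthogonal to the unit vector `u`. -/
noncomputable def pj (u g : Eu d) : Eu d := g - ⟪g, u⟫ • u

/-- deviation of the field `x` from the field of the ball. -/
noncomputable def Nf (x : Eu d → Eu d) (y : Eu d) : Eu d := x y - nz y

noncomputable def bsq (x : Eu d → Eu d) : ℝ := ∫ u, ‖Nf x u‖ ^ 2 ∂sph d

noncomputable def mab (h : Eu d → ℝ) : ℝ := ∫ u, |h u - 1| ∂sph d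

/-- tangential part of the field at a unit vector. -/
noncomputable def tn (x : Eu d → Eu d) (z : Eu d) : Eu d := x z - ⟪x z, z⟫ • z

/-- measurable and bounded. -/
def Bm {α β : Type*} [MeasurableSpace α] [MeasurableSpace β] [Norm β] (F : α → β) (C : ℝ) : Prop :=
  Measurable F ∧ ∀ y, ‖F y‖ ≤ C

/-- mean of `F` over the great sphere orthogonal to `u`. -/
noncomputable def Fk (F : Eu d → ℝ) (u : Eu d) : ℝ :=
  ∫ g, F (nz (pj u g)) ∂stdGaussian (Eu d)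

noncomputable def dt (X : Fin d → Eu d) : ℝ := (Matrix.of fun i l => X i l).det

/-- minimal mean width position, normalised. -/
structure Pos (h : Eu d → ℝ) (x : Eu d → Eu d) (R : ℝ) : Prop where
  sel : Sel h x R
  iso : Iso x (kap d)

/-- the loss in dimension `d` is at most `L`. -/
def Good (d : ℕ) (L : ℝ) : Prop :=
  ∀ (m : ℕ) (v : Fin (m + 1) → Eu d) (w : ℝ), 0 < w →
    (∀ T : Eu d →L[ℝ] Eu d,
      (w * ad d) ^ d * |T.det| ≤ (∫ g, hV v (T g) ∂stdGaussian (Eu d)) ^ d) →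
    ∃ j : Fin d → Fin (m + 1), Real.exp (-L) * w ^ d ≤ |dt (v ∘ j)|

/-- the same for bodies in position, `R` being the exact radius. -/
def GoodP (d : ℕ) (L : ℝ) : Prop :=
  ∀ (m : ℕ) (v : Fin (m + 1) → Eu d) (x : Eu d → Eu d) (R : ℝ), Pos (hV v) x R →
    (∃ i, ‖v i‖ = R) → ∃ j : Fin d → Fin (m + 1), Real.exp (-L) ≤ |dt (v ∘ j)|

/-- a random isometry whose law is invariant under composition on the right. -/
structure Haar {Ω : Type} [MeasurableSpace Ω] (ν : Measure Ω)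
    (U : Ω → (Eu d ≃ₗᵢ[ℝ] Eu d)) : Prop where
  prob : IsProbabilityMeasure ν
  meas : Measurable fun p : Ω × Eu d => U p.1 p.2
  inv : ∀ (O : Eu d ≃ₗᵢ[ℝ] Eu d) (F : (ℕ → Eu d) → ℝ) (f : ℕ → Eu d),
    ∫ ω, F (fun i => U ω (O (f i))) ∂ν = ∫ ω, F (fun i => U ω (f i)) ∂ν

/-- the unit vector with inner product `t` with `e` in the plane of `e, e'`. -/
noncomputable def rot (e e' : Eu d) (t : ℝ) : Eu d := t • e + √(1 - t ^ 2) • e'

noncomputable def Lam1 {Ω : Type} [MeasurableSpace Ω] (ν : Measure Ω)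
    (U : Ω → (Eu d ≃ₗᵢ[ℝ] Eu d)) (x : Eu d → Eu d) (e e' : Eu d) (t : ℝ) : ℝ :=
  ∫ ω, ⟪tn x (U ω e), tn x (U ω (rot e e' t))⟫ ∂ν

noncomputable def Lam2 {Ω : Type} [MeasurableSpace Ω] (ν : Measure Ω)
    (U : Ω → (Eu d ≃ₗᵢ[ℝ] Eu d)) (x : Eu d → Eu d) (e e' : Eu d) (t : ℝ) : ℝ :=
  ∫ ω, ⟪tn x (U ω e), U ω e'⟫ *
    ⟪tn x (U ω (rot e e' t)), U ω (√(1 - t ^ 2) • e - t • e')⟫ ∂ν

/-- the pair terms of a random frame are controlled by `k`. -/
def QB (x : Eu d → Eu d) (k : ℝ) : Prop :=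
  ∀ (Ω : Type) (_ : MeasurableSpace Ω) (ν : Measure Ω) (U : Ω → (Eu d ≃ₗᵢ[ℝ] Eu d)), Haar ν U →
    ∀ (w : Eu d → ℝ), Bm w 2 → ∀ i0 i l : Fin d, i ≠ l →
      |∫ ω, w (U ω (ee i0)) *
        (⟪x (U ω (ee i)), U ω (ee l)⟫ * ⟪x (U ω (ee l)), U ω (ee i)⟫) ∂ν| ≤ k

/-- the map that contracts the direction `u` by the factor `σ`. -/
noncomputable def Gm (u : Eu d) (σ : ℝ) (g : Eu d) : Eu d := g + ((σ - 1) * ⟪g, u⟫) • u

/-- density of the centred Gaussian of variance `σ ^ 2` with respect to the standard one. -/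
noncomputable def rs (σ τ : ℝ) : ℝ := σ⁻¹ * Real.exp (-(τ ^ 2 * ((σ⁻¹) ^ 2 - 1) / 2))

noncomputable def clip (t : ℝ) : ℝ := max (-1) (min 1 t)

noncomputable def wt (u y g : Eu d) : ℝ := 1 - Real.sign ⟪g, u⟫ * clip ⟪g, y⟫

/-- diagonal entry of the certificate. -/
noncomputable def Aq (x : Eu d → Eu d) (u ν y : Eu d) (σ : ℝ) (c : Eu d) : ℝ :=
  ∫ g, wt u y g * (⟪x (Gm u σ g), c - ⟪ν, c⟫ • u⟫ * ⟪g, c⟫) ∂stdGaussian (Eu d)

/-- orthonormal basis of the hyperplane orthogonal to `u`. -/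
def Onb {r : ℕ} (u : Eu (r + 1)) (c : Fin r → Eu (r + 1)) : Prop :=
  Orthonormal ℝ c ∧ ∀ i, ⟪c i, u⟫ = 0

/-- the certificate has normalised trace at least `θ` and square sum at most `Z`. -/
def Cert {r : ℕ} (x : Eu (r + 1) → Eu (r + 1)) (u ν y : Eu (r + 1)) (σ θ Z : ℝ) : Prop :=
  ∀ c : Fin r → Eu (r + 1), Onb u c →
    θ ≤ ∑ i, (Aq x u ν y σ (c i) / kap r - 1) ∧ ∑ i, (Aq x u ν y σ (c i) / kap r - 1) ^ 2 ≤ Z

/-- a profile `β` with the quadratic polynomial that has the same first three moments. -/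
structure Prof (β : ℝ → ℝ) (σ c0 c1 c2 : ℝ) : Prop where
  meas : Measurable β
  bd : ∀ t, |β t| ≤ 1 + |t|
  pos : 0 < σ
  le : σ ≤ 1 / 4
  b0 : |c0| ≤ 2
  b1 : |c1| ≤ 2
  b2 : |c2| ≤ 2
  mom : ∀ k : ℕ, k ≤ 2 → ∫ t, β t * (σ * t) ^ k ∂gaussianReal 0 1 =
    ∫ t, (c0 + c1 * t + c2 * t ^ 2) * t ^ k ∂gaussianReal 0 1

/-- the profile minus its polynomial part, as a density. -/
noncomputable def Ar (β : ℝ → ℝ) (σ c0 c1 c2 τ : ℝ) : ℝ :=
  rs σ τ * β (τ / σ) - (c0 + c1 * τ + c2 * τ ^ 2)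

/-- a measurable family of profiles and tilt directions indexed by unit vectors. -/
structure Fam (β : ℝ → ℝ) (σ c0 c1 c2 : Eu d → ℝ) (b : ℝ) (p : Eu d → Eu d) (σ0 : ℝ) : Prop where
  prof : ∀ u, Prof β (σ u) (c0 u) (c1 u) (c2 u)
  ms : Measurable σ
  m0 : Measurable c0
  m1 : Measurable c1
  m2 : Measurable c2
  mp : Measurable p
  bb : |b| ≤ 1
  bp : ∀ u, ‖p u‖ ≤ 1
  perp : ∀ u, ‖u‖ = 1 → ⟪p u, u⟫ = 0
  s0 : 0 < σ0
  low : ∀ u, σ0 ≤ σ u

noncomputable def Y0 (F : Eu d → ℝ) (u : Eu d) (σ : ℝ) : Eu d :=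
  ∫ g, F (Gm u σ g) • pj u g ∂stdGaussian (Eu d)

noncomputable def Y1 (F : Eu d → ℝ) (u p : Eu d) (σ : ℝ) : Eu d :=
  ∫ g, (Real.sign ⟪g, u⟫ * ⟪g, p⟫ * F (Gm u σ g)) • pj u g ∂stdGaussian (Eu d)

noncomputable def y2 (F : Eu d → ℝ) (u : Eu d) (σ : ℝ) : ℝ :=
  ∫ g, ⟪g, u⟫ * F (Gm u σ g) ∂stdGaussian (Eu d)

/-- raw cubic moment. -/
noncomputable def T3 (F : Eu d → ℝ) (p q r : Eu d) : ℝ :=
  ∫ g, F g * (⟪g, p⟫ * ⟪g, q⟫ * ⟪g, r⟫) ∂stdGaussian (Eu d)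

/-- the three trace terms of the biased step for the field `x`. -/
noncomputable def trT (x : Eu d → Eu d) (u ν : Eu d) (ω σ : ℝ) : ℝ :=
  ω * ‖ν‖ * ∫ g, ⟪g, nz ν⟫ ^ 2 * Real.sign ⟪g, u⟫ * ⟪x (Gm u σ g), u⟫ ∂stdGaussian (Eu d) -
    2 * σ * ∫ g, ⟪g, u⟫ * ⟪x (Gm u σ g), u⟫ ∂stdGaussian (Eu d) -
    ∫ g, ⟪g, ν⟫ * ⟪x (Gm u σ g), u⟫ ∂stdGaussian (Eu d)

open Classical in
/-- slope of the oblique projection along `x u`. -/
noncomputable def nu (h : Eu d → ℝ) (x : Eu d → Eu d) (u : Eu d) : Eu d :=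
  if 1 / 2 ≤ h u then (h u)⁻¹ • tn x u else 0

/-- thickness used at `u`. -/
noncomputable def sg (h : Eu d → ℝ) (x : Eu d → Eu d) (ω σ0 : ℝ) (u : Eu d) : ℝ :=
  σ0 + alp / 32 * ω * min ‖nu h x u‖ 6

open Classical in
/-- field of the body with the dents filled. -/
noncomputable def xh (h : Eu d → ℝ) (x : Eu d → Eu d) (ρ : ℝ) (y : Eu d) : Eu d :=
  if ρ * ‖y‖ < h y then x y else ρ • nz y

end Pool.Agent.Lib.MP_77d991_gt.Ex
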