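import Pool.Agent.Lib.MP_77d991_gt.Ex.B7
import Pool.Agent.Lib.MP_77d991_gt.Ex.A3

open MeasureTheory ProbabilityTheory Set
open scoped RealInnerProductSpace

namespace Pool.Agent.Lib.MP_77d991_gt.Ex

open Pool.Agent.Lib.MP_77d991_gt.As

theorem e1_low {d m : ℕ} (v : Fin (m + 1) → Eu d) {a : ℝ} (ha : 0 < a)
    (H : ∀ T : Eu d →L[ℝ] Eu d, a * |T.det| ≤ (∫ g, hV v (T g) ∂stdGaussian (Eu d)) ^ d) :
    ∃ c : ℝ, 0 < c ∧ ∀ y, c * ‖y‖ ≤ hV v y := by
  let A : Eu d →ₗ[ℝ] (Fin (m + 1) → ℝ) := LinearMap.pi fun i => (innerSL ℝ (v i)).toLinearMap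
  have hA : ∀ y i, A y i = ⟪v i, y⟫ := fun y i => rfl
  have h1 : LinearMap.ker A = ⊥ := by
    refine LinearMap.ker_eq_bot'.2 fun y hy => by_contra fun h0 => ?_
    have h2 : 0 < ⟪y, y⟫ := real_inner_self_pos.2 h0
    obtain ⟨t, ht⟩ : ∃ t : ℝ, t = |(∫ g, hV v g ∂stdGaussian (Eu d)) ^ d| / (a * ⟪y, y⟫) := ⟨_, rfl⟩
    have h3 := H (LinearMap.toContinuousLinearMap
      (LinearMap.transvection (innerSL ℝ y).toLinearMap (t • y)))
    have h4 : ∀ g, hV v (LinearMap.toContinuousLinearMap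
        (LinearMap.transvection (innerSL ℝ y).toLinearMap (t • y)) g) = hV v g := fun g => by
      have h5 : ∀ i, ⟪v i, y⟫ = 0 := fun i => congrFun hy i
      simp [hV, LinearMap.transvection.apply, inner_add_right, inner_smul_right, h5]
    have h5 : (LinearMap.toContinuousLinearMap
        (LinearMap.transvection (innerSL ℝ y).toLinearMap (t • y))).det = 1 + t * ⟪y, y⟫ := by
      rw [ContinuousLinearMap.det, LinearMap.coe_toContinuousLinearMap,
        LinearMap.transvection.det, map_smul]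
      rfl
    have t0 : 0 ≤ t := by rw [ht]; positivity
    have h6 : a * (t * ⟪y, y⟫) = |(∫ g, hV v g ∂stdGaussian (Eu d)) ^ d| := by
      rw [ht]
      field_simp
    simp only [h4] at h3
    rw [h5, abs_of_nonneg (by positivity)] at h3
    linarith [le_abs_self ((∫ g, hV v g ∂stdGaussian (Eu d)) ^ d)]
  obtain ⟨K, hK, h2⟩ := A.exists_antilipschitzWith h1
  have hK' : (0 : ℝ) < K := hK
  refine ⟨(K : ℝ)⁻¹, by positivity, fun y => ?_⟩
  rw [inv_mul_le_iff₀ hK']
  refine (ZeroHomClass.bound_of_antilipschitz A h2 y).trans (mul_le_mul_of_nonneg_left ?_ hK'.le)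
  exact (pi_norm_le_iff_of_nonneg ((abs_nonneg _).trans (le_hV v 0 y))).2 fun i => le_hV v i y

/-- The hypothesis forces `c ‖y‖ ≤ hV v y` (otherwise stretch a null direction); `exists_pos`, rescale by
`ad d`, `trace_of_det`, `iso_of_trace`, `asmain_resel` with the maximal norm, `det_adjoint`; compare the
proof of `main_lower`. -/
theorem red {d : ℕ} (hd : 0 < d) {L : ℝ} (h : GoodP d L) : Good d L := by
  intro m v w hw H
  have had := ad_pos hd
  have hdpos : (0 : ℝ) < d := by exact_mod_cast hd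
  have hfr : Module.finrank ℝ (Eu d) = d := by simp
  obtain ⟨c, hc, hh⟩ := e1_low v (a := (w * ad d) ^ d) (by positivity) H
  obtain ⟨x, S⟩ := exists_sel v (R := ∑ i, ‖v i‖) fun i =>
    Finset.single_le_sum (f := fun i => ‖v i‖) (fun i _ => norm_nonneg _) (Finset.mem_univ i)
  obtain ⟨T, -, hT1, hT2⟩ := exists_pos S hc hh (by rw [hfr]; exact hd)
  have hVT : ∀ (U : Eu d →L[ℝ] Eu d) (y : Eu d),
      hV (fun i => ContinuousLinearMap.adjoint U (v i)) y = hV v (U y) := fun U y => by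
    simp only [hV, ContinuousLinearMap.adjoint_inner_left]
  obtain ⟨x₀, S₀⟩ := exists_sel (fun i => ContinuousLinearMap.adjoint T (v i)) fun i =>
    Finset.single_le_sum (f := fun i => ‖ContinuousLinearMap.adjoint T (v i)‖)
      (fun i _ => norm_nonneg _) (Finset.mem_univ i)
  obtain ⟨i₀, hi⟩ := Finite.exists_max fun i => ‖ContinuousLinearMap.adjoint (ad d • T) (v i)‖
  obtain ⟨x₁, S₁⟩ := exists_sel (fun i => ContinuousLinearMap.adjoint (ad d • T) (v i)) hi
  have hs : ∀ y, hV v ((ad d • T) y) = ad d * hV v (T y) := fun y => by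
    rw [smul_apply, S.h_smul, abs_of_pos had]
  have hI : Iso x₁ (kap d) := by
    refine iso_of_trace (EuclideanSpace.basisFun (Fin d) ℝ) _ S₁ ?_ fun U => ?_
    · simp only [hVT, hs]
      rw [integral_const_mul, hT1, Fintype.card_fin, kap]
      field_simp
    · have h1 := trace_of_det (EuclideanSpace.basisFun (Fin d) ℝ) S₀ (by simpa using hd)
        (by simp only [hVT]; exact hT1) (fun U => by simp only [hVT]; exact hT2 U) U
      simp only [hVT, hs, Fintype.card_fin] at h1 ⊢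
      rw [integral_const_mul, kap, div_eq_mul_one_div, mul_assoc]
      exact mul_le_mul_of_nonneg_left h1 had.le
  obtain ⟨j, hj⟩ := h m _ x₁ _ ⟨S₁, hI⟩ ⟨i₀, rfl⟩
  refine ⟨j, ?_⟩
  have h1 : dt ((fun i => ContinuousLinearMap.adjoint (ad d • T) (v i)) ∘ j) =
      (ad d • T).det * dt (v ∘ j) := det_adjoint (ad d • T) (v ∘ j)
  have h2 := H T
  rw [hT1, one_pow, mul_pow] at h2
  rw [h1, aspos_det_smul, hfr, abs_mul, abs_mul, abs_of_pos (pow_pos had d)] at hj
  calc _ ≤ ad d ^ d * |T.det| * |dt (v ∘ j)| * w ^ d := by gcongr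
    _ = w ^ d * ad d ^ d * |T.det| * |dt (v ∘ j)| := by ring
    _ ≤ 1 * |dt (v ∘ j)| := by gcongr
    _ = _ := one_mul _

theorem Good.mono {d : ℕ} {L L' : ℝ} (h : Good d L) (hL : L ≤ L') : Good d L' := by
  intro m v w hw H
  obtain ⟨j, hj⟩ := h m v w hw H
  exact ⟨j, le_trans (by gcongr) hj⟩

/-- `greedy_all` with `n = 0`. -/
theorem base {d : ℕ} (hd : 0 < d) : ∃ L, Good d L := by
  have hk : 0 < kap d := div_pos (ad_pos hd) (by exact_mod_cast hd)
  refine ⟨-Real.log ((kap d / 2) ^ d * √(d.factorial : ℝ)), red hd fun m v x R hP _ => ?_⟩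
  have h0 : gd (Fin.elim0 : Fin 0 → Eu d) (v ∘ Fin.elim0) = 1 := Matrix.det_isEmpty
  obtain ⟨j, hj⟩ := greedy_all v hP.sel hP.iso hk d 0 (zero_add d) Fin.elim0
    (orthonormal_iff_ite.2 fun i => i.elim0) Fin.elim0 (by rw [h0]; exact one_ne_zero)
  rw [h0, abs_one, one_mul] at hj
  exact ⟨j, by rw [neg_neg, Real.exp_log (by positivity)]; exact hj⟩

end Pool.Agent.Lib.MP_77d991_gt.Ex
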