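import Pool.Agent.Lib.MP_77d991_gt.Ex.B7
import Pool.Agent.Lib.MP_77d991_gt.Ex.A6

open MeasureTheory ProbabilityTheory Set
open scoped RealInnerProductSpace

namespace Pool.Agent.Lib.MP_77d991_gt.Ex

open Pool.Agent.Lib.MP_77d991_gt.As

theorem e2_dt {n : ℕ} (A B : Fin n → Eu n) :
    dt A * dt B = (Matrix.of fun i k => ⟪A i, B k⟫).det := by
  unfold dt
  rw [← Matrix.det_transpose (Matrix.of fun i l => B i l), ← Matrix.det_mul]
  congr 1
  ext i k
  simp [Matrix.mul_apply, PiLp.inner_apply, mul_comm]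

theorem e2_norm {n k : ℕ} {c : Fin k → Eu n} (hc : Orthonormal ℝ c) (a : Fin k → ℝ) :
    ‖∑ i, a i • c i‖ ^ 2 = ∑ i, a i ^ 2 := by
  rw [← real_inner_self_eq_norm_sq, hc.inner_sum]
  simp [sq]

theorem e2_meas {n m : ℕ} (v : Fin (m + 1) → Eu n) : Measurable (hV v) :=
  Measurable.iSup fun i => by fun_prop

theorem e2_law {r n : ℕ} {c : Fin r → Eu n} (hc : Orthonormal ℝ c)
    (b : OrthonormalBasis (Fin r) ℝ (Eu r)) (A : Eu r →L[ℝ] Eu n) {F : Eu n → ℝ}
    (hF : Measurable F) : ∫ g, F (A g) ∂stdGaussian (Eu r) =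
      ∫ g, F (∑ i, ⟪g, c i⟫ • A (b i)) ∂stdGaussian (Eu n) := by
  set B : Eu n →L[ℝ] Eu n := ∑ i, (innerSL ℝ (c i)).smulRight (A (b i)) with hB
  have hB' : ∀ g, B g = ∑ i, ⟪g, c i⟫ • A (b i) := fun g => by simp [hB, real_inner_comm]
  have hlaw := law1 A B fun φ => by
    have h1 : φ.comp B = innerSL ℝ (∑ i, φ (A (b i)) • c i) := by
      ext g
      rw [ContinuousLinearMap.comp_apply, hB', map_sum, innerSL_apply_apply, sum_inner]
      refine Finset.sum_congr rfl fun i _ => ?_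
      rw [map_smul, real_inner_smul_left, real_inner_comm, smul_eq_mul, mul_comm]
    rw [b.norm_dual, h1, innerSL_apply_norm, e2_norm hc]
    rfl
  rw [← integral_map A.continuous.aemeasurable hF.aestronglyMeasurable, hlaw,
    integral_map B.continuous.aemeasurable hF.aestronglyMeasurable]
  simp only [hB']

theorem e2_svd {r : ℕ} (T : Eu r →L[ℝ] Eu r) (hT : T.det ≠ 0) :
    ∃ (b : OrthonormalBasis (Fin r) ℝ (Eu r)) (c : Fin r → Eu r) (lam : Fin r → ℝ),
      Orthonormal ℝ c ∧ (∀ i, 0 ≤ lam i) ∧ (∀ i, T (b i) = lam i • c i) ∧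
        |T.det| = ∏ i, lam i := by
  obtain ⟨b, hb⟩ := exists_svd T
  have e1 : b.toBasis.det (fun i => T (b i)) = T.det := by
    have := b.toBasis.det_comp (T : Eu r →ₗ[ℝ] Eu r) b.toBasis
    rw [Module.Basis.det_self, mul_one] at this
    exact this
  have h0 : ∀ i, T (b i) ≠ 0 := fun i h =>
    hT (e1 ▸ b.toBasis.det.map_coord_zero (m := fun i => T (b i)) i h)
  have hc : Orthonormal ℝ fun i => ‖T (b i)‖⁻¹ • T (b i) :=
    ⟨fun i => norm_smul_inv_norm (h0 i), fun i j hij => by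
      simp only [inner_smul_left, inner_smul_right, hb i j hij, mul_zero]⟩
  have e2 : ∀ i, T (b i) = ‖T (b i)‖ • ‖T (b i)‖⁻¹ • T (b i) := fun i =>
    (smul_inv_smul₀ (norm_ne_zero_iff.2 (h0 i)) _).symm
  refine ⟨b, _, fun i => ‖T (b i)‖, hc, fun i => norm_nonneg _, e2, ?_⟩
  let c : OrthonormalBasis (Fin r) ℝ (Eu r) := OrthonormalBasis.mk hc
    (hc.linearIndependent.span_eq_top_of_card_eq_finrank' (by simp)).ge
  have e3 : |b.toBasis.det fun i => ‖T (b i)‖⁻¹ • T (b i)| = 1 := by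
    have := b.det_to_matrix_orthonormalBasis_real c
    rw [OrthonormalBasis.coe_mk] at this
    rcases this with h | h <;> rw [h] <;> simp
  rw [← e1, funext e2, AlternatingMap.map_smul_univ, smul_eq_mul, abs_mul, e3, mul_one,
    abs_of_nonneg (Finset.prod_nonneg fun i _ => norm_nonneg _)]

theorem e2_det {r : ℕ} {u X : Eu (r + 1)} (hu : ‖u‖ = 1) (J : Eu r →ₗᵢ[ℝ] Eu (r + 1))
    (hJ : ∀ s, ⟪J s, u⟫ = 0) (H : Eu r →L[ℝ] Eu (r + 1)) (a : Eu r → ℝ)
    (hH : ∀ s, H s = J s - a s • u) (hX : ∀ s, ⟪X, H s⟫ = 0) (w : Fin r → Eu (r + 1)) :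
    |dt (Fin.cons X w)| = |⟪X, u⟫| * |dt fun i => H.adjoint (w i)| := by
  have hee : (Matrix.of fun i k : Fin r => ⟪ee i, ee k⟫) = 1 := by
    ext i k
    simp [ee, EuclideanSpace.inner_single_left, Matrix.one_apply]
  have h1 : dt (Fin.cons u fun k => J (ee k)) * dt (Fin.cons u fun k => J (ee k)) = 1 := by
    rw [e2_dt, Matrix.det_succ_column_zero, Fin.sum_univ_succ]
    simp [hJ, hu, Matrix.submatrix, hee]
  have h2 : dt (Fin.cons u fun k => J (ee k)) * dt (Fin.cons u fun k => H (ee k)) = 1 := by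
    rw [e2_dt, Matrix.det_succ_column_zero, Fin.sum_univ_succ]
    simp [hJ, hu, Matrix.submatrix, hee, hH, inner_sub_right, inner_smul_right]
  have h3 : dt (Fin.cons X w) * dt (Fin.cons u fun k => H (ee k)) =
      ⟪X, u⟫ * dt fun i => H.adjoint (w i) := by
    rw [e2_dt, Matrix.det_succ_row_zero, Fin.sum_univ_succ]
    have : (Matrix.of fun i l => H.adjoint (w i) l) = Matrix.of fun i k => ⟪w i, H (ee k)⟫ := by
      ext i k
      simp [← ContinuousLinearMap.adjoint_inner_left, ee, EuclideanSpace.inner_single_right]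
    simp [hX, Matrix.submatrix, dt, this]
  have h4 : |dt (Fin.cons u fun k => H (ee k))| = 1 := by
    rcases mul_self_eq_one_iff.1 h1 with h | h <;> rw [h] at h2
    · rw [one_mul] at h2
      rw [h2, abs_one]
    · rw [neg_one_mul, neg_eq_iff_eq_neg] at h2
      rw [h2, abs_neg, abs_one]
  rw [← abs_mul, ← h3, abs_mul, h4, mul_one]

/-- `J` onto `u^⊥`, `H s = J s - (⟪X, J s⟫/η) u`, `v' i = H^* (v i)`, `hV v' s = hV v (H s)`. For a map `T`
with nonzero determinant `exists_svd` gives `T b_i = lam_i c_i`; `law1` turns the mean of `hV v' (T g)`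
into the mean in the hypothesis; `|det T| = ∏ lam_i`. Use `Good r L` with `w = exp (G / r)`; the
determinant of the rows `X, v (j 1), ...` is `± η det (v' ∘ j)`; `vertex`. -/
theorem step_geo {r m : ℕ} (hr : 0 < r) {L G : ℝ} (hG : Good r L) (v : Fin (m + 1) → Eu (r + 1))
    {u X : Eu (r + 1)} (hu : ‖u‖ = 1) (hX : ∀ y, ⟪X, y⟫ ≤ hV v y) (hη : 0 < ⟪X, u⟫)
    (hc : ∀ c : Fin r → Eu (r + 1), Onb u c → ∀ lam : Fin r → ℝ, (∀ i, 0 ≤ lam i) →
      ad r ^ r * Real.exp G * ∏ i, lam i ≤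
        (∫ g, hV v (∑ i, (lam i * ⟪g, c i⟫) • (c i - (⟪X, c i⟫ / ⟪X, u⟫) • u))
          ∂stdGaussian (Eu (r + 1))) ^ r) :
    ∃ j : Fin (r + 1) → Fin (m + 1), Real.exp (-L + G) * ⟪X, u⟫ ≤ |dt (v ∘ j)| := by
  obtain ⟨J, hJ, -⟩ := exists_J (n := r) (k := 1) (fun _ => u)
    ⟨fun _ => hu, fun i j h => absurd (Subsingleton.elim i j) h⟩
  have hJ0 : ∀ s, ⟪J s, u⟫ = 0 := fun s => hJ s 0
  set H : Eu r →L[ℝ] Eu (r + 1) := J.toContinuousLinearMap -
    (⟪X, u⟫⁻¹ • (innerSL ℝ X).comp J.toContinuousLinearMap).smulRight u with hH0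
  have hH : ∀ s, H s = J s - (⟪X, J s⟫ / ⟪X, u⟫) • u := fun s => by
    simp [hH0, div_eq_inv_mul]
  have hXH : ∀ s, ⟪X, H s⟫ = 0 := fun s => by
    rw [hH, inner_sub_right, inner_smul_right, div_mul_cancel₀ _ hη.ne', sub_self]
  have hv : ∀ s, hV (fun i => H.adjoint (v i)) s = hV v (H s) := fun s => by
    simp only [hV, ContinuousLinearMap.adjoint_inner_left]
  have hw : Real.exp (G / r) ^ r = Real.exp G := by
    rw [← Real.exp_nat_mul, mul_div_cancel₀ _ (Nat.cast_ne_zero.2 hr.ne')]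
  obtain ⟨j, hj⟩ := hG m (fun i => H.adjoint (v i)) (Real.exp (G / r)) (Real.exp_pos _) fun T => by
    by_cases hT : T.det = 0
    · rw [hT, abs_zero, mul_zero]
      exact pow_nonneg (integral_nonneg fun g => (abs_nonneg _).trans (le_hV _ 0 _)) _
    obtain ⟨b, c, lam, h1, h2, h3, h4⟩ := e2_svd T hT
    have h5 := e2_law (h1.comp_linearIsometry J) b (H.comp T) (e2_meas v)
    simp only [ContinuousLinearMap.comp_apply, h3, map_smul, smul_smul, Function.comp] at h5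
    simp only [hv]
    rw [h5, h4, mul_pow, hw, mul_comm (Real.exp G)]
    refine (hc (fun i => J (c i)) ⟨h1.comp_linearIsometry J, fun i => hJ0 _⟩ lam h2).trans_eq ?_
    simp only [hH, mul_comm]
  obtain ⟨j', hj'⟩ := vertex v (Fin.cons X (v ∘ j)) fun i y => by
    refine Fin.cases (hX y) (fun i => ?_) i
    exact (le_abs_self _).trans (le_hV v _ y)
  refine ⟨j', le_trans ?_ hj'⟩
  rw [e2_det hu J hJ0 H _ hH hXH, abs_of_pos hη, Real.exp_add, ← hw, mul_comm]
  exact mul_le_mul_of_nonneg_left hj hη.le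

end Pool.Agent.Lib.MP_77d991_gt.Ex
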