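import Pool.Agent.Lib.MP_77d991_gt.Ex.E2
import Pool.Agent.Lib.MP_77d991_gt.Ex.B2

open MeasureTheory ProbabilityTheory Set
open scoped RealInnerProductSpace

namespace Pool.Agent.Lib.MP_77d991_gt.Ex

open Pool.Agent.Lib.MP_77d991_gt.As

theorem e3_clip_abs (t : ℝ) : |clip t| ≤ 1 := by
  unfold clip
  rw [abs_le]
  exact ⟨le_max_left _ _, max_le (by norm_num) (min_le_left _ _)⟩

theorem e3_tilt_abs {d : ℕ} (u y g : Eu d) : |Real.sign ⟪g, u⟫ * clip ⟪g, y⟫| ≤ 1 := by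
  rw [abs_mul]
  exact mul_le_one₀ (assel_sign_abs _) (abs_nonneg _) (e3_clip_abs _)

theorem e3_tilt_meas {d : ℕ} (u y : Eu d) :
    Measurable fun g : Eu d => Real.sign ⟪g, u⟫ * clip ⟪g, y⟫ := by
  refine (assel_sign_meas.comp (by fun_prop)).mul ?_
  unfold clip
  fun_prop

theorem e3_wt_meas {d : ℕ} (u y : Eu d) : Measurable (wt u y) :=
  measurable_const.sub (e3_tilt_meas u y)

theorem e3_wt_bd {d : ℕ} (u y g : Eu d) : 0 ≤ wt u y g ∧ wt u y g ≤ 2 := by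
  have := abs_le.1 (e3_tilt_abs u y g)
  unfold wt
  constructor <;> linarith [this.1, this.2]

/-- the reflection in the hyperplane orthogonal to a unit vector. -/
theorem e3_refl {d : ℕ} (u : Eu d) :
    ∃ O : Eu d ≃ₗᵢ[ℝ] Eu d, (∀ g, ⟪O g, u⟫ = -⟪g, u⟫) ∧ ∀ g c, ⟪c, u⟫ = 0 → ⟪O g, c⟫ = ⟪g, c⟫ := by
  refine ⟨(ℝ ∙ u)ᗮ.reflection, fun g => ?_, fun g c hc => ?_⟩
  · have h1 : (ℝ ∙ u)ᗮ.reflection u = -u := Submodule.reflection_orthogonalComplement_singleton_eq_neg u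
    have h2 := (ℝ ∙ u)ᗮ.reflection.inner_map_map g u
    rw [h1, inner_neg_right] at h2
    linarith
  · have h1 : (ℝ ∙ u)ᗮ.reflection c = c :=
      Submodule.reflection_mem_subspace_eq_self
        (Submodule.mem_orthogonal_singleton_iff_inner_left.2 hc)
    have h2 := (ℝ ∙ u)ᗮ.reflection.inner_map_map g c
    rwa [h1] at h2

/-- the weight does not change the mean of a function that is even under the reflection. -/
theorem e3_wt_mean {d : ℕ} {u y : Eu d} (hy : ⟪y, u⟫ = 0) {F : Eu d → ℝ}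
    (hF : Integrable F (stdGaussian (Eu d)))
    (hO : ∀ O : Eu d ≃ₗᵢ[ℝ] Eu d, (∀ g c, ⟪c, u⟫ = 0 → ⟪O g, c⟫ = ⟪g, c⟫) → ∀ g, F (O g) = F g) :
    Integrable (fun g => wt u y g * F g) (stdGaussian (Eu d)) ∧
      ∫ g, wt u y g * F g ∂stdGaussian (Eu d) = ∫ g, F g ∂stdGaussian (Eu d) := by
  obtain ⟨O, h1, h2⟩ := e3_refl u
  have i1 : Integrable (fun g => (Real.sign ⟪g, u⟫ * clip ⟪g, y⟫) * F g) (stdGaussian (Eu d)) :=
    hF.bdd_mul (c := 1) (e3_tilt_meas u y).aestronglyMeasurable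
      (Filter.Eventually.of_forall fun g => e3_tilt_abs u y g)
  have e : (fun g => wt u y g * F g) =
      fun g => F g - (Real.sign ⟪g, u⟫ * clip ⟪g, y⟫) * F g := by
    funext g
    unfold wt
    ring
  have z : ∫ g, (Real.sign ⟪g, u⟫ * clip ⟪g, y⟫) * F g ∂stdGaussian (Eu d) = 0 := by
    have h3 := integral_comp_iso O fun g => (Real.sign ⟪g, u⟫ * clip ⟪g, y⟫) * F g
    have h4 : (fun g => (Real.sign ⟪O g, u⟫ * clip ⟪O g, y⟫) * F (O g)) =
        fun g => -((Real.sign ⟪g, u⟫ * clip ⟪g, y⟫) * F g) := by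
      funext g
      rw [h1, h2 g y hy, hO O h2 g, Real.sign_neg]
      ring
    rw [h4, integral_neg] at h3
    linarith
  rw [e]
  exact ⟨hF.sub i1, by rw [integral_sub hF i1, z, sub_zero]⟩

theorem e3_int_Aq {d : ℕ} {h : Eu d → ℝ} {x : Eu d → Eu d} {R : ℝ} (S : Sel h x R)
    (u y c c' : Eu d) (σ : ℝ) :
    Integrable (fun g => wt u y g * (⟪x (Gm u σ g), c'⟫ * ⟪g, c⟫)) (stdGaussian (Eu d)) := by
  have hG : Measurable (Gm u σ : Eu d → Eu d) := by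
    unfold Gm
    fun_prop
  have hx : Measurable fun g => x (Gm u σ g) := S.meas.comp hG
  have hw := e3_wt_meas u y
  refine Integrable.mono' ((integrable_norm_pow 1).const_mul (2 * (R * ‖c'‖ * ‖c‖)))
    (Measurable.aestronglyMeasurable (hw.mul ((hx.inner measurable_const).mul (by fun_prop))))
    (Filter.Eventually.of_forall fun g => ?_)
  have hR := S.R_nonneg
  have b1 : ‖wt u y g‖ ≤ 2 := by
    rw [Real.norm_of_nonneg (e3_wt_bd u y g).1]
    exact (e3_wt_bd u y g).2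
  have b2 : ‖⟪x (Gm u σ g), c'⟫‖ ≤ R * ‖c'‖ :=
    (norm_inner_le_norm _ _).trans (mul_le_mul_of_nonneg_right (S.bdd _) (norm_nonneg _))
  have b3 : ‖⟪g, c⟫‖ ≤ ‖g‖ * ‖c‖ := norm_inner_le_norm _ _
  rw [norm_mul, norm_mul, pow_one]
  calc _ ≤ 2 * ((R * ‖c'‖) * (‖g‖ * ‖c‖)) :=
        mul_le_mul b1 (mul_le_mul b2 b3 (norm_nonneg _) (by positivity)) (by positivity)
          (by norm_num)
    _ = _ := by ring

theorem e3_kap_pos {r : ℕ} (hr : 0 < r) : 0 < kap r :=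
  div_pos (ad_pos hr) (by exact_mod_cast hr)

/-- `∑ lam_i Aq(c_i) = ∫ wt ⟪x(G), y⟫ ≤ ∫ wt h(y) = ∫ h(y)`; the last step by the reflection
`g ↦ g - 2⟪g,u⟫u`, which fixes `y` and changes `wt` into `2 - wt`. Then `amgm`, `step_geo`. -/
theorem step_cert {r m : ℕ} (hr : 0 < r) {L θ Z σ R : ℝ} (hG : Good r L)
    (v : Fin (m + 1) → Eu (r + 1)) {x : Eu (r + 1) → Eu (r + 1)} (S : Sel (hV v) x R)
    {u X ν y : Eu (r + 1)} (hu : ‖u‖ = 1) (hX : ∀ y, ⟪X, y⟫ ≤ hV v y) (hη : 0 < ⟪X, u⟫)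
    (hν : ∀ c, ⟪c, u⟫ = 0 → ⟪ν, c⟫ = ⟪X, c⟫ / ⟪X, u⟫) (hy : ⟪y, u⟫ = 0) (hZ : Z ≤ 1 / 4)
    (hc : Cert x u ν y σ θ Z) :
    ∃ j : Fin (r + 1) → Fin (m + 1), Real.exp (-L + (θ - Z)) * ⟪X, u⟫ ≤ |dt (v ∘ j)| := by
  refine step_geo hr hG v hu hX hη fun c hcu lam hl => ?_
  obtain ⟨h1, h2⟩ := hc c hcu
  have hk : (r : ℝ) * kap r = ad r := by
    have : (r : ℝ) ≠ 0 := by exact_mod_cast hr.ne'
    unfold kap
    field_simp
  rw [← hk]
  refine amgm hr (e3_kap_pos hr) (fun i => Aq x u ν y σ (c i)) lam hl h1 h2 hZ ?_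
  set p : Fin r → Eu (r + 1) := fun i => c i - (⟪X, c i⟫ / ⟪X, u⟫) • u with hp
  let T : Eu (r + 1) →L[ℝ] Eu (r + 1) :=
    ∑ i, ((lam i) • innerSL ℝ (c i)).smulRight (p i)
  have hT : ∀ g, T g = ∑ i, (lam i * ⟪g, c i⟫) • p i := fun g => by
    simp only [T, _root_.sum_apply, ContinuousLinearMap.smulRight_apply,
      _root_.smul_apply, innerSL_apply_apply, smul_eq_mul]
    exact Finset.sum_congr rfl fun i _ => by rw [real_inner_comm]
  have iF : Integrable (fun g => hV v (∑ i, (lam i * ⟪g, c i⟫) • p i))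
      (stdGaussian (Eu (r + 1))) := by
    simpa only [hT] using S.integrable_lin T
  obtain ⟨i1, e1⟩ := e3_wt_mean hy iF fun O hO g => by
    simp only [fun i => hO g (c i) (hcu.2 i)]
  have e2 : ∑ i, lam i * Aq x u ν y σ (c i) =
      ∫ g, ∑ i, lam i * (wt u y g * (⟪x (Gm u σ g), p i⟫ * ⟪g, c i⟫))
        ∂stdGaussian (Eu (r + 1)) := by
    rw [integral_finsetSum _ fun i _ => (e3_int_Aq S u y (c i) (p i) σ).const_mul _]
    refine Finset.sum_congr rfl fun i _ => ?_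
    rw [integral_const_mul, Aq, hν _ (hcu.2 i)]
  rw [e2]
  refine le_trans (integral_mono (integrable_finsetSum _ fun i _ =>
    (e3_int_Aq S u y (c i) (p i) σ).const_mul _) i1 fun g => ?_) e1.le
  have e3 : ∑ i, lam i * (wt u y g * (⟪x (Gm u σ g), p i⟫ * ⟪g, c i⟫)) =
      wt u y g * ⟪x (Gm u σ g), ∑ i, (lam i * ⟪g, c i⟫) • p i⟫ := by
    rw [inner_sum, Finset.mul_sum]
    refine Finset.sum_congr rfl fun i _ => ?_
    rw [inner_smul_right]
    ring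
  exact e3.le.trans (mul_le_mul_of_nonneg_left (S.le _ _) (e3_wt_bd u y g).1)

theorem e3_ratio {r : ℕ} (hr : 0 < r) :
    -(1 / ((r : ℝ) + 1)) ≤ kap (r + 1) / kap r - 1 ∧ kap (r + 1) / kap r - 1 ≤ 0 := by
  have h0 : (1 : ℝ) ≤ r := by exact_mod_cast hr
  have ha := ad_pos hr
  have hm := ad_mul r
  have h1 := ad_sq_le r
  have h2 := ad_sq_ge r
  have e : kap (r + 1) / kap r = (r : ℝ) ^ 2 / (ad r ^ 2 * (r + 1)) := by
    have e1 : ad (r + 1) = r / ad r := by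
      rw [eq_div_iff ha.ne']
      linarith
    unfold kap
    rw [e1]
    push_cast
    field_simp
  have hp : 0 < ad r ^ 2 * ((r : ℝ) + 1) := by positivity
  rw [e]
  constructor
  · have : (r : ℝ) / (r + 1) ≤ (r : ℝ) ^ 2 / (ad r ^ 2 * (r + 1)) := by
      rw [div_le_div_iff₀ (by positivity) hp]
      have : 0 ≤ (r : ℝ) * (r + 1) := by positivity
      nlinarith
    have e2 : (r : ℝ) / (r + 1) = 1 - 1 / (r + 1) := by field_simp; ring
    linarith
  · have : (r : ℝ) ^ 2 / (ad r ^ 2 * (r + 1)) ≤ 1 := by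
      rw [div_le_one hp]
      nlinarith
    linarith

theorem e3_Aq_flat {d : ℕ} {h : Eu d → ℝ} {x : Eu d → Eu d} {R : ℝ} (P : Pos h x R)
    (u : Eu d) {c : Eu d} (hc : ‖c‖ = 1) : Aq x u 0 0 1 c = kap d := by
  have e : (fun g => wt u 0 g * (⟪x (Gm u 1 g), c - ⟪(0 : Eu d), c⟫ • u⟫ * ⟪g, c⟫)) =
      fun g => ⟪c, ⟪g, c⟫ • x g⟫ := by
    funext g
    simp only [wt, Gm, clip, inner_zero_right, inner_zero_left, zero_smul, sub_zero, sub_self,
      zero_mul, add_zero, inner_smul_right]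
    rw [real_inner_comm c (x g)]
    norm_num
    ring
  rw [Aq, e, integral_inner (P.sel.integrable_smul c), P.iso, inner_smul_right,
    real_inner_self_eq_norm_sq, hc]
  ring

/-- `σ = 1`, `ν = y = 0`, `u` the direction of the farthest vertex: `Aq = kap (r+1)` by `Iso`;
`z = kap (r+1) / kap r - 1` lies in `[-1/(r+1), 1/r]`. -/
theorem univ : ∃ r0 : ℕ, ∀ r ≥ r0, ∀ (L : ℝ), Good r L → ∀ (m : ℕ) (v : Fin (m + 1) → Eu (r + 1))
    (x : Eu (r + 1) → Eu (r + 1)) (R : ℝ), Pos (hV v) x R → (∃ i, ‖v i‖ = R) →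
      ∃ j : Fin (r + 1) → Fin (m + 1), Real.exp (-L - 21 / 20) * R ≤ |dt (v ∘ j)| := by
  refine ⟨20, fun r hr L hG m v x R hP ⟨i, hi⟩ => ?_⟩
  have hr0 : 0 < r := by omega
  have hr20 : (20 : ℝ) ≤ r := by exact_mod_cast hr
  have hR : 0 < R := lt_of_lt_of_le one_pos (hP.one_le (Nat.succ_pos r))
  have hu : ‖R⁻¹ • v i‖ = 1 := by
    rw [norm_smul, hi, Real.norm_of_nonneg (inv_pos.2 hR).le, inv_mul_cancel₀ hR.ne']
  have hη : ⟪v i, R⁻¹ • v i⟫ = R := by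
    rw [inner_smul_right, real_inner_self_eq_norm_sq, hi]
    field_simp
  have hC : Cert x (R⁻¹ • v i) 0 0 1 (-1) (1 / 20) := fun c hc => by
    have e : ∀ k, Aq x (R⁻¹ • v i) 0 0 1 (c k) = kap (r + 1) := fun k =>
      e3_Aq_flat hP _ (hc.1.1 k)
    obtain ⟨h1, h2⟩ := e3_ratio hr0
    simp only [e, Finset.sum_const, Finset.card_univ, Fintype.card_fin, nsmul_eq_mul]
    set z := kap (r + 1) / kap r - 1 with hz
    have h3 : -1 ≤ z * ((r : ℝ) + 1) := by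
      have := mul_le_mul_of_nonneg_right h1 (by positivity : (0 : ℝ) ≤ (r : ℝ) + 1)
      have e4 : -(1 / ((r : ℝ) + 1)) * ((r : ℝ) + 1) = -1 := by field_simp
      linarith
    have h4 : -1 ≤ (r : ℝ) * z := by nlinarith
    have h5 : -(1 / 20) ≤ z := by nlinarith
    constructor
    · exact h4
    · nlinarith
  obtain ⟨j, hj⟩ := step_cert hr0 hG v hP.sel hu (fun y => (le_abs_self _).trans (le_hV v i y))
    (by rw [hη]; exact hR)
    (fun c hc => by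
      rw [inner_smul_right] at hc
      have h0 : ⟪v i, c⟫ = 0 := by
        rw [real_inner_comm]
        exact (mul_eq_zero.1 hc).resolve_left (inv_pos.2 hR).ne'
      rw [inner_zero_left, h0, zero_div])
    (inner_zero_left _) (by norm_num) hC
  refine ⟨j, le_trans (le_of_eq ?_) hj⟩
  rw [hη]
  congr 2
  ring

end Pool.Agent.Lib.MP_77d991_gt.Ex
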