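import Pool.Agent.Lib.MP_77d991_gt.Ex.A6
import Pool.Agent.Lib.MP_77d991_gt.Ex.B2

open MeasureTheory ProbabilityTheory Set
open scoped RealInnerProductSpace

namespace Pool.Agent.Lib.MP_77d991_gt.Ex

open Pool.Agent.Lib.MP_77d991_gt.As

theorem e4_prod {r : ℕ} {u : Eu (r + 1)} (hu : ‖u‖ = 1) (J : Eu r →ₗᵢ[ℝ] Eu (r + 1))
    (hJ : ∀ s, ⟪J s, u⟫ = 0) {a : ℝ → ℝ} {b : Eu (r + 1) → ℝ} (ma : Measurable a)
    (mb : Measurable b) (ia : Integrable a (gaussianReal 0 1))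
    (ib : Integrable (fun s => b (J s)) (stdGaussian (Eu r))) :
    Integrable (fun g => a ⟪g, u⟫ * b (pj u g)) (stdGaussian (Eu (r + 1))) ∧
      ∫ g, a ⟪g, u⟫ * b (pj u g) ∂stdGaussian (Eu (r + 1)) =
        (∫ t, a t ∂gaussianReal 0 1) * ∫ s, b (J s) ∂stdGaussian (Eu r) := by
  have hΦ : Measurable fun g : Eu (r + 1) => (⟪g, u⟫, pj u g) := by
    unfold pj
    fun_prop
  have hF : Measurable fun z : ℝ × Eu (r + 1) => a z.1 * b z.2 :=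
    (ma.comp measurable_fst).mul (mb.comp measurable_snd)
  have mJ : AEMeasurable J (stdGaussian (Eu r)) := J.continuous.measurable.aemeasurable
  have ib' : Integrable b ((stdGaussian (Eu r)).map J) :=
    (integrable_map_measure mb.aestronglyMeasurable mJ).2 ib
  have h1 := ia.mul_prod ib'
  have h2 := integral_prod_mul (μ := gaussianReal 0 1) (ν := (stdGaussian (Eu r)).map J) a b
  rw [← split hu J hJ] at h1 h2
  rw [integral_map hΦ.aemeasurable hF.aestronglyMeasurable,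
    integral_map mJ mb.aestronglyMeasurable] at h2
  exact ⟨(integrable_map_measure hF.aestronglyMeasurable hΦ.aemeasurable).1 h1, h2⟩

theorem e4_J {r : ℕ} {u : Eu (r + 1)} (hu : ‖u‖ = 1) : ∃ J : Eu r →ₗᵢ[ℝ] Eu (r + 1),
    (∀ s, ⟪J s, u⟫ = 0) ∧ ∀ y, ⟪y, u⟫ = 0 → ∃ s, J s = y := by
  obtain ⟨J, h1, h2⟩ := exists_J (n := r) (k := 1) (fun _ => u)
    ⟨fun _ => hu, fun i j h => (h (Subsingleton.elim i j)).elim⟩
  exact ⟨J, fun s => h1 s 0, fun y hy => h2 y fun _ => hy⟩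

theorem e4_pj {d : ℕ} {u c : Eu d} (hc : ⟪c, u⟫ = 0) (g : Eu d) : ⟪pj u g, c⟫ = ⟪g, c⟫ := by
  rw [pj, inner_sub_left, real_inner_smul_left, real_inner_comm c u, hc, mul_zero, sub_zero]

theorem e4_abs (k : ℕ) : Integrable (fun t : ℝ => |t| ^ k) (gaussianReal 0 1) :=
  (memLp_id_gaussianReal' (μ := 0) (v := 1) k (ENNReal.natCast_ne_top k)).integrable_norm_pow'

theorem e4_quad {r : ℕ} (hr : 0 < r) {u c : Eu (r + 1)} (hu : ‖u‖ = 1) (hc : ⟪c, u⟫ = 0)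
    {a : ℝ → ℝ} (ma : Measurable a) (ia : Integrable a (gaussianReal 0 1)) :
    Integrable (fun g => a ⟪g, u⟫ * (⟪g, c⟫ ^ 2 * ‖pj u g‖⁻¹)) (stdGaussian (Eu (r + 1))) ∧
      ∫ g, a ⟪g, u⟫ * (⟪g, c⟫ ^ 2 * ‖pj u g‖⁻¹) ∂stdGaussian (Eu (r + 1)) =
        (∫ t, a t ∂gaussianReal 0 1) * (kap r * ‖c‖ ^ 2) := by
  obtain ⟨J, h1, h2⟩ := e4_J hu
  obtain ⟨w, rfl⟩ := h2 c hc
  have e : (fun s => ⟪J s, J w⟫ ^ 2 * ‖J s‖⁻¹) = fun s => ⟪w, ⟪s, w⟫ • nz s⟫ := funext fun s => by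
    rw [J.inner_map_map, J.norm_map, nz, real_inner_smul_right, real_inner_smul_right,
      real_inner_comm s w]
    ring
  have i1 := (sel_nz (d := r)).integrable_smul w
  have h3 := e4_prod hu J h1 (b := fun y => ⟪y, J w⟫ ^ 2 * ‖y‖⁻¹) ma (by fun_prop) ia
    (by rw [e]; exact i1.const_inner w)
  rw [e, integral_inner i1, iso_nz hr w, real_inner_smul_right, real_inner_self_eq_norm_sq,
    ← J.norm_map w] at h3
  simpa only [e4_pj hc] using h3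

/-- Facts on the ball: `split`, `rad_two`, `inv_norm`, `ad_mul`. -/
theorem ball_basic {r : ℕ} (hr : 2 ≤ r) {u : Eu (r + 1)} (hu : ‖u‖ = 1) :
    ∫ g, ‖pj u g‖ ∂stdGaussian (Eu (r + 1)) = ad r ∧
    (∀ c, ⟪c, u⟫ = 0 → Integrable (fun g => ⟪g, c⟫ ^ 2 * ‖pj u g‖⁻¹) (stdGaussian (Eu (r + 1))) ∧
      ∫ g, ⟪g, c⟫ ^ 2 * ‖pj u g‖⁻¹ ∂stdGaussian (Eu (r + 1)) = kap r * ‖c‖ ^ 2) ∧
    (∀ k : ℕ, Integrable (fun g => |⟪g, u⟫| ^ k * ‖pj u g‖⁻¹) (stdGaussian (Eu (r + 1))) ∧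
      ∫ g, |⟪g, u⟫| ^ k * ‖pj u g‖⁻¹ ∂stdGaussian (Eu (r + 1)) ≤
        2 * kap r * ∫ t, |t| ^ k ∂gaussianReal 0 1) ∧
    0 < kap r ∧ (kap r)⁻¹ ≤ 2 * √((r : ℝ) + 1) := by
  obtain ⟨J, h1, h2⟩ := e4_J hu
  have hr0 : 0 < r := by omega
  have hR : (2 : ℝ) ≤ r := by exact_mod_cast hr
  have ha := ad_pos hr0
  have hk : 0 < kap r := div_pos ha (by linarith)
  refine ⟨?_, fun c hc => ?_, fun k => ?_, hk, ?_⟩
  · have h3 := (e4_prod hu J h1 (a := fun _ => 1) (b := fun y => ‖y‖) measurable_const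
      (by fun_prop) (integrable_const _)
      (by simpa using integrable_norm_pow (E := Eu r) 1)).2
    simpa [ad] using h3
  · simpa using e4_quad hr0 hu hc (a := fun _ => 1) measurable_const (integrable_const _)
  · obtain ⟨n, rfl⟩ : ∃ n, r = n + 1 := ⟨r - 1, by omega⟩
    have hn : 0 < n := by omega
    obtain ⟨h3, h4⟩ := e4_prod hu J h1 (a := fun t => |t| ^ k) (b := fun y => ‖y‖⁻¹)
      (by fun_prop) (by fun_prop) (e4_abs k) (by simpa using (inv_norm hn).1)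
    refine ⟨h3, h4.trans_le ?_⟩
    simp only [J.norm_map]
    rw [(inv_norm hn).2, mul_comm]
    refine mul_le_mul_of_nonneg_right ?_ (integral_nonneg fun t => by positivity)
    have h5 := ad_mul n
    have h6 := ad_pos hn
    have h7 : (1 : ℝ) ≤ n := by exact_mod_cast hn
    rw [kap, inv_le_iff_one_le_mul₀ h6, ← mul_div_assoc, div_mul_eq_mul_div,
      le_div_iff₀ (by positivity)]
    push_cast
    linarith
  · rw [kap, inv_div, div_le_iff₀ ha]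
    refine le_of_sq_le_sq ?_ (by positivity)
    rw [mul_pow, mul_pow, Real.sq_sqrt (by linarith)]
    nlinarith [ad_sq_ge r]

theorem e4_add {d : ℕ} {u : Eu d} (hu : ‖u‖ = 1) (g : Eu d) (a : ℝ) :
    ‖g + a • u‖ ^ 2 = ‖g‖ ^ 2 + 2 * a * ⟪g, u⟫ + a ^ 2 := by
  rw [norm_add_sq_real, real_inner_smul_right, norm_smul, hu, mul_one, Real.norm_eq_abs, sq_abs,
    mul_assoc]

theorem e4_G {d : ℕ} {u : Eu d} (hu : ‖u‖ = 1) (σ : ℝ) (g : Eu d) :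
    ⟪nz (Gm u σ g), u⟫ = σ * ⟪g, u⟫ * ‖Gm u σ g‖⁻¹ ∧
      ‖Gm u σ g‖ ^ 2 = ‖pj u g‖ ^ 2 + (σ * ⟪g, u⟫) ^ 2 := by
  constructor
  · rw [nz, real_inner_smul_left, mul_comm, Gm, inner_add_left, real_inner_smul_left,
      real_inner_self_eq_norm_sq, hu]
    ring
  · rw [Gm, pj, sub_eq_add_neg g, ← neg_smul, e4_add hu, e4_add hu]
    ring

theorem e4_inv {a b y : ℝ} (ha : 0 < a) (hb : 0 ≤ b) (h : b ^ 2 = a ^ 2 + y ^ 2) :
    b⁻¹ ≤ a⁻¹ ∧ a ^ 2 * (a⁻¹ - b⁻¹) ≤ y ^ 2 * a⁻¹ := by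
  have h1 : a ≤ b := le_of_sq_le_sq (by nlinarith [sq_nonneg y]) hb
  have h2 : 0 < b := ha.trans_le h1
  refine ⟨inv_anti₀ ha h1, ?_⟩
  rw [show y ^ 2 = (b - a) * (b + a) by linarith, ← sub_nonneg,
    show (b - a) * (b + a) * a⁻¹ - a ^ 2 * (a⁻¹ - b⁻¹) =
      (b - a) * ((b - a) * (b + a) + a * b) / (a * b) by field_simp; ring]
  have h3 := sub_nonneg.2 h1
  positivity

theorem e4_ae {r : ℕ} (hr : 0 < r) {u : Eu (r + 1)} (hu : ‖u‖ = 1) :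
    ∀ᵐ g ∂stdGaussian (Eu (r + 1)), 0 < ‖pj u g‖ := by
  obtain ⟨J, h1, -⟩ := e4_J hu
  filter_upwards [assel_ae (J (ee ⟨0, hr⟩))] with g hg
  refine norm_pos_iff.2 fun h => hg.elim (fun e => ?_) fun e => e ?_
  · simpa [ee] using congrArg norm e
  · rw [real_inner_comm, ← e4_pj (h1 _), h, inner_zero_left]

theorem e4_odd {d : ℕ} {u ν : Eu d} (hu : ‖u‖ = 1) (hν : ⟪ν, u⟫ = 0) (σ : ℝ) :
    ∫ g, ⟪g, ν⟫ * ⟪nz (Gm u σ g), u⟫ ∂stdGaussian (Eu d) = 0 := by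
  have h := integral_comp_iso (ℝ ∙ u).reflection fun g => ⟪g, ν⟫ * ⟪nz (Gm u σ g), u⟫
  have e : ∀ g : Eu d, ⟪(ℝ ∙ u).reflection g, ν⟫ * ⟪nz (Gm u σ ((ℝ ∙ u).reflection g)), u⟫ =
      -(⟪g, ν⟫ * ⟪nz (Gm u σ g), u⟫) := fun g => by
    have e0 : (ℝ ∙ u).reflection g = (2 * ⟪g, u⟫) • u - g := by
      rw [Submodule.reflection_singleton_apply, hu, real_inner_comm, two_smul, two_mul, add_smul]
      simp
    have e1 : ⟪(ℝ ∙ u).reflection g, u⟫ = ⟪g, u⟫ := by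
      rw [e0, inner_sub_left, real_inner_smul_left, real_inner_self_eq_norm_sq, hu]
      ring
    have e2 : ⟪(ℝ ∙ u).reflection g, ν⟫ = -⟪g, ν⟫ := by
      rw [e0, inner_sub_left, real_inner_smul_left, real_inner_comm ν u, hν, mul_zero, zero_sub]
    have e3 : pj u ((ℝ ∙ u).reflection g) = -pj u g := by
      rw [pj, e1, e0, pj, two_mul, add_smul]
      abel
    have e4 : ‖Gm u σ ((ℝ ∙ u).reflection g)‖ = ‖Gm u σ g‖ := by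
      rw [← sq_eq_sq₀ (norm_nonneg _) (norm_nonneg _), (e4_G hu σ _).2, (e4_G hu σ _).2, e1, e3,
        norm_neg]
    rw [(e4_G hu σ _).1, (e4_G hu σ _).1, e1, e2, e4, neg_mul]
  simp only [e, integral_neg] at h
  linarith

/-- `⟪nz G, u⟫ = στ/‖G‖`; the third term is odd; `1/‖s‖ - σ²τ²/(2‖s‖³) ≤ 1/‖G‖ ≤ 1/‖s‖`;
`ball_basic` and independence (`split`). -/
theorem s_ball : ∃ C : ℝ, 0 < C ∧ ∀ r ≥ 2, ∀ (σ ω : ℝ) (u ν : Eu (r + 1)), ‖u‖ = 1 → ⟪ν, u⟫ = 0 →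
    0 < σ → 0 < ω →
      kap r * (ω * ‖ν‖ * σ * (alp - C * σ ^ 2) - 4 * σ ^ 2) ≤ trT nz u ν ω σ ∧
        trT nz u ν ω σ ≤ kap r * (ω * ‖ν‖ * σ) := by
  have m3 : 0 ≤ ∫ t, |t| ^ 3 ∂gaussianReal 0 1 := integral_nonneg fun t => by positivity
  refine ⟨2 * ∫ t, |t| ^ 3 ∂gaussianReal 0 1 + 1, by positivity,
    fun r hr σ ω u ν hu hν hσ hω => ?_⟩
  have hr0 : 0 < r := by omega
  obtain ⟨-, -, hb, hk, -⟩ := ball_basic hr hu
  have hn : ⟪nz ν, u⟫ = 0 := by rw [nz, real_inner_smul_left, hν, mul_zero]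
  have mG : Measurable fun g : Eu (r + 1) => ‖Gm u σ g‖⁻¹ := by
    unfold Gm
    fun_prop
  have key : ∀ᵐ g ∂stdGaussian (Eu (r + 1)), ‖Gm u σ g‖⁻¹ ≤ ‖pj u g‖⁻¹ ∧
      ‖pj u g‖ ^ 2 * (‖pj u g‖⁻¹ - ‖Gm u σ g‖⁻¹) ≤ (σ * ⟪g, u⟫) ^ 2 * ‖pj u g‖⁻¹ :=
    (e4_ae hr0 hu).mono fun g hg => e4_inv hg (norm_nonneg _) (e4_G hu σ g).2
  have e1 : ∀ g : Eu (r + 1), ⟪g, nz ν⟫ ^ 2 * Real.sign ⟪g, u⟫ * ⟪nz (Gm u σ g), u⟫ =
      σ * (|⟪g, u⟫| * (⟪g, nz ν⟫ ^ 2 * ‖Gm u σ g‖⁻¹)) := fun g => by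
    rw [(e4_G hu σ g).1, ← assel_sign_mul]
    ring
  have e2 : ∀ g : Eu (r + 1), ⟪g, u⟫ * ⟪nz (Gm u σ g), u⟫ =
      σ * (|⟪g, u⟫| ^ 2 * ‖Gm u σ g‖⁻¹) := fun g => by
    rw [(e4_G hu σ g).1, sq_abs]
    ring
  obtain ⟨i1, v1⟩ := e4_quad hr0 hu hn (a := fun t => |t|) (by fun_prop) (by simpa using e4_abs 1)
  have l1 : ∀ᵐ g ∂stdGaussian (Eu (r + 1)), |⟪g, u⟫| * (⟪g, nz ν⟫ ^ 2 * ‖Gm u σ g‖⁻¹) ≤
      |⟪g, u⟫| * (⟪g, nz ν⟫ ^ 2 * ‖pj u g‖⁻¹) := key.mono fun g hg => by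
    have := hg.1
    gcongr
  have i2 : Integrable (fun g => |⟪g, u⟫| * (⟪g, nz ν⟫ ^ 2 * ‖Gm u σ g‖⁻¹))
      (stdGaussian (Eu (r + 1))) :=
    i1.mono' (Measurable.aestronglyMeasurable (by fun_prop)) (l1.mono fun g hg => by
      rwa [Real.norm_of_nonneg (by positivity)])
  have a1 := (integral_mono_ae i2 i1 l1).trans_eq v1
  have a2 : ∫ g, (|⟪g, u⟫| * (⟪g, nz ν⟫ ^ 2 * ‖pj u g‖⁻¹) - σ ^ 2 * (|⟪g, u⟫| ^ 3 * ‖pj u g‖⁻¹))
      ∂stdGaussian (Eu (r + 1)) ≤ _ :=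
    integral_mono_ae (i1.sub ((hb 3).1.const_mul _)) i2 (key.mono fun g hg => by
      have h1 : ⟪g, nz ν⟫ ^ 2 ≤ ‖pj u g‖ ^ 2 := by
        rw [← e4_pj hn, real_inner_comm, ← sq_abs]
        exact pow_le_pow_left₀ (abs_nonneg _) (asrad_abs_le _ _) 2
      have h2 := mul_le_mul_of_nonneg_left ((mul_le_mul_of_nonneg_right h1
        (sub_nonneg.2 hg.1)).trans hg.2) (abs_nonneg ⟪g, u⟫)
      rw [mul_pow, ← sq_abs ⟪g, u⟫] at h2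
      change _ - _ ≤ _
      linarith)
  rw [integral_sub i1 ((hb 3).1.const_mul _), v1, integral_const_mul] at a2
  have b1 : 0 ≤ ∫ g, |⟪g, u⟫| ^ 2 * ‖Gm u σ g‖⁻¹ ∂stdGaussian (Eu (r + 1)) :=
    integral_nonneg fun g => by positivity
  have b2 : ∫ g, |⟪g, u⟫| ^ 2 * ‖Gm u σ g‖⁻¹ ∂stdGaussian (Eu (r + 1)) ≤ 2 * kap r := by
    refine (integral_mono_of_nonneg (.of_forall fun g => by positivity) (hb 2).1
      (key.mono fun g hg => mul_le_mul_of_nonneg_left hg.1 (by positivity))).trans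
      ((hb 2).2.trans_eq ?_)
    have := variance_fun_id_gaussianReal (μ := 0) (v := 1)
    rw [variance_eq_integral measurable_id'.aemeasurable] at this
    simp only [sq_abs]
    simp at this
    rw [this, mul_one]
  have b3 := (hb 3).2
  have c1 := alp_pos
  rw [trT, e4_odd hu hν]
  simp only [e1, e2, integral_const_mul]
  change _ ≤ alp * _ at a1
  change alp * _ - _ ≤ _ at a2
  generalize ∫ g, |⟪g, u⟫| * (⟪g, nz ν⟫ ^ 2 * ‖Gm u σ g‖⁻¹) ∂stdGaussian (Eu (r + 1)) = A at *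
  generalize ∫ g, |⟪g, u⟫| ^ 2 * ‖Gm u σ g‖⁻¹ ∂stdGaussian (Eu (r + 1)) = B at *
  generalize ∫ g, |⟪g, u⟫| ^ 3 * ‖pj u g‖⁻¹ ∂stdGaussian (Eu (r + 1)) = D at *
  generalize ∫ t, |t| ^ 3 ∂gaussianReal 0 1 = m at *
  have s2 : 0 < σ ^ 2 := by positivity
  have t1 : σ ^ 2 * B ≤ σ ^ 2 * (2 * kap r) := mul_le_mul_of_nonneg_left b2 s2.le
  have t2 : 0 ≤ σ ^ 2 * B := by positivity
  by_cases h0 : ν = 0
  · subst h0
    simp only [norm_zero, mul_zero, zero_mul]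
    constructor <;> linarith
  have n1 : ‖nz ν‖ = 1 := by
    rw [nz, norm_smul, norm_inv, norm_norm, inv_mul_cancel₀ (norm_ne_zero_iff.2 h0)]
  rw [n1, one_pow, mul_one] at a1 a2
  have p0 : 0 ≤ ω * ‖ν‖ * σ := by positivity
  have t3 : kap r * (alp - (2 * m + 1) * σ ^ 2) ≤ A := by
    nlinarith [mul_le_mul_of_nonneg_left b3 s2.le, mul_pos hk s2]
  have t4 : A ≤ kap r := a1.trans (mul_le_of_le_one_left hk.le c1.2)
  constructor <;> nlinarith [mul_le_mul_of_nonneg_left t3 p0, mul_le_mul_of_nonneg_left t4 p0]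

end Pool.Agent.Lib.MP_77d991_gt.Ex
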