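import Pool.Agent.Lib.MP_77d991_gt.Ex.E3
import Pool.Agent.Lib.MP_77d991_gt.Ex.E4
import Pool.Agent.Lib.MP_77d991_gt.Ex.B3
import Pool.Agent.Lib.MP_77d991_gt.Ex.D6

open MeasureTheory ProbabilityTheory Set
open scoped RealInnerProductSpace

namespace Pool.Agent.Lib.MP_77d991_gt.Ex

open Pool.Agent.Lib.MP_77d991_gt.As

theorem e5_onb {r : ℕ} {u : Eu (r + 1)} (hu : ‖u‖ = 1) {c : Fin r → Eu (r + 1)} (hc : Onb u c)
    (y g : Eu (r + 1)) : ∑ i, ⟪y, c i⟫ * ⟪g, c i⟫ = ⟪y, g⟫ - ⟪y, u⟫ * ⟪g, u⟫ := by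
  obtain ⟨b, hb⟩ := exists_ext (n := r + 1) (q := 0) (by simp) (Matrix.vecCons u c)
    (orthonormal_vecCons_iff.2 ⟨hu, fun i => (real_inner_comm _ _).trans (hc.2 i), hc.1⟩)
  have h := b.sum_inner_mul_inner y g
  rw [Fintype.sum_sum_type, Fin.sum_univ_succ] at h
  simp only [hb, Matrix.cons_val_zero, Matrix.cons_val_succ, Finset.univ_eq_empty,
    Finset.sum_empty, add_zero, real_inner_comm g] at h
  simp only [real_inner_comm g]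
  linarith

theorem e5_sq {r : ℕ} {u : Eu (r + 1)} (hu : ‖u‖ = 1) {c : Fin r → Eu (r + 1)} (hc : Onb u c)
    (y : Eu (r + 1)) : ∑ i, ⟪y, c i⟫ ^ 2 ≤ ‖y‖ ^ 2 := by
  have h := e5_onb hu hc y y
  simp only [← sq, real_inner_self_eq_norm_sq] at h
  linarith [sq_nonneg ⟪y, u⟫]

theorem e5_meas {d : ℕ} (u : Eu d) (σ : ℝ) : Measurable (Gm u σ) := by
  unfold Gm
  fun_prop

theorem e5_dens {d : ℕ} {u : Eu d} (hu : ‖u‖ = 1) {σ : ℝ} (hσ : 0 < σ) (h1 : σ ≤ 1)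
    {F : Eu d → ℝ} (mF : Measurable F) (h0 : ∀ y, 0 ≤ F y)
    (iF : Integrable F (stdGaussian (Eu d))) :
    Integrable (fun g => F (Gm u σ g)) (stdGaussian (Eu d)) ∧
      ∫ g, F (Gm u σ g) ∂stdGaussian (Eu d) ≤ σ⁻¹ * ∫ g, F g ∂stdGaussian (Eu d) := by
  have hle : (stdGaussian (Eu d)).map (Gm u σ) ≤ ENNReal.ofReal σ⁻¹ • stdGaussian (Eu d) := by
    rw [dens hu hσ, ← withDensity_const]
    exact withDensity_mono (.of_forall fun g => ENNReal.ofReal_le_ofReal (rs_le hσ h1 _).2)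
  have i1 := iF.smul_measure (ENNReal.ofReal_ne_top (r := σ⁻¹))
  have h2 := integral_mono_measure hle (.of_forall h0) i1
  rw [integral_map (e5_meas u σ).aemeasurable mF.aestronglyMeasurable, integral_smul_measure,
    ENNReal.toReal_ofReal (by positivity), smul_eq_mul] at h2
  exact ⟨(integrable_map_measure mF.aestronglyMeasurable (e5_meas u σ).aemeasurable).1
    (i1.mono_measure hle), h2⟩

theorem e5_Gc {d : ℕ} {u c : Eu d} (hc : ⟪c, u⟫ = 0) (σ : ℝ) (g : Eu d) :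
    ⟪Gm u σ g, c⟫ = ⟪g, c⟫ := by
  rw [Gm, inner_add_left, real_inner_smul_left, real_inner_comm c u, hc, mul_zero, add_zero]

theorem e5_ball {r : ℕ} (hr : 2 ≤ r) {u : Eu (r + 1)} (hu : ‖u‖ = 1) {c : Fin r → Eu (r + 1)}
    (hc : Onb u c) (σ : ℝ) : ∃ δ : Fin r → ℝ, (∀ i, 0 ≤ δ i) ∧ ∑ i, δ i ≤ 2 * σ ^ 2 * kap r ∧
      ∀ i, ∫ g, ⟪nz (Gm u σ g), c i⟫ * ⟪g, c i⟫ ∂stdGaussian (Eu (r + 1)) = kap r - δ i := by
  obtain ⟨-, ha, hb, hk, -⟩ := ball_basic hr hu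
  have mG := e5_meas u σ
  have key : ∀ᵐ g ∂stdGaussian (Eu (r + 1)), ‖Gm u σ g‖⁻¹ ≤ ‖pj u g‖⁻¹ ∧
      ‖pj u g‖ ^ 2 * (‖pj u g‖⁻¹ - ‖Gm u σ g‖⁻¹) ≤ (σ * ⟪g, u⟫) ^ 2 * ‖pj u g‖⁻¹ :=
    (e4_ae (by omega) hu).mono fun g hg => e4_inv hg (norm_nonneg _) (e4_G hu σ g).2
  have i1 := fun i => (ha (c i) (hc.2 i)).1
  have i2 : ∀ i, Integrable (fun g => ⟪g, c i⟫ ^ 2 * ‖Gm u σ g‖⁻¹) (stdGaussian (Eu (r + 1))) :=
    fun i => (i1 i).mono' (Measurable.aestronglyMeasurable (by fun_prop)) (key.mono fun g hg => by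
      rw [Real.norm_of_nonneg (by positivity)]
      exact mul_le_mul_of_nonneg_left hg.1 (sq_nonneg _))
  have i3 := fun i => (i1 i).sub (i2 i)
  refine ⟨fun i => ∫ g, (⟪g, c i⟫ ^ 2 * ‖pj u g‖⁻¹ - ⟪g, c i⟫ ^ 2 * ‖Gm u σ g‖⁻¹)
    ∂stdGaussian (Eu (r + 1)), fun i => integral_nonneg_of_ae (key.mono fun g hg =>
      sub_nonneg.2 (mul_le_mul_of_nonneg_left hg.1 (sq_nonneg _))), ?_, fun i => ?_⟩
  · refine (integral_finsetSum _ fun i _ => i3 i).symm.trans_le ((integral_mono_ae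
      (integrable_finsetSum _ fun i _ => i3 i) ((hb 2).1.const_mul (σ ^ 2))
      (key.mono fun g hg => ?_)).trans ?_)
    · have h1 := e5_sq hu hc (pj u g)
      simp only [e4_pj (hc.2 _)] at h1
      have h2 := (mul_le_mul_of_nonneg_right h1 (sub_nonneg.2 hg.1)).trans hg.2
      simp only [Pi.sub_apply, ← mul_sub, ← Finset.sum_mul, sq_abs]
      rwa [mul_pow, mul_assoc] at h2
    · have h1 := variance_fun_id_gaussianReal (μ := 0) (v := 1)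
      rw [variance_eq_integral measurable_id'.aemeasurable] at h1
      have h2 := (hb 2).2
      simp only [sq_abs] at h2 ⊢
      simp at h1
      rw [h1] at h2
      rw [integral_const_mul]
      nlinarith [mul_le_mul_of_nonneg_left h2 (sq_nonneg σ)]
  · beta_reduce
    rw [integral_sub (i1 i) (i2 i), (ha (c i) (hc.2 i)).2, hc.1.1 i, one_pow, mul_one,
      sub_sub_cancel]
    refine integral_congr_ae (.of_forall fun g => ?_)
    simp only [nz, real_inner_smul_left, e5_Gc (hc.2 i)]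
    ring

theorem e5_bm {d : ℕ} {N : Eu d → Eu d} {B : ℝ} (hN : Bm N B) {c : Eu d} (hc : ‖c‖ = 1) :
    Bm (fun g => ⟪N g, c⟫) B :=
  ⟨hN.1.inner measurable_const, fun g => (norm_inner_le_norm _ _).trans (by
    rw [hc, mul_one]
    exact hN.2 g)⟩

theorem e5_int {d : ℕ} {F : Eu d → ℝ} {B : ℝ} (hF : Bm F B) (c : Eu d) :
    Integrable (fun g => F g * ⟪g, c⟫) (stdGaussian (Eu d)) := by
  refine Integrable.bdd_mul ?_ hF.1.aestronglyMeasurable (.of_forall hF.2)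
  simpa only [pow_one, real_inner_comm c] using integrable_inner_pow c 1

theorem e5_int2 {d : ℕ} {β : Type} [NormedAddCommGroup β] [MeasurableSpace β]
    [OpensMeasurableSpace β] {F : Eu d → β} {B : ℝ} (hF : Bm F B) :
    Integrable (fun g => ‖F g‖ ^ 2) (stdGaussian (Eu d)) :=
  (integrable_const (B ^ 2)).mono' (hF.1.norm.pow_const 2).aestronglyMeasurable
    (.of_forall fun g => by
      rw [Real.norm_of_nonneg (sq_nonneg _)]
      exact pow_le_pow_left₀ (norm_nonneg _) (hF.2 g) 2)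

theorem e5_cs {d : ℕ} {F : Eu d → ℝ} {B : ℝ} (hF : Bm F B) {c : Eu d} (hc : ‖c‖ = 1) :
    (∫ g, F g * ⟪g, c⟫ ∂stdGaussian (Eu d)) ^ 2 ≤ ∫ g, F g ^ 2 ∂stdGaussian (Eu d) := by
  simpa using bessel1 (c := fun _ : Fin 1 => c)
    ⟨fun _ => hc, fun i j h => (h (Subsingleton.elim i j)).elim⟩ hF

theorem e5_field {r : ℕ} {h : Eu (r + 1) → ℝ} {x : Eu (r + 1) → Eu (r + 1)} {R σ : ℝ}
    (P : Pos h x R) {u : Eu (r + 1)} (hu : ‖u‖ = 1) {c : Fin r → Eu (r + 1)} (hc : Onb u c)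
    (hσ : 0 < σ) (h1 : σ ≤ 1) :
    ∑ i, (∫ g, ⟪Nf x (Gm u σ g), c i⟫ * ⟪g, c i⟫ ∂stdGaussian (Eu (r + 1))) ^ 2 ≤ σ⁻¹ * bsq x ∧
    ∃ p t : ℝ, p ^ 2 ≤ 5 * (σ⁻¹ * bsq x) ∧ t ^ 2 ≤ σ⁻¹ * bsq x ∧
      ∑ i, ∫ g, ⟪Nf x (Gm u σ g), c i⟫ * ⟪g, c i⟫ ∂stdGaussian (Eu (r + 1)) = p - σ * t := by
  have S := P.sel
  have hN := meas_Nf S
  have mG := e5_meas u σ
  have hM : Bm (fun g => Nf x (Gm u σ g)) (R + 1) := ⟨hN.1.comp mG, fun g => hN.2 _⟩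
  obtain ⟨i1, b1⟩ := e5_dens hu hσ h1 (hN.1.norm.pow_const 2) (fun _ => sq_nonneg _) (e5_int2 hN)
  rw [← bsq_eq S] at b1
  have i2 : ∀ w : Eu (r + 1), ‖w‖ = 1 →
      Integrable (fun g => ⟪Nf x (Gm u σ g), w⟫ ^ 2) (stdGaussian (Eu (r + 1))) := fun w hw => by
    simpa only [Real.norm_eq_abs, sq_abs] using e5_int2 (e5_bm hM hw)
  have hm : ∫ y, h y ∂stdGaussian (Eu (r + 1)) = ∫ y, ‖y‖ ∂stdGaussian (Eu (r + 1)) := by
    rw [S.mean P.iso, finrank_euclideanSpace_fin, kap, div_mul_cancel₀ _ (by positivity), ad]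
  obtain ⟨i3, b3⟩ := S.dev_sq_le hm
  have mφ : Measurable fun y => h y - ‖y‖ := S.cont.measurable.sub measurable_norm
  obtain ⟨i4, b4⟩ := e5_dens hu hσ h1 (mφ.pow_const 2) (fun _ => sq_nonneg _) i3
  have i5 : Integrable (fun g => h (Gm u σ g) - ‖Gm u σ g‖) (stdGaussian (Eu (r + 1))) :=
    ((memLp_two_iff_integrable_sq (mφ.comp mG).aestronglyMeasurable).2 i4).integrable one_le_two
  refine ⟨?_, ∫ g, (h (Gm u σ g) - ‖Gm u σ g‖) ∂stdGaussian (Eu (r + 1)),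
    ∫ g, ⟪Nf x (Gm u σ g), u⟫ * ⟪g, u⟫ ∂stdGaussian (Eu (r + 1)), ?_, ?_, ?_⟩
  · refine (Finset.sum_le_sum fun i _ => e5_cs (e5_bm hM (hc.1.1 i)) (hc.1.1 i)).trans ?_
    rw [← integral_finsetSum _ fun i _ => i2 _ (hc.1.1 i)]
    exact (integral_mono (integrable_finsetSum _ fun i _ => i2 _ (hc.1.1 i)) i1
      fun g => e5_sq hu hc _).trans b1
  · have h2 := aschi_expand i5 i4 (∫ g, (h (Gm u σ g) - ‖Gm u σ g‖) ∂stdGaussian (Eu (r + 1)))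
    have h3 : (0 : ℝ) ≤ _ := h2 ▸ integral_nonneg fun g => sq_nonneg _
    have h4 : _ ≤ σ⁻¹ * (5 * bsq x) :=
      b4.trans (mul_le_mul_of_nonneg_left (b3.trans_eq (by rw [bsq_eq S]; rfl)) (by positivity))
    linarith
  · refine (e5_cs (e5_bm hM hu) hu).trans ((integral_mono (i2 u hu) i1 fun g => ?_).trans b1)
    simpa only [Real.norm_eq_abs, sq_abs, hu, mul_one] using
      pow_le_pow_left₀ (norm_nonneg _) (norm_inner_le_norm (𝕜 := ℝ) (Nf x (Gm u σ g)) u) 2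
  · rw [← integral_finsetSum _ fun i _ => e5_int (e5_bm hM (hc.1.1 i)) _, ← integral_const_mul,
      ← integral_sub i5 ((e5_int (e5_bm hM hu) u).const_mul σ)]
    refine integral_congr_ae (.of_forall fun g => ?_)
    have h2 := e5_onb hu hc (Nf x (Gm u σ g)) (Gm u σ g)
    have h3 : ⟪Gm u σ g, u⟫ = σ * ⟪g, u⟫ := by
      rw [Gm, inner_add_left, real_inner_smul_left, real_inner_self_eq_norm_sq, hu]
      ring
    have h4 : ∀ y : Eu (r + 1), ⟪Nf x y, y⟫ = h y - ‖y‖ := fun y => by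
      rw [Nf, inner_sub_left, S.eq, (sel_nz (d := r + 1)).eq]
    simp only [e5_Gc (hc.2 _), h3, h4] at h2
    simp only [h2]
    ring

theorem e5_num {r : ℕ} {k σ β p t : ℝ} {M δ : Fin r → ℝ} (hk : 0 < k) (hσ : 0 < σ) (h1 : σ ≤ 1)
    (hβ : β ≤ 4 * σ ^ 4 * k ^ 2) (d0 : ∀ i, 0 ≤ δ i) (d1 : ∑ i, δ i ≤ 2 * σ ^ 2 * k)
    (f1 : ∑ i, M i ^ 2 ≤ β) (f2 : p ^ 2 ≤ 5 * β) (f3 : t ^ 2 ≤ β) (f4 : ∑ i, M i = p - σ * t) :
    -(16 * σ ^ 2) ≤ ∑ i, (M i - δ i) / k ∧ ∑ i, ((M i - δ i) / k) ^ 2 ≤ 16 * σ ^ 4 := by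
  have h0 : 0 < σ ^ 2 * k := by positivity
  constructor
  · have h2 := (abs_le_of_sq_le_sq' (a := p) (b := 5 * (σ ^ 2 * k)) (by nlinarith)
      (by positivity)).1
    have h3 := (abs_le_of_sq_le_sq' (a := t) (b := 2 * (σ ^ 2 * k)) (by nlinarith)
      (by positivity)).2
    rw [← Finset.sum_div, Finset.sum_sub_distrib, f4, le_div_iff₀ hk]
    nlinarith [mul_le_mul_of_nonneg_left h3 hσ.le, mul_le_mul_of_nonneg_right h1 h0.le]
  · have h2 : ∑ i, δ i ^ 2 ≤ (2 * σ ^ 2 * k) ^ 2 :=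
      (Finset.sum_sq_le_sq_sum_of_nonneg fun i _ => d0 i).trans
        (pow_le_pow_left₀ (Finset.sum_nonneg fun i _ => d0 i) d1 2)
    have h3 : ∑ i, (M i - δ i) ^ 2 ≤ ∑ i, (2 * M i ^ 2 + 2 * δ i ^ 2) :=
      Finset.sum_le_sum fun i _ => by nlinarith [sq_nonneg (M i + δ i)]
    simp only [div_pow]
    rw [← Finset.sum_div, div_le_iff₀ (by positivity)]
    rw [Finset.sum_add_distrib, ← Finset.mul_sum, ← Finset.mul_sum] at h3
    linarith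

/-- `x = nz + N`. Ball: `0 ≤ 1/‖s‖ - 1/‖G‖ ≤ σ²τ²/(2‖s‖³)`. Field `N`: the law of `G` has density at most
`1/σ` (`dens`, `rs_le`); `⟪N G, s⟫ = φ G - στ ⟪N G, u⟫`, `poincare`; `bessel1` for the squares. -/
theorem thick_cert : ∃ (C : ℝ) (r0 : ℕ), 0 < C ∧ ∀ r ≥ r0, ∀ (h : Eu (r + 1) → ℝ)
    (x : Eu (r + 1) → Eu (r + 1)) (R σ : ℝ) (u : Eu (r + 1)), Pos h x R → ‖u‖ = 1 → 0 < σ → σ ≤ 1 →
      ((r : ℝ) + 1) * bsq x ≤ σ ^ 5 → Cert x u 0 0 σ (-(C * σ ^ 2)) (C * σ ^ 4) := by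
  refine ⟨16, 2, by norm_num, fun r hr h x R σ u P hu hσ h1 hb c hc => ?_⟩
  obtain ⟨-, -, -, hk, hk2⟩ := ball_basic hr hu
  obtain ⟨δ, d0, d1, d2⟩ := e5_ball hr hu hc σ
  obtain ⟨f1, p, t, f2, f3, f4⟩ := e5_field P hu hc hσ h1
  have mG := e5_meas u σ
  have hN := meas_Nf P.sel
  have hM : Bm (fun g => Nf x (Gm u σ g)) (R + 1) := ⟨hN.1.comp mG, fun g => hN.2 _⟩
  have hz : Bm (fun g => nz (Gm u σ g)) 1 := ⟨measurable_nz.comp mG, fun g => asrad_norm_nz _⟩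
  have e : ∀ i, Aq x u 0 0 σ (c i) / kap r - 1 = ((∫ g, ⟪Nf x (Gm u σ g), c i⟫ * ⟪g, c i⟫
      ∂stdGaussian (Eu (r + 1))) - δ i) / kap r := fun i => by
    rw [div_sub_one hk.ne', show δ i = kap r - (kap r - δ i) by ring, ← d2 i, ← sub_add,
      sub_add_eq_add_sub, ← integral_add (e5_int (e5_bm hM (hc.1.1 i)) _)
        (e5_int (e5_bm hz (hc.1.1 i)) _), Aq]
    congr 3
    funext g
    simp only [wt, clip, Nf, inner_zero_right, inner_zero_left, zero_smul, sub_zero,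
      inner_sub_left]
    norm_num
    ring
  simp only [e]
  refine e5_num hk hσ h1 ?_ d0 d1 f1 f2 f3 f4
  have h2 : (kap r)⁻¹ ^ 2 ≤ 4 * ((r : ℝ) + 1) := by
    have h3 := pow_le_pow_left₀ (by positivity) hk2 2
    rwa [mul_pow, Real.sq_sqrt (by positivity), show (2 : ℝ) ^ 2 = 4 by norm_num] at h3
  have h3 : 0 ≤ bsq x := integral_nonneg fun _ => sq_nonneg _
  rw [inv_pow, inv_le_iff_one_le_mul₀ (by positivity)] at h2
  rw [inv_mul_le_iff₀ hσ]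
  nlinarith [mul_le_mul_of_nonneg_left h2 h3, mul_le_mul_of_nonneg_left hb (sq_nonneg (kap r))]

theorem thick : ∃ (C s : ℝ) (r0 : ℕ), 0 < C ∧ 0 < s ∧ ∀ r ≥ r0, ∀ (L : ℝ), Good r L →
    ∀ (m : ℕ) (v : Fin (m + 1) → Eu (r + 1)) (x : Eu (r + 1) → Eu (r + 1)) (R σ : ℝ),
      Pos (hV v) x R → (∃ i, ‖v i‖ = R) → 0 < σ → σ ≤ s → ((r : ℝ) + 1) * bsq x ≤ σ ^ 5 →
      ∃ j : Fin (r + 1) → Fin (m + 1), Real.exp (-L - C * σ ^ 2) * R ≤ |dt (v ∘ j)| := by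
  obtain ⟨C, r0, hC, H⟩ := thick_cert
  refine ⟨2 * C, min 1 (1 / (4 * C)), max r0 1, by positivity, by positivity,
    fun r hr L hG m v x R σ P ⟨i, hi⟩ hσ hs hb => ?_⟩
  have h1 : σ ≤ 1 := hs.trans (min_le_left _ _)
  have h2 : σ * (4 * C) ≤ 1 := (le_div_iff₀ (by positivity)).1 (hs.trans (min_le_right _ _))
  have hR : 0 < R := one_pos.trans_le (P.one_le r.succ_pos)
  have hu : ‖R⁻¹ • v i‖ = 1 := by
    rw [norm_smul, hi, Real.norm_of_nonneg (by positivity), inv_mul_cancel₀ hR.ne']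
  have hη : ⟪v i, R⁻¹ • v i⟫ = R := by
    rw [real_inner_smul_right, real_inner_self_eq_norm_sq, hi, sq, inv_mul_cancel_left₀ hR.ne']
  have s2 : σ ^ 4 ≤ σ ^ 2 := pow_le_pow_of_le_one hσ.le h1 (by norm_num)
  have s1 : σ ^ 4 ≤ σ ^ 1 := pow_le_pow_of_le_one hσ.le h1 (by norm_num)
  obtain ⟨j, hj⟩ := step_cert (le_of_max_le_right hr) hG v P.sel hu (X := v i)
    (fun y => (le_abs_self _).trans (le_hV v i y)) (hη.symm ▸ hR) (fun c hc => by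
      rw [real_inner_smul_right, mul_eq_zero, real_inner_comm] at hc
      rw [hc.resolve_left (inv_ne_zero hR.ne'), inner_zero_left, zero_div])
    (inner_zero_left _) (by nlinarith) (H r (le_of_max_le_left hr) _ x R σ _ P hu hσ h1 hb)
  refine ⟨j, le_trans ?_ hj⟩
  rw [hη]
  exact mul_le_mul_of_nonneg_right (Real.exp_le_exp.2 (by nlinarith)) hR.le

end Pool.Agent.Lib.MP_77d991_gt.Ex
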