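import Pool.Agent.Lib.MP_77d991_gt.Ex.E5

open MeasureTheory ProbabilityTheory Set
open scoped RealInnerProductSpace

namespace Pool.Agent.Lib.MP_77d991_gt.Ex

open Pool.Agent.Lib.MP_77d991_gt.As

/-- One dimensional convexity: values `l₊, l₋`, slopes `p₊, p₋` at `± a`, value `l₀` at zero. -/
theorem conv1 {lp lm l0 pp pm a η c : ℝ} (h1 : lp - lm ≤ 2 * a * pp) (h2 : 2 * a * pm ≤ lp - lm)
    (h3 : 2 * l0 ≤ lp + lm) (ha : 0 ≤ a) (hp : pm ≤ pp) (hc : |c| ≤ 1) :
    l0 + (c * η - 2 * a) * ((pp - pm) / 2) - η * ((pp + pm) / 2) ≤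
      ((1 - c) * (lp - (a + η) * pp) + (1 + c) * (lm - (-a + η) * pm)) / 2 := by
  obtain ⟨c1, c2⟩ := abs_le.1 hc
  nlinarith [mul_nonneg (by linarith : 0 ≤ 1 - c) (by linarith : 0 ≤ lp - lm - 2 * a * pm),
    mul_nonneg (by linarith : 0 ≤ 1 + c) (by linarith : 0 ≤ 2 * a * pp - (lp - lm))]

/-- tail of the clipping: `1 ≤ exp(η²/8 - 1/(8ω²))` on `|ω η| > 1`, `asou_pe`. -/
theorem clip_tail : ∃ C : ℝ, 0 < C ∧ ∀ (d : ℕ) (p : Eu d) (ω : ℝ), ‖p‖ ≤ 1 → 0 < ω → ω ≤ 1 →
    ∫ g, (clip (ω * ⟪g, p⟫) - ω * ⟪g, p⟫) ^ 2 ∂stdGaussian (Eu d) ≤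
      C * Real.exp (-(1 / (8 * ω ^ 2))) := by
  have hi := asou_pe (E := ℝ) 2
  set I := ∫ y : ℝ, ‖y‖ ^ 2 * Real.exp (‖y‖ ^ 2 / 8) ∂stdGaussian ℝ with hI
  have hI0 : 0 ≤ I := integral_nonneg fun y => by positivity
  refine ⟨I + 1, by positivity, fun d p ω hp h0 h1 => ?_⟩
  have hc : Measurable clip := by unfold clip; fun_prop
  have hlaw : (stdGaussian (Eu d)).map (innerSL ℝ p) =
      (stdGaussian ℝ).map (‖p‖ • ContinuousLinearMap.id ℝ ℝ) := by
    refine law1 _ _ fun L => ?_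
    have e1 : L.comp (innerSL ℝ p) = L 1 • innerSL ℝ p := by
      ext y
      have := L.map_smul ⟪p, y⟫ 1
      simpa [mul_comm] using this
    have e2 : ‖L‖ = |L 1| := by
      have e3 : L = L 1 • ContinuousLinearMap.id ℝ ℝ := by
        ext
        simp
      conv_lhs => rw [e3]
      rw [norm_smul, ContinuousLinearMap.norm_id, mul_one, Real.norm_eq_abs]
    rw [e1, ContinuousLinearMap.comp_smul, ContinuousLinearMap.comp_id, norm_smul, norm_smul,
      innerSL_apply_norm, e2, norm_norm, Real.norm_eq_abs, mul_comm]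
  have hF : Measurable fun t : ℝ => (clip (ω * t) - ω * t) ^ 2 := by fun_prop
  have e4 : ∫ g, (clip (ω * ⟪g, p⟫) - ω * ⟪g, p⟫) ^ 2 ∂stdGaussian (Eu d) =
      ∫ t, (clip (ω * (‖p‖ * t)) - ω * (‖p‖ * t)) ^ 2 ∂stdGaussian ℝ := by
    have a1 := integral_map (μ := stdGaussian (Eu d)) (innerSL ℝ p).continuous.aemeasurable
      hF.aestronglyMeasurable
    have a2 := integral_map (μ := stdGaussian ℝ)
      (‖p‖ • ContinuousLinearMap.id ℝ ℝ).continuous.aemeasurable hF.aestronglyMeasurable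
    rw [hlaw, a2] at a1
    simp only [innerSL_apply_apply, _root_.smul_apply, ContinuousLinearMap.id_apply,
      smul_eq_mul] at a1
    simp only [real_inner_comm p]
    exact a1.symm
  rw [e4]
  refine (integral_mono_of_nonneg (Filter.Eventually.of_forall fun t => sq_nonneg _)
    (hi.mul_const (Real.exp (-(1 / (8 * ω ^ 2))))) (Filter.Eventually.of_forall fun t => ?_)).trans ?_
  · simp only [Real.norm_eq_abs, sq_abs]
    set z := ω * (‖p‖ * t) with hz
    have hz2 : z ^ 2 ≤ ω ^ 2 * t ^ 2 := by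
      rw [hz, mul_pow, mul_pow]
      refine mul_le_mul_of_nonneg_left ?_ (sq_nonneg _)
      exact mul_le_of_le_one_left (sq_nonneg _) (pow_le_one₀ (norm_nonneg _) hp)
    have hω2 : ω ^ 2 ≤ 1 := pow_le_one₀ h0.le h1
    by_cases hz1 : z ^ 2 ≤ 1
    · have := abs_le.1 ((sq_le_one_iff_abs_le_one z).1 hz1)
      rw [clip, min_eq_right this.2, max_eq_right this.1, sub_self, sq, zero_mul]
      positivity
    · have h2 : (clip z - z) ^ 2 ≤ z ^ 2 := by
        unfold clip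
        rcases le_total 1 z with h | h
        · rw [min_eq_left h, max_eq_right (by norm_num)]; nlinarith
        · rw [min_eq_right h]
          rcases le_total (-1) z with h' | h'
          · rw [max_eq_right h']; nlinarith [sq_nonneg z]
          · rw [max_eq_left h']; nlinarith
      have h3 : 1 ≤ Real.exp (t ^ 2 / 8) * Real.exp (-(1 / (8 * ω ^ 2))) := by
        rw [← Real.exp_add]
        refine Real.one_le_exp ?_
        have h4 : 1 / (8 * ω ^ 2) ≤ t ^ 2 / 8 := by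
          rw [div_le_div_iff₀ (by positivity) (by norm_num)]
          nlinarith [not_le.1 hz1]
        linarith
      rw [mul_assoc]
      nlinarith [sq_nonneg t, mul_le_mul_of_nonneg_left h3 (sq_nonneg t)]
  · rw [integral_mul_const, ← hI]
    nlinarith [Real.exp_pos (-(1 / (8 * ω ^ 2)))]

lemma f1_pt {d : ℕ} {h : Eu d → ℝ} {x : Eu d → Eu d} {R : ℝ} (S : Sel h x R) (s u : Eu d)
    (η : ℝ) {c : ℝ} (hc : |c| ≤ 1) (a : ℝ) :
    2 * h s + (c * η - 2 * a) * (⟪x (s + a • u), u⟫ - ⟪x (s - a • u), u⟫) -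
        η * (⟪x (s + a • u), u⟫ + ⟪x (s - a • u), u⟫) ≤
      (1 - c) * ⟪x (s + a • u), s - η • u⟫ + (1 + c) * ⟪x (s - a • u), s - η • u⟫ := by
  have e1 := S.eq (s + a • u)
  have e2 := S.eq (s - a • u)
  have l1 := S.le (s + a • u) (s - a • u)
  have l2 := S.le (s - a • u) (s + a • u)
  have l3 := S.mid s (a • u)
  simp only [inner_add_right, inner_sub_right, real_inner_smul_right] at e1 e2 l1 l2 ⊢
  set pp := ⟪x (s + a • u), u⟫
  set pm := ⟪x (s - a • u), u⟫
  obtain ⟨c1, c2⟩ := abs_le.1 hc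
  nlinarith [mul_nonneg (by linarith : 0 ≤ 1 - c)
      (by linarith : 0 ≤ h (s + a • u) - h (s - a • u) - 2 * a * pm),
    mul_nonneg (by linarith : 0 ≤ 1 + c)
      (by linarith : 0 ≤ 2 * a * pp - (h (s + a • u) - h (s - a • u)))]

lemma f1_G {d : ℕ} (u : Eu d) (σ : ℝ) (g : Eu d) :
    Gm u σ g = pj u g + (σ * ⟪g, u⟫) • u := by
  rw [Gm, pj, sub_mul, one_mul, sub_smul]
  abel

lemma f1_int {d : ℕ} {F : Eu d → ℝ} (hF : Measurable F) {B : ℝ} (hB : ∀ g, |F g| ≤ B)
    (p q : Eu d) : Integrable (fun g => ⟪g, p⟫ * F g) (stdGaussian (Eu d)) ∧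
      Integrable (fun g => ⟪g, p⟫ * ⟪g, q⟫ * F g) (stdGaussian (Eu d)) := by
  constructor
  · have h1 := integrable_inner_pow p 1
    simp only [pow_one, real_inner_comm p] at h1 ⊢
    simpa only [real_inner_comm p] using
      h1.mul_bdd hF.aestronglyMeasurable (Filter.Eventually.of_forall hB)
  · have h1 := integrable_inner_mul p q
    simpa only [real_inner_comm p, real_inner_comm q] using
      h1.mul_bdd hF.aestronglyMeasurable (Filter.Eventually.of_forall hB)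

/-- `∑ ⟪g,c_i⟫ (c_i - ⟪ν,c_i⟫ u) = s - η u` with `s = pj u g`, `η = ⟪g,ν⟫`, and
`s - ηu = G - (στ + η) u`. Symmetrise by the reflection in `u`, apply `conv1` pointwise with
`a = σ|τ|`, go back, replace the clipped factor (`clip_tail`, Cauchy-Schwarz). -/
theorem s_trace : ∃ C : ℝ, 0 < C ∧ ∀ (r : ℕ) (h : Eu (r + 1) → ℝ) (x : Eu (r + 1) → Eu (r + 1))
    (R σ ω : ℝ) (u ν : Eu (r + 1)), Sel h x R → R ≤ 3 → ‖u‖ = 1 → ⟪ν, u⟫ = 0 → ‖ν‖ ≤ 6 → 0 < σ →
    0 < ω → ω ≤ 1 → ∀ c : Fin r → Eu (r + 1), Onb u c →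
      ∫ g, h (pj u g) ∂stdGaussian (Eu (r + 1)) + trT x u ν ω σ -
        C * Real.exp (-(1 / (16 * ω ^ 2))) ≤ ∑ i, Aq x u ν (ω • nz ν) σ (c i) := by
  obtain ⟨C, hC, hct⟩ := clip_tail
  refine ⟨9 * C + 36, by positivity, fun r h x R σ ω u ν S hR hu hν hν6 hσ h0 h1 c hc => ?_⟩
  set p := nz ν with hp
  have hp1 : ‖p‖ ≤ 1 := asrad_norm_nz ν
  have hpν : ‖ν‖ • p = ν := asrad_smul_nz ν
  have hpu : ⟪p, u⟫ = 0 := by rw [hp, nz, real_inner_smul_left, hν, mul_zero]
  have hη : ∀ g, ⟪g, ν⟫ = ‖ν‖ * ⟪g, p⟫ := fun g => by rw [← real_inner_smul_right, hpν]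
  have mG := e5_meas u σ
  have mx := S.meas
  have mc : Measurable clip := by unfold clip; fun_prop
  have ms := assel_sign_meas
  set q : Eu (r + 1) → ℝ := fun g => ⟪x (Gm u σ g), u⟫ with hq
  have mq : Measurable q := by fun_prop
  have bq : ∀ g, |q g| ≤ 3 := fun g =>
    (abs_real_inner_le_norm _ _).trans (by rw [hu, mul_one]; exact (S.bdd _).trans hR)
  set k : Eu (r + 1) → ℝ := fun g => clip (ω * ⟪g, p⟫) with hk
  have mk : Measurable k := by fun_prop
  have bk : ∀ g, |k g| ≤ 1 := fun g => e3_clip_abs _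
  have bs : ∀ g, |Real.sign ⟪g, u⟫ * q g| ≤ 3 := fun g => by
    rw [abs_mul]
    exact (mul_le_of_le_one_left (abs_nonneg _) (assel_sign_abs _)).trans (bq g)
  have msq : Measurable fun g => Real.sign ⟪g, u⟫ * q g := by fun_prop
  have bks : ∀ g, |k g * (Real.sign ⟪g, u⟫ * q g)| ≤ 3 := fun g => by
    rw [abs_mul]
    exact (mul_le_of_le_one_left (abs_nonneg _) (bk g)).trans (bs g)
  set A : Eu (r + 1) → ℝ := fun g => wt u (ω • p) g * ⟪x (Gm u σ g), pj u g - ⟪g, ν⟫ • u⟫ with hA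
  have eA : ∀ g, ∑ i, wt u (ω • p) g * (⟪x (Gm u σ g), c i - ⟪ν, c i⟫ • u⟫ * ⟪g, c i⟫) = A g := by
    intro g
    rw [← Finset.mul_sum, hA]
    congr 1
    have a1 := e5_onb hu hc (x (Gm u σ g)) g
    have a2 := e5_onb hu hc ν g
    rw [hν, zero_mul, sub_zero, real_inner_comm g ν] at a2
    simp only [inner_sub_right, real_inner_smul_right, pj, sub_mul, Finset.sum_sub_distrib]
    rw [a1, ← a2, Finset.sum_mul]
    congr 1
    · ring
    · exact Finset.sum_congr rfl fun i _ => by ring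
  have iA : Integrable A (stdGaussian (Eu (r + 1))) := by
    rw [← funext eA]
    exact integrable_finsetSum _ fun i _ => e3_int_Aq S u _ (c i) _ σ
  have jA : ∑ i, Aq x u ν (ω • p) σ (c i) = ∫ g, A g ∂stdGaussian (Eu (r + 1)) := by
    unfold Aq
    rw [← integral_finsetSum _ fun i _ => e3_int_Aq S u _ (c i) _ σ]
    simp only [eA]
  have i0 : Integrable (fun g => h (pj u g)) (stdGaussian (Eu (r + 1))) := by
    have := S.integrable_lin (ContinuousLinearMap.id ℝ _ - (innerSL ℝ u).smulRight u)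
    simpa [pj, real_inner_comm u] using this
  have i1 : Integrable (fun g => ⟪g, ν⟫ * (k g * (Real.sign ⟪g, u⟫ * q g)))
      (stdGaussian (Eu (r + 1))) := (f1_int (mk.mul msq) bks ν ν).1
  have i2 := (f1_int mq bq u u).1
  have i3 := (f1_int mq bq ν ν).1
  have i4 := (f1_int msq bs p p).2
  set B : Eu (r + 1) → ℝ := fun g => h (pj u g) + ⟪g, ν⟫ * (k g * (Real.sign ⟪g, u⟫ * q g)) -
    2 * σ * (⟪g, u⟫ * q g) - ⟪g, ν⟫ * q g with hB
  have i5 : Integrable (fun g => h (pj u g) + ⟪g, ν⟫ * (k g * (Real.sign ⟪g, u⟫ * q g)))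
      (stdGaussian (Eu (r + 1))) := i0.add i1
  have i6 : Integrable (fun g => h (pj u g) + ⟪g, ν⟫ * (k g * (Real.sign ⟪g, u⟫ * q g)) -
      2 * σ * (⟪g, u⟫ * q g)) (stdGaussian (Eu (r + 1))) := i5.sub (i2.const_mul _)
  have iB : Integrable B (stdGaussian (Eu (r + 1))) := i6.sub i3
  obtain ⟨O, O1, O2⟩ := e3_refl u
  have Opj : ∀ g, pj u (O g) = pj u g := by
    intro g
    refine ext_inner_right ℝ fun y => ?_
    have a1 := O2 g (pj u y) (by
      rw [pj, inner_sub_left, real_inner_smul_left, real_inner_self_eq_norm_sq, hu]; ring)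
    simp only [pj, inner_sub_left, inner_sub_right, real_inner_smul_left, real_inner_smul_right,
      real_inner_comm u y] at a1 ⊢
    linarith
  have pt : ∀ g, 0 ≤ (A g - B g) + (A (O g) - B (O g)) := by
    intro g
    have key := f1_pt S (pj u g) u ⟪g, ν⟫ (bk g)
    simp only [hA, hB, hq, hk, wt, f1_G, Opj, O1, O2 g ν hν, O2 g p hpu, real_inner_smul_right,
      Real.sign_neg, mul_neg, neg_smul, ← sub_eq_add_neg] at key ⊢
    rcases lt_trichotomy ⟪g, u⟫ 0 with ht | ht | ht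
    · have a1 := key (-(σ * ⟪g, u⟫))
      simp only [neg_smul, sub_neg_eq_add, ← sub_eq_add_neg] at a1
      rw [Real.sign_of_neg ht]
      linarith
    · have a1 := key 0
      simp only [zero_smul, add_zero, sub_zero] at a1
      simp only [ht, Real.sign_zero, mul_zero, zero_smul, add_zero, sub_zero]
      linarith
    · have a1 := key (σ * ⟪g, u⟫)
      rw [Real.sign_of_pos ht]
      linarith
  have iD : Integrable (fun g => A g - B g) (stdGaussian (Eu (r + 1))) := iA.sub iB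
  have iO : Integrable (fun g => A (O g) - B (O g)) (stdGaussian (Eu (r + 1))) := by
    have a1 := stdGaussian_map O
    rw [← a1] at iD
    exact iD.comp_measurable O.continuous.measurable
  have j0 : 0 ≤ ∫ g, (A g - B g) + (A (O g) - B (O g)) ∂stdGaussian (Eu (r + 1)) :=
    integral_nonneg pt
  rw [integral_add iD iO, integral_comp_iso O fun g => A g - B g, integral_sub iA iB, hB,
    integral_sub i6 i3, integral_sub i5 (i2.const_mul _), integral_add i0 i1,
    integral_const_mul] at j0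
  set e := Real.exp (-(1 / (16 * ω ^ 2))) with he
  have he0 : 0 < e := Real.exp_pos _
  have he2 : Real.exp (-(1 / (8 * ω ^ 2))) = e * e := by
    rw [he, ← Real.exp_add]
    congr 1
    field_simp
    ring
  have j1 := hct _ p ω hp1 h0 h1
  rw [he2] at j1
  have i7 : Integrable (fun g => (clip (ω * ⟪g, p⟫) - ω * ⟪g, p⟫) ^ 2)
      (stdGaussian (Eu (r + 1))) := by
    have a1 := ((integrable_inner_pow p 2).const_mul 2).add (integrable_const (2 : ℝ))
    refine a1.mono' (by fun_prop) (Filter.Eventually.of_forall fun g => ?_)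
    have a2 := abs_le.1 (bk g)
    have a3 : (ω * ⟪g, p⟫) ^ 2 ≤ ⟪g, p⟫ ^ 2 := by
      rw [mul_pow]
      exact mul_le_of_le_one_left (sq_nonneg _) (pow_le_one₀ h0.le h1)
    simp only [hk] at a2
    rw [Real.norm_of_nonneg (sq_nonneg _), Pi.add_apply, real_inner_comm g p]
    nlinarith [sq_nonneg (clip (ω * ⟪g, p⟫) + ω * ⟪g, p⟫)]
  have i8 := integrable_inner_pow p 2
  have j2 : ∫ g, ω * ‖ν‖ * (⟪g, p⟫ * ⟪g, p⟫ * (Real.sign ⟪g, u⟫ * q g)) -
      ⟪g, ν⟫ * (k g * (Real.sign ⟪g, u⟫ * q g)) ∂stdGaussian (Eu (r + 1)) ≤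
      ∫ g, 9 / e * (clip (ω * ⟪g, p⟫) - ω * ⟪g, p⟫) ^ 2 + 9 * e * ⟪p, g⟫ ^ 2
        ∂stdGaussian (Eu (r + 1)) := by
    refine integral_mono ((i4.const_mul _).sub i1) ((i7.const_mul _).add (i8.const_mul _))
      fun g => ?_
    simp only [hη g, hk, real_inner_comm g p]
    set z := clip (ω * ⟪g, p⟫) - ω * ⟪g, p⟫ with hz
    set t := ⟪g, p⟫
    set m := Real.sign ⟪g, u⟫ * q g
    have a1 : ω * ‖ν‖ * (t * t * m) - ‖ν‖ * t * (clip (ω * t) * m) = -(‖ν‖ * m * (z * t)) := by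
      rw [hz]; ring
    have a2 : |‖ν‖ * m * (z * t)| ≤ 18 * |z * t| := by
      rw [abs_mul, abs_mul, abs_norm]
      refine mul_le_mul_of_nonneg_right ?_ (abs_nonneg _)
      nlinarith [bs g, abs_nonneg m, norm_nonneg ν]
    have a3 : 18 * |z * t| ≤ 9 / e * z ^ 2 + 9 * e * t ^ 2 := by
      have a4 : 9 / e * z ^ 2 + 9 * e * t ^ 2 - 18 * |z * t| = 9 / e * (|z| - e * |t|) ^ 2 := by
        rw [abs_mul, ← sq_abs z, ← sq_abs t]
        field_simp
        ring
      have a5 : 0 ≤ 9 / e * (|z| - e * |t|) ^ 2 := by positivity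
      linarith
    rw [a1]
    linarith [neg_le_abs (‖ν‖ * m * (z * t))]
  rw [integral_sub (i4.const_mul _) i1, integral_add (i7.const_mul _) (i8.const_mul _),
    integral_const_mul, integral_const_mul, integral_const_mul, int_inner_sq] at j2
  have j3 : 9 / e * ∫ g, (clip (ω * ⟪g, p⟫) - ω * ⟪g, p⟫) ^ 2 ∂stdGaussian (Eu (r + 1)) ≤
      9 * C * e := by
    refine (mul_le_mul_of_nonneg_left j1 (by positivity)).trans (le_of_eq ?_)
    field_simp
  have j4 : 9 * e * ‖p‖ ^ 2 ≤ 9 * e :=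
    mul_le_of_le_one_right (by positivity) (pow_le_one₀ (norm_nonneg _) hp1)
  have e5 : ∫ g, ⟪g, p⟫ ^ 2 * Real.sign ⟪g, u⟫ * q g ∂stdGaussian (Eu (r + 1)) =
      ∫ g, ⟪g, p⟫ * ⟪g, p⟫ * (Real.sign ⟪g, u⟫ * q g) ∂stdGaussian (Eu (r + 1)) :=
    integral_congr_ae (Filter.Eventually.of_forall fun g => by ring)
  rw [jA, trT, ← hp]
  simp only [hq] at e5 j0 j2
  rw [e5]
  nlinarith

/-- linearity in the field. -/
theorem s_split {d : ℕ} {h : Eu d → ℝ} {x : Eu d → Eu d} {R σ ω : ℝ} {u ν : Eu d} (S : Sel h x R)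
    (hν : ⟪ν, u⟫ = 0) :
    trT x u ν ω σ = trT nz u ν ω σ +
      (ω * ‖ν‖ * ∑ a, u a * ⟪Y1 (fun g => Nf x g a) u (nz ν) σ, nz ν⟫ -
        2 * σ * ∑ a, u a * y2 (fun g => Nf x g a) u σ -
        ∑ a, u a * ⟪Y0 (fun g => Nf x g a) u σ, ν⟫) := by
  set p := nz ν with hp
  have hpu : ⟪p, u⟫ = 0 := by rw [hp, nz, real_inner_smul_left, hν, mul_zero]
  have mG := e5_meas u σ
  have ms := assel_sign_meas
  obtain ⟨mN, bN⟩ := meas_Nf S
  have mz : Measurable (nz : Eu d → Eu d) := measurable_nz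
  have bz : ∀ g, |⟪nz (Gm u σ g), u⟫| ≤ ‖u‖ := fun g => asrad_abs_le _ _
  have ba : ∀ a g, |Nf x (Gm u σ g) a| ≤ R + 1 := fun a g =>
    (PiLp.norm_apply_le (Nf x (Gm u σ g)) a).trans (bN _)
  have ma : ∀ a, Measurable fun g => Nf x (Gm u σ g) a := fun a => by fun_prop
  have dec : ∀ g, ⟪x (Gm u σ g), u⟫ = ⟪nz (Gm u σ g), u⟫ + ∑ a, u a * Nf x (Gm u σ g) a := by
    intro g
    have a1 : ∑ a, u a * Nf x (Gm u σ g) a = ⟪Nf x (Gm u σ g), u⟫ := by
      rw [real_inner_comm, asgeo_inner]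
    rw [a1, Nf, inner_sub_left]
    ring
  have main : ∀ W : Eu d → ℝ, (∀ (F : Eu d → ℝ) (B : ℝ), Measurable F → (∀ g, |F g| ≤ B) →
      Integrable (fun g => W g * F g) (stdGaussian (Eu d))) →
      ∫ g, W g * ⟪x (Gm u σ g), u⟫ ∂stdGaussian (Eu d) =
        ∫ g, W g * ⟪nz (Gm u σ g), u⟫ ∂stdGaussian (Eu d) +
          ∑ a, u a * ∫ g, W g * Nf x (Gm u σ g) a ∂stdGaussian (Eu d) := by
    intro W hW
    have i1 := fun a => (hW _ _ (ma a) (ba a)).const_mul (u a)
    simp only [← integral_const_mul]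
    rw [← integral_finsetSum _ fun a _ => i1 a,
      ← integral_add (hW _ _ (by fun_prop) bz) (integrable_finsetSum _ fun a _ => i1 a)]
    refine integral_congr_ae (Filter.Eventually.of_forall fun g => ?_)
    simp only [dec, mul_add, Finset.mul_sum]
    congr 1
    exact Finset.sum_congr rfl fun a _ => by ring
  have vec : ∀ (F : Eu d → ℝ) (k : ℕ) (B : ℝ) (c : Eu d), Measurable F →
      (∀ g, |F g| ≤ B * (1 + ‖g‖) ^ k) → k ≤ 1 → ⟪c, u⟫ = 0 →
      ⟪∫ g, F g • pj u g ∂stdGaussian (Eu d), c⟫ = ∫ g, F g * ⟪g, c⟫ ∂stdGaussian (Eu d) := by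
    intro F k B c mF bF hk hc
    have i1 : Integrable (fun g => F g • pj u g) (stdGaussian (Eu d)) := by
      refine asou_int _ (Measurable.aestronglyMeasurable (mF.smul (by unfold pj; fun_prop)))
        (|B| * (1 + ‖u‖ ^ 2)) fun g => ?_
      have a1 : ‖pj u g‖ ≤ (1 + ‖u‖ ^ 2) * (1 + ‖g‖) := by
        refine (norm_sub_le _ _).trans ?_
        rw [norm_smul, Real.norm_eq_abs]
        nlinarith [mul_le_mul_of_nonneg_right (abs_real_inner_le_norm g u) (norm_nonneg u),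
          sq_nonneg ‖u‖]
      have a2 : |F g| ≤ |B| * (1 + ‖g‖) := (bF g).trans (mul_le_mul (le_abs_self B)
        ((pow_le_pow_right₀ (by linarith [norm_nonneg g]) hk).trans (by rw [pow_one]))
        (by positivity) (abs_nonneg B))
      rw [norm_smul, Real.norm_eq_abs]
      exact (mul_le_mul a2 a1 (norm_nonneg _) (by positivity)).trans (le_of_eq (by ring))
    rw [real_inner_comm, ← integral_inner i1]
    refine integral_congr_ae (Filter.Eventually.of_forall fun g => ?_)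
    simp only [real_inner_smul_right]
    rw [real_inner_comm, e4_pj hc]
  have e1 := main (fun g => ⟪g, p⟫ ^ 2 * Real.sign ⟪g, u⟫) fun F B mF bF => by
    have := (f1_int (F := fun g => Real.sign ⟪g, u⟫ * F g) (B := B) (by fun_prop) (fun g => by
      rw [abs_mul]
      exact (mul_le_of_le_one_left (abs_nonneg _) (assel_sign_abs _)).trans (bF g)) p p).2
    exact this.congr (Filter.Eventually.of_forall fun g => by ring)
  have e2 := main (fun g => ⟪g, u⟫) fun F B mF bF => (f1_int mF bF u u).1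
  have e3 := main (fun g => ⟪g, ν⟫) fun F B mF bF => (f1_int mF bF ν ν).1
  have e4 : ∀ a, ⟪Y1 (fun g => Nf x g a) u p σ, p⟫ =
      ∫ g, ⟪g, p⟫ ^ 2 * Real.sign ⟪g, u⟫ * Nf x (Gm u σ g) a ∂stdGaussian (Eu d) := by
    intro a
    rw [Y1, vec _ 1 (R + 1) p (by fun_prop) (fun g => ?_) le_rfl hpu]
    · exact integral_congr_ae (Filter.Eventually.of_forall fun g => by ring)
    · rw [abs_mul, abs_mul, mul_comm, pow_one]
      refine mul_le_mul (ba a g) ?_ (by positivity) ((abs_nonneg _).trans (ba a g))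
      refine (mul_le_of_le_one_left (abs_nonneg _) (assel_sign_abs _)).trans ?_
      nlinarith [abs_real_inner_le_norm g p, asrad_norm_nz ν, norm_nonneg g]
  have e5 : ∀ a, ⟪Y0 (fun g => Nf x g a) u σ, ν⟫ =
      ∫ g, ⟪g, ν⟫ * Nf x (Gm u σ g) a ∂stdGaussian (Eu d) := by
    intro a
    rw [Y0, vec _ 0 (R + 1) ν (ma a) (fun g => by rw [pow_zero, mul_one]; exact ba a g)
      (by norm_num) hν]
    exact integral_congr_ae (Filter.Eventually.of_forall fun g => by ring)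
  simp only [trT, ← hp, e1, e2, e3, e4, e5, y2]
  ring

end Pool.Agent.Lib.MP_77d991_gt.Ex
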