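import Pool.Agent.Lib.MP_77d991_gt.Ex.F1

open MeasureTheory ProbabilityTheory Set
open scoped RealInnerProductSpace

namespace Pool.Agent.Lib.MP_77d991_gt.Ex

open Pool.Agent.Lib.MP_77d991_gt.As

section
variable {d : ℕ}

lemma f2_Gm_u {u : Eu d} (hu : ‖u‖ = 1) (σ : ℝ) (g : Eu d) : ⟪Gm u σ g, u⟫ = σ * ⟪g, u⟫ := by
  rw [Gm, inner_add_left, real_inner_smul_left, real_inner_self_eq_norm_sq, hu]
  ring

lemma f2_Gm_c {u c : Eu d} (hc : ⟪c, u⟫ = 0) (σ : ℝ) (g : Eu d) : ⟪Gm u σ g, c⟫ = ⟪g, c⟫ := by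
  have h : ⟪u, c⟫ = 0 := by rw [real_inner_comm]; exact hc
  rw [Gm, inner_add_left, real_inner_smul_left, h]
  ring

lemma f2_pj_c {u c : Eu d} (hc : ⟪c, u⟫ = 0) (g : Eu d) : ⟪pj u g, c⟫ = ⟪g, c⟫ := by
  have h : ⟪u, c⟫ = 0 := by rw [real_inner_comm]; exact hc
  rw [pj, inner_sub_left, real_inner_smul_left, h]
  ring

lemma f2_pj_u {u : Eu d} (hu : ‖u‖ = 1) (g : Eu d) : ⟪pj u g, u⟫ = 0 := by
  rw [pj, inner_sub_left, real_inner_smul_left, real_inner_self_eq_norm_sq, hu]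
  ring

lemma f2_norm_Gm {u : Eu d} (hu : ‖u‖ = 1) (σ : ℝ) (g : Eu d) :
    ‖Gm u σ g‖ ^ 2 = ‖pj u g‖ ^ 2 + (σ * ⟪g, u⟫) ^ 2 := by
  have e : Gm u σ g = pj u g + (σ * ⟪g, u⟫) • u := by
    rw [Gm, pj]
    module
  rw [e, norm_add_sq_real, real_inner_smul_right, f2_pj_u hu, norm_smul, hu, Real.norm_eq_abs,
    mul_one, sq_abs]
  ring

lemma f2_pj_le_Gm {u : Eu d} (hu : ‖u‖ = 1) (σ : ℝ) (g : Eu d) : ‖pj u g‖ ≤ ‖Gm u σ g‖ := by
  refine (pow_le_pow_iff_left₀ (norm_nonneg _) (norm_nonneg _) two_ne_zero).1 ?_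
  rw [f2_norm_Gm hu]
  exact le_add_of_nonneg_right (sq_nonneg _)

lemma f2_cont_Gm (u : Eu d) (σ : ℝ) : Continuous (Gm u σ) := by
  unfold Gm
  fun_prop

lemma f2_cont_pj (u : Eu d) : Continuous (pj u) := by
  unfold pj
  fun_prop

lemma f2_refl {u : Eu d} (hu : ‖u‖ = 1) :
    ∃ O : Eu d ≃ₗᵢ[ℝ] Eu d, ∀ g, O g = g - (2 * ⟪g, u⟫) • u := by
  refine ⟨(ℝ ∙ u)ᗮ.reflection, fun g => ?_⟩
  rw [Submodule.reflection_orthogonal_apply, Submodule.reflection_singleton_apply, hu,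
    real_inner_comm]
  simp only [RCLike.ofReal_real_eq_id, id_eq, one_pow, div_one]
  module

/-- a function that is odd for the reflection in `u` has mean zero. -/
lemma f2_odd {u : Eu d} (hu : ‖u‖ = 1) {F : Eu d → ℝ}
    (hF : ∀ g, F (g - (2 * ⟪g, u⟫) • u) = -F g) : ∫ g, F g ∂stdGaussian (Eu d) = 0 := by
  obtain ⟨O, hO⟩ := f2_refl hu
  have h := integral_comp_iso O F
  simp only [hO, hF, integral_neg] at h
  linarith

lemma f2_refl_u {u : Eu d} (hu : ‖u‖ = 1) (g : Eu d) :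
    ⟪g - (2 * ⟪g, u⟫) • u, u⟫ = -⟪g, u⟫ := by
  rw [inner_sub_left, real_inner_smul_left, real_inner_self_eq_norm_sq, hu]
  ring

lemma f2_refl_c {u c : Eu d} (hc : ⟪c, u⟫ = 0) (g : Eu d) :
    ⟪g - (2 * ⟪g, u⟫) • u, c⟫ = ⟪g, c⟫ := by
  have h : ⟪u, c⟫ = 0 := by rw [real_inner_comm]; exact hc
  rw [inner_sub_left, real_inner_smul_left, h]
  ring

lemma f2_refl_norm {u : Eu d} (hu : ‖u‖ = 1) (σ : ℝ) (g : Eu d) :
    ‖Gm u σ (g - (2 * ⟪g, u⟫) • u)‖ = ‖Gm u σ g‖ := by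
  have e : pj u (g - (2 * ⟪g, u⟫) • u) = pj u g := by
    rw [pj, f2_refl_u hu, pj]
    module
  have h := f2_norm_Gm hu σ (g - (2 * ⟪g, u⟫) • u)
  rw [e, f2_refl_u hu, mul_neg, neg_sq, ← f2_norm_Gm hu] at h
  exact (pow_left_inj₀ (norm_nonneg _) (norm_nonneg _) two_ne_zero).1 h

lemma f2_nz_inner (y w : Eu d) : ⟪nz y, w⟫ = ‖y‖⁻¹ * ⟪y, w⟫ := by
  rw [nz, real_inner_smul_left]

lemma f2_int1 {f : Eu d → ℝ} (hf : Measurable f) {K : ℝ} (hK : ∀ g, |f g| ≤ K) (c : Eu d) :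
    Integrable (fun g => f g * ⟪g, c⟫) (stdGaussian (Eu d)) := by
  have h : Integrable (fun g : Eu d => ⟪g, c⟫) (stdGaussian (Eu d)) := by
    simpa [real_inner_comm] using integrable_inner_pow c 1
  exact h.bdd_mul hf.aestronglyMeasurable (Filter.Eventually.of_forall hK)

lemma f2_int2 {f : Eu d → ℝ} (hf : Measurable f) {K : ℝ} (hK : ∀ g, |f g| ≤ K) (p c : Eu d) :
    Integrable (fun g => f g * (⟪g, p⟫ * ⟪g, c⟫)) (stdGaussian (Eu d)) := by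
  have h : Integrable (fun g : Eu d => ⟪g, p⟫ * ⟪g, c⟫) (stdGaussian (Eu d)) := by
    simpa [real_inner_comm] using integrable_inner_mul p c
  exact h.bdd_mul hf.aestronglyMeasurable (Filter.Eventually.of_forall hK)

lemma f2_meas_sign (u : Eu d) : Measurable fun g : Eu d => Real.sign ⟪g, u⟫ :=
  assel_sign_meas.comp (by fun_prop)

end

/-- independence of the coordinate along `u` and the projection. -/
lemma f2_indep {r : ℕ} {u : Eu (r + 1)} (hu : ‖u‖ = 1) {f : ℝ → ℝ} {φ : Eu (r + 1) → ℝ}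
    (hf : Measurable f) (hφ : Measurable φ) (fi : Integrable f (gaussianReal 0 1))
    (φi : Integrable (fun g => φ (pj u g)) (stdGaussian (Eu (r + 1)))) :
    Integrable (fun g => f ⟪g, u⟫ * φ (pj u g)) (stdGaussian (Eu (r + 1))) ∧
    ∫ g, f ⟪g, u⟫ * φ (pj u g) ∂stdGaussian (Eu (r + 1)) =
      (∫ t, f t ∂gaussianReal 0 1) * ∫ g, φ (pj u g) ∂stdGaussian (Eu (r + 1)) := by
  have he : Orthonormal ℝ (fun _ : Fin 1 => u) := by
    refine ⟨fun _ => hu, fun i j hij => absurd (Subsingleton.elim i j) hij⟩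
  obtain ⟨J, hJ, -⟩ := exists_J (n := r) (k := 1) (fun _ => u) he
  have hs := split hu J fun s => hJ s 0
  have hm : Measurable fun g : Eu (r + 1) => (⟪g, u⟫, pj u g) :=
    (by fun_prop : Measurable fun g : Eu (r + 1) => ⟪g, u⟫).prodMk (f2_cont_pj u).measurable
  set ν := (stdGaussian (Eu r)).map J with hν
  have : IsProbabilityMeasure ν := Measure.isProbabilityMeasure_map J.continuous.aemeasurable
  have h2 : (stdGaussian (Eu (r + 1))).map (pj u) = ν := by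
    have := congrArg (Measure.map Prod.snd) hs
    rw [Measure.map_map measurable_snd hm, Measure.map_snd_prod] at this
    simpa [Function.comp_def] using this
  have φν : Integrable φ ν := by
    rw [← h2, integrable_map_measure hφ.aestronglyMeasurable (f2_cont_pj u).aemeasurable]
    exact φi
  have hmm : Measurable fun z : ℝ × Eu (r + 1) => f z.1 * φ z.2 :=
    (hf.comp measurable_fst).mul (hφ.comp measurable_snd)
  constructor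
  · have := fi.mul_prod φν
    rw [← hs, integrable_map_measure hmm.aestronglyMeasurable hm.aemeasurable] at this
    exact this
  · have h1 := integral_prod_mul (μ := gaussianReal 0 1) (ν := ν) f φ
    rw [← hs, integral_map hm.aemeasurable hmm.aestronglyMeasurable] at h1
    rw [h1, ← h2, integral_map (f2_cont_pj u).aemeasurable hφ.aestronglyMeasurable]


/-- loss of the even part of the ball. -/
noncomputable def f2_e {d : ℕ} (u : Eu d) (σ : ℝ) (c : Eu d) : ℝ :=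
  ∫ g, (⟪g, c⟫ ^ 2 * ‖pj u g‖⁻¹ - ⟪nz (Gm u σ g), c⟫ * ⟪g, c⟫) ∂stdGaussian (Eu d)

lemma f2_meas_nzG {d : ℕ} (u : Eu d) (σ : ℝ) (w : Eu d) :
    Measurable fun g : Eu d => ⟪nz (Gm u σ g), w⟫ :=
  (measurable_nz.comp (f2_cont_Gm u σ).measurable).inner measurable_const

lemma f2_inv_le {d : ℕ} {u : Eu d} (hu : ‖u‖ = 1) (σ : ℝ) {g : Eu d} (hs : pj u g ≠ 0) :
    ‖Gm u σ g‖⁻¹ ≤ ‖pj u g‖⁻¹ :=
  inv_anti₀ (norm_pos_iff.2 hs) (f2_pj_le_Gm hu σ g)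

lemma f2_e_pt {d : ℕ} {u c : Eu d} (hc : ⟪c, u⟫ = 0) (σ : ℝ) (g : Eu d) :
    ⟪g, c⟫ ^ 2 * ‖pj u g‖⁻¹ - ⟪nz (Gm u σ g), c⟫ * ⟪g, c⟫ =
      ⟪g, c⟫ ^ 2 * (‖pj u g‖⁻¹ - ‖Gm u σ g‖⁻¹) := by
  rw [f2_nz_inner, f2_Gm_c hc]
  ring

lemma f2_e_nonneg {d : ℕ} {u c : Eu d} (hu : ‖u‖ = 1) (hc : ⟪c, u⟫ = 0) (σ : ℝ) :
    0 ≤ f2_e u σ c := by
  refine integral_nonneg fun g => ?_
  simp only [f2_e_pt hc, Pi.zero_apply]
  rcases eq_or_ne (pj u g) 0 with h | h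
  · rw [← f2_pj_c hc, h]
    simp
  · exact mul_nonneg (sq_nonneg _) (sub_nonneg.2 (f2_inv_le hu σ h))

lemma f2_num {a b t : ℝ} (ha : 0 < a) (hab : a ≤ b) (h : b ^ 2 = a ^ 2 + t) :
    a ^ 2 * (a⁻¹ - b⁻¹) ≤ t / 2 * a⁻¹ := by
  have hb : 0 < b := ha.trans_le hab
  have e : t = (b - a) * (b + a) := by linarith [sq b, sq a]
  have h1 : a ^ 2 * (a⁻¹ - b⁻¹) = (b - a) * (a / b) := by
    field_simp
  have h2 : t / 2 * a⁻¹ = (b - a) * ((b + a) / (2 * a)) := by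
    rw [e]
    field_simp
  rw [h1, h2]
  refine mul_le_mul_of_nonneg_left ?_ (sub_nonneg.2 hab)
  have h3 : a / b ≤ 1 := (div_le_one hb).2 hab
  have h4 : 1 ≤ (b + a) / (2 * a) := (one_le_div (by positivity)).2 (by linarith)
  linarith

lemma f2_sq_gauss : ∫ t, |t| ^ 2 ∂gaussianReal 0 1 = 1 := by
  have h := variance_id_gaussianReal (μ := 0) (v := 1)
  rw [variance_of_integral_eq_zero measurable_id.aemeasurable (by simp)] at h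
  simpa using h

lemma f2_e_sum {r : ℕ} (hr : 2 ≤ r) {u : Eu (r + 1)} (hu : ‖u‖ = 1) (σ : ℝ)
    {c : Fin r → Eu (r + 1)} (hc : Onb u c) : ∑ i, f2_e u σ (c i) ≤ σ ^ 2 * kap r := by
  obtain ⟨-, h2, h3, -, -⟩ := ball_basic hr hu
  have hi : ∀ i, Integrable (fun g => ⟪g, c i⟫ ^ 2 * ‖pj u g‖⁻¹ - ⟪nz (Gm u σ g), c i⟫ * ⟪g, c i⟫)
      (stdGaussian (Eu (r + 1))) := fun i =>
    (h2 (c i) (hc.2 i)).1.sub (f2_int1 (f2_meas_nzG u σ (c i)) (fun g => asrad_abs_le _ _) (c i))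
  unfold f2_e
  rw [← integral_finsetSum _ fun i _ => hi i]
  have h4 := h3 2
  rw [f2_sq_gauss] at h4
  calc _ ≤ ∫ g, σ ^ 2 / 2 * (|⟪g, u⟫| ^ 2 * ‖pj u g‖⁻¹) ∂stdGaussian (Eu (r + 1)) := by
        refine integral_mono (integrable_finsetSum _ fun i _ => hi i) (h4.1.const_mul _) fun g => ?_
        simp only [f2_e_pt (hc.2 _)]
        rw [← Finset.sum_mul]
        rcases eq_or_ne (pj u g) 0 with h | h
        · have : ∀ i, ⟪g, c i⟫ = 0 := fun i => by rw [← f2_pj_c (hc.2 i), h, inner_zero_left]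
          simp [this, h]
        · have hb := hc.1.sum_inner_products_le (pj u g) (s := Finset.univ)
          have hb' : ∑ i, ⟪g, c i⟫ ^ 2 ≤ ‖pj u g‖ ^ 2 := by
            refine le_of_eq_of_le (Finset.sum_congr rfl fun i _ => ?_) hb
            rw [Real.norm_eq_abs, sq_abs, real_inner_comm (pj u g) (c i), f2_pj_c (hc.2 i)]
          calc _ ≤ ‖pj u g‖ ^ 2 * (‖pj u g‖⁻¹ - ‖Gm u σ g‖⁻¹) :=
                mul_le_mul_of_nonneg_right hb' (sub_nonneg.2 (f2_inv_le hu σ h))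
            _ ≤ (σ * ⟪g, u⟫) ^ 2 / 2 * ‖pj u g‖⁻¹ :=
                f2_num (norm_pos_iff.2 h) (f2_pj_le_Gm hu σ g) (f2_norm_Gm hu σ g)
            _ = _ := by rw [sq_abs]; ring
    _ ≤ σ ^ 2 / 2 * (2 * kap r * 1) := by
        rw [integral_const_mul]
        exact mul_le_mul_of_nonneg_left h4.2 (by positivity)
    _ = _ := by ring

/-- the odd-odd part. -/
lemma f2_Q {r : ℕ} (hr : 2 ≤ r) {u p c : Eu (r + 1)} (hu : ‖u‖ = 1) (hp : ⟪p, u⟫ = 0)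
    (hp1 : ‖p‖ ≤ 1) (hc : ⟪c, u⟫ = 0) (hc1 : ‖c‖ = 1) {σ : ℝ} (hσ : 0 < σ) :
    |∫ g, (Real.sign ⟪g, u⟫ * ⟪nz (Gm u σ g), u⟫) * (⟪g, p⟫ * ⟪g, c⟫)
      ∂stdGaussian (Eu (r + 1))| ≤ σ * kap r := by
  obtain ⟨-, h2, -, hk, -⟩ := ball_basic hr hu
  have hφ : Measurable fun s : Eu (r + 1) => (⟪s, p⟫ ^ 2 * ‖s‖⁻¹ + ⟪s, c⟫ ^ 2 * ‖s‖⁻¹) / 2 := by
    fun_prop
  have e : (fun g => (⟪pj u g, p⟫ ^ 2 * ‖pj u g‖⁻¹ + ⟪pj u g, c⟫ ^ 2 * ‖pj u g‖⁻¹) / 2) =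
      fun g => (⟪g, p⟫ ^ 2 * ‖pj u g‖⁻¹ + ⟪g, c⟫ ^ 2 * ‖pj u g‖⁻¹) / 2 := by
    funext g
    rw [f2_pj_c hp, f2_pj_c hc]
  have φi : Integrable (fun g => (⟪pj u g, p⟫ ^ 2 * ‖pj u g‖⁻¹ + ⟪pj u g, c⟫ ^ 2 * ‖pj u g‖⁻¹) / 2)
      (stdGaussian (Eu (r + 1))) := by
    rw [e]
    exact ((h2 p hp).1.add (h2 c hc).1).div_const 2
  have fi : Integrable (fun t : ℝ => |t|) (gaussianReal 0 1) :=
    (IsGaussian.integrable_id (μ := gaussianReal 0 1)).abs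
  obtain ⟨hI, hE⟩ := f2_indep hu (f := fun t => |t|) measurable_norm hφ fi φi
  rw [e, integral_div, integral_add (h2 p hp).1 (h2 c hc).1, (h2 p hp).2, (h2 c hc).2, hc1] at hE
  have ha : ∫ t, |t| ∂gaussianReal 0 1 = alp := rfl
  rw [ha] at hE
  calc _ ≤ ∫ g, σ * (|⟪g, u⟫| * ((⟪pj u g, p⟫ ^ 2 * ‖pj u g‖⁻¹ + ⟪pj u g, c⟫ ^ 2 * ‖pj u g‖⁻¹) / 2))
        ∂stdGaussian (Eu (r + 1)) := by
        rw [← Real.norm_eq_abs]
        refine norm_integral_le_of_norm_le (hI.const_mul σ) (Filter.Eventually.of_forall fun g => ?_)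
        rcases eq_or_ne (pj u g) 0 with h | h
        · have : ⟪g, c⟫ = 0 := by rw [← f2_pj_c hc, h, inner_zero_left]
          simp [this, h]
        · rw [f2_pj_c hp, f2_pj_c hc, f2_nz_inner, f2_Gm_u hu]
          have e2 : Real.sign ⟪g, u⟫ * (‖Gm u σ g‖⁻¹ * (σ * ⟪g, u⟫)) * (⟪g, p⟫ * ⟪g, c⟫) =
              σ * (|⟪g, u⟫| * (‖Gm u σ g‖⁻¹ * (⟪g, p⟫ * ⟪g, c⟫))) := by
            rw [← assel_sign_mul]
            ring
          rw [e2, Real.norm_eq_abs, abs_mul, abs_mul, abs_abs, abs_of_pos hσ, abs_mul,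
            abs_of_nonneg (inv_nonneg.2 (norm_nonneg _))]
          refine mul_le_mul_of_nonneg_left (mul_le_mul_of_nonneg_left ?_ (abs_nonneg _)) hσ.le
          have h5 : |⟪g, p⟫ * ⟪g, c⟫| ≤ (⟪g, p⟫ ^ 2 + ⟪g, c⟫ ^ 2) / 2 := by
            rw [abs_le]
            constructor <;> nlinarith [sq_nonneg (⟪g, p⟫ + ⟪g, c⟫), sq_nonneg (⟪g, p⟫ - ⟪g, c⟫)]
          calc _ ≤ ‖pj u g‖⁻¹ * ((⟪g, p⟫ ^ 2 + ⟪g, c⟫ ^ 2) / 2) :=
                mul_le_mul (f2_inv_le hu σ h) h5 (abs_nonneg _) (inv_nonneg.2 (norm_nonneg _))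
            _ = _ := by ring
    _ = σ * (alp * ((kap r * ‖p‖ ^ 2 + kap r * 1 ^ 2) / 2)) := by rw [integral_const_mul, hE]
    _ ≤ σ * (1 * kap r) := by
        refine mul_le_mul_of_nonneg_left (mul_le_mul alp_pos.2 ?_ (by positivity) zero_le_one) hσ.le
        have : ‖p‖ ^ 2 ≤ 1 := pow_le_one₀ (norm_nonneg _) hp1
        nlinarith
    _ = _ := by ring


lemma f2_sign_bd {d : ℕ} (u : Eu d) {f : Eu d → ℝ} {K : ℝ} (hK : ∀ g, |f g| ≤ K) (g : Eu d) :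
    |Real.sign ⟪g, u⟫ * f g| ≤ K := by
  rw [abs_mul]
  exact (mul_le_of_le_one_left (abs_nonneg _) (assel_sign_abs _)).trans (hK g)

/-- integrability of the unclipped integrand. -/
lemma f2_int_lin {d : ℕ} (u p c : Eu d) (ω : ℝ) {f : Eu d → ℝ} (hf : Measurable f) {K : ℝ}
    (hK : ∀ g, |f g| ≤ K) :
    Integrable (fun g => (1 - Real.sign ⟪g, u⟫ * (ω * ⟪g, p⟫)) * (f g * ⟪g, c⟫))
      (stdGaussian (Eu d)) ∧
    ∫ g, (1 - Real.sign ⟪g, u⟫ * (ω * ⟪g, p⟫)) * (f g * ⟪g, c⟫) ∂stdGaussian (Eu d) =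
      ∫ g, f g * ⟪g, c⟫ ∂stdGaussian (Eu d) -
        ω * ∫ g, (Real.sign ⟪g, u⟫ * f g) * (⟪g, p⟫ * ⟪g, c⟫) ∂stdGaussian (Eu d) := by
  have e : (fun g : Eu d => (1 - Real.sign ⟪g, u⟫ * (ω * ⟪g, p⟫)) * (f g * ⟪g, c⟫)) =
      fun g => f g * ⟪g, c⟫ - ω * ((Real.sign ⟪g, u⟫ * f g) * (⟪g, p⟫ * ⟪g, c⟫)) := by
    funext g
    ring
  have i1 := f2_int1 hf hK c
  have i2 := (f2_int2 (f := fun g => Real.sign ⟪g, u⟫ * f g) ((f2_meas_sign u).mul hf)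
    (f2_sign_bd u hK) p c).const_mul ω
  rw [e, integral_sub i1 i2, integral_const_mul]
  exact ⟨i1.sub i2, rfl⟩

lemma f2_ball {r : ℕ} (hr : 2 ≤ r) {u p c : Eu (r + 1)} (hu : ‖u‖ = 1) (hp : ⟪p, u⟫ = 0)
    (hc : ⟪c, u⟫ = 0) (hc1 : ‖c‖ = 1) (σ ω a : ℝ) :
    ∫ g, (1 - Real.sign ⟪g, u⟫ * (ω * ⟪g, p⟫)) * (⟪nz (Gm u σ g), c - a • u⟫ * ⟪g, c⟫)
      ∂stdGaussian (Eu (r + 1)) = kap r - f2_e u σ c +
        ω * a * ∫ g, (Real.sign ⟪g, u⟫ * ⟪nz (Gm u σ g), u⟫) * (⟪g, p⟫ * ⟪g, c⟫)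
          ∂stdGaussian (Eu (r + 1)) := by
  obtain ⟨-, h2, -, -, -⟩ := ball_basic hr hu
  have mc := f2_meas_nzG u σ c
  have mu := f2_meas_nzG u σ u
  have bc : ∀ g, |⟪nz (Gm u σ g), c⟫| ≤ ‖c‖ := fun g => asrad_abs_le _ _
  have bu : ∀ g, |⟪nz (Gm u σ g), u⟫| ≤ ‖u‖ := fun g => asrad_abs_le _ _
  obtain ⟨i1, e1⟩ := f2_int_lin u p c ω mc bc
  obtain ⟨i2, e2⟩ := f2_int_lin u p c ω mu bu
  have e : (fun g : Eu (r + 1) =>
      (1 - Real.sign ⟪g, u⟫ * (ω * ⟪g, p⟫)) * (⟪nz (Gm u σ g), c - a • u⟫ * ⟪g, c⟫)) =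
      fun g => (1 - Real.sign ⟪g, u⟫ * (ω * ⟪g, p⟫)) * (⟪nz (Gm u σ g), c⟫ * ⟪g, c⟫) -
        a * ((1 - Real.sign ⟪g, u⟫ * (ω * ⟪g, p⟫)) * (⟪nz (Gm u σ g), u⟫ * ⟪g, c⟫)) := by
    funext g
    rw [inner_sub_right, real_inner_smul_right]
    ring
  have o1 : ∫ g, ⟪nz (Gm u σ g), u⟫ * ⟪g, c⟫ ∂stdGaussian (Eu (r + 1)) = 0 := by
    refine f2_odd hu fun g => ?_
    rw [f2_nz_inner, f2_nz_inner, f2_refl_norm hu, f2_Gm_u hu, f2_Gm_u hu, f2_refl_u hu,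
      f2_refl_c hc]
    ring
  have o2 : ∫ g, (Real.sign ⟪g, u⟫ * ⟪nz (Gm u σ g), c⟫) * (⟪g, p⟫ * ⟪g, c⟫)
      ∂stdGaussian (Eu (r + 1)) = 0 := by
    refine f2_odd hu fun g => ?_
    rw [f2_nz_inner, f2_nz_inner, f2_refl_norm hu, f2_Gm_c hc, f2_Gm_c hc, f2_refl_u hu,
      f2_refl_c hc, f2_refl_c hp, Real.sign_neg]
    ring
  have e3 : f2_e u σ c = kap r - ∫ g, ⟪nz (Gm u σ g), c⟫ * ⟪g, c⟫ ∂stdGaussian (Eu (r + 1)) := by
    rw [f2_e, integral_sub (h2 c hc).1 (f2_int1 mc bc c), (h2 c hc).2, hc1]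
    ring
  rw [e, integral_sub i1 (i2.const_mul a), integral_const_mul, e1, e2, o1, o2, e3]
  ring

lemma f2_int_pj {d : ℕ} {u : Eu d} (hu : ‖u‖ = 1) {f : Eu d → ℝ} (hf : Measurable f) {K : ℝ}
    (k : ℕ) (hK : ∀ g, |f g| ≤ K * ‖g‖ ^ k) :
    Integrable (fun g => f g • pj u g) (stdGaussian (Eu d)) := by
  refine Integrable.mono' ((integrable_norm_pow (k + 1)).const_mul K)
    (hf.smul (f2_cont_pj u).measurable).aestronglyMeasurable (Filter.Eventually.of_forall fun g => ?_)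
  have h1 : ‖pj u g‖ ≤ ‖g‖ := by
    have := f2_pj_le_Gm hu 1 g
    simpa [Gm] using this
  rw [norm_smul, Real.norm_eq_abs, pow_succ, ← mul_assoc]
  exact mul_le_mul (hK g) h1 (norm_nonneg _) ((abs_nonneg _).trans (hK g))

lemma f2_Y {d : ℕ} {u c : Eu d} (p : Eu d) (hu : ‖u‖ = 1) (hc : ⟪c, u⟫ = 0) (σ ω : ℝ)
    {F : Eu d → ℝ} (hF : Measurable F) {K : ℝ} (hK : ∀ g, |F g| ≤ K) :
    ∫ g, (1 - Real.sign ⟪g, u⟫ * (ω * ⟪g, p⟫)) * (F (Gm u σ g) * ⟪g, c⟫) ∂stdGaussian (Eu d) =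
      ⟪c, Y0 F u σ - ω • Y1 F u p σ⟫ := by
  have mF : Measurable fun g => F (Gm u σ g) := hF.comp (f2_cont_Gm u σ).measurable
  have i0 : Integrable (fun g => F (Gm u σ g) • pj u g) (stdGaussian (Eu d)) :=
    f2_int_pj hu mF (K := K) 0 fun g => by simpa using hK _
  have i1 : Integrable (fun g => (Real.sign ⟪g, u⟫ * ⟪g, p⟫ * F (Gm u σ g)) • pj u g)
      (stdGaussian (Eu d)) := by
    refine f2_int_pj hu (((f2_meas_sign u).mul (by fun_prop)).mul mF) (K := K * ‖p‖) 1 fun g => ?_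
    rw [mul_assoc]
    refine f2_sign_bd u (f := fun _ => ⟪g, p⟫ * F (Gm u σ g)) (fun _ => ?_) g
    rw [abs_mul, pow_one]
    calc _ ≤ (‖g‖ * ‖p‖) * K :=
          mul_le_mul (abs_real_inner_le_norm _ _) (hK _) (abs_nonneg _) (by positivity)
      _ = _ := by ring
  rw [(f2_int_lin u p c ω mF fun g => hK _).2, inner_sub_right, real_inner_smul_right, Y0, Y1,
    ← integral_inner i0, ← integral_inner i1]
  congr 1
  · refine integral_congr_ae (Filter.Eventually.of_forall fun g => ?_)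
    simp only [real_inner_smul_right]
    rw [real_inner_comm (pj u g) c, f2_pj_c hc]
  · congr 1
    refine integral_congr_ae (Filter.Eventually.of_forall fun g => ?_)
    simp only [real_inner_smul_right]
    rw [real_inner_comm (pj u g) c, f2_pj_c hc]
    ring

lemma f2_Nf_meas {d : ℕ} {h : Eu d → ℝ} {x : Eu d → Eu d} {R : ℝ} (S : Sel h x R) :
    Measurable (Nf x) := S.meas.sub measurable_nz

lemma f2_Nf_bd {d : ℕ} {h : Eu d → ℝ} {x : Eu d → Eu d} {R : ℝ} (S : Sel h x R) (y : Eu d) :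
    ‖Nf x y‖ ≤ R + 1 := (norm_sub_le _ _).trans (add_le_add (S.bdd y) (asrad_norm_nz y))

lemma f2_field {d : ℕ} {h : Eu d → ℝ} {x : Eu d → Eu d} {R : ℝ} (S : Sel h x R) {u c : Eu d}
    (p w : Eu d) (hu : ‖u‖ = 1) (hc : ⟪c, u⟫ = 0) (σ ω : ℝ) :
    (∫ g, (1 - Real.sign ⟪g, u⟫ * (ω * ⟪g, p⟫)) * (⟪Nf x (Gm u σ g), w⟫ * ⟪g, c⟫)
      ∂stdGaussian (Eu d)) ^ 2 ≤
      ‖w‖ ^ 2 * ∑ a, ⟪c, Y0 (fun g => Nf x g a) u σ - ω • Y1 (fun g => Nf x g a) u p σ⟫ ^ 2 := by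
  have mF : ∀ a, Measurable fun g => Nf x g a := fun a =>
    (by fun_prop : Measurable fun y : Eu d => y a).comp (f2_Nf_meas S)
  have bF : ∀ a g, |Nf x g a| ≤ R + 1 := fun a g =>
    (PiLp.norm_apply_le (Nf x g) a).trans (f2_Nf_bd S g)
  have e : (fun g : Eu d => (1 - Real.sign ⟪g, u⟫ * (ω * ⟪g, p⟫)) * (⟪Nf x (Gm u σ g), w⟫ * ⟪g, c⟫)) =
      fun g => ∑ a, w a * ((1 - Real.sign ⟪g, u⟫ * (ω * ⟪g, p⟫)) * (Nf x (Gm u σ g) a * ⟪g, c⟫)) := by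
    funext g
    rw [asmx_inner (Nf x (Gm u σ g)) w, Finset.sum_mul, Finset.mul_sum]
    exact Finset.sum_congr rfl fun a _ => by ring
  rw [e, integral_finsetSum _ fun a _ => (f2_int_lin u p c ω (f := fun g => Nf x (Gm u σ g) a)
    ((mF a).comp (f2_cont_Gm u σ).measurable) fun g => bF a _).1.const_mul _]
  simp only [integral_const_mul]
  rw [Finset.sum_congr rfl fun a _ => by rw [f2_Y p hu hc σ ω (mF a) (bF a)], asmx_norm]
  exact Finset.sum_mul_sq_le_sq_mul_sq _ _ _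

lemma f2_meas_clip : Measurable clip := by
  unfold clip
  fun_prop

lemma f2_clip_abs (t : ℝ) : |clip t| ≤ 1 := by
  unfold clip
  rw [abs_le]
  exact ⟨le_max_left _ _, max_le (by norm_num) (min_le_left _ _)⟩

lemma f2_clip {d : ℕ} (u p c : Eu d) (hc1 : ‖c‖ = 1) (ω : ℝ) {f : Eu d → ℝ}
    {K δ : ℝ} (hK : ∀ g, |f g| ≤ K) (hδ : 0 < δ)
    (ht : ∫ g, (clip (ω * ⟪g, p⟫) - ω * ⟪g, p⟫) ^ 2 ∂stdGaussian (Eu d) ≤ δ ^ 2) :
    |∫ g, (Real.sign ⟪g, u⟫ * (clip (ω * ⟪g, p⟫) - ω * ⟪g, p⟫)) * (f g * ⟪g, c⟫)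
      ∂stdGaussian (Eu d)| ≤ K * δ := by
  have hK0 : 0 ≤ K := (abs_nonneg _).trans (hK 0)
  have mc : Measurable fun g : Eu d => clip (ω * ⟪g, p⟫) := f2_meas_clip.comp (by fun_prop)
  have i2 : ∀ w : Eu d, Integrable (fun g : Eu d => ⟪g, w⟫ ^ 2) (stdGaussian (Eu d)) := fun w => by
    simpa [real_inner_comm] using integrable_inner_pow w 2
  have iA : Integrable (fun g : Eu d => (clip (ω * ⟪g, p⟫) - ω * ⟪g, p⟫) ^ 2)
      (stdGaussian (Eu d)) := by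
    refine Integrable.mono' ((integrable_const 2).add ((i2 p).const_mul (2 * ω ^ 2)))
      ((mc.sub (by fun_prop)).pow_const 2).aestronglyMeasurable
      (Filter.Eventually.of_forall fun g => ?_)
    have h1 := f2_clip_abs (ω * ⟪g, p⟫)
    have h2 : clip (ω * ⟪g, p⟫) ^ 2 ≤ 1 := by
      rw [← sq_abs]
      exact pow_le_one₀ (abs_nonneg _) h1
    rw [Real.norm_eq_abs, abs_of_nonneg (sq_nonneg _)]
    simp only [Pi.add_apply]
    nlinarith [sq_nonneg (clip (ω * ⟪g, p⟫) + ω * ⟪g, p⟫)]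
  have ec : ∫ g, ⟪g, c⟫ ^ 2 ∂stdGaussian (Eu d) = 1 := by
    have := int_inner_sq c
    rw [hc1, one_pow] at this
    simpa [real_inner_comm] using this
  calc _ ≤ ∫ g, K * ((2 * δ)⁻¹ * (clip (ω * ⟪g, p⟫) - ω * ⟪g, p⟫) ^ 2 + δ / 2 * ⟪g, c⟫ ^ 2)
        ∂stdGaussian (Eu d) := by
        rw [← Real.norm_eq_abs]
        refine norm_integral_le_of_norm_le (((iA.const_mul _).add ((i2 c).const_mul _)).const_mul K)
          (Filter.Eventually.of_forall fun g => ?_)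
        set A := clip (ω * ⟪g, p⟫) - ω * ⟪g, p⟫
        set B := ⟪g, c⟫
        have h1 : |A| * |B| ≤ (2 * δ)⁻¹ * A ^ 2 + δ / 2 * B ^ 2 := by
          rw [← sq_abs A, ← sq_abs B]
          have : (2 * δ)⁻¹ * |A| ^ 2 + δ / 2 * |B| ^ 2 - |A| * |B| =
              (2 * δ)⁻¹ * (|A| - δ * |B|) ^ 2 := by
            field_simp
            ring
          have h0 : 0 ≤ (2 * δ)⁻¹ * (|A| - δ * |B|) ^ 2 := by positivity
          linarith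
        rw [Real.norm_eq_abs, abs_mul, abs_mul, abs_mul]
        calc _ ≤ (1 * |A|) * (K * |B|) :=
              mul_le_mul (mul_le_mul_of_nonneg_right (assel_sign_abs _) (abs_nonneg _))
                (mul_le_mul_of_nonneg_right (hK g) (abs_nonneg _)) (by positivity) (by positivity)
          _ = K * (|A| * |B|) := by ring
          _ ≤ _ := mul_le_mul_of_nonneg_left h1 hK0
    _ ≤ K * ((2 * δ)⁻¹ * δ ^ 2 + δ / 2 * 1) := by
        rw [integral_const_mul, integral_add (iA.const_mul _) ((i2 c).const_mul _),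
          integral_const_mul, integral_const_mul, ec]
        gcongr
    _ = _ := by
        field_simp
        ring


/-- the three parts of one diagonal entry. -/
lemma f2_split {d : ℕ} {h : Eu d → ℝ} {x : Eu d → Eu d} {R : ℝ} (S : Sel h x R) (u ν p c : Eu d)
    (σ ω : ℝ) :
    Aq x u ν (ω • p) σ c =
      ∫ g, (1 - Real.sign ⟪g, u⟫ * (ω * ⟪g, p⟫)) * (⟪nz (Gm u σ g), c - ⟪ν, c⟫ • u⟫ * ⟪g, c⟫)
        ∂stdGaussian (Eu d) +
      ∫ g, (1 - Real.sign ⟪g, u⟫ * (ω * ⟪g, p⟫)) * (⟪Nf x (Gm u σ g), c - ⟪ν, c⟫ • u⟫ * ⟪g, c⟫)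
        ∂stdGaussian (Eu d) -
      ∫ g, (Real.sign ⟪g, u⟫ * (clip (ω * ⟪g, p⟫) - ω * ⟪g, p⟫)) *
        (⟪x (Gm u σ g), c - ⟪ν, c⟫ • u⟫ * ⟪g, c⟫) ∂stdGaussian (Eu d) := by
  set w := c - ⟪ν, c⟫ • u
  have mG := (f2_cont_Gm u σ).measurable
  have mx : Measurable fun g => ⟪x (Gm u σ g), w⟫ := (S.meas.comp mG).inner measurable_const
  have bx : ∀ g, |⟪x (Gm u σ g), w⟫| ≤ R * ‖w‖ := fun g =>
    (abs_real_inner_le_norm _ _).trans (mul_le_mul_of_nonneg_right (S.bdd _) (norm_nonneg _))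
  have mN : Measurable fun g => ⟪Nf x (Gm u σ g), w⟫ :=
    ((f2_Nf_meas S).comp mG).inner measurable_const
  have bN : ∀ g, |⟪Nf x (Gm u σ g), w⟫| ≤ (R + 1) * ‖w‖ := fun g =>
    (abs_real_inner_le_norm _ _).trans (mul_le_mul_of_nonneg_right (f2_Nf_bd S _) (norm_nonneg _))
  have i1 := (f2_int_lin u p c ω (f2_meas_nzG u σ w) fun g => asrad_abs_le _ _).1
  have i2 := (f2_int_lin u p c ω mN bN).1
  have i3 := (f2_int_lin u p c ω mx bx).1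
  have mc : Measurable fun g : Eu d => clip (ω * ⟪g, p⟫) := f2_meas_clip.comp (by fun_prop)
  have i4 : Integrable (fun g => (1 - Real.sign ⟪g, u⟫ * clip (ω * ⟪g, p⟫)) *
      (⟪x (Gm u σ g), w⟫ * ⟪g, c⟫)) (stdGaussian (Eu d)) := by
    refine (f2_int1 mx bx c).bdd_mul (c := 2)
      (measurable_const.sub ((f2_meas_sign u).mul mc)).aestronglyMeasurable
      (Filter.Eventually.of_forall fun g => ?_)
    have := f2_sign_bd u (f := fun g => clip (ω * ⟪g, p⟫)) (fun _ => f2_clip_abs _) g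
    rw [Real.norm_eq_abs]
    calc _ ≤ |(1 : ℝ)| + |Real.sign ⟪g, u⟫ * clip (ω * ⟪g, p⟫)| := abs_sub _ _
      _ ≤ 2 := by rw [abs_one]; linarith
  have e1 : (fun g : Eu d => (Real.sign ⟪g, u⟫ * (clip (ω * ⟪g, p⟫) - ω * ⟪g, p⟫)) *
      (⟪x (Gm u σ g), w⟫ * ⟪g, c⟫)) = fun g =>
      (1 - Real.sign ⟪g, u⟫ * (ω * ⟪g, p⟫)) * (⟪x (Gm u σ g), w⟫ * ⟪g, c⟫) -
        (1 - Real.sign ⟪g, u⟫ * clip (ω * ⟪g, p⟫)) * (⟪x (Gm u σ g), w⟫ * ⟪g, c⟫) := by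
    funext g
    ring
  have e2 : (fun g : Eu d =>
      (1 - Real.sign ⟪g, u⟫ * (ω * ⟪g, p⟫)) * (⟪x (Gm u σ g), w⟫ * ⟪g, c⟫)) = fun g =>
      (1 - Real.sign ⟪g, u⟫ * (ω * ⟪g, p⟫)) * (⟪nz (Gm u σ g), w⟫ * ⟪g, c⟫) +
        (1 - Real.sign ⟪g, u⟫ * (ω * ⟪g, p⟫)) * (⟪Nf x (Gm u σ g), w⟫ * ⟪g, c⟫) := by
    funext g
    rw [Nf, inner_sub_left]
    ring
  rw [e1, integral_sub i3 i4, e2, integral_add i1 i2, Aq]
  simp only [wt, real_inner_smul_right]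
  ring

lemma f2_four {k e q f l A : ℝ} (hk : 0 < k) (hA : A = k - e + q + f - l) :
    (A / k - 1) ^ 2 ≤ 4 * ((e / k) ^ 2 + (q / k) ^ 2 + k⁻¹ ^ 2 * f ^ 2 + k⁻¹ ^ 2 * l ^ 2) := by
  have : A / k - 1 = -(e / k) + q / k + k⁻¹ * f - k⁻¹ * l := by
    rw [hA]
    field_simp
    ring
  rw [this, ← mul_pow, ← mul_pow]
  generalize e / k = a
  generalize q / k = b
  generalize k⁻¹ * f = c
  generalize k⁻¹ * l = m
  nlinarith [sq_nonneg (a + b), sq_nonneg (a + c), sq_nonneg (a - m), sq_nonneg (b - c),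
    sq_nonneg (b + m), sq_nonneg (c + m)]

lemma f2_bessel {r : ℕ} {u : Eu (r + 1)} {c : Fin r → Eu (r + 1)} (hc : Onb u c) (y : Eu (r + 1)) :
    ∑ i, ⟪c i, y⟫ ^ 2 ≤ ‖y‖ ^ 2 := by
  refine le_of_eq_of_le (Finset.sum_congr rfl fun i _ => ?_)
    (hc.1.sum_inner_products_le y (s := Finset.univ))
  rw [Real.norm_eq_abs, sq_abs]

/-- `Aq(c) = ball + clip error + field`. Ball: even part `∫ ⟪g,c⟫²/‖G‖` differs from `kap r` by `e_c ≥ 0` with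
`∑ e_c ≤ σ² kap r`; odd-odd part at most `ω |⟪ν,c⟫| σ kap r`; the two mixed parts vanish by the
reflection. Field: `∑_a (c - ⟪ν,c⟫u)_a ⟪Y0_a - ω Y1_a, c⟫`, Cauchy-Schwarz in `a`, Bessel in `c`. -/
theorem s_matrix : ∃ C : ℝ, 0 < C ∧ ∀ r ≥ 2, ∀ (h : Eu (r + 1) → ℝ) (x : Eu (r + 1) → Eu (r + 1))
    (R σ ω : ℝ) (u ν : Eu (r + 1)), Sel h x R → R ≤ 3 → ‖u‖ = 1 → ⟪ν, u⟫ = 0 → ‖ν‖ ≤ 6 → 0 < σ →
    0 < ω → ω ≤ 1 → ∀ c : Fin r → Eu (r + 1), Onb u c →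
      ∑ i, (Aq x u ν (ω • nz ν) σ (c i) / kap r - 1) ^ 2 ≤
        C * (σ ^ 4 + (ω * ‖ν‖ * σ) ^ 2 + ((r : ℝ) + 1) ^ 2 * Real.exp (-(1 / (16 * ω ^ 2))) +
          ((r : ℝ) + 1) * (∑ a, ‖Y0 (fun g => Nf x g a) u σ‖ ^ 2 +
            ω ^ 2 * ∑ a, ‖Y1 (fun g => Nf x g a) u (nz ν) σ‖ ^ 2)) := by
  obtain ⟨C0, hC0, hclip⟩ := clip_tail
  refine ⟨4 * (1 + 392 + 1764 * C0), by positivity, ?_⟩
  intro r hr h x R σ ω u ν S hR hu hν hν6 hσ hω hω1 c hc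
  obtain ⟨-, -, -, hk, hki⟩ := ball_basic hr hu
  set p := nz ν with hp
  have hp1 : ‖p‖ ≤ 1 := asrad_norm_nz ν
  have hpu : ⟪p, u⟫ = 0 := by rw [hp, f2_nz_inner, hν, mul_zero]
  have hk2 : (kap r)⁻¹ ^ 2 ≤ 4 * ((r : ℝ) + 1) := by
    calc _ ≤ (2 * √((r : ℝ) + 1)) ^ 2 := pow_le_pow_left₀ (by positivity) hki 2
      _ = _ := by rw [mul_pow, Real.sq_sqrt (by positivity)]; norm_num
  set E := Real.exp (-(1 / (16 * ω ^ 2))) with hE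
  have hE0 : 0 < E := Real.exp_pos _
  have hE1 : E ≤ 1 := Real.exp_le_one_iff.2 (neg_nonpos.2 (by positivity))
  have hδ : 0 < √(C0 * E) := Real.sqrt_pos.2 (by positivity)
  have ht : ∫ g, (clip (ω * ⟪g, p⟫) - ω * ⟪g, p⟫) ^ 2 ∂stdGaussian (Eu (r + 1)) ≤ √(C0 * E) ^ 2 := by
    rw [Real.sq_sqrt (by positivity)]
    refine (hclip (r + 1) p ω hp1 hω hω1).trans (mul_le_mul_of_nonneg_left ?_ hC0.le)
    refine Real.exp_le_exp.2 (neg_le_neg ?_)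
    exact one_div_le_one_div_of_le (by positivity) (by nlinarith [sq_nonneg ω])
  have hw : ∀ i, ‖c i - ⟪ν, c i⟫ • u‖ ≤ 7 := fun i => by
    have h1 : |⟪ν, c i⟫| ≤ 6 := (abs_real_inner_le_norm _ _).trans (by rw [hc.1.1 i]; linarith)
    refine (norm_sub_le _ _).trans ?_
    rw [hc.1.1 i, norm_smul, hu, Real.norm_eq_abs]
    linarith
  set Y : Fin (r + 1) → Eu (r + 1) := fun a =>
    Y0 (fun g => Nf x g a) u σ - ω • Y1 (fun g => Nf x g a) u p σ with hY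
  have key : ∀ i, (Aq x u ν (ω • p) σ (c i) / kap r - 1) ^ 2 ≤
      4 * ((f2_e u σ (c i) / kap r) ^ 2 + (ω * σ) ^ 2 * ⟪c i, ν⟫ ^ 2 +
        4 * ((r : ℝ) + 1) * (49 * ∑ a, ⟪c i, Y a⟫ ^ 2) + 4 * ((r : ℝ) + 1) * (441 * (C0 * E))) := by
    intro i
    have hs := f2_split S u ν p (c i) σ ω
    rw [f2_ball hr hu hpu (hc.2 i) (hc.1.1 i)] at hs
    refine (f2_four hk hs).trans (mul_le_mul_of_nonneg_left ?_ (by norm_num))
    refine add_le_add (add_le_add (add_le_add le_rfl ?_) ?_) ?_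
    · have hQ := f2_Q hr hu hpu hp1 (hc.2 i) (hc.1.1 i) hσ
      set Q := ∫ g, (Real.sign ⟪g, u⟫ * ⟪nz (Gm u σ g), u⟫) * (⟪g, p⟫ * ⟪g, c i⟫)
        ∂stdGaussian (Eu (r + 1))
      have h1 : (Q / kap r) ^ 2 ≤ σ ^ 2 := by
        rw [← sq_abs, abs_div, abs_of_pos hk]
        exact pow_le_pow_left₀ (by positivity) ((div_le_iff₀ hk).2 hQ) 2
      calc _ = (ω ^ 2 * ⟪c i, ν⟫ ^ 2) * (Q / kap r) ^ 2 := by rw [real_inner_comm ν (c i)]; ring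
        _ ≤ (ω ^ 2 * ⟪c i, ν⟫ ^ 2) * σ ^ 2 := mul_le_mul_of_nonneg_left h1 (by positivity)
        _ = _ := by ring
    · refine mul_le_mul hk2 ((f2_field S p _ hu (hc.2 i) σ ω).trans ?_) (sq_nonneg _) (by positivity)
      refine mul_le_mul_of_nonneg_right ?_ (Finset.sum_nonneg fun a _ => sq_nonneg _)
      nlinarith [hw i, norm_nonneg (c i - ⟪ν, c i⟫ • u)]
    · refine mul_le_mul hk2 ?_ (sq_nonneg _) (by positivity)
      have h1 := f2_clip u p (c i) (hc.1.1 i) ω (f := fun g => ⟪x (Gm u σ g), c i - ⟪ν, c i⟫ • u⟫)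
        (K := 21) (fun g => (abs_real_inner_le_norm _ _).trans (by
          have := mul_le_mul ((S.bdd (Gm u σ g)).trans hR) (hw i) (norm_nonneg _) (by norm_num)
          linarith)) hδ ht
      rw [← sq_abs]
      calc _ ≤ (21 * √(C0 * E)) ^ 2 := pow_le_pow_left₀ (abs_nonneg _) h1 2
        _ = _ := by rw [mul_pow, Real.sq_sqrt (by positivity)]; norm_num
  have s1 : ∑ i, (f2_e u σ (c i) / kap r) ^ 2 ≤ σ ^ 4 := by
    have h0 : ∀ i, 0 ≤ f2_e u σ (c i) / kap r := fun i =>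
      div_nonneg (f2_e_nonneg hu (hc.2 i) σ) hk.le
    have h1 : ∑ i, f2_e u σ (c i) / kap r ≤ σ ^ 2 := by
      rw [← Finset.sum_div, div_le_iff₀ hk]
      exact f2_e_sum hr hu σ hc
    calc _ ≤ (∑ i, f2_e u σ (c i) / kap r) ^ 2 := Finset.sum_sq_le_sq_sum_of_nonneg fun i _ => h0 i
      _ ≤ (σ ^ 2) ^ 2 := pow_le_pow_left₀ (Finset.sum_nonneg fun i _ => h0 i) h1 2
      _ = _ := by ring
  have s2 : ∑ i, (ω * σ) ^ 2 * ⟪c i, ν⟫ ^ 2 ≤ (ω * ‖ν‖ * σ) ^ 2 := by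
    rw [← Finset.mul_sum]
    calc _ ≤ (ω * σ) ^ 2 * ‖ν‖ ^ 2 := mul_le_mul_of_nonneg_left (f2_bessel hc ν) (sq_nonneg _)
      _ = _ := by ring
  set W := ∑ a, ‖Y0 (fun g => Nf x g a) u σ‖ ^ 2 +
    ω ^ 2 * ∑ a, ‖Y1 (fun g => Nf x g a) u p σ‖ ^ 2 with hW
  have hW0 : 0 ≤ W := add_nonneg (Finset.sum_nonneg fun a _ => sq_nonneg _)
    (mul_nonneg (sq_nonneg _) (Finset.sum_nonneg fun a _ => sq_nonneg _))
  have s3 : ∑ i, ∑ a, ⟪c i, Y a⟫ ^ 2 ≤ 2 * W := by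
    rw [Finset.sum_comm, hW, Finset.mul_sum, ← Finset.sum_add_distrib, Finset.mul_sum]
    refine Finset.sum_le_sum fun a _ => (f2_bessel hc _).trans ?_
    have h1 := norm_sub_le (Y0 (fun g => Nf x g a) u σ) (ω • Y1 (fun g => Nf x g a) u p σ)
    rw [norm_smul, Real.norm_eq_abs, abs_of_pos hω] at h1
    refine (pow_le_pow_left₀ (norm_nonneg _) h1 2).trans ?_
    nlinarith [sq_nonneg (‖Y0 (fun g => Nf x g a) u σ‖ - ω * ‖Y1 (fun g => Nf x g a) u p σ‖)]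
  clear_value W Y E
  refine (Finset.sum_le_sum fun i _ => key i).trans ?_
  rw [← Finset.mul_sum, Finset.sum_add_distrib, Finset.sum_add_distrib, Finset.sum_add_distrib,
    ← Finset.mul_sum _ _ (4 * ((r : ℝ) + 1)), ← Finset.mul_sum _ _ (49 : ℝ), Finset.sum_const,
    Finset.card_univ, Fintype.card_fin, nsmul_eq_mul, mul_assoc 4 (1 + 392 + 1764 * C0)]
  refine mul_le_mul_of_nonneg_left ?_ (by norm_num)
  have hr0 : (0 : ℝ) ≤ r := Nat.cast_nonneg r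
  have t3 : 4 * ((r : ℝ) + 1) * (49 * ∑ i, ∑ a, ⟪c i, Y a⟫ ^ 2) ≤ 392 * (((r : ℝ) + 1) * W) := by
    calc _ ≤ 4 * ((r : ℝ) + 1) * (49 * (2 * W)) := by gcongr
      _ = _ := by ring
  have t4 : (r : ℝ) * (4 * ((r : ℝ) + 1) * (441 * (C0 * E))) ≤ 1764 * C0 * (((r : ℝ) + 1) ^ 2 * E) := by
    calc _ ≤ ((r : ℝ) + 1) * (4 * ((r : ℝ) + 1) * (441 * (C0 * E))) := by gcongr; linarith
      _ = _ := by ring
  have p1 : 0 ≤ σ ^ 4 := by positivity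
  have p2 : 0 ≤ (ω * ‖ν‖ * σ) ^ 2 := by positivity
  have p3 : 0 ≤ ((r : ℝ) + 1) ^ 2 * E := by positivity
  have p4 : 0 ≤ ((r : ℝ) + 1) * W := by positivity
  generalize σ ^ 4 = a1 at *
  generalize (ω * ‖ν‖ * σ) ^ 2 = a2 at *
  generalize ((r : ℝ) + 1) ^ 2 * E = a3 at *
  generalize ((r : ℝ) + 1) * W = a4 at *
  nlinarith [mul_nonneg hC0.le p1, mul_nonneg hC0.le p2, mul_nonneg hC0.le p3, mul_nonneg hC0.le p4]

end Pool.Agent.Lib.MP_77d991_gt.Ex
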