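import Pool.Agent.Lib.MP_77d991_gt.Ex.C5
import Pool.Agent.Lib.MP_77d991_gt.Ex.B3

open MeasureTheory ProbabilityTheory Set
open scoped RealInnerProductSpace

namespace Pool.Agent.Lib.MP_77d991_gt.Ex

open Pool.Agent.Lib.MP_77d991_gt.As

theorem f3_mh {d : ℕ} {h : Eu d → ℝ} {x : Eu d → Eu d} {R : ℝ} (S : Sel h x R) :
    Measurable h := by
  have e : h = fun y => ⟪x y, y⟫ := funext fun y => (S.eq y).symm
  rw [e]
  exact S.meas.inner measurable_id

theorem f3_int {α : Type*} [MeasurableSpace α] {μ : Measure α} [IsFiniteMeasure μ] {f : α → ℝ}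
    (hf : Measurable f) (C : ℝ) (h : ∀ᵐ a ∂μ, |f a| ≤ C) : Integrable f μ :=
  Integrable.of_bound hf.aestronglyMeasurable C h

theorem f3_pt {d : ℕ} {h : Eu d → ℝ} {x : Eu d → Eu d} {R : ℝ} (S : Sel h x R) (hR : R ≤ 3)
    {u : Eu d} (hu : ‖u‖ = 1) : ⟪nu h x u, u⟫ = 0 ∧ ‖nu h x u‖ ^ 2 ≤ 36 ∧
      ‖nu h x u‖ ^ 2 ≤ 4 * ‖Nf x u‖ ^ 2 ∧
      ‖Nf x u‖ ^ 2 ≤ 9 * ‖nu h x u‖ ^ 2 + 37 * (h u - 1) ^ 2 := by
  obtain ⟨h1, h2, h3⟩ := Nf_sq S hu
  have h4 : ‖x u‖ ^ 2 ≤ 9 := by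
    have := (S.bdd u).trans hR
    nlinarith [norm_nonneg (x u)]
  have h5 := sq_nonneg ‖tn x u‖
  have h6 := sq_nonneg (h u - 1)
  have h7 := sq_nonneg (h u)
  unfold nu
  split_ifs with hh
  · have h8 : ‖(h u)⁻¹ • tn x u‖ ^ 2 * h u ^ 2 = ‖tn x u‖ ^ 2 := by
      have : h u ≠ 0 := by linarith
      rw [norm_smul, mul_pow, Real.norm_eq_abs, sq_abs]
      field_simp
    have h9 := sq_nonneg ‖(h u)⁻¹ • tn x u‖
    have h10 : 1 / 4 ≤ h u ^ 2 := by nlinarith
    have h11 := mul_le_mul_of_nonneg_left h10 h9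
    have h12 := mul_le_mul_of_nonneg_left (show h u ^ 2 ≤ 9 by linarith) h9
    refine ⟨by rw [real_inner_smul_left, h3, mul_zero], ?_, ?_, ?_⟩ <;> linarith
  · have h10 : 1 / 4 ≤ (h u - 1) ^ 2 := by nlinarith
    rw [inner_zero_left, norm_zero]
    refine ⟨rfl, ?_, ?_, ?_⟩ <;> linarith

/-- `poincare`, `Nf_sq`: where `h < 1/2` one has `‖tn‖² ≤ 9 ≤ 36 f²`. -/
theorem nu_facts : ∃ d0 : ℕ, ∀ d ≥ d0, ∀ (h : Eu d → ℝ) (x : Eu d → Eu d) (R : ℝ), Pos h x R →
    R ≤ 3 → Measurable (nu h x) ∧ (∀ u, ‖u‖ = 1 → ⟪nu h x u, u⟫ = 0 ∧ ‖nu h x u‖ ≤ 6) ∧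
      bsq x / 10 ≤ ∫ u, ‖nu h x u‖ ^ 2 ∂sph d ∧ ∫ u, ‖nu h x u‖ ^ 2 ∂sph d ≤ 4 * bsq x := by
  obtain ⟨C, hC, hP⟩ := poincare
  refine ⟨⌈370 * C⌉₊ + 3, fun d hd h x R P hR => ?_⟩
  have S := P.sel
  have hd0 : 0 < d := by omega
  have hdC : 370 * C ≤ d := (Nat.le_ceil _).trans (Nat.cast_le.2 (by omega))
  have hdp : (0 : ℝ) < d := Nat.cast_pos.2 hd0
  have mh := f3_mh S
  have mx := S.meas
  have mt : Measurable (tn x) := by unfold tn; fun_prop
  have mn : Measurable (nu h x) :=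
    Measurable.ite (measurableSet_le measurable_const mh) (mh.inv.smul mt) measurable_const
  have mN := meas_Nf S
  have bN : ∀ u, ‖Nf x u‖ ^ 2 ≤ (R + 1) ^ 2 := fun u =>
    pow_le_pow_left₀ (norm_nonneg _) (mN.2 u) 2
  have i1 : Integrable (fun u => ‖nu h x u‖ ^ 2) (sph d) :=
    f3_int (mn.norm.pow_const 2) 36 ((sph_unit hd0).mono fun u hu => by
      rw [abs_of_nonneg (sq_nonneg _)]; exact (f3_pt S hR hu).2.1)
  have i2 : Integrable (fun u => ‖Nf x u‖ ^ 2) (sph d) :=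
    f3_int (mN.1.norm.pow_const 2) _ (.of_forall fun u => by
      rw [abs_of_nonneg (sq_nonneg _)]; exact bN u)
  have i3 : Integrable (fun u => (h u - 1) ^ 2) (sph d) :=
    f3_int ((mh.sub_const 1).pow_const 2) ((R + 1) ^ 2) ((sph_unit hd0).mono fun u hu => by
      rw [abs_of_nonneg (sq_nonneg _)]
      linarith [bN u, (Nf_sq S hu).1, sq_nonneg ‖tn x u‖])
  refine ⟨mn, fun u hu => ⟨(f3_pt S hR hu).1, ?_⟩, ?_, ?_⟩
  · exact le_of_sq_le_sq (by linarith [(f3_pt S hR hu).2.1]) (by norm_num)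
  · have h1 : bsq x ≤ ∫ u, (9 * ‖nu h x u‖ ^ 2 + 37 * (h u - 1) ^ 2) ∂sph d :=
      integral_mono_ae i2 ((i1.const_mul 9).add (i3.const_mul 37))
        ((sph_unit hd0).mono fun u hu => (f3_pt S hR hu).2.2.2)
    rw [integral_add (i1.const_mul 9) (i3.const_mul 37), integral_const_mul,
      integral_const_mul] at h1
    have h2 := hP d (by omega) h x R S (P.mean hd0)
    have h3 : 0 ≤ bsq x := integral_nonneg fun u => sq_nonneg _
    have h4 : C * bsq x / d ≤ bsq x / 370 := by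
      rw [div_le_div_iff₀ hdp (by norm_num)]
      nlinarith
    linarith
  · rw [bsq, ← integral_const_mul]
    exact integral_mono_ae i1 (i2.const_mul 4)
      ((sph_unit hd0).mono fun u hu => (f3_pt S hR hu).2.2.1)

/-- mean of `h` on the hyperplane: `Fk_eq`, `rad`, `split`. -/
theorem hyp_mean {r : ℕ} (hr : 0 < r) {h : Eu (r + 1) → ℝ} {x : Eu (r + 1) → Eu (r + 1)} {R : ℝ}
    (S : Sel h x R) {u : Eu (r + 1)} (hu : ‖u‖ = 1) :
    ∫ g, h (pj u g) ∂stdGaussian (Eu (r + 1)) = ad r * (1 + Fk (fun y => h (nz y) - 1) u) := by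
  have mh := f3_mh S
  have hR := S.R_nonneg
  obtain ⟨J, hJ, -⟩ := exists_J (n := r) (k := 1) (fun _ => u)
    ⟨fun _ => hu, fun i j hij => absurd (Subsingleton.elim i j) hij⟩
  have mJ : Measurable J := J.continuous.measurable
  have mp : Measurable (pj u) := by unfold pj; fun_prop
  have hb : ∀ z : Eu r, ‖z‖ = 1 → |h (J z)| ≤ R := fun z hz => by
    rw [abs_of_nonneg (S.h_nonneg _)]
    simpa [hz] using S.h_le (J z)
  have h1 : (stdGaussian (Eu (r + 1))).map (pj u) = (stdGaussian (Eu r)).map J := by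
    have h0 := congrArg Measure.snd (split hu J fun s => hJ s 0)
    rwa [Measure.snd_prod, Measure.snd_map_prodMk (by fun_prop)] at h0
  have h2 : ∫ g, h (pj u g) ∂stdGaussian (Eu (r + 1)) = ∫ s, h (J s) ∂stdGaussian (Eu r) := by
    rw [← integral_map mp.aemeasurable mh.aestronglyMeasurable, h1,
      integral_map mJ.aemeasurable mh.aestronglyMeasurable]
  have h3 := rad hr (mh.comp mJ) 1 hb fun c y hc => by
    simp only [Function.comp_apply, map_smul, S.h_smul, abs_of_pos hc, pow_one]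
  have hF : Bm (fun y => h (nz y) - 1) (R + 1) := ⟨(mh.comp measurable_nz).sub_const 1, fun y => by
    have a1 := S.h_nonneg (nz y)
    have a2 := (S.h_le (nz y)).trans (mul_le_of_le_one_right hR (asxi_nz_le y))
    rw [Real.norm_eq_abs, abs_le]
    constructor <;> linarith⟩
  have h4 := Fk_eq hF hu J (fun s => hJ s 0) (LinearIsometryEquiv.refl ℝ _)
  have i1 : Integrable (fun z => h (J z)) (sph r) := f3_int (mh.comp mJ) R ((sph_unit hr).mono hb)
  have h5 : ∫ z, (h (nz (J z)) - 1) ∂sph r = ∫ z, h (J z) ∂sph r - 1 := by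
    rw [integral_congr_ae (g := fun z => h (J z) - 1) ((sph_unit hr).mono fun z hz => by
      simp [nz, hz]), integral_sub i1 (integrable_const _)]
    simp
  simp only [LinearIsometryEquiv.coe_refl, id] at h4
  simp only [Function.comp_apply, pow_one] at h3
  rw [h2, h3, h4, h5, ad]
  ring

/-- selection of a good point from a mean. -/
theorem pick {α : Type*} [MeasurableSpace α] (μ : Measure α) [IsProbabilityMeasure μ]
    {f θ Z : α → ℝ} {p : α → Prop} (hp : ∀ᵐ a ∂μ, p a) (hZ : ∀ a, 0 ≤ Z a) {g : ℝ} (hg : 0 < g)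
    (hi : Integrable (fun a => f a - 40 * f a ^ 2 + θ a - θ a ^ 2 - 40 * Z a) μ)
    (hm : g ≤ ∫ a, (f a - 40 * f a ^ 2 + θ a - θ a ^ 2 - 40 * Z a) ∂μ) :
    ∃ a, p a ∧ 1 / 2 ≤ 1 + f a ∧ Z a ≤ 1 / 4 ∧ g ≤ Real.log (1 + f a) + (θ a - Z a) := by
  obtain ⟨a, ha, h1⟩ := exists_notMem_null_integral_le hi (ae_iff.1 hp)
  have h2 := hm.trans h1
  have h3 := hZ a
  have h4 : θ a - θ a ^ 2 ≤ 1 / 4 := by nlinarith [sq_nonneg (θ a - 1 / 2)]
  have h5 : f a - 40 * f a ^ 2 ≤ 1 := by nlinarith [sq_nonneg (f a - 1 / 2)]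
  have h6 : 1 / 2 ≤ 1 + f a := by
    by_contra h0
    have : f a < -(1 / 2) := by linarith [not_le.1 h0]
    nlinarith
  have h7 : f a - 2 * f a ^ 2 ≤ Real.log (1 + f a) := by
    refine le_trans ?_ (Real.one_sub_inv_le_log_of_pos (by linarith))
    have h8 : (1 + f a)⁻¹ ≤ 1 - f a + 2 * f a ^ 2 := by
      rw [inv_le_iff_one_le_mul₀ (by linarith)]
      nlinarith [mul_nonneg (sq_nonneg (f a)) (show 0 ≤ 1 + 2 * f a by linarith)]
    linarith
  refine ⟨a, not_not.1 ha, h6, by linarith, ?_⟩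
  nlinarith [sq_nonneg (f a), sq_nonneg (θ a)]

section
variable {d : ℕ} {Ω : Type} [MeasurableSpace Ω] {ν : Measure Ω} {U : Ω → (Eu d ≃ₗᵢ[ℝ] Eu d)}

theorem f3_me (H : Haar ν U) (e : Eu d) : Measurable fun ω => U ω e :=
  H.meas.comp (measurable_id.prodMk measurable_const)

theorem f3_ee (i : Fin d) : ‖ee i‖ = 1 := by simp [ee]

theorem f3_law (H : Haar ν U) (i : Fin d) {F : Eu d → ℝ} (hF : Measurable F) :
    ∫ ω, F (U ω (ee i)) ∂ν = ∫ u, F u ∂sph d := by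
  rw [← H.law (f3_ee i), integral_map (f3_me H _).aemeasurable hF.aestronglyMeasurable]

theorem f3_mul {α : Type*} [MeasurableSpace α] {μ : Measure α} [IsFiniteMeasure μ] {f g : α → ℝ}
    {B B' : ℝ} (hf : Bm f B) (hg : Bm g B') : Integrable (fun a => f a * g a) μ :=
  f3_int (hf.1.mul hg.1) (B * B') (.of_forall fun a => by
    rw [abs_mul]
    exact mul_le_mul (hf.2 a) (hg.2 a) (abs_nonneg _) ((norm_nonneg _).trans (hf.2 a)))

theorem f3_sum (H : Haar ν U) {F : Eu d → ℝ} {B : ℝ} (hF : Bm F B) :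
    Integrable (fun ω => ∑ i, F (U ω (ee i))) ν ∧
      ∫ ω, ∑ i, F (U ω (ee i)) ∂ν = d * ∫ u, F u ∂sph d := by
  have := H.prob
  have i1 : ∀ i ∈ (Finset.univ : Finset (Fin d)), Integrable (fun ω => F (U ω (ee i))) ν :=
    fun i _ => f3_int (hF.1.comp (f3_me H _)) B (.of_forall fun ω => hF.2 _)
  refine ⟨integrable_finsetSum _ i1, ?_⟩
  rw [integral_finsetSum _ i1]
  simp [f3_law H _ hF.1]

theorem f3_var (H : Haar ν U) (hd : 0 < d) {G : Eu d → ℝ} {B C : ℝ} (hG : Bm G B)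
    (hC : 0 < C) (h : ∫ u, Fk G u ^ 2 ∂sph d ≤ C * (∫ u, G u ^ 2 ∂sph d) / d ^ 2) :
    Integrable (fun ω => (∑ i, G (U ω (ee i))) ^ 2) ν ∧
      ∫ ω, (∑ i, G (U ω (ee i))) ^ 2 ∂ν ≤ (2 + C) * d * ∫ u, G u ^ 2 ∂sph d := by
  have := H.prob
  have hdp : (0 : ℝ) < d := Nat.cast_pos.2 hd
  set V := ∫ u, G u ^ 2 ∂sph d with hV
  have hV0 : 0 ≤ V := integral_nonneg fun u => sq_nonneg _
  have bm : ∀ i, Bm (fun ω => G (U ω (ee i))) B := fun i =>
    ⟨hG.1.comp (f3_me H _), fun ω => hG.2 _⟩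
  have i1 : ∀ i j, Integrable (fun ω => G (U ω (ee i)) * G (U ω (ee j))) ν := fun i j =>
    f3_mul (bm i) (bm j)
  have i2 : Integrable (fun u => G u ^ 2) (sph d) := by simpa [sq] using f3_mul hG hG
  have i3 : Integrable (fun u => Fk G u ^ 2) (sph d) := by
    simpa [sq] using f3_mul (Fk_bm hG) (Fk_bm hG)
  have h1 : ∫ u, G u * Fk G u ∂sph d ≤ (1 + C) * V / d := by
    have h2 : ∫ u, G u * Fk G u ∂sph d ≤ ∫ u, ((d : ℝ)⁻¹ * G u ^ 2 + d * Fk G u ^ 2) ∂sph d := by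
      refine integral_mono (f3_mul hG (Fk_bm hG)) ((i2.const_mul _).add (i3.const_mul _))
        fun u => ?_
      refine le_of_mul_le_mul_left ?_ hdp
      rw [mul_add, ← mul_assoc (d : ℝ) (d : ℝ)⁻¹, mul_inv_cancel₀ hdp.ne']
      nlinarith [sq_nonneg (G u - d * Fk G u), sq_nonneg (G u), sq_nonneg (d * Fk G u)]
    rw [integral_add (i2.const_mul _) (i3.const_mul _), integral_const_mul,
      integral_const_mul] at h2
    refine h2.trans ((add_le_add le_rfl (mul_le_mul_of_nonneg_left h hdp.le)).trans_eq ?_)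
    rw [← hV]
    field_simp
  have h3 : ∀ i j, ∫ ω, G (U ω (ee i)) * G (U ω (ee j)) ∂ν ≤
      (if i = j then V else 0) + (1 + C) * V / d := fun i j => by
    split_ifs with hij
    · subst hij
      rw [f3_law H i (F := fun u => G u * G u) (hG.1.mul hG.1)]
      simp only [← sq]
      exact le_add_of_nonneg_right (by positivity)
    · rw [H.pair (f3_ee i) (f3_ee j) (by simp [ee, EuclideanSpace.inner_single_left, hij]) hG hG,
        zero_add]
      exact h1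
  simp only [sq (∑ _, _), Finset.sum_mul_sum]
  refine ⟨integrable_finsetSum _ fun i _ => integrable_finsetSum _ fun j _ => i1 i j, ?_⟩
  rw [integral_finsetSum _ fun i _ => integrable_finsetSum _ fun j _ => i1 i j]
  refine (Finset.sum_le_sum fun i _ => (integral_finsetSum _ fun j _ => i1 i j).trans_le
    (Finset.sum_le_sum fun j _ => h3 i j)).trans_eq ?_
  simp only [Finset.sum_add_distrib, Finset.sum_ite_eq, Finset.mem_univ, if_true, Finset.sum_const,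
    Finset.card_univ, Fintype.card_fin, nsmul_eq_mul]
  field_simp
  ring

/-- second moment of a sum over the frame: `Haar.law`, `Haar.pair`, `Fk_l2`. -/
theorem frame_var : ∃ (C : ℝ) (d0 : ℕ), 0 < C ∧ ∀ d ≥ d0, ∀ (Ω : Type) (_ : MeasurableSpace Ω)
    (ν : Measure Ω) (U : Ω → (Eu d ≃ₗᵢ[ℝ] Eu d)), Haar ν U → ∀ (F : Eu d → ℝ) (B : ℝ), Bm F B →
      ∫ ω, ∑ i, F (U ω (ee i)) ∂ν = d * ∫ u, F u ∂sph d ∧
      ∫ ω, (∑ i, F (U ω (ee i))) ^ 2 ∂ν ≤
        (d * ∫ u, F u ∂sph d) ^ 2 + C * d * ∫ u, F u ^ 2 ∂sph d := by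
  obtain ⟨C, d0, hC, hL⟩ := Fk_l2
  refine ⟨2 + C, d0 + 1, by linarith, fun d hd Ω _ ν U H F B hF => ⟨(f3_sum H hF).2, ?_⟩⟩
  have := H.prob
  set m := ∫ u, F u ∂sph d with hm
  have hG : Bm (fun u => F u - m) (B + ‖m‖) :=
    ⟨hF.1.sub_const m, fun u => (norm_sub_le _ _).trans (add_le_add (hF.2 u) le_rfl)⟩
  have i1 : Integrable F (sph d) := f3_int hF.1 B (.of_forall hF.2)
  have i2 : Integrable (fun u => F u ^ 2) (sph d) := by simpa [sq] using f3_mul hF hF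
  have h0 : ∫ u, (F u - m) ∂sph d = 0 := by
    rw [integral_sub i1 (integrable_const _)]
    simp [hm]
  obtain ⟨i3, h1⟩ := f3_sum H hG
  obtain ⟨i4, h2⟩ := f3_var H (by omega) hG hC (hL d (by omega) _ _ hG h0)
  rw [h0, mul_zero] at h1
  have h3 : ∫ u, (F u - m) ^ 2 ∂sph d ≤ ∫ u, F u ^ 2 ∂sph d := by
    have e : (fun u => (F u - m) ^ 2) = fun u => F u ^ 2 - 2 * m * F u + m ^ 2 :=
      funext fun u => by ring
    have i5 : Integrable (fun u => F u ^ 2 - 2 * m * F u) (sph d) := i2.sub (i1.const_mul _)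
    rw [e, integral_add i5 (integrable_const _),
      integral_sub i2 (i1.const_mul _), integral_const_mul, ← hm]
    simp only [integral_const, probReal_univ, smul_eq_mul, one_mul]
    nlinarith [sq_nonneg m]
  have e : (fun ω => (∑ i, F (U ω (ee i))) ^ 2) = fun ω => (d * m) ^ 2 +
      (2 * (d * m) * ∑ i, (F (U ω (ee i)) - m) + (∑ i, (F (U ω (ee i)) - m)) ^ 2) :=
    funext fun ω => by
      simp only [Finset.sum_sub_distrib, Finset.sum_const, Finset.card_univ, Fintype.card_fin,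
        nsmul_eq_mul]
      ring
  have i5 : Integrable (fun ω => 2 * (d * m) * ∑ i, (F (U ω (ee i)) - m) +
      (∑ i, (F (U ω (ee i)) - m)) ^ 2) ν := (i3.const_mul _).add i4
  rw [e, integral_add (integrable_const _) i5,
    integral_add (i3.const_mul _) i4, integral_const_mul, h1]
  simp only [integral_const, probReal_univ, smul_eq_mul, one_mul, mul_zero, zero_add]
  exact add_le_add le_rfl (h2.trans (mul_le_mul_of_nonneg_left h3 (by positivity)))

end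

end Pool.Agent.Lib.MP_77d991_gt.Ex
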