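import Pool.Agent.Lib.MP_77d991_gt.Ex.F2
import Pool.Agent.Lib.MP_77d991_gt.Ex.F3
import Pool.Agent.Lib.MP_77d991_gt.Ex.D8

open MeasureTheory ProbabilityTheory Set
open scoped RealInnerProductSpace

namespace Pool.Agent.Lib.MP_77d991_gt.Ex

open Pool.Agent.Lib.MP_77d991_gt.As

lemma f4_pick {f θ Z g : ℝ} (hZ : 0 ≤ Z) (hg : 0 < g)
    (h : g ≤ f - 40 * f ^ 2 + θ - θ ^ 2 - 40 * Z) :
    1 / 2 ≤ 1 + f ∧ Z ≤ 1 / 4 ∧ g ≤ Real.log (1 + f) + (θ - Z) := by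
  have h1 : θ - θ ^ 2 ≤ 1 / 4 := by nlinarith [sq_nonneg (θ - 1 / 2)]
  have h2 : f - 40 * f ^ 2 ≤ 1 / 160 := by nlinarith [sq_nonneg (f - 1 / 80)]
  have h3 : -(1 / 2) ≤ f := by nlinarith
  refine ⟨by linarith, by linarith, ?_⟩
  have h4 : 0 < 1 + f := by linarith
  have h5 := Real.one_sub_inv_le_log_of_pos h4
  have h6 : f - 40 * f ^ 2 ≤ 1 - (1 + f)⁻¹ := by
    have : 1 - (1 + f)⁻¹ = f / (1 + f) := by field_simp; ring
    rw [this, le_div_iff₀ h4]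
    nlinarith [sq_nonneg f]
  nlinarith [sq_nonneg θ]

/-- `2 s a b ≤ q a² + (D/q) b²` for `s² = D`. -/
lemma f4_amgm {s D q a b : ℝ} (hs : s ^ 2 = D) (hq : 0 < q) :
    2 * s * a * b ≤ q * a ^ 2 + D / q * b ^ 2 := by
  have h := sq_nonneg (q * a - s * b)
  have e : q * a ^ 2 + D / q * b ^ 2 - 2 * s * a * b = (q * a - s * b) ^ 2 / q := by
    rw [← hs]; field_simp; ring
  have : 0 ≤ (q * a - s * b) ^ 2 / q := by positivity
  linarith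

lemma f4_ball {al Cb W σ0 σ : ℝ} (ha0 : 0 < al) (ha1 : al ≤ 1) (hW0 : 0 ≤ W) (hW1 : W ≤ 1)
    (h0 : 0 < σ0) (h1 : σ0 ≤ 1) (hσ : σ = σ0 + al / 32 * W) (hCb : 0 ≤ Cb)
    (hs : Cb * σ ^ 2 ≤ al / 2) :
    al ^ 2 / 128 * W ^ 2 - 8 * σ0 ^ 2 ≤ W * σ * (al - Cb * σ ^ 2) - 4 * σ ^ 2 ∧
      (W * σ * (al - Cb * σ ^ 2) - 4 * σ ^ 2) ^ 2 ≤ 260 * σ0 ^ 2 + 66 * W ^ 4 ∧
      σ ^ 4 ≤ 8 * σ0 ^ 2 + 2 * W ^ 4 ∧ (W * σ) ^ 2 ≤ 2 * σ0 ^ 2 + W ^ 4 := by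
  set A := al / 32 * W with hA
  have hA0 : 0 ≤ A := by positivity
  have hA1 : A ≤ W / 32 := by rw [hA]; nlinarith
  have hσ0 : 0 < σ := by rw [hσ]; positivity
  have s2 : σ ^ 2 ≤ 2 * σ0 ^ 2 + 2 * A ^ 2 := by rw [hσ]; nlinarith [sq_nonneg (σ0 - A)]
  have A2 : A ^ 2 ≤ W ^ 2 / 1024 := by nlinarith
  have s2' : σ ^ 2 ≤ 2 * σ0 ^ 2 + W ^ 2 := by nlinarith
  have W2 : W ^ 2 ≤ 1 := by nlinarith
  have z2 : σ0 ^ 2 ≤ 1 := by nlinarith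
  have p4 : σ ^ 4 ≤ 8 * σ0 ^ 2 + 2 * W ^ 4 := by
    have : σ ^ 4 ≤ (2 * σ0 ^ 2 + W ^ 2) ^ 2 := by
      rw [show σ ^ 4 = (σ ^ 2) ^ 2 by ring]
      exact pow_le_pow_left₀ (by positivity) s2' 2
    nlinarith [sq_nonneg (2 * σ0 ^ 2 - W ^ 2), sq_nonneg σ0]
  have p2 : (W * σ) ^ 2 ≤ 2 * σ0 ^ 2 + W ^ 4 := by
    have : W ^ 2 * σ ^ 2 ≤ W ^ 2 * (2 * σ0 ^ 2 + W ^ 2) :=
      mul_le_mul_of_nonneg_left s2' (by positivity)
    nlinarith [sq_nonneg σ0]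
  have hWσ : 0 ≤ W * σ := by positivity
  have c0 : 0 ≤ Cb * σ ^ 2 := by positivity
  have l1 : W * σ * (al / 2) ≤ W * σ * (al - Cb * σ ^ 2) :=
    mul_le_mul_of_nonneg_left (by linarith) hWσ
  have l2 : W * σ * (al - Cb * σ ^ 2) ≤ W * σ := by nlinarith
  have l3 : 16 * A ^ 2 ≤ W * σ * (al / 2) := by
    have : W * σ * (al / 2) = 16 * A * σ := by rw [hA]; ring
    rw [this, hσ]; nlinarith
  have l4 : al ^ 2 / 128 * W ^ 2 = 8 * A ^ 2 := by rw [hA]; ring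
  refine ⟨by nlinarith, ?_, p4, p2⟩
  set P := W * σ * (al - Cb * σ ^ 2)
  have P0 : 0 ≤ P := le_trans (by positivity) l1
  have P2 : P ^ 2 ≤ (W * σ) ^ 2 := pow_le_pow_left₀ P0 l2 2
  nlinarith [sq_nonneg (P + 4 * σ ^ 2)]

lemma f4_div {κ s y : ℝ} (hκ : 0 < κ) (hk : κ⁻¹ ≤ 2 * s) : |y / κ| ≤ 2 * s * |y| := by
  rw [abs_div, abs_of_pos hκ, div_eq_mul_inv, mul_comm]
  exact mul_le_mul_of_nonneg_right hk (abs_nonneg _)

lemma f4_sq {F s a b D : ℝ} (hs : s ^ 2 = D) (h : |F| ≤ 2 * s * a * b) :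
    F ^ 2 ≤ 4 * (a ^ 2 * (D * b ^ 2)) := by
  have t := pow_le_pow_left₀ (abs_nonneg _) h 2
  rw [sq_abs] at t
  calc _ ≤ _ := t
    _ = _ := by rw [← hs]; ring

lemma f4_six (A B F1 F2 F3 E : ℝ) : (A + B + F1 - F2 - F3 - E) ^ 2 ≤
    6 * (A ^ 2 + B ^ 2 + F1 ^ 2 + F2 ^ 2 + F3 ^ 2 + E ^ 2) := by
  linarith [sq_nonneg (A - B), sq_nonneg (A - F1), sq_nonneg (A + F2), sq_nonneg (A + F3),
    sq_nonneg (A + E), sq_nonneg (B - F1), sq_nonneg (B + F2), sq_nonneg (B + F3),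
    sq_nonneg (B + E), sq_nonneg (F1 + F2), sq_nonneg (F1 + F3), sq_nonneg (F1 + E),
    sq_nonneg (F2 - F3), sq_nonneg (F2 - E), sq_nonneg (F3 - E)]

lemma f4_w {ω n K c : ℝ} (hn0 : 0 ≤ n) (hn1 : n ≤ 6) (hK : 0 ≤ K) (h : 36 * K * ω ^ 2 ≤ c) :
    K * (ω * n) ^ 4 ≤ c * (ω * n) ^ 2 := by
  have n2 : n ^ 2 ≤ 36 := by nlinarith
  have t1 : K * ω ^ 2 * n ^ 2 ≤ K * ω ^ 2 * 36 := mul_le_mul_of_nonneg_left n2 (by positivity)
  have t2 : K * ω ^ 2 * n ^ 2 ≤ c := by linarith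
  calc K * (ω * n) ^ 4 = K * ω ^ 2 * n ^ 2 * (ω * n) ^ 2 := by ring
    _ ≤ _ := mul_le_mul_of_nonneg_right t2 (sq_nonneg _)

/-- the pointwise inequality. -/
theorem f4_point {al Cb Ct Cm D s κ q ω n σ0 σ e f A a0 a1 a2 a3 a4 θ Z g : ℝ}
    (ha0 : 0 < al) (ha1 : al ≤ 1) (hCb : 0 ≤ Cb) (hCt : 0 ≤ Ct) (hCm : 0 ≤ Cm)
    (hD : 1 ≤ D) (hs0 : 0 ≤ s) (hs : s ^ 2 = D) (hκ : 0 < κ) (hk : κ⁻¹ ≤ 2 * s)
    (hq0 : 0 < q) (hq1 : q ≤ 1) (hω0 : 0 < ω) (hω1 : ω ≤ 1 / 8) (hn0 : 0 ≤ n) (hn1 : n ≤ 6)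
    (h0 : 0 < σ0) (h1 : σ0 ≤ 1 / 8) (hσ : σ = σ0 + al / 32 * ω * n) (hsb : Cb * σ ^ 2 ≤ al / 2)
    (hω : 36 * (396 + 120 * Cm) * ω ^ 2 ≤ al ^ 2 / 256) (he0 : 0 ≤ e) (he1 : e ≤ 1)
    (h00 : 0 ≤ a0) (h10 : 0 ≤ a1) (h4 : a4 ^ 2 ≤ n ^ 2 * a0)
    (hθ : θ = A + (ω * n * σ * (al - Cb * σ ^ 2) - 4 * σ ^ 2) +
      (ω * n * a2 - 2 * σ * a3 - a4 - Ct * e) / κ)
    (hZ : Z = Cm * (σ ^ 4 + (ω * n * σ) ^ 2 + D ^ 2 * e + D * (a0 + ω ^ 2 * a1))) (hg : 0 < g)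
    (h : g ≤ f - 40 * f ^ 2 + A - 6 * A ^ 2 + al ^ 2 / 256 * ω ^ 2 * n ^ 2 -
      (1570 + 400 * Cm) * σ0 ^ 2 - (2 * Ct + 24 * Ct ^ 2 + 40 * Cm) * (D ^ 2 * e) - 4 * q * n ^ 2 -
      (868 + 40 * Cm) * (D / q) * (a0 + a2 ^ 2 + a3 ^ 2) - 40 * Cm * D * ω ^ 2 * a1) :
    1 / 2 ≤ 1 + f ∧ Z ≤ 1 / 4 ∧ g ≤ Real.log (1 + f) + (θ - Z) := by
  have hσ0 : 0 < σ := by rw [hσ]; positivity
  have hZ0 : 0 ≤ Z := by rw [hZ]; positivity
  refine f4_pick hZ0 hg (h.trans ?_)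
  have w4 := f4_w hn0 hn1 (by positivity : 0 ≤ 396 + 120 * Cm) hω
  have eW : al ^ 2 / 256 * ω ^ 2 * n ^ 2 = al ^ 2 / 256 * (ω * n) ^ 2 := by ring
  rw [eW]
  have hσ' : σ = σ0 + al / 32 * (ω * n) := by rw [hσ]; ring
  have hW0 : 0 ≤ ω * n := by positivity
  have hW1 : ω * n ≤ 3 / 4 := (mul_le_mul hω1 hn1 hn0 (by norm_num)).trans (by norm_num)
  have hWn : ω * n ≤ n := mul_le_of_le_one_left hn0 (by linarith)
  clear hσ hω eW h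
  generalize ω * n = W at *
  obtain ⟨b1, b2, b3, b4⟩ := f4_ball ha0 ha1 hW0 (by linarith) h0 (by linarith) hσ' hCb hsb
  generalize W * σ * (al - Cb * σ ^ 2) - 4 * σ ^ 2 = B at *
  have hA1 : al / 32 * W ≤ 1 / 32 * W := mul_le_mul_of_nonneg_right (by linarith) hW0
  have hσ1 : σ ≤ 1 / 4 := by linarith
  have hσn : σ ≤ σ0 + n := by linarith
  have hDq : D ≤ D / q := le_div_self (by linarith) hq0 hq1
  have hs1 : 1 ≤ s := by
    rw [← hs] at hD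
    exact (one_le_sq_iff_one_le_abs s).1 hD |>.trans (abs_of_nonneg hs0).le
  have hDD : D ≤ D ^ 2 := le_self_pow₀ hD two_ne_zero
  have hsD : s ≤ D ^ 2 := by
    have : s ≤ s ^ 2 := le_self_pow₀ hs1 two_ne_zero
    linarith
  have eθ : θ = A + B + W * a2 / κ - 2 * σ * a3 / κ - a4 / κ - Ct * e / κ := by rw [hθ]; ring
  have q1 : |W * a2 / κ| ≤ 2 * s * n * |a2| := by
    refine (f4_div hκ hk).trans ?_
    rw [abs_mul, abs_of_nonneg hW0, mul_assoc (2 * s)]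
    gcongr
  have q2 : |2 * σ * a3 / κ| ≤ 2 * s * (2 * σ) * |a3| := by
    refine (f4_div hκ hk).trans ?_
    rw [abs_mul, abs_of_pos (by positivity : 0 < 2 * σ), mul_assoc (2 * s)]
  have h4' : |a4| ≤ n * √a0 := by
    rw [← Real.sqrt_sq_eq_abs, ← Real.sqrt_sq hn0, ← Real.sqrt_mul (by positivity)]
    exact Real.sqrt_le_sqrt h4
  have q3 : |a4 / κ| ≤ 2 * s * n * √a0 := by
    refine (f4_div hκ hk).trans ?_
    rw [mul_assoc (2 * s)]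
    gcongr
  have q4 : |Ct * e / κ| ≤ 2 * s * Ct * e := by
    refine (f4_div hκ hk).trans ?_
    rw [abs_of_nonneg (by positivity), mul_assoc (2 * s)]
  clear hθ h4 h4' hk
  generalize W * a2 / κ = F1 at *
  generalize 2 * σ * a3 / κ = F2 at *
  generalize a4 / κ = F3 at *
  generalize Ct * e / κ = E at *
  have r0 : √a0 ^ 2 = a0 := Real.sq_sqrt h00
  have n2 : n ^ 2 ≤ 36 := (pow_le_pow_left₀ hn0 hn1 2).trans (by norm_num)
  have d0 : D * a0 ≤ D / q * a0 := mul_le_mul_of_nonneg_right hDq h00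
  have d2 : D * a2 ^ 2 ≤ D / q * a2 ^ 2 := mul_le_mul_of_nonneg_right hDq (by positivity)
  have d3 : D * a3 ^ 2 ≤ D / q * a3 ^ 2 := mul_le_mul_of_nonneg_right hDq (by positivity)
  have l1 : |F1| ≤ q * n ^ 2 + D / q * a2 ^ 2 := by
    have := f4_amgm (a := n) (b := |a2|) hs hq0
    rw [sq_abs] at this
    linarith
  have l3 : |F3| ≤ q * n ^ 2 + D / q * a0 := by
    have := f4_amgm (a := n) (b := √a0) hs hq0
    rw [r0] at this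
    linarith
  have l2 : |F2| ≤ 2 * q * n ^ 2 + 2 * σ0 ^ 2 + 4 * (D / q * a3 ^ 2) := by
    have t1 := f4_amgm (a := n) (b := |a3|) hs hq0
    have t2 := f4_amgm (a := σ0) (b := |a3|) hs one_pos
    rw [sq_abs] at t1 t2
    rw [div_one] at t2
    have t4 : 2 * s * (2 * σ) * |a3| ≤ 2 * s * (2 * (σ0 + n)) * |a3| := by gcongr
    linarith
  have l4 : |E| ≤ 2 * Ct * (D ^ 2 * e) := by
    have : s * (Ct * e) ≤ D ^ 2 * (Ct * e) := mul_le_mul_of_nonneg_right hsD (by positivity)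
    linarith
  have m1 : F1 ^ 2 ≤ 144 * (D / q * a2 ^ 2) := by
    have t := f4_sq hs q1
    rw [sq_abs] at t
    have t3 : n ^ 2 * (D * a2 ^ 2) ≤ 36 * (D * a2 ^ 2) :=
      mul_le_mul_of_nonneg_right n2 (by positivity)
    linarith
  have m3 : F3 ^ 2 ≤ 144 * (D / q * a0) := by
    have t := f4_sq hs q3
    rw [r0] at t
    have t3 : n ^ 2 * (D * a0) ≤ 36 * (D * a0) := mul_le_mul_of_nonneg_right n2 (by positivity)
    linarith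
  have m2 : F2 ^ 2 ≤ D / q * a3 ^ 2 := by
    have t := f4_sq hs q2
    rw [sq_abs] at t
    have t4 : (2 * σ) ^ 2 ≤ 1 / 4 :=
      (pow_le_pow_left₀ (by positivity) (by linarith : 2 * σ ≤ 1 / 2) 2).trans (by norm_num)
    have t3 : (2 * σ) ^ 2 * (D * a3 ^ 2) ≤ 1 / 4 * (D * a3 ^ 2) :=
      mul_le_mul_of_nonneg_right t4 (by positivity)
    linarith
  have m4 : E ^ 2 ≤ 4 * Ct ^ 2 * (D ^ 2 * e) := by
    have t := f4_sq hs q4
    have t1 : e ^ 2 ≤ e := pow_le_of_le_one he0 he1 two_ne_zero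
    have t2 : D * e ^ 2 ≤ D ^ 2 * e := mul_le_mul hDD t1 (by positivity) (by positivity)
    have t3 : Ct ^ 2 * (D * e ^ 2) ≤ Ct ^ 2 * (D ^ 2 * e) :=
      mul_le_mul_of_nonneg_left t2 (by positivity)
    linarith
  have sq6 := f4_six A B F1 F2 F3 E
  rw [← eθ] at sq6
  have z1 : Z ≤ Cm * (10 * σ0 ^ 2 + 3 * W ^ 4 + D ^ 2 * e + D / q * a0 + D * ω ^ 2 * a1) := by
    rw [hZ]
    refine mul_le_mul_of_nonneg_left ?_ hCm
    linarith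
  have u0 : 0 ≤ D / q * a0 := by positivity
  have u2 : 0 ≤ D / q * a2 ^ 2 := by positivity
  have u3 : 0 ≤ D / q * a3 ^ 2 := by positivity
  have v2 : 0 ≤ Cm * (D / q * a2 ^ 2) := by positivity
  have v3 : 0 ≤ Cm * (D / q * a3 ^ 2) := by positivity
  have g1 := neg_abs_le F1
  have g2 := le_abs_self F2
  have g3 := le_abs_self F3
  have g4 := le_abs_self E
  generalize D / q = Q at *
  linarith

lemma f4_mean {al Cm Cy Cp Cf K1 K2 K3 c C D q k ω σ0 σ1 b De s g If If2 IA IA2 In I0 I1 I2 I3 : ℝ}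
    (hCm : 0 ≤ Cm) (hCy : 0 ≤ Cy) (hCp : 0 ≤ Cp) (hCf : 0 ≤ Cf) (hK1 : 0 ≤ K1) (hK2 : 0 ≤ K2)
    (hK3 : 0 ≤ K3) (hD : 0 < D) (hq0 : 0 < q) (hq1 : q ≤ 1) (hq : q ^ 2 = D * k) (hDq : 1 / D ≤ q)
    (hω0 : 0 < ω) (hω1 : ω ≤ 1) (hb0 : 0 ≤ b) (hb1 : b ≤ 16) (hDe : 0 ≤ De) (hs : 0 ≤ s)
    (hσ1 : σ1 ^ 2 ≤ 2 * σ0 ^ 2 + 2 * ω ^ 2) (hc : c ≤ al ^ 2 / 5120)
    (hω : 80 * Cm * Cy * ω ^ 2 ≤ al ^ 2 / 5120)
    (hC : C = 40 * Cp + 6 * Cf * Cp + 16 + 3 * K3 * Cy + 40 * Cm * Cy + K1 + 1280 * Cm * Cy + K2)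
    (e1 : If = 0) (e2 : If2 ≤ Cp * b / D) (e3 : IA = 0) (e4 : IA2 ≤ Cf * If2)
    (e5 : b / 10 ≤ In) (e6 : In ≤ 4 * b) (e7 : I0 ≤ Cy * k * b)
    (e8 : I1 ≤ Cy * (k + σ1 ^ 2 / D) * b) (e9 : I2 ≤ Cy * k * b) (e10 : I3 ≤ Cy * k * b)
    (hg : g ≤ c * ω ^ 2 * b - C * (q * b + s + σ0 ^ 2 + De)) :
    g ≤ If - 40 * If2 + IA - 6 * IA2 + al ^ 2 / 256 * ω ^ 2 * In - K1 * σ0 ^ 2 - K2 * De -
      4 * q * In - K3 * (D / q) * (I0 + I2 + I3) - 40 * Cm * D * ω ^ 2 * I1 := by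
  have hqb : 0 ≤ q * b := by positivity
  have p1 : If2 ≤ Cp * (q * b) := by
    refine e2.trans ?_
    have : Cp * b * (1 / D) ≤ Cp * b * q := mul_le_mul_of_nonneg_left hDq (by positivity)
    calc Cp * b / D = Cp * b * (1 / D) := by ring
      _ ≤ _ := this
      _ = _ := by ring
  have p2 : IA2 ≤ Cf * Cp * (q * b) := by
    have := mul_le_mul_of_nonneg_left p1 hCf
    linarith
  have p3 : al ^ 2 / 256 * ω ^ 2 * (b / 10) ≤ al ^ 2 / 256 * ω ^ 2 * In :=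
    mul_le_mul_of_nonneg_left e5 (by positivity)
  have p4 : 4 * q * In ≤ 4 * q * (4 * b) := mul_le_mul_of_nonneg_left e6 (by positivity)
  have p5 : K3 * (D / q) * (I0 + I2 + I3) ≤ 3 * K3 * Cy * (q * b) := by
    have t : K3 * (D / q) * (I0 + I2 + I3) ≤ K3 * (D / q) * (3 * (Cy * k * b)) :=
      mul_le_mul_of_nonneg_left (by linarith) (by positivity)
    refine t.trans (le_of_eq ?_)
    have : k = q ^ 2 / D := by rw [hq]; field_simp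
    rw [this]
    field_simp
  have w2 : ω ^ 2 ≤ 1 := pow_le_one₀ hω0.le hω1
  have p6 : 40 * Cm * D * ω ^ 2 * I1 ≤ 40 * Cm * Cy * (q * b) + 1280 * Cm * Cy * σ0 ^ 2 +
      al ^ 2 / 5120 * ω ^ 2 * b := by
    have t : 40 * Cm * D * ω ^ 2 * I1 ≤ 40 * Cm * D * ω ^ 2 * (Cy * (k + σ1 ^ 2 / D) * b) :=
      mul_le_mul_of_nonneg_left e8 (by positivity)
    have t1 : 40 * Cm * D * ω ^ 2 * (Cy * (k + σ1 ^ 2 / D) * b) =
        40 * Cm * Cy * (ω ^ 2 * b * (q ^ 2 + σ1 ^ 2)) := by rw [hq]; field_simp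
    have t2 : q ^ 2 ≤ q := pow_le_of_le_one hq0.le hq1 two_ne_zero
    have t3 : ω ^ 2 * b * (q ^ 2 + σ1 ^ 2) ≤ ω ^ 2 * b * (q + (2 * σ0 ^ 2 + 2 * ω ^ 2)) :=
      mul_le_mul_of_nonneg_left (by linarith) (by positivity)
    have t4 : ω ^ 2 * (q * b) ≤ 1 * (q * b) := mul_le_mul_of_nonneg_right w2 hqb
    have t5 : ω ^ 2 * b * σ0 ^ 2 ≤ 1 * 16 * σ0 ^ 2 :=
      mul_le_mul_of_nonneg_right (mul_le_mul w2 hb1 hb0 one_pos.le) (by positivity)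
    have t6 : ω ^ 2 * b * (q ^ 2 + σ1 ^ 2) ≤ q * b + 32 * σ0 ^ 2 + 2 * ω ^ 2 * (ω ^ 2 * b) := by
      linarith
    have t7 := mul_le_mul_of_nonneg_left t6 (by positivity : 0 ≤ 40 * Cm * Cy)
    have t8 := mul_le_mul_of_nonneg_right hω (by positivity : 0 ≤ ω ^ 2 * b)
    linarith
  have p7 : c * (ω ^ 2 * b) ≤ al ^ 2 / 5120 * (ω ^ 2 * b) :=
    mul_le_mul_of_nonneg_right hc (by positivity)
  have hC0 : 0 ≤ C := by rw [hC]; positivity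
  have p8 : 0 ≤ C * s := by positivity
  have p9 : (40 * Cp + 6 * Cf * Cp + 16 + 3 * K3 * Cy + 40 * Cm * Cy) * (q * b) ≤ C * (q * b) :=
    mul_le_mul_of_nonneg_right (by rw [hC]; have : 0 ≤ Cm * Cy := by positivity
                                   linarith) hqb
  have p10 : (K1 + 1280 * Cm * Cy) * σ0 ^ 2 ≤ C * σ0 ^ 2 :=
    mul_le_mul_of_nonneg_right (by
      rw [hC]
      have : 0 ≤ Cm * Cy := by positivity
      have : 0 ≤ Cf * Cp := by positivity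
      have : 0 ≤ K3 * Cy := by positivity
      linarith) (by positivity)
  have p11 : K2 * De ≤ C * De :=
    mul_le_mul_of_nonneg_right (by
      rw [hC]
      have : 0 ≤ Cm * Cy := by positivity
      have : 0 ≤ Cf * Cp := by positivity
      have : 0 ≤ K3 * Cy := by positivity
      linarith) hDe
  rw [e1, e3]
  linarith

lemma f4_int {α : Type*} [MeasurableSpace α] {μ : Measure α} [IsProbabilityMeasure μ]
    {f f2 A A2 n a0 a1 a2 a3 : α → ℝ} (i1 : Integrable f μ) (i2 : Integrable f2 μ)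
    (i3 : Integrable A μ) (i4 : Integrable A2 μ) (i5 : Integrable n μ) (i6 : Integrable a0 μ)
    (i7 : Integrable a1 μ) (i8 : Integrable a2 μ) (i9 : Integrable a3 μ) {p : α → Prop}
    (hp : ∀ᵐ u ∂μ, p u) {g k1 k2 k3 k4 k5 k6 : ℝ}
    (hg : g ≤ ∫ u, f u ∂μ - 40 * ∫ u, f2 u ∂μ + ∫ u, A u ∂μ - 6 * ∫ u, A2 u ∂μ +
      k1 * ∫ u, n u ∂μ - k2 - k3 - k4 * ∫ u, n u ∂μ -
      k5 * (∫ u, a0 u ∂μ + ∫ u, a2 u ∂μ + ∫ u, a3 u ∂μ) - k6 * ∫ u, a1 u ∂μ) :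
    ∃ u, p u ∧ g ≤ f u - 40 * f2 u + A u - 6 * A2 u + k1 * n u - k2 - k3 - k4 * n u -
      k5 * (a0 u + a2 u + a3 u) - k6 * a1 u := by
  have j1 := i1.sub (i2.const_mul 40)
  have j2 := j1.add i3
  have j3 := j2.sub (i4.const_mul 6)
  have j4 := j3.add (i5.const_mul k1)
  have j5 := j4.sub (integrable_const k2)
  have j6 := j5.sub (integrable_const k3)
  have j7 := j6.sub (i5.const_mul k4)
  have j8 := (i6.add i8).add i9
  have j9 := j7.sub (j8.const_mul k5)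
  have j10 := j9.sub (i7.const_mul k6)
  obtain ⟨u, hu, h⟩ := exists_notMem_null_integral_le j10 (ae_iff.1 hp)
  refine ⟨u, not_not.1 hu, hg.trans (le_of_eq_of_le ?_ h)⟩
  rw [integral_sub' j9 (i7.const_mul k6), integral_sub' j7 (j8.const_mul k5),
    integral_sub' j6 (i5.const_mul k4), integral_sub' j5 (integrable_const k3),
    integral_sub' j4 (integrable_const k2), integral_add' j3 (i5.const_mul k1),
    integral_sub' j2 (i4.const_mul 6), integral_add' j1 i3, integral_sub' i1 (i2.const_mul 40)]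
  simp only [integral_const_mul, integral_const, probReal_univ, one_smul]
  rw [integral_add' (i6.add i8) i9, integral_add' i6 i8]

lemma f4_cs {d : ℕ} {u ν : Eu d} (hu : ‖u‖ = 1) (Y : Fin d → Eu d) :
    (∑ a, u a * ⟪Y a, ν⟫) ^ 2 ≤ ‖ν‖ ^ 2 * ∑ a, ‖Y a‖ ^ 2 := by
  refine (Finset.sum_mul_sq_le_sq_mul_sq _ _ _).trans ?_
  rw [← asmx_norm, hu, one_pow, one_mul, Finset.mul_sum]
  refine Finset.sum_le_sum fun a _ => ?_
  rw [← sq_abs, ← mul_pow, mul_comm]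
  exact pow_le_pow_left₀ (abs_nonneg _) (abs_real_inner_le_norm _ _) 2

lemma f4_const {al M K ω c t : ℝ} (ha0 : 0 < al) (ha1 : al ≤ 1) (hM : 1 ≤ M) (hc : c = al ^ 2 / M)
    (hω0 : 0 ≤ ω) (hω : ω ≤ c) (hK : 0 ≤ K) (ht : 0 < t) (hKM : K * t ≤ M) :
    K * ω ^ 2 ≤ al ^ 2 / t := by
  have hM0 : 0 < M := by linarith
  have a2 : al ^ 2 ≤ 1 := pow_le_one₀ ha0.le ha1
  have c1 : c ≤ 1 := by rw [hc, div_le_one hM0]; linarith
  have w : ω ^ 2 ≤ c := (pow_le_of_le_one hω0 (hω.trans c1) two_ne_zero).trans hω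
  refine (mul_le_mul_of_nonneg_left w hK).trans ?_
  rw [hc, ← mul_div_assoc, div_le_div_iff₀ hM0 ht]
  have := mul_le_mul_of_nonneg_left hKM (sq_nonneg al)
  linarith

/-- Put `ν = nu h x u`, `σ = sg h x ω σ0 u`, `θ u = r Fk f u + trT / kap r - C e / kap r`, `Z u` the bound
of `s_matrix`. Means: `∫ f = 0`, `∫ Fk f = 0`, `∫ (r Fk f)² ≤ C b²/d` (`Fk_l2`, `poincare`), ball part
at least `alp²/128 ω² ‖ν‖² - 8σ0²`, field parts by `ybound` and Cauchy-Schwarz; `pick`. -/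
theorem s_avg (J : ℕ) : ∃ (c C : ℝ) (r0 : ℕ), 0 < c ∧ 0 < C ∧ ∀ r ≥ r0, ∀ (h : Eu (r + 1) → ℝ)
    (x : Eu (r + 1) → Eu (r + 1)) (R ω σ0 g k : ℝ), Pos h x R → R ≤ 3 → 0 < ω → ω ≤ c → 0 < σ0 →
    σ0 ≤ c → k = 1 / (((r : ℝ) + 1) * √((r : ℝ) + 1)) + 1 / (σ0 ^ 2 * ((r : ℝ) + 1) ^ J) →
    ((r : ℝ) + 1) * k ≤ 1 → ((r : ℝ) + 1) ^ 2 * Real.exp (-(1 / (16 * ω ^ 2))) ≤ 1 → 0 < g →
    g ≤ c * ω ^ 2 * bsq x - C * (√(((r : ℝ) + 1) * k) * bsq x + σ0 * √(bsq x) + σ0 ^ 2 +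
      ((r : ℝ) + 1) ^ 2 * Real.exp (-(1 / (16 * ω ^ 2)))) →
      ∃ (u : Eu (r + 1)) (σ θ Z : ℝ), ‖u‖ = 1 ∧ 1 / 2 ≤ h u ∧ Z ≤ 1 / 4 ∧
        Cert x u (nu h x u) (ω • nz (nu h x u)) σ θ Z ∧ g ≤ Real.log (h u) + (θ - Z) := by
  obtain ⟨Cy, hCy, ybd⟩ := ybound J
  obtain ⟨Ct, hCt, str⟩ := s_trace
  obtain ⟨Cm, hCm, smx⟩ := s_matrix
  obtain ⟨Cb, hCb, sbl⟩ := s_ball
  obtain ⟨Cp, hCp, poi⟩ := poincare
  obtain ⟨Cf, df, hCf, fl2⟩ := Fk_l2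
  obtain ⟨dn, nuf⟩ := nu_facts
  obtain ⟨ha0, ha1⟩ := alp_pos
  obtain ⟨M, hM⟩ : ∃ M : ℝ, M = 5120 + 36 * (396 + 120 * Cm) * 256 + 80 * Cm * Cy * 5120 +
    4 * Cb * 2 := ⟨_, rfl⟩
  have m1 : 0 ≤ 36 * (396 + 120 * Cm) * 256 := by positivity
  have m2 : 0 ≤ 80 * Cm * Cy * 5120 := by positivity
  have m3 : 0 ≤ 4 * Cb * 2 := by positivity
  have hM1 : 5120 ≤ M := by linarith
  obtain ⟨c, hc⟩ : ∃ c : ℝ, c = alp ^ 2 / M := ⟨_, rfl⟩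
  have hc0 : 0 < c := by rw [hc]; positivity
  have hc1 : c ≤ alp ^ 2 / 5120 := by rw [hc]; gcongr
  have a2 : alp ^ 2 ≤ alp := pow_le_of_le_one ha0.le ha1 two_ne_zero
  have hc2 : c ≤ 1 / 8 := by linarith
  refine ⟨c, 40 * Cp + 6 * Cf * Cp + 16 + 3 * (868 + 40 * Cm) * Cy + 40 * Cm * Cy +
    (1570 + 400 * Cm) + 1280 * Cm * Cy + (2 * Ct + 24 * Ct ^ 2 + 40 * Cm), df + dn + 2, hc0,
    by positivity, ?_⟩
  intro r hr h x R ω σ0 g k P hR hω0 hωc h0 h0c hk hk1 he1 hg0 hg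
  have S := P.sel
  have hr2 : 2 ≤ r := by omega
  have hd0 : 0 < r + 1 := by omega
  obtain ⟨D, hD⟩ : ∃ D : ℝ, D = (r : ℝ) + 1 := ⟨_, rfl⟩
  have hDc : ((r + 1 : ℕ) : ℝ) = D := by rw [hD]; push_cast; rfl
  have hr0 : (0 : ℝ) ≤ r := Nat.cast_nonneg r
  have hD1 : 1 ≤ D := by linarith
  have hD0 : 0 < D := by linarith
  obtain ⟨e, he⟩ : ∃ e : ℝ, e = Real.exp (-(1 / (16 * ω ^ 2))) := ⟨_, rfl⟩
  rw [← hD] at hk hk1 he1 hg
  rw [← he] at he1 hg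
  have he0 : 0 < e := by rw [he]; exact Real.exp_pos _
  have he2 : e ≤ 1 := by
    have : 1 * e ≤ D ^ 2 * e := mul_le_mul_of_nonneg_right (one_le_pow₀ hD1) he0.le
    linarith
  have hs0 : 0 < √D := Real.sqrt_pos.2 hD0
  have hk0 : 1 / (D * √D) ≤ k := by rw [hk]; exact le_add_of_nonneg_right (by positivity)
  have hkp : 0 < k := lt_of_lt_of_le (by positivity) hk0
  obtain ⟨q, hq⟩ : ∃ q : ℝ, q = √(D * k) := ⟨_, rfl⟩
  rw [← hq] at hg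
  have hq0 : 0 < q := by rw [hq]; positivity
  have hq1 : q ≤ 1 := by rw [hq]; exact Real.sqrt_le_one.2 hk1
  have hq2 : q ^ 2 = D * k := by rw [hq]; exact Real.sq_sqrt (by positivity)
  have hDq : 1 / D ≤ q := by
    rw [hq]
    refine Real.le_sqrt_of_sq_le ?_
    have t1 : √D ≤ D ^ 2 :=
      (Real.sqrt_le_iff.2 ⟨hD0.le, le_self_pow₀ hD1 two_ne_zero⟩).trans
        (le_self_pow₀ hD1 two_ne_zero)
    calc (1 / D) ^ 2 = 1 / D ^ 2 := by rw [div_pow, one_pow]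
      _ ≤ 1 / √D := one_div_le_one_div_of_le hs0 t1
      _ = D * (1 / (D * √D)) := by field_simp
      _ ≤ D * k := mul_le_mul_of_nonneg_left hk0 hD0.le
  obtain ⟨mν, pν, lν, uν⟩ := nuf (r + 1) (by omega) h x R P hR
  have unit := sph_unit hd0
  -- the thickness
  have mσ : Measurable (sg h x ω σ0) := by
    unfold sg
    exact measurable_const.add (measurable_const.mul (mν.norm.min measurable_const))
  have bσ : ∀ u, σ0 ≤ sg h x ω σ0 u ∧ sg h x ω σ0 u ≤ σ0 + ω := fun u => by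
    have t0 : 0 ≤ min ‖nu h x u‖ 6 := le_min (norm_nonneg _) (by norm_num)
    have t1 : alp / 32 * ω * min ‖nu h x u‖ 6 ≤ 1 / 32 * ω * 6 :=
      mul_le_mul (mul_le_mul_of_nonneg_right (by linarith) hω0.le) (min_le_right _ _) t0
        (by positivity)
    have t2 : 0 ≤ alp / 32 * ω * min ‖nu h x u‖ 6 := by positivity
    unfold sg
    constructor <;> linarith
  have perp : ∀ u, ‖u‖ = 1 → ⟪nz (nu h x u), u⟫ = 0 := fun u hu => by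
    rw [nz, real_inner_smul_left, (pν u hu).1, mul_zero]
  obtain ⟨⟨i0, y0⟩, ⟨i1, y1⟩, ⟨i2, y2'⟩, i3, y3⟩ := ybd (r + 1) hd0 h x R P (sg h x ω σ0)
    (fun u => nz (nu h x u)) σ0 (σ0 + ω) mσ (measurable_nz.comp mν) h0 (by linarith) bσ
    (fun u => asrad_norm_nz _) perp k (by rw [hDc]; exact hk)
  rw [hDc] at y1
  -- the function f
  have bf : Bm (fun y => h (nz y) - 1) 4 := by
    refine ⟨(S.cont.measurable.comp measurable_nz).sub measurable_const, fun y => ?_⟩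
    have t1 := S.h_nonneg (nz y)
    have t2 := S.h_le (nz y)
    have t3 := mul_le_mul hR (asrad_norm_nz y) (norm_nonneg _) (by norm_num)
    rw [Real.norm_eq_abs, abs_le]
    constructor <;> linarith
  have ef : ∀ u : Eu (r + 1), ‖u‖ = 1 → h (nz u) - 1 = h u - 1 := fun u hu => by
    rw [nz, hu, inv_one, one_smul]
  have f0 : ∫ u, (h (nz u) - 1) ∂sph (r + 1) = 0 := by
    rw [← P.mean hd0]
    exact integral_congr_ae (unit.mono fun u hu => ef u hu)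
  have f2 : ∫ u, (h (nz u) - 1) ^ 2 ∂sph (r + 1) ≤ Cp * bsq x / D := by
    rw [← hDc]
    refine le_of_eq_of_le ?_ (poi (r + 1) (by omega) h x R S (P.mean hd0))
    exact integral_congr_ae (unit.mono fun u hu => by simp only [ef u hu])
  have bint : ∀ {F : Eu (r + 1) → ℝ} {B : ℝ}, Bm F B →
      Integrable F (sph (r + 1)) ∧ Integrable (fun u => F u ^ 2) (sph (r + 1)) := by
    intro F B hF
    refine ⟨Integrable.of_bound hF.1.aestronglyMeasurable B (ae_of_all _ hF.2),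
      Integrable.of_bound (hF.1.pow_const 2).aestronglyMeasurable (B ^ 2) (ae_of_all _ fun u => ?_)⟩
    rw [norm_pow]
    exact pow_le_pow_left₀ (norm_nonneg _) (hF.2 u) 2
  have bk := Fk_bm bf
  have iA : Integrable (fun u => (r : ℝ) * Fk (fun y => h (nz y) - 1) u) (sph (r + 1)) :=
    (bint bk).1.const_mul _
  have iA2 : Integrable (fun u => ((r : ℝ) * Fk (fun y => h (nz y) - 1) u) ^ 2) (sph (r + 1)) := by
    simp only [mul_pow]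
    exact (bint bk).2.const_mul _
  have A0 : ∫ u, (r : ℝ) * Fk (fun y => h (nz y) - 1) u ∂sph (r + 1) = 0 := by
    rw [integral_const_mul, Fk_mean (by omega) bf, f0, mul_zero]
  have A2 : ∫ u, ((r : ℝ) * Fk (fun y => h (nz y) - 1) u) ^ 2 ∂sph (r + 1) ≤
      Cf * ∫ u, (h (nz u) - 1) ^ 2 ∂sph (r + 1) := by
    simp only [mul_pow]
    rw [integral_const_mul]
    have t := fl2 (r + 1) (by omega) _ 4 bf f0
    rw [hDc, le_div_iff₀ (by positivity)] at t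
    refine le_trans ?_ t
    rw [mul_comm]
    exact mul_le_mul_of_nonneg_left (pow_le_pow_left₀ hr0 (by linarith) 2)
      (integral_nonneg fun u => sq_nonneg _)
  have iν : Integrable (fun u => ‖nu h x u‖ ^ 2) (sph (r + 1)) := by
    refine Integrable.of_bound (mν.norm.pow_const 2).aestronglyMeasurable (6 ^ 2)
      (unit.mono fun u hu => ?_)
    rw [norm_pow, norm_norm]
    exact pow_le_pow_left₀ (norm_nonneg _) (pν u hu).2 2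
  have hb0 : 0 ≤ bsq x := integral_nonneg fun u => sq_nonneg _
  have hb1 : bsq x ≤ 16 := by
    have t := integral_mono_of_nonneg (μ := sph (r + 1)) (f := fun u => ‖Nf x u‖ ^ 2)
      (g := fun _ => (16 : ℝ)) (ae_of_all _ fun u => sq_nonneg _) (integrable_const _)
      (ae_of_all _ fun u => (pow_le_pow_left₀ (norm_nonneg _)
        (((meas_Nf S).2 u).trans (by linarith : R + 1 ≤ 4)) 2).trans (by norm_num))
    simpa [bsq] using t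
  have hM' : 1 ≤ M := by linarith
  have w1 := f4_const ha0 ha1 hM' hc hω0.le hωc (by positivity : 0 ≤ 36 * (396 + 120 * Cm))
    (by norm_num : (0 : ℝ) < 256) (by linarith)
  have w2 := f4_const ha0 ha1 hM' hc hω0.le hωc (by positivity : 0 ≤ 80 * Cm * Cy)
    (by norm_num : (0 : ℝ) < 5120) (by linarith)
  have w3 := f4_const ha0 ha1 hM' hc hc0.le le_rfl (by positivity : 0 ≤ 4 * Cb)
    (by norm_num : (0 : ℝ) < 2) (by linarith)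
  have mean := f4_mean (al := alp) (σ1 := σ0 + ω) hCm.le hCy.le hCp.le hCf.le
    (by positivity : 0 ≤ 1570 + 400 * Cm) (by positivity : 0 ≤ 2 * Ct + 24 * Ct ^ 2 + 40 * Cm)
    (by positivity : 0 ≤ 868 + 40 * Cm) hD0 hq0 hq1 hq2 hDq hω0 (by linarith) hb0 hb1
    (by positivity : 0 ≤ D ^ 2 * e) (by positivity : 0 ≤ σ0 * √(bsq x))
    (by linarith [sq_nonneg (σ0 - ω)]) hc1 w2 rfl f0 f2 A0 A2 lν uν y0 y1 y2' y3 hg
  obtain ⟨u, hu, hΨ⟩ := f4_int (bint bf).1 (bint bf).2 iA iA2 iν i0 i1 i2 i3 unit mean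
  obtain ⟨p1, p2⟩ := pν u hu
  obtain ⟨-, -, -, hκ, hκ'⟩ := ball_basic hr2 hu
  rw [← hD] at hκ'
  obtain ⟨σ, hσ⟩ : ∃ σ, σ = sg h x ω σ0 u := ⟨_, rfl⟩
  have bσu := bσ u
  rw [← hσ] at hΨ bσu
  have hσ0 : 0 < σ := by linarith
  have hσe : σ = σ0 + alp / 32 * ω * ‖nu h x u‖ := by rw [hσ, sg, min_eq_left p2]
  have hsb : Cb * σ ^ 2 ≤ alp / 2 := by
    have t : σ ^ 2 ≤ (2 * c) ^ 2 := pow_le_pow_left₀ hσ0.le (by linarith) 2
    have := mul_le_mul_of_nonneg_left t hCb.le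
    linarith
  obtain ⟨g1, g2, g3⟩ := f4_point ha0 ha1 hCb.le hCt.le hCm.le hD1 hs0.le (Real.sq_sqrt hD0.le) hκ hκ'
    hq0 hq1 hω0 (by linarith) (norm_nonneg _) p2 h0 (by linarith) hσe hsb w1 he0.le he2
    (Finset.sum_nonneg fun a _ => sq_nonneg _) (Finset.sum_nonneg fun a _ => sq_nonneg _)
    (f4_cs (ν := nu h x u) hu fun a => Y0 (fun g => Nf x g a) u σ) rfl rfl hg0 hΨ
  rw [ef u hu, add_sub_cancel] at g1 g3
  refine ⟨u, σ, _, _, hu, g1, g2, fun cc hcc => ⟨?_, ?_⟩, g3⟩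
  · have t1 := str r h x R σ ω u (nu h x u) S hR hu p1 p2 hσ0 hω0 (by linarith) cc hcc
    rw [s_split S p1, hyp_mean (by omega) S hu, ← he] at t1
    have t2 := (sbl r hr2 σ ω u (nu h x u) hu p1 hσ0 hω0).1
    have hrp : (0 : ℝ) < r := by exact_mod_cast (by omega : 0 < r)
    have t3 : ad r = kap r * r := by rw [kap]; field_simp
    rw [Finset.sum_sub_distrib, ← Finset.sum_div, Finset.sum_const, Finset.card_univ,
      Fintype.card_fin, nsmul_eq_mul, mul_one, le_sub_iff_add_le, le_div_iff₀ hκ, add_mul, add_mul,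
      div_mul_cancel₀ _ hκ.ne']
    rw [t3] at t1
    linarith
  · have t1 := smx r hr2 h x R σ ω u (nu h x u) S hR hu p1 p2 hσ0 hω0 (by linarith) cc hcc
    rw [← hD, ← he] at t1
    exact t1

end Pool.Agent.Lib.MP_77d991_gt.Ex
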