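import Pool.Agent.Lib.MP_77d991_gt.Ex.F4
import Pool.Agent.Lib.MP_77d991_gt.Ex.E3

open MeasureTheory ProbabilityTheory Set
open scoped RealInnerProductSpace

namespace Pool.Agent.Lib.MP_77d991_gt.Ex

open Pool.Agent.Lib.MP_77d991_gt.As

lemma f5_ev {c M : ℝ} (hM : 0 < M) : ∃ r0 : ℕ, ∀ r ≥ r0, 4 ≤ (r : ℝ) + 1 ∧ c ≤ (r : ℝ) + 1 ∧
    c ^ 2 ≤ Real.log ((r : ℝ) + 1) ∧ M * Real.log ((r : ℝ) + 1) ≤ √(√((r : ℝ) + 1)) := by
  have h0 : Filter.Tendsto (fun r : ℕ => (r : ℝ) + 1) Filter.atTop Filter.atTop :=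
    Filter.tendsto_atTop_add_const_right _ 1 tendsto_natCast_atTop_atTop
  have h1 := Real.tendsto_sqrt_atTop.comp (Real.tendsto_sqrt_atTop.comp h0)
  have h2 := h1.eventually (Real.isLittleO_log_id_atTop.bound (c := 1 / (4 * M)) (by positivity))
  refine Filter.eventually_atTop.1 ?_
  filter_upwards [h0.eventually_ge_atTop 4, h0.eventually_ge_atTop c,
    (Real.tendsto_log_atTop.comp h0).eventually_ge_atTop (c ^ 2), h2] with r a b e f
  refine ⟨a, b, e, ?_⟩
  simp only [Function.comp, id, Real.norm_eq_abs] at f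
  rw [Real.log_sqrt (Real.sqrt_nonneg _), Real.log_sqrt (by linarith),
    abs_of_nonneg (Real.sqrt_nonneg _)] at f
  have g := (le_abs_self _).trans f
  rw [one_div, ← div_eq_inv_mul, le_div_iff₀ (by positivity)] at g
  linarith

lemma f5_num {D b c C l N w : ℝ} (K : ℕ) (hD : 4 ≤ D) (hb : 1 / D ^ (K + 1) ≤ b) (hc : 0 < c)
    (hC : 0 < C) (hl : 0 < l) (hN : 0 < N) (hw : w = 1 / (N * l))
    (hM : 10 * C * N / c * l ≤ √(√D)) :
    C * (√(D * (1 / (D * √D) + 1 / D ^ 2)) * b + 1 / D ^ (K + 2) * √b + (1 / D ^ (K + 2)) ^ 2 +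
      1 / D ^ (K + 3)) ≤ c * w * b / 2 := by
  have h0 : 0 < D := by linarith
  have h1 : 1 ≤ D := by linarith
  have hb0 : 0 < b := lt_of_lt_of_le (by positivity) hb
  have s0 : 0 < √D := Real.sqrt_pos.2 h0
  have s1 := Real.mul_self_sqrt h0.le
  have s2 : 1 ≤ √D := Real.one_le_sqrt.2 h1
  have q0 : 0 < √(√D) := Real.sqrt_pos.2 s0
  have q1 := Real.mul_self_sqrt s0.le
  have q2 : 1 ≤ √(√D) := Real.one_le_sqrt.2 s2
  have q3 : 1 / D ≤ 1 / √D := one_div_le_one_div_of_le s0 (by nlinarith)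
  have q4 : 1 / D ≤ 1 / √(√D) := one_div_le_one_div_of_le q0 (by nlinarith)
  have a1 : √(D * (1 / (D * √D) + 1 / D ^ 2)) ≤ 2 * (1 / √(√D)) := by
    refine Real.sqrt_le_iff.2 ⟨by positivity, ?_⟩
    have e1 : D * (1 / (D * √D) + 1 / D ^ 2) = 1 / √D + 1 / D := by field_simp
    have e2 : (2 * (1 / √(√D))) ^ 2 = 4 * (1 / √D) := by
      rw [mul_pow, one_div_pow, Real.sq_sqrt s0.le]
      norm_num
    rw [e1, e2]
    linarith [one_div_pos.2 s0]
  have a4 : 1 / D ^ (K + 3) ≤ (1 / D) ^ 2 * b := by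
    refine le_trans (le_of_eq ?_) (mul_le_mul_of_nonneg_left hb (by positivity))
    field_simp
    ring
  have a3 : (1 / D ^ (K + 2)) ^ 2 ≤ 1 / D ^ (K + 3) := by
    rw [one_div_pow, ← pow_mul]
    exact one_div_le_one_div_of_le (by positivity) (pow_le_pow_right₀ h1 (by omega))
  have a2 : 1 / D ^ (K + 2) ≤ 1 / D * √b := by
    rw [← sq_le_sq₀ (by positivity) (by positivity), mul_pow, Real.sq_sqrt hb0.le]
    linarith
  have a5 : 1 / D ^ (K + 2) * √b ≤ 1 / D * b := by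
    have := mul_le_mul_of_nonneg_right a2 (Real.sqrt_nonneg b)
    rwa [mul_assoc, Real.mul_self_sqrt hb0.le] at this
  have a6 : (1 / D) ^ 2 ≤ 1 / D := pow_le_of_le_one (by positivity) ((div_le_one h0).2 h1) two_ne_zero
  have a7 : 1 / √(√D) ≤ c * w / (10 * C) := by
    refine (one_div_le_one_div_of_le (by positivity) hM).trans (le_of_eq ?_)
    rw [hw]
    field_simp
  have a8 := mul_le_mul_of_nonneg_right a1 hb0.le
  have a9 := mul_le_mul_of_nonneg_right (a6.trans q4) hb0.le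
  have a10 := mul_le_mul_of_nonneg_right q4 hb0.le
  have a11 := mul_le_mul_of_nonneg_right a7 hb0.le
  calc _ ≤ C * (5 * (c * w / (10 * C) * b)) := mul_le_mul_of_nonneg_left (by linarith) hC.le
    _ = _ := by
      field_simp
      ring

/-- Here `b² ≥ y/d ≥ d^(-(K+1))`. `s_avg` with `σ0 = d^(-(K+2))`, `J = 2K+6`,
`ω² = 1/(16 (K+5) log d)`, `g = c y/(d log d) ≤ c b²/ log d`; `step_cert` with `X = x u`. -/
theorem s_step (K : ℕ) : ∃ (c : ℝ) (r0 : ℕ), 0 < c ∧ ∀ r ≥ r0, ∀ (L : ℝ), Good r L →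
    ∀ (m : ℕ) (v : Fin (m + 1) → Eu (r + 1)) (x : Eu (r + 1) → Eu (r + 1)) (R y : ℝ),
      Pos (hV v) x R → R ≤ 3 → 1 / ((r : ℝ) + 1) ^ K ≤ y → y ≤ 1 → y ≤ ((r : ℝ) + 1) * bsq x →
      ∃ j : Fin (r + 1) → Fin (m + 1),
        Real.exp (-L + c * y / (((r : ℝ) + 1) * Real.log ((r : ℝ) + 1))) ≤ |dt (v ∘ j)| := by
  obtain ⟨c, C, r1, hc, hC, H⟩ := s_avg (2 * K + 6)
  obtain ⟨N, hN⟩ : ∃ N : ℝ, N = 16 * ((K + 5 : ℕ) : ℝ) := ⟨_, rfl⟩
  have hN1 : 1 ≤ N := by
    rw [hN]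
    push_cast
    linarith [(Nat.cast_nonneg K : (0 : ℝ) ≤ K)]
  have hN0 : 0 < N := by linarith
  obtain ⟨r2, h2⟩ := f5_ev (c := 1 / c) (M := 10 * C * N / c) (by positivity)
  refine ⟨c / (2 * N), max r1 r2, by positivity, fun r hr L hG m v x R y P hR hy _ hb => ?_⟩
  obtain ⟨hD, e1, e2, e3⟩ := h2 r (le_of_max_le_right hr)
  have hr0 : 0 < r := by
    have : (0 : ℝ) < r := by linarith
    exact_mod_cast this
  specialize H r (le_of_max_le_left hr) (hV v) x R
  generalize (r : ℝ) + 1 = D at *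
  have h0 : 0 < D := by linarith
  have h1 : 1 ≤ D := by linarith
  have hl : 0 < Real.log D := lt_of_lt_of_le (by positivity) e2
  have hy0 : 0 < y := lt_of_lt_of_le (by positivity) hy
  have hb1 : y / D ≤ bsq x := by rwa [div_le_iff₀' h0]
  have hb2 : 1 / D ^ (K + 1) ≤ bsq x := by
    refine le_trans ?_ hb1
    rw [pow_succ, ← div_div]
    exact div_le_div_of_nonneg_right hy h0.le
  have hw : 0 < 1 / (N * Real.log D) := by positivity
  have w2 := Real.sq_sqrt hw.le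
  have k1 : (1 / D ^ (K + 2)) ^ 2 * D ^ (2 * K + 6) = D ^ 2 := by
    field_simp
    ring
  have k2 : D ^ 2 * Real.exp (-(1 / (16 * √(1 / (N * Real.log D)) ^ 2))) = 1 / D ^ (K + 3) := by
    have : 1 / (16 * √(1 / (N * Real.log D)) ^ 2) = Real.log (D ^ (K + 5)) := by
      rw [w2, Real.log_pow, hN]
      field_simp
    rw [this, Real.exp_neg, Real.exp_log (by positivity)]
    field_simp
    ring
  obtain ⟨u, σ, θ, Z, hu, h5, hZ, hce, hg⟩ := H (√(1 / (N * Real.log D))) (1 / D ^ (K + 2))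
    (c / (2 * N) * y / (D * Real.log D)) _ P hR (Real.sqrt_pos.2 hw)
    (Real.sqrt_le_iff.2 ⟨hc.le, by
      rw [div_le_iff₀ (by positivity)]
      rw [one_div_pow, div_le_iff₀ (by positivity)] at e2
      nlinarith [mul_pos hl (pow_pos hc 2)]⟩)
    (by positivity) (by
      rw [div_le_iff₀ hc] at e1
      rw [div_le_iff₀ (by positivity)]
      nlinarith [le_self_pow₀ h1 (show K + 2 ≠ 0 by omega)]) rfl (by
      have s2 : 2 ≤ √D := Real.le_sqrt_of_sq_le (by linarith)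
      have a1 := one_div_le_one_div_of_le two_pos s2
      have a2 := one_div_le_one_div_of_le four_pos hD
      have e : D * (1 / (D * √D) + 1 / D ^ 2) = 1 / √D + 1 / D := by field_simp
      rw [k1, e]
      linarith) (by
      rw [k2]
      exact (div_le_one (by positivity)).2 (one_le_pow₀ h1)) (by positivity) (by
      have a1 := f5_num K hD hb2 hc hC hl hN0 rfl e3
      have a2 := mul_le_mul_of_nonneg_left hb1 (mul_pos hc hw).le
      have e : c / (2 * N) * y / (D * Real.log D) = c * (1 / (N * Real.log D)) * (y / D) / 2 := by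
        field_simp
      rw [k1, k2, w2, e]
      linarith)
  have hp : 0 < hV v u := by linarith
  have n0 : nu (hV v) x u = (hV v u)⁻¹ • tn x u := if_pos h5
  obtain ⟨j, hj⟩ := step_cert hr0 hG v P.sel hu (P.sel.le u) (by rwa [P.sel.eq])
    (fun w hw => by
      rw [n0, tn, inner_smul_left, inner_sub_left, inner_smul_left, real_inner_comm w u, hw,
        P.sel.eq, mul_zero, sub_zero, conj_trivial, div_eq_inv_mul])
    (by rw [nz, n0, inner_smul_left, inner_smul_left, inner_smul_left, (Nf_sq P.sel hu).2.2,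
      mul_zero, mul_zero, mul_zero]) hZ hce
  refine ⟨j, le_trans ?_ hj⟩
  rw [P.sel.eq, ← Real.exp_log hp, ← Real.exp_add]
  exact Real.exp_le_exp.2 (by linarith)

end Pool.Agent.Lib.MP_77d991_gt.Ex
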