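import Pool.Agent.Lib.MP_77d991_gt.Ex.F3
import Pool.Agent.Lib.MP_77d991_gt.Ex.C8
import Pool.Agent.Lib.MP_77d991_gt.Ex.B6
import Pool.Agent.Lib.MP_77d991_gt.Ex.B7

open MeasureTheory ProbabilityTheory Set
open scoped RealInnerProductSpace

namespace Pool.Agent.Lib.MP_77d991_gt.Ex

open Pool.Agent.Lib.MP_77d991_gt.As

section
variable {d : ℕ} {Ω : Type} [MeasurableSpace Ω] {ν : Measure Ω} {U : Ω → (Eu d ≃ₗᵢ[ℝ] Eu d)}

lemma f6_int {α : Type*} [MeasurableSpace α] {μ : Measure α} [IsFiniteMeasure μ] {F : α → ℝ}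
    {C : ℝ} (hF : Bm F C) : Integrable F μ :=
  Integrable.of_bound hF.1.aestronglyMeasurable C (ae_of_all _ hF.2)

lemma f6_mul {α : Type*} [MeasurableSpace α] {F G : α → ℝ} {C D : ℝ} (hF : Bm F C)
    (hG : Bm G D) : Bm (fun a => F a * G a) (C * D) :=
  ⟨hF.1.mul hG.1, fun a => by
    rw [norm_mul]
    exact mul_le_mul (hF.2 a) (hG.2 a) (norm_nonneg _) ((norm_nonneg _).trans (hF.2 a))⟩

lemma f6_sq {α : Type*} [MeasurableSpace α] {F : α → ℝ} {C : ℝ} (hF : Bm F C) :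
    Bm (fun a => F a ^ 2) (C * C) := by
  simpa only [sq] using f6_mul hF hF

lemma f6_sum {α : Type*} [MeasurableSpace α] {F : Fin d → α → ℝ} {C : ℝ} (hF : ∀ i, Bm (F i) C) :
    Bm (fun a => ∑ i, F i a) (d * C) :=
  ⟨Finset.measurable_sum _ fun i _ => (hF i).1, fun a => (norm_sum_le _ _).trans (by
    have := Finset.sum_le_card_nsmul Finset.univ (fun i => ‖F i a‖) C fun i _ => (hF i).2 a
    simpa using this)⟩

lemma f6_meas (H : Haar ν U) (e : Eu d) : Measurable fun ω => U ω e :=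
  H.meas.comp (measurable_id.prodMk measurable_const)

lemma f6_comp (H : Haar ν U) {F : Eu d → ℝ} {C : ℝ} (hF : Bm F C) (e : Eu d) :
    Bm (fun ω => F (U ω e)) C :=
  ⟨hF.1.comp (f6_meas H e), fun _ => hF.2 _⟩

lemma f6_ee (i : Fin d) : ‖ee i‖ = 1 := by simp [ee]

lemma f6_ee2 {i l : Fin d} (h : i ≠ l) : ⟪ee i, ee l⟫ = 0 := by
  simp [ee, EuclideanSpace.inner_single_left, h]

lemma f6_nz {u : Eu d} (hu : ‖u‖ = 1) : nz u = u := by simp [nz, hu]

lemma f6_nz_le (u : Eu d) : ‖nz u‖ ≤ 1 := by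
  rw [nz, norm_smul, norm_inv, norm_norm]
  exact inv_mul_le_one

lemma f6_f {h : Eu d → ℝ} {x : Eu d → Eu d} {R : ℝ} (S : Sel h x R) :
    Bm (fun y => ⟪x y, nz y⟫ - 1) (R + 1) := by
  refine ⟨(S.meas.inner (measurable_norm.inv.smul measurable_id)).sub measurable_const,
    fun y => (norm_sub_le _ _).trans ?_⟩
  have h1 := norm_inner_le_norm (𝕜 := ℝ) (x y) (nz y)
  have h2 := mul_le_mul (S.bdd y) (f6_nz_le y) (norm_nonneg _) ((norm_nonneg _).trans (S.bdd y))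
  rw [norm_one]
  linarith

/-- the pointwise part. -/
lemma f6_point {C τ T Q H g : ℝ} (hC : 0 < C) (hτ : 0 < τ) (hH : 0 ≤ H) (hQ : -H ≤ Q)
    (hg : -1 ≤ g) (h : g ≤ T - T ^ 2 - Q / 2 - (C + 2000) / 2 * (τ * H + H ^ 2 / τ)) :
    H ≤ 1 / 100 ∧ g ≤ T - Q / 2 - C * (H * √H) := by
  have h0 := Real.sqrt_nonneg H
  have h1 := Real.mul_self_sqrt hH
  have h2 : 2 * √H ≤ τ + H / τ := by
    rw [add_div' _ _ _ hτ.ne', le_div_iff₀ hτ]
    nlinarith [sq_nonneg (τ - √H)]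
  have h3 : H * √H ≤ (τ * H + H ^ 2 / τ) / 2 := by
    have := mul_le_mul_of_nonneg_left h2 hH
    have e : H * (τ + H / τ) = τ * H + H ^ 2 / τ := by ring
    linarith
  have h4 : (C + 2000) * (H * √H) ≤ (C + 2000) / 2 * (τ * H + H ^ 2 / τ) := by
    have := mul_le_mul_of_nonneg_left h3 (by positivity : 0 ≤ C + 2000)
    linarith
  have h5 : 0 ≤ H * √H := by positivity
  have h6 : 0 ≤ C * (H * √H) := by positivity
  refine ⟨?_, by nlinarith [sq_nonneg T]⟩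
  by_contra hc
  have h7 : 1 / 10 ≤ √H := Real.le_sqrt_of_sq_le (by linarith)
  have h8 := mul_le_mul_of_nonneg_left h7 hH
  nlinarith [sq_nonneg (T - 1 / 2)]

/-- `B i l = ⟪Nf x (U e_i), U e_l⟫`, functional `tr B - (tr B)² - tr B²/2 - C' |B|³` with `C' ≥ 2000`;
its mean is at least `-C (σ + d^(-1/4)) d b² ≥ -1` (`frame_var` for `f` and for `‖N‖²`, `beta4`,
`qb_pos`, `∫|B|³ ≤ √(∫|B|² ∫|B|⁴)`); at a point above the mean `|B|² ≤ 1/100`; `logdet`,
`frame_det`, `vertex`. -/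
theorem oneshot : ∃ (C s : ℝ) (d0 : ℕ), 0 < C ∧ 0 < s ∧ ∀ d ≥ d0, ∀ (m : ℕ)
    (v : Fin (m + 1) → Eu d) (x : Eu d → Eu d) (R σ : ℝ), Pos (hV v) x R → 0 < σ → σ ≤ s →
      d * bsq x ≤ σ ^ 2 → R - 1 ≤ σ ^ 2 → ∃ j : Fin d → Fin (m + 1),
        Real.exp (-(C * (σ + 1 / √(√(d : ℝ))) * (d * bsq x))) ≤ |dt (v ∘ j)| := by
  obtain ⟨Cv, dv, hCv, hv⟩ := frame_var
  obtain ⟨Cp, hCp, hp⟩ := poincare
  obtain ⟨C4, hC4, h4⟩ := beta4
  obtain ⟨Cq, dq, hCq, hq⟩ := qb_pos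
  obtain ⟨Cl, hCl, hl⟩ := logdet
  obtain ⟨K, hK⟩ : ∃ K, K = Cv * Cp + Cp + Cq + (Cl + 2000) / 2 * (2 + Cv * C4) := ⟨_, rfl⟩
  have hK0 : 0 < K := by rw [hK]; positivity
  refine ⟨K, min 1 (1 / (2 * K)), max 3 (max dv dq), hK0, by positivity, ?_⟩
  intro d hd m v x R σ P hσ hs hX hR
  have hd3 : 3 ≤ d := (le_max_left _ _).trans hd
  have hd0 : 0 < d := by omega
  have hd1 : (1 : ℝ) ≤ d := by exact_mod_cast hd0
  have hσ1 : σ ≤ 1 := hs.trans (min_le_left _ _)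
  have hσ2 : σ * (2 * K) ≤ 1 := (le_div_iff₀ (by positivity)).1 (hs.trans (min_le_right _ _))
  have hR3 : R ≤ 3 := by nlinarith
  have S := P.sel
  obtain ⟨Ω, _, ν, U, H⟩ := exists_Haar d
  have := H.prob
  replace hv := hv d ((le_max_left _ _).trans ((le_max_right _ _).trans hd)) Ω _ ν U H
  replace hq := hq d ((le_max_right _ _).trans ((le_max_right _ _).trans hd)) _ x R P Ω _ ν U H
    (fun _ => 1) ⟨measurable_const, fun _ => by norm_num⟩ ⟨0, hd0⟩
  replace hp := hp d hd3 _ x R S (P.mean hd0)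
  replace h4 := h4 d hd3 _ x R P hR3
  have hb : 0 ≤ bsq x := integral_nonneg fun _ => by positivity
  obtain ⟨r, hr⟩ : ∃ r, r = √(√(d : ℝ)) := ⟨_, rfl⟩
  have hr1 : 1 ≤ r := by rw [hr]; exact Real.one_le_sqrt.2 (Real.one_le_sqrt.2 hd1)
  have hr4 : r ^ 4 = d := by
    rw [hr, show (4 : ℕ) = 2 * 2 from rfl, pow_mul, Real.sq_sqrt (Real.sqrt_nonneg _),
      Real.sq_sqrt (by positivity)]
  rw [← hr] at hq ⊢
  obtain ⟨τ, hτ⟩ : ∃ τ, τ = σ + 1 / r := ⟨_, rfl⟩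
  have hri : 0 < 1 / r := by positivity
  have hri1 : 1 / r ≤ 1 := (div_le_one (by positivity)).2 hr1
  have hτ0 : 0 < τ := by rw [hτ]; positivity
  rw [← hτ]
  have hF := f6_f S
  have hN : Bm (fun y => ‖Nf x y‖ ^ 2) ((R + 1) * (R + 1)) :=
    f6_sq ⟨(meas_Nf S).1.norm, fun y => by rw [norm_norm]; exact (meas_Nf S).2 y⟩
  have e1 : ∀ k : ℕ, ∫ u, (⟪x u, nz u⟫ - 1) ^ k ∂sph d = ∫ u, (hV v u - 1) ^ k ∂sph d := fun k =>
    integral_congr_ae ((sph_unit hd0).mono fun u hu => by simp only [f6_nz hu, S.eq])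
  have e2 := e1 1
  simp only [pow_one, P.mean hd0] at e2
  obtain ⟨a1, a2⟩ := hv _ _ hF
  obtain ⟨a3, -⟩ := hv _ _ (f6_sq hF)
  obtain ⟨a4, a5⟩ := hv _ _ hN
  rw [e2] at a1 a2
  rw [e1] at a2 a3
  simp only [← pow_mul] at a5
  change _ = d * bsq x at a4
  change _ ≤ (d * bsq x) ^ 2 + _ at a5
  have hu : ∀ ω i, ‖U ω (ee i)‖ = 1 := fun ω i => by rw [LinearIsometryEquiv.norm_map, f6_ee]
  have hx : ∀ i l, Bm (fun ω => ⟪x (U ω (ee i)), U ω (ee l)⟫) R := fun i l =>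
    ⟨(S.meas.comp (f6_meas H _)).inner (f6_meas H _), fun ω =>
      (norm_inner_le_norm _ _).trans (by rw [hu, mul_one]; exact S.bdd _)⟩
  obtain ⟨W, hW⟩ : ∃ W : Fin d → Fin d → Ω → ℝ, W = fun i l ω => if i = l then 0 else
      ⟪x (U ω (ee i)), U ω (ee l)⟫ * ⟪x (U ω (ee l)), U ω (ee i)⟫ := ⟨_, rfl⟩
  have hW1 : ∀ i l, Bm (W i l) (R * R) := fun i l => by
    rw [hW]
    by_cases h : i = l
    · simp only [if_pos h]
      exact ⟨measurable_const, fun _ => by rw [norm_zero]; exact mul_self_nonneg R⟩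
    · simp only [if_neg h]
      exact f6_mul (hx i l) (hx l i)
  have hW2 : ∀ i l, ∫ ω, W i l ω ∂ν ≤ Cq * bsq x / (d * r) := fun i l => by
    rw [hW]
    by_cases h : i = l
    · simp only [if_pos h, integral_zero]
      positivity
    · simp only [if_neg h]
      have := (le_abs_self _).trans (hq i l h)
      simpa only [one_mul] using this
  have a6 : ∫ ω, ∑ i, ∑ l, W i l ω ∂ν ≤ Cq * (1 / r) * (d * bsq x) := by
    rw [integral_finsetSum _ fun i _ => f6_int (f6_sum (hW1 i))]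
    calc _ ≤ ∑ _i : Fin d, ∑ _l : Fin d, Cq * bsq x / (d * r) := by
          refine Finset.sum_le_sum fun i _ => ?_
          rw [integral_finsetSum _ fun l _ => f6_int (hW1 i l)]
          exact Finset.sum_le_sum fun l _ => hW2 i l
      _ = _ := by
          simp only [Finset.sum_const, Finset.card_univ, Fintype.card_fin, nsmul_eq_mul]
          field_simp
  have b1 := f6_sum fun i : Fin d => f6_comp H hF (ee i)
  have b3 := f6_sum fun i : Fin d => f6_comp H (f6_sq hF) (ee i)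
  have b4 := f6_sum fun i : Fin d => f6_comp H hN (ee i)
  have b6 := f6_sum fun i : Fin d => f6_sum (hW1 i)
  have i1 := f6_int (μ := ν) b1
  have i2 := f6_int (μ := ν) (f6_sq b1)
  have i3 := ((f6_int (μ := ν) b3).fun_add (f6_int b6)).div_const 2
  have i4 := (f6_int (μ := ν) b4).const_mul τ
  have i5 := (f6_int (μ := ν) (f6_sq b4)).div_const τ
  have i6 := (i4.fun_add i5).const_mul ((Cl + 2000) / 2)
  obtain ⟨ω, hω⟩ := exists_integral_le (((i1.sub' i2).sub' i3).sub' i6)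
  rw [integral_sub ((i1.sub' i2).sub' i3) i6, integral_sub (i1.sub' i2) i3, integral_sub i1 i2,
    integral_const_mul, integral_add i4 i5, integral_const_mul, integral_div, integral_div,
    integral_add (f6_int b3) (f6_int b6), a1, a3, a4] at hω
  obtain ⟨X, hXe⟩ : ∃ X, X = d * bsq x := ⟨_, rfl⟩
  have hX0 : 0 ≤ X := by rw [hXe]; positivity
  have c1 : d * ∫ u, (hV v u - 1) ^ 2 ∂sph d ≤ Cp * (τ * X) := by
    have h1 : bsq x ≤ τ * X := by
      have h2 : 1 ≤ 1 / r * d := by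
        rw [← hr4, show 1 / r * r ^ 4 = r ^ 3 by field_simp]
        exact one_le_pow₀ hr1
      have h3 := mul_le_mul_of_nonneg_right h2 hb
      have h5 : 0 ≤ σ * X := by positivity
      calc bsq x = 1 * bsq x := (one_mul _).symm
        _ ≤ 1 / r * d * bsq x := h3
        _ = 1 / r * X := by rw [hXe]; ring
        _ ≤ σ * X + 1 / r * X := le_add_of_nonneg_left h5
        _ = _ := by rw [hτ]; ring
    rw [le_div_iff₀ (by positivity), mul_comm] at hp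
    exact hp.trans (mul_le_mul_of_nonneg_left h1 hCp.le)
  have c2 : (∫ ω, (∑ i, ‖Nf x (U ω (ee i))‖ ^ 2) ^ 2 ∂ν) / τ ≤ (1 + Cv * C4) * (τ * X) := by
    have h1 : 1 / (d : ℝ) ≤ (1 / r) ^ 2 := by
      rw [← hr4, one_div_pow]
      exact one_div_le_one_div_of_le (by positivity) (pow_le_pow_right₀ hr1 (by norm_num))
    have h2 : σ ^ 2 + (1 / r) ^ 2 ≤ τ ^ 2 := by
      rw [hτ, add_sq]
      have := mul_pos hσ hri
      linarith
    have h3 : X ^ 2 ≤ τ ^ 2 * X := by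
      rw [sq X]
      exact mul_le_mul_of_nonneg_right (by rw [hXe]; linarith [sq_nonneg (1 / r)]) hX0
    have h5 : Cv * d * ∫ u, ‖Nf x u‖ ^ 4 ∂sph d ≤ Cv * C4 * (τ ^ 2 * X) := by
      calc _ ≤ Cv * d * (C4 * τ ^ 2 * bsq x) := by
            refine mul_le_mul_of_nonneg_left (h4.trans ?_) (by positivity)
            gcongr
            linarith
        _ = _ := by rw [hXe]; ring
    rw [div_le_iff₀ hτ0]
    rw [← hXe] at a5
    calc _ ≤ _ := a5
      _ ≤ τ ^ 2 * X + Cv * C4 * (τ ^ 2 * X) := add_le_add h3 h5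
      _ = _ := by ring
  rw [← hXe] at hω a6 hX ⊢
  have hτX : 0 ≤ τ * X := by positivity
  have c3 : Cq * (1 / r) * X ≤ Cq * (τ * X) := by
    rw [mul_assoc]
    gcongr
    rw [hτ]
    linarith
  have c4 : -(K * τ * X) ≤ _ := le_trans (b := _) (by
    have h1 := mul_le_mul_of_nonneg_left c1 hCv.le
    have h2 := mul_le_mul_of_nonneg_left c2 (by positivity : 0 ≤ (Cl + 2000) / 2)
    have h3 : 0 ≤ Cp * (τ * X) := by positivity
    have h5 : 0 ≤ Cq * (τ * X) := by positivity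
    rw [hK]
    linarith) hω
  have c5 : -1 ≤ -(K * τ * X) := by
    have h1 : τ * X ≤ 2 * σ := by
      have : τ ≤ 2 := by rw [hτ]; linarith
      have h2 : X ≤ σ := hX.trans (by rw [sq]; exact mul_le_of_le_one_left hσ.le hσ1)
      exact mul_le_mul this h2 hX0 (by norm_num)
    linarith [mul_le_mul_of_nonneg_left h1 hK0.le]
  obtain ⟨B, hB⟩ : ∃ B : Matrix (Fin d) (Fin d) ℝ,
      B = Matrix.of fun i l => ⟪x (U ω (ee i)) - U ω (ee i), U ω (ee l)⟫ := ⟨_, rfl⟩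
  have g1 : ∀ i, B i i = ⟪x (U ω (ee i)), nz (U ω (ee i))⟫ - 1 := fun i => by
    rw [hB, Matrix.of_apply, inner_sub_left, f6_nz (hu ω i), real_inner_self_eq_norm_sq, hu,
      one_pow]
  have g2 : ∑ i, ∑ l, B i l ^ 2 = ∑ i, ‖Nf x (U ω (ee i))‖ ^ 2 :=
    Finset.sum_congr rfl fun i _ => by
      simp only [hB, Matrix.of_apply, frame_hs, Nf, f6_nz (hu ω i)]
  have g3 : ∑ i, ∑ l, B i l * B l i = ∑ i, (⟪x (U ω (ee i)), nz (U ω (ee i))⟫ - 1) ^ 2 +
      ∑ i, ∑ l, W i l ω := by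
    rw [← Finset.sum_add_distrib]
    refine Finset.sum_congr rfl fun i _ => ?_
    have : ∀ l, B i l * B l i = (if i = l then B i i ^ 2 else 0) + W i l ω := fun l => by
      rw [hW]
      by_cases h : i = l
      · subst h
        simp only [if_true, add_zero, sq]
      · simp only [if_neg h, hB, Matrix.of_apply, inner_sub_left, LinearIsometryEquiv.inner_map_map,
          f6_ee2 h, f6_ee2 (Ne.symm h), sub_zero, zero_add]
    simp only [this, Finset.sum_add_distrib, Finset.sum_ite_eq, Finset.mem_univ, if_true, g1]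
  have g4 : -(∑ i, ∑ l, B i l ^ 2) ≤ ∑ i, ∑ l, B i l * B l i := by
    have h1 : ∑ i, ∑ l, B l i ^ 2 = ∑ i, ∑ l, B i l ^ 2 := Finset.sum_comm
    have h2 : 0 ≤ ∑ i, ∑ l, (B i l + B l i) ^ 2 := by positivity
    simp only [add_sq, Finset.sum_add_distrib, mul_assoc, ← Finset.mul_sum] at h2
    linarith
  rw [← g2, ← g3, ← Finset.sum_congr rfl fun i _ => g1 i] at c4
  obtain ⟨k1, k2⟩ := f6_point hCl hτ0 (by positivity) g4 c5 c4
  obtain ⟨j, hj⟩ := vertex v (fun i => x (U ω (ee i))) fun i y => S.le _ y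
  refine ⟨j, (Real.exp_le_exp.2 k2).trans ((hl d B k1).trans (le_trans (le_of_eq ?_) hj))⟩
  rw [hB]
  exact frame_det (U ω) fun i => x (U ω (ee i))

end

end Pool.Agent.Lib.MP_77d991_gt.Ex
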