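import Pool.Agent.Lib.MP_77d991_gt.Ex.C5
import Pool.Agent.Lib.MP_77d991_gt.Ex.B2

open MeasureTheory ProbabilityTheory Set
open scoped RealInnerProductSpace

namespace Pool.Agent.Lib.MP_77d991_gt.Ex

open Pool.Agent.Lib.MP_77d991_gt.As

theorem f7_int {α : Type} [MeasurableSpace α] {μ : Measure α} [IsFiniteMeasure μ] {F : α → ℝ}
    {C : ℝ} (h : Bm F C) : Integrable F μ :=
  Integrable.of_bound h.1.aestronglyMeasurable C (ae_of_all _ h.2)

theorem f7_mul {α : Type} [MeasurableSpace α] {F G : α → ℝ} {C C' : ℝ} (h : Bm F C)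
    (h' : Bm G C') : Bm (fun y => F y * G y) (C * C') :=
  ⟨h.1.mul h'.1, fun y => (norm_mul_le _ _).trans
    (mul_le_mul (h.2 y) (h'.2 y) (norm_nonneg _) ((norm_nonneg _).trans (h.2 y)))⟩

theorem f7_nz {d : ℕ} {u : Eu d} (hu : ‖u‖ = 1) : nz u = u := by
  rw [nz, hu, inv_one, one_smul]

theorem f7_bm {d : ℕ} {h : Eu d → ℝ} {x : Eu d → Eu d} {R : ℝ} (S : Sel h x R) :
    Bm (fun u => h (nz u)) R := by
  have h1 : Measurable (nz : Eu d → Eu d) := measurable_norm.inv.smul measurable_id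
  have h2 : (fun u => h (nz u)) = fun u => ⟪x (nz u), nz u⟫ := funext fun u => (S.eq _).symm
  rw [h2]
  refine ⟨(S.meas.comp h1).inner h1, fun u => (norm_inner_le_norm _ _).trans ?_⟩
  have h3 : ‖nz u‖ ≤ 1 := by
    rw [nz, norm_smul, norm_inv, norm_norm]
    exact inv_mul_le_one_of_le₀ le_rfl (norm_nonneg _)
  exact (mul_le_of_le_one_right (norm_nonneg _) h3).trans (S.bdd _)

theorem f7_sum {d : ℕ} {Ω : Type} [MeasurableSpace Ω] {ν : Measure Ω}
    {U : Ω → (Eu d ≃ₗᵢ[ℝ] Eu d)} (H : Haar ν U) {w f : Eu d → ℝ} {C C' : ℝ} (hw : Bm w C)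
    (hf : Bm f C') (i0 : Fin d) : ∫ ω, w (U ω (ee i0)) * ∑ i, f (U ω (ee i)) ∂ν =
      ∫ u, w u * (f u + (d - 1) * Fk f u) ∂sph d := by
  have := H.prob
  have hm : ∀ e : Eu d, Measurable fun ω => U ω e := fun e =>
    H.meas.comp (measurable_id.prodMk measurable_const)
  have he : ∀ i : Fin d, ‖ee i‖ = 1 := fun i => by simp [ee]
  have h1 : ∀ i, Integrable (fun ω => w (U ω (ee i0)) * f (U ω (ee i))) ν := fun i =>
    f7_int (f7_mul ⟨hw.1.comp (hm _), fun ω => hw.2 _⟩ ⟨hf.1.comp (hm _), fun ω => hf.2 _⟩)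
  have h2 : ∫ ω, w (U ω (ee i0)) * f (U ω (ee i0)) ∂ν = ∫ u, w u * f u ∂sph d := by
    rw [← H.law (he i0), integral_map (hm _).aemeasurable (f7_mul hw hf).1.aestronglyMeasurable]
  have h3 : ∀ i ∈ Finset.univ.erase i0, ∫ ω, w (U ω (ee i0)) * f (U ω (ee i)) ∂ν =
      ∫ u, w u * Fk f u ∂sph d := fun i hi =>
    H.pair (he i0) (he i) (by
      simp [ee, EuclideanSpace.inner_single_left, (Finset.ne_of_mem_erase hi).symm]) hw hf
  simp only [Finset.mul_sum, mul_add, mul_left_comm _ ((d : ℝ) - 1)]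
  rw [integral_finsetSum _ fun i _ => h1 i, ← Finset.add_sum_erase _ _ (Finset.mem_univ i0), h2,
    Finset.sum_congr rfl h3, Finset.sum_const, Finset.card_erase_of_mem (Finset.mem_univ _),
    Finset.card_univ, Fintype.card_fin, nsmul_eq_mul, Nat.cast_pred i0.pos,
    integral_add (f7_int (f7_mul hw hf)) ((f7_int (f7_mul hw (Fk_bm hf))).const_mul _),
    integral_const_mul]

/-- `s = sign (f + (d-1) Fk f)`, `w = 1 + (s - ∫ s)/4`; `max h ρ - 1 = f + e`, `e ≥ 0`;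
mean `= d ∫e + ⟨s, f + (d-1)Fk f⟩/4 + ⟨s - ∫s, e + (d-1) Fk e⟩/4`; `gleason`, `Haar.pair`. -/
theorem tiny_lin : ∃ d0 : ℕ, ∀ d ≥ d0, ∀ (Ω : Type) (_ : MeasurableSpace Ω) (ν : Measure Ω)
    (U : Ω → (Eu d ≃ₗᵢ[ℝ] Eu d)), Haar ν U → ∀ (h : Eu d → ℝ) (x : Eu d → Eu d) (R ρ : ℝ),
    Pos h x R → ∀ i0 : Fin d, ∃ w : Eu d → ℝ, Bm w 2 ∧ (∀ u, 1 / 2 ≤ w u) ∧
      mab h / (40 * d) ≤ ∫ ω, w (U ω (ee i0)) * ∑ i, (max (h (U ω (ee i))) ρ - 1) ∂ν := by
  obtain ⟨d0, h0⟩ := gleason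
  refine ⟨max d0 2, fun d hd Ω _ ν U H h x R ρ P i0 => ?_⟩
  have := H.prob
  have hd0 := i0.pos
  have hb := f7_bm P.sel
  let f : Eu d → ℝ := fun u => h (nz u) - 1
  have hf : Bm f (R + 1) := ⟨hb.1.sub_const 1, fun u =>
    (norm_sub_le _ _).trans (add_le_add (hb.2 u) norm_one.le)⟩
  have e1 : ∀ᵐ u ∂sph d, f u = h u - 1 := (sph_unit hd0).mono fun u hu => by
    simp only [f, f7_nz hu]
  have m0 : ∫ u, f u ∂sph d = 0 := (integral_congr_ae e1).trans (P.mean hd0)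
  have h1 := h0 d (le_of_max_le_left hd) f _ hf m0 fun w =>
    (integral_congr_ae (e1.mono fun u hu => by rw [hu, sq])).trans (P.quad hd0 w w)
  have h2 : mab h = ∫ u, |f u| ∂sph d :=
    integral_congr_ae (e1.mono fun u hu => by beta_reduce; rw [hu])
  have i1 : Integrable f (sph d) := f7_int hf
  have i2 : Integrable (fun u => ((d : ℝ) - 1) * Fk f u) (sph d) := (f7_int (Fk_bm hf)).const_mul _
  have m1 : ∫ u, (f u + (d - 1) * Fk f u) ∂sph d = 0 := by
    rw [integral_add i1 i2, integral_const_mul, Fk_mean (le_of_max_le_right hd) hf, m0, mul_zero,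
      add_zero]
  let w : Eu d → ℝ := fun u => if f u + (d - 1) * Fk f u < 0 then 3 / 4 else 5 / 4
  have hw : Bm w 2 := ⟨Measurable.ite (measurableSet_lt (hf.1.add ((Fk_bm hf).1.const_mul _))
    measurable_const) measurable_const measurable_const, fun u => by
      simp only [w]
      split_ifs <;> norm_num⟩
  have hw' : ∀ u, 1 / 2 ≤ w u := fun u => by
    simp only [w]
    split_ifs <;> norm_num
  have h3 : ∀ u, w u * (f u + (d - 1) * Fk f u) =
      (f u + (d - 1) * Fk f u) + 1 / 4 * |f u + (d - 1) * Fk f u| := fun u => by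
    simp only [w]
    split_ifs with e
    · rw [abs_of_neg e]
      ring
    · rw [abs_of_nonneg (not_lt.1 e)]
      ring
  have h4 := f7_sum H hw hf i0
  have i3 : Integrable (fun u => f u + (d - 1) * Fk f u) (sph d) := i1.add i2
  rw [funext h3, integral_add i3 (i3.abs.const_mul _), m1, zero_add, integral_const_mul] at h4
  have hm : ∀ e : Eu d, Measurable fun ω => U ω e := fun e =>
    H.meas.comp (measurable_id.prodMk measurable_const)
  have he : ∀ ω i, nz (U ω (ee i)) = U ω (ee i) := fun ω i => f7_nz (by simp [ee])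
  have hM : Bm (fun u => max (h (nz u)) ρ - 1) (R + |ρ| + 1) :=
    ⟨(hb.1.max measurable_const).sub_const 1, fun u => (norm_sub_le _ _).trans (add_le_add
      (abs_max_le_max_abs_abs.trans (max_le_add_of_nonneg (abs_nonneg _) (abs_nonneg _)) |>.trans
        (add_le_add (hb.2 u) le_rfl)) norm_one.le)⟩
  have h5 : ∀ {F : Eu d → ℝ} {C : ℝ}, Bm F C →
      Integrable (fun ω => w (U ω (ee i0)) * ∑ i, F (U ω (ee i))) ν := fun hF => by
    simp only [Finset.mul_sum]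
    exact integrable_finsetSum _ fun i _ =>
      f7_int (f7_mul ⟨hw.1.comp (hm _), fun ω => hw.2 _⟩ ⟨hF.1.comp (hm _), fun ω => hF.2 _⟩)
  have h6 := integral_mono (h5 hf) (h5 hM) fun ω => mul_le_mul_of_nonneg_left
    (Finset.sum_le_sum fun i _ => sub_le_sub_right (le_max_left _ _) 1)
    (le_trans (by norm_num) (hw' _))
  simp only [he] at h6
  refine ⟨w, hw, hw', le_trans ?_ (h4.symm.trans_le h6)⟩
  rw [h2, div_le_iff₀ (by positivity)]
  linarith

end Pool.Agent.Lib.MP_77d991_gt.Ex
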