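import Pool.Agent.Lib.MP_77d991_gt.Ex.F7
import Pool.Agent.Lib.MP_77d991_gt.Ex.C9
import Pool.Agent.Lib.MP_77d991_gt.Ex.B4
import Pool.Agent.Lib.MP_77d991_gt.Ex.B6
import Pool.Agent.Lib.MP_77d991_gt.Ex.B7

open MeasureTheory ProbabilityTheory Set
open scoped RealInnerProductSpace

namespace Pool.Agent.Lib.MP_77d991_gt.Ex

open Pool.Agent.Lib.MP_77d991_gt.As

lemma f8_nz {d : ℕ} {u : Eu d} (hu : ‖u‖ = 1) : nz u = u := by
  simp [nz, hu]

lemma f8_ee {d : ℕ} (i l : Fin d) : ⟪(ee i : Eu d), ee l⟫ = if i = l then 1 else 0 := by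
  simp [ee, EuclideanSpace.inner_single_left]

lemma f8_ee1 {d : ℕ} (i : Fin d) : ‖(ee i : Eu d)‖ = 1 := by
  simp [ee]

lemma f8_row {d : ℕ} {Ω : Type} [MeasurableSpace Ω] {ν : Measure Ω}
    {U : Ω → (Eu d ≃ₗᵢ[ℝ] Eu d)} (H : Haar ν U) (i : Fin d) {F : Eu d → ℝ} (hF : Measurable F) :
    Measurable (fun ω => U ω (ee i)) ∧ ∫ ω, F (U ω (ee i)) ∂ν = ∫ u, F u ∂sph d := by
  have hm : Measurable fun ω => U ω (ee i) :=
    H.meas.comp (measurable_id.prodMk measurable_const)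
  refine ⟨hm, ?_⟩
  rw [← H.law (f8_ee1 i), integral_map hm.aemeasurable hF.aestronglyMeasurable]

lemma f8_int {Ω : Type} [MeasurableSpace Ω] {ν : Measure Ω} [IsProbabilityMeasure ν] {F : Ω → ℝ}
    (hF : Measurable F) (C : ℝ) (h : ∀ ω, |F ω| ≤ C) : Integrable F ν :=
  (integrable_const C).mono' hF.aestronglyMeasurable (Filter.Eventually.of_forall h)

lemma f8_sint {d : ℕ} (hd : 0 < d) {F : Eu d → ℝ} (hF : Measurable F) (C : ℝ)
    (h : ∀ u, ‖u‖ = 1 → |F u| ≤ C) : Integrable F (sph d) :=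
  (integrable_const C).mono' hF.aestronglyMeasurable ((sph_unit hd).mono fun u hu => h u hu)

lemma f8_pt {d : ℕ} {h : Eu d → ℝ} {x : Eu d → Eu d} {R ε δ : ℝ} (S : Sel h x R) (hε : 0 < ε)
    (hε1 : ε ≤ 1) (hδ : δ ≤ ε) (hR1 : 1 ≤ R) (hR : R - 1 ≤ δ) {u : Eu d} (hu : ‖u‖ = 1) :
    ⟪xh h x (1 - ε) u, u⟫ = max (h u) (1 - ε) ∧ |max (h u) (1 - ε) - 1| ≤ ε ∧
      |max (h u) (1 - ε) - 1| ≤ |h u - 1| ∧ ‖Nf (xh h x (1 - ε)) u‖ ^ 2 ≤ 5 * ε ∧ |h u - 1| ≤ 2 := by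
  have S' := sel_xh S (ρ := 1 - ε) (by linarith) (by linarith)
  have h1 := S'.eq u
  have h2 := S.h_le u
  have h3 := S.h_nonneg u
  have h4 := Nf_sq S' hu
  have h5 := S'.bdd u
  simp only [hu, mul_one] at h1 h2 h4
  have h6 : max (h u) (1 - ε) ≤ 1 + ε := max_le (by linarith) (by linarith)
  have h7 : 1 - ε ≤ max (h u) (1 - ε) := le_max_right _ _
  refine ⟨h1, abs_le.2 ⟨by linarith, by linarith⟩, ?_, ?_, abs_le.2 ⟨by linarith, by linarith⟩⟩
  · rcases le_total (h u) (1 - ε) with h8 | h8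
    · rw [max_eq_right h8, abs_of_nonpos (by linarith), abs_of_nonpos (by linarith)]
      linarith
    · rw [max_eq_left h8]
  · have h8 : ‖xh h x (1 - ε) u‖ ^ 2 ≤ (1 + ε) ^ 2 :=
      pow_le_pow_left₀ (norm_nonneg _) (by linarith) 2
    nlinarith [h4.1, h4.2.1]

lemma f8_det {d : ℕ} {h : Eu d → ℝ} {x : Eu d → Eu d} {R ε δ s C : ℝ} (S : Sel h x R) (hε : 0 < ε)
    (hε1 : ε ≤ 1) (hδ0 : 0 < δ) (hδ : δ ≤ ε) (hR1 : 1 ≤ R) (hR : R - 1 ≤ δ) (hC : 0 < C)
    (hs0 : 0 ≤ s) (hs : 5 * d * ε ≤ s ^ 2) (hs1 : s ^ 2 ≤ 1 / 100)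
    (hL : ∀ B : Matrix (Fin d) (Fin d) ℝ, ∑ i, ∑ l, B i l ^ 2 ≤ 1 / 100 →
      Real.exp (∑ i, B i i - (∑ i, ∑ l, B i l * B l i) / 2 -
        C * ((∑ i, ∑ l, B i l ^ 2) * √(∑ i, ∑ l, B i l ^ 2))) ≤ |(1 + B).det|)
    (O : Eu d ≃ₗᵢ[ℝ] Eu d)
    (hΦ : 0 ≤ ∑ i, (max (h (O (ee i))) (1 - ε) - 1) -
      (∑ i, ∑ l, if i = l then 0 else
        ⟪xh h x (1 - ε) (O (ee i)), O (ee l)⟫ * ⟪xh h x (1 - ε) (O (ee l)), O (ee i)⟫) / 2 -
      ∑ i, ((ε / 2 + 2 * d * δ / ε) * |h (O (ee i)) - 1| +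
        C * s * ‖Nf (xh h x (1 - ε)) (O (ee i))‖ ^ 2)) :
    1 ≤ |dt fun i => x (O (ee i))| := by
  set y := xh h x (1 - ε) with hy
  have hu : ∀ i, ‖O (ee i)‖ = 1 := fun i => by rw [O.norm_map, f8_ee1]
  have hp := fun i => f8_pt S hε hε1 hδ hR1 hR (hu i)
  set B : Matrix (Fin d) (Fin d) ℝ := Matrix.of fun i l => ⟪y (O (ee i)) - O (ee i), O (ee l)⟫
    with hB
  have hB1 : ∀ i l, B i l = ⟪y (O (ee i)), O (ee l)⟫ - if i = l then 1 else 0 := by
    intro i l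
    rw [hB, Matrix.of_apply, inner_sub_left, O.inner_map_map, f8_ee]
  have hB2 : ∀ i, B i i = max (h (O (ee i))) (1 - ε) - 1 := by
    intro i
    rw [hB1, (hp i).1, if_pos rfl]
  have hB3 : ∑ i, ∑ l, B i l ^ 2 = ∑ i, ‖Nf y (O (ee i))‖ ^ 2 := by
    refine Finset.sum_congr rfl fun i _ => ?_
    rw [Nf, f8_nz (hu i), ← frame_hs O]
    rfl
  have hB4 : ∑ i, ‖Nf y (O (ee i))‖ ^ 2 ≤ s ^ 2 := by
    refine (Finset.sum_le_sum fun i _ => (hp i).2.2.2.1).trans ?_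
    rw [Finset.sum_const, Finset.card_univ, Fintype.card_fin, nsmul_eq_mul]
    linarith
  have hB5 : ∑ i, ∑ l, B i l * B l i ≤ (∑ i, ∑ l, if i = l then 0 else
      ⟪y (O (ee i)), O (ee l)⟫ * ⟪y (O (ee l)), O (ee i)⟫) + ∑ i, ε * |h (O (ee i)) - 1| := by
    rw [← Finset.sum_add_distrib]
    refine Finset.sum_le_sum fun i _ => ?_
    have h1 : ∀ l, B i l * B l i = (if i = l then 0 else
        ⟪y (O (ee i)), O (ee l)⟫ * ⟪y (O (ee l)), O (ee i)⟫) +
          if i = l then B i i * B i i else 0 := by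
      intro l
      by_cases hil : i = l
      · subst hil; simp
      · rw [hB1, hB1, if_neg hil, if_neg (Ne.symm hil), if_neg hil, if_neg hil]; ring
    rw [Finset.sum_congr rfl fun l _ => h1 l, Finset.sum_add_distrib, Finset.sum_ite_eq,
      if_pos (Finset.mem_univ i)]
    refine add_le_add le_rfl ?_
    rw [hB2, ← abs_mul_abs_self]
    exact mul_le_mul (hp i).2.1 (hp i).2.2.1 (abs_nonneg _) hε.le
  have h1 := hL B (by rw [hB3]; linarith)
  rw [hB, frame_det O fun i => y (O (ee i)), ← hB, hB3] at h1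
  have h2 : √(∑ i, ‖Nf y (O (ee i))‖ ^ 2) ≤ s := Real.sqrt_le_iff.2 ⟨hs0, hB4⟩
  have h3 : 0 ≤ ∑ i, ‖Nf y (O (ee i))‖ ^ 2 := Finset.sum_nonneg fun i _ => by positivity
  have h4 := mul_le_mul_of_nonneg_left (mul_le_mul_of_nonneg_left h2 h3) hC.le
  simp only [hB2] at h1
  rw [Finset.sum_add_distrib, ← Finset.mul_sum, ← Finset.mul_sum] at hΦ
  rw [← Finset.mul_sum] at hB5
  set T := ∑ i, |h (O (ee i)) - 1| with hT
  have h5 : Real.exp (2 * d * δ / ε * T) ≤ |dt fun i => y (O (ee i))| :=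
    (Real.exp_le_exp.2 (by nlinarith)).trans h1
  have h6 : |dt fun i => y (O (ee i))| ≤ Real.exp (d * δ) := by
    refine (asgeo_hadamard _).trans ?_
    have S' := sel_xh S (ρ := 1 - ε) (by linarith) (by linarith)
    refine (Finset.prod_le_prod (fun i _ => norm_nonneg _) (g := fun _ => Real.exp δ)
      fun i _ => (S'.bdd _).trans (by linarith [Real.add_one_le_exp δ])).trans ?_
    rw [Finset.prod_const, Finset.card_univ, Fintype.card_fin, ← Real.exp_nat_mul]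
  have h7 : ∀ i, y (O (ee i)) = x (O (ee i)) := by
    intro i
    by_contra hne
    have h8 : h (O (ee i)) ≤ 1 - ε := by
      by_contra hlt
      apply hne
      rw [hy, xh, hu i, mul_one, if_pos (not_le.1 hlt)]
    have h9 : ε ≤ T := by
      refine le_trans ?_ (Finset.single_le_sum (f := fun i => |h (O (ee i)) - 1|)
        (fun i _ => abs_nonneg _) (Finset.mem_univ i))
      rw [abs_of_nonpos (by linarith)]
      linarith
    have hd : (0 : ℝ) < d := by exact_mod_cast i.pos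
    have h10 := Real.exp_le_exp.1 (h5.trans h6)
    have h11 : 2 * d * δ / ε * ε ≤ 2 * d * δ / ε * T :=
      mul_le_mul_of_nonneg_left h9 (by positivity)
    rw [div_mul_cancel₀ _ hε.ne'] at h11
    nlinarith [mul_pos hd hδ0]
  simp only [h7] at h5
  refine le_trans (Real.one_le_exp ?_) h5
  have : 0 ≤ T := Finset.sum_nonneg fun i _ => abs_nonneg _
  positivity

lemma f8_mean {d : ℕ} (hd : 0 < d) {h : Eu d → ℝ} {x : Eu d → Eu d} {R ε δ a c k : ℝ}
    (S : Sel h x R) (hε : 0 < ε) (hε1 : ε ≤ 1) (hδ : δ ≤ ε) (hR1 : 1 ≤ R) (hR : R - 1 ≤ δ)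
    (ha : 0 ≤ a) (hc : 0 ≤ c) (hk : 0 ≤ k) {Ω : Type} [MeasurableSpace Ω] {ν : Measure Ω}
    {U : Ω → (Eu d ≃ₗᵢ[ℝ] Eu d)} (H : Haar ν U) (hQ : QB (xh h x (1 - ε)) k) {w : Eu d → ℝ}
    (hw : Bm w 2) (hw0 : ∀ u, 1 / 2 ≤ w u) (i0 : Fin d)
    (hb : d ^ 2 * k / 2 + 2 * d * (a * mab h + c * bsq (xh h x (1 - ε))) ≤
      ∫ ω, w (U ω (ee i0)) * ∑ i, (max (h (U ω (ee i))) (1 - ε) - 1) ∂ν) :
    ∃ ω, 0 ≤ ∑ i, (max (h (U ω (ee i))) (1 - ε) - 1) -
      (∑ i, ∑ l, if i = l then 0 else ⟪xh h x (1 - ε) (U ω (ee i)), U ω (ee l)⟫ *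
        ⟪xh h x (1 - ε) (U ω (ee l)), U ω (ee i)⟫) / 2 -
      ∑ i, (a * |h (U ω (ee i)) - 1| + c * ‖Nf (xh h x (1 - ε)) (U ω (ee i))‖ ^ 2) := by
  have := H.prob
  set y := xh h x (1 - ε) with hy
  have S' : Sel _ y R := sel_xh S (ρ := 1 - ε) (by linarith) (by linarith)
  have hu : ∀ ω i, ‖U ω (ee i)‖ = 1 := fun ω i => by rw [(U ω).norm_map, f8_ee1]
  have hp := fun ω i => f8_pt S hε hε1 hδ hR1 hR (hu ω i)
  have mh : Measurable h := S.cont.measurable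
  have my := S'.meas
  have mN := (meas_Nf S').1
  have mw := hw.1
  have mU : ∀ i, Measurable fun ω => U ω (ee i) := fun i => (f8_row H i mh).1
  have hw2 : ∀ u, |w u| ≤ 2 := hw.2
  set G : Eu d → ℝ := fun u => a * |h u - 1| + c * ‖Nf y u‖ ^ 2 with hG
  have mG : Measurable G := by fun_prop
  have G0 : ∀ u, 0 ≤ G u := fun u => by positivity
  have Gb : ∀ u, ‖u‖ = 1 → G u ≤ a * 2 + c * (5 * ε) := fun u hu =>
    add_le_add (mul_le_mul_of_nonneg_left (f8_pt S hε hε1 hδ hR1 hR hu).2.2.2.2 ha)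
      (mul_le_mul_of_nonneg_left (f8_pt S hε hε1 hδ hR1 hR hu).2.2.2.1 hc)
  have hGI : ∫ u, G u ∂sph d = a * mab h + c * bsq y := by
    rw [hG, integral_add (Integrable.const_mul (f8_sint hd (by fun_prop) 2 fun u hu => by
      rw [abs_abs]; exact (f8_pt S hε hε1 hδ hR1 hR hu).2.2.2.2) a)
      (Integrable.const_mul (f8_sint hd (by fun_prop) (5 * ε) fun u hu => by
        rw [abs_of_nonneg (by positivity)]; exact (f8_pt S hε hε1 hδ hR1 hR hu).2.2.2.1) c),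
      integral_const_mul, integral_const_mul]
    rfl
  have i1 : Integrable (fun ω => w (U ω (ee i0)) * ∑ i, (max (h (U ω (ee i))) (1 - ε) - 1)) ν := by
    refine f8_int ((mw.comp (mU i0)).mul (Finset.measurable_sum _ fun i _ =>
      ((mh.comp (mU i)).max measurable_const).sub measurable_const)) (2 * ∑ _i : Fin d, ε)
      fun ω => ?_
    rw [abs_mul]
    exact mul_le_mul (hw2 _) ((Finset.abs_sum_le_sum_abs _ _).trans
      (Finset.sum_le_sum fun i _ => (hp ω i).2.1)) (abs_nonneg _) (by norm_num)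
  set P : Fin d → Fin d → Ω → ℝ := fun i l ω => w (U ω (ee i0)) * if i = l then 0 else
    ⟪y (U ω (ee i)), U ω (ee l)⟫ * ⟪y (U ω (ee l)), U ω (ee i)⟫ with hP
  have hin : ∀ ω i l, |⟪y (U ω (ee i)), U ω (ee l)⟫| ≤ R := fun ω i l =>
    (abs_real_inner_le_norm _ _).trans (by rw [hu, mul_one]; exact S'.bdd _)
  have i2 : ∀ i l, Integrable (P i l) ν := by
    intro i l
    by_cases hil : i = l
    · simp only [hP, if_pos hil, mul_zero]
      exact integrable_const _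
    · simp only [hP, if_neg hil]
      refine f8_int ((mw.comp (mU i0)).mul (((my.comp (mU i)).inner (mU l)).mul
        ((my.comp (mU l)).inner (mU i)))) (2 * (R * R)) fun ω => ?_
      rw [abs_mul, abs_mul]
      exact mul_le_mul (hw2 _) (mul_le_mul (hin ω i l) (hin ω l i) (abs_nonneg _) (by linarith))
        (by positivity) (by norm_num)
  have j2 : ∀ i l, ∫ ω, P i l ω ∂ν ≤ k := by
    intro i l
    by_cases hil : i = l
    · simp only [hP, if_pos hil, mul_zero, integral_zero]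
      exact hk
    · simp only [hP, if_neg hil]
      exact (le_abs_self _).trans (hQ Ω _ ν U H w hw i0 i l hil)
  have i3 : ∀ i, Integrable (fun ω => w (U ω (ee i0)) * G (U ω (ee i))) ν := fun i =>
    f8_int ((mw.comp (mU i0)).mul (mG.comp (mU i))) (2 * (a * 2 + c * (5 * ε))) fun ω => by
      rw [abs_mul, abs_of_nonneg (G0 _)]
      exact mul_le_mul (hw2 _) (Gb _ (hu ω i)) (G0 _) (by norm_num)
  have j3 : ∀ i, ∫ ω, w (U ω (ee i0)) * G (U ω (ee i)) ∂ν ≤ 2 * (a * mab h + c * bsq y) := by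
    intro i
    rw [← hGI, ← (f8_row H i mG).2, ← integral_const_mul]
    have i7 : Integrable (fun ω => G (U ω (ee i))) ν := f8_int (mG.comp (mU i)) _ fun ω =>
      (abs_of_nonneg (G0 _)).trans_le (Gb _ (hu ω i))
    refine integral_mono (i3 i) (i7.const_mul 2) fun ω => ?_
    exact mul_le_mul_of_nonneg_right ((le_abs_self _).trans (hw2 _)) (G0 _)
  have i4 : Integrable (fun ω => ∑ i, ∑ l, P i l ω) ν :=
    integrable_finsetSum _ fun i _ => integrable_finsetSum _ fun l _ => i2 i l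
  have i5 : Integrable (fun ω => ∑ i, w (U ω (ee i0)) * G (U ω (ee i))) ν :=
    integrable_finsetSum _ fun i _ => i3 i
  have i6 : Integrable (fun ω => w (U ω (ee i0)) * ∑ i, (max (h (U ω (ee i))) (1 - ε) - 1) -
      (∑ i, ∑ l, P i l ω) / 2) ν := i1.sub (i4.div_const 2)
  have j4 : ∫ ω, ∑ i, ∑ l, P i l ω ∂ν ≤ d ^ 2 * k := by
    rw [integral_finsetSum _ fun i _ => integrable_finsetSum _ fun l _ => i2 i l]
    refine (Finset.sum_le_sum (g := fun _ => d * k) fun i _ => ?_).trans ?_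
    · rw [integral_finsetSum _ fun l _ => i2 i l]
      refine (Finset.sum_le_sum fun l _ => j2 i l).trans ?_
      rw [Finset.sum_const, Finset.card_univ, Fintype.card_fin, nsmul_eq_mul]
    · rw [Finset.sum_const, Finset.card_univ, Fintype.card_fin, nsmul_eq_mul]
      exact le_of_eq (by ring)
  have j5 : ∫ ω, ∑ i, w (U ω (ee i0)) * G (U ω (ee i)) ∂ν ≤
      2 * d * (a * mab h + c * bsq y) := by
    rw [integral_finsetSum _ fun i _ => i3 i]
    refine (Finset.sum_le_sum fun i _ => j3 i).trans ?_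
    rw [Finset.sum_const, Finset.card_univ, Fintype.card_fin, nsmul_eq_mul]
    exact le_of_eq (by ring)
  obtain ⟨ω, hω⟩ := exists_integral_le (i6.sub i5)
  simp only [Pi.sub_apply] at hω
  rw [integral_sub i6 i5, integral_sub i1 (i4.div_const 2), integral_div] at hω
  refine ⟨ω, ?_⟩
  have h0 : 0 < w (U ω (ee i0)) := by linarith [hw0 (U ω (ee i0))]
  refine nonneg_of_mul_nonneg_right (a := w (U ω (ee i0))) ?_ h0
  simp only [hP, ← Finset.mul_sum] at hω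
  simp only [hG] at hω
  simp only [hP, ← Finset.mul_sum] at j4 j5
  simp only [hG] at j5
  nlinarith

lemma f8_num {D η m b CE CQ CL : ℝ} {k : ℕ} (hCE : 0 < CE) (hCQ : 0 < CQ) (hCL : 0 < CL)
    (h1 : 1000 ≤ D) (h2 : 100 * CQ * (CE + 3) ≤ D) (h3 : 1200 * CL * CE ≤ D) (hη0 : 0 < η)
    (hη : η * D ^ (k + 10) = 1) (hm : 0 ≤ m) (hb0 : 0 ≤ b) (hb1 : b ≤ CE * D * m)
    (hb2 : b ≤ 5 * η ^ 4) :
    D ^ 2 * (CQ * √(b * (b / D ^ 12 + D ^ k * m * √b))) / 2 +
      2 * D * ((η ^ 4 / 2 + 2 * D * (η ^ 4 / D ^ 4) / η ^ 4) * m + CL * (3 * D * η ^ 2) * b) ≤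
        m / (40 * D) := by
  have hD : 0 < D := by linarith
  have hD1 : 1 ≤ D := by linarith
  have hk1 : 1 ≤ D ^ k := one_le_pow₀ hD1
  have e1 : η * D ^ k * D ^ 10 = 1 := by rw [← hη, pow_add]; ring
  have e2 : η * D ^ k = 1 / D ^ 10 := by rw [eq_div_iff (by positivity)]; exact e1
  have e3 : η ≤ 1 / D ^ 10 := by rw [← e2]; exact le_mul_of_one_le_right hη0.le hk1
  have e4 : 1 / D ^ 10 ≤ 1 / D := one_div_le_one_div_of_le hD (le_self_pow₀ hD1 (by norm_num))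
  have e5 : 1 / D ≤ 1 := by rw [div_le_one hD]; exact hD1
  have s1 : √b ≤ 3 * η ^ 2 := Real.sqrt_le_iff.2 ⟨by positivity, by nlinarith [pow_pos hη0 4]⟩
  have s2 : D ^ k * m * √b ≤ 3 * m / D ^ 11 := by
    have h4 : D ^ k * m * √b ≤ D ^ k * m * (3 * η ^ 2) :=
      mul_le_mul_of_nonneg_left s1 (by positivity)
    have h5 : D ^ k * m * (3 * η ^ 2) = 3 * m * (η * D ^ k) * η := by ring
    rw [h5, e2] at h4
    refine h4.trans ((mul_le_mul_of_nonneg_left (e3.trans e4) (by positivity)).trans (le_of_eq ?_))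
    field_simp
  have s3 : b / D ^ 12 ≤ CE * m / D ^ 11 := by
    refine (div_le_div_of_nonneg_right hb1 (by positivity)).trans (le_of_eq ?_)
    field_simp
  have s4 : √(b * (b / D ^ 12 + D ^ k * m * √b)) ≤ (CE + 3) * m / D ^ 5 := by
    refine Real.sqrt_le_iff.2 ⟨by positivity, ?_⟩
    refine (mul_le_mul hb1 (add_le_add s3 s2) (by positivity) (by positivity)).trans ?_
    have h4 : CE * D * m * (CE * m / D ^ 11 + 3 * m / D ^ 11) =
        CE * ((CE + 3) * m ^ 2 / D ^ 10) := by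
      field_simp
    have h5 : ((CE + 3) * m / D ^ 5) ^ 2 = (CE + 3) * ((CE + 3) * m ^ 2 / D ^ 10) := by
      field_simp
    rw [h4, h5]
    exact mul_le_mul_of_nonneg_right (by linarith) (by positivity)
  have t1 : D ^ 2 * (CQ * √(b * (b / D ^ 12 + D ^ k * m * √b))) / 2 ≤ m / (200 * D) := by
    have h4 := mul_le_mul_of_nonneg_left (mul_le_mul_of_nonneg_left s4 hCQ.le) (sq_nonneg D)
    have h5 : D ^ 2 * (CQ * ((CE + 3) * m / D ^ 5)) = 100 * CQ * (CE + 3) * (m / (100 * D ^ 3)) := by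
      field_simp
    have h6 : 100 * CQ * (CE + 3) * (m / (100 * D ^ 3)) ≤ D ^ 2 * (m / (100 * D ^ 3)) :=
      mul_le_mul_of_nonneg_right (by nlinarith) (by positivity)
    have h7 : D ^ 2 * (m / (100 * D ^ 3)) = 2 * (m / (200 * D)) := by
      field_simp
      ring
    linarith
  have u1 : η ≤ 1 / D ^ 4 := e3.trans
    (one_div_le_one_div_of_le (by positivity) (pow_le_pow_right₀ hD1 (by norm_num)))
  have u2 : η ≤ 1 := (e3.trans e4).trans e5
  have u3 : η ^ 2 ≤ 1 / D ^ 4 * (1 / D ^ 4) := by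
    rw [sq]; exact mul_le_mul u1 u1 hη0.le (by positivity)
  have t2 : 2 * D * (η ^ 4 / 2 * m) ≤ m / (200 * D) := by
    have h4 : η ^ 4 ≤ 1 / D ^ 4 := (pow_le_of_le_one hη0.le u2 (by norm_num)).trans u1
    have h5 := mul_le_mul_of_nonneg_left h4 (by positivity : 0 ≤ D * m)
    have h6 : D * m * (1 / D ^ 4) = 200 * (m / (200 * D ^ 3)) := by field_simp
    have h7 : 200 * (m / (200 * D ^ 3)) ≤ D ^ 2 * (m / (200 * D ^ 3)) :=
      mul_le_mul_of_nonneg_right (by nlinarith) (by positivity)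
    have h8 : D ^ 2 * (m / (200 * D ^ 3)) = m / (200 * D) := by field_simp
    nlinarith
  have t3 : 2 * D * (2 * D * (η ^ 4 / D ^ 4) / η ^ 4 * m) ≤ m / (200 * D) := by
    have h6 : 2 * D * (2 * D * (η ^ 4 / D ^ 4) / η ^ 4 * m) = 800 * (m / (200 * D ^ 2)) := by
      field_simp
      ring
    have h8 : m / (200 * D) = D * (m / (200 * D ^ 2)) := by field_simp
    rw [h6, h8]
    exact mul_le_mul_of_nonneg_right (by linarith) (by positivity)
  have t4 : 2 * D * (CL * (3 * D * η ^ 2) * b) ≤ m / (200 * D) := by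
    have h4 := mul_le_mul u3 hb1 hb0 (by positivity)
    have h5 := mul_le_mul_of_nonneg_left h4 (by positivity : 0 ≤ 6 * D ^ 2 * CL)
    have h6 : 6 * D ^ 2 * CL * (1 / D ^ 4 * (1 / D ^ 4) * (CE * D * m)) =
        1200 * CL * CE * (m / (200 * D ^ 5)) := by
      field_simp
      ring
    have h7 : 1200 * CL * CE * (m / (200 * D ^ 5)) ≤ D ^ 4 * (m / (200 * D ^ 5)) :=
      mul_le_mul_of_nonneg_right (h3.trans (le_self_pow₀ hD1 (by norm_num))) (by positivity)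
    have h8 : D ^ 4 * (m / (200 * D ^ 5)) = m / (200 * D) := by field_simp
    nlinarith
  have t5 : m / (40 * D) = 5 * (m / (200 * D)) := by
    field_simp
    ring
  have t6 : 0 ≤ m / (200 * D) := by positivity
  nlinarith

/-- `ε = d^(-K₁)`, `ρ = 1 - ε`, `δ = d^(-K)`, field `xh h x ρ` (`sel_xh`), `‖N‖² ≤ 5ε` on the sphere,
`mab` of the filled body at most `mab h =: m`, `b² ≤ C d m` (`energy_le`), `QB` from `qb_any 12`.
Functional `tr B - tr B²/2 - C √(5dε) ∑‖N(u_i)‖² - 2dδ ∑ 1[h u_i ≤ ρ]`; weighted mean at least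
`m/(40d) - 2dεm - d² QB - 2C√(5dε) d b² - 4d²δ m/ε ≥ 0`. At a point where it is nonnegative no
indicator is on (`logdet`, `frame_det`, `asgeo_hadamard`), so the rows are values of `x`; `vertex`. -/
theorem tiny : ∃ K d0 : ℕ, ∀ d ≥ d0, ∀ (m : ℕ) (v : Fin (m + 1) → Eu d) (x : Eu d → Eu d) (R : ℝ),
    Pos (hV v) x R → R - 1 ≤ 1 / (d : ℝ) ^ K → ∃ j : Fin d → Fin (m + 1), 1 ≤ |dt (v ∘ j)| := by
  obtain ⟨d1, h1⟩ := tiny_lin
  obtain ⟨CQ, k, d2, hCQ, h2⟩ := qb_any 12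
  obtain ⟨CE, d3, hCE, h3⟩ := energy_le
  obtain ⟨CL, hCL, h4⟩ := logdet
  obtain ⟨d4, h5⟩ := exists_nat_ge (max 1000 (max (100 * CQ * (CE + 3)) (1200 * CL * CE)))
  refine ⟨4 * (k + 10) + 4, max (max d1 d2) (max d3 d4), fun d hd m v x R P hR => ?_⟩
  have hd4 : (d4 : ℝ) ≤ d := by exact_mod_cast (by omega : d4 ≤ d)
  have a1 : (1000 : ℝ) ≤ d := (le_max_left _ _).trans (h5.trans hd4)
  have a2 : 100 * CQ * (CE + 3) ≤ d :=
    (le_max_left _ _).trans ((le_max_right _ _).trans (h5.trans hd4))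
  have a3 : 1200 * CL * CE ≤ d :=
    (le_max_right _ _).trans ((le_max_right _ _).trans (h5.trans hd4))
  have hD : (0 : ℝ) < d := by linarith
  have hD1 : (1 : ℝ) ≤ d := by linarith
  have hd0 : 0 < d := by exact_mod_cast hD
  set η : ℝ := 1 / (d : ℝ) ^ (k + 10) with hη
  have hη0 : 0 < η := by positivity
  have hη1 : η * (d : ℝ) ^ (k + 10) = 1 := by rw [hη]; field_simp
  have hη2 : η ≤ 1 / d := one_div_le_one_div_of_le hD (le_self_pow₀ hD1 (by omega))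
  have hη3 : d * η ≤ 1 := by rwa [le_div_iff₀ hD, mul_comm] at hη2
  have hη4 : η ≤ 1 / 1000 := hη2.trans (one_div_le_one_div_of_le (by norm_num) a1)
  have hε0 : 0 < η ^ 4 := by positivity
  have hε1 : η ^ 4 ≤ 1 := pow_le_one₀ hη0.le (by linarith)
  have hδ : η ^ 4 / (d : ℝ) ^ 4 ≤ η ^ 4 := div_le_self hε0.le (one_le_pow₀ hD1)
  have hR' : R - 1 ≤ η ^ 4 / (d : ℝ) ^ 4 := by
    refine hR.trans (le_of_eq ?_)
    rw [hη, pow_add, pow_mul']
    field_simp
  have hR1 := P.one_le hd0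
  have S := P.sel
  have S' := sel_xh S (ρ := 1 - η ^ 4) (by linarith) (by linarith)
  obtain ⟨Ω, _, ν, U, H⟩ := exists_Haar d
  obtain ⟨w, hw, hw0, hw1⟩ := h1 d (by omega) Ω _ ν U H _ x R (1 - η ^ 4) P ⟨0, hd0⟩
  have hp := fun u hu => f8_pt (u := u) S hε0 hε1 hδ hR1 hR' hu
  have mh : Measurable (hV v) := S.cont.measurable
  have hm0 : 0 ≤ mab (hV v) := integral_nonneg fun _ => abs_nonneg _
  have hmm : mab (fun y => max (hV v y) ((1 - η ^ 4) * ‖y‖)) ≤ mab (hV v) := by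
    refine integral_mono_of_nonneg (Filter.Eventually.of_forall fun _ => abs_nonneg _)
      (f8_sint hd0 (by fun_prop) 2 fun u hu => by rw [abs_abs]; exact (hp u hu).2.2.2.2)
      ((sph_unit hd0).mono fun u hu => ?_)
    simp only [hu, mul_one]
    exact (hp u hu).2.2.1
  set b := bsq (xh (hV v) x (1 - η ^ 4)) with hb
  have hb0 : 0 ≤ b := integral_nonneg fun _ => by positivity
  have hb1 : b ≤ CE * d * mab (hV v) :=
    (h3 d (by omega) _ _ R S' (by linarith)).trans (mul_le_mul_of_nonneg_left hmm (by positivity))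
  have hb2 : b ≤ 5 * η ^ 4 := by
    have h6 := integral_mono_of_nonneg (μ := sph d)
      (f := fun u => ‖Nf (xh (hV v) x (1 - η ^ 4)) u‖ ^ 2)
      (Filter.Eventually.of_forall fun _ => by positivity) (integrable_const (5 * η ^ 4))
      ((sph_unit hd0).mono fun u hu => (hp u hu).2.2.2.1)
    rw [integral_const, probReal_univ, one_smul] at h6
    exact h6
  have hQ : QB (xh (hV v) x (1 - η ^ 4))
      (CQ * √(b * (b / (d : ℝ) ^ 12 + (d : ℝ) ^ k * mab (hV v) * √b))) := by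
    intro Ω' _ ν' U' H' w' hw' i0 i l hil
    refine (h2 d (by omega) _ _ R S' Ω' _ ν' U' H' w' hw' i0 i l hil).trans ?_
    rw [← hb]
    gcongr
  obtain ⟨ω, hω⟩ := f8_mean hd0 S hε0 hε1 hδ hR1 hR'
    (a := η ^ 4 / 2 + 2 * d * (η ^ 4 / (d : ℝ) ^ 4) / η ^ 4) (c := CL * (3 * d * η ^ 2))
    (by positivity) (by positivity) (by positivity) H hQ hw hw0 ⟨0, hd0⟩
    ((f8_num hCE hCQ hCL a1 a2 a3 hη0 hη1 hm0 hb0 hb1 hb2).trans hw1)
  have h7 := f8_det S hε0 hε1 (by positivity) hδ hR1 hR' hCL (s := 3 * d * η ^ 2) (by positivity)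
    (by nlinarith [mul_pos hD hε0]) (by
      have h8 : d * η * η ≤ 1 * (1 / 1000) := mul_le_mul hη3 hη4 hη0.le (by norm_num)
      have h9 : 0 ≤ d * η * η := by positivity
      nlinarith) (h4 d) (U ω) hω
  obtain ⟨j, hj⟩ := vertex v (fun i => x (U ω (ee i))) fun i y => S.le _ y
  exact ⟨j, h7.trans hj⟩

end Pool.Agent.Lib.MP_77d991_gt.Ex
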