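import Pool.Agent.Lib.MP_77d991_gt.Ex.Defs

open MeasureTheory ProbabilityTheory Set
open scoped RealInnerProductSpace

namespace Pool.Agent.Lib.MP_77d991_gt.Ex

open Pool.Agent.Lib.MP_77d991_gt.As

theorem g1_q4 (r : ℕ) : (1 / √(√((r : ℝ) + 1))) ^ 4 = 1 / ((r : ℝ) + 1) := by
  have h : (0 : ℝ) ≤ (r : ℝ) + 1 := by positivity
  rw [div_pow, one_pow, show (4 : ℕ) = 2 * 2 from rfl, pow_mul, Real.sq_sqrt (Real.sqrt_nonneg _),
    Real.sq_sqrt h]

theorem g1_ev {ε : ℝ} (hε : 0 < ε) : ∃ r1 : ℕ, ∀ r ≥ r1, 1 / √(√((r : ℝ) + 1)) ≤ ε ∧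
    1 / √(√((r : ℝ) + 1)) * Real.log ((r : ℝ) + 1) ≤ ε := by
  have ht : Filter.Tendsto (fun r : ℕ => √(√((r : ℝ) + 1))) Filter.atTop Filter.atTop :=
    Real.tendsto_sqrt_atTop.comp (Real.tendsto_sqrt_atTop.comp
      (Filter.tendsto_atTop_add_const_right _ _ tendsto_natCast_atTop_atTop))
  have h1 := ht.eventually (Real.isLittleO_log_id_atTop.def (show 0 < ε / 4 by positivity))
  have h2 := ht.eventually (Filter.eventually_ge_atTop (1 / ε))
  obtain ⟨r1, h⟩ := Filter.eventually_atTop.1 (h1.and h2)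
  refine ⟨r1, fun r hr => ?_⟩
  obtain ⟨h3, h4⟩ := h r hr
  have h0 : (0 : ℝ) ≤ (r : ℝ) + 1 := by positivity
  have hw : 0 < √(√((r : ℝ) + 1)) := by positivity
  have e : Real.log ((r : ℝ) + 1) = 4 * Real.log √(√((r : ℝ) + 1)) := by
    rw [Real.log_sqrt (Real.sqrt_nonneg _), Real.log_sqrt h0]
    ring
  rw [e]
  generalize √(√((r : ℝ) + 1)) = w at h3 h4 hw
  rw [id, Real.norm_eq_abs, Real.norm_eq_abs, abs_of_pos hw] at h3
  have h5 := (le_abs_self _).trans h3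
  constructor
  · rw [div_le_iff₀ hw]
    rw [div_le_iff₀ hε] at h4
    linarith
  · rw [one_div, inv_mul_le_iff₀ hw]
    linarith

theorem g1_ll {r : ℕ} (hr : 1 ≤ r) :
    Real.log (Real.log ((r : ℝ) + 1)) ≤ Real.log (Real.log (((r + 1 : ℕ) : ℝ) + 1)) ∧
      Real.log (Real.log (((r + 1 : ℕ) : ℝ) + 1)) - Real.log (Real.log ((r : ℝ) + 1)) ≤
        1 / (((r : ℝ) + 1) * Real.log ((r : ℝ) + 1)) := by
  have h1 : (1 : ℝ) ≤ r := by exact_mod_cast hr
  push_cast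
  generalize hd : (r : ℝ) + 1 = d
  have hd2 : 2 ≤ d := by linarith
  have hl : 0 < Real.log d := Real.log_pos (by linarith)
  have hl' : Real.log d ≤ Real.log (d + 1) := Real.log_le_log (by linarith) (by linarith)
  refine ⟨Real.log_le_log hl hl', ?_⟩
  have h2 : Real.log (d + 1) - Real.log d ≤ 1 / d := by
    rw [← Real.log_div (by linarith) (by linarith)]
    refine (Real.log_le_sub_one_of_pos (by positivity)).trans (le_of_eq ?_)
    field_simp
    ring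
  rw [← Real.log_div (by linarith) hl.ne']
  refine (Real.log_le_sub_one_of_pos (div_pos (by linarith) hl)).trans ?_
  rw [div_sub_one hl.ne', ← div_div]
  exact div_le_div_of_nonneg_right h2 hl.le

theorem g1_inf (M : ℝ) (r : ℕ) : ∃ r' ≥ r, M ≤ Real.log (Real.log ((r' : ℝ) + 1)) := by
  have ht : Filter.Tendsto (fun r : ℕ => Real.log (Real.log ((r : ℝ) + 1))) Filter.atTop
      Filter.atTop := Real.tendsto_log_atTop.comp (Real.tendsto_log_atTop.comp
      (Filter.tendsto_atTop_add_const_right _ _ tendsto_natCast_atTop_atTop))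
  obtain ⟨r', h1, h2⟩ := ((Filter.eventually_ge_atTop r).and
    (ht.eventually (Filter.eventually_ge_atTop M))).exists
  exact ⟨r', h1, h2⟩

/-- First phase: `σ = s`. -/
theorem g1_one (P : ℕ → ℝ → Prop) (hm : ∀ r L L', P r L → L ≤ L' → P r L') (q a l : ℕ → ℝ)
    {r1 : ℕ} {c C s L0 : ℝ} (hc : 0 < c) (hC : 0 < C) (hs : 0 < s)
    (hst : ∀ r ≥ r1, ∀ σ L : ℝ, q r ≤ σ → σ ≤ s → P r L →
      P (r + 1) (max (L - c * σ ^ 5 * a r) (C * (σ + q r) * σ ^ 5)))
    (hq : ∀ r ≥ r1, q r ≤ s) (hl : ∀ r ≥ r1, l r ≤ l (r + 1) ∧ l (r + 1) - l r ≤ a r)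
    (hinf : ∀ M r, ∃ r' ≥ r, M ≤ l r') (h0 : P r1 L0) : ∃ r2 ≥ r1, P r2 (128 * C * s ^ 6) := by
  have hcs : 0 < c * s ^ 5 := by positivity
  have hK : 0 < C * s ^ 6 := by positivity
  have key : ∀ r ≥ r1, P r (max (L0 - c * s ^ 5 * (l r - l r1)) (128 * C * s ^ 6)) := by
    intro r hr
    induction r, hr using Nat.le_induction with
    | base => exact hm _ _ _ h0 (le_max_of_le_left (by simp))
    | succ r hr ih =>
      refine hm _ _ _ (hst r hr s _ (hq r hr) le_rfl ih) (max_le ?_ ?_)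
      · obtain ⟨h1, h2⟩ := hl r hr
        have h3 := mul_le_mul_of_nonneg_left h2 hcs.le
        have h4 : 0 ≤ c * s ^ 5 * a r := mul_nonneg hcs.le (by linarith)
        rw [sub_le_iff_le_add]
        refine max_le ?_ ?_
        · have := le_max_left (L0 - c * s ^ 5 * (l (r + 1) - l r1)) (128 * C * s ^ 6)
          linarith
        · have := le_max_right (L0 - c * s ^ 5 * (l (r + 1) - l r1)) (128 * C * s ^ 6)
          linarith
      · refine le_max_of_le_right ?_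
        have h1 : C * (s + q r) * s ^ 5 ≤ C * (s + s) * s ^ 5 := by
          have := hq r hr
          gcongr
        nlinarith
  obtain ⟨r2, h1, h2⟩ := hinf (l r1 + L0 / (c * s ^ 5)) r1
  refine ⟨r2, h1, hm _ _ _ (key r2 h1) (max_le ?_ le_rfl)⟩
  have h3 : L0 / (c * s ^ 5) ≤ l r2 - l r1 := by linarith
  rw [div_le_iff₀ hcs] at h3
  linarith

theorem g1_tan {t x : ℝ} (ht : 0 < t) (hx : x ≤ t) : t ^ 6 - 6 * t ^ 5 * x ≤ (t - x) ^ 6 := by
  have h := one_add_mul_le_pow (show (-2 : ℝ) ≤ -(x / t) by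
    have : x / t ≤ 1 := (div_le_one ht).2 hx
    linarith) 6
  have h2 := mul_le_mul_of_nonneg_left h (pow_pos ht 6).le
  have e1 : t ^ 6 * (1 + ((6 : ℕ) : ℝ) * -(x / t)) = t ^ 6 - 6 * t ^ 5 * x := by
    push_cast
    field_simp
    ring
  have e2 : t ^ 6 * (1 + -(x / t)) ^ 6 = (t - x) ^ 6 := by
    rw [← mul_pow]
    congr 1
    field_simp
    ring
  rwa [e1, e2] at h2

/-- Second phase: `σ` decreases linearly in `log log d`. -/
theorem g1_two (P : ℕ → ℝ → Prop) (hm : ∀ r L L', P r L → L ≤ L' → P r L') (q a l : ℕ → ℝ)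
    {r2 : ℕ} {c C s : ℝ} (hc : 0 < c) (hC : 0 < C) (hs : 0 < s)
    (hst : ∀ r ≥ r2, ∀ σ L : ℝ, q r ≤ σ → σ ≤ s → P r L →
      P (r + 1) (max (L - c * σ ^ 5 * a r) (C * (σ + q r) * σ ^ 5)))
    (hq : ∀ r ≥ r2, c / (768 * C) * a r ≤ q r / 2)
    (hl : ∀ r ≥ r2, l r ≤ l (r + 1) ∧ l (r + 1) - l r ≤ a r)
    (hinf : ∀ M r, ∃ r' ≥ r, M ≤ l r') (h0 : P r2 (128 * C * s ^ 6)) :
    ∃ r3 ≥ r2, P r3 (128 * C * q r3 ^ 6) := by
  by_contra hno
  push Not at hno
  have hκ : 0 < c / (768 * C) := by positivity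
  have hκ' : 768 * C * (c / (768 * C)) = c := by field_simp
  generalize c / (768 * C) = κ at hq hκ hκ'
  have key : ∀ r ≥ r2, l r2 ≤ l r ∧ 0 < s - κ * (l r - l r2) ∧
      P r (128 * C * (s - κ * (l r - l r2)) ^ 6) := by
    intro r hr
    induction r, hr using Nat.le_induction with
    | base => simpa [hs] using h0
    | succ r hr ih =>
      obtain ⟨i1, i2, i3⟩ := ih
      obtain ⟨h1, h2⟩ := hl r hr
      have hts : s - κ * (l r - l r2) ≤ s := by
        have := mul_nonneg hκ.le (sub_nonneg.2 i1)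
        linarith
      have e : s - κ * (l (r + 1) - l r2) = (s - κ * (l r - l r2)) - κ * (l (r + 1) - l r) := by
        ring
      rw [e]
      generalize s - κ * (l r - l r2) = t at i2 i3 hts
      have hqt : q r ≤ t := by
        by_contra hlt
        refine hno r hr (hm _ _ _ i3 ?_)
        have := (not_le.1 hlt).le
        gcongr
      have h3 : κ * (l (r + 1) - l r) ≤ κ * a r := mul_le_mul_of_nonneg_left h2 hκ.le
      have h4 := hq r hr
      generalize κ * (l (r + 1) - l r) = x at h3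
      have h5 : x ≤ t / 2 := by linarith
      refine ⟨i1.trans h1, by linarith, hm _ _ _ (hst r hr t _ hqt hts i3) (max_le ?_ ?_)⟩
      · have h6 := mul_le_mul_of_nonneg_left (g1_tan i2 (show x ≤ t by linarith))
          (show 0 ≤ 128 * C by positivity)
        have h7 := mul_le_mul_of_nonneg_left h3 (show 0 ≤ 768 * C * t ^ 5 by positivity)
        have h8 : 768 * C * t ^ 5 * (κ * a r) = c * t ^ 5 * a r := by
          rw [← hκ']
          ring
        nlinarith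
      · have h6 : (t / 2) ^ 6 ≤ (t - x) ^ 6 := pow_le_pow_left₀ (by positivity) (by linarith) 6
        have h7 : C * (t + q r) * t ^ 5 ≤ C * (t + t) * t ^ 5 := by gcongr
        have h8 := mul_le_mul_of_nonneg_left h6 (show 0 ≤ 128 * C by positivity)
        nlinarith
  obtain ⟨r, h1, h2⟩ := hinf (l r2 + s / κ) r2
  have h3 : s / κ ≤ l r - l r2 := by linarith
  rw [div_le_iff₀ hκ] at h3
  have := (key r h1).2.1
  linarith

/-- Third phase: `σ = B / d ^ k`. -/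
theorem g1_three (P : ℕ → ℝ → Prop) (hm : ∀ r L L', P r L → L ≤ L' → P r L') (q a : ℕ → ℝ)
    {r3 k : ℕ} (hk : 0 < k) {c C s : ℝ} (hC : 0 < C)
    (hst : ∀ r ≥ r3, ∀ σ L : ℝ, 1 / ((r : ℝ) + 1) ^ k ≤ σ → σ ≤ s → P r L →
      P (r + 1) (max (L - c * σ ^ 5 * a r) (C * (σ + q r) * σ ^ 5)))
    (hq0 : ∀ r, 0 < q r) (hq4 : ∀ r, q r ^ 4 = 1 / ((r : ℝ) + 1)) (hq : ∀ r ≥ r3, q r ≤ s)
    (ha : ∀ r ≥ r3, 128 * C * (5 * k + 1) * q r / ((r : ℝ) + 1) ≤ c * a r)
    (hr3 : 2 * (5 * k + 1) ≤ r3) (hlo : ∀ r : ℕ, 1 / ((r : ℝ) + 1) ^ k ≤ q r)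
    (h0 : P r3 (128 * C * q r3 ^ 6)) :
    ∃ B : ℝ, 0 < B ∧ ∀ r ≥ r3, P r (128 * C * q r * (B / ((r : ℝ) + 1) ^ k) ^ 5) := by
  have hB : 1 ≤ q r3 * ((r3 : ℝ) + 1) ^ k := by
    have := hlo r3
    rwa [div_le_iff₀ (by positivity)] at this
  have hB0 : q r3 * ((r3 : ℝ) + 1) ^ k / ((r3 : ℝ) + 1) ^ k = q r3 := by field_simp
  generalize q r3 * ((r3 : ℝ) + 1) ^ k = B at hB hB0
  refine ⟨B, by linarith, fun r hr => ?_⟩
  suffices h : B / ((r : ℝ) + 1) ^ k ≤ q r ∧ P r (128 * C * q r * (B / ((r : ℝ) + 1) ^ k) ^ 5) from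
    h.2
  induction r, hr using Nat.le_induction with
  | base =>
    rw [hB0]
    exact ⟨le_rfl, hm _ _ _ h0 (le_of_eq (by ring))⟩
  | succ r hr ih =>
    obtain ⟨i1, i2⟩ := ih
    have hd : (0 : ℝ) < (r : ℝ) + 1 := by positivity
    have hN : 2 * (5 * (k : ℝ) + 1) ≤ (r : ℝ) + 1 := by
      have : ((2 * (5 * k + 1) : ℕ) : ℝ) ≤ r := by exact_mod_cast hr3.trans hr
      push_cast at this
      linarith
    have hlo' : 1 / ((r : ℝ) + 1) ^ k ≤ B / ((r : ℝ) + 1) ^ k := by gcongr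
    have h1 := hst r hr _ _ hlo' (i1.trans (hq r hr)) i2
    have h2 := ha r hr
    have h3 := hq4 r
    have h4 := hq4 (r + 1)
    have h5 := hq0 r
    have h6 := hq0 (r + 1)
    push_cast at h4 ⊢
    generalize (r : ℝ) + 1 = d at hd hN i1 h1 h2 h3 h4 hlo' ⊢
    have hρ0 : 0 < d / (d + 1) := by positivity
    have hρ1 : d / (d + 1) ≤ 1 := (div_le_one (by positivity)).2 (by linarith)
    have hρ : 1 - 1 / d ≤ d / (d + 1) := by
      rw [one_sub_div hd.ne', div_le_div_iff₀ hd (by positivity)]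
      nlinarith
    have hqq : q r * (d / (d + 1)) ≤ q (r + 1) := by
      refine le_of_pow_le_pow_left₀ (n := 4) (by norm_num) h6.le ?_
      rw [mul_pow, h3, h4]
      have e : 1 / d * (d / (d + 1)) ^ 4 = 1 / (d + 1) * (d / (d + 1)) ^ 3 := by field_simp
      rw [e]
      exact mul_le_of_le_one_right (by positivity) (pow_le_one₀ hρ0.le hρ1)
    have e : B / (d + 1) ^ k = B / d ^ k * (d / (d + 1)) ^ k := by
      rw [div_pow]
      field_simp
    have hσ : 0 < B / d ^ k := by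
      have : 0 < B := by linarith
      positivity
    rw [e]
    generalize B / d ^ k = σ at i1 h1 hσ
    have hb : 1 - (5 * k + 1) / d ≤ (d / (d + 1)) ^ (5 * k + 1) := by
      have h7 : 1 / d ≤ 1 := by
        rw [div_le_one hd]
        have : (0 : ℝ) ≤ k := Nat.cast_nonneg k
        linarith
      have h8 := one_add_mul_le_pow (show (-2 : ℝ) ≤ -(1 / d) by linarith) (5 * k + 1)
      have h9 : (1 + -(1 / d)) ^ (5 * k + 1) ≤ (d / (d + 1)) ^ (5 * k + 1) :=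
        pow_le_pow_left₀ (by linarith) (by linarith) _
      refine le_trans (le_of_eq ?_) (h8.trans h9)
      push_cast
      ring
    generalize d / (d + 1) = ρ at hρ0 hρ1 hqq hb
    have hnew : 128 * C * q r * σ ^ 5 * (1 - (5 * k + 1) / d) ≤
        128 * C * q (r + 1) * (σ * ρ ^ k) ^ 5 :=
      calc _ ≤ 128 * C * q r * σ ^ 5 * ρ ^ (5 * k + 1) := by gcongr
        _ = 128 * C * (q r * ρ) * (σ * ρ ^ k) ^ 5 := by ring
        _ ≤ _ := by gcongr
    refine ⟨?_, hm _ _ _ h1 (max_le (le_trans ?_ hnew) (le_trans ?_ hnew))⟩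
    · refine le_trans ?_ hqq
      exact mul_le_mul i1 (pow_le_of_le_one hρ0.le hρ1 hk.ne') (by positivity) h5.le
    · have h7 := mul_le_mul_of_nonneg_left h2 (pow_pos hσ 5).le
      have e2 : 128 * C * q r * σ ^ 5 * (1 - (5 * k + 1) / d) =
          128 * C * q r * σ ^ 5 - σ ^ 5 * (128 * C * (5 * k + 1) * q r / d) := by ring
      rw [e2]
      linarith
    · have h7 : (5 * k + 1) / d ≤ 1 / 2 := by
        rw [div_le_iff₀ hd]
        linarith
      have h8 : C * (σ + q r) * σ ^ 5 ≤ C * (q r + q r) * σ ^ 5 := by gcongr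
      have h9 : 0 < C * q r * σ ^ 5 := by positivity
      nlinarith

/-- Real analysis. With `σ` fixed the loss decreases by `cσ⁵/(d log d)` per step until it is below
`C(σ + d^(-1/4))σ⁵`. Blocks `[D, D²]` (sum of `1/(d log d)` at least `1/2`) divide `σ` by four, until
`σ log D` is small; then blocks `[D, 2D]` divide `σ` by `2^k`. -/
theorem recur (P : ℕ → ℝ → Prop) (hm : ∀ r L L', P r L → L ≤ L' → P r L')
    (hb : ∀ r, 0 < r → ∃ L, P r L) {k r0 : ℕ} (hk : 0 < k) {c C s : ℝ} (hc : 0 < c) (hC : 0 < C)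
    (hs : 0 < s)
    (hst : ∀ r ≥ r0, ∀ σ L : ℝ, 1 / ((r : ℝ) + 1) ^ k ≤ σ → σ ≤ s → P r L →
      P (r + 1) (max (L - c * σ ^ 5 / (((r : ℝ) + 1) * Real.log ((r : ℝ) + 1)))
        (C * (σ + 1 / √(√((r : ℝ) + 1))) * σ ^ 5))) :
    ∃ r1 : ℕ, ∀ r ≥ r1, P r (1 / ((r : ℝ) + 1) ^ k) := by
  obtain ⟨q, hqd⟩ : ∃ q : ℕ → ℝ, ∀ r, q r = 1 / √(√((r : ℝ) + 1)) := ⟨_, fun _ => rfl⟩
  obtain ⟨a, had⟩ : ∃ a : ℕ → ℝ, ∀ r, a r = 1 / (((r : ℝ) + 1) * Real.log ((r : ℝ) + 1)) :=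
    ⟨_, fun _ => rfl⟩
  have hq0 : ∀ r, 0 < q r := fun r => by
    rw [hqd]
    positivity
  have hq4 : ∀ r, q r ^ 4 = 1 / ((r : ℝ) + 1) := fun r => by rw [hqd, g1_q4]
  have hd1 : ∀ r : ℕ, (1 : ℝ) ≤ (r : ℝ) + 1 := fun r => le_add_of_nonneg_left (Nat.cast_nonneg r)
  have hq1 : ∀ r, q r ≤ 1 := fun r => by
    refine le_of_pow_le_pow_left₀ (n := 4) (by norm_num) zero_le_one ?_
    rw [hq4, one_pow, div_le_one (by positivity)]
    exact hd1 r
  have hlo : ∀ r : ℕ, 1 / ((r : ℝ) + 1) ^ k ≤ q r := fun r => by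
    refine le_trans ?_ (pow_le_of_le_one (hq0 r).le (hq1 r) (show 4 ≠ 0 by norm_num))
    rw [hq4]
    exact one_div_le_one_div_of_le (by positivity) (le_self_pow₀ (hd1 r) hk.ne')
  have hst' : ∀ r ≥ r0, ∀ σ L : ℝ, 1 / ((r : ℝ) + 1) ^ k ≤ σ → σ ≤ s → P r L →
      P (r + 1) (max (L - c * σ ^ 5 * a r) (C * (σ + q r) * σ ^ 5)) := fun r hr σ L h1 h2 h3 => by
    rw [had, hqd, mul_one_div]
    exact hst r hr σ L h1 h2 h3
  obtain ⟨n1, hn1⟩ := g1_ev hs
  obtain ⟨n2, hn2⟩ := g1_ev (show 0 < 192 * C / c by positivity)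
  obtain ⟨n3, hn3⟩ := g1_ev (show 0 < c / (128 * C * (5 * k + 1)) by positivity)
  obtain ⟨r1, a0, a1, a2, a3, a4⟩ : ∃ r1 : ℕ, r0 ≤ r1 ∧ n1 ≤ r1 ∧ n2 ≤ r1 ∧ n3 ≤ r1 ∧
      2 * (5 * k + 1) ≤ r1 := ⟨r0 + n1 + n2 + n3 + 2 * (5 * k + 1), by omega, by omega, by omega,
        by omega, by omega⟩
  have hlog : ∀ r ≥ r1, 1 / 2 ≤ Real.log ((r : ℝ) + 1) := fun r hr => by
    have h1 : (1 : ℝ) ≤ r := by exact_mod_cast (by omega : 1 ≤ r)
    have h2 : Real.log 2 ≤ Real.log ((r : ℝ) + 1) := Real.log_le_log (by norm_num) (by linarith)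
    have := Real.log_two_gt_d9
    linarith
  have hqs : ∀ r ≥ r1, q r ≤ s := fun r hr => by
    rw [hqd]
    exact (hn1 r (a1.trans hr)).1
  have hl : ∀ r ≥ r1, Real.log (Real.log ((r : ℝ) + 1)) ≤
      Real.log (Real.log (((r + 1 : ℕ) : ℝ) + 1)) ∧
      Real.log (Real.log (((r + 1 : ℕ) : ℝ) + 1)) - Real.log (Real.log ((r : ℝ) + 1)) ≤ a r :=
    fun r hr => by
      rw [had]
      exact g1_ll (by omega)
  obtain ⟨L0, h0⟩ := hb r1 (by omega)
  obtain ⟨r2, b2, h2⟩ := g1_one P hm q a (fun r => Real.log (Real.log ((r : ℝ) + 1))) hc hC hs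
    (fun r hr σ L h => hst' r (a0.trans hr) σ L ((hlo r).trans h)) hqs hl g1_inf h0
  obtain ⟨r3, b3, h3⟩ := g1_two P hm q a (fun r => Real.log (Real.log ((r : ℝ) + 1))) hc hC hs
    (fun r hr σ L h => hst' r (a0.trans (b2.trans hr)) σ L ((hlo r).trans h))
    (fun r hr => by
      have h4 := hlog r (b2.trans hr)
      have h5 : q r ≤ 192 * C / c := by
        rw [hqd]
        exact (hn2 r (a2.trans (b2.trans hr))).1
      have h6 : a r ≤ 2 * q r ^ 4 := by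
        rw [had, hq4, ← div_div, div_le_iff₀ (by linarith)]
        have : 0 < 1 / ((r : ℝ) + 1) := by positivity
        nlinarith
      have h7 : q r ^ 4 ≤ q r ^ 2 := pow_le_pow_of_le_one (hq0 r).le (hq1 r) (by norm_num)
      have h8 := hq0 r
      calc c / (768 * C) * a r ≤ c / (768 * C) * (2 * (q r * q r)) := by
            gcongr
            nlinarith
        _ ≤ c / (768 * C) * (2 * (q r * (192 * C / c))) := by gcongr
        _ = q r / 2 := by
            field_simp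
            ring)
    (fun r hr => hl r (b2.trans hr)) g1_inf h2
  have b13 : r1 ≤ r3 := b2.trans b3
  obtain ⟨B, hB, h4⟩ := g1_three P hm q a hk hC
    (fun r hr => hst' r (a0.trans (b13.trans hr))) hq0 hq4 (fun r hr => hqs r (b13.trans hr))
    (fun r hr => by
      have h4 := hlog r (b13.trans hr)
      have h5 : q r * Real.log ((r : ℝ) + 1) ≤ c / (128 * C * (5 * k + 1)) := by
        rw [hqd]
        exact (hn3 r (a3.trans (b13.trans hr))).2
      rw [le_div_iff₀ (by positivity)] at h5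
      rw [had, mul_one_div, mul_comm ((r : ℝ) + 1), ← div_div]
      refine div_le_div_of_nonneg_right ?_ (by positivity)
      rw [le_div_iff₀ (by linarith)]
      linarith)
    (a4.trans b13) hlo h3
  obtain ⟨n4, hn4⟩ := exists_nat_ge (128 * C * B ^ 5)
  refine ⟨r3 + n4, fun r hr => hm _ _ _ (h4 r (by omega)) ?_⟩
  have h5 : (n4 : ℝ) ≤ r := by exact_mod_cast (by omega : n4 ≤ r)
  have h6 : (r : ℝ) + 1 ≤ (((r : ℝ) + 1) ^ k) ^ 4 := by
    rw [← pow_mul]
    exact le_self_pow₀ (hd1 r) (by omega)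
  have h7 : (0 : ℝ) < ((r : ℝ) + 1) ^ k := by positivity
  have h8 := hq1 r
  have h9 := hq0 r
  generalize ((r : ℝ) + 1) ^ k = D at h6 h7
  calc 128 * C * q r * (B / D) ^ 5 ≤ 128 * C * 1 * (B / D) ^ 5 := by gcongr
    _ = 128 * C * B ^ 5 / D ^ 4 * (1 / D) := by field_simp
    _ ≤ 1 * (1 / D) := by
        gcongr
        rw [div_le_one (by positivity)]
        linarith
    _ = 1 / D := one_mul _

end Pool.Agent.Lib.MP_77d991_gt.Ex
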