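import Pool.Agent.Lib.MP_77d991_gt.Ex.E1
import Pool.Agent.Lib.MP_77d991_gt.Ex.E5
import Pool.Agent.Lib.MP_77d991_gt.Ex.F5
import Pool.Agent.Lib.MP_77d991_gt.Ex.F6
import Pool.Agent.Lib.MP_77d991_gt.Ex.F8
import Pool.Agent.Lib.MP_77d991_gt.Ex.G1

open MeasureTheory ProbabilityTheory Set
open scoped RealInnerProductSpace

namespace Pool.Agent.Lib.MP_77d991_gt.Ex

open Pool.Agent.Lib.MP_77d991_gt.As

theorem g2_three {g : ℝ} (hg : g ≤ 1 / 25) : Real.exp (g + 21 / 20) ≤ 3 := by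
  have h1 : Real.exp (g + 21 / 20) ≤ Real.exp 1 * Real.exp (9 / 100) := by
    rw [← Real.exp_add]
    exact Real.exp_le_exp.2 (by linarith)
  have h2 := Real.add_one_le_exp (-(9 / 100))
  have h3 : Real.exp (9 / 100) * Real.exp (-(9 / 100)) = 1 := by
    rw [← Real.exp_add, add_neg_cancel, Real.exp_zero]
  have h4 := Real.exp_pos (9 / 100)
  have h5 : Real.exp (9 / 100) ≤ 11 / 10 := by nlinarith
  have h6 := Real.exp_one_lt_d9
  nlinarith [Real.exp_pos 1]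

theorem g2_log {r : ℕ} (hr : 2 ≤ r) : 1 ≤ Real.log ((r : ℝ) + 1) := by
  have h : (2 : ℝ) ≤ r := by exact_mod_cast hr
  rw [Real.le_log_iff_exp_le (by linarith)]
  linarith [Real.exp_one_lt_d9]

/-- Either there is a gain, or the body is close to the ball. -/
theorem g2_cases (K : ℕ) : ∃ (c A s : ℝ) (r0 : ℕ), 0 < c ∧ 1 ≤ A ∧ 0 < s ∧ s ≤ 1 ∧ 2 ≤ r0 ∧
    ∀ r ≥ r0, ∀ σ L : ℝ, 0 < σ → σ ≤ s → 1 / ((r : ℝ) + 1) ^ K ≤ σ ^ 5 → Good r L →
      ∀ (m : ℕ) (v : Fin (m + 1) → Eu (r + 1)) (x : Eu (r + 1) → Eu (r + 1)) (R : ℝ),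
        Pos (hV v) x R → (∃ i, ‖v i‖ = R) →
        (∃ j : Fin (r + 1) → Fin (m + 1),
          Real.exp (-L + c * σ ^ 5 / (((r : ℝ) + 1) * Real.log ((r : ℝ) + 1))) ≤ |dt (v ∘ j)|) ∨
        (((r : ℝ) + 1) * bsq x ≤ σ ^ 5 ∧ R - 1 ≤ A * σ ^ 2) := by
  obtain ⟨r1, h1⟩ := univ
  obtain ⟨c, r2, hc, h2⟩ := s_step K
  obtain ⟨C, s, r3, hC, hs, h3⟩ := thick
  refine ⟨min c (1 / 25), 2 * (C + 1), min s (1 / (C + 1)), max (max r1 r2) (max r3 2),
    lt_min hc (by norm_num), by linarith, lt_min hs (by positivity),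
    (min_le_right _ _).trans ((div_le_one (by linarith)).2 (by linarith)), by omega,
    fun r hr σ L h0 hσ hK hG m v x R P hR => ?_⟩
  have hl := g2_log (r := r) (by omega)
  have hd : (1 : ℝ) ≤ (r : ℝ) + 1 := by linarith [Nat.cast_nonneg (α := ℝ) r]
  have hD : 1 ≤ ((r : ℝ) + 1) * Real.log ((r : ℝ) + 1) := one_le_mul_of_one_le_of_one_le hd hl
  have hσ2 : σ * (C + 1) ≤ 1 := (le_div_iff₀ (by linarith)).1 (hσ.trans (min_le_right _ _))
  have hσ1 : σ ≤ 1 := by nlinarith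
  have h5 : σ ^ 5 ≤ σ ^ 2 := pow_le_pow_of_le_one h0.le hσ1 (by norm_num)
  have h2' : σ ^ 2 ≤ 1 := pow_le_one₀ h0.le hσ1
  have p5 : 0 < σ ^ 5 := pow_pos h0 5
  have g1 : min c (1 / 25) * σ ^ 5 / (((r : ℝ) + 1) * Real.log ((r : ℝ) + 1)) ≤
      c * σ ^ 5 / (((r : ℝ) + 1) * Real.log ((r : ℝ) + 1)) :=
    div_le_div_of_nonneg_right (mul_le_mul_of_nonneg_right (min_le_left _ _) p5.le) (by linarith)
  have g2 : min c (1 / 25) * σ ^ 5 / (((r : ℝ) + 1) * Real.log ((r : ℝ) + 1)) ≤ 1 / 25 * σ ^ 2 :=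
    (div_le_self (mul_nonneg (le_min hc.le (by norm_num)) p5.le) hD).trans
      (mul_le_mul (min_le_right _ _) h5 p5.le (by norm_num))
  generalize min c (1 / 25) * σ ^ 5 / (((r : ℝ) + 1) * Real.log ((r : ℝ) + 1)) = g at g1 g2 ⊢
  rcases le_total 3 R with hR3 | hR3
  · obtain ⟨j, hj⟩ := h1 r (by omega) L hG m v x R P hR
    refine Or.inl ⟨j, le_trans ?_ hj⟩
    rw [show -L + g = -L - 21 / 20 + (g + 21 / 20) by ring, Real.exp_add]
    exact mul_le_mul_of_nonneg_left ((g2_three (by linarith)).trans hR3) (Real.exp_pos _).le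
  rcases le_total (σ ^ 5) (((r : ℝ) + 1) * bsq x) with hb | hb
  · obtain ⟨j, hj⟩ := h2 r (by omega) L hG m v x R (σ ^ 5) P hR3 hK (h5.trans h2') hb
    exact Or.inl ⟨j, le_trans (Real.exp_le_exp.2 (by linarith)) hj⟩
  rcases le_total (Real.exp (C * σ ^ 2 + g)) R with hR' | hR'
  · obtain ⟨j, hj⟩ := h3 r (by omega) L hG m v x R σ P hR h0 (hσ.trans (min_le_left _ _)) hb
    refine Or.inl ⟨j, le_trans ?_ hj⟩
    rw [show -L + g = -L - C * σ ^ 2 + (C * σ ^ 2 + g) by ring, Real.exp_add]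
    exact mul_le_mul_of_nonneg_left hR' (Real.exp_pos _).le
  · refine Or.inr ⟨hb, ?_⟩
    have p2 : 0 ≤ (C + 1) * σ ^ 2 := by positivity
    have e1 : (C + 1) * σ ^ 2 ≤ 1 := by nlinarith
    have e2 := Real.abs_exp_sub_one_le (x := (C + 1) * σ ^ 2) (by rwa [abs_of_nonneg p2])
    rw [abs_of_nonneg p2] at e2
    have e3 : Real.exp (C * σ ^ 2 + g) ≤ Real.exp ((C + 1) * σ ^ 2) :=
      Real.exp_le_exp.2 (by nlinarith [sq_nonneg σ])
    linarith [le_abs_self (Real.exp ((C + 1) * σ ^ 2) - 1)]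

/-- `red`; cases `R ≥ 3` (`univ`), `d b² ≥ σ⁵` (`s_step (5k)` with `y = σ⁵`), `log R ≥ Cσ² + g` (`thick`), else
`oneshot` with a multiple of `σ`. -/
theorem tri (k : ℕ) : ∃ (c C s : ℝ) (r0 : ℕ), 0 < c ∧ 0 < C ∧ 0 < s ∧ ∀ r ≥ r0, ∀ σ L : ℝ,
    1 / ((r : ℝ) + 1) ^ k ≤ σ → σ ≤ s → Good r L →
      Good (r + 1) (max (L - c * σ ^ 5 / (((r : ℝ) + 1) * Real.log ((r : ℝ) + 1)))
        (C * (σ + 1 / √(√((r : ℝ) + 1))) * σ ^ 5)) := by
  obtain ⟨c, A, s, r0, hc, hA, hs, hs1, hr0, h1⟩ := g2_cases (k * 5)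
  obtain ⟨C, s', d0, hC, hs', h2⟩ := oneshot
  refine ⟨c, C * A, min s (s' / A), max r0 d0, hc, by positivity, lt_min hs (by positivity),
    fun r hr σ L hk hσ hG => red r.succ_pos fun m v x R P hR => ?_⟩
  have h0 : 0 < σ := lt_of_lt_of_le (by positivity) hk
  have hK : 1 / ((r : ℝ) + 1) ^ (k * 5) ≤ σ ^ 5 := by
    rw [pow_mul, ← one_div_pow]
    exact pow_le_pow_left₀ (by positivity) hk 5
  have hσs := hσ.trans (min_le_left _ _)
  rcases h1 r (by omega) σ L h0 hσs hK hG m v x R P hR with ⟨j, hj⟩ | ⟨hb, hR1⟩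
  · refine ⟨j, le_trans (Real.exp_le_exp.2 ?_) hj⟩
    linarith [le_max_left (L - c * σ ^ 5 / (((r : ℝ) + 1) * Real.log ((r : ℝ) + 1)))
      (C * A * (σ + 1 / √(√((r : ℝ) + 1))) * σ ^ 5)]
  · have h5 : σ ^ 5 ≤ σ ^ 2 := pow_le_pow_of_le_one h0.le (hσs.trans hs1) (by norm_num)
    have hA2 : A * σ ^ 2 ≤ (A * σ) ^ 2 := by
      rw [mul_pow]
      exact mul_le_mul_of_nonneg_right (by nlinarith) (sq_nonneg σ)
    have hA1 : σ ^ 2 ≤ A * σ ^ 2 := le_mul_of_one_le_left (sq_nonneg σ) hA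
    obtain ⟨j, hj⟩ := h2 (r + 1) (by omega) m v x R (A * σ) P (by positivity)
      (by rw [mul_comm]; exact (le_div_iff₀ (by linarith)).1 (hσ.trans (min_le_right _ _)))
      (by push_cast; linarith) (by linarith)
    push_cast at hj
    refine ⟨j, le_trans (Real.exp_le_exp.2 (neg_le_neg (le_trans ?_ (le_max_right _ _)))) hj⟩
    have he : 0 ≤ 1 / √(√((r : ℝ) + 1)) := by positivity
    generalize 1 / √(√((r : ℝ) + 1)) = e at he
    refine (mul_le_mul_of_nonneg_left hb (by positivity)).trans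
      (mul_le_mul_of_nonneg_right ?_ (pow_pos h0 5).le)
    rw [mul_assoc]
    exact mul_le_mul_of_nonneg_left (by nlinarith) hC.le

/-- `K` from `tiny`, `σ = d^(-K)`, `k = 5K + 3`: cases `R ≥ 3`, `d b² ≥ σ⁵` (`s_step`), `thick`, `tiny`. -/
theorem last : ∃ k r0 : ℕ, 0 < k ∧ ∀ r ≥ r0, Good r (1 / ((r : ℝ) + 1) ^ k) → Good (r + 1) 0 := by
  obtain ⟨K, d0, h2⟩ := tiny
  obtain ⟨c, A, s, r0, hc, hA, hs, -, hr0, h1⟩ := g2_cases ((K + 1) * 5)
  obtain ⟨n, hn⟩ := exists_nat_ge (max A (max (1 / s) (1 / c)))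
  refine ⟨(K + 1) * 5 + 3, max (max r0 d0) n, by omega,
    fun r hr hG => red r.succ_pos fun m v x R P hR => ?_⟩
  have hrn : (n : ℝ) ≤ r := by exact_mod_cast (by omega : n ≤ r)
  have hl := g2_log (r := r) (by omega)
  have hl2 : Real.log ((r : ℝ) + 1) ≤ (r : ℝ) + 1 := Real.log_le_self (by positivity)
  have hd : (1 : ℝ) ≤ (r : ℝ) + 1 := by linarith [Nat.cast_nonneg (α := ℝ) r]
  have dA : A ≤ (r : ℝ) + 1 := by linarith [le_max_left A (max (1 / s) (1 / c))]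
  have ds : 1 / s ≤ (r : ℝ) + 1 := by
    linarith [le_max_right A (max (1 / s) (1 / c)), le_max_left (1 / s) (1 / c)]
  have dc : 1 / c ≤ (r : ℝ) + 1 := by
    linarith [le_max_right A (max (1 / s) (1 / c)), le_max_right (1 / s) (1 / c)]
  have hσs : 1 / ((r : ℝ) + 1) ^ (K + 1) ≤ s :=
    (one_div_le (by positivity) hs).2 (ds.trans (le_self_pow₀ hd (by omega)))
  rw [neg_zero, Real.exp_zero]
  rcases h1 r (by omega) (1 / ((r : ℝ) + 1) ^ (K + 1)) _ (by positivity) hσs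
    (by rw [pow_mul, one_div_pow]) hG m v x R P hR with ⟨j, hj⟩ | ⟨-, hR1⟩
  · refine ⟨j, le_trans (Real.one_le_exp ?_) hj⟩
    generalize (r : ℝ) + 1 = D at *
    have hD : 0 < D := by linarith
    rw [one_div_pow, ← pow_mul, le_neg_add_iff_add_le, add_zero, pow_add,
      div_le_div_iff₀ (by positivity) (by positivity)]
    have e : c * (1 / D ^ ((K + 1) * 5)) * (D ^ ((K + 1) * 5) * D ^ 3) = D * (D * (D * c)) := by
      field_simp
    rw [e, one_mul]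
    have h3 : 1 ≤ D * c := (div_le_iff₀ hc).1 dc
    exact mul_le_mul_of_nonneg_left (hl2.trans (le_mul_of_one_le_right hD.le h3)) hD.le
  · refine h2 (r + 1) (by omega) m v x R P (hR1.trans ?_)
    push_cast
    generalize (r : ℝ) + 1 = D at *
    have hD : 0 < D := by linarith
    rw [one_div_pow, ← pow_mul, mul_one_div, div_le_div_iff₀ (by positivity) (by positivity), one_mul]
    calc A * D ^ K ≤ D * D ^ K := mul_le_mul_of_nonneg_right dA (by positivity)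
      _ = D ^ (K + 1) := by ring
      _ ≤ D ^ ((K + 1) * 2) := pow_le_pow_right₀ hd (by omega)

theorem good_zero : ∃ d0 : ℕ, ∀ d ≥ d0, Good d 0 := by
  obtain ⟨k, r0, hk, h1⟩ := last
  obtain ⟨c, C, s, r1, hc, hC, hs, h2⟩ := tri k
  obtain ⟨r2, h3⟩ := recur Good (fun _ _ _ h hL => h.mono hL) (fun _ hr => base hr) hk hc hC hs h2
  refine ⟨max r0 r2 + 1, fun d hd => ?_⟩
  obtain ⟨r, rfl⟩ : ∃ r, d = r + 1 := ⟨d - 1, by omega⟩
  exact h1 r (by omega) (h3 r (by omega))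

end Pool.Agent.Lib.MP_77d991_gt.Ex
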