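import Pool.Agent.Lib.MP_77d991_gt.Ex.G2
import Pool.Agent.Lib.MP_77d991_gt.Ex.B5

open MeasureTheory ProbabilityTheory Set Filter Topology
open scoped RealInnerProductSpace Pointwise

/-! The lower bound for a general body, with the case of equality. -/

namespace Pool.Agent.Lib.MP_77d991_gt.Ex

open Pool.Agent.Lib.MP_77d991_gt.As

variable {d : ℕ}

/-- `h` is a norm, compared with the Euclidean norm. -/
structure Nrm (h : Eu d → ℝ) (c R : ℝ) : Prop where
  pos : 0 < c
  add : ∀ y w, h (y + w) ≤ h y + h w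
  smul : ∀ (t : ℝ) (y : Eu d), h (t • y) = |t| * h y
  low : ∀ y, c * ‖y‖ ≤ h y
  up : ∀ y, h y ≤ R * ‖y‖

namespace Nrm
variable {h : Eu d → ℝ} {c R : ℝ}

lemma nonneg (S : Nrm h c R) (y : Eu d) : 0 ≤ h y :=
  (mul_nonneg S.pos.le (norm_nonneg y)).trans (S.low y)

lemma cont (S : Nrm h c R) : Continuous h := by
  refine (LipschitzWith.of_le_add_mul' R fun y w => ?_).continuous
  have h1 := S.add (y - w) w
  have h2 := S.up (y - w)
  rw [sub_add_cancel] at h1
  rw [dist_eq_norm]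
  linarith

lemma up' (S : Nrm h c R) (y : Eu d) : h y ≤ |R| * ‖y‖ :=
  (S.up y).trans (mul_le_mul_of_nonneg_right (le_abs_self R) (norm_nonneg y))

lemma le_lin (S : Nrm h c R) (T : Eu d →L[ℝ] Eu d) (y : Eu d) :
    h (T y) ≤ |R| * ‖T‖ * ‖y‖ ^ 1 := by
  have h1 := S.up' (T y)
  have h2 := mul_le_mul_of_nonneg_left (T.le_opNorm y) (abs_nonneg R)
  rw [pow_one]
  linarith

lemma int_lin (S : Nrm h c R) (T : Eu d →L[ℝ] Eu d) :
    Integrable (fun y => h (T y)) (stdGaussian (Eu d)) := by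
  refine Integrable.mono' ((integrable_norm_pow 1).const_mul (|R| * ‖T‖))
    (S.cont.comp T.continuous).aestronglyMeasurable (Eventually.of_forall fun y => ?_)
  rw [Real.norm_of_nonneg (S.nonneg _)]
  exact S.le_lin T y

lemma l_cont (S : Nrm h c R) :
    Continuous fun T : Eu d →L[ℝ] Eu d => ∫ y, h (T y) ∂stdGaussian (Eu d) := by
  refine (LipschitzWith.of_le_add_mul' (|R| * ∫ y, ‖y‖ ^ 1 ∂stdGaussian (Eu d))
    fun T T' => ?_).continuous
  have h1 : ∫ y, h (T y) ∂stdGaussian (Eu d) ≤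
      ∫ y, (h (T' y) + |R| * ‖T - T'‖ * ‖y‖ ^ 1) ∂stdGaussian (Eu d) := by
    refine integral_mono (S.int_lin T) ((S.int_lin T').add
      ((integrable_norm_pow 1).const_mul _)) fun y => ?_
    have h2 := S.add (T' y) ((T - T') y)
    have h3 := S.le_lin (T - T') y
    have h4 : T' y + (T - T') y = T y := by simp
    rw [h4] at h2
    simp only
    linarith
  rw [integral_add (S.int_lin T') ((integrable_norm_pow 1).const_mul _), integral_const_mul] at h1
  rw [dist_eq_norm]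
  linarith

lemma l_pos (S : Nrm h c R) {T : Eu d →L[ℝ] Eu d} (hT : T ≠ 0) :
    0 < ∫ y, h (T y) ∂stdGaussian (Eu d) := by
  refine lt_of_le_of_ne (integral_nonneg fun y => S.nonneg _) fun h0 => hT ?_
  have h1 := (integral_eq_zero_iff_of_nonneg (fun y => S.nonneg (T y)) (S.int_lin T)).1 h0.symm
  have h2 : (fun y => ‖T y‖ ^ 2) =ᵐ[stdGaussian (Eu d)] fun _ => (0 : ℝ) := by
    filter_upwards [h1] with y hy
    have h3 := S.low (T y)
    simp only [Pi.zero_apply] at hy
    rw [hy] at h3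
    have h4 : ‖T y‖ = 0 := le_antisymm (by
      by_contra hlt
      have := mul_pos S.pos (not_le.1 hlt)
      linarith) (norm_nonneg _)
    simp [h4]
  have h3 := int_norm_sq_map (stdOrthonormalBasis ℝ (Eu d)) T
  rw [integral_congr_ae h2, integral_zero] at h3
  have h4 := (Finset.sum_eq_zero_iff_of_nonneg fun i _ => sq_nonneg _).1 h3.symm
  apply ContinuousLinearMap.coe_injective
  refine (stdOrthonormalBasis ℝ (Eu d)).toBasis.ext fun i => ?_
  have := h4 i (Finset.mem_univ _)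
  simpa using this

/-- The position of minimal mean width. -/
theorem exists_min (S : Nrm h c R) (hd : 0 < d) :
    ∃ T : Eu d →L[ℝ] Eu d, T.det ≠ 0 ∧ ∫ y, h (T y) ∂stdGaussian (Eu d) = ad d ∧
      ∀ U : Eu d →L[ℝ] Eu d, ad d ^ d * |U.det| ≤ (∫ y, h (T (U y)) ∂stdGaussian (Eu d)) ^ d := by
  have hfr : Module.finrank ℝ (Eu d) = d := by simp
  have : Nontrivial (Eu d) := Module.nontrivial_of_finrank_pos (R := ℝ) (by rwa [hfr])
  have ha := ad_pos hd
  set l : (Eu d →L[ℝ] Eu d) → ℝ := fun T => ∫ y, h (T y) ∂stdGaussian (Eu d) with hl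
  have lc : Continuous l := S.l_cont
  have lpos : ∀ T : Eu d →L[ℝ] Eu d, T ≠ 0 → 0 < l T := fun T hT => S.l_pos hT
  have lsm : ∀ (a : ℝ) (T : Eu d →L[ℝ] Eu d), l (a • T) = |a| * l T := fun a T => by
    simp only [hl, _root_.smul_apply, S.smul]
    rw [integral_const_mul]
  have dsm : ∀ (a : ℝ) (T : Eu d →L[ℝ] Eu d), (a • T).det = a ^ d * T.det := fun a T => by
    rw [aspos_det_smul, hfr]
  have hK : IsCompact (Metric.sphere (0 : Eu d →L[ℝ] Eu d) 1) := isCompact_sphere _ _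
  have hne : ∀ T ∈ Metric.sphere (0 : Eu d →L[ℝ] Eu d) 1, T ≠ 0 := fun T hT h0 => by
    simp [h0] at hT
  have hcont : ContinuousOn (fun T : Eu d →L[ℝ] Eu d => |T.det| / l T ^ d)
      (Metric.sphere (0 : Eu d →L[ℝ] Eu d) 1) := by
    refine ContinuousOn.div (ContinuousLinearMap.continuous_det.abs.continuousOn)
      (lc.pow d).continuousOn fun T hT => (pow_pos (lpos T (hne T hT)) d).ne'
  obtain ⟨T1, hT1, hmax⟩ := hK.exists_isMaxOn
    ⟨ContinuousLinearMap.id ℝ (Eu d), by simp⟩ hcont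
  have l1 := lpos T1 (hne T1 hT1)
  set T0 : Eu d →L[ℝ] Eu d := (l T1)⁻¹ • T1 with hT0
  have d0 : |T0.det| = |T1.det| / l T1 ^ d := by
    rw [hT0, dsm, abs_mul, abs_of_pos (pow_pos (inv_pos.2 l1) _), inv_pow, div_eq_inv_mul]
  have key : ∀ V : Eu d →L[ℝ] Eu d, |V.det| ≤ |T0.det| * l V ^ d := fun V => by
    rcases eq_or_ne V 0 with rfl | hV
    · have e : (0 : Eu d →L[ℝ] Eu d).det = 0 := by
        have := dsm (0 : ℝ) (0 : Eu d →L[ℝ] Eu d)
        rw [zero_pow hd.ne', zero_mul] at this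
        have e0 : (0 : ℝ) • (0 : Eu d →L[ℝ] Eu d) = 0 := by
          ext y
          simp
        rwa [e0] at this
      rw [e, abs_zero]
      exact mul_nonneg (abs_nonneg _) (pow_nonneg (integral_nonneg fun y => S.nonneg _) _)
    · have hN : 0 < ‖V‖ := norm_pos_iff.2 hV
      have hm : ‖V‖⁻¹ • V ∈ Metric.sphere (0 : Eu d →L[ℝ] Eu d) 1 := by
        simp [norm_smul, hN.ne']
      have h1 := hmax hm
      simp only [Set.mem_ofPred_eq] at h1
      rw [← d0, dsm, lsm, abs_mul, abs_of_pos (pow_pos (inv_pos.2 hN) _),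
        abs_of_pos (inv_pos.2 hN), mul_pow,
        mul_div_mul_left _ _ (pow_pos (inv_pos.2 hN) _).ne',
        div_le_iff₀ (pow_pos (lpos V hV) _)] at h1
      exact h1
  have hdet : T0.det ≠ 0 := fun h0 => by
    have h1 := key (ContinuousLinearMap.id ℝ (Eu d))
    have e : (ContinuousLinearMap.id ℝ (Eu d)).det = 1 := by
      unfold ContinuousLinearMap.det
      simp
    rw [h0, e] at h1
    norm_num at h1
  have l0 : l T0 = 1 := by
    rw [hT0, lsm, abs_of_pos (inv_pos.2 l1), inv_mul_cancel₀ l1.ne']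
  refine ⟨ad d • T0, ?_, ?_, fun U => ?_⟩
  · rw [dsm]
    exact mul_ne_zero (pow_ne_zero _ ha.ne') hdet
  · change l (ad d • T0) = _
    rw [lsm, l0, abs_of_pos ha, mul_one]
  · have h1 := key (T0.comp U)
    have e : (T0.comp U).det = T0.det * U.det := by
      unfold ContinuousLinearMap.det
      exact LinearMap.det_comp (T0 : Eu d →ₗ[ℝ] Eu d) (U : Eu d →ₗ[ℝ] Eu d)
    rw [e, abs_mul] at h1
    have h2 := le_of_mul_le_mul_left h1 (abs_pos.2 hdet)
    change _ ≤ l (ad d • T0.comp U) ^ d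
    rw [lsm, abs_of_pos ha, mul_pow]
    exact mul_le_mul_of_nonneg_left h2 (by positivity)

end Nrm

lemma h1_nhds {M : Set (Eu d)} (hc : Convex ℝ M) (hi : (interior M).Nonempty) (hs : M = -M) :
    M ∈ 𝓝 (0 : Eu d) := by
  obtain ⟨a, ha⟩ := hi
  have h1 : -a ∈ M := by
    rw [hs]
    simpa using interior_subset ha
  have h2 := hc.combo_interior_self_mem_interior ha h1 (a := 1 / 2) (b := 1 / 2) (by norm_num)
    (by norm_num) (by norm_num)
  rw [← smul_add, add_neg_cancel, smul_zero] at h2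
  exact mem_interior_iff_mem_nhds.1 h2

lemma h1_nrm {M : Set (Eu d)} (hK : IsCompact M) (hc : Convex ℝ M) (hi : (interior M).Nonempty)
    (hs : M = -M) : ∃ c R, Nrm (gauge M) c R := by
  have h0 := h1_nhds hc hi hs
  have hab : Absorbent ℝ M := absorbent_nhds_zero h0
  have hbal : Balanced ℝ M := (balanced_iff_neg_mem hc).2 fun y hy => by
    rw [hs]
    simpa using hy
  obtain ⟨ρ, hρ, hb⟩ := hK.isBounded.subset_closedBall_lt 0 (0 : Eu d)
  obtain ⟨ε, hε, hb'⟩ := Metric.mem_nhds_iff.1 h0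
  refine ⟨ρ⁻¹, ε⁻¹, inv_pos.2 hρ, gauge_add_le hc hab, fun t y => gauge_smul hbal t y,
    fun y => ?_, fun y => ?_⟩
  · rw [← div_eq_inv_mul]
    exact le_gauge_of_subset_closedBall hab hρ.le hb
  · rw [le_inv_mul_iff₀ hε]
    exact mul_gauge_le_norm hb'

theorem exact_eq : ∃ d0 : ℕ, ∀ d ≥ d0, ∀ M : Set (Eu d), IsCompact M → Convex ℝ M →
    (interior M).Nonempty → M = -M → ∀ μ : ℝ,
    (∀ w : Fin d → Eu d, (∀ i, ∀ y ∈ M, |⟪w i, y⟫| ≤ 1) →
      (volume M).toReal * |(Matrix.of fun i l => w i l).det| ≤ μ) →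
    √Real.pi ^ d / Real.Gamma ((d : ℝ) / 2 + 1) ≤ μ ∧
      (μ ≤ √Real.pi ^ d / Real.Gamma ((d : ℝ) / 2 + 1) →
        ∃ T : Eu d ≃L[ℝ] Eu d, M = T '' Metric.closedBall 0 1) := by
  obtain ⟨d1, hd1⟩ := good_zero
  refine ⟨max 1 d1, fun d hd M hK hc hi hs μ hμ => ?_⟩
  have hdN : 0 < d := (le_max_left _ _).trans hd
  have : Nontrivial (Eu d) := Module.nontrivial_of_finrank_pos (R := ℝ) (by simpa using hdN)
  have h0 := h1_nhds hc hi hs
  obtain ⟨c, R, S⟩ := h1_nrm hK hc hi hs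
  obtain ⟨T, hT0, hT1, hT2⟩ := S.exists_min hdN
  have hT3 : 0 < |T.det| := abs_pos.2 hT0
  have hV0 : 0 ≤ (volume M).toReal := ENNReal.toReal_nonneg
  have hmem : ∀ y, gauge M y ≤ 1 ↔ y ∈ M := fun y => by
    rw [gauge_le_one_iff_mem_closure hc h0, hK.isClosed.closure_eq]
  have key : ∀ η : ℝ, 0 < η → (volume M).toReal * (1 + η)⁻¹ ^ d ≤ |T.det| * μ := by
    intro η hη
    have hη1 : 0 < 1 + η := by linarith
    obtain ⟨m, v, hv1, hv2⟩ := geo_approx hK hc hi hs hη
    obtain ⟨x, S1⟩ := exists_sel v (R := ∑ i, ‖v i‖) fun i =>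
      Finset.single_le_sum (f := fun i => ‖v i‖) (fun i _ => norm_nonneg _) (Finset.mem_univ i)
    have hh : ∀ y, (1 + η)⁻¹ * gauge M y ≤ hV v y := by
      intro y
      refine le_of_forall_pos_le_add fun t ht => ?_
      have h1 : 0 < hV v y + t := by linarith [S1.h_nonneg y]
      have h2 : (hV v y + t)⁻¹ • y ∈ (1 + η) • M := hv2 (by
        simp only [mem_ofPred_eq]
        rw [S1.h_smul, abs_of_pos (inv_pos.2 h1), inv_mul_le_iff₀ h1]
        linarith)
      have h3 := gauge_le_of_mem hη1.le h2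
      rw [S.smul, abs_of_pos (inv_pos.2 h1), inv_mul_le_iff₀ h1] at h3
      rw [inv_mul_le_iff₀ hη1]
      linarith
    set v' : Fin (m + 1) → Eu d := fun i => ContinuousLinearMap.adjoint T (v i) with hv'
    have hVT : ∀ y, hV v' y = hV v (T y) := fun y => by
      simp only [hV, hv', ContinuousLinearMap.adjoint_inner_left]
    obtain ⟨j, hj⟩ := hd1 d ((le_max_right _ _).trans hd) m v' (1 + η)⁻¹ (inv_pos.2 hη1)
      (fun U => by
        simp only [hVT]
        have h1 : (1 + η)⁻¹ * ∫ y, gauge M (T (U y)) ∂stdGaussian (Eu d) ≤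
            ∫ y, hV v (T (U y)) ∂stdGaussian (Eu d) := by
          rw [← integral_const_mul]
          exact integral_mono ((S.int_lin (T.comp U)).const_mul _) (S1.integrable_lin (T.comp U))
            fun y => hh _
        refine le_trans ?_ (pow_le_pow_left₀ (mul_nonneg (inv_pos.2 hη1).le
          (integral_nonneg fun y => S.nonneg _)) h1 d)
        rw [mul_pow, mul_pow, mul_assoc]
        exact mul_le_mul_of_nonneg_left (hT2 U) (by positivity))
    have hdet : dt (v' ∘ j) = T.det * (Matrix.of fun i l => (v ∘ j) i l).det :=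
      det_adjoint T (v ∘ j)
    rw [hdet, abs_mul, neg_zero, Real.exp_zero, one_mul] at hj
    have h2 := hμ (v ∘ j) fun i => hv1 (j i)
    calc (volume M).toReal * (1 + η)⁻¹ ^ d
        ≤ (volume M).toReal * (|T.det| * |(Matrix.of fun i l => (v ∘ j) i l).det|) :=
          mul_le_mul_of_nonneg_left hj hV0
      _ = |T.det| * ((volume M).toReal * |(Matrix.of fun i l => (v ∘ j) i l).det|) := by ring
      _ ≤ _ := mul_le_mul_of_nonneg_left h2 hT3.le
  have key2 : (volume M).toReal ≤ |T.det| * μ := by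
    have h1 : ContinuousAt (fun η : ℝ => (volume M).toReal * (1 + η)⁻¹ ^ d) 0 := by
      refine continuousAt_const.mul (ContinuousAt.pow (ContinuousAt.inv₀ (by fun_prop) ?_) d)
      norm_num
    have h2 := h1.tendsto.mono_left (nhdsWithin_le_nhds (s := Ioi (0 : ℝ)))
    simp only [add_zero, inv_one, one_pow, mul_one] at h2
    exact le_of_tendsto h2 (eventually_nhdsWithin_of_forall fun η hη => key η hη)
  let T' := T.toContinuousLinearEquivOfDetNeZero hT0
  have hTT : ∀ y, T' y = T y := fun y => rfl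
  obtain ⟨b1, b2⟩ := b5_main (fun y => gauge M (T y)) (S.cont.comp T.continuous)
    (fun t y ht => by rw [map_smul, S.smul, abs_of_pos ht])
    (fun y hy => by
      refine lt_of_lt_of_le (mul_pos S.pos (norm_pos_iff.2 fun h1 => ?_)) (S.low _)
      have h2 : y = 0 := T'.injective (by rw [hTT, h1, map_zero])
      simp [h2] at hy) hT1.le
  rw [b5_ball hdN] at b1 b2
  have h3 : (volume {y : Eu d | gauge M (T y) < 1}).toReal ≤ μ := by
    have h4 : {y : Eu d | gauge M (T y) < 1} ⊆ T ⁻¹' M := fun y (hy : gauge M (T y) < 1) =>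
      (hmem _).1 hy.le
    have h5 := Measure.addHaar_preimage_continuousLinearMap (volume : Measure (Eu d)) hT0 M
    have h6 := ENNReal.toReal_mono (by
      rw [h5]
      exact ENNReal.mul_ne_top ENNReal.ofReal_ne_top hK.measure_lt_top.ne)
      (measure_mono (μ := (volume : Measure (Eu d))) h4)
    rw [h5, ENNReal.toReal_mul, ENNReal.toReal_ofReal (abs_nonneg _)] at h6
    have e1 : |(LinearMap.det (T : Eu d →ₗ[ℝ] Eu d))⁻¹| = |T.det|⁻¹ := abs_inv _
    rw [e1] at h6
    refine h6.trans ?_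
    rwa [inv_mul_le_iff₀ hT3]
  refine ⟨b1.trans h3, fun hle => ⟨T', ?_⟩⟩
  have h7 := b2 (h3.trans hle)
  have h8 : ∀ y, gauge M (T y) = ‖y‖ := fun y => by
    rcases eq_or_ne y 0 with rfl | hy
    · simp
    · have hN : 0 < ‖y‖ := norm_pos_iff.2 hy
      have h9 := h7 (‖y‖⁻¹ • y) (by simp [norm_smul, hN.ne'])
      simp only [map_smul, S.smul, abs_of_pos (inv_pos.2 hN)] at h9
      rw [inv_mul_eq_one₀ hN.ne'] at h9
      exact h9.symm
  ext y
  obtain ⟨z, rfl⟩ := T'.surjective y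
  rw [T'.injective.mem_set_image, mem_closedBall_zero_iff, ← hmem, hTT, h8]

end Pool.Agent.Lib.MP_77d991_gt.Ex
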